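import Pool.Agent.P.MP_7ede32_ag.Bnd.DA
import Pool.Agent.P.MP_7ede32_ag.Full.AlgY

/-!
Coordinates, monic regular differentials and their greatest common divisor.
-/

open scoped WithZero IntermediateField Polynomial
open WithZero Polynomial

noncomputable section

namespace Pool.Agent.P.MP_7ede32_ag.Bnd

open Full

namespace Al1

variable {F : Type} [Field F]

lemma x_ne {k : Type} [Field k] [Algebra k F] (A : FD k F) (c : k) : A.x ≠ algebraMap k F c :=
  fun hc => by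
    have h1 := A.std.1 c
    rw [← hc, A.std.2] at h1
    exact one_ne_zero h1

lemma lifts_iff (O : ValuationSubring F) (p : F[X]) :
    p ∈ lifts (algebraMap O F) ↔ ∀ j, p.coeff j ∈ O := by
  rw [lifts_iff_coeff_lifts]
  exact forall_congr' fun j => ⟨fun ⟨y, hy⟩ => hy ▸ y.2, fun h => ⟨⟨_, h⟩, rfl⟩⟩

lemma comp_mem (O : ValuationSubring F) {p : F[X]} {u a b : F} (hp : ∀ j, u * p.coeff j ∈ O)
    (ha : a ∈ O) (hb : b ∈ O) (j : ℕ) : u * (p.comp (C a * X + C b)).coeff j ∈ O := by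
  obtain ⟨p₀, h0⟩ := (mem_lifts _).1 ((lifts_iff O (C u * p)).2 fun j => by
    rw [coeff_C_mul]; exact hp j)
  have h1 : C u * p.comp (C a * X + C b) =
      (p₀.comp (C (⟨a, ha⟩ : O) * X + C (⟨b, hb⟩ : O))).map (algebraMap O F) := by
    rw [map_comp, h0, mul_comp, C_comp]
    simp
  rw [← coeff_C_mul, h1, coeff_map]
  exact Subtype.property _

lemma lin (u b : F) : C u * (X - C b) = C u * X + C (-(u * b)) := by
  rw [C_neg, C_mul]; ring

lemma sb_deg (d δ : Der F) (η : F[X]) {y : F} (hy : d.D y ≠ 0) :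
    (sb d δ η y).natDegree = η.natDegree := by
  rw [sb, natDegree_comp, lin, natDegree_linear (inv_ne_zero hy), mul_one]

lemma sb_lc (d δ : Der F) (η : F[X]) {y : F} (hy : d.D y ≠ 0) :
    (sb d δ η y).leadingCoeff = η.leadingCoeff * (d.D y)⁻¹ ^ η.natDegree := by
  rw [sb, lin, leadingCoeff_comp (by rw [natDegree_linear (inv_ne_zero hy)]; exact one_ne_zero),
    leadingCoeff_linear (inv_ne_zero hy)]

lemma sb_sb (d δ : Der F) (η : F[X]) {y y' : F} (hy : d.D y ≠ 0) (hy' : d.D y' ≠ 0) :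
    sb d δ η y' = (sb d δ η y).comp
      (C (d.D y / d.D y') * X + C (δ.D y - δ.D y' * (d.D y / d.D y'))) := by
  rw [sb, sb, comp_assoc]
  congr 1
  rw [lin, lin, add_comp, mul_comp, C_comp, C_comp, X_comp, mul_add, ← mul_assoc, ← C_mul,
    ← C_mul, add_assoc, ← C_add]
  congr 2
  · congr 1
    field_simp
  · field_simp
    ring

/-- Gauss lemma -/
lemma gauss (O : ValuationSubring F) {p q : F[X]} (hq0 : q ≠ 0)
    (hq : ∀ j, q.coeff j / q.leadingCoeff ∈ O) (hd : p ∣ q) (j : ℕ) :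
    p.coeff j / p.leadingCoeff ∈ O := by
  have hp0 : p.leadingCoeff ≠ 0 := leadingCoeff_ne_zero.2 (ne_zero_of_dvd_ne_zero hq0 hd)
  obtain ⟨f, h1, -, h2⟩ := lifts_and_natDegree_eq_and_monic
    ((lifts_iff O (q * C q.leadingCoeff⁻¹)).2 fun j => by
      rw [coeff_mul_C, ← div_eq_mul_inv]; exact hq j) (monic_mul_leadingCoeff_inv hq0)
  obtain ⟨g, hg⟩ := IsIntegrallyClosed.eq_map_mul_C_of_dvd F h2 (g := p)
    (by rw [h1]; exact hd.mul_right _)
  have := congrArg (fun r : F[X] => r.coeff j) hg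
  simp only [coeff_mul_C, coeff_map] at this
  rw [← this, mul_div_cancel_right₀ _ hp0]
  exact Subtype.property _

lemma coeff_taylor {p : F[X]} {n : ℕ} (hp : p.natDegree ≤ n + 1) (t : F) :
    (taylor t p).coeff n = p.coeff n + (n + 1) * p.coeff (n + 1) * t := by
  have h1 : (hasseDeriv n p).natDegree < 2 := by
    have := natDegree_hasseDeriv_le p n
    omega
  rw [taylor_coeff, eval_eq_sum_range' h1, Finset.sum_range_succ, Finset.sum_range_one,
    hasseDeriv_coeff, hasseDeriv_coeff, add_comm 1 n, Nat.choose_succ_self_right]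
  simp

end Al1

open Al1

theorem sKap (h : SLoc) : SKap := by
  intro k F _ _ _ _ _ A 𝒞
  classical
  obtain ⟨-, l2⟩ := h k F 𝒞
  obtain ⟨-, l2b, l2c, -, κ, hκ⟩ := l2 A.d A.x A.std
  have hx : A.x ≠ 0 := fun h0 => x_ne A 0 (by rw [h0, map_zero])
  have hco : ∀ P y, Coord A.d (𝒞.v P) y → 𝒞.v P (A.d.D y) = exp (κ P) := fun P y hy => by
    obtain ⟨c, hc⟩ := l2c P y hy
    have := hκ P _ hc
    rwa [Der.D_sub, A.std.1, sub_zero] at this
  have hle : ∀ P z, 𝒞.v P z ≤ 1 → 𝒞.v P (A.d.D z) ≤ exp (κ P) := fun P z hz => by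
    obtain ⟨π, hπ⟩ := 𝒞.unif P
    rw [← hκ P π hπ]
    exact (l2b P π hπ).2.2 z hz
  have hy : ∀ P, ∃ y, Coord A.d (𝒞.v P) y ∧ (𝒞.v P A.x = 1 ∧ κ P = 0 → y = A.x) := fun P => by
    by_cases hP : 𝒞.v P A.x = 1 ∧ κ P = 0
    · refine ⟨A.x, ⟨hP.1.le, by rw [A.std.2]; exact one_ne_zero, fun z hz => ?_⟩, fun _ => rfl⟩
      have := hle P z hz
      rwa [hP.2, exp_zero, ← (𝒞.v P).map_one, ← A.std.2] at this
    · obtain ⟨π, hπ⟩ := 𝒞.unif P
      exact ⟨π, l2b P π hπ, fun h0 => absurd h0 hP⟩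
  choose y hy hyx using hy
  let γ : 𝒞.Pl →₀ ℤ := Finsupp.ofSupportFinite (fun P => max 0 (log (𝒞.v P (A.δ.D (y P)))))
    (((𝒞.fin A.x hx).union κ.hasFiniteSupport).subset fun P hP => by
      by_contra h0
      simp only [Set.mem_union, Set.mem_ofPred_eq, Function.mem_support, not_or, not_not] at h0
      exact hP (by simp [hyx P h0, A.δx]))
  refine ⟨κ, γ, y, ?_, fun P => ⟨le_max_left _ _, hy P, hco P _ (hy P),
    le_exp_log.trans (exp_le_exp.2 (le_max_right _ _))⟩⟩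
  by_contra hk
  have hR := 𝒞.regV A.reg A.std
  have h1 : ∀ P, log (𝒞.v P A.a) ≤ A.μ * κ P ∧ 𝒞.v P (A.x * A.a) ≤ exp (A.μ * κ P) := fun P => by
    obtain ⟨z, h1, -, h3, h4⟩ := hR P
    have h5 : 𝒞.v P (A.d.D z) ^ A.μ ≤ exp (A.μ * κ P) := by
      rw [← nsmul_eq_mul, exp_nsmul]
      exact pow_le_pow_left' (hle P z h1) _
    exact ⟨(log_le_iff_le_exp ((𝒞.v P).ne_zero_iff.2 A.a_ne)).2 (h3.trans h5), h4.trans h5⟩
  let D : 𝒞.Pl →₀ ℤ := (A.μ : ℤ) • κ - MP_68ca4e_ag.M.ff2Dv 𝒞.fin A.a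
  have hD : ∀ P, D P = A.μ * κ P - log (𝒞.v P A.a) := fun P => rfl
  have h2 : D.degree ≤ 0 := by
    simp only [D, map_sub, map_zsmul, smul_eq_mul, MP_68ca4e_ag.M.ff2Dv_degree, 𝒞.prod _ A.a_ne,
      sub_zero]
    exact mul_nonpos_of_nonneg_of_nonpos (by positivity) (by omega)
  have h3 : ∀ P, 0 ≤ D P := fun P => by rw [hD]; linarith [(h1 P).1]
  have h4 : ∀ P, D P = 0 := fun P => by
    by_contra h5
    rw [Finsupp.degree_apply] at h2
    have := Finset.single_le_sum (fun Q _ => h3 Q) (Finsupp.mem_support_iff.2 h5)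
    have := h3 P
    omega
  obtain ⟨c, hc⟩ := 𝒞.const_of (u := A.x) fun P => by
    have h5 := (h1 P).2
    have h6 : 𝒞.v P A.a ≠ 0 := (𝒞.v P).ne_zero_iff.2 A.a_ne
    rwa [sub_eq_zero.1 ((hD P).symm.trans (h4 P)), exp_log h6, map_mul,
      mul_le_iff_le_one_left (zero_lt_iff.2 h6)] at h5
  exact x_ne A c hc

theorem sNeg (h : SKap) : SNeg := by
  intro k F _ _ _ _ _ A
  obtain ⟨𝒞⟩ := exists_fc A.cf
  obtain ⟨κ, γ, y, hκ, hy⟩ := h k F A 𝒞
  refine ⟨?_, fun O hO => ?_, fun z j hj hz => ?_⟩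
  · have : κ ≠ 0 := by
      rintro rfl
      simp at hκ
    obtain ⟨P, -⟩ := Finsupp.support_nonempty_iff.2 this
    exact ⟨_, isPl_v 𝒞 P⟩
  · obtain ⟨P, rfl⟩ := 𝒞.all O hO.1 hO.2
    exact ⟨y P, (coO_iff _).2 (hy P).2.1⟩
  · by_contra h0
    have h1 : z ∈ 𝒞.toCurve.L (-((j : ℤ) • κ)) := 𝒞.toCurve.mem_L.2 fun P => by
      have h2 := hz _ (isPl_v 𝒞 P) (y P) ((coO_iff _).2 (hy P).2.1)
      rw [Valuation.mem_valuationSubring_iff, map_mul, map_pow, (hy P).2.2.1, ← exp_nsmul,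
        ← le_div_iff₀ (zero_lt_iff.2 exp_ne_zero), one_div, ← exp_neg] at h2
      simpa using h2
    have h2 := 𝒞.toCurve.degree_nonneg h1 h0
    rw [map_neg, map_zsmul, smul_eq_mul] at h2
    have : (0 : ℤ) < j * κ.degree := mul_pos (by exact_mod_cast hj) (by omega)
    omega

theorem sCoord (h : SLoc) : SCoord := by
  have key : ∀ (k F : Type) [Field k] [IsAlgClosed k] [CharZero k] [Field F] [Algebra k F]
      (A : FD k F) (O : ValuationSubring F) (y : F), IsPl k O → CoO A.d O y →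
      ∀ z ∈ O, A.δ.D z - A.δ.D y * (A.d.D z / A.d.D y) ∈ O := by
    intro k F _ _ _ _ _ A O y hO hy z hz
    obtain ⟨𝒞⟩ := exists_fc A.cf
    obtain ⟨P, rfl⟩ := 𝒞.all O hO.1 hO.2
    obtain ⟨l1, l2⟩ := h k F 𝒞
    obtain ⟨-, -, l3, -⟩ := l2 A.d A.x A.std
    obtain ⟨c, hc⟩ := l3 P y ((coO_iff _).1 hy)
    have hp := AlgY.comb_pres A.std A.pres (-(A.δ.D y / A.d.D y))
    have h1 := l1 _ P _ hp hc (by
      obtain ⟨c', h'⟩ := hp c
      have : (AlgY.comb A.δ A.d (-(A.δ.D y / A.d.D y))).D y = 0 := by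
        have := hy.2.1
        rw [AlgY.comb_D]; field_simp; ring
      rw [Der.D_sub, this, h', zero_sub, Valuation.map_neg]
      exact 𝒞.const P c') z hz
    rw [AlgY.comb_D] at h1
    rw [Valuation.mem_valuationSubring_iff]
    convert h1 using 2
    ring
  intro k F _ _ _ _ _ A O y hO hy
  refine ⟨key k F A O y hO hy, fun y' χ η hy' => ?_⟩
  have ha := hy'.2.2 y hy.1
  have hb := key k F A O y' hO hy' y hy.1
  have e := sb_sb A.d A.δ η hy.2.1 hy'.2.1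
  refine ⟨fun hR j => ⟨?_, ?_⟩, fun hM => ⟨hM.1, fun j => ?_, fun hχ => ?_⟩⟩
  · rw [e, ← one_mul (coeff _ _)]
    exact comp_mem O (fun j => by rw [one_mul]; exact (hR j).1) ha hb j
  · rw [e]
    exact comp_mem O (fun j => (hR j).2) ha hb j
  all_goals
    have h1 : (sb A.d A.δ η y').leadingCoeff⁻¹ =
        (sb A.d A.δ η y).leadingCoeff⁻¹ * (A.d.D y' / A.d.D y) ^ η.natDegree := by
      have := hy.2.1
      rw [sb_lc _ _ _ hy.2.1, sb_lc _ _ _ hy'.2.1, mul_inv, mul_inv, inv_pow, inv_pow, inv_inv,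
        inv_inv, mul_assoc, ← mul_pow, mul_div_cancel₀ _ this]
    have h2 := pow_mem (hy.2.2 y' hy'.1) η.natDegree
  · rw [div_eq_inv_mul, h1, mul_right_comm]
    refine mul_mem ?_ h2
    rw [e]
    exact comp_mem O (fun j => by rw [← div_eq_inv_mul]; exact hM.2.1 j) ha hb j
  · rw [h1]
    exact mul_mem (hM.2.2 hχ) h2

theorem sMon (h1 : SKap) (h2 : SSurj) (h3 : SCoord) : SMon := by
  intro k F _ _ _ _ _ A χ hχ O hO
  obtain ⟨𝒞⟩ := exists_fc A.cf
  obtain ⟨κ, γ, y, hκ, hy⟩ := h1 k F A 𝒞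
  obtain ⟨P₀, rfl⟩ := 𝒞.all O hO.1 hO.2
  let e : 𝒞.Pl →₀ ℤ := MP_68ca4e_ag.M.ff2Dv 𝒞.fin χ ⊔ 0
  have he : ∀ P, e P = max (log (𝒞.v P χ)) 0 := fun P => rfl
  obtain ⟨η, a1, a2, a3⟩ := h2 k F 𝒞 κ γ e (fun P => (A.d.D (y P))⁻¹) (fun P => A.δ.D (y P)) hκ
    (fun P => (hy P).1) (fun P => by rw [map_inv₀, (hy P).2.2.1, exp_neg]) (fun P => (hy P).2.2.2) P₀
  refine ⟨η, fun O hO z hz => ?_, fun z hz => ?_⟩
  · obtain ⟨P, rfl⟩ := 𝒞.all O hO.1 hO.2
    refine ((h3 k F A _ (y P) hO ((coO_iff _).2 (hy P).2.1)).2 z χ η hz).1 fun j => ⟨?_, ?_⟩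
    · refine (a2 P j).trans ?_
      rw [← exp_zero, exp_le_exp, he]
      omega
    · rw [Valuation.mem_valuationSubring_iff, map_mul,
        ← exp_log ((𝒞.v P).ne_zero_iff.2 hχ)]
      refine (mul_le_mul' le_rfl (a2 P j)).trans ?_
      rw [← exp_add, ← exp_zero, exp_le_exp, he]
      omega
  · refine ((h3 k F A _ (y P₀) hO ((coO_iff _).2 (hy P₀).2.1)).2 z χ η hz).2
      ⟨a1, fun j => ?_, fun h => ?_⟩
    · rw [Valuation.mem_valuationSubring_iff, map_div₀, sb, a3,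
        div_le_one₀ (zero_lt_iff.2 exp_ne_zero)]
      exact a2 P₀ j
    · rw [Valuation.mem_valuationSubring_iff, ← exp_log ((𝒞.v P₀).ne_zero_iff.2 hχ), ← exp_zero,
        exp_le_exp] at h
      rw [Valuation.mem_valuationSubring_iff, map_inv₀, sb, a3, he, max_eq_right h]
      simp

theorem sGcd (h1 : SMon) (h2 : SNeg) : SGcd := by
  intro k F _ _ _ _ _ A
  obtain ⟨⟨O₀, hO₀⟩, n2, n3⟩ := h2 k F A
  refine ⟨fun χ hχ => ?_, fun θ θ' a b => sub_eq_zero.1 (n3 _ 1 one_pos fun O hO y hy => ?_)⟩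
  swap
  · convert sub_mem (a O hO y hy) (b O hO y hy) using 1
    ring
  obtain ⟨g, hg, hm, hdv⟩ : ∃ g ∈ Ideal.span (RR k A.d A.δ χ), g.Monic ∧
      ∀ η ∈ RR k A.d A.δ χ, g ∣ η := by
    obtain ⟨g, hg⟩ := (IsPrincipalIdealRing.principal (Ideal.span (RR k A.d A.δ χ))).principal
    have hd : ∀ η ∈ RR k A.d A.δ χ, g ∣ η := fun η hη => by
      have := Ideal.subset_span hη
      rwa [hg, SetLike.mem_coe, Ideal.submodule_span_eq, Ideal.mem_span_singleton] at this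
    have h0 : g ≠ 0 := by
      rintro rfl
      obtain ⟨η, hη, hM⟩ := h1 k F A χ hχ O₀ hO₀
      obtain ⟨y, hy⟩ := n2 O₀ hO₀
      have := (hM y hy).1
      rw [zero_dvd_iff.1 (hd η hη)] at this
      simp at this
    refine ⟨g * C g.leadingCoeff⁻¹, Ideal.mul_mem_right _ _ ?_, monic_mul_leadingCoeff_inv h0,
      fun η hη => ?_⟩
    · rw [hg]; exact Submodule.mem_span_singleton_self g
    · exact (IsUnit.mul_right_dvd (isUnit_C.2 (inv_ne_zero (leadingCoeff_ne_zero.2 h0)).isUnit)).2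
        (hd η hη)
  rcases hn : g.natDegree with _ | n
  · exact Or.inl (hm.natDegree_eq_zero.1 hn ▸ hg)
  have hF : CharZero F := charZero_of_injective_algebraMap (algebraMap k F).injective
  have hn0 : ((n : F) + 1) ≠ 0 := Nat.cast_add_one_ne_zero n
  obtain ⟨θ, hθ⟩ : ∃ θ : F, g.coeff n + (n + 1) * θ = 0 := ⟨-g.coeff n / (n + 1), by field_simp; ring⟩
  have hc : g.coeff (n + 1) = 1 := hn ▸ hm.coeff_natDegree
  obtain ⟨p, hp⟩ : ∃ p, p = taylor θ g := ⟨_, rfl⟩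
  have p1 : p.natDegree = n + 1 := by rw [hp, natDegree_taylor, hn]
  have p2 : p.coeff (n + 1) = 1 := by rw [hp, ← hn, coeff_taylor_natDegree, hm.leadingCoeff]
  have p3 : p.coeff n = 0 := by rw [hp, coeff_taylor hn.le, hc, mul_one, hθ]
  have p4 : g = taylor (-θ) p := by rw [hp, taylor_taylor, neg_add_cancel, taylor_zero]
  have key : ∀ O, IsPl k O → ∀ y, CoO A.d O y → A.δ.D y + θ * A.d.D y ∈ O ∧
      ∀ j, A.d.D y ^ (n + 1) * (p.coeff j * (A.d.D y)⁻¹ ^ j) ∈ O := by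
    intro O hO y hy
    have hd := hy.2.1
    obtain ⟨η, hη, hM⟩ := h1 k F A χ hχ O hO
    obtain ⟨m1, m2, -⟩ := hM y hy
    have g1 : ∀ j, A.d.D y ^ (n + 1) * (sb A.d A.δ g y).coeff j ∈ O := fun j => by
      have := gauss O (p := sb A.d A.δ g y) (fun h0 => by
        rw [← sb_deg A.d A.δ η hd, h0] at m1
        simp at m1) m2 (by
          obtain ⟨c, rfl⟩ := hdv η hη
          rw [sb_mul]
          exact dvd_mul_right _ _) j
      rwa [sb_lc _ _ _ hd, hm.leadingCoeff, one_mul, hn, inv_pow, div_inv_eq_mul, mul_comm] at this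
    obtain ⟨q, hq⟩ : ∃ q, q = p.comp (C (A.d.D y)⁻¹ * X) := ⟨_, rfl⟩
    have q1 : ∀ j, q.coeff j = p.coeff j * (A.d.D y)⁻¹ ^ j := fun j => by
      rw [hq, comp_C_mul_X_coeff]
    have q2 : sb A.d A.δ g y = taylor (-(A.δ.D y + θ * A.d.D y)) q := by
      rw [sb, p4, hq, taylor_apply, taylor_apply, comp_assoc, comp_assoc]
      congr 1
      rw [lin, add_comp, X_comp, C_comp, mul_comp, C_comp, X_comp, mul_add, ← C_mul, add_assoc,
        ← C_add]
      congr 2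
      field_simp
      ring
    have q3 : q.natDegree ≤ n + 1 := natDegree_le_iff_coeff_eq_zero.2 fun j hj => by
      rw [q1, coeff_eq_zero_of_natDegree_lt (p1 ▸ hj), zero_mul]
    have t1 : A.δ.D y + θ * A.d.D y ∈ O := by
      have a1 := g1 n
      rw [q2, coeff_taylor q3, q1, q1, p2, p3] at a1
      have a2 := hO.2 ((n : k) + 1)⁻¹
      rw [map_inv₀, map_add, map_natCast, map_one] at a2
      convert neg_mem (mul_mem a2 a1) using 1
      rw [inv_pow, inv_pow]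
      field_simp
      ring
    refine ⟨t1, fun j => ?_⟩
    have := comp_mem O g1 O.one_mem t1 j
    rwa [C_1, one_mul, ← taylor_apply, q2, taylor_taylor, add_neg_cancel, taylor_zero, q1] at this
  refine Or.inr ⟨θ, n + 1, fun O hO y hy => (key O hO y hy).1, ?_⟩
  have p5 : p = X ^ (n + 1) := by
    ext j
    rw [coeff_X_pow]
    split_ifs with hj
    · rw [hj, p2]
    rcases lt_or_gt_of_ne hj with hj | hj
    · refine n3 _ (n + 1 - j) (by omega) fun O hO y hy => ?_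
      convert (key O hO y hy).2 j using 1
      have := hy.2.1
      rw [pow_sub₀ _ this hj.le, inv_pow]
      ring
    · exact coeff_eq_zero_of_natDegree_lt (p1 ▸ hj)
  rwa [p4, p5, taylor_X_pow, C_neg, ← sub_eq_add_neg] at hg

end Pool.Agent.P.MP_7ede32_ag.Bnd
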