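import Pool.Agent.P.MP_7ede32_ag.Bnd.Al1
import Pool.Agent.P.MP_7ede32_ag.Full.CertP

/-!
Galois descent for the regular differentials, first integrals.
-/

open scoped WithZero IntermediateField Polynomial
open WithZero Polynomial

noncomputable section

namespace Pool.Agent.P.MP_7ede32_ag.Bnd

open Full

namespace Al2

section

variable {k F M : Type} [Field k] [Field F] [CharZero F] [Algebra k F] [Field M] [Algebra M F]

lemma top (A : AD k F M) : IntermediateField.adjoin M (Set.range (algebraMap k F)) = ⊤ := by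
  rw [eq_top_iff]
  intro z _
  have h : z ∈ Subfield.closure (Set.range (algebraMap k F) ∪ Set.range (algebraMap M F)) :=
    A.gen ▸ Subfield.mem_top z
  rw [Set.union_comm] at h
  exact h

lemma alg0 (A : AD k F M) (c : k) : IsAlgebraic A.K₀ (algebraMap k F c) :=
  isAlgebraic_of_mem_acl _ (by
    rintro _ ⟨y, hy, rfl⟩
    exact ⟨⟨y, hy⟩, rfl⟩) (A.alg c)

lemma normal [IsAlgClosed k] (A : AD k F M) : Normal M F := by
  have h1 : ∀ z ∈ Set.range (algebraMap k F), IsIntegral M z ∧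
      ((minpoly M z).map (algebraMap M F)).Splits := by
    rintro _ ⟨c, rfl⟩
    obtain ⟨p, hp, hc⟩ := alg0 A c
    refine ⟨((alg0 A c).tower_top M).isIntegral, ?_⟩
    obtain ⟨q, hq⟩ := (mem_lifts (f := algebraMap k F) (p.map (algebraMap A.K₀ F))).1 (by
      rw [lifts_iff_coeff_lifts]
      intro n
      obtain ⟨c, hc⟩ := A.const _ (p.coeff n).2
      exact ⟨c, by rw [coeff_map, ← hc]; rfl⟩)
    refine ((IsAlgClosed.splits q).map (algebraMap k F)).of_dvd ?_ ?_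
    · rw [hq]
      exact Polynomial.map_ne_zero hp
    · rw [hq, IsScalarTower.algebraMap_eq A.K₀ M F, ← Polynomial.map_map]
      exact Polynomial.map_dvd _ (minpoly.dvd M (algebraMap k F c) (by rwa [aeval_map_algebraMap]))
  refine normal_iff.2 fun z => ⟨?_, IntermediateField.splits_of_mem_adjoin M F h1
    (top A ▸ IntermediateField.mem_top)⟩
  have : IntermediateField.adjoin M (Set.range (algebraMap k F)) ≤ algebraicClosure M F :=
    IntermediateField.adjoin_le_iff.2 fun z hz => mem_algebraicClosure_iff'.2 (h1 z hz).1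
  exact mem_algebraicClosure_iff'.1 (this (top A ▸ IntermediateField.mem_top))

end

lemma orbit_finite {M F : Type} [Field M] [Field F] [Algebra M F] [Algebra.IsAlgebraic M F]
    (η : F[X]) : (Set.range fun σ : F ≃ₐ[M] F => η.map (σ : F →+* F)).Finite := by
  induction η using Polynomial.induction_on' with
  | add p q hp hq =>
    refine (hp.image2 (· + ·) hq).subset ?_
    rintro _ ⟨σ, rfl⟩
    exact ⟨_, ⟨σ, rfl⟩, _, ⟨σ, rfl⟩, (Polynomial.map_add _).symm⟩
  | monomial n a =>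
    refine (((minpoly M a).rootSet_finite F).image (monomial n)).subset ?_
    rintro _ ⟨σ, rfl⟩
    refine ⟨σ a, mem_rootSet.2 ⟨minpoly.ne_zero (Algebra.IsIntegral.isIntegral a), ?_⟩, by simp⟩
    rw [aeval_algHom_apply, minpoly.aeval, map_zero]

/-- the coefficients of a product of linear factors -/
lemma prod_coeff {R : Type} [CommRing R] (I : Set R) (h0 : 0 ∈ I)
    (ha : ∀ a ∈ I, ∀ b ∈ I, a + b ∈ I) (hn : ∀ a ∈ I, -a ∈ I) (hm : ∀ a ∈ I, ∀ b ∈ I, a * b ∈ I)
    (S : Finset R) (hS : ∀ s ∈ S, s ∈ I) (j : ℕ) :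
    (∏ s ∈ S, (X - C s) - X ^ S.card).coeff j ∈ I := by
  classical
  induction S using Finset.induction_on generalizing j with
  | empty => simpa using h0
  | insert s S hs ih =>
    have i1 := ih fun t ht => hS t (Finset.mem_insert_of_mem ht)
    have i2 := hS s (Finset.mem_insert_self _ _)
    have e : ∏ t ∈ insert s S, (X - C t) - X ^ (insert s S).card =
        X * (∏ s ∈ S, (X - C s) - X ^ S.card) +
          (-(C s * (∏ s ∈ S, (X - C s) - X ^ S.card)) + -(C s * X ^ S.card)) := by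
      rw [Finset.prod_insert hs, Finset.card_insert_of_notMem hs]
      ring
    rw [e, coeff_add, coeff_add, coeff_neg, coeff_neg, coeff_C_mul, coeff_C_mul_X_pow]
    refine ha _ ?_ _ (ha _ (hn _ (hm _ i2 _ (i1 j))) _ (hn _ ?_))
    · cases j with
      | zero => simpa using h0
      | succ j => rw [coeff_X_mul]; exact i1 j
    · split_ifs
      exacts [i2, h0]

end Al2

open Al2

theorem sGal (h : SUniq) : SGal := by
  intro k F M _ _ _ _ _ _ _ _ A
  have := (algebraMap M F).charZero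
  have := normal A
  refine ⟨⟨⟩, fun σ => ?_⟩
  have key : ∀ (d : Der F) (d₀ : Der M),
      (∀ z, algebraMap M F (d₀.D z) = d.D (algebraMap M F z)) → ∀ z, σ (d.D z) = d.D (σ z) :=
    fun d d₀ hd z => sub_eq_zero.1 <| h M F F (σ : F →+* F) (fun z => σ (d.D z) - d.D (σ z)) 0
      inferInstance (fun a b => by simp only [d.D_add, map_add]; ring)
      (fun a b => by simp only [d.D_mul, map_add, map_mul, RingHom.coe_coe]; ring)
      (fun c => by rw [← hd, σ.commutes, σ.commutes, hd, sub_self])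
      (by simp [d.D_zero]) z
  refine ⟨fun c => ?_, key _ _ A.hd, key _ _ A.hδ⟩
  have h1 : IsAlgebraic A.K₀ (σ (algebraMap k F c)) :=
    (alg0 A c).algHom (σ.restrictScalars A.K₀).toAlgHom
  have h2 : σ (algebraMap k F c) ∈ acl (Set.range (algebraMap k F)) :=
    mem_acl_of_isAlgebraic (RingHom.injective _) (fun r => by
      obtain ⟨c, hc⟩ := A.const _ r.2
      exact subset_acl _ ⟨c, hc.symm⟩) h1
  obtain ⟨c', hc⟩ := MP_68ca4e_ag.M.ff2_alg (isAlgebraic_of_mem_acl k subset_rfl h2)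
  exact ⟨c', hc.symm⟩

theorem sDsc (h1 : SGal) (h2 : SGcd) : SDsc := by
  intro k F M _ _ _ _ _ _ _ _ A
  classical
  obtain ⟨hG, hσ⟩ := h1 k F M A
  have tr : ∀ (σ : F ≃ₐ[M] F) O, IsPl k O → ∀ y, CoO A.d O y →
      IsPl k (O.comap (σ : F →+* F)) ∧ CoO A.d (O.comap (σ : F →+* F)) (σ.symm y) := by
    intro σ O hO y hy
    obtain ⟨s1, s2, -⟩ := hσ σ
    have m : ∀ z, z ∈ O.comap (σ : F →+* F) ↔ σ z ∈ O := fun z => Iff.rfl
    refine ⟨⟨fun h => hO.1 (eq_top_iff.2 fun z _ => ?_), fun c => ?_⟩, ?_, fun h => hy.2.1 ?_,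
      fun z hz => ?_⟩
    · have : σ.symm z ∈ O.comap (σ : F →+* F) := h ▸ ValuationSubring.mem_top _
      rwa [m, σ.apply_symm_apply] at this
    · obtain ⟨c', hc⟩ := s1 c
      rw [m, hc]
      exact hO.2 c'
    · rw [m, σ.apply_symm_apply]
      exact hy.1
    · rw [← σ.apply_symm_apply y, ← s2, h, map_zero]
    · rw [m, map_div₀, s2, s2, σ.apply_symm_apply]
      exact hy.2.2 _ hz
  refine ⟨fun χ η hη => ?_, fun θ hθ => ?_⟩
  swap
  · refine (InfiniteGalois.mem_range_algebraMap_iff_fixed θ).2 fun σ =>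
      (h2 k F A.toFD).2 _ _ (fun O hO y hy => ?_) hθ
    obtain ⟨t1, t2⟩ := tr σ O hO y hy
    have : σ _ ∈ O := hθ _ t1 _ t2
    rwa [map_add, map_mul, (hσ σ).2.1, (hσ σ).2.2, σ.apply_symm_apply] at this
  have mp : ∀ σ : F ≃ₐ[M] F, η.map (σ : F →+* F) ∈ RR k A.d A.δ (algebraMap M F χ) := by
    intro σ O hO y hy j
    obtain ⟨t1, t2⟩ := tr σ O hO y hy
    have e : sb A.d A.δ (η.map (σ : F →+* F)) y =
        (sb A.d A.δ η (σ.symm y)).map (σ : F →+* F) := by
      simp [sb, map_comp, (hσ σ).2.1, (hσ σ).2.2]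
    obtain ⟨a1, a2⟩ := hη _ t1 _ t2 j
    rw [e, coeff_map]
    refine ⟨a1, ?_⟩
    have : σ _ ∈ O := a2
    rwa [map_mul, σ.commutes] at this
  obtain ⟨S, hS⟩ : ∃ S : Finset F[X], ∀ s, s ∈ S ↔ ∃ σ : F ≃ₐ[M] F, η.map (σ : F →+* F) = s :=
    ⟨(orbit_finite η).toFinset, fun s => by rw [Set.Finite.mem_toFinset]; rfl⟩
  have h0 : η ∈ S := (hS η).2 ⟨AlgEquiv.refl, map_id⟩
  obtain ⟨p, hp⟩ : ∃ p : F[X][X], p = ∏ s ∈ S, (X - C s) - X ^ S.card := ⟨_, rfl⟩
  have p1 : ∀ j, p.coeff j ∈ RR k A.d A.δ (algebraMap M F χ) := fun j => hp ▸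
    prod_coeff _ (RR.zero _ _ _) (fun _ a _ b => RR.add a b) (fun _ a => RR.neg a)
      (fun _ a _ b => RR.mul a b) S (fun s hs => by
        obtain ⟨σ, rfl⟩ := (hS s).1 hs
        exact mp σ) j
  have p2 : ∀ σ : F ≃ₐ[M] F, p.map (mapRingHom (σ : F →+* F)) = p := fun σ => by
    have mem : ∀ (τ : F ≃ₐ[M] F), ∀ s ∈ S, s.map (τ : F →+* F) ∈ S := fun τ s hs => by
      obtain ⟨ρ, rfl⟩ := (hS s).1 hs
      exact (hS _).2 ⟨ρ.trans τ, by rw [map_map]; rfl⟩
    rw [hp, Polynomial.map_sub, Polynomial.map_pow, map_X, Polynomial.map_prod]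
    congr 1
    refine Finset.prod_nbij' (fun s => s.map (σ : F →+* F)) (fun s => s.map (σ.symm : F →+* F))
      (mem σ) (mem σ.symm) (fun s _ => ?_) (fun s _ => ?_) (fun s _ => by simp)
    · ext j
      simp
    · ext j
      simp
  have p3 : ∀ j, ∃ c : M[X], c.map (algebraMap M F) = p.coeff j := fun j => by
    rw [← mem_lifts, lifts_iff_coeff_lifts]
    refine fun i => (InfiniteGalois.mem_range_algebraMap_iff_fixed _).2 fun σ => ?_
    have := congrArg (fun r : F[X][X] => (r.coeff j).coeff i) (p2 σ)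
    simpa using this
  choose c hc using p3
  have hN : 0 < S.card := Finset.card_pos.2 ⟨η, h0⟩
  refine ⟨S.card, c, hN, fun j => ?_, ?_⟩
  · have := p1 j
    rwa [← hc] at this
  · have p4 : p.natDegree < S.card := by
      by_cases hp0 : p = 0
      · rw [hp0]; exact hN
      have hm : (∏ s ∈ S, (X - C s) : F[X][X]).Monic :=
        monic_prod_of_monic _ _ fun s _ => monic_X_sub_C s
      have hd : (∏ s ∈ S, (X - C s) : F[X][X]).degree = S.card := by
        rw [degree_prod]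
        simp
      rw [natDegree_lt_iff_degree_lt hp0, hp, ← hd]
      exact degree_sub_lt_left (by rw [hd, degree_X_pow]) hm.ne_zero
        (by rw [hm.leadingCoeff, leadingCoeff_X_pow])
    simp only [hc]
    rw [← eval_eq_sum_range' p4, hp, eval_sub, eval_prod, Finset.prod_eq_zero h0 (by simp)]
    simp

theorem sFi2 (h1 : SLoc) (h2 : SInvP) (h3 : SFi) : SFi2 := by
  intro k F M _ _ _ _ _ _ _ _ A θ hθ
  have := normal A
  obtain ⟨𝒞⟩ := exists_fc A.cf
  obtain ⟨l1, l2⟩ := h1 k F 𝒞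
  obtain ⟨l2a, l2b, -⟩ := l2 A.d A.x A.std
  have hp := AlgY.comb_pres A.std A.pres (algebraMap M F θ)
  have hV := 𝒞.regV A.reg A.std
  have hD : ∀ P u, 𝒞.v P u ≤ 1 → 𝒞.v P ((AlgY.comb A.δ A.d (algebraMap M F θ)).D u) ≤ 1 :=
    fun P => by
      obtain ⟨π, hπ⟩ := 𝒞.unif P
      exact l1 _ P π hp hπ (hθ _ (isPl_v 𝒞 P) π ((coO_iff _).2 (l2b P π hπ)))
  obtain ⟨P₀, hP₀⟩ := h2 k F 𝒞 A.d _ A.x A.a A.μ A.std hp A.a_ne A.μ_pos hV hD
  obtain ⟨u, hu, hu'⟩ := h3 k F 𝒞 A.d _ A.x A.a A.μ A.std hp A.a_ne A.μ_pos hV hD P₀ hP₀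
  have h4 := CertP.const_alg (d := AlgY.comb A.δ₀ A.d₀ θ) (fun z => by
    rw [AlgY.comb_D, AlgY.comb_D, map_add, map_mul, A.hd, A.hδ]) hu
  by_contra h5
  obtain ⟨c, hc⟩ := l2a u (A.d.acl_le_const (by
    rintro _ ⟨r, hr, rfl⟩
    have : A.d₀.D r = 0 := by
      by_contra h6
      exact h5 ⟨r, h6, hr⟩
    rw [SetLike.mem_coe, Der.mem_const, ← A.hd, this, map_zero]) h4)
  exact hu' c hc

theorem sI3 (h1 : SGcd) (h2 : SDsc) (h3 : SFi2) : SI3 := by
  intro k F M _ _ _ _ _ _ _ _ A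
  obtain ⟨g1, g2⟩ := h1 k F A.toFD
  obtain ⟨d1, d2⟩ := h2 k F M A
  have ne : ∀ χ, A.d₀.D χ ≠ 0 → algebraMap M F χ ≠ 0 := fun χ h =>
    (_root_.map_ne_zero _).2 fun h0 => h (by rw [h0, Der.D_zero])
  have mp : ∀ χ, (Dp A.d₀ A.δ₀ χ).map (algebraMap M F) = Dp A.d A.δ (algebraMap M F χ) := fun χ => by
    simp [Dp, A.hd, A.hδ]
  obtain ⟨χ, l, hχ, hl⟩ : ∃ (χ : M) (l : ℕ), A.d₀.D χ ≠ 0 ∧
      Dp A.d A.δ (algebraMap M F χ) ^ l ∈ Ideal.span (RR k A.d A.δ (algebraMap M F χ)) := by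
    by_cases h : ∃ θ, RgT k A.d A.δ θ
    · obtain ⟨θ, hθ⟩ := h
      obtain ⟨θ, rfl⟩ := d2 θ hθ
      obtain ⟨r, r1, r2⟩ := h3 k F M A θ hθ
      rcases g1 _ (ne r r1) with h | ⟨θ', l, a, b⟩
      · exact ⟨r, 0, r1, by rwa [pow_zero]⟩
      refine ⟨r, l, r1, ?_⟩
      have : Dp A.d₀ A.δ₀ r = C (A.d₀.D r) * (X - C θ) := by
        rw [Dp, eq_neg_of_add_eq_zero_left r2, C_neg, C_mul]
        ring
      rw [← mp, this, Polynomial.map_mul, mul_pow, Polynomial.map_sub, map_X, map_C, map_C,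
        g2 _ _ hθ a]
      exact Ideal.mul_mem_left _ _ b
    · have r1 : A.d₀.D A.x₀ ≠ 0 := fun h0 => by
        have := A.hd A.x₀
        rw [h0, map_zero, A.hx, A.std.2] at this
        exact zero_ne_one this
      rcases g1 _ (ne _ r1) with h' | ⟨θ', l, a, -⟩
      · exact ⟨A.x₀, 0, r1, by rwa [pow_zero]⟩
      · exact absurd ⟨θ', a⟩ h
  have h4 : Ideal.span (RR k A.d A.δ (algebraMap M F χ)) ≤
      ((Ideal.span (A.R₀ χ)).map (mapRingHom (algebraMap M F))).radical := by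
    refine Ideal.span_le.2 fun η hη => ?_
    obtain ⟨N, c, -, c1, c2⟩ := d1 χ η hη
    refine ⟨N, ?_⟩
    rw [eq_neg_of_add_eq_zero_left c2]
    exact neg_mem (sum_mem fun j _ => Ideal.mul_mem_right _ _
      (Ideal.mem_map_of_mem (mapRingHom (algebraMap M F)) (Ideal.subset_span (c1 j))))
  obtain ⟨n, hn⟩ := h4 hl
  obtain ⟨g, hg⟩ := (IsPrincipalIdealRing.principal (Ideal.span (A.R₀ χ))).principal
  refine ⟨χ, l * n + 1, hχ, Nat.succ_pos _, ?_⟩
  rw [hg, Ideal.submodule_span_eq] at hn ⊢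
  rw [Ideal.map_span, Set.image_singleton, Ideal.mem_span_singleton, ← pow_mul, ← mp,
    ← Polynomial.map_pow, coe_mapRingHom, map_dvd_map'] at hn
  rw [Ideal.mem_span_singleton, pow_succ]
  exact hn.mul_right _

end Pool.Agent.P.MP_7ede32_ag.Bnd
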