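import Pool.Agent.P.MP_7ede32_ag.Bnd.Al2
import Pool.Agent.P.MP_7ede32_ag.Full.Chart

/-!
Integrality of the regular differentials and of the total derivative.
-/

open scoped WithZero IntermediateField Polynomial
open WithZero Polynomial

noncomputable section

namespace Pool.Agent.P.MP_7ede32_ag.Bnd

open Full

namespace Al3

lemma root_mem {Ω : Type} [Field Ω] (O : ValuationSubring Ω) (n : ℕ) (c : ℕ → Ω)
    (hc : ∀ i, c i ∈ O) {t w : Ω} (hw : w ∈ O)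
    (e : t ^ (n + 1) + ∑ i ∈ Finset.range (n + 1), c i * t ^ i = w) : t ∈ O := by
  rcases O.mem_or_inv_mem t with h | h
  · exact h
  by_cases h0 : t = 0
  · rw [h0]; exact O.zero_mem
  have : t = w * t⁻¹ ^ n - ∑ i ∈ Finset.range (n + 1), c i * t⁻¹ ^ (n - i) := by
    rw [← e, add_mul, Finset.sum_mul, eq_sub_iff_add_eq]
    congr 1
    · rw [inv_pow]
      field_simp
      ring
    · refine Finset.sum_congr rfl fun i hi => ?_
      rw [pow_sub₀ _ (inv_ne_zero h0) (Nat.lt_succ_iff.1 (Finset.mem_range.1 hi)), inv_pow t i,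
        inv_inv]
      ring
  rw [this]
  exact sub_mem (mul_mem hw (pow_mem h n)) (sum_mem fun i _ => mul_mem (hc i) (pow_mem h _))

variable {k F M : Type} [Field k] [Field F] [CharZero F] [Algebra k F] [Field M] [Algebra M F]

lemma aK (A : AD k F M) : Algebra.IsAlgebraic
    ((A.K₀.map (algebraMap M F)).comap (algebraMap k F)) k := ⟨fun c => by
  rw [← isAlgebraic_algebraMap_iff (algebraMap k F).injective]
  refine isAlgebraic_of_mem_acl _ ?_ (A.alg c)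
  rintro _ ⟨y, hy, rfl⟩
  obtain ⟨c, hc⟩ := A.const y hy
  exact ⟨⟨c, y, hy, hc⟩, hc.symm⟩⟩

lemma const_mem (A : AD k F M) (O : ValuationSubring F)
    (h : ∀ z ∈ A.K₀, algebraMap M F z ∈ O) (c : k) : algebraMap k F c ∈ O :=
  Chart.mem_of_alg (O.comap (algebraMap k F)) _ (aK A) (fun c ⟨y, hy, e⟩ => by
    rw [ValuationSubring.mem_comap, ← e]; exact h y hy) c

omit [CharZero F] in
lemma ev_sb {Ω : Type} [Field Ω] (φ : F[X] →+* Ω) (d δ : Der F) (η : F[X]) {y : F}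
    (hy : d.D y ≠ 0) : (sb d δ η y).eval₂ (φ.comp C) (φ (Dp d δ y)) = φ η := by
  rw [← hom_eval₂]
  exact congrArg φ (sb_comp d δ η hy)

lemma map_Dp (A : AD k F M) (z : M) :
    (Dp A.d₀ A.δ₀ z).map (algebraMap M F) = Dp A.d A.δ (algebraMap M F z) := by
  simp [Dp, A.hd, A.hδ]

omit [CharZero F] in
lemma inj : Function.Injective
    ((algebraMap F[X] (FractionRing F[X])).comp (mapRingHom (algebraMap M F))) :=
  (IsFractionRing.injective F[X] _).comp (map_injective _ (algebraMap M F).injective)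

end Al3

open Al3

theorem sIntP : SIntP := by
  refine ⟨fun R Ω _ _ j hj s z h => ?_, fun F Ω _ _ j O η t => ⟨fun h ht => ?_, ?_⟩⟩
  · have h1 : j z ∈ (integralClosure (Subring.closure (j '' s)) Ω).toSubring := by
      rw [← iInf_valuationSubring_superset, Subring.mem_iInf]
      exact fun V => h V.1 fun u hu => V.2 ⟨u, hu, rfl⟩
    have h2 : IsIntegral (Subring.closure (j '' s)) (j z) := h1
    rw [← RingHom.map_closure] at h2
    let e := (Subring.closure s).equivMapOfInjective j hj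
    obtain ⟨p, hm, hp⟩ := h2
    refine ⟨p.map (e.symm : _ →+* _), hm.map _, hj ?_⟩
    rw [hom_eval₂, eval₂_map, map_zero, ← hp]
    congr 1
    ext u
    obtain ⟨v, rfl⟩ := e.surjective u
    simp only [RingHom.comp_apply, RingHom.coe_coe, RingEquiv.symm_apply_apply]
    rfl
  · simpa using AlgY.eval_mem j O η 1 ht fun i => by simpa using h i
  · intro h1 h2 h3 h4
    obtain ⟨n, hn⟩ : ∃ n, η.natDegree = n + 1 := ⟨η.natDegree - 1, by omega⟩
    have h0 : j η.leadingCoeff ≠ 0 := (_root_.map_ne_zero j).2 (leadingCoeff_ne_zero.2 (by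
      rintro rfl
      simp at h1))
    refine root_mem O n _ h2 (mul_mem h3 h4) ?_
    rw [eval₂_eq_sum_range, hn, Finset.sum_range_succ _ (n + 1), ← hn, coeff_natDegree, mul_add,
      Finset.mul_sum, map_inv₀, inv_mul_cancel_left₀ h0, add_comm]
    congr 1
    refine Finset.sum_congr rfl fun i _ => ?_
    rw [map_div₀]
    ring

theorem sI1 (h1 : SDesc) (h2 : SIntP) : SI1 := by
  intro k F M _ _ _ _ _ _ _ _ A
  obtain ⟨𝒞⟩ := exists_fc A.cf
  obtain ⟨s', a1, a2, a3⟩ := h1 k F 𝒞 A.d A.x _ (algebraMap M F).fieldRange A.std (aK A)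
    (fun c ⟨y, _, e⟩ => ⟨y, e⟩) ⟨A.x₀, A.hx⟩ (by
      rintro _ ⟨z, rfl⟩
      exact ⟨_, A.hd z⟩) A.gen
  obtain ⟨s, hs⟩ : ∃ s : Finset M, ∀ y, y ∈ s ↔ algebraMap M F y ∈ s' :=
    ⟨s'.preimage _ (algebraMap M F).injective.injOn, fun y => Finset.mem_preimage⟩
  have b1 : ∀ y ∈ s, A.d.D (algebraMap M F y) ≠ 0 := fun y hy => (a2 _ ((hs y).1 hy)).2
  have b2 : ∀ y ∈ s, algebraMap M F y ≠ 0 := fun y hy h => b1 y hy (by rw [h, Der.D_zero])
  refine ⟨s, ⟨A.x₀, (hs _).2 (A.hx ▸ a1)⟩, fun y hy => ⟨fun h => b2 y hy (by rw [h, map_zero]),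
    fun h => b1 y hy (by rw [← A.hd, h, map_zero])⟩, fun χ Y hY ε α => ?_⟩
  obtain ⟨φ, hφ⟩ : ∃ φ, φ = algebraMap F[X] (FractionRing F[X]) := ⟨_, rfl⟩
  have key : ∀ O : ValuationSubring (FractionRing F[X]),
      (∀ u ∈ C '' (A.K₀ : Set M) ∪ gP A.d₀ A.δ₀ s ε α, φ (u.map (algebraMap M F)) ∈ O) →
      φ (Y.map (algebraMap M F)) ∈ O ∧ φ ((C χ * Y).map (algebraMap M F)) ∈ O := by
    intro O hO
    have m : ∀ z, z ∈ O.comap (φ.comp C) ↔ φ (C z) ∈ O := fun z => Iff.rfl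
    have c1 := const_mem A (O.comap (φ.comp C)) fun z hz => by
      rw [m, ← map_C]
      exact hO _ (Or.inl ⟨z, hz, rfl⟩)
    have c2 : ∀ β : s, sg (ε β) (algebraMap M F β) ∈ O.comap (φ.comp C) := fun β => by
      rw [m, ← CertP.map_sg, ← map_C]
      exact hO _ (Or.inr (Or.inl (Or.inl ⟨β, rfl⟩)))
    have c3 : ∀ β : s, sg' (ε β) (algebraMap M F β) (A.d.D (algebraMap M F β)) /
        sg' (ε α) (algebraMap M F α) (A.d.D (algebraMap M F α)) ∈ O.comap (φ.comp C) := fun β => by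
      rw [m, ← A.hd, ← A.hd, ← CertP.map_sg', ← CertP.map_sg', ← map_div₀, ← map_C]
      exact hO _ (Or.inr (Or.inl (Or.inr ⟨β, rfl⟩)))
    have c4 : φ (Dp A.d A.δ (sg (ε α) (algebraMap M F α))) ∈ O := by
      rw [← CertP.map_sg, ← map_Dp]
      exact hO _ (Or.inr (Or.inr rfl))
    have hne := Chart.sg'_ne (ε α) (b2 _ α.2) (b1 _ α.2)
    have hd : A.d.D (sg (ε α) (algebraMap M F α)) ≠ 0 := by rwa [Chart.D_sg]
    have c5 : RgO A.d A.δ (algebraMap M F χ) (Y.map (algebraMap M F)) (O.comap (φ.comp C))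
        (sg (ε α) (algebraMap M F α)) := by
      by_cases htop : O.comap (φ.comp C) = ⊤
      · rw [htop]
        exact fun j => ⟨ValuationSubring.mem_top _, ValuationSubring.mem_top _⟩
      refine hY _ ⟨htop, c1⟩ _ ⟨c2 α, hd, fun z hz => ?_⟩
      obtain ⟨P, hP⟩ := 𝒞.all _ htop c1
      rw [← hP] at c2 c3 hz ⊢
      obtain ⟨β', hβ', d1, d2, d3⟩ := a3 P
      obtain ⟨β, rfl⟩ := (a2 _ hβ').1
      have hβ := (hs β).2 hβ'
      have e1 := Chart.val_sg' (𝒞.v P) (ε ⟨β, hβ⟩) (A.d.D (algebraMap M F β)) (b2 β hβ) d1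
        (c2 ⟨β, hβ⟩)
      have e2 := c3 ⟨β, hβ⟩
      have hpos := zero_lt_iff.2 ((𝒞.v P).ne_zero_iff.2 hne)
      rw [Valuation.mem_valuationSubring_iff, map_div₀, div_le_one₀ hpos] at e2
      rw [Valuation.mem_valuationSubring_iff, Chart.D_sg, map_div₀, div_le_one₀ hpos]
      exact (d3 z hz).trans (e1.symm.le.trans e2)
    rw [Polynomial.map_mul, map_C, map_mul, ← ev_sb φ A.d A.δ (Y.map _) hd]
    exact ⟨((h2.2 _ _ _ O _ _).1 (fun i => (c5 i).1) c4),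
      AlgY.eval_mem (φ.comp C) O _ _ c4 fun i => (c5 i).2⟩
  subst hφ
  exact ⟨h2.1 _ _ _ inj _ _ fun O hO => (key O hO).1, h2.1 _ _ _ inj _ _ fun O hO => (key O hO).2⟩

theorem sI2 (h1 : SDsc) (h2 : SMon) (h3 : SNeg) (h4 : SCoord) (h5 : SIntP) : SI2 := by
  intro k F M _ _ _ _ _ _ _ _ A χ hχ
  obtain ⟨⟨O₀, hO₀⟩, n2, -⟩ := h3 k F A.toFD
  have hχ' : algebraMap M F χ ≠ 0 := (_root_.map_ne_zero _).2 hχ
  refine h5.1 _ _ _ (inj (F := F)) _ _ fun O hO => ?_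
  obtain ⟨φ, hφ⟩ : ∃ φ, φ = algebraMap F[X] (FractionRing F[X]) := ⟨_, rfl⟩
  rw [← hφ] at hO ⊢
  replace hO : ∀ u ∈ C '' (A.K₀ : Set M) ∪ insert (C χ) (A.R₀ χ),
    φ (u.map (algebraMap M F)) ∈ O := hO
  change φ ((Dp A.d₀ A.δ₀ χ).map (algebraMap M F)) ∈ O
  rw [map_Dp]
  have m : ∀ z, z ∈ O.comap (φ.comp C) ↔ φ (C z) ∈ O := fun z => Iff.rfl
  have c1 := const_mem A (O.comap (φ.comp C)) fun z hz => by
    rw [m, ← map_C]
    exact hO _ (Or.inl ⟨z, hz, rfl⟩)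
  have c2 : algebraMap M F χ ∈ O.comap (φ.comp C) := by
    rw [m, ← map_C]
    exact hO _ (Or.inr (Or.inl rfl))
  have c3 : ∀ η ∈ RR k A.d A.δ (algebraMap M F χ), φ η ∈ O := fun η hη => by
    obtain ⟨N, c, hN, d1, d2⟩ := (h1 k F M A).1 χ η hη
    obtain ⟨n, rfl⟩ : ∃ n, N = n + 1 := ⟨N - 1, by omega⟩
    refine root_mem O n _ (fun i => hO _ (Or.inr (Or.inr (d1 i)))) O.zero_mem ?_
    simpa using congrArg φ d2
  by_cases htop : O.comap (φ.comp C) = ⊤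
  · have all : ∀ z, φ (C z) ∈ O := fun z => (m z).1 (htop ▸ ValuationSubring.mem_top z)
    obtain ⟨η, hη, hM⟩ := h2 k F A.toFD _ hχ' O₀ hO₀
    obtain ⟨y, hy⟩ := n2 O₀ hO₀
    have hX : φ X ∈ O := (h5.2 _ _ (φ.comp C) O η (φ X)).2 (hM y hy).1 (fun _ => all _) (all _) (by
      rw [← hom_eval₂, eval₂_C_X]
      exact c3 η hη)
    rw [Dp, map_add, map_mul]
    exact add_mem (all _) (mul_mem hX (all _))
  · obtain ⟨η, hη, hM⟩ := h2 k F A.toFD _ hχ' _ ⟨htop, c1⟩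
    obtain ⟨y, hy⟩ := n2 _ ⟨htop, c1⟩
    obtain ⟨m1, m2, m3⟩ := hM y hy
    have ht : φ (Dp A.d A.δ y) ∈ O := (h5.2 _ _ (φ.comp C) O (sb A.d A.δ η y) _).2
      (by rwa [Al1.sb_deg _ _ _ hy.2.1]) m2 (m3 c2) (by
        rw [ev_sb φ _ _ _ hy.2.1]
        exact c3 η hη)
    have a1 := (h4 k F A.toFD _ y ⟨htop, c1⟩ hy).1 _ c2
    have a2 := hy.2.2 _ c2
    have e : Dp A.d A.δ (algebraMap M F χ) = C (A.δ.D (algebraMap M F χ) -
        A.δ.D y * (A.d.D (algebraMap M F χ) / A.d.D y)) +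
        C (A.d.D (algebraMap M F χ) / A.d.D y) * Dp A.d A.δ y := by
      rw [Dp, Dp, mul_add, ← C_mul, ← add_assoc, ← C_add, mul_left_comm, ← C_mul,
        div_mul_cancel₀ _ hy.2.1]
      congr 2
      ring
    rw [e, map_add, map_mul]
    exact add_mem a1 (mul_mem a2 ht)

end Pool.Agent.P.MP_7ede32_ag.Bnd
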