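import Pool.Agent.P.MP_7ede32_ag.Bnd.DA
import Pool.Agent.P.MP_7ede32_ag.Full.Sym

/-!
The dimension count for symmetric differentials with prescribed orders.
-/

open scoped WithZero IntermediateField Polynomial
open WithZero Polynomial

noncomputable section

namespace Pool.Agent.P.MP_7ede32_ag.Bnd

open Full

theorem sCnt2 (h : SCut) : SCnt2 := by
  intro k F _ _ _ 𝒞 κ γ e u b g m hγ hu hb hg
  classical
  let E : Fin (m + 1) → 𝒞.Pl →₀ ℤ := fun i => ((i : ℕ) : ℤ) • κ + ((m : ℤ) - (i : ℕ)) • γ - e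
  let q : 𝒞.Pl → F[X] := fun P => C (u P) * (X - C (b P))
  let f : Fin (m + 1) × 𝒞.Pl → (∀ i, 𝒞.toCurve.L (E i)) →ₗ[k] F := fun p =>
    ∑ i : Fin (m + 1), (LinearMap.mulRight k ((q p.2 ^ (i : ℕ)).coeff p.1)) ∘ₗ
      (𝒞.toCurve.L (E i)).subtype ∘ₗ LinearMap.proj i
  have hf : ∀ p c, f p c = ∑ i : Fin (m + 1), (c i : F) * (q p.2 ^ (i : ℕ)).coeff p.1 := by
    intro p c
    simp [f, LinearMap.sum_apply]
  have hb1 : ∀ p c, 𝒞.v p.2 (f p c) ≤ exp (((m : ℤ) - (p.1 : ℕ)) * γ p.2 - e p.2) := by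
    intro p c
    rw [hf]
    refine (𝒞.v p.2).map_sum_le fun i _ => ?_
    rw [map_mul]
    refine (mul_le_mul' (𝒞.toCurve.mem_L.1 (c i).2 p.2)
      (Sym.coeff_pow (𝒞.v p.2) (hu p.2) (hb p.2) i p.1)).trans (le_of_eq ?_)
    rw [← exp_add]
    congr 1
    simp only [E, Finsupp.add_apply, Finsupp.sub_apply, Finsupp.smul_apply, smul_eq_mul]
    ring
  have hle : ∀ j : Fin (m + 1), (0 : ℤ) ≤ (m : ℤ) - (j : ℕ) := fun j => by
    have := j.2
    omega
  obtain ⟨W, h1, h2⟩ := Sym.cut h (fun p : Fin (m + 1) × 𝒞.Pl => 𝒞.v p.2)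
    (fun p => 𝒞.isPlace p.2) f (fun p => ((m : ℤ) - (p.1 : ℕ)) * γ p.2)
    (fun p => ((m : ℤ) - (p.1 : ℕ)) * γ p.2 - e p.2)
    (fun p => mul_nonneg (hle p.1) (hγ p.2)) hb1 (Finset.univ ×ˢ γ.support)
  have h3 : ∑ p ∈ (Finset.univ : Finset (Fin (m + 1))) ×ˢ γ.support,
      ((m : ℤ) - (p.1 : ℕ)) * γ p.2 = ∑ j : Fin (m + 1), ((m : ℤ) - (j : ℕ)) * γ.degree := by
    rw [Finset.sum_product]
    refine Finset.sum_congr rfl fun j _ => ?_
    rw [Finsupp.degree_apply, Finset.mul_sum]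
  have h4 : ∑ i : Fin (m + 1), (((m : ℤ) - (i : ℕ)) * γ.degree +
      (((i : ℕ) : ℤ) * κ.degree - e.degree + 1 - g)) ≤
      Module.finrank k (∀ i, 𝒞.toCurve.L (E i)) := by
    rw [Module.finrank_pi_fintype]
    push_cast
    refine Finset.sum_le_sum fun i _ => le_trans (le_of_eq ?_) (hg (E i))
    simp only [E, map_add, map_sub, map_zsmul, smul_eq_mul]
    ring
  let ι : (∀ i, 𝒞.toCurve.L (E i)) →ₗ[k] (Fin (m + 1) → F) :=
    LinearMap.pi fun i => (𝒞.toCurve.L (E i)).subtype ∘ₗ LinearMap.proj i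
  have hι : ∀ c i, ι c i = (c i : F) := fun c i => rfl
  have hinj : Function.Injective ι := fun c c' hc =>
    funext fun i => Subtype.ext (by rw [← hι, ← hι, hc])
  have hη : ∀ (c : Fin (m + 1) → F) (r : F[X]),
      (∑ i : Fin (m + 1), monomial (i : ℕ) (c i)).comp r =
        ∑ i : Fin (m + 1), C (c i) * r ^ (i : ℕ) := by
    intro c r
    simp [Polynomial.sum_comp]
  refine ⟨W.map ι, inferInstance, ?_, ?_⟩
  · rw [← (Submodule.equivMapOfInjective ι hinj W).finrank_eq,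
      ← Fin.sum_univ_eq_sum_range (fun i : ℕ => (i : ℤ) * κ.degree - e.degree + 1 - g)]
    rw [Finset.sum_add_distrib] at h4
    rw [h3] at h1
    linarith
  · rintro _ ⟨c, hc, rfl⟩ P j
    rw [hη, Polynomial.finsetSum_coeff]
    simp only [Polynomial.coeff_C_mul, hι]
    by_cases hj : j < m + 1
    · have h8 := hf (⟨j, hj⟩, P) c
      simp only [q] at h8
      rw [← h8]
      by_cases hP : P ∈ γ.support
      · have h9 := h2 (⟨j, hj⟩, P) (Finset.mem_product.2 ⟨Finset.mem_univ _, hP⟩) c hc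
        refine h9.trans (le_of_eq ?_)
        congr 1
        ring
      · rw [Finsupp.notMem_support_iff] at hP
        have h9 := hb1 (⟨j, hj⟩, P) c
        simp only [hP, mul_zero, zero_sub] at h9
        exact h9
    · rw [Finset.sum_eq_zero fun i _ => ?_, map_zero]
      · exact zero_le
      · rw [Sym.coeff_pow_zero _ _ (lt_of_lt_of_le i.2 (not_lt.1 hj)), mul_zero]

end Pool.Agent.P.MP_7ede32_ag.Bnd
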