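import Pool.Agent.P.MP_7ede32_ag.Bnd.DA

/-!
The true genus, and differentials whose leading coefficient has the exact order at a place.
-/

open scoped WithZero Polynomial
open WithZero Polynomial Module

noncomputable section

namespace Pool.Agent.P.MP_7ede32_ag.Bnd

open Full MP_68ca4e_ag.M

theorem sGen : SGen := by
  intro k F _ _ _ 𝒞
  obtain ⟨φ, ⟨D0, h0⟩, hmin⟩ := Int.exists_least_of_bdd
    (P := fun z => ∃ D : 𝒞.Pl →₀ ℤ, (finrank k (𝒞.toCurve.L D) : ℤ) - D.degree = z)
    ⟨1 - 𝒞.g, by rintro _ ⟨D, rfl⟩; have := 𝒞.toCurve.riemann' D; omega⟩ ⟨_, 0, rfl⟩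
  refine ⟨1 - φ, D0.degree + 𝒞.g, fun D => ?_⟩
  have h1 := hmin _ ⟨D, rfl⟩
  refine ⟨by omega, fun hD => ?_⟩
  have h2 := 𝒞.toCurve.riemann' (D - D0)
  rw [map_sub] at h2
  obtain ⟨f, hf, hf0⟩ := Submodule.exists_mem_ne_zero_of_ne_bot (p := 𝒞.toCurve.L (D - D0))
    (by intro e; rw [e, finrank_bot] at h2; omega)
  have h3 : D0 + ff2Dv 𝒞.fin f ≤ D := fun P => by
    have := (log_le_iff_le_exp (by simpa using hf0)).2 (𝒞.toCurve.mem_L.1 hf P)
    rw [Finsupp.sub_apply] at this
    rw [Finsupp.add_apply, ff2Dv_apply]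
    omega
  have h4 : (ff2Dv 𝒞.fin f).degree = 0 := by rw [ff2Dv_degree, 𝒞.prod f hf0]
  have h5 := Lsp_antitone 𝒞.isPlace (𝒞.findim 0) h3
  have h6 := ff2_mul 𝒞.isPlace (𝒞.findim 0) (D := D0 + ff2Dv 𝒞.fin f) (D' := D0)
    (E := ff2Dv 𝒞.fin f⁻¹) (inv_ne_zero hf0)
    (fun P => by rw [ff2Dv_apply, exp_log (by simpa using hf0)])
    (by rw [ff2Dv_inv, add_neg_cancel_right])
  rw [map_add, h4] at h5
  change (finrank k (Lsp k 𝒞.v D0) : ℤ) - _ = _ at h0
  change _ ≤ (finrank k (Lsp k 𝒞.v D) : ℤ) - _ at h1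
  change (finrank k (Lsp k 𝒞.v D) : ℤ) = _
  omega

namespace AlC2

theorem filt {k F : Type} [Field k] [AddCommGroup F] [Module k F] (T : ℕ → Submodule k F)
    [∀ i, FiniteDimensional k (T i)] (n : ℕ) : ∀ (U : Type) [AddCommGroup U] [Module k U]
    [FiniteDimensional k U] (f : ℕ → U →ₗ[k] F), (∀ w, (∀ j, j < n → f j w = 0) → w = 0) →
    (∀ w i, i < n → (∀ j, i < j → j < n → f j w = 0) → f i w ∈ T i) →
    finrank k U ≤ ∑ i ∈ Finset.range n, finrank k (T i) := by
  induction n with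
  | zero =>
    intro U _ _ _ f h1 _
    rw [finrank_zero_iff_forall_zero.2 fun w => h1 w fun j hj => absurd hj (Nat.not_lt_zero j)]
    exact Nat.zero_le _
  | succ n ih =>
    intro U _ _ _ f h1 h2
    have a1 := ih (LinearMap.ker (f n)) (fun j => f j ∘ₗ (LinearMap.ker (f n)).subtype)
      (fun w hw => Subtype.ext (h1 w fun j hj => by
        rcases (Nat.lt_succ_iff.1 hj).eq_or_lt with rfl | hj
        · exact w.2
        · exact hw j hj))
      (fun w i hi hw => h2 w i (by omega) fun j hij hj => by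
        rcases (Nat.lt_succ_iff.1 hj).eq_or_lt with rfl | hj
        · exact w.2
        · exact hw j hij hj)
    have a2 : LinearMap.range (f n) ≤ T n := by
      rintro _ ⟨w, rfl⟩
      exact h2 w n (by omega) fun j h h' => by omega
    have a3 := Submodule.finrank_mono a2
    have a4 := LinearMap.finrank_range_add_finrank_ker (f n)
    rw [Finset.sum_range_succ]
    omega

theorem neg {a : ℕ → ℤ} {i1 : ℕ} (h : ∀ i, i1 ≤ i → a i = -1) :
    ∃ m, ∑ i ∈ Finset.range (m + 1), a i < 0 := by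
  have h1 : ∀ n : ℕ, ∑ i ∈ Finset.range (i1 + n), a i = ∑ i ∈ Finset.range i1, a i - n := by
    intro n
    induction n with
    | zero => simp
    | succ n ih =>
      rw [← add_assoc, Finset.sum_range_succ, ih, h _ (by omega)]
      push_cast
      ring
  refine ⟨i1 + (∑ i ∈ Finset.range i1, a i).toNat, ?_⟩
  rw [add_assoc, h1]
  omega

theorem lead {F : Type} [Field F] (η : F[X]) {u : F} (hu : u ≠ 0) (b : F) :
    (η.comp (C u * (X - C b))).leadingCoeff = η.leadingCoeff * u ^ η.natDegree := by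
  rw [leadingCoeff_comp (by rw [natDegree_C_mul hu, natDegree_X_sub_C]; exact one_ne_zero),
    leadingCoeff_mul, leadingCoeff_C, leadingCoeff_X_sub_C, mul_one]

end AlC2

theorem sSurj (h1 : SGen) (h2 : SCnt2) : SSurj := by
  classical
  intro k F _ _ _ 𝒞 κ γ e u b hκ hγ hu hb P₀
  obtain ⟨g, N, hg⟩ := h1 k F 𝒞
  by_contra hcon
  push Not at hcon
  obtain ⟨D, hD⟩ : ∃ D : ℕ → 𝒞.Pl →₀ ℤ, ∀ i, D i =
      (i : ℤ) • κ - e - if i = 0 then 0 else Finsupp.single P₀ 1 := ⟨_, fun _ => rfl⟩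
  obtain ⟨m, hm⟩ := AlC2.neg (i1 := (N + e.degree + 1).toNat + 1)
    (a := fun i => finrank k (𝒞.toCurve.L (D i)) - (i * κ.degree - e.degree + 1 - g))
    fun i hi => by
      have a1 : (D i).degree = i * κ.degree - e.degree - 1 := by
        rw [hD, if_neg (by omega), map_sub, map_sub, map_zsmul, Finsupp.degree_single, smul_eq_mul]
      have a2 : (i : ℤ) * 1 ≤ i * κ.degree := mul_le_mul_of_nonneg_left hκ (Nat.cast_nonneg i)
      have a3 := (hg (D i)).2 (by omega)
      omega
  obtain ⟨V, hV, hd, hc⟩ := h2 k F 𝒞 κ γ e u b g m hγ (fun P => (hu P).le) hb fun D => (hg D).1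
  have hu0 : ∀ P, u P ≠ 0 := fun P h => by
    have := hu P
    rw [h, map_zero] at this
    exact exp_ne_zero this.symm
  have key := AlC2.filt (fun i => 𝒞.toCurve.L (D i)) (m + 1) V
    (fun j => (lcoeff F j ∘ₗ ofFn (m + 1)).restrictScalars k ∘ₗ V.subtype)
    (fun w hw => Subtype.ext (funext fun i =>
      (ofFn_coeff_eq_val_of_lt w.1 i.2).symm.trans (hw i i.2)))
    (fun w i hi hw => by
      have hc' := hc w.1 w.2
      rw [← ofFn_eq_sum_monomial] at hc'
      change (ofFn (m + 1) w.1).coeff i ∈ _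
      have hle : (ofFn (m + 1) w.1).natDegree ≤ i := natDegree_le_iff_coeff_eq_zero.2 fun j hj => by
        by_cases h : j < m + 1
        · exact hw j hj h
        · exact ofFn_coeff_eq_zero_of_ge _ (not_lt.1 h)
      generalize ofFn (m + 1) w.1 = η at hc' hle ⊢
      by_cases h0 : η.coeff i = 0
      · rw [h0]; exact zero_mem _
      obtain rfl : η.natDegree = i := le_antisymm hle (le_natDegree_of_ne_zero h0)
      have hval : ∀ P (s : ℤ), 𝒞.v P (η.comp (C (u P) * (X - C (b P)))).leadingCoeff ≤ exp s →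
          𝒞.v P η.leadingCoeff ≤ exp (η.natDegree * κ P + s) := fun P s hs => by
        rw [AlC2.lead η (hu0 P), map_mul, map_pow, hu, ← exp_nsmul,
          ← le_div_iff₀ exp_pos, ← exp_sub] at hs
        refine hs.trans (exp_le_exp.2 (le_of_eq ?_))
        rw [nsmul_eq_mul]
        ring
      refine 𝒞.toCurve.mem_L.2 fun P => ?_
      rw [hD, Finsupp.sub_apply, Finsupp.sub_apply, Finsupp.smul_apply, smul_eq_mul]
      have a1 := hval P _ (hc' P _)
      split_ifs with hz
      · exact a1.trans (exp_le_exp.2 (by simp))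
      · by_cases hP : P = P₀
        · subst hP
          have a2 := lt_of_le_of_ne (hc' P _) (hcon η (Nat.pos_of_ne_zero hz) hc')
          refine (hval P (-e P - 1) (le_exp_of_lt (by rwa [sub_add_cancel]))).trans
            (exp_le_exp.2 ?_)
          rw [Finsupp.single_eq_same]
          omega
        · refine a1.trans (exp_le_exp.2 ?_)
          rw [Finsupp.single_eq_of_ne hP]
          omega)
  rw [Finset.sum_sub_distrib] at hm
  have key' : (finrank k V : ℤ) ≤ ∑ i ∈ Finset.range (m + 1),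
      (finrank k (𝒞.toCurve.L (D i)) : ℤ) := by exact_mod_cast key
  omega

end Pool.Agent.P.MP_7ede32_ag.Bnd
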