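import Pool.Agent.P.MP_7ede32_ag.Bnd.DA

/-!
Eventual ring homomorphisms: bounds for integral elements and evaluation of polynomials.
-/

open scoped Polynomial
open Polynomial Filter

set_option linter.unusedSectionVars false

noncomputable section

namespace Pool.Agent.P.MP_7ede32_ag.Bnd

open Full

namespace AlE

variable {R α : Type} [CommRing R] {l : Filter α} {ev : R → α → ℂ}

/-- the ring homomorphism to the germs -/
def hom (h : EH l ev) : R →+* Germ l ℂ :=
  RingHom.mk' ⟨⟨fun a => (ev a : Germ l ℂ), Germ.coe_eq.2 h.one⟩,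
    fun a b => (Germ.coe_eq.2 (h.mul a b) : (ev (a * b) : Germ l ℂ) = (ev a * ev b : α → ℂ))⟩
    fun a b => (Germ.coe_eq.2 (h.add a b) : (ev (a + b) : Germ l ℂ) = (ev a + ev b : α → ℂ))

lemma hom_apply (h : EH l ev) (a : R) : hom h a = (ev a : Germ l ℂ) := rfl

lemma of_hom (φ : R →+* Germ l ℂ) (h : ∀ a, φ a = (ev a : Germ l ℂ)) : EH l ev where
  add a b := by
    have := φ.map_add a b
    rw [h, h, h] at this
    exact Germ.coe_eq.1 this
  mul a b := by
    have := φ.map_mul a b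
    rw [h, h, h] at this
    exact Germ.coe_eq.1 this
  one := by
    have := φ.map_one
    rw [h] at this
    exact Germ.coe_eq.1 this

lemma neg (h : EH l ev) (a : R) : ∀ᶠ p in l, ev (-a) p = -ev a p :=
  Germ.coe_eq.1 ((hom h).map_neg a)

lemma zero (h : EH l ev) : ∀ᶠ p in l, ev 0 p = 0 :=
  Germ.coe_eq.1 (hom h).map_zero

lemma sum_pow (h : EH l ev) (c : ℕ → R) (z : R) (n : ℕ) :
    ∀ᶠ p in l, ev (∑ j ∈ Finset.range n, c j * z ^ j + z ^ n) p =
      ∑ j ∈ Finset.range n, ev (c j) p * ev z p ^ j + ev z p ^ n := by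
  have e : hom h (∑ j ∈ Finset.range n, c j * z ^ j + z ^ n) =
      Germ.coeRingHom l (∑ j ∈ Finset.range n, ev (c j) * ev z ^ j + ev z ^ n) := by
    simp only [map_add, map_sum, map_mul, map_pow]
    rfl
  refine (Germ.coe_eq.1 e).mono fun p hp => ?_
  rw [hp]
  simp [Finset.sum_apply]

/-- a polynomial bound in terms of `A` -/
def Bd (l : Filter α) (ev : R → α → ℂ) (A : Set R) (f : α → ℝ) : Prop :=
  ∃ (s : Finset R) (K : ℝ) (k : ℕ), (s : Set R) ⊆ A ∧ 0 ≤ K ∧
    ∀ᶠ p in l, f p ≤ K * (1 + ∑ a ∈ s, ‖ev a p‖) ^ k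

lemma Bd.mono {A : Set R} {f g : α → ℝ} (h : Bd l ev A g) (hfg : ∀ᶠ p in l, f p ≤ g p) :
    Bd l ev A f := by
  obtain ⟨s, K, k, h1, h2, h3⟩ := h
  exact ⟨s, K, k, h1, h2, (hfg.and h3).mono fun p hp => hp.1.trans hp.2⟩

lemma Bd.const (A : Set R) {K : ℝ} (hK : 0 ≤ K) : Bd l ev A fun _ => K :=
  ⟨∅, K, 0, by simp, hK, Eventually.of_forall fun p => by simp⟩

lemma up {s t : Finset R} (hst : s ⊆ t) {k m : ℕ} (hkm : k ≤ m) (p : α) :
    (1 + ∑ a ∈ s, ‖ev a p‖) ^ k ≤ (1 + ∑ a ∈ t, ‖ev a p‖) ^ m := by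
  have h0 : 0 ≤ ∑ a ∈ s, ‖ev a p‖ := Finset.sum_nonneg fun _ _ => norm_nonneg _
  have h1 : ∑ a ∈ s, ‖ev a p‖ ≤ ∑ a ∈ t, ‖ev a p‖ :=
    Finset.sum_le_sum_of_subset_of_nonneg hst fun _ _ _ => norm_nonneg _
  exact (pow_le_pow_left₀ (by linarith) (by linarith) k).trans
    (pow_le_pow_right₀ (by linarith) hkm)

lemma Bd.add {A : Set R} {f g : α → ℝ} (h : Bd l ev A f) (h' : Bd l ev A g) :
    Bd l ev A fun p => f p + g p := by
  classical
  obtain ⟨s, K, k, h1, h2, h3⟩ := h
  obtain ⟨t, L, m, g1, g2, g3⟩ := h'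
  refine ⟨s ∪ t, K + L, k + m, by simp [h1, g1], by positivity, (h3.and g3).mono fun p hp => ?_⟩
  have a := mul_le_mul_of_nonneg_left
    (up (ev := ev) (Finset.subset_union_left (s₁ := s) (s₂ := t)) (Nat.le_add_right k m) p) h2
  have b := mul_le_mul_of_nonneg_left
    (up (ev := ev) (Finset.subset_union_right (s₁ := s) (s₂ := t)) (Nat.le_add_left m k) p) g2
  beta_reduce
  rw [add_mul]
  linarith [hp.1, hp.2]

lemma Bd.mul {A : Set R} {f g : α → ℝ} (hg : ∀ p, 0 ≤ g p) (h : Bd l ev A f)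
    (h' : Bd l ev A g) : Bd l ev A fun p => f p * g p := by
  classical
  obtain ⟨s, K, k, h1, h2, h3⟩ := h
  obtain ⟨t, L, m, g1, g2, g3⟩ := h'
  refine ⟨s ∪ t, K * L, k + m, by simp [h1, g1], by positivity, (h3.and g3).mono fun p hp => ?_⟩
  have a := hp.1.trans (mul_le_mul_of_nonneg_left
    (up (ev := ev) (Finset.subset_union_left (s₁ := s) (s₂ := t)) (le_refl k) p) h2)
  have b := hp.2.trans (mul_le_mul_of_nonneg_left
    (up (ev := ev) (Finset.subset_union_right (s₁ := s) (s₂ := t)) (le_refl m) p) g2)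
  have c : 0 ≤ ∑ a ∈ s ∪ t, ‖ev a p‖ := Finset.sum_nonneg fun _ _ => norm_nonneg _
  refine (mul_le_mul a b (hg p) (by positivity)).trans (le_of_eq ?_)
  ring

lemma bd_closure (h : EH l ev) (A : Set R) {c : R} (hc : c ∈ Subring.closure A) :
    Bd l ev A fun p => ‖ev c p‖ := by
  induction hc using Subring.closure_induction with
  | mem x hx => exact ⟨{x}, 1, 1, by simpa, zero_le_one, Eventually.of_forall fun p => by simp⟩
  | zero => exact (Bd.const A (le_refl 0)).mono ((zero h).mono fun p hp => by simp [hp])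
  | one => exact (Bd.const A zero_le_one).mono (h.one.mono fun p hp => by simp [hp])
  | add x y _ _ hx hy =>
    exact (hx.add hy).mono ((h.add x y).mono fun p hp => by rw [hp]; exact norm_add_le _ _)
  | neg x _ hx => exact hx.mono ((neg h x).mono fun p hp => by rw [hp, norm_neg])
  | mul x y _ _ hx hy =>
    exact (hx.mul (fun _ => norm_nonneg _) hy).mono
      ((h.mul x y).mono fun p hp => by rw [hp, norm_mul])

lemma bd_sum {A : Set R} (f : ℕ → α → ℝ) (hf : ∀ j, Bd l ev A (f j)) (n : ℕ) :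
    Bd l ev A fun p => ∑ j ∈ Finset.range n, f j p := by
  induction n with
  | zero => simpa using Bd.const A (le_refl 0)
  | succ n ih => simpa only [Finset.sum_range_succ] using ih.add (hf n)

lemma root_le (c : ℕ → ℂ) (z : ℂ) (n : ℕ)
    (h : ∑ j ∈ Finset.range n, c j * z ^ j + z ^ n = 0) :
    ‖z‖ ≤ 1 + ∑ j ∈ Finset.range n, ‖c j‖ := by
  have h0 : 0 ≤ ∑ j ∈ Finset.range n, ‖c j‖ := Finset.sum_nonneg fun _ _ => norm_nonneg _
  rcases le_total ‖z‖ 1 with hz | hz
  · linarith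
  cases n with
  | zero => simp at h
  | succ n =>
    have e : ‖z‖ ^ (n + 1) ≤ (∑ j ∈ Finset.range (n + 1), ‖c j‖) * ‖z‖ ^ n := by
      rw [← norm_pow, eq_neg_of_add_eq_zero_right h, norm_neg, Finset.sum_mul]
      refine (norm_sum_le _ _).trans (Finset.sum_le_sum fun j hj => ?_)
      rw [norm_mul, norm_pow]
      exact mul_le_mul_of_nonneg_left
        (pow_le_pow_right₀ hz (Nat.lt_succ_iff.1 (Finset.mem_range.1 hj))) (norm_nonneg _)
    rw [pow_succ'] at e
    have := le_of_mul_le_mul_right e (by positivity)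
    linarith

end AlE

theorem sBdI : SBdI := by
  intro R α _ l ev h A z ⟨P, hP, hz⟩
  have e : ∑ j ∈ Finset.range P.natDegree, (P.coeff j : R) * z ^ j + z ^ P.natDegree = 0 := by
    rw [eval₂_eq_sum_range, Finset.sum_range_succ, hP.coeff_natDegree, map_one, one_mul] at hz
    exact hz
  have b := (AlE.Bd.const (l := l) (ev := ev) A zero_le_one).add
    (AlE.bd_sum (fun j p => ‖ev (P.coeff j : R) p‖)
      (fun j => AlE.bd_closure h A (P.coeff j).2) P.natDegree)
  refine b.mono ?_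
  have c := AlE.sum_pow h (fun j => (P.coeff j : R)) z P.natDegree
  rw [e] at c
  filter_upwards [c, AlE.zero h] with p h1 h2
  exact AlE.root_le _ _ _ (h1.symm.trans h2)

theorem sEvP : SEvP := by
  intro M α _ _ l r h hc
  have t : Tendsto (Prod.fst : α × ℂ → α) (l.comap Prod.fst) l := tendsto_comap
  have h' : EH (l.comap (Prod.fst : α × ℂ → α)) fun z p => r z p.1 :=
    ⟨fun a b => t.eventually (h.add a b), fun a b => t.eventually (h.mul a b), t.eventually h.one⟩
  have key : ∀ η : M[X], eval₂RingHom (AlE.hom h') ((Prod.snd : α × ℂ → ℂ) : Germ _ ℂ) η =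
      (evP r η : Germ (l.comap (Prod.fst : α × ℂ → α)) ℂ) := fun η => by
    have e : evP r η = ∑ j ∈ Finset.range (η.natDegree + 1),
        (fun p : α × ℂ => r (η.coeff j) p.1) * (Prod.snd : α × ℂ → ℂ) ^ j := by
      funext p
      simp [evP, Finset.sum_apply]
    rw [coe_eval₂RingHom, eval₂_eq_sum_range, e]
    change _ = Germ.coeRingHom _ _
    simp only [map_sum, map_mul, map_pow]
    rfl
  refine ⟨AlE.of_hom _ key, fun z => ?_, ?_, fun z hz => ?_, fun σ v P => ?_⟩
  · have := key (C z)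
    rw [coe_eval₂RingHom, eval₂_C] at this
    exact Germ.coe_eq.1 this.symm
  · have := key X
    rw [coe_eval₂RingHom, eval₂_X] at this
    exact Germ.coe_eq.1 this.symm
  · have := h.mul z z⁻¹
    rw [mul_inv_cancel₀ hz] at this
    filter_upwards [this, h.one] with p h1 h2
    rw [h2] at h1
    exact ⟨left_ne_zero_of_mul_eq_one h1.symm, eq_inv_of_mul_eq_one_right h1.symm⟩
  · induction P using MvPolynomial.induction_on with
    | C a => simpa using hc a
    | add p q hp hq =>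
      filter_upwards [hp, hq, h.add (MvPolynomial.aeval v p) (MvPolynomial.aeval v q)]
        with x h1 h2 h3
      rw [map_add, map_add, h3, h1, h2]
    | mul_X p n hp =>
      filter_upwards [hp, h.mul (MvPolynomial.aeval v p) (v n)] with x h1 h2
      rw [map_mul, map_mul, MvPolynomial.aeval_X, MvPolynomial.eval_X, h2, h1]

end Pool.Agent.P.MP_7ede32_ag.Bnd
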