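import Pool.Agent.P.MP_7ede32_ag.Bnd.DA

/-!
Bounds for roots of polynomials and for rational functions.
-/

open scoped Polynomial
open Polynomial

noncomputable section

namespace Pool.Agent.P.MP_7ede32_ag.Bnd

open Full

namespace AlL

/-- `f` is bounded by a power of `w` -/
def PB {β : Type} (w f : β → ℝ) : Prop := ∃ (K : ℝ) (k : ℕ), 0 ≤ K ∧ ∀ x, f x ≤ K * w x ^ k

lemma PB.const {β : Type} (w : β → ℝ) {c : ℝ} (hc : 0 ≤ c) : PB w fun _ => c :=
  ⟨c, 0, hc, fun _ => by simp⟩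

lemma PB.mono {β : Type} {w f g : β → ℝ} (h : PB w g) (hfg : ∀ x, f x ≤ g x) : PB w f := by
  obtain ⟨K, k, hK, h⟩ := h
  exact ⟨K, k, hK, fun x => (hfg x).trans (h x)⟩

lemma PB.self {β : Type} (w : β → ℝ) : PB w w := ⟨1, 1, zero_le_one, fun _ => by simp⟩

lemma PB.add {β : Type} {w f g : β → ℝ} (hw : ∀ x, 1 ≤ w x) (hf : PB w f) (hg : PB w g) :
    PB w fun x => f x + g x := by
  obtain ⟨K, k, hK, hf⟩ := hf
  obtain ⟨L, l, hL, hg⟩ := hg
  refine ⟨K + L, k + l, add_nonneg hK hL, fun x => ?_⟩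
  have h1 : w x ^ k ≤ w x ^ (k + l) := pow_le_pow_right₀ (hw x) (Nat.le_add_right _ _)
  have h2 : w x ^ l ≤ w x ^ (k + l) := pow_le_pow_right₀ (hw x) (Nat.le_add_left _ _)
  have h3 := mul_le_mul_of_nonneg_left h1 hK
  have h4 := mul_le_mul_of_nonneg_left h2 hL
  have h5 := hf x
  have h6 := hg x
  rw [add_mul]
  linarith

lemma PB.mul {β : Type} {w f g : β → ℝ} (hw : ∀ x, 1 ≤ w x) (hf : PB w f) (hg : PB w g)
    (g0 : ∀ x, 0 ≤ g x) : PB w fun x => f x * g x := by
  obtain ⟨K, k, hK, hf⟩ := hf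
  obtain ⟨L, l, hL, hg⟩ := hg
  refine ⟨K * L, k + l, mul_nonneg hK hL, fun x => ?_⟩
  have h0 : 0 ≤ K * w x ^ k := mul_nonneg hK (pow_nonneg (zero_le_one.trans (hw x)) _)
  calc f x * g x ≤ K * w x ^ k * (L * w x ^ l) := mul_le_mul (hf x) (hg x) (g0 x) h0
    _ = K * L * w x ^ (k + l) := by rw [pow_add]; ring

lemma PB.sum {β ι : Type} {w : β → ℝ} (hw : ∀ x, 1 ≤ w x) (s : Finset ι) (f : ι → β → ℝ)
    (hf : ∀ i ∈ s, PB w (f i)) : PB w fun x => ∑ i ∈ s, f i x := by
  classical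
  induction s using Finset.induction_on with
  | empty => simpa using PB.const w le_rfl
  | insert a s ha ih =>
    simp only [Finset.sum_insert ha]
    exact PB.add hw (hf a (Finset.mem_insert_self _ _))
      (ih fun i hi => hf i (Finset.mem_insert_of_mem hi))

lemma mv {β σ : Type} {w : β → ℝ} (hw : ∀ x, 1 ≤ w x) (v : β → σ → ℂ)
    (hv : ∀ x i, ‖v x i‖ ≤ w x) (G : MvPolynomial σ ℂ) :
    PB w fun x => ‖MvPolynomial.eval (v x) G‖ := by
  induction G using MvPolynomial.induction_on with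
  | C a => simpa using PB.const w (norm_nonneg a)
  | add p q hp hq =>
    exact (PB.add hw hp hq).mono fun x => by rw [map_add]; exact norm_add_le _ _
  | mul_X p i hp =>
    refine (PB.mul hw hp (PB.self w) fun x => zero_le_one.trans (hw x)).mono fun x => ?_
    rw [map_mul, MvPolynomial.eval_X, norm_mul]
    exact mul_le_mul_of_nonneg_left (hv x i) (norm_nonneg _)

lemma uni {β : Type} {w : β → ℝ} (hw : ∀ x, 1 ≤ w x) (t : β → ℂ) (ht : ∀ x, ‖t x‖ ≤ w x)
    (G : ℂ[X]) : PB w fun x => ‖G.eval (t x)‖ := by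
  induction G using Polynomial.induction_on with
  | C a => simpa using PB.const w (norm_nonneg a)
  | add p q hp hq =>
    exact (PB.add hw hp hq).mono fun x => by rw [eval_add]; exact norm_add_le _ _
  | monomial n a hp =>
    refine (PB.mul hw hp (PB.self w) fun x => zero_le_one.trans (hw x)).mono fun x => ?_
    rw [pow_succ, ← mul_assoc, eval_mul, eval_X, norm_mul]
    exact mul_le_mul_of_nonneg_left (ht x) (norm_nonneg _)

lemma root (q : ℂ[X]) (n : ℕ) (hn : q.natDegree ≤ n) (c : ℂ) (hc : q.eval c = 0) :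
    ‖c‖ * ‖q.coeff n‖ ≤ ∑ j ∈ Finset.range (n + 1), ‖q.coeff j‖ := by
  have s0 : 0 ≤ ∑ j ∈ Finset.range n, ‖q.coeff j‖ := Finset.sum_nonneg fun _ _ => norm_nonneg _
  rw [Finset.sum_range_succ]
  rcases le_total ‖c‖ 1 with h1 | h1
  · have := mul_le_mul_of_nonneg_right h1 (norm_nonneg (q.coeff n))
    linarith
  · rw [eval_eq_sum_range' (Nat.lt_succ_of_le hn), Finset.sum_range_succ] at hc
    have e : q.coeff n * c ^ n = -∑ j ∈ Finset.range n, q.coeff j * c ^ j := by
      linear_combination hc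
    cases n with
    | zero =>
      have : q.coeff 0 = 0 := by simpa using e
      simp [this]
    | succ m =>
      have c0 : 0 < ‖c‖ ^ m := pow_pos (zero_lt_one.trans_le h1) _
      have b : ‖q.coeff (m + 1)‖ * ‖c‖ ^ (m + 1) ≤
          (∑ j ∈ Finset.range (m + 1), ‖q.coeff j‖) * ‖c‖ ^ m := by
        rw [← norm_pow, ← norm_mul, e, norm_neg, Finset.sum_mul]
        refine (norm_sum_le _ _).trans (Finset.sum_le_sum fun j hj => ?_)
        rw [norm_mul, norm_pow]
        exact mul_le_mul_of_nonneg_left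
          (pow_le_pow_right₀ h1 (Nat.lt_succ_iff.1 (Finset.mem_range.1 hj))) (norm_nonneg _)
      have b' : ‖c‖ * ‖q.coeff (m + 1)‖ ≤ ∑ j ∈ Finset.range (m + 1), ‖q.coeff j‖ := by
        refine le_of_mul_le_mul_right ?_ c0
        calc ‖c‖ * ‖q.coeff (m + 1)‖ * ‖c‖ ^ m = ‖q.coeff (m + 1)‖ * ‖c‖ ^ (m + 1) := by ring
          _ ≤ _ := b
      have := norm_nonneg (q.coeff (m + 1))
      linarith

lemma frac {M : Type} [Field M] [Algebra ℂ M] (u : M) (hu : ∀ P : ℂ[X], aeval u P = 0 → P = 0)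
    (z : M) (hz : z ∈ Subfield.closure (insert u (Set.range (algebraMap ℂ M)))) :
    ∃ p q : ℂ[X], q ≠ 0 ∧ z * aeval u q = aeval u p := by
  induction hz using Subfield.closure_induction with
  | mem x hx =>
    rcases hx with rfl | ⟨c, rfl⟩
    · exact ⟨X, 1, one_ne_zero, by simp⟩
    · exact ⟨C c, 1, one_ne_zero, by simp⟩
  | one => exact ⟨1, 1, one_ne_zero, by simp⟩
  | add x y _ _ hx hy =>
    obtain ⟨p, q, hq, e⟩ := hx
    obtain ⟨p', q', hq', e'⟩ := hy
    refine ⟨p * q' + p' * q, q * q', mul_ne_zero hq hq', ?_⟩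
    rw [map_add, map_mul, map_mul, map_mul, ← e, ← e']
    ring
  | neg x _ hx =>
    obtain ⟨p, q, hq, e⟩ := hx
    exact ⟨-p, q, hq, by rw [map_neg, ← e, neg_mul]⟩
  | inv x _ hx =>
    obtain ⟨p, q, hq, e⟩ := hx
    by_cases hx0 : x = 0
    · exact ⟨0, 1, one_ne_zero, by simp [hx0]⟩
    · refine ⟨q, p, fun hp => ?_, ?_⟩
      · rw [hp, map_zero] at e
        exact hq (hu q ((mul_eq_zero.1 e).resolve_left hx0))
      · rw [← e, inv_mul_cancel_left₀ hx0]
  | mul x y _ _ hx hy =>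
    obtain ⟨p, q, hq, e⟩ := hx
    obtain ⟨p', q', hq', e'⟩ := hy
    refine ⟨p * p', q * q', mul_ne_zero hq hq', ?_⟩
    rw [map_mul, map_mul, ← e, ← e']
    ring

lemma common {M : Type} [Field M] [Algebra ℂ M] (u : M) (s : Finset M)
    (hs : ∀ z ∈ s, ∃ p q : ℂ[X], q ≠ 0 ∧ z * aeval u q = aeval u p) :
    ∃ h : ℂ[X], h ≠ 0 ∧ ∀ z ∈ s, ∃ p : ℂ[X], z * aeval u h = aeval u p := by
  classical
  induction s using Finset.induction_on with
  | empty => exact ⟨1, one_ne_zero, fun z hz => absurd hz (Finset.notMem_empty z)⟩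
  | insert a s _ ih =>
    obtain ⟨h, h0, hh⟩ := ih fun z hz => hs z (Finset.mem_insert_of_mem hz)
    obtain ⟨p, q, hq, e⟩ := hs a (Finset.mem_insert_self _ _)
    refine ⟨q * h, mul_ne_zero hq h0, fun z hz => ?_⟩
    rcases Finset.mem_insert.1 hz with rfl | hz
    · exact ⟨p * h, by rw [map_mul, map_mul, ← e, mul_assoc]⟩
    · obtain ⟨p', e'⟩ := hh z hz
      exact ⟨q * p', by rw [map_mul, map_mul, ← e']; ring⟩

lemma ev_aeval {M α : Type} [Field M] [Algebra ℂ M] {l : Filter α} {r : M → α → ℂ} (hr : EH l r)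
    (hc : ∀ c, ∀ᶠ p in l, r (algebraMap ℂ M c) p = c) (u : M) (G : ℂ[X]) :
    ∀ᶠ p in l, r (aeval u G) p = G.eval (r u p) := by
  induction G using Polynomial.induction_on with
  | C a => simpa using hc a
  | add p q hp hq =>
    filter_upwards [hp, hq, hr.add (aeval u p) (aeval u q)] with x h1 h2 h3
    rw [map_add, h3, h1, h2, eval_add]
  | monomial n a hp =>
    filter_upwards [hp, hr.mul (aeval u (C a * X ^ n)) u] with x h1 h3
    rw [pow_succ, ← mul_assoc, map_mul, aeval_X, h3, h1, eval_mul (p := C a * X ^ n), eval_X]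

end AlL

open AlL

theorem sLead : SLead := by
  intro P hP
  have inj : Function.Injective (![1, 2, 0] : Fin 3 → Fin 3) := by decide
  set Q := MvPolynomial.finSuccEquiv ℂ 2 (MvPolynomial.rename (![1, 2, 0] : Fin 3 → Fin 3) P)
    with hQ
  have Q0 : Q ≠ 0 := by
    rw [hQ, Ne, map_eq_zero_iff _ (MvPolynomial.finSuccEquiv ℂ 2).injective,
      map_eq_zero_iff _ (MvPolynomial.rename_injective _ inj)]
    exact hP
  have hw : ∀ x : ℂ × ℂ, 1 ≤ 1 + ‖x.1‖ + ‖x.2‖ := fun x => by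
    have := norm_nonneg x.1
    have := norm_nonneg x.2
    linarith
  obtain ⟨K, k, hK, hb⟩ := PB.sum hw (Finset.range (Q.natDegree + 1))
    (fun j x => ‖MvPolynomial.eval ![x.1, x.2] (Q.coeff j)‖) fun j _ =>
      mv hw (fun x => ![x.1, x.2]) (fun x i => by
        have := norm_nonneg x.1
        have := norm_nonneg x.2
        fin_cases i <;> simp <;> linarith) _
  refine ⟨Q.leadingCoeff, K, k, leadingCoeff_ne_zero.2 Q0, hK, fun a b c h => ?_⟩
  have e : (Q.map (MvPolynomial.eval ![a, b])).eval c = 0 := by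
    rw [hQ, ← MvPolynomial.eval_eq_eval_mv_eval', MvPolynomial.eval_rename, ← h]
    congr 2
    funext i
    fin_cases i <;> rfl
  have := root _ Q.natDegree natDegree_map_le c e
  simp only [coeff_map] at this
  exact this.trans (hb (a, b))

theorem sBdK (h : SEvP) : SBdK := by
  intro M α _ _ l r hr hc u s hu hs
  obtain ⟨H, H0, hH⟩ := common u s fun z hz => frac u hu z (hs z hz)
  choose! p hp using hH
  have hw : ∀ t : ℂ, 1 ≤ 1 + ‖t‖ + ‖H.eval t‖⁻¹ := fun t => by
    have := norm_nonneg t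
    have := inv_nonneg.2 (norm_nonneg (H.eval t))
    linarith
  obtain ⟨K, k, hK, hb⟩ := PB.sum hw s (fun z t => ‖(p z).eval t‖ * (1 + ‖t‖ + ‖H.eval t‖⁻¹))
    fun z _ => PB.mul hw (uni hw (fun t => t) (fun t => by
      have := inv_nonneg.2 (norm_nonneg (H.eval t))
      linarith) _) (PB.self _) fun t => zero_le_one.trans (hw t)
  refine ⟨H, K, k, H0, hK, ?_⟩
  have h1 := (h M α l r hr hc).2.2.2.1 (aeval u H) fun e => H0 (hu H e)
  have h2 : ∀ᶠ x in l, ∀ z ∈ s, r z x * r (aeval u H) x = (p z).eval (r u x) := by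
    rw [Filter.eventually_all_finset]
    intro z hz
    filter_upwards [hr.mul z (aeval u H), ev_aeval hr hc u (p z)] with x a1 a2
    rw [← a1, hp z hz, a2]
  filter_upwards [h1, h2, ev_aeval hr hc u H] with x a1 a2 a3
  rw [a3] at a1 a2
  refine ⟨a1.1, le_trans (Finset.sum_le_sum fun z hz => ?_) (hb (r u x))⟩
  have n0 : ‖H.eval (r u x)‖ ≠ 0 := norm_ne_zero_iff.2 a1.1
  calc ‖r z x‖ = ‖(p z).eval (r u x)‖ * ‖H.eval (r u x)‖⁻¹ := by
        rw [← a2 z hz, norm_mul, mul_inv_cancel_right₀ n0]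
    _ ≤ _ := by
        refine mul_le_mul_of_nonneg_left ?_ (norm_nonneg _)
        have := norm_nonneg (r u x)
        linarith

end Pool.Agent.P.MP_7ede32_ag.Bnd
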