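import Pool.Agent.P.MP_7ede32_ag.Bnd.DA

/-!
Regularity after an extension of the constants, and algebraic dependence by exchange.
-/

open scoped IntermediateField
open Set

noncomputable section

namespace Pool.Agent.P.MP_7ede32_ag.Bnd

open Full

theorem sRegUp2 (h1 : SUniq) (h2 : SDer) : SRegUp2 := by
  intro k F k' F' _ _ _ _ _ _ _ i x a μ hx hF hi0 hreg d' hd' O' hO' hk
  by_cases hO : O'.comap i = ⊤
  · have hm : ∀ z, i z ∈ O' := fun z => by
      have : z ∈ O'.comap i := hO ▸ ValuationSubring.mem_top z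
      exact this
    refine ⟨i x, hm x, by rw [hd'.2]; exact one_ne_zero, ?_, ?_⟩
    · rw [hd'.2, one_pow, div_one]; exact hm a
    · rw [hd'.2, one_pow, div_one]; exact mul_mem (hm x) (hm a)
  obtain ⟨d, hc, hdx⟩ := h2 k F x hx hF ⟨fun _ => 0, by simp, by simp⟩ 1
  have hd : Std k d x := ⟨fun c => by rw [hc, map_zero], hdx⟩
  have hi : ∀ z, i (d.D z) = d'.D (i z) := fun z => sub_eq_zero.1 <|
    h1 k F F' i (fun z => i (d.D z) - d'.D (i z)) x hF
      (fun a b => by simp only [d.D_add, map_add, d'.D_add]; ring)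
      (fun a b => by simp only [d.D_mul, map_add, map_mul, d'.D_mul]; ring)
      (fun c => by
        obtain ⟨c', hc'⟩ := hi0 c
        rw [hd.1, map_zero, hc', hd'.1, sub_zero])
      (by rw [hdx, map_one, hd'.2, sub_self]) z
  obtain ⟨y, k1, k2, k3, k4⟩ := hreg d hd _ hO fun c => by
    obtain ⟨c', hc'⟩ := hi0 c
    rw [ValuationSubring.mem_comap, hc']; exact hk c'
  rw [ValuationSubring.mem_comap] at k1 k3 k4
  refine ⟨i y, k1, ?_, ?_, ?_⟩
  · rw [← hi]; exact (map_ne_zero i).2 k2
  · rwa [map_div₀, map_pow, hi] at k3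
  · rwa [map_div₀, map_pow, map_mul, hi] at k4

namespace AlR

variable {k M : Type} [Field k] [Field M] [CharZero M] [Algebra k M] {u x z : M}

lemma indep2 (h : AlgebraicIndependent k ![u, x])
    (hz : z ∉ acl (insert u (range (algebraMap k M)))) : AlgebraicIndependent k ![u, z] := by
  have h0 : AlgebraicIndependent k (fun _ : Unit => u) :=
    h.comp (fun _ : Unit => (0 : Fin 2)) fun _ _ _ => rfl
  have h1 : Transcendental (Algebra.adjoin k (range fun _ : Unit => u)) z := by
    intro h1
    refine hz (mem_acl_of_isAlgebraic Subtype.val_injective ?_ h1)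
    rintro ⟨r, hr⟩
    change r ∈ _
    induction hr using Algebra.adjoin_induction with
    | mem y hy =>
      obtain ⟨i, rfl⟩ := hy
      exact subset_acl _ (mem_insert _ _)
    | algebraMap a => exact subset_acl _ (mem_insert_of_mem _ ⟨a, rfl⟩)
    | add _ _ _ _ h2 h3 => exact add_mem h2 h3
    | mul _ _ _ _ h2 h3 => exact mul_mem h2 h3
  have h2 := ((h0.option_iff_transcendental z).2 h1).comp
    (![some (), none] : Fin 2 → Option Unit) (by decide)
  have h3 : (![u, z] : Fin 2 → M) = (fun o : Option Unit => o.elim z fun _ => u) ∘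
      (![some (), none] : Fin 2 → Option Unit) := by
    funext i
    fin_cases i <;> rfl
  rw [h3]
  exact h2

lemma dep3 (hz : z ∈ acl (insert x (insert u (range (algebraMap k M))))) :
    ¬ AlgebraicIndependent k ![u, x, z] := by
  intro h
  have h1 := h.transcendental_adjoin (s := {0, 1}) (i := 2) (by simp)
  rw [← IntermediateField.transcendental_adjoin_iff] at h1
  refine h1 (isAlgebraic_of_mem_acl _ ?_ hz)
  rintro _ (rfl | rfl | ⟨a, rfl⟩)
  · exact ⟨⟨_, IntermediateField.subset_adjoin _ _ ⟨1, by simp, rfl⟩⟩, rfl⟩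
  · exact ⟨⟨_, IntermediateField.subset_adjoin _ _ ⟨0, by simp, rfl⟩⟩, rfl⟩
  · exact ⟨⟨_, IntermediateField.algebraMap_mem _ a⟩, rfl⟩

end AlR

theorem sDep : SDep := by
  intro M _ _ _ u x χ z d hc hu hχ h1 h2
  have h3 : χ ∉ acl (insert u (range (algebraMap ℂ M))) := fun h => hχ <|
    d.acl_le_const (by
      rintro _ (rfl | ⟨c, rfl⟩)
      · exact hu
      · exact hc c) h
  have h4 := acl_exchange (h2 χ) h3
  have h5 : z ∈ acl (insert χ (insert u (range (algebraMap ℂ M)))) :=
    acl_le (insert_subset h4 ((subset_insert _ _).trans (subset_acl _))) (h2 z)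
  refine ⟨algebraicIndependent_iff.1 (AlR.indep2 (algebraicIndependent_iff.2 h1) h3), ?_⟩
  have h6 := AlR.dep3 h5
  rw [algebraicIndependent_iff] at h6
  push Not at h6
  obtain ⟨P, hP, hP0⟩ := h6
  exact ⟨P, hP0, hP⟩

end Pool.Agent.P.MP_7ede32_ag.Bnd
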