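import Pool.Agent.P.MP_7ede32_ag.Bnd.Al3
import Pool.Agent.P.MP_7ede32_ag.Bnd.AlC1
import Pool.Agent.P.MP_7ede32_ag.Bnd.AlC2
import Pool.Agent.P.MP_7ede32_ag.Bnd.AlE
import Pool.Agent.P.MP_7ede32_ag.Bnd.AlL
import Pool.Agent.P.MP_7ede32_ag.Bnd.AlR
import Pool.Agent.P.MP_7ede32_ag.Full.LocD
import Pool.Agent.P.MP_7ede32_ag.Full.Wr
import Pool.Agent.P.MP_7ede32_ag.Full.InvP
import Pool.Agent.P.MP_7ede32_ag.Full.Fi
import Pool.Agent.P.MP_7ede32_ag.Full.Desc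
import Pool.Agent.P.MP_7ede32_ag.Full.Uniq

/-!
The algebraic part in closed form.
-/

namespace Pool.Agent.P.MP_7ede32_ag.Bnd

open Full

theorem aKap : SKap := sKap sLoc
theorem aNeg : SNeg := sNeg aKap
theorem aCoord : SCoord := sCoord sLoc
theorem aMon : SMon := sMon aKap (sSurj sGen (sCnt2 sCut)) aCoord
theorem aGcd : SGcd := sGcd aMon aNeg
theorem aDsc : SDsc := sDsc (sGal sUniq) aGcd
theorem aFi2 : SFi2 := sFi2 sLoc (sInvP sLoc sCut (sWr sLoc) sUniq) (sFi sLoc)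

theorem aCB : SCB :=
  sCB (sI1 (sDesc sLoc) sIntP) (sI2 aDsc aMon aNeg aCoord sIntP) (sI3 aGcd aDsc aFi2)

theorem aRegUp2 : SRegUp2 := sRegUp2 sUniq sDer
theorem aDep : SDep := sDep
theorem aLead : SLead := sLead
theorem aBdI : SBdI := sBdI
theorem aEvP : SEvP := sEvP
theorem aBdK : SBdK := sBdK sEvP

end Pool.Agent.P.MP_7ede32_ag.Bnd
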