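import Pool.Agent.P.MP_7ede32_ag.Bnd.DP
import Pool.Agent.P.MP_7ede32_ag.Full.Mer

/-!
Gluing the extensions over the discs.
-/

open Filter Topology Metric Set

noncomputable section

namespace Pool.Agent.P.MP_7ede32_ag.Bnd

open Full

namespace AlgEP

theorem near {D : Discs} {w : ℂ} (hw : w ∈ D.G 0) :
    ∀ᶠ z in 𝓝 w, ∀ c ∈ D.C, D.r c - D.θ < dist z c := by
  filter_upwards [ball_mem_nhds w D.θ_pos] with z hz c hc
  linarith [hw c hc, mem_ball.1 hz, dist_triangle_left w c z]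

theorem nonempty_G (D : Discs) : ∃ w, w ∈ D.G 0 := by
  rcases D.C.eq_empty_or_nonempty with h | ⟨c, hc⟩
  · exact ⟨0, fun c hc => by simp [h] at hc⟩
  · have h1 : dist (c + (D.r c : ℂ)) c = D.r c := by
      rw [dist_self_add_left, Complex.norm_real, Real.norm_of_nonneg]
      linarith [D.le_r c hc, D.θ_pos]
    exact ⟨c + D.r c, D.mem_G hc (by linarith) (by linarith [D.θ_pos])⟩

theorem glue (D : Discs) (e : ℂ → ℂ) (M : ℂ → ℂ → ℂ)
    (hM : ∀ c ∈ D.C, EqOn (M c) e (An2 c (D.r c - D.θ) (D.r c))) :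
    ∃ f : ℂ → ℂ, (∀ z, (∀ c ∈ D.C, D.r c - D.θ < dist z c) → f z = e z) ∧
      ∀ c ∈ D.C, ∀ z ∈ ball c (D.r c), f z = M c z := by
  classical
  refine ⟨fun z => if h : ∃ c ∈ D.C, dist z c < D.r c then M h.choose z else e z,
    fun z hz => ?_, fun c hc z hz => ?_⟩
  · by_cases h : ∃ c ∈ D.C, dist z c < D.r c
    · simp only [dif_pos h]
      exact hM _ h.choose_spec.1 ⟨hz _ h.choose_spec.1, h.choose_spec.2⟩
    · simp only [dif_neg h]
  · have h : ∃ c ∈ D.C, dist z c < D.r c := ⟨c, hc, hz⟩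
    simp only [dif_pos h]
    have h1 : h.choose = c := by
      by_contra hne
      linarith [D.sep _ h.choose_spec.1 c hc hne, h.choose_spec.2, mem_ball.1 hz,
        dist_triangle_left h.choose c z, D.θ_pos]
    rw [h1]

end AlgEP

open AlgEP in
theorem sAlgE (h : SEllAlg) : SAlgE := by
  intro L L' D e hL hp he hm
  have h1 : ∀ c, ∃ M : ℂ → ℂ, c ∈ D.C → MeromorphicOn M (ball c (D.r c)) ∧
      EqOn M e (An2 c (D.r c - D.θ) (D.r c)) := fun c => by
    by_cases hc : c ∈ D.C
    · obtain ⟨p, a1, m, a2, a3⟩ := hm c hc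
      refine ⟨fun w => m (w + p), fun _ => ⟨fun w hw => ?_, fun w hw => ?_⟩⟩
      · have a4 : MeromorphicAt m (w + p) := a2 _ (by simpa using hw)
        exact a4.comp_analyticAt (g := fun z => z + p) (by fun_prop)
      · have a4 : w ∈ D.Go := D.mem_Go hc (by linarith [hw.1, D.θ_pos]) (by linarith [hw.2, D.θ_pos])
        rw [← (he w a4).2 p a1]
        exact a3 ⟨by simpa using hw.1, by simpa using hw.2⟩
    · exact ⟨e, fun a => absurd a hc⟩
  choose M hM using h1
  obtain ⟨f, f1, f2⟩ := glue D e M fun c hc => (hM c hc).2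
  have f3 : ∀ w ∈ D.G 0, f =ᶠ[𝓝 w] e := fun w hw => (near hw).mono f1
  have hf : Meromorphic f := fun w => by
    by_cases hw : w ∈ D.G 0
    · exact ((he w (D.G_subset_Go hw)).1.congr (f3 w hw).symm).meromorphicAt
    · obtain ⟨c, hc, a1⟩ : ∃ c ∈ D.C, dist w c < D.r c := by
        by_contra hn
        exact hw fun c hc => by
          rw [add_zero]
          exact not_lt.1 fun a => hn ⟨c, hc, a⟩
      refine ((hM c hc).1 w a1).congr (mem_nhdsWithin_of_mem_nhds ?_)
      filter_upwards [isOpen_ball.mem_nhds (show w ∈ ball c (D.r c) from a1)] with z hz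
      exact (f2 c hc z hz).symm
  have hper : ∀ p ∈ L'.lattice, ∀ᶠ w in codiscrete ℂ, f (w + p) = f w := fun p a1 => by
    have a2 : Meromorphic fun w => f (w + p) - f w := fun w =>
      ((hf (w + p)).comp_analyticAt (g := fun z => z + p) (by fun_prop)).sub (hf w)
    have a3 : (fun w => f (w + p) - f w) =ᶠ[codiscrete ℂ] 0 := by
      by_contra hn
      obtain ⟨w, hw⟩ := nonempty_G D
      refine ne_top_of_ne a2 hn w (meromorphicOrderAt_eq_top_iff.2 (mem_nhdsWithin_of_mem_nhds ?_))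
      filter_upwards [near hw] with z hz
      have a4 : z ∈ D.Go := fun c hc => by linarith [hz c hc, D.θ_pos]
      have a5 : ∀ c ∈ D.C, D.r c - D.θ < dist (z + p) c := fun c hc => by
        obtain ⟨b1, b2⟩ := hp (-p) (L'.lattice.neg_mem a1) c hc
        have b3 := hz _ b1
        rwa [b2, ← dist_add_right z _ p, neg_add_cancel_right] at b3
      rw [f1 _ a5, f1 _ hz, (he z a4).2 p a1, sub_self]
    exact a3.mono fun w hw => sub_eq_zero.1 hw
  obtain ⟨H, H1, H2⟩ := h L L' f hL hf hper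
  refine ⟨H, H1, fun w hw => ?_⟩
  filter_upwards [cd_iff.1 H2 w, mem_nhdsWithin_of_mem_nhds (f3 w hw)] with z a1 a2
  rw [← a1, show f z = e z from a2]

end Pool.Agent.P.MP_7ede32_ag.Bnd
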