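import Pool.Agent.P.MP_7ede32_ag.Bnd.RT1

/-!
Toolbox: finite sums, and maps to a torus.
-/

open Filter Topology Metric Set Function

noncomputable section

namespace Pool.Agent.P.MP_7ede32_ag.Bnd

open MP_5d7cf0_gt.T (RS zc loc An Hf Om Hol)
open MP_5d7cf0_gt.T renaming D → Dc

section sums

variable {C : Type} {f g : C → ℤ} {W W' : Set C}

theorem Fs.add (hf : Fs f) (hg : Fs g) : Fs fun c => f c + g c :=
  (Finite.union hf hg).subset (support_add _ _)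

theorem Fs.sub (hf : Fs f) (hg : Fs g) : Fs fun c => f c - g c :=
  (Finite.union hf hg).subset (support_sub _ _)

theorem Fs.mul (hf : Fs f) (k : ℤ) : Fs fun c => k * f c :=
  Finite.subset hf fun c hc h => hc (by simp [h])

theorem fs_sum {ι : Type} {s : Finset ι} {F : ι → C → ℤ} (h : ∀ i ∈ s, Fs (F i)) :
    Fs fun c => ∑ i ∈ s, F i c :=
  (Finite.biUnion s.finite_toSet h).subset fun _ hc =>
    let ⟨_, hi, h0⟩ := Finset.exists_ne_zero_of_sum_ne_zero hc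
    mem_biUnion hi h0

theorem Fs.of_le (hg : Fs g) (h0 : ∀ c, 0 ≤ f c) (h : ∀ c, f c ≤ g c) : Fs f :=
  Finite.subset hg fun c hc h1 => hc (le_antisymm (h1 ▸ h c) (h0 c))

theorem Fs.ind (hf : Fs f) (W : Set C) : Fs (W.indicator f) :=
  Finite.subset hf fun c hc h => hc (by by_cases h' : c ∈ W <;> simp [h, h'])

theorem sm_one : ∑ᶠ _c ∈ W, (1 : ℤ) = W.ncard := by
  obtain hs | hs := W.infinite_or_finite
  · rw [hs.ncard]
    exact finsum_mem_eq_zero_of_infinite (by simpa [Function.support_const] using hs)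
  · simp [finsum_mem_eq_finite_toFinset_sum _ hs, Set.ncard_eq_toFinset_card W hs]

theorem sm_univ : ∑ᶠ c ∈ (univ : Set C), f c = ∑ᶠ c, f c := finsum_mem_univ f

theorem sm_add (hf : Fs f) (hg : Fs g) :
    ∑ᶠ c ∈ W, (f c + g c) = ∑ᶠ c ∈ W, f c + ∑ᶠ c ∈ W, g c :=
  finsum_mem_add_distrib' (Finite.inter_of_right hf W) (Finite.inter_of_right hg W)

theorem sm_sub (hf : Fs f) (hg : Fs g) :
    ∑ᶠ c ∈ W, (f c - g c) = ∑ᶠ c ∈ W, f c - ∑ᶠ c ∈ W, g c := by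
  rw [eq_sub_iff_add_eq, ← sm_add (hf.sub hg) hg]
  exact finsum_mem_congr rfl fun _ _ => sub_add_cancel _ _

theorem sm_mul (k : ℤ) : ∑ᶠ c ∈ W, k * f c = k * ∑ᶠ c ∈ W, f c := (mul_finsum_mem f k).symm

theorem sm_le (hf : Fs f) (hg : Fs g) (h : ∀ c ∈ W, f c ≤ g c) :
    ∑ᶠ c ∈ W, f c ≤ ∑ᶠ c ∈ W, g c := by
  rw [finsum_mem_def, finsum_mem_def]
  refine finsum_le_finsum' (hf.ind W) (hg.ind W) fun c => ?_
  by_cases hc : c ∈ W
  · simpa [hc] using h c hc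
  · simp [hc]

theorem sm_nonneg (h : ∀ c ∈ W, 0 ≤ f c) : 0 ≤ ∑ᶠ c ∈ W, f c :=
  finsum_nonneg fun c => finsum_nonneg (h c)

theorem sm_mono (hf : Fs f) (h : ∀ c, 0 ≤ f c) (hW : W ⊆ W') :
    ∑ᶠ c ∈ W, f c ≤ ∑ᶠ c ∈ W', f c := by
  rw [finsum_mem_def, finsum_mem_def]
  exact finsum_le_finsum' (hf.ind W) (hf.ind W') fun c => indicator_le_indicator_of_subset hW h c

theorem sm_le_univ (hf : Fs f) (h : ∀ c, 0 ≤ f c) : ∑ᶠ c ∈ W, f c ≤ ∑ᶠ c, f c :=
  (sm_mono hf h (subset_univ W)).trans_eq sm_univ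

theorem su_add (hf : Fs f) (hg : Fs g) : ∑ᶠ c, (f c + g c) = ∑ᶠ c, f c + ∑ᶠ c, g c :=
  finsum_add_distrib hf hg

theorem su_sub (hf : Fs f) (hg : Fs g) : ∑ᶠ c, (f c - g c) = ∑ᶠ c, f c - ∑ᶠ c, g c :=
  finsum_sub_distrib hf hg

theorem su_mul (k : ℤ) : ∑ᶠ c, k * f c = k * ∑ᶠ c, f c := (mul_finsum f k).symm

theorem su_le (hf : Fs f) (hg : Fs g) (h : ∀ c, f c ≤ g c) : ∑ᶠ c, f c ≤ ∑ᶠ c, g c :=
  finsum_le_finsum' hf hg h

theorem su_nonneg (h : ∀ c, 0 ≤ f c) : 0 ≤ ∑ᶠ c, f c := finsum_nonneg h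

theorem eq_zero_of_su (hf : Fs f) (h : ∀ c, 0 ≤ f c) (h0 : ∑ᶠ c, f c ≤ 0) (c : C) : f c = 0 :=
  le_antisymm ((single_le_finsum c hf h).trans h0) (h c)

theorem ncard_le_sm' (hW : W.Finite) (h1 : ∀ c ∈ W, 1 ≤ f c) :
    (W.ncard : ℤ) ≤ ∑ᶠ c ∈ W, f c := by
  rw [← sm_one, finsum_mem_eq_finite_toFinset_sum _ hW, finsum_mem_eq_finite_toFinset_sum _ hW]
  exact Finset.sum_le_sum fun c hc => h1 c (hW.mem_toFinset.1 hc)

theorem ncard_le_sm (hf : Fs f) (h : ∀ c, 0 ≤ f c) (hW : W ⊆ W') (h1 : ∀ c ∈ W, 1 ≤ f c) :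
    W.Finite ∧ (W.ncard : ℤ) ≤ ∑ᶠ c ∈ W', f c :=
  have h2 : W.Finite := Finite.subset hf fun c hc h0 => by have := h1 c hc; omega
  ⟨h2, (ncard_le_sm' h2 h1).trans (sm_mono hf h hW)⟩

theorem sm_eq_ncard (h1 : ∀ c ∈ W', f c = 1) (h0 : ∀ c ∉ W', f c = 0) :
    ∑ᶠ c ∈ W, f c = (W ∩ W').ncard := by
  rw [← sm_one, finsum_mem_inter_support_eq' f W (W ∩ W') fun c hc =>
    ⟨fun h => ⟨h, by_contra fun h' => hc (h0 c h')⟩, fun h => h.1⟩]
  exact finsum_mem_congr rfl fun c hc => h1 c hc.2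

end sums

namespace Bc

variable {C : Type} [TopologicalSpace C] [ChartedSpace ℂ C] {L : PeriodPair} (B : Bc L C)
  {c y : C} {z z' : ℂ} {m : ℂ → ℂ}

theorem mk_eq : L.lattice.mkQ z = L.lattice.mkQ z' ↔ z - z' ∈ L.lattice := Submodule.Quotient.eq _

theorem mem_l (c : C) : c ∈ B.Fb (B.l c c) := (B.lift c).self_of_nhds

variable {B}

theorem sub_mem (h : c ∈ B.Fb z) (h' : c ∈ B.Fb z') : z - z' ∈ L.lattice :=
  mk_eq.1 (Eq.trans (Eq.symm h) h')

theorem Fb_eq (h : z - z' ∈ L.lattice) : B.Fb z = B.Fb z' := by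
  rw [Fb, Fb, mk_eq.2 h]

theorem pb_of (hm : ∀ p ∈ L.lattice, ∀ w, m (w + p) = m w) (h : c ∈ B.Fb z) : B.pb m c = m z := by
  rw [pb, ← hm _ (sub_mem (B.mem_l c) h) z, add_sub_cancel]

theorem pb_eq (hm : ∀ p ∈ L.lattice, ∀ w, m (w + p) = m w) (c : C) :
    B.pb m =ᶠ[𝓝 c] fun y => m (B.l c y) :=
  (B.lift c).mono fun _ h => pb_of hm h

theorem near (h : c ∈ B.Fb z) : ∀ᶠ y in 𝓝 c, y ∈ B.Fb (z + (B.l c y - B.l c c)) :=
  (B.lift c).mono fun y hy => Eq.trans hy (mk_eq.2 (by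
    have := sub_mem (B.mem_l c) h
    rwa [show B.l c y - (z + (B.l c y - B.l c c)) = B.l c c - z by ring]))

/-- two continuous lifts differ locally by a constant -/
theorem lift_eq {T : Type} [TopologicalSpace T] {t : T} {a a' : T → ℂ} (ha : ContinuousAt a t)
    (ha' : ContinuousAt a' t) (h : ∀ᶠ s in 𝓝 t, a s - a' s ∈ L.lattice) :
    ∀ᶠ s in 𝓝 t, a s = a' s + (a t - a' t) := by
  filter_upwards [h, (ha.sub ha').eventually (L.compl_lattice_sdiff_singleton_mem_nhds _)]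
    with s h1 h2
  have : a s - a' s = a t - a' t := by_contra fun h3 => h2 ⟨h1, h3⟩
  linear_combination this

theorem Sheet.mono {O O' : Set ℂ} {g : ℂ → C} (h : B.Sheet O g) (hO : O' ⊆ O) : B.Sheet O' g :=
  fun z hz => h z (hO hz)

theorem off (h : c ∉ B.Fb z) : ∀ᶠ x : ℂ × C in 𝓝 (z, c), x.2 ∉ B.Fb x.1 := by
  have h1 : B.l c c - z ∉ L.lattice := fun h1 => h (Fb_eq (B := B) h1 ▸ B.mem_l c)
  have h2 : ContinuousAt (fun x : ℂ × C => B.l c x.2 - x.1) (z, c) :=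
    (ContinuousAt.comp (f := Prod.snd) (x := (z, c)) (B.an c).continuousAt continuousAt_snd).sub
      continuousAt_fst
  filter_upwards [h2.eventually (L.isClosed_lattice.isOpen_compl.mem_nhds h1),
    (continuousAt_snd (p := (z, c))).eventually (B.lift c)] with x h3 h4 h5 using
    h3 (sub_mem (B := B) (c := x.2) h4 h5)

theorem isClosed_Fb (z : ℂ) : IsClosed (B.Fb z) := by
  refine isOpen_compl_iff.1 (isOpen_iff_mem_nhds.2 fun c hc => ?_)
  exact ((continuousAt_const (y := z)).prodMk (continuousAt_id (x := c))).eventually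
    (off (B := B) (c := c) (z := z) hc)

theorem continuous_φ : Continuous B.φ :=
  continuous_iff_continuousAt.2 fun c =>
    (ContinuousAt.comp (g := L.lattice.mkQ) continuous_quot_mk.continuousAt
      (B.an c).continuousAt).congr ((B.lift c).mono fun _ h => h.symm)

variable [RS C]

theorem l_eq (c : C) : ∀ᶠ y in 𝓝 c, ∀ᶠ y' in 𝓝 y, B.l y y' = B.l c y' + (B.l y y - B.l c y) := by
  filter_upwards [(B.lift c).eventually_nhds, (B.an c).eventually] with y h1 h2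
  refine lift_eq (L := L) (B.an y).continuousAt h2.continuousAt ?_
  filter_upwards [h1, B.lift y] with y' h3 h4 using sub_mem (B := B) h4 h3

theorem w_eq (c : C) : ∀ᶠ y in 𝓝 c, An (B.l c) y ∧ B.w y = Dc (B.l c) y := by
  filter_upwards [l_eq (B := B) c, (B.an c).eventually] with y h1 h2
  refine ⟨h2, ?_⟩
  rw [w, MP_5d7cf0_gt.T.D_congr h1, MP_5d7cf0_gt.T.D_add h2 (MP_5d7cf0_gt.T.an_const _),
    MP_5d7cf0_gt.T.D_const, add_zero]

theorem e_eq (c : C) : ∀ᶠ y in 𝓝 c, B.e y = od (fun x => B.l c x - B.l c y) y := by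
  filter_upwards [l_eq (B := B) c] with y h1
  refine od_congr ((h1.filter_mono nhdsWithin_le_nhds).mono fun x hx => ?_)
  linear_combination hx

/-- a holomorphic lift computes the differential and the local degree -/
theorem of_lift {a : C → ℂ} (ha : An a c) (h : ∀ᶠ y in 𝓝 c, y ∈ B.Fb (a y)) :
    B.w c = Dc a c ∧ B.e c = od (fun y => a y - a c) c := by
  have h1 : ∀ᶠ y in 𝓝 c, a y = B.l c y + (a c - B.l c c) := by
    refine lift_eq (L := L) ha.continuousAt (B.an c).continuousAt ?_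
    filter_upwards [h, B.lift c] with y h3 h4 using sub_mem (B := B) h3 h4
  constructor
  · rw [w, MP_5d7cf0_gt.T.D_congr h1, MP_5d7cf0_gt.T.D_add (B.an c) (MP_5d7cf0_gt.T.an_const _),
      MP_5d7cf0_gt.T.D_const, add_zero]
  · refine od_congr ((h1.filter_mono nhdsWithin_le_nhds).mono fun x hx => ?_)
    linear_combination -hx

theorem proper {U : Set C} (hU : U ∈ 𝓝ˢ (B.Fb z)) : ∀ᶠ z' in 𝓝 z, B.Fb z' ⊆ U := by
  obtain ⟨V, h1, h2, h3⟩ := mem_nhdsSet_iff_exists.1 hU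
  filter_upwards [h1.isClosed_compl.isCompact.eventually_forall_of_forall_eventually
    (P := fun z' y => y ∉ B.Fb z') fun y hy => off fun h => hy (h2 h)] with z' h4 y hy
  exact h3 (by_contra fun h => h4 y h hy)

theorem D_pb (hm : ∀ p ∈ L.lattice, ∀ w, m (w + p) = m w) (h : c ∈ B.Fb z)
    (ha : AnalyticAt ℂ m z) : An (B.pb m) c ∧ Dc (B.pb m) c = deriv m z * B.w c := by
  have h1 : An (fun y => z + (B.l c y - B.l c c)) c :=
    (MP_5d7cf0_gt.T.an_const z).add ((B.an c).sub (MP_5d7cf0_gt.T.an_const _))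
  have h2 : B.pb m =ᶠ[𝓝 c] fun y => m (z + (B.l c y - B.l c c)) :=
    (near h).mono fun _ hy => pb_of hm hy
  have h3 : z + (B.l c c - B.l c c) = z := by ring
  refine ⟨(h1.comp (by rwa [h3])).congr h2.symm, ?_⟩
  rw [MP_5d7cf0_gt.T.D_congr h2, MP_5d7cf0_gt.T.D_comp h1 (by rw [h3]; exact ha.differentiableAt),
    h3, (of_lift h1 (near h)).1]

theorem Deg.ρ_nonneg (h : B.Deg) : 0 ≤ B.ρ := su_nonneg fun c => sub_nonneg.2 (h.one_le c)

theorem Deg.ncard_le (h : B.Deg) (z : ℂ) : ((B.Fb z).ncard : ℤ) ≤ B.n :=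
  (ncard_le_sm' (h.fin z) fun c _ => h.one_le c).trans_eq (h.sum z)

theorem Deg.sum_odf (h : B.Deg) : ∑ᶠ c, Bnd.odf B.w c = B.ρ := finsum_congr h.odf

theorem Prt.nonneg {P : Set ℂ} {𝒢 : Finset (ℂ → C)} {W : Set C} {b : ℤ} (h : B.Prt P 𝒢 W b)
    (hd : B.Deg) : 0 ≤ b :=
  (sm_nonneg fun c _ => zero_le_one.trans (hd.one_le c)).trans_eq (h.fib 0)

theorem Prt.ncard_le {P : Set ℂ} {𝒢 : Finset (ℂ → C)} {W : Set C} {b : ℤ} (h : B.Prt P 𝒢 W b)
    (hd : B.Deg) (z : ℂ) : ((W ∩ B.Fb z).ncard : ℤ) ≤ b :=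
  (ncard_le_sm' ((hd.fin z).inter_of_right W) fun c _ => hd.one_le c).trans_eq (h.fib z)

end Bc

end Pool.Agent.P.MP_7ede32_ag.Bnd
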