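import Pool.Agent.P.MP_7ede32_ag.Bnd.DX
import Pool.Agent.P.MP_7ede32_ag.Bnd.RT2
import Pool.Agent.P.MP_7ede32_ag.Full.Hom
import Pool.Agent.P.MP_7ede32_ag.Full.MfB

/-!
Toolbox: analytic curves and meromorphic functions on the surface, holomorphic curves.
-/

open Filter Topology Metric Set
open scoped Polynomial

noncomputable section

namespace Pool.Agent.P.MP_7ede32_ag.Bnd

open Full Geo MP_5d7cf0_gt
open MP_5d7cf0_gt.T (RS zc loc An Hf Om Hol)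
open MP_5d7cf0_gt.T renaming D → Dc

variable {X : Type} [MetricSpace X] {S : Sf0 X} {L : PeriodPair} {Z Z' : Set X}
  {ξ ξ' F G : X → ℂ} {x : X} {γ : ℂ → X} {t : ℂ}

section surf

theorem anX_const (c : ℂ) : S.AnAt (fun _ => c) x := fun _ _ _ => analyticAt_const

theorem anX_add (h : S.AnAt F x) (h' : S.AnAt G x) : S.AnAt (fun y => F y + G y) x :=
  fun e he hx => (h e he hx).add (h' e he hx)

theorem anX_sub (h : S.AnAt F x) (h' : S.AnAt G x) : S.AnAt (fun y => F y - G y) x :=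
  fun e he hx => (h e he hx).sub (h' e he hx)

theorem anX_mul (h : S.AnAt F x) (h' : S.AnAt G x) : S.AnAt (fun y => F y * G y) x :=
  fun e he hx => (h e he hx).mul (h' e he hx)

theorem anX_pow (h : S.AnAt F x) (n : ℕ) : S.AnAt (fun y => F y ^ n) x :=
  fun e he hx => (h e he hx).pow n

theorem anX_div (h : S.AnAt F x) (h' : S.AnAt G x) (h0 : G x ≠ 0) :
    S.AnAt (fun y => F y / G y) x :=
  fun e he hx => (h e he hx).div (h' e he hx) (by simpa [e.left_inv hx] using h0)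

theorem anX_inv (h : S.AnAt F x) (h0 : F x ≠ 0) : S.AnAt (fun y => (F y)⁻¹) x :=
  fun e he hx => (h e he hx).inv (by simpa [e.left_inv hx] using h0)

theorem anX_comp {m : ℂ → ℂ} (h : S.AnAt F x) (hm : AnalyticAt ℂ m (F x)) :
    S.AnAt (fun y => m (F y)) x :=
  fun e he hx => hm.comp_of_eq (h e he hx) (by simp [e.left_inv hx])

theorem anX_eval {ι : Type} {g : ι → X → ℂ} (h : ∀ i, S.AnAt (g i) x) (P : MvPolynomial ι ℂ) :
    S.AnAt (fun y => MvPolynomial.eval (fun i => g i y) P) x := by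
  induction P using MvPolynomial.induction_on with
  | C a => simpa using anX_const a
  | add p q hp hq => simpa using anX_add hp hq
  | mul_X p i hp => simpa using anX_mul hp (h i)

omit [MetricSpace X] in
theorem ev2_eq (P : MvPolynomial (Fin 2) ℂ) (y : X) :
    ev2 P (ξ y) (ξ' y) = MvPolynomial.eval (fun i => ![ξ, ξ'] i y) P :=
  congrArg (MvPolynomial.eval · P) (funext fun i => by fin_cases i <;> rfl)

theorem anX_ev2 (h : S.AnAt F x) (h' : S.AnAt G x) (P : MvPolynomial (Fin 2) ℂ) :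
    S.AnAt (fun y => ev2 P (F y) (G y)) x := by
  simp only [ev2_eq]
  exact anX_eval (Fin.forall_fin_two.2 ⟨h, h'⟩) P

/-- the identity theorem near a point -/
theorem zero_near (h : S.AnAt F x) :
    ∀ᶠ y in 𝓝 x, (∀ᶠ z in 𝓝 y, F z = 0) → ∀ᶠ z in 𝓝 x, F z = 0 := by
  obtain ⟨e, he, hx⟩ := S.cover x
  filter_upwards [(e.continuousAt hx).eventually (zero_on_ball (h e he hx)),
    e.open_source.mem_nhds hx] with y a1 a2 a3
  filter_upwards [(e.continuousAt hx).eventually (a1 0 (Sf0.symm_eventually a2 a3)),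
    e.open_source.mem_nhds hx] with z b1 b2
  simpa [e.left_inv b2] using b1

theorem an_mul_ne (hF : S.AnAt F x) (hG : S.AnAt G x) (h : ¬ ∀ᶠ y in 𝓝 x, F y = 0)
    (h' : ¬ ∀ᶠ y in 𝓝 x, G y = 0) : ¬ ∀ᶠ y in 𝓝 x, F y * G y = 0 := fun h3 => by
  obtain ⟨y, a1, a2, a3, a4⟩ := ((not_eventually.1 h).and_eventually
    (hF.eventually.and ((zero_near hG).and h3.eventually_nhds))).exists
  refine h' (a3 ?_)
  filter_upwards [a4, a2.continuousAt.eventually_ne a1] with z b1 b2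
  exact (mul_eq_zero.1 b1).resolve_left b2

theorem cz_M (M : Mf S L) : Cz S M.Z := fun x => by
  have hU := (M.U_open x).mem_nhds (M.mem_U x)
  refine ⟨M.den x, (M.an x x (M.mem_U x)).1, fun h => M.den_ne x ?_,
    eventually_of_mem hU (M.Z_iff x)⟩
  filter_upwards [h, hU] with y h1 h2 using (M.Z_iff x y h2).2 h1

theorem cz_empty : Cz S ∅ := fun _ =>
  ⟨fun _ => 1, anX_const 1, fun h => one_ne_zero h.self_of_nhds, by simp⟩

theorem Cz.union (h : Cz S Z) (h' : Cz S Z') : Cz S (Z ∪ Z') := fun x => by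
  obtain ⟨Φ, a1, a2, a3⟩ := h x
  obtain ⟨Ψ, b1, b2, b3⟩ := h' x
  refine ⟨_, anX_mul a1 b1, an_mul_ne a1 b1 a2 b2, ?_⟩
  filter_upwards [a3, b3] with y c1 c2
  rw [mul_eq_zero, mem_union, c1, c2]

theorem cz_biUnion {ι : Type} {s : Set ι} {W : ι → Set X} (hs : s.Finite)
    (h : ∀ i ∈ s, Cz S (W i)) : Cz S (⋃ i ∈ s, W i) := by
  induction s, hs using Set.Finite.induction_on with
  | empty => simpa using cz_empty
  | insert _ _ ih =>
    rw [biUnion_insert]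
    exact (h _ (mem_insert _ _)).union (ih fun i hi => h i (mem_insert_of_mem _ hi))

theorem cz_zero (h : Cz S Z) (h1 : Lq S Z ξ) (h2 : NzX Z ξ) : Cz S (Z ∪ {y | ξ y = 0}) := fun x => by
  obtain ⟨Φ, a1, a2, a3⟩ := h x
  obtain ⟨α, β, b1, -, b3⟩ := h1 x
  refine ⟨_, anX_mul a1 b1, an_mul_ne a1 b1 a2 fun a4 => ?_, ?_⟩
  · obtain ⟨y, c1, c2, c3⟩ := ((h2 x).and_eventually (b3.and a4)).exists
    exact c1.2 (by rw [(c2 c1.1).2, c3, zero_div])
  · filter_upwards [a3, b3] with y c1 c2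
    rw [mul_eq_zero, mem_union, ← c1, or_congr_right' fun c3 => ?_]
    rw [mem_ofPred_eq, (c2 c3).2, div_eq_zero_iff, or_iff_left (c2 c3).1]

theorem cz_fib (h : Nc S) (s : ℂ ⧸ S.Λ) : Cz S {y | S.π y = s} := fun x => by
  obtain ⟨a1, a2⟩ := Sf0.isLift_lf (S := S) x
  by_cases hx : S.π x = s
  · refine ⟨_, anX_sub a2 (anX_const (S.lf x x)), fun a3 => h x ?_, ?_⟩
    · filter_upwards [a3, a1] with y b1 b2
      rw [b2, sub_eq_zero.1 b1, ← a1.self_of_nhds]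
    · filter_upwards [a1, Metric.tendsto_nhds.1 a2.continuousAt _ (mul_pos two_pos S.ρ_pos)]
        with y b1 b2
      rw [← hx, b1, a1.self_of_nhds, Sf0.mk_eq_iff]
      exact ⟨fun b3 => S.lam_zero b3 (by rwa [← dist_eq_norm]), fun b3 => b3 ▸ S.Λ.zero_mem⟩
  · refine ⟨fun _ => 1, anX_const 1, fun a3 => one_ne_zero a3.self_of_nhds, ?_⟩
    obtain ⟨w, rfl⟩ := S.Λ.mkQ_surjective s
    by_contra a3
    have a4 : ∃ᶠ y in 𝓝 x, S.lf x y - w ∈ S.Λ :=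
      ((not_eventually.1 a3).and_eventually a1).mono fun y b => Sf0.mk_eq_iff.1
        (b.2.symm.trans (by simpa using b.1))
    have := frequently_iff_neBot.1 a4
    exact hx (a1.self_of_nhds.trans (Sf0.mk_eq_iff.2 (Sf0.lam_lim (S := S)
      ((a2.continuousAt.tendsto.sub_const w).mono_left inf_le_left)
      (mem_inf_of_right (mem_principal_self _))).1))

theorem Cz.isClosed (h : Cz S Z) : IsClosed Z := by
  refine isOpen_compl_iff.1 (isOpen_iff_mem_nhds.2 fun x hx => ?_)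
  obtain ⟨Φ, a1, -, a3⟩ := h x
  filter_upwards [a3, a1.continuousAt.eventually_ne fun b => hx (a3.self_of_nhds.2 b)] with y b c d
  exact c (b.1 d)

theorem Cz.off_nhds (h : Cz S Z) (hx : x ∉ Z) : ∀ᶠ y in 𝓝 x, y ∉ Z :=
  h.isClosed.isOpen_compl.mem_nhds hx

theorem Cz.dense (h : Cz S Z) (x : X) : ∃ᶠ y in 𝓝 x, y ∉ Z :=
  let ⟨_, _, h1, h2⟩ := h x
  ((not_eventually.1 h1).and_eventually h2).mono fun _ a b => a.1 (a.2.1 b)

theorem Cz.neBot (h : Cz S Z) (x : X) : (𝓝[Zᶜ] x).NeBot :=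
  mem_closure_iff_nhdsWithin_neBot.1 (mem_closure_iff_frequently.2 (h.dense x))

theorem Cz.freq (h : Cz S Z) (hF : S.AnAt F x) (h0 : ¬ ∀ᶠ y in 𝓝 x, F y = 0) :
    ∃ᶠ y in 𝓝 x, y ∉ Z ∧ F y ≠ 0 :=
  let ⟨_, a1, a2, a3⟩ := h x
  ((not_eventually.1 (an_mul_ne a1 hF a2 h0)).and_eventually a3).mono fun _ b =>
    ⟨fun c => left_ne_zero_of_mul b.1 (b.2.1 c), right_ne_zero_of_mul b.1⟩

theorem Cz.crv (h : Cz S Z) : Crv S Z := fun x =>
  let ⟨Φ, a1, a2, a3⟩ := h x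
  ⟨Φ, a1, a2, a3.mono fun _ b => b.1⟩

theorem Cz.off_or (h : Cz S Z) (hγ : ∀ᶠ s in 𝓝 t, S.HolAt γ s) :
    (∀ᶠ s in 𝓝 t, γ s ∈ Z) ∨ ∀ᶠ s in 𝓝[≠] t, γ s ∉ Z := by
  obtain ⟨Φ, a1, -, a3⟩ := h (γ t)
  have h1 := hγ.self_of_nhds.1.eventually a3
  refine (anAt_comp a1 hγ).eventually_eq_zero_or_eventually_ne_zero.imp (fun h2 => ?_) fun h2 => ?_
  · filter_upwards [h1, h2] with w' b1 b2 using b1.2 b2
  · filter_upwards [nhdsWithin_le_nhds h1, h2] with w' b1 b2 b3 using b2 (b1.1 b3)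

/-- a connected curve that is not contained in `Z` meets it in a discrete set -/
theorem Cz.gen_off (h : Cz S Z) {O : Set ℂ} (hO : IsOpen O) (hc : IsPreconnected O)
    (hγ : ∀ w ∈ O, S.HolAt γ w) (h0 : ∃ w ∈ O, γ w ∉ Z) : Gen O fun w => γ w ∉ Z := by
  obtain ⟨w₀, a1, a2⟩ := h0
  have h1 := fun w hw => h.off_or (t := w) (eventually_of_mem (hO.mem_nhds hw) hγ)
  refine fun w hw => (hc.subset_left_of_subset_union (u := O ∩ {w | ∀ᶠ w' in 𝓝[≠] w, γ w' ∉ Z})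
    (v := {w | ∀ᶠ w' in 𝓝 w, γ w' ∈ Z}) (hO.inter isOpen_setOfPred_eventually_nhdsWithin)
    isOpen_setOfPred_eventually_nhds ?_ (fun w hw => (h1 w hw).symm.imp (fun b => ⟨hw, b⟩) id)
    ⟨w₀, a1, a1, (h1 w₀ a1).resolve_left fun b => a2 b.self_of_nhds⟩ hw).2
  rw [Set.disjoint_left]
  rintro w ⟨-, b1⟩ b2
  obtain ⟨w', c1, c2⟩ :=
    ((show ∀ᶠ w' in 𝓝[≠] w, γ w' ∉ Z from b1).and (nhdsWithin_le_nhds b2)).exists
  exact c1 c2

theorem Lq.mono (h : Lq S Z ξ) (hZ : Z ⊆ Z') : Lq S Z' ξ := fun x =>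
  let ⟨α, β, a1, a2, a3⟩ := h x
  ⟨α, β, a1, a2, a3.mono fun _ b c => b fun d => c (hZ d)⟩

theorem Lq.congr (h : Lq S Z ξ) (e : ∀ y ∉ Z, ξ y = ξ' y) : Lq S Z ξ' := fun x =>
  let ⟨α, β, a1, a2, a3⟩ := h x
  ⟨α, β, a1, a2, a3.mono fun y b c => e y c ▸ b c⟩

theorem lq_const (a : ℂ) : Lq S Z fun _ => a := fun _ =>
  ⟨fun _ => a, fun _ => 1, anX_const a, anX_const 1, by simp⟩

theorem Lq.add (h : Lq S Z ξ) (h' : Lq S Z ξ') : Lq S Z fun y => ξ y + ξ' y := fun x => by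
  obtain ⟨α, β, a1, a2, a3⟩ := h x
  obtain ⟨α', β', b1, b2, b3⟩ := h' x
  refine ⟨_, _, anX_add (anX_mul a1 b2) (anX_mul a2 b1), anX_mul a2 b2, ?_⟩
  filter_upwards [a3, b3] with y c1 c2 c3
  exact ⟨mul_ne_zero (c1 c3).1 (c2 c3).1, by
    rw [(c1 c3).2, (c2 c3).2, div_add_div _ _ (c1 c3).1 (c2 c3).1]⟩

theorem Lq.sub (h : Lq S Z ξ) (h' : Lq S Z ξ') : Lq S Z fun y => ξ y - ξ' y := fun x => by
  obtain ⟨α, β, a1, a2, a3⟩ := h x
  obtain ⟨α', β', b1, b2, b3⟩ := h' x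
  refine ⟨_, _, anX_sub (anX_mul a1 b2) (anX_mul a2 b1), anX_mul a2 b2, ?_⟩
  filter_upwards [a3, b3] with y c1 c2 c3
  exact ⟨mul_ne_zero (c1 c3).1 (c2 c3).1, by
    rw [(c1 c3).2, (c2 c3).2, div_sub_div _ _ (c1 c3).1 (c2 c3).1]⟩

theorem Lq.mul (h : Lq S Z ξ) (h' : Lq S Z ξ') : Lq S Z fun y => ξ y * ξ' y := fun x => by
  obtain ⟨α, β, a1, a2, a3⟩ := h x
  obtain ⟨α', β', b1, b2, b3⟩ := h' x
  refine ⟨_, _, anX_mul a1 b1, anX_mul a2 b2, ?_⟩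
  filter_upwards [a3, b3] with y c1 c2 c3
  exact ⟨mul_ne_zero (c1 c3).1 (c2 c3).1, by rw [(c1 c3).2, (c2 c3).2, div_mul_div_comm]⟩

theorem Lq.pow (h : Lq S Z ξ) (n : ℕ) : Lq S Z fun y => ξ y ^ n := fun x =>
  let ⟨_, _, a1, a2, a3⟩ := h x
  ⟨_, _, anX_pow a1 n, anX_pow a2 n, a3.mono fun _ b c =>
    ⟨pow_ne_zero n (b c).1, (congrArg (· ^ n) (b c).2).trans (div_pow _ _ n)⟩⟩

theorem Lq.inv (h : Lq S Z ξ) (h0 : ∀ y ∉ Z, ξ y ≠ 0) : Lq S Z fun y => (ξ y)⁻¹ := fun x =>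
  let ⟨α, β, a1, a2, a3⟩ := h x
  ⟨β, α, a2, a1, a3.mono fun y b c => ⟨fun d => h0 y c (by rw [(b c).2, d, zero_div]),
    (congrArg _ (b c).2).trans (inv_div _ _)⟩⟩

theorem Lq.div (h : Lq S Z ξ) (h' : Lq S Z ξ') (h0 : ∀ y ∉ Z, ξ' y ≠ 0) :
    Lq S Z fun y => ξ y / ξ' y := (h.mul (h'.inv h0)).congr fun _ _ => (div_eq_mul_inv _ _).symm

theorem lq_eval {ι : Type} {g : ι → X → ℂ} (h : ∀ i, Lq S Z (g i)) (P : MvPolynomial ι ℂ) :
    Lq S Z fun y => MvPolynomial.eval (fun i => g i y) P := by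
  induction P using MvPolynomial.induction_on with
  | C a => simpa using lq_const a
  | add p q hp hq => simpa using hp.add hq
  | mul_X p i hp => simpa using hp.mul (h i)

theorem Lq.ev2 (h : Lq S Z ξ) (h' : Lq S Z ξ') (P : MvPolynomial (Fin 2) ℂ) :
    Lq S Z fun y => ev2 P (ξ y) (ξ' y) := by
  simp only [ev2_eq]
  exact lq_eval (Fin.forall_fin_two.2 ⟨h, h'⟩) P

theorem lq_f (M : Mf S L) (i : M.ι) : Lq S M.Z (M.f i) := fun x =>
  ⟨M.num x i, M.den x, (M.an x x (M.mem_U x)).2 i, (M.an x x (M.mem_U x)).1, by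
    filter_upwards [(M.U_open x).mem_nhds (M.mem_U x)] with y a b
    exact ⟨fun c => b ((M.Z_iff x y a).2 c), M.f_eq x i y a⟩⟩

theorem lq_ev (M : Mf S L) (P : MvPolynomial M.ι ℂ) : Lq S M.Z (M.ev P) :=
  lq_eval (lq_f M) P

theorem Lq.anAt (h : Lq S Z ξ) (hZ : Cz S Z) (hx : x ∉ Z) : S.AnAt ξ x := by
  obtain ⟨α, β, a1, a2, a3⟩ := h x
  refine anAt_congr (anX_div a1 a2 (a3.self_of_nhds hx).1) ?_
  filter_upwards [a3, hZ.off_nhds hx] with y b c using (b c).2.symm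

theorem Lq.mero (h : Lq S Z ξ) (hγ : ∀ᶠ s in 𝓝 t, S.HolAt γ s) (h0 : ∀ᶠ s in 𝓝[≠] t, γ s ∉ Z) :
    MeromorphicAt (ξ ∘ γ) t := by
  obtain ⟨α, β, a1, a2, a3⟩ := h (γ t)
  refine ((anAt_comp a1 hγ).meromorphicAt.div (anAt_comp a2 hγ).meromorphicAt).congr ?_
  filter_upwards [h0, nhdsWithin_le_nhds (hγ.self_of_nhds.1.eventually a3)] with w' b1 b2
  exact (b2 b1).2.symm

theorem nzX_of_ne (hZ : Cz S Z) (h : ∀ y ∉ Z, ξ y ≠ 0) : NzX Z ξ := fun x =>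
  (hZ.dense x).mono fun y a => ⟨a, h y a⟩

theorem NzX.big (h : NzX Z ξ) (h1 : Cz S Z) (h2 : Lq S Z ξ) (h3 : Cz S Z') :
    NzX (Z ∪ Z') ξ := fun x => by
  refine frequently_frequently_nhds.1 ((h x).mono fun y a => ?_)
  refine ((h3.dense y).and_eventually ((h1.off_nhds a.1).and
    ((h2.anAt h1 a.1).continuousAt.eventually_ne a.2))).mono fun z b => ?_
  exact ⟨fun c => c.elim b.2.1 b.1, b.2.2⟩

theorem nzX_ev [PreconnectedSpace X] (M : Mf S L) {P : MvPolynomial M.ι ℂ} (h : ¬ M.Van P) :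
    NzX M.Z (M.ev P) := sNz sHom X S L M P h

theorem extZ_eq (hZ : Cz S Z) (hF : S.AnAt F x) (h : ∀ᶠ y in 𝓝 x, y ∉ Z → ξ y = F y) :
    extZ Z ξ =ᶠ[𝓝 x] F := by
  filter_upwards [hF.eventually, h.eventually_nhds] with y' h1 h2
  have := hZ.neBot y'
  have h3 : F =ᶠ[𝓝[Zᶜ] y'] ξ := eventually_nhdsWithin_iff.2 (h2.mono fun _ h3 h4 => (h3 h4).symm)
  exact ((h1.continuousAt.tendsto.mono_left nhdsWithin_le_nhds).congr' h3).limUnder_eq

/-- two analytic functions that agree off a curve agree -/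
theorem eq_of_off (hZ : Cz S Z) (hF : S.AnAt F x) (hG : S.AnAt G x)
    (h : ∀ᶠ y in 𝓝 x, y ∉ Z → F y = G y) : F =ᶠ[𝓝 x] G :=
  (extZ_eq hZ hF (Eventually.of_forall fun _ _ => rfl)).symm.trans (extZ_eq hZ hG h)

/-- the identity theorem -/
theorem Lq.nzX [PreconnectedSpace X] (h : Lq S Z ξ) (hZ : Cz S Z) (h0 : ∃ y ∉ Z, ξ y ≠ 0) :
    NzX Z ξ := fun x hx => by
  obtain ⟨y₀, a1, a2⟩ := h0
  refine a2 ((all_of_local (P := fun x => ∀ᶠ y in 𝓝 x, y ∉ Z → ξ y = 0)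
    (fun _ h => h.eventually_nhds) (fun x hx => ?_) (x := x)
    (hx.mono fun y b c => not_not.1 fun d => b ⟨c, d⟩) y₀).self_of_nhds a1)
  obtain ⟨α, β, b1, -, b3⟩ := h x
  obtain ⟨y, c1, c2, c3, c4⟩ :=
    (hx.and_eventually (b1.eventually.and ((zero_near b1).and b3.eventually_nhds))).exists
  filter_upwards [b3, c3 (eq_of_off hZ c2 (anX_const 0) (by
    filter_upwards [c1, c4] with z d1 d2 d3
    exact (div_eq_zero_iff.1 ((d2 d3).2 ▸ d1 d3)).resolve_right (d2 d3).1))] with z d1 d2 d3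
  rw [(d1 d3).2, d2, zero_div]

theorem GdZ.anAt (h : GdZ S Z ξ x) (hZ : Cz S Z) : S.AnAt (extZ Z ξ) x :=
  let ⟨_, h1, h2⟩ := h
  anAt_congr h1 (extZ_eq hZ h1 h2).symm

theorem GdZ.eventually (h : GdZ S Z ξ x) : ∀ᶠ y in 𝓝 x, GdZ S Z ξ y :=
  let ⟨G, h1, h2⟩ := h
  (h1.eventually.and h2.eventually_nhds).mono fun _ h3 => ⟨G, h3⟩

theorem GdZ.eq (h : GdZ S Z ξ x) (hZ : Cz S Z) : ∀ᶠ y in 𝓝 x, y ∉ Z → ξ y = extZ Z ξ y :=
  let ⟨_, h1, h2⟩ := h
  (h2.and (extZ_eq hZ h1 h2)).mono fun _ h3 h4 => (h3.1 h4).trans h3.2.symm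

theorem GdZ.tendsto (h : GdZ S Z ξ x) (hZ : Cz S Z) :
    Tendsto ξ (𝓝[Zᶜ] x) (𝓝 (extZ Z ξ x)) :=
  ((h.anAt hZ).continuousAt.tendsto.mono_left nhdsWithin_le_nhds).congr'
    (eventually_nhdsWithin_iff.2 ((h.eq hZ).mono fun _ a b => (a b).symm))

theorem GdZ.mono (h : GdZ S Z ξ x) (hZ : Z ⊆ Z') : GdZ S Z' ξ x :=
  let ⟨G, h1, h2⟩ := h
  ⟨G, h1, h2.mono fun _ a b => a fun c => b (hZ c)⟩

theorem GdZ.ext_mono (h : GdZ S Z ξ x) (h1 : Cz S Z) (h2 : Cz S Z') (hZ : Z ⊆ Z') :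
    extZ Z' ξ x = extZ Z ξ x :=
  (extZ_eq h2 (h.anAt h1) ((h.eq h1).mono fun _ a b => a fun c => b (hZ c))).self_of_nhds

theorem gdZ_of_anAt (h : S.AnAt ξ x) (hZ : Cz S Z) : GdZ S Z ξ x ∧ extZ Z ξ x = ξ x :=
  ⟨⟨ξ, h, Eventually.of_forall fun _ _ => rfl⟩,
    (extZ_eq hZ h (Eventually.of_forall fun _ _ => rfl)).self_of_nhds⟩

theorem GdZ.mul (h : GdZ S Z ξ x) (h' : GdZ S Z ξ' x) (hZ : Cz S Z) :
    GdZ S Z (fun y => ξ y * ξ' y) x ∧
      extZ Z (fun y => ξ y * ξ' y) x = extZ Z ξ x * extZ Z ξ' x := by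
  have h1 := anX_mul (h.anAt hZ) (h'.anAt hZ)
  have h2 : ∀ᶠ y in 𝓝 x, y ∉ Z → ξ y * ξ' y = extZ Z ξ y * extZ Z ξ' y := by
    filter_upwards [h.eq hZ, h'.eq hZ] with y a b c
    rw [a c, b c]
  exact ⟨⟨_, h1, h2⟩, (extZ_eq hZ h1 h2).self_of_nhds⟩

theorem GdZ.ev2 (h : GdZ S Z ξ x) (h' : GdZ S Z ξ' x) (hZ : Cz S Z) (P : MvPolynomial (Fin 2) ℂ) :
    GdZ S Z (fun y => ev2 P (ξ y) (ξ' y)) x ∧
      extZ Z (fun y => ev2 P (ξ y) (ξ' y)) x = ev2 P (extZ Z ξ x) (extZ Z ξ' x) := by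
  have h1 := anX_ev2 (h.anAt hZ) (h'.anAt hZ) P
  have h2 : ∀ᶠ y in 𝓝 x, y ∉ Z →
      Bnd.ev2 P (ξ y) (ξ' y) = Bnd.ev2 P (extZ Z ξ y) (extZ Z ξ' y) := by
    filter_upwards [h.eq hZ, h'.eq hZ] with y a b c
    rw [a c, b c]
  exact ⟨⟨_, h1, h2⟩, (extZ_eq hZ h1 h2).self_of_nhds⟩

theorem gd_u (M : Mf S L) (hZ : Cz S Z) (hs : M.Z ⊆ Z) {w : ℂ} (hx : S.π x = S.Λ.mkQ w)
    (hw : w ∉ L.lattice) : GdZ S Z (uf M) x ∧ extZ Z (uf M) x = L.weierstrassP w := by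
  obtain ⟨a1, a2⟩ := Sf0.isLift_lf (S := S) x
  have h1 := anX_comp (m := L.weierstrassP) (anX_add (anX_const w)
    (anX_sub a2 (anX_const (S.lf x x)))) (L.analyticOnNhd_weierstrassP _ (by simpa using hw))
  have h2 : ∀ᶠ y in 𝓝 x, y ∉ Z → uf M y = L.weierstrassP (w + (S.lf x y - S.lf x x)) := by
    filter_upwards [a1] with y b c
    refine (M.hu y (fun d => c (hs d)) _ ?_).2
    rw [map_add, map_sub, ← b, ← a1.self_of_nhds, ← hx, add_sub_cancel]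
  exact ⟨⟨_, h1, h2⟩, by simpa using (extZ_eq hZ h1 h2).self_of_nhds⟩

theorem tube (hq : ContinuousAt γ t) {P : ℂ × X → Prop} (h : ∀ᶠ p in 𝓝 (t, γ t), P p) :
    ∃ η > 0, ∀ᶠ s in 𝓝 t, ∀ y, dist (γ s) y ≤ η → P (s, y) := by
  obtain ⟨ε, h0, h1⟩ := Metric.eventually_nhds_iff.1 h
  refine ⟨ε / 3, by positivity, ?_⟩
  filter_upwards [ball_mem_nhds t h0, hq.eventually (ball_mem_nhds (γ t) (half_pos h0))]
    with w' a1 a2 y hy
  refine h1 ?_
  rw [Prod.dist_eq, max_lt_iff]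
  exact ⟨a1, by linarith [dist_triangle_left y (γ t) (γ w'), mem_ball.1 a2]⟩

theorem gd_loc (hZ : Cz S Z) (hγ : ∀ᶠ s in 𝓝 t, S.HolAt γ s) (h : GdZ S Z ξ (γ t)) :
    AnalyticAt ℂ (fun s => extZ Z ξ (γ s)) t ∧ ∀ ε > 0, ∃ η > 0, ∀ᶠ s in 𝓝 t, ∀ y ∉ Z,
      dist (γ s) y ≤ η → ‖ξ y - extZ Z ξ (γ s)‖ ≤ ε := by
  have hq := hγ.self_of_nhds.1
  have hc := (h.anAt hZ).continuousAt.tendsto
  have t1 : Tendsto (fun p : ℂ × X => p.1) (𝓝 (t, γ t)) (𝓝 t) := continuous_fst.tendsto _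
  have t2 : Tendsto (fun p : ℂ × X => p.2) (𝓝 (t, γ t)) (𝓝 (γ t)) := continuous_snd.tendsto _
  refine ⟨anAt_comp (F := extZ Z ξ) (h := γ) (h.anAt hZ) hγ, fun ε hε => ?_⟩
  obtain ⟨η, a1, a2⟩ := tube hq (P := fun p => (p.2 ∉ Z → ξ p.2 = extZ Z ξ p.2) ∧
    ‖extZ Z ξ p.2 - extZ Z ξ (γ p.1)‖ ≤ ε) ((t2.eventually (h.eq hZ)).and (((hc.comp t2).sub
      ((hc.comp hq).comp t1)).norm.eventually (ge_mem_nhds (by simpa))))
  exact ⟨η, a1, a2.mono fun s b y c d => (b y d).1 c ▸ (b y d).2⟩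

theorem u_sec (M : Mf S L) (hγ : ∀ᶠ s in 𝓝 t, S.HolAt γ s ∧ S.π (γ s) = S.Λ.mkQ s)
    (h : γ t ∉ M.Z) : t ∉ L.lattice ∧ uf M ∘ γ =ᶠ[𝓝 t] L.weierstrassP ∧
      deriv (uf M ∘ γ) t = L.derivWeierstrassP t := by
  have h1 : uf M ∘ γ =ᶠ[𝓝 t] L.weierstrassP := by
    filter_upwards [hγ, hγ.self_of_nhds.1.1.eventually ((cz_M M).off_nhds h)] with s a b
    exact (M.hu _ b s a.2).2
  exact ⟨(M.hu _ h t hγ.self_of_nhds.2).1, h1, by rw [h1.deriv_eq, L.deriv_weierstrassP]⟩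

theorem exists_clear (H : MvPolynomial (Fin 2) ℂ) (hH : H ≠ 0) (y₀ : ℂ) :
    ∃ (P : MvPolynomial (Fin 2) ℂ) (d : ℕ), P ≠ 0 ∧ ∀ u v : ℂ, v ≠ y₀ →
      ev2 P u v = (v - y₀) ^ d * ev2 H u (v - y₀)⁻¹ := by
  have key : ∀ H : MvPolynomial (Fin 2) ℂ, ∃ (P : MvPolynomial (Fin 2) ℂ) (d : ℕ), ∀ u v : ℂ,
      v ≠ y₀ → ev2 P u v = (v - y₀) ^ d * ev2 H u (v - y₀)⁻¹ := fun H => by
    induction H using MvPolynomial.induction_on with
    | C a => exact ⟨.C a, 0, by simp [ev2]⟩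
    | add p q hp hq =>
      obtain ⟨P, d, a⟩ := hp
      obtain ⟨Q, d', b⟩ := hq
      refine ⟨P * (.X 1 - .C y₀) ^ d' + Q * (.X 1 - .C y₀) ^ d, d + d', fun u v c => ?_⟩
      have a := a u v c
      have b := b u v c
      simp only [ev2, map_add, map_mul, map_pow, map_sub, MvPolynomial.eval_X, MvPolynomial.eval_C,
        Matrix.cons_val_one, Matrix.cons_val_zero] at a b ⊢
      rw [a, b]
      ring
    | mul_X p i hp =>
      obtain ⟨P, d, a⟩ := hp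
      fin_cases i
      · refine ⟨P * .X 0, d, fun u v c => ?_⟩
        have a := a u v c
        simp only [ev2, map_mul, MvPolynomial.eval_X, Fin.zero_eta, Matrix.cons_val_zero] at a ⊢
        rw [a, mul_assoc]
      · refine ⟨P, d + 1, fun u v c => ?_⟩
        have a := a u v c
        have := sub_ne_zero.2 c
        simp only [ev2, map_mul, MvPolynomial.eval_X, Fin.mk_one, Matrix.cons_val_one,
          Matrix.cons_val_zero] at a ⊢
        rw [a]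
        field_simp
        ring
  obtain ⟨P, d, h⟩ := key H
  refine ⟨P, d, ?_, h⟩
  rintro rfl
  refine mul_ne_zero hH (MvPolynomial.X_ne_zero 1) (MvPolynomial.funext fun z => ?_)
  rw [map_mul, MvPolynomial.eval_X, map_zero, mul_eq_zero, or_iff_not_imp_right]
  intro a
  have b := h (z 0) (y₀ + (z 1)⁻¹) (by simpa using a)
  rw [add_sub_cancel_left, inv_inv, ev2, map_zero] at b
  rw [show z = ![z 0, z 1] from funext fun i => by fin_cases i <;> rfl]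
  exact (mul_eq_zero.1 b.symm).resolve_left (pow_ne_zero _ (inv_ne_zero a))

theorem Gen.and {O : Set ℂ} {P Q : ℂ → Prop} (h : Gen O P) (h' : Gen O Q) :
    Gen O fun w => P w ∧ Q w := fun w hw => (h w hw).and (h' w hw)

theorem Gen.mono {O : Set ℂ} {P Q : ℂ → Prop} (h : Gen O P) (hO : IsOpen O)
    (h' : ∀ w ∈ O, P w → Q w) : Gen O Q := fun w hw => by
  filter_upwards [h w hw, mem_nhdsWithin_of_mem_nhds (hO.mem_nhds hw)] with _ a b using h' _ b a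

theorem deriv_le_of_mero {m : ℂ → ℂ} {z : ℂ} {r K : ℝ} (hr : 0 < r)
    (hm : MeromorphicOn m (ball z r)) (hz : AnalyticAt ℂ m z)
    (hK : ∀ w ∈ ball z r, ∀ᶠ w' in 𝓝[≠] w, ‖m w'‖ ≤ K) : ‖deriv m z‖ ≤ 2 * K / r := by
  have b1 := meromorphicNFOn_toMeromorphicNFOn m (ball z r)
  have b2 : ∀ w ∈ ball z r, AnalyticAt ℂ (toMeromorphicNFOn m (ball z r)) w := fun w hw =>
    (b1 hw).meromorphicOrderAt_nonneg_iff_analyticAt.1 (by
      rw [meromorphicOrderAt_toMeromorphicNFOn hm hw]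
      by_contra h0
      obtain ⟨v, a1, a2⟩ := ((hK w hw).and ((tendsto_norm_atTop_iff_cobounded.2
        (tendsto_cobounded_of_meromorphicOrderAt_neg (not_le.1 h0))).eventually_gt_atTop K)).exists
      exact a1.not_gt a2)
  have b3 : ∀ w ∈ ball z r, ‖toMeromorphicNFOn m (ball z r) w‖ ≤ K := fun w hw => by
    refine le_of_tendsto ((b2 w hw).continuousAt.norm.tendsto.mono_left
      (nhdsWithin_le_nhds (s := {w}ᶜ))) ?_
    filter_upwards [hK w hw, hm.toMeromorphicNFOn_eq_self_on_nhdsNE hw] with v e1 e2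
    rwa [e2]
  have h0 := mem_ball_self (x := z) hr
  have b4 : toMeromorphicNFOn m (ball z r) =ᶠ[𝓝 z] m :=
    ((b2 z h0).frequently_eq_iff_eventually_eq hz).1
      (hm.toMeromorphicNFOn_eq_self_on_nhdsNE h0).frequently
  have hs : closedBall z (r / 2) ⊆ ball z r := closedBall_subset_ball (half_lt_self hr)
  rw [← b4.deriv_eq, show 2 * K / r = K / (r / 2) by field_simp]
  exact Complex.norm_deriv_le_of_forall_mem_sphere_norm_le (half_pos hr)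
    (DifferentiableOn.diffContOnCl_ball (fun w hw => (b2 w hw).differentiableAt.differentiableWithinAt)
      hs) fun w hw => b3 w (hs (sphere_subset_closedBall hw))

theorem net_lattice (L : PeriodPair) : ∃ R, Net L.lattice R :=
  ⟨∑ i, ‖L.basis i‖, fun w => ⟨ZSpan.floor L.basis w, by
    rw [L.lattice_eq_span_range_basis]; exact (ZSpan.floor L.basis w).2, by rw [dist_eq_norm]; exact ZSpan.norm_fract_le L.basis w⟩⟩

theorem exists_mem_G (D : Discs) : ∃ w, w ∈ D.G 0 := by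
  rcases D.C.eq_empty_or_nonempty with h | ⟨c, hc⟩
  · exact ⟨0, fun c hc => by simp [h] at hc⟩
  · have h1 : dist (c + D.r c) c = D.r c := by
      rw [dist_self_add_left, Complex.norm_real, Real.norm_of_nonneg]
      linarith [D.le_r c hc, D.θ_pos]
    exact ⟨c + D.r c, D.mem_G hc (by rw [h1, add_zero]) (by linarith [D.θ_pos])⟩

end surf

section curve

variable {C C' : Type} [TopologicalSpace C] [ChartedSpace ℂ C] [RS C] [TopologicalSpace C']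
  [ChartedSpace ℂ C'] [RS C'] {f : C → X} {c : C}

omit [RS C] in
theorem HolC.at (h : HolC S f) (c : C) : S.HolAt (f ∘ (chartAt ℂ c).symm) (zc c c) :=
  (h c).self_of_nhds

omit [MetricSpace X] [RS C] in
theorem comp_symm (f : C → X) (c : C) : (f ∘ (chartAt ℂ c).symm) (zc c c) = f c :=
  congrArg f (T.symm_zc (mem_chart_source ℂ c))

omit [MetricSpace X] [RS C] in
theorem eq_chart (f : C → X) (c : C) : f =ᶠ[𝓝 c] (f ∘ (chartAt ℂ c).symm) ∘ zc c := by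
  filter_upwards [T.source_mem (mem_chart_source ℂ c)] with y hy
  exact congrArg f (T.symm_zc hy).symm

theorem holAt_congr {γ' : ℂ → X} (h : S.HolAt γ t) (e : γ =ᶠ[𝓝 t] γ') : S.HolAt γ' t :=
  ⟨h.1.congr e, fun c hc ht => (h.2 c hc (e.self_of_nhds ▸ ht)).congr_of_eventuallyEq
    (e.symm.fun_comp c)⟩

omit [RS C] in
theorem HolC.cont (h : HolC S f) : Continuous f :=
  continuous_iff_continuousAt.2 fun c =>
    ((h.at c).1.comp (T.continuousAt_zc (mem_chart_source ℂ c))).congr (eq_chart f c).symm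

theorem HolC.an (h : HolC S f) (hF : S.AnAt F (f c)) : An (F ∘ f) c :=
  anAt_comp (h := f ∘ (chartAt ℂ c).symm) (by rwa [comp_symm]) (h c)

theorem HolC.holAt (h : HolC S f) {g : ℂ → C} {z : ℂ} (hg : Hol g z) : S.HolAt (f ∘ g) z :=
  holAt_congr (Sf0.HolAt.comp (φ := zc (g z) ∘ g) (h.at (g z))
    (AnalyticAt.differentiableAt hg.2)) (hg.1.eventually (eq_chart f (g z)).symm)

theorem holC_of (hc : Continuous f)
    (h : ∀ c, ∃ e ∈ S.A, f c ∈ e.source ∧ An (fun y => (e (f y)).1) c ∧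
      An (fun y => (e (f y)).2) c) : HolC S f := fun c => by
  obtain ⟨e, he, a1, a2, a3⟩ := h c
  have h0 := mem_chart_source ℂ c
  filter_upwards [T.target_mem h0, (T.tendsto_symm h0).eventually
    (hc.continuousAt.eventually (e.open_source.mem_nhds a1)),
    (AnalyticAt.prod a2 a3).eventually_analyticAt] with t b1 b2 b3
  exact Sf0.holAt_of_chart (hc.continuousAt.comp ((chartAt ℂ c).continuousAt_symm b1)) he b2
    b3.differentiableAt

theorem HolC.an_chart (h : HolC S f) {e : OpenPartialHomeomorph X Ell.E2} (he : e ∈ S.A)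
    (hc : f c ∈ e.source) : An (fun y => (e (f y)).1) c ∧ An (fun y => (e (f y)).2) c :=
  ⟨h.an (F := fun x => (e x).1) fun e' he' hx => analyticAt_fst.comp (Sf0.anAt_chart he hc e' he' hx),
    h.an (F := fun x => (e x).2) fun e' he' hx =>
      analyticAt_snd.comp (Sf0.anAt_chart he hc e' he' hx)⟩

theorem HolC.comp (h : HolC S f) {p : C' → C} (hp : ∀ c, Hol p c) : HolC S (f ∘ p) :=
  holC_of (h.cont.comp (continuous_iff_continuousAt.2 fun c => (hp c).1)) fun c =>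
    let ⟨e, he, hx⟩ := S.cover (f (p c))
    ⟨e, he, hx, (hp c).an_comp (h.an_chart he hx).1, (hp c).an_comp (h.an_chart he hx).2⟩

theorem HolC.D_comp (h : HolC S f) (hF : S.AnAt F (f c)) {e : OpenPartialHomeomorph X Ell.E2}
    (he : e ∈ S.A) (hc : f c ∈ e.source) : Dc (F ∘ f) c =
      D F e (f c) (Dc (fun y => (e (f y)).1) c, Dc (fun y => (e (f y)).2) c) := by
  have h1 := (Sf0.AnAt.hasDerivAt (g := F) (by rwa [comp_symm]) (h.at c) he
    (by rwa [comp_symm])).deriv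
  have h2 := ((h.an_chart he hc).1.hasDerivAt.prodMk (h.an_chart he hc).2.hasDerivAt).deriv
  rw [comp_symm] at h1
  exact h1.trans (congrArg _ h2)

theorem an_zero_of {u : C → ℂ} (h : An u c) (h0 : ∃ᶠ y in 𝓝 c, ∀ᶠ y' in 𝓝 y, u y' = 0) :
    ∀ᶠ y in 𝓝 c, u y = 0 := h.zero_or.resolve_right fun h1 => by
  obtain ⟨y, a, b⟩ := (h0.and_eventually (ev_ne_ev h1)).exists
  obtain ⟨y', d, e⟩ := (b.and (nhdsWithin_le_nhds a)).exists
  exact d e

omit [ChartedSpace ℂ C] [RS C] in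
theorem all_of_loc [PreconnectedSpace C] {P : C → Prop}
    (hc : ∀ c, (∃ᶠ y in 𝓝 c, ∀ᶠ y' in 𝓝 y, P y') → ∀ᶠ y in 𝓝 c, P y) (h : ∀ᶠ y in 𝓝 c, P y)
    (y : C) : P y := by
  have h1 : IsClopen {c | ∀ᶠ y in 𝓝 c, P y} :=
    ⟨isClosed_of_closure_subset fun x hx => hc x (mem_closure_iff_frequently.1 hx),
      isOpen_setOfPred_eventually_nhds⟩
  exact Eventually.self_of_nhds (h1.eq_univ ⟨c, h⟩ ▸ mem_univ y : y ∈ {c | ∀ᶠ y in 𝓝 c, P y})

theorem HolC.off (h : HolC S f) (hZ : Cz S Z) (h0 : ∃ c, f c ∉ Z) :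
    ∀ᶠ c in cofinite, f c ∉ Z := by
  have h1 : ∀ c, (∀ᶠ y in 𝓝 c, f y ∈ Z) ∨ ∀ᶠ y in 𝓝[≠] c, f y ∉ Z := fun c =>
    (hZ.off_or (h c)).imp (T.eventually_chart (mem_chart_source ℂ c)).2
      (T.eventually_chart_ne (mem_chart_source ℂ c)).2
  obtain ⟨c₀, h0⟩ := h0
  refine cof_iff.2 fun c => (h1 c).resolve_left fun a => h0 (all_of_loc (P := fun y => f y ∈ Z)
    (fun c b => (h1 c).resolve_right fun d => ?_) a c₀)
  obtain ⟨y, a, b⟩ := (b.and_eventually (ev_ne_ev d)).exists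
  obtain ⟨y', d, e⟩ := (b.and (nhdsWithin_le_nhds a)).exists
  exact d e

theorem HolC.me (h : HolC S f) (hξ : Lq S Z ξ) (h0 : ∀ᶠ c in cofinite, f c ∉ Z) :
    Me (ξ ∘ f) := fun c =>
  hξ.mero (h c) ((T.eventually_chart_ne (mem_chart_source ℂ c)).1 (cof_iff.1 h0 c))

theorem HolC.nc (h : HolC S f) (h0 : ∃ c c', f c ≠ f c') (c : C) :
    ¬ ∀ᶠ y in 𝓝 c, f y = f c := fun a => by
  have h1 := all_of_loc (P := fun y => f y = f c) (fun c' b => ?_) a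
  · obtain ⟨c₁, c₂, h0⟩ := h0
    exact h0 ((h1 c₁).trans (h1 c₂).symm)
  obtain ⟨e, he, hx⟩ := S.cover (f c')
  have h2 : f c' = f c := (isClosed_eq h.cont continuous_const).closure_subset
    (mem_closure_iff_frequently.2 (b.mono fun _ d => d.self_of_nhds))
  filter_upwards [an_zero_of ((h.an_chart he hx).1.sub (T.an_const (e (f c)).1))
      (b.mono fun _ d => d.mono fun _ d' => by rw [d', sub_self]),
    an_zero_of ((h.an_chart he hx).2.sub (T.an_const (e (f c)).2))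
      (b.mono fun _ d => d.mono fun _ d' => by rw [d', sub_self]),
    h.cont.continuousAt.eventually (e.open_source.mem_nhds hx)] with y d1 d2 d3
  exact e.injOn d3 (h2 ▸ hx) (Prod.ext (sub_eq_zero.1 d1) (sub_eq_zero.1 d2))

theorem HolC.sec {L' : PeriodPair} {B : Bc L' C} (hS : SSh) (h : HolC S f) (ho : Ov S B f)
    {O : Set ℂ} {g : ℂ → C} (hO : IsOpen O) (hg : B.Sheet O g) : S.SecOn 0 (f ∘ g) O := fun z hz =>
  ⟨h.holAt ((hS L' C B).1 O g hO hg z hz).hol, (ho _ z (hg z hz).2.1).trans (zero_add _).symm⟩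

theorem u_pb {L' : PeriodPair} {B : Bc L' C} (M : Mf S L) (ho : Ov S B f) (hc : f c ∉ M.Z) :
    B.l c c ∉ L.lattice ∧ uf M (f c) = B.pb L.weierstrassP c :=
  M.hu _ hc _ (ho c _ (B.mem_l c))

theorem D_u {L' : PeriodPair} {B : Bc L' C} (M : Mf S L) (hL : L'.lattice ≤ L.lattice)
    (h : HolC S f) (ho : Ov S B f) (hc : f c ∉ M.Z) :
    Dc (uf M ∘ f) c = B.pb L.derivWeierstrassP c * B.w c := by
  have h1 : uf M ∘ f =ᶠ[𝓝 c] B.pb L.weierstrassP :=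
    (h.cont.continuousAt.eventually ((cz_M M).off_nhds hc)).mono fun _ a => (u_pb M ho a).2
  rw [T.D_congr h1, (Bc.D_pb (fun p hp w => L.weierstrassP_add_coe w ⟨p, hL hp⟩) (B.mem_l c)
    (L.analyticOnNhd_weierstrassP _ (u_pb M ho hc).1)).2, L.deriv_weierstrassP]
  rfl

theorem cof_notMem {L' : PeriodPair} (B : Bc L' C) {N₀ : Set ℂ}
    (h1 : ∀ p ∈ L'.lattice, ∀ w ∈ N₀, w + p ∈ N₀) (h2 : ∀ w, ∀ᶠ z in 𝓝[≠] w, z ∉ N₀) :
    ∀ᶠ c in cofinite, B.l c c ∉ N₀ := by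
  refine cof_iff.2 fun c => ?_
  have h3 : Tendsto (B.l c) (𝓝[≠] c) (𝓝[≠] (B.l c c)) :=
    tendsto_nhdsWithin_iff.2 ⟨(B.an c).continuousAt.tendsto.mono_left nhdsWithin_le_nhds,
      ((((B.an c).sub (T.an_const (B.l c c))).zero_or.resolve_left fun a =>
        B.nc c (a.mono fun _ b => sub_eq_zero.1 b))).mono fun _ b => sub_ne_zero.1 b⟩
  filter_upwards [h3.eventually (h2 _), nhdsWithin_le_nhds (B.lift c)] with y a b d
  have := h1 _ (Bc.sub_mem (B := B) b (B.mem_l y)) _ d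
  rw [add_sub_cancel] at this
  exact a this

end curve

end Pool.Agent.P.MP_7ede32_ag.Bnd
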