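import Pool.Agent.P.MP_7ede32_ag.Bnd.DY
import Pool.Agent.P.MP_7ede32_ag.Bnd.XT

/-!
The functions on the curve.
-/

open Filter Topology Metric Set

noncomputable section

namespace Pool.Agent.P.MP_7ede32_ag.Bnd

open Full Geo
open MP_5d7cf0_gt.T (RS zc loc An Hf Om Hol)
open MP_5d7cf0_gt.T renaming D → Dc

namespace CDxP

variable {X : Type} [MetricSpace X] {S : Sf0 X} {L L'' : PeriodPair} {C : Type}
  [TopologicalSpace C] [ChartedSpace ℂ C] [RS C] {B : Bc L'' C} {f : C → X} {c : C}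

omit [RS C] in
theorem sl_eq (M : Mf S L) (ξ : X → ℂ) (f : C → X) (c : C) :
    sl M ξ (f ∘ (chartAt ℂ c).symm) (zc c c) = Dc (ξ ∘ f) c / Dc (uf M ∘ f) c := rfl

omit [RS C] in
theorem yv_eq (M : Mf S L) (d : ℕ) (cf : ℕ → X → ℂ) (f : C → X) (c : C) :
    Yv M d cf (f ∘ (chartAt ℂ c).symm) (zc c c) = YC M d cf f c := by
  unfold YC Yv
  rw [comp_symm, sl_eq]

omit [RS C] in
theorem ok {M : Mf S L} {Z : Set X} (hf : HolC S f) (h0 : f c ∉ Z) (h1 : Dc (uf M ∘ f) c ≠ 0) :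
    Ok M Z (f ∘ (chartAt ℂ c).symm) (zc c c) :=
  ⟨hf c, by rwa [comp_symm], h1⟩

omit [RS C] in
theorem c2 {M : Mf S L} (A : AC M) (hf : HolC S f) (h0 : f c ∉ A.Z)
    (h1 : Dc (uf M ∘ f) c ≠ 0) : ‖Dc (A.χ ∘ f) c / Dc (uf M ∘ f) c‖ ≤
      A.K * (Bw A.h (uf M (f c)) + ‖A.χ (f c)‖ + ∑ i, ‖YC M A.d (A.cf i) f c‖) ^ A.k := by
  have := A.c2 _ _ (ok hf h0 h1)
  simp only [yv_eq, comp_symm, sl_eq] at this
  exact this

omit [RS C] in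
theorem c3 {M : Mf S L} (A : AC M) (hf : HolC S f) (h0 : f c ∉ A.Z)
    (h1 : Dc (uf M ∘ f) c ≠ 0) :
    ‖Dc (A.χ ∘ f) c / Dc (uf M ∘ f) c‖ ^ A.N * ‖ev2 A.H (uf M (f c)) (A.χ (f c))‖ ≤
      A.K * (1 + ‖Dc (A.χ ∘ f) c / Dc (uf M ∘ f) c‖ + ‖uf M (f c)‖ + ‖A.χ (f c)‖) ^ A.k *
        ∑ i, ‖YC M A.d (A.cf i) f c‖ := by
  have := A.c3 _ _ (ok hf h0 h1)
  simp only [yv_eq, comp_symm, sl_eq] at this
  exact this

end CDxP

open CDxP in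
theorem sCDx (h1 : SPoY) (h2 : SPsB) (h3 : SBw) (h4 : SDegB) : SCDx := by
  intro X _ S L L'' σ M g u
  have hle := u.le.le
  have hper : ∀ p ∈ L''.lattice, ∀ w ∈ g.z.N₀, w + p ∈ g.z.N₀ :=
    fun p hp w hw => (g.z.per p (hle hp) w).2 hw
  obtain ⟨k₁, hk₁⟩ := h1 X S L L'' M g.A g.z hle
  obtain ⟨k', hk'⟩ := (h2 g.HG).1
  obtain ⟨⟨k₀, hk₀⟩, -⟩ := h3 L'' g.z.N₀ hper g.z.disc
  refine ⟨k₁ + k' * k₁ + k', fun K₁ hK C _ _ _ B f hf ho h0 => ?_⟩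
  have off : ∀ᶠ c in cofinite, f c ∉ g.Z := hf.off g.cz h0
  have offA : ∀ᶠ c in cofinite, f c ∉ g.A.Z := off.mono fun c a b => a (g.sub b)
  have mu : Me (uf M ∘ f) := hf.me (lq_f M M.iu) (offA.mono fun c a b => a (g.A.sub b))
  have mχ : Me (g.A.χ ∘ f) := hf.me g.A.lχ offA
  have mi : Me fun y => (g.A.χ (f y) - g.y₀)⁻¹ := fun c => ((mχ c).sub (mr_const _)).inv
  obtain ⟨p1, p2⟩ := hk₁ C B f hf ho offA
  have b0 : ∀ c, 0 ≤ B.bw g.z.N₀ c := fun c => ((hk₀ C B).2.1 c).2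
  have gd : ∀ᶠ c in cofinite, f c ∉ g.A.Z ∧ B.l c c ∉ g.z.N₀ ∧ B.w c ≠ 0 ∧
      uf M (f c) = L.weierstrassP (B.l c c) ∧
      Dc (uf M ∘ f) c = L.derivWeierstrassP (B.l c c) * B.w c ∧ Dc (uf M ∘ f) c ≠ 0 := by
    filter_upwards [offA, cof_notMem B hper g.z.disc, (h4 L'' C B).nz] with c a1 a2 a3
    have a4 : f c ∉ M.Z := fun b => a1 (g.A.sub b)
    have a5 := D_u M hle hf ho a4
    refine ⟨a1, a2, a3, (u_pb M ho a4).2, a5, ?_⟩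
    rw [a5]
    exact mul_ne_zero (g.z.off _ a2).2.1 a3
  have hk : ∀ (c : C) (a : ℤ), a ≤ k₁ * B.bw g.z.N₀ c →
      a ≤ ((k₁ + k' * k₁ + k' : ℕ) : ℤ) * B.bw g.z.N₀ c := fun c a h =>
    h.trans (mul_le_mul_of_nonneg_right (by exact_mod_cast (by omega)) (b0 c))
  refine ⟨⟨g.A.χ ∘ f, fun i => YC M g.A.d (g.A.cf i) f, g.G ∘ f, mχ, fun i => (p2 i).1,
    fun c => (hk' C _ _ c (mu c) (mi c)).1, off.mono fun c a => sub_ne_zero.2 (g.off _ a).1,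
    off.mono fun c a => (g.off _ a).2,
    fun i c => ⟨hk c _ ((p2 i).2 c).1, hk c _ ((p2 i).2 c).2⟩, fun c => ?_, ?_, fun Λ₀ => ?_⟩,
    rfl, fun _ => rfl, rfl⟩
  · have a1 := (hk' C _ _ c (mu c) (mi c)).2
    rw [po_inv] at a1
    have a2 := p1 c
    have a3 := b0 c
    have a4 : 0 ≤ ze (fun y => g.A.χ (f y) - g.y₀) c := ze_nonneg
    have a5 := mul_le_mul_of_nonneg_left a2 (show (0 : ℤ) ≤ k' by positivity)
    have a6 : (0 : ℤ) ≤ k₁ * B.bw g.z.N₀ c := by positivity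
    have a7 : (0 : ℤ) ≤ k' * B.bw g.z.N₀ c := by positivity
    have a8 : (0 : ℤ) ≤ (k₁ + k' * k₁) * ze (fun y => g.A.χ (f y) - g.y₀) c := by positivity
    change po (fun y => ev2 g.HG ((uf M ∘ f) y) (g.A.χ (f y) - g.y₀)⁻¹) c ≤
      ((k₁ + k' * k₁ + k' : ℕ) : ℤ) * (B.bw g.z.N₀ c + ze (fun y => g.A.χ (f y) - g.y₀) c)
    push_cast
    nlinarith
  · rw [or_iff_not_imp_left]
    intro a
    by_contra b
    have a1 : ∀ᶠ c in cofinite, ∀ i, YC M g.A.d (g.A.cf i) f c = 0 :=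
      eventually_all.2 fun i => (p2 i).1.nz_or.resolve_left fun d => a ⟨i, d⟩
    obtain ⟨c, ⟨d1, -, -, -, -, d2⟩, d3, d4⟩ := (gd.and (a1.and (mχ.nz_D b))).exists
    have d5 := c3 g.A hf d1 d2
    simp only [d3, norm_zero, Finset.sum_const_zero, mul_zero] at d5
    exact d5.not_gt (mul_pos (pow_pos (norm_pos_iff.2 (div_ne_zero d4 d2)) _)
      (norm_pos_iff.2 (g.A.off _ d1).1))
  · filter_upwards [gd] with c ⟨d1, d2, d3, d4, d5, d6⟩ e1 e2 e3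
    have e4 := c2 g.A hf d1 d6
    have e5 := c3 g.A hf d1 d6
    rw [d4] at e4 e5
    have e6 := g.ab Λ₀ _ d2 _ _ _ (norm_nonneg _) (Finset.sum_nonneg fun _ _ => norm_nonneg _)
      e1 e2 e3 e4 e5
    have e7 : Dc (g.A.χ ∘ f) c =
        Dc (g.A.χ ∘ f) c / Dc (uf M ∘ f) c * L.derivWeierstrassP (B.l c c) * B.w c := by
      rw [mul_assoc, ← d5, div_mul_cancel₀ _ d6]
    change ‖Dc (g.A.χ ∘ f) c‖ ≤ g.K' Λ₀ * ‖B.w c‖
    rw [e7, norm_mul, norm_mul]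
    exact mul_le_mul_of_nonneg_right e6 (norm_nonneg _)

end Pool.Agent.P.MP_7ede32_ag.Bnd
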