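import Pool.Agent.P.MP_7ede32_ag.Bnd.DY
import Pool.Agent.P.MP_7ede32_ag.Full.All
import Pool.Agent.P.MP_7ede32_ag.Hod.CovT
import Pool.Agent.P.MP_7ede32_ag.Hod.CovA
import Pool.Agent.P.MP_7ede32_ag.Hod.CovS
import Pool.Agent.P.MP_7ede32_ag.Hod.Cov2
import Pool.Agent.P.MP_7ede32_ag.Hod.WpInj

/-!
The unramified cover with its working structure and the pulled back sections.
-/

open Filter Topology Metric Set

noncomputable section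

namespace Pool.Agent.P.MP_7ede32_ag.Bnd

open Full Geo
open Hod (Sx CvT CvA IsCv SecC nL LSec IsPull)

namespace CvWP

variable {𝒳 : Sx} {n : ℕ}

/-- a section of the surface as a section on the cover -/
def ls {m : ℕ} (n : ℕ) (σ : Sec 𝒳.S m) : LSec 𝒳 n m where
  c _ e p := σ.c e (e p)
  an _ _ he _ hs _ := MfB.sec_an σ he hs
  per _ _ _ _ _ _ _ _ := rfl
  compat _ e he e' he' p hs hs' _ := σ.compat e he e' he' p hs hs'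

variable {Λ' : Submodule ℤ ℂ} {T : CvT 𝒳 Λ'} {𝒜 : CvA T}

lemma val {m : ℕ} {σ : Sec 𝒳.S m} {c} (h : IsPull 𝒜 (ls n σ) c) {e'} (he' : e' ∈ 𝒜.A) {x : T.X'}
    (hx : x ∈ e'.source) {e} (he : e ∈ 𝒳.S.A) (hp : T.pr x ∈ e.source)
    (hb : ∀ᶠ b in 𝓝 x, e' b = e (T.pr b)) : c e' (e' x) = σ.c e (e (T.pr x)) := by
  obtain ⟨z, hz⟩ := Λ'.mkQ_surjective (T.π' x)
  exact h e' he' x hx z hz.symm e he hp hb

end CvWP

open CvWP in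
theorem sCvW : SCvW := by
  intro 𝒳 n hn z₁ s m N a b hb
  obtain ⟨T⟩ := Hod.sCovT 𝒳 n hn
  obtain ⟨𝒜⟩ := Hod.sCovA 𝒳 _ T
  obtain ⟨S', H, hP⟩ := Hod.sCovS Hod.sPull 𝒳 n hn T 𝒜 s.toLSec
  obtain ⟨G⟩ := Hod.sCov2 Hod.sPull Hod.sWpInj sSecId 𝒳 n hn T 𝒜 z₁ s S' H
  obtain ⟨p₀, hp₀⟩ := 𝒳.ov_nonempty z₁
  obtain ⟨a₀, -, ha₀⟩ := T.surj p₀ z₁ hp₀
  have hZ : ∃ x, x ∉ S'.Z := by
    obtain ⟨z, e, he, p, hp, hz, hc⟩ := s.nz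
    obtain ⟨x, rfl, ha⟩ := T.surj p z hz
    obtain ⟨e', he', ha', h⟩ := 𝒜.ch' x e he hp
    exact ⟨x, fun hx => hc ((hP e' he' x ha' z ha e he hp h).symm.trans (hx e' (H.hA ▸ he') ha'))⟩
  have hF : ∀ x, S'.π x = S'.π a₀ → ¬ S'.Crit x ∧ x ∈ S'.Z := by
    intro x hx
    have hz := (H.hπ x z₁).1 (hx.trans ((H.hπ a₀ z₁).2 ha₀))
    have ho := T.ov x z₁ hz
    refine ⟨fun hc => s.ncrit _ ho (Hod.CovSP.crit_pr H hz hc), ?_⟩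
    obtain ⟨e, he, e', he', hp, ha, h⟩ := Hod.CovSP.exists_pair 𝒜 x
    refine Sf0.mem_Z_of_chart (H.hA ▸ he') ha ?_
    obtain ⟨β, -, hβ⟩ := s.van e he _ hp ho
    have h3 := hβ.self_of_nhds
    rw [ho.lam_self] at h3
    rw [hP e' he' x ha z₁ hz e he hp h, h3]
    simp
  obtain ⟨x₁, hx₁⟩ := hZ
  have hN : Nc S' := π_nc_of (hF a₀ rfl).1
  obtain ⟨M⟩ := aMfB _ S' _ H.hΛ hN G
  have hS : S'.Hyp (S'.π a₀) := ⟨ω_ne_of hx₁, hN, hF, aHf _ S' _ M hN⟩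
  obtain ⟨b', hb'⟩ := Hod.Cov2.pull Hod.sPull H (ls n b)
  choose a' ha' using fun l => Hod.Cov2.pull Hod.sPull H (ls n (a l))
  refine ⟨T, 𝒜, S', _, a', b', H, hS, ⟨M⟩, ?_, fun t x => ⟨?_, ?_⟩⟩
  · obtain ⟨e, he, p, hp, h⟩ := hb
    obtain ⟨z, hz⟩ := 𝒳.S.Λ.mkQ_surjective (𝒳.S.π p)
    obtain ⟨x, rfl, -⟩ := T.surj p z hz.symm
    obtain ⟨e', he', hx, h1⟩ := 𝒜.ch' x e he hp
    exact ⟨e', H.hA ▸ he', x, hx, by rwa [val hb' he' hx he hp h1]⟩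
  · rintro ⟨e', he', hx, h1, h2⟩
    rw [H.hA] at he'
    obtain ⟨e, he, hp, h3⟩ := (𝒜.ch e').1 he' x hx
    refine ⟨e, he, hp, by rwa [val hb' he' hx he hp h3] at h1, ?_⟩
    rw [← h2]
    exact Finset.sum_congr rfl fun l _ => by rw [val (ha' l) he' hx he hp h3]
  · rintro ⟨e, he, hp, h1, h2⟩
    obtain ⟨e', he', hx, h3⟩ := 𝒜.ch' x e he hp
    refine ⟨e', H.hA ▸ he', hx, by rwa [val hb' he' hx he hp h3], ?_⟩
    rw [← h2]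
    exact Finset.sum_congr rfl fun l _ => by rw [val (ha' l) he' hx he hp h3]

end Pool.Agent.P.MP_7ede32_ag.Bnd
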