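import Pool.Agent.P.MP_7ede32_ag.Bnd.DY
import Pool.Agent.P.MP_7ede32_ag.Bnd.XT
import Pool.Agent.P.MP_7ede32_ag.Hod.CovS

/-!
The image of an analytic curve under the cover, and the lifting of holomorphic curves.
-/

open Filter Topology Metric Set

noncomputable section

namespace Pool.Agent.P.MP_7ede32_ag.Bnd

open Full Geo MP_5d7cf0_gt
open Hod (Sx CvT CvA IsCv)
open MP_5d7cf0_gt.T (RS zc)

namespace CzPrP

theorem fin_un {X ι : Type} [MetricSpace X] {S : Sf0 X} {x : X} {s : Set ι} (hs : s.Finite)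
    {P : ι → X → Prop} (h : ∀ i ∈ s, ∃ F : X → ℂ, S.AnAt F x ∧ (¬ ∀ᶠ y in 𝓝 x, F y = 0) ∧
      ∀ᶠ y in 𝓝 x, (P i y ↔ F y = 0)) : ∃ F : X → ℂ, S.AnAt F x ∧ (¬ ∀ᶠ y in 𝓝 x, F y = 0) ∧
      ∀ᶠ y in 𝓝 x, ((∃ i ∈ s, P i y) ↔ F y = 0) := by
  induction s, hs using Set.Finite.induction_on with
  | empty => exact ⟨fun _ => 1, anX_const 1, fun h => one_ne_zero h.self_of_nhds, by simp⟩
  | insert _ _ ih =>
    obtain ⟨Φ, a1, a2, a3⟩ := h _ (mem_insert _ _)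
    obtain ⟨Ψ, b1, b2, b3⟩ := ih fun i hi => h i (mem_insert_of_mem _ hi)
    refine ⟨_, anX_mul a1 b1, an_mul_ne a1 b1 a2 b2, ?_⟩
    filter_upwards [a3, b3] with y c1 c2
    rw [mul_eq_zero, exists_mem_insert, c1, c2]

variable {𝒳 : Sx} {Λ' : Submodule ℤ ℂ} {T : CvT 𝒳 Λ'} {𝒜 : CvA T} {S' : Sf0 T.X'}

/-- a local inverse of the cover -/
theorem loc_inv (H : IsCv 𝒜 S') (a : T.X') : ∃ s : 𝒳.X → T.X',
    Tendsto s (𝓝 (T.pr a)) (𝓝 a) ∧ (∀ᶠ b in 𝓝 a, s (T.pr b) = b) ∧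
    (∀ᶠ y in 𝓝 (T.pr a), T.pr (s y) = y) ∧
    ∀ F : T.X' → ℂ, S'.AnAt F a → 𝒳.S.AnAt (F ∘ s) (T.pr a) := by
  obtain ⟨e, he, e', he', hp, ha, h⟩ := Hod.CovSP.exists_pair 𝒜 a
  have h1 : ∀ᶠ b in 𝓝 a, e'.symm (e (T.pr b)) = b := by
    filter_upwards [h, e'.open_source.mem_nhds ha] with b h1 h2
    rw [← h1, e'.left_inv h2]
  refine ⟨e'.symm ∘ e, (e'.tendsto_symm ha).comp (h.self_of_nhds ▸ e.continuousAt hp), h1, ?_,
    fun F hF => Sf0.anAt_of_chart he hp ?_⟩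
  · rw [← T.map_pr, eventually_map]
    exact h1.mono fun b hb => congrArg T.pr hb
  · refine (h.self_of_nhds ▸ hF e' (H.hA ▸ he') ha).congr ?_
    filter_upwards [e.open_target.mem_nhds (e.map_source hp)] with u hu
    simp [e.right_inv hu]

end CzPrP

open CzPrP

theorem sCzPr : SCzPr := by
  intro 𝒳 Λ' T 𝒜 S' Z H hZ p
  choose s h1 h2 h3 h4 using loc_inv H
  have hf : (T.pr ⁻¹' {p}).Finite := by
    refine MP_5d7cf0_gt.T.finite_of_isolated fun a => ?_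
    by_cases ha : T.pr a = p
    · filter_upwards [nhdsWithin_le_nhds (h2 a), self_mem_nhdsWithin] with b b1 b2 b3
      exact b2 (b1.symm.trans (by rw [b3, ← ha]; exact (h2 a).self_of_nhds))
    · exact nhdsWithin_le_nhds (T.cont.continuousAt.eventually_ne ha)
  obtain ⟨F, a1, a2, a3⟩ := fin_un (S := 𝒳.S) (x := p) hf (P := fun a y => s a y ∈ Z)
    fun a ha => by
      obtain rfl : T.pr a = p := ha
      obtain ⟨F, a1, a2, a3⟩ := hZ a
      refine ⟨_, h4 a F a1, fun b => a2 ?_, (h1 a).eventually a3⟩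
      filter_upwards [T.cont.continuousAt.eventually b, h2 a] with y b1 b2
      rwa [Function.comp, b2] at b1
  refine ⟨F, a1, a2, ?_⟩
  filter_upwards [a3, T.cont.isClosedMap.eventually_nhds_fiber
    (p := fun b => ∃ a ∈ T.pr ⁻¹' {p}, s a (T.pr b) = b) p
    (fun a ha => (h2 a).mono fun _ hb => ⟨a, ha, hb⟩),
    (eventually_all_finite hf (p := fun a y => T.pr (s a y) = y)).2
      fun a ha => (show T.pr a = p from ha) ▸ h3 a] with y b1 b2 b3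
  refine Iff.trans ⟨?_, fun ⟨a, ha, h⟩ => ⟨_, h, b3 a ha⟩⟩ b1
  rintro ⟨b, hb, rfl⟩
  obtain ⟨a, ha, h⟩ := b2 b rfl
  exact ⟨a, ha, h.symm ▸ hb⟩

theorem sLiftC : SLiftC := by
  intro 𝒳 Λ' T 𝒜 S' L'' C _ _ _ B f H hL hf ho
  choose f' h1 h2 using fun c => T.surj (f c) (B.l c c) (ho c _ (B.mem_l c))
  have h3 : ∀ c z, c ∈ B.Fb z → T.π' (f' c) = Λ'.mkQ z := fun c z hz =>
    (h2 c).trans ((Submodule.Quotient.eq _).2 (hL (Bc.sub_mem (B.mem_l c) hz)))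
  have hc : Continuous f' := continuous_iff_continuousAt.2 fun c => by
    have h0 := mem_chart_source ℂ c
    have h4 := T.tend (f' c) (B.l c c) (h2 c) (𝓝 (zc c c)) (f' ∘ (chartAt ℂ c).symm)
      (B.l c ∘ (chartAt ℂ c).symm)
      ((h1 c ▸ (hf.cont.tendsto c).congr fun y => (h1 y).symm :
        Tendsto (T.pr ∘ f') (𝓝 c) (𝓝 (T.pr (f' c)))).comp (MP_5d7cf0_gt.T.tendsto_symm h0))
      ((B.an c).continuousAt.tendsto.comp (MP_5d7cf0_gt.T.tendsto_symm h0))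
      ((MP_5d7cf0_gt.T.tendsto_symm h0).eventually ((B.lift c).mono fun y hy => h3 y _ hy))
    exact (h4.comp (MP_5d7cf0_gt.T.continuousAt_zc h0)).congr' (eq_chart f' c).symm
  refine ⟨f', holC_of hc fun c => ?_, fun c z hz => (H.hπ _ z).2 (h3 c z hz), h1⟩
  obtain ⟨e, he, e', he', hp, ha, h⟩ := Hod.CovSP.exists_pair 𝒜 (f' c)
  have h5 : ∀ᶠ y in 𝓝 c, e (f y) = e' (f' y) :=
    (hc.continuousAt.eventually h).mono fun y hy => by rw [hy, h1]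
  have h6 := hf.an_chart he (h1 c ▸ hp)
  exact ⟨e', H.hA ▸ he', ha, h6.1.congr (h5.mono fun _ hy => congrArg Prod.fst hy),
    h6.2.congr (h5.mono fun _ hy => congrArg Prod.snd hy)⟩

end Pool.Agent.P.MP_7ede32_ag.Bnd
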