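import Pool.Agent.P.MP_7ede32_ag.Bnd.DY
import Pool.Agent.P.MP_7ede32_ag.Bnd.XT
import Pool.Agent.P.MP_7ede32_ag.Full.DiscsP
import Pool.Agent.P.MP_7ede32_ag.Full.Phi
import Pool.Agent.P.MP_7ede32_ag.Full.GoodJ

/-!
The discs and the uniform bounds exist.
-/

open Filter Topology Metric Set
open scoped Polynomial

noncomputable section

namespace Pool.Agent.P.MP_7ede32_ag.Bnd

open Full Geo

namespace DUP

section plane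

variable {Λ : Submodule ℤ ℂ} {R₀ : ℝ} {K : Set ℂ}

lemma uni_ev (hN : Net Λ R₀) (hK : IsClosed K) (hp : ∀ p ∈ Λ, ∀ w ∈ K, w + p ∈ K)
    (Φ : ℝ → ℂ → Prop) (h1 : ∀ p ∈ Λ, ∀ w ∈ K, ∀ η, Φ η (w + p) → Φ η w)
    (h2 : ∀ η η' w, 0 < η' → η' ≤ η → Φ η w → Φ η' w)
    (h3 : ∀ w ∈ K, ∃ η > 0, ∀ᶠ w' in 𝓝 w, Φ η w') : ∀ᶠ η in 𝓝[>] 0, ∀ w ∈ K, Φ η w := by
  obtain ⟨η, a1, a2⟩ := sUni Λ R₀ K Φ hN hK (fun p b w c => ⟨hp p b w c, h1 p b w c⟩) h2 h3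
  filter_upwards [Ioc_mem_nhdsGT a1] with η' b w c
  exact h2 _ _ _ b.1 b.2 (a2 w c)

lemma low (hN : Net Λ R₀) (hK : IsClosed K) (hp : ∀ p ∈ Λ, ∀ w ∈ K, w + p ∈ K) (F : ℂ → ℂ)
    (h1 : ∀ p ∈ Λ, ∀ w ∈ K, F (w + p) = F w) (h2 : ∀ w ∈ K, ContinuousAt F w ∧ F w ≠ 0) :
    ∀ᶠ η in 𝓝[>] 0, ∀ w ∈ K, η ≤ ‖F w‖ := by
  refine uni_ev hN hK hp (fun η w => η ≤ ‖F w‖) (fun p a w b η c => h1 p a w b ▸ c)
    (fun η η' w _ a b => a.trans b) fun w hw => ?_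
  have h3 := norm_pos_iff.2 (h2 w hw).2
  exact ⟨‖F w‖ / 2, half_pos h3,
    ((h2 w hw).1.norm.eventually (lt_mem_nhds (half_lt_self h3))).mono fun _ a => a.le⟩

lemma up (hN : Net Λ R₀) (hK : IsClosed K) (hp : ∀ p ∈ Λ, ∀ w ∈ K, w + p ∈ K) (F : ℂ → ℝ)
    (h1 : ∀ p ∈ Λ, ∀ w ∈ K, F (w + p) = F w) (h2 : ∀ w ∈ K, ContinuousAt F w) :
    ∀ᶠ η in 𝓝[>] 0, ∀ w ∈ K, F w ≤ η⁻¹ := by
  refine uni_ev hN hK hp (fun η w => F w ≤ η⁻¹) (fun p a w b η c => h1 p a w b ▸ c)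
    (fun η η' w a b c => c.trans (inv_anti₀ a b)) fun w hw => ?_
  refine ⟨(|F w| + 1)⁻¹, by positivity, ?_⟩
  rw [inv_inv]
  exact ((h2 w hw).eventually (gt_mem_nhds (show F w < |F w| + 1 by
    linarith [le_abs_self (F w)]))).mono fun _ a => a.le

lemma an_shift {e : ℂ → ℂ} {w p : ℂ} (h : AnalyticAt ℂ e (w + p))
    (h' : ∀ᶠ z in 𝓝 w, e (z + p) = e z) : AnalyticAt ℂ e w :=
  (AnalyticAt.comp (g := e) (f := fun z => z + p) h (by fun_prop)).congr h'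

lemma ev_shift {P : ℂ → Prop} {w p : ℂ} (h : ∀ᶠ z in 𝓝 (w + p), P z) :
    ∀ᶠ z in 𝓝 w, P (z + p) := ((continuous_add_const p).tendsto w).eventually h

end plane

variable {X : Type} [MetricSpace X] {S : Sf0 X} {L L'' : PeriodPair} {σ : Su S L} {M : Mf S L}

lemma mem_Λ (hle : σ.Le L'') {p : ℂ} (hp : p ∈ L''.lattice) : p ∈ S.Λ := by
  rw [σ.hΛ]; exact hle.le hp

lemma add_mem_O {p w : ℂ} (hp : p ∈ S.Λ) (hw : w ∈ σ.O) : w + p ∈ σ.O := by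
  refine σ.O_iff.2 fun c hc => ?_
  have := σ.O_iff.1 hw (c + -p) ((Sf0.Cfg.add_mem_Bt (S.Λ.neg_mem hp)).2 hc)
  rwa [dist_eq_norm, show w - (c + -p) = w + p - c by ring, ← dist_eq_norm] at this

lemma q_per (hle : σ.Le L'') {p w : ℂ} (hp : p ∈ L''.lattice) (hw : w ∈ σ.O) {q : ℂ → X}
    (hq : q ∈ σ.T) : q (w + p) = q w := by
  obtain ⟨p', a, rfl⟩ := hle p hp
  exact σ.per q hq p' a w (σ.O_sub hw)

lemma e_per (hle : σ.Le L'') {p w : ℂ} (hp : p ∈ L''.lattice) (hw : w ∈ σ.O) {e : ℂ → ℂ}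
    (he : σ.Pr e) : e (w + p) = e w := by
  obtain ⟨p', a, rfl⟩ := hle p hp
  exact he p' a w hw

lemma qe_per (hle : σ.Le L'') {p w : ℂ} (hp : p ∈ L''.lattice) (hw : w ∈ σ.O) {q : ℂ → X}
    (hq : q ∈ σ.T) {e : ℂ → ℂ} (he : σ.Pr e) {Z : Set X} {F : X → ℂ} {a b : ℕ} {η : ℝ}
    (h : σ.QE Z q F a b e η (w + p)) : σ.QE Z q F a b e η w := by
  have h1 : S.Λ.mkQ (w + p) = S.Λ.mkQ w := Sf0.mk_eq_iff.2 (by simpa using mem_Λ hle hp)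
  unfold Su.QE at h ⊢
  rwa [q_per hle hp hw hq, e_per hle hp hw he, h1] at h

lemma qy_per (hle : σ.Le L'') {p w : ℂ} (hp : p ∈ L''.lattice) (hw : w ∈ σ.O) {q : ℂ → X}
    (hq : q ∈ σ.T) {ι : Type} {Z : Set X} {ξ : ι → X → ℂ} {η : ℝ}
    (h : QY Z q ξ η (w + p)) : QY Z q ξ η w := by
  unfold QY at h ⊢
  rwa [q_per hle hp hw hq] at h

lemma qb_per (hle : σ.Le L'') {p w : ℂ} (hp : p ∈ L''.lattice) (hw : w ∈ σ.O) {q : ℂ → X}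
    (hq : q ∈ σ.T) {f : ℂ → ℂ} (hf : σ.Pr f) {Z : Set X} {ξ : X → ℂ} {ε η : ℝ}
    (h : QB Z q ξ f ε η (w + p)) : QB Z q ξ f ε η w := by
  unfold QB at h ⊢
  rwa [q_per hle hp hw hq, e_per hle hp hw hf] at h

/-- the local property of the data at `w` -/
def Pq (g : Gm σ M) (q : ℂ → X) (w : ℂ) : Prop :=
  AnalyticAt ℂ (g.e q) w ∧ AnalyticAt ℂ (g.f q) w ∧ g.e q w ≠ 0 ∧
    (∃ η > 0, ∀ᶠ w' in 𝓝 w, σ.QE g.Z q g.G (g.a q) (g.b q) (g.e q) η w' ∧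
      QY g.Z q (fun β p => sg (g.ε q β) (g.A.y β p)) η w') ∧
    ∀ ε > 0, ∃ η > 0, ∀ᶠ w' in 𝓝 w, QB g.Z q (fun p => (g.A.χ p - g.y₀)⁻¹) (g.f q) ε η w'

lemma pq_per (g : Gm σ M) (hle : σ.Le L'') {p w : ℂ} (hp : p ∈ L''.lattice) (hw : w ∈ σ.O)
    {q : ℂ → X} (hq : q ∈ σ.T) (h : Pq g q (w + p)) : Pq g q w := by
  obtain ⟨h1, h2, h3, ⟨η, h4, h5⟩, h6⟩ := h
  have hO : ∀ᶠ z in 𝓝 w, z ∈ σ.O := σ.isOpen_O.mem_nhds hw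
  obtain ⟨he, hf⟩ := g.per q hq
  refine ⟨an_shift h1 (hO.mono fun z a => e_per hle hp a he),
    an_shift h2 (hO.mono fun z a => e_per hle hp a hf), e_per hle hp hw he ▸ h3, ⟨η, h4, ?_⟩,
    fun ε hε => ?_⟩
  · filter_upwards [ev_shift h5, hO] with z a b
    exact ⟨qe_per hle hp b hq he a.1, qy_per hle hp b hq a.2⟩
  · obtain ⟨η', a1, a2⟩ := h6 ε hε
    refine ⟨η', a1, ?_⟩
    filter_upwards [ev_shift a2, hO] with z a b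
    exact qb_per hle hp b hq hf a

lemma discs (g : Gm σ M) (hle : σ.Le L'') : ∃ D : Discs, (∀ p ∈ L''.lattice, D.Per p) ∧
    ∀ w ∈ D.G (-(2 * D.θ)), w ∈ σ.O ∧ w ∉ g.z.N₀ ∧ ∀ q ∈ σ.T, Pq g q w := by
  obtain ⟨R₀, hR⟩ := net_lattice L''
  have hδ := σ.sep.1
  have hd : ∀ w ∈ σ.O, ∀ᶠ z in 𝓝[≠] w,
      z ∉ g.z.N₀ ∪ {w | w ∈ σ.O ∧ ∃ q ∈ σ.T, ¬ Pq g q w} := fun w hw => by
    filter_upwards [g.z.disc w, (σ.reps.1.eventually_all (p := fun q z => Pq g q z)).2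
      fun q hq => g.gen q hq w hw] with z a b
    rintro (c | ⟨-, q, c, d⟩)
    · exact a c
    · exact d (b q c)
  obtain ⟨w₁, h1⟩ := Phi.ball_subset σ.sep
  have h2 : w₁ ∈ σ.O :=
    Sf0.Cfg.Cr_subset_interior (half_lt_self hδ) (h1 (mem_ball_self hδ))
  obtain ⟨w₀, h3, h4⟩ := ((hd w₁ h2).and
    (mem_nhdsWithin_of_mem_nhds (ball_mem_nhds w₁ hδ))).exists
  obtain ⟨D, a1, -, a2⟩ := sDiscs L''.lattice R₀ σ.δ σ.C.Bt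
    (g.z.N₀ ∪ {w | w ∈ σ.O ∧ ∃ q ∈ σ.T, ¬ Pq g q w}) w₀ hR hδ σ.sep.2.2
    (fun p hp c hc => (Sf0.Cfg.add_mem_Bt (mem_Λ hle hp)).2 hc)
    (fun p hp c hc => hc.imp (g.z.per p (hle.le hp) c).2 fun ⟨b1, q, b2, b3⟩ =>
      ⟨add_mem_O (mem_Λ hle hp) b1, q, b2, fun b4 => b3 (pq_per g hle hp b1 b2 b4)⟩)
    (fun w hw => hd w (σ.O_iff.2 hw)) h3 (h1 h4)
  refine ⟨D, a1, fun w hw => ?_⟩
  have b1 : w ∈ σ.O := σ.O_iff.2 fun c hc => by linarith [(a2 w hw).2 c hc]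
  exact ⟨b1, fun b => (a2 w hw).1 (Or.inl b),
    fun q hq => not_not.1 fun b => (a2 w hw).1 (Or.inr ⟨b1, q, hq, b⟩)⟩

end DUP

open DUP in
theorem sDU (h : STileE) : SDU := by
  intro X _ S L L'' σ M g hle
  obtain ⟨D, hper, hD⟩ := discs g hle
  obtain ⟨P, R₀, hT⟩ := h L'' D hper
  obtain ⟨R, hR⟩ := net_lattice L''
  have hK := D.isClosed_G (-(2 * D.θ))
  have hp : ∀ p ∈ L''.lattice, ∀ w ∈ D.G (-(2 * D.θ)), w + p ∈ D.G (-(2 * D.θ)) :=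
    fun p a w b => GoodJ.add_mem_G (hper _ (neg_mem a)) b
  have ho := fun w (hw : w ∈ D.G (-(2 * D.θ))) => g.z.off w (hD w hw).2.1
  have e1 := low hR hK hp L.derivWeierstrassP
    (fun p a w _ => L.derivWeierstrassP_add_coe w ⟨p, hle.le a⟩)
    fun w hw => ⟨(L.analyticOnNhd_derivWeierstrassP w (ho w hw).1).continuousAt, (ho w hw).2.1⟩
  have e2 := up hR hK hp (fun w => Bw g.A.h (L.weierstrassP w))
    (fun p a w _ => congrArg (Bw g.A.h) (L.weierstrassP_add_coe w ⟨p, hle.le a⟩))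
    fun w hw => by
      have c1 := (L.analyticOnNhd_weierstrassP w (ho w hw).1).continuousAt
      have c2 : ContinuousAt (fun w => g.A.h.eval (L.weierstrassP w)) w :=
        g.A.h.continuous.continuousAt.comp c1
      exact (continuousAt_const.add c1.norm).add
        (c2.norm.inv₀ (norm_ne_zero_iff.2 (ho w hw).2.2.1))
  have e3 := low hR hK hp g.z.Ψ (fun p a w _ => (g.z.per p (hle.le a) w).1)
    fun w hw => ⟨(ho w hw).2.2.2.1.continuousAt, (ho w hw).2.2.2.2⟩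
  have e4 : ∀ᶠ η in 𝓝[>] (0 : ℝ), ∀ q ∈ σ.T, ∀ w ∈ D.G (-(2 * D.θ)), ‖g.f q w‖ ≤ η⁻¹ :=
    σ.reps.1.eventually_all.2 fun q hq => up hR hK hp (fun w => ‖g.f q w‖)
      (fun p a w b => congrArg norm (e_per hle a (hD w b).1 (g.per q hq).2))
      fun w hw => ((hD w hw).2.2 q hq).2.1.continuousAt.norm
  have e5 : ∀ᶠ η in 𝓝[>] (0 : ℝ), ∀ q ∈ σ.T, ∀ w ∈ D.G (-(2 * D.θ)),
      σ.QE g.Z q g.G (g.a q) (g.b q) (g.e q) η w ∧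
        QY g.Z q (fun β p => sg (g.ε q β) (g.A.y β p)) η w :=
    σ.reps.1.eventually_all.2 fun q hq => uni_ev hR hK hp _
      (fun p a w b η c => ⟨qe_per hle a (hD w b).1 hq (g.per q hq).1 c.1,
        qy_per hle a (hD w b).1 hq c.2⟩)
      (fun η η' w a b c => ⟨fun y d1 d2 d3 => c.1 y d1 d2 (d3.trans b),
        fun y d1 d2 β => (c.2 y d1 (d2.trans b) β).trans (inv_anti₀ a b)⟩)
      fun w hw => ((hD w hw).2.2 q hq).2.2.2.1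
  have e6 : ∀ ε > 0, ∀ᶠ η in 𝓝[>] (0 : ℝ), ∀ q ∈ σ.T, ∀ w ∈ D.G (-(2 * D.θ)),
      QB g.Z q (fun p => (g.A.χ p - g.y₀)⁻¹) (g.f q) ε η w := fun ε hε =>
    σ.reps.1.eventually_all.2 fun q hq => uni_ev hR hK hp _
      (fun p a w b η c => qb_per hle a (hD w b).1 hq (g.per q hq).2 c)
      (fun η η' w _ b c y d1 d2 => c y d1 (d2.trans b))
      fun w hw => ((hD w hw).2.2 q hq).2.2.2.2 ε hε
  obtain ⟨η, ⟨⟨⟨⟨a1, a2⟩, a3⟩, a4⟩, a5⟩, a6⟩ :=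
    (((((e1.and e2).and e3).and e4).and e5).and self_mem_nhdsWithin).exists
  refine ⟨⟨D, P, R₀, η, hle, hT, a6,
    fun w hw => ⟨(hD w hw).1, (hD w hw).2.1, a1 w hw, a2 w hw, a3 w hw⟩,
    fun q hq w hw => ⟨((hD w hw).2.2 q hq).1, ((hD w hw).2.2 q hq).2.1,
      ((hD w hw).2.2 q hq).2.2.1, a4 q hq w hw, a5 q hq w hw⟩, fun ε hε => ?_⟩⟩
  obtain ⟨η₁, b1, b2⟩ := ((e6 ε hε).and self_mem_nhdsWithin).exists
  exact ⟨η₁, b2, b1⟩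

end Pool.Agent.P.MP_7ede32_ag.Bnd
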