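import Pool.Agent.P.MP_7ede32_ag.Bnd.XT
import Pool.Agent.P.MP_7ede32_ag.Full.SecW

/-!
Ratios of pluricanonical sections are added to the family of meromorphic functions.
-/

open Filter Topology Metric Set

noncomputable section

namespace Pool.Agent.P.MP_7ede32_ag.Bnd

open Full Geo Full.MfB
open Ell (E2 jac)

theorem sExtM1 : SExtM1 := by
  intro X _ _ S L M m N a b hb
  choose ch hch hx using S.cover
  let U : X → Set X := fun x => M.U x ∩ (ch x).source
  let den : X → X → ℂ := fun x y => M.den x y * b.c (ch x) (ch x y)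
  let num : X → M.ι ⊕ Fin N → X → ℂ := fun x i y =>
    Sum.elim (fun i => M.num x i y * b.c (ch x) (ch x y))
      (fun l => M.den x y * (a l).c (ch x) (ch x y)) i
  let g : X → X → X → ℂ := fun x x' y =>
    M.g x x' y * jac (fderiv ℂ (ch x' ∘ (ch x).symm) (ch x y)) ^ m
  let f : M.ι ⊕ Fin N → X → ℂ := fun i y => num y i y / den y y
  have hU : ∀ x, x ∈ U x := fun x => ⟨M.mem_U x, hx x⟩
  have hUo : ∀ x, IsOpen (U x) := fun x => (M.U_open x).inter (ch x).open_source
  have han : ∀ x, ∀ y ∈ U x, S.AnAt (den x) y ∧ ∀ i, S.AnAt (num x i) y := fun x y hy => by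
    obtain ⟨a1, a2⟩ := M.an x y hy.1
    have a3 := sec_an b (hch x) hy.2
    refine ⟨an_mul a1 a3, ?_⟩
    rintro (i | l)
    · exact an_mul (a2 i) a3
    · exact an_mul a1 (sec_an (a l) (hch x) hy.2)
  have htr : ∀ x x', ∀ y ∈ U x, y ∈ U x' → ContinuousAt (g x x') y ∧
      den x y = g x x' y * den x' y ∧ ∀ i, num x i y = g x x' y * num x' i y := by
    intro x x' y hy hy'
    obtain ⟨a1, a2, a3⟩ := M.trans x x' y hy.1 hy'.1
    have a4 := b.compat _ (hch x) _ (hch x') y hy.2 hy'.2
    refine ⟨a1.mul ((jac_cont (hch x) (hch x') hy.2 hy'.2).pow _), ?_, ?_⟩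
    · simp only [den, g]
      rw [a2, a4]
      ring
    · rintro (i | l)
      · simp only [num, g, Sum.elim_inl]
        rw [a3, a4]
        ring
      · simp only [num, g, Sum.elim_inr]
        rw [a2, (a l).compat _ (hch x) _ (hch x') y hy.2 hy'.2]
        ring
  have hZ : ∀ x, ∀ y ∈ U x, den y y = 0 ↔ den x y = 0 := fun x y hy =>
    ⟨fun h => by rw [(htr x y y hy (hU y)).2.1, h, mul_zero],
      fun h => by rw [(htr y x y (hU y) hy).2.1, h, mul_zero]⟩
  have hne : ∀ y, den y y ≠ 0 → y ∉ M.Z ∧ M.den y y ≠ 0 ∧ b.c (ch y) (ch y y) ≠ 0 := fun y hy =>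
    ⟨fun h => left_ne_zero_of_mul hy ((M.Z_iff y y (M.mem_U y)).1 h), left_ne_zero_of_mul hy,
      right_ne_zero_of_mul hy⟩
  have hf : ∀ i y, den y y ≠ 0 → f (Sum.inl i) y = M.f i y := fun i y hy => by
    simp only [f, num, den, Sum.elim_inl]
    rw [mul_div_mul_right _ _ (hne y hy).2.2, M.f_eq y i y (M.mem_U y)]
  have hop : ∀ y, den y y ≠ 0 → ∀ᶠ z in 𝓝 y, den z z ≠ 0 := fun y hy => by
    filter_upwards [(hUo y).mem_nhds (hU y),
      (han y y (hU y)).1.continuousAt.eventually_ne hy] with z c1 c2 c3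
    exact c2 ((hZ y z c1).1 c3)
  refine ⟨{ ι := M.ι ⊕ Fin N
            iu := Sum.inl M.iu
            ix := Sum.inl M.ix
            ia := Sum.inl M.ia
            μ := M.μ
            f := f
            Z := {y | den y y = 0}
            U := U
            den := den
            num := num
            g := g
            μ_pos := M.μ_pos
            U_open := hUo
            mem_U := hU
            an := han
            trans := htr
            Z_iff := hZ
            f_eq := fun x i y hy => ?_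
            den_ne := fun x h => ?_
            hu := fun y hy w hw => ?_
            a_ne := fun y hy => ?_
            reg := fun e p hp => ?_
            inj := fun y hy y' hy' h => ?_ }, Sum.inr, fun y hy e he hye => ?_⟩
  · simp only [f]
    by_cases h : den y y = 0
    · rw [h, (hZ x y hy).1 h, div_zero, div_zero]
    · have a1 := (htr y x y (hU y) hy).2
      rw [a1.1] at h
      rw [a1.1, a1.2 i, mul_div_mul_left _ _ (left_ne_zero_of_mul h)]
  · refine an_mul_ne (M.an x x (M.mem_U x)).1 (sec_an b (hch x) (hx x)) (fun a1 => M.den_ne x ?_)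
      (sSecId X S m b hb _ (hch x) x (hx x)) ?_
    · filter_upwards [a1, (M.U_open x).mem_nhds (M.mem_U x)] with y c1 c2
      exact (M.Z_iff x y c2).2 c1
    · filter_upwards [h, (hUo x).mem_nhds (hU x)] with y c1 c2
      exact (hZ x y c2).1 c1
  · rw [hf _ y hy]
    exact M.hu y (hne y hy).1 w hw
  · rw [hf _ y hy]
    exact M.a_ne y (hne y hy).1
  · obtain ⟨α, β, a1, a2, a3⟩ := M.reg e p hp
    refine ⟨α, β, a1, a2, ?_⟩
    filter_upwards [a3, e.open_source.mem_nhds hp.2.1] with y c1 c2 hy
    have c3 : D (f (Sum.inl M.ix)) e y = D (M.f M.ix) e y :=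
      EventuallyEq.fderiv_eq (Sf0.symm_eventually c2 ((hop y hy).mono fun z => hf _ z))
    rw [c3, hf _ y hy, hf _ y hy]
    exact c1 (hne y hy).1
  · refine M.inj y (hne y hy).1 y' (hne y' hy').1 fun i => ?_
    rw [← hf i y hy, ← hf i y' hy', h]
  · obtain ⟨-, a1, a2⟩ := hne y hy
    have a3 := b.compat _ (hch y) _ he y (hx y) hye
    rw [a3] at a2
    refine ⟨left_ne_zero_of_mul a2, fun l => ?_⟩
    simp only [f, num, den, Sum.elim_inr]
    rw [mul_div_mul_left _ _ a1, a3, (a l).compat _ (hch y) _ he y (hx y) hye,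
      mul_div_mul_right _ _ (right_ne_zero_of_mul a2)]

end Pool.Agent.P.MP_7ede32_ag.Bnd
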