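import Pool.Agent.P.MP_7ede32_ag.Bnd.DY
import Pool.Agent.P.MP_7ede32_ag.Bnd.XT

/-!
Descent from the cover, and the union of the horizontal and the vertical case.
-/

open Filter Topology Metric Set

namespace Pool.Agent.P.MP_7ede32_ag.Bnd

open Full Geo
open Hod (Sx CvT CvA IsCv SecC nL mem_nL)
open MP_5d7cf0_gt.T (RS Om)

namespace HorP

theorem sum_le {N : ℕ} {F : Fin N → ℤ} {K : ℤ} (h : ∀ l, F l ≤ K) : ∑ l, F l ≤ N * K := by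
  simpa using Finset.sum_le_card_nsmul Finset.univ F K fun l _ => h l

theorem to_nat {k A g : ℕ} (hg : 2 ≤ g) (h : (k : ℤ) ≤ A * ((g : ℤ) - 1)) : k ≤ A * (g - 1) := by
  have h1 : 1 ≤ g := by omega
  zify [h1]
  exact h

end HorP

theorem sHor (h1 : SCvW) (h2 : SExtM1) (h3 : SSu) (h4 : SAC) (h5 : SQD) (h6 : SWk) (h7 : SCzPr)
    (h8 : SCovRS) (h9 : SLiftC) (h10 : SCovN) (h11 : SLev) (h12 : SDegB) : SHor := by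
  intro 𝒳 n z₁ m N a b hn s hb
  obtain ⟨T, 𝒜, S', s₀, a', b', hcv, hyp, ⟨M₀⟩, hb', hlv⟩ := h1 𝒳 n hn z₁ s m N a b hb
  obtain ⟨M, i, hrq⟩ := h2 T.X' S' _ M₀ m N a' b' hb'
  obtain ⟨σ⟩ := h3 T.X' S' (nL 𝒳.L n hn) s₀ hcv.hΛ hyp
  obtain ⟨𝒞⟩ := h4 T.X' S' _ M hyp.π_nc
  obtain ⟨g⟩ := h5 T.X' S' _ σ M 𝒞
  obtain ⟨k, hk, hk'⟩ : ∃ k, 0 < k ∧ k = n * σ.N := ⟨_, mul_pos hn σ.N_pos, rfl⟩
  have hle : σ.Le (nL 𝒳.L k hk) := fun p hp => by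
    obtain ⟨w, hw, rfl⟩ := mem_nL.1 hp
    exact ⟨n * w, mem_nL.2 ⟨w, hw, rfl⟩, by rw [hk']; push_cast; ring⟩
  obtain ⟨A, hA⟩ := h6 T.X' S' _ _ σ M g hle
  refine ⟨T.pr '' g.Z, k ^ 2 * (A * k ^ 2) + N * (A * k ^ 2), h7 𝒳 _ T 𝒜 S' g.Z hcv g.cz, ?_⟩
  intro C _ _ _ B f hf ho ⟨c₀, hc₀⟩
  obtain ⟨V⟩ := h8 𝒳.L (nL 𝒳.L k hk) C B fun w hw => by
    obtain ⟨w₀, h0, rfl⟩ := mem_nL.1 hw
    simpa using 𝒳.L.lattice.smul_mem (k : ℤ) h0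
  obtain ⟨f', hf', ho', hpr⟩ := h9 𝒳 _ T 𝒜 S' _ V.C' V.B' (f ∘ V.p) hcv hle.le (hf.comp V.hol)
    fun c z hc => ho _ z (V.ov c z hc)
  obtain ⟨c₁, rfl⟩ := V.surj c₀
  have hz : f' c₁ ∉ g.Z := fun h => hc₀ ⟨_, h, hpr c₁⟩
  obtain ⟨k1, k2⟩ := hA V.C' V.B' f' hf' ho' ⟨c₁, hz⟩
  obtain ⟨k3, k4⟩ := h10 𝒳.L k hk C B V
  have r0 := (h12 _ _ B).ρ_nonneg
  have r1 : A * V.B'.ρ ≤ A * k ^ 2 * B.ρ := by
    rw [mul_assoc]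
    exact mul_le_mul_of_nonneg_left k3 (Nat.cast_nonneg A)
  have r2 : 0 ≤ (A : ℤ) * k ^ 2 * B.ρ := by positivity
  have hoff := hf'.off (cz_M M) ⟨c₁, fun h => hz (g.sub (g.A.sub h))⟩
  have e : ∀ t c, LvP a' b' t (f' c) ↔ LvP a b t (f (V.p c)) := fun t c => by
    rw [hlv, hpr]; rfl
  refine ⟨?_, fun z => ?_, fun t => ?_⟩
  · by_contra h
    have h0 : B.ρ = 0 := by omega
    rw [h0, mul_zero] at r1
    linarith [(h12 _ _ V.B').pos]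
  · push_cast
    nlinarith [k4 z, mul_le_mul_of_nonneg_left (k1.trans r1) (sq_nonneg (k : ℤ)),
      mul_nonneg (Nat.cast_nonneg (α := ℤ) N) r2]
  · rcases h11 T.X' S' m N a' b' M.Z (fun l => M.f (i l)) V.C' f' t hrq hf' hoff
      fun l => hf'.me (lq_f M (i l)) hoff with h | ⟨h, h'⟩
    · refine Or.inl ((Set.Finite.image V.p h).subset fun c hc => ?_)
      obtain ⟨c', rfl⟩ := V.surj c
      exact ⟨c', fun d => hc ((e t c').1 d), rfl⟩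
    · have hs : {c | LvP a b t (f c)} ⊆ V.p '' {c | LvP a' b' t (f' c)} := fun c hc => by
        obtain ⟨c', rfl⟩ := V.surj c
        exact ⟨c', (e t c').2 hc, rfl⟩
      refine Or.inr ⟨(h.image _).subset hs, ?_⟩
      have d1 : ({c | LvP a b t (f c)}.ncard : ℤ) ≤ {c | LvP a' b' t (f' c)}.ncard := by
        exact_mod_cast (Set.ncard_le_ncard hs (h.image _)).trans (Set.ncard_image_le h)
      have d2 := HorP.sum_le fun l => (k2 (i l)).trans r1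
      push_cast
      nlinarith [mul_nonneg (sq_nonneg (k : ℤ)) r2]

theorem sDesc8 (h1 : SHor) (h2 : SVertB) (h3 : SExtM1) (h4 : SLev) (h5 : SBc) (h6 : SKD)
    (h7 : SDegB) : SDesc8 := by
  intro 𝒳 n z₁ m N a b hn s hb
  obtain ⟨Zh, Ah, czh, Hh⟩ := h1 𝒳 n z₁ m N a b hn s hb
  obtain ⟨M, i, hrq⟩ := h3 𝒳.X 𝒳.S 𝒳.L 𝒳.M.toMf m N a b hb
  obtain ⟨Zv, Av, czv, sub, Hv⟩ := h2 𝒳.X 𝒳.S 𝒳.L M 𝒳.nc
  refine ⟨Zh ∪ Zv, Ah * 2 + N * Av, czh.union czv, ?_⟩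
  intro C _ _ _ f hf hne ⟨c₀, hc₀⟩
  by_cases hv : ∀ c c', 𝒳.S.π (f c) = 𝒳.S.π (f c')
  · obtain ⟨g2, k⟩ := Hv C f hf hne ⟨c₀, fun h => hc₀ (Or.inr h)⟩ hv
    have g1 : (0 : ℤ) ≤ (Module.finrank ℂ (Om C) : ℤ) - 1 := by omega
    have hoff := hf.off (cz_M M) ⟨c₀, fun h => hc₀ (Or.inr (sub h))⟩
    refine ⟨g2, fun s => ?_, fun t => ?_⟩
    · by_cases h : 𝒳.S.π (f c₀) = s
      · exact Or.inl fun c => (hv c c₀).trans h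
      · have e : {c | 𝒳.S.π (f c) = s} = ∅ :=
          eq_empty_of_forall_notMem fun c hc => h ((hv c₀ c).trans hc)
        rw [e]
        exact Or.inr ⟨finite_empty, by simp⟩
    · refine (h4 𝒳.X 𝒳.S m N a b M.Z (fun l => M.f (i l)) C f t hrq hf hoff
        fun l => hf.me (lq_f M (i l)) hoff).imp_right fun h => ⟨h.1, HorP.to_nat g2 ?_⟩
      have d2 := HorP.sum_le fun l => k (i l)
      push_cast
      nlinarith [h.2, mul_nonneg (Nat.cast_nonneg (α := ℤ) Ah) g1]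
  · obtain ⟨B, hB⟩ := h5 𝒳.X 𝒳.S 𝒳.L C f 𝒳.hΛ hf hv
    obtain ⟨k1, k2, k3⟩ := Hh C B f hf (fun c z h => (hB c z).1 h) ⟨c₀, fun h => hc₀ (Or.inl h)⟩
    have d := h7 _ _ B
    obtain ⟨g2, k⟩ := h6 C B.w (meF_of_om d.om) d.nz (d.sum_odf ▸ k1)
    rw [d.sum_odf] at k
    have g1 : (0 : ℤ) ≤ (Module.finrank ℂ (Om C) : ℤ) - 1 := by omega
    have r : Ah * B.ρ ≤ ((Ah * 2 + N * Av : ℕ) : ℤ) * ((Module.finrank ℂ (Om C) : ℤ) - 1) := by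
      push_cast
      nlinarith [mul_le_mul_of_nonneg_left k (Nat.cast_nonneg (α := ℤ) Ah),
        mul_nonneg (mul_nonneg (Nat.cast_nonneg (α := ℤ) N) (Nat.cast_nonneg (α := ℤ) Av)) g1]
    refine ⟨g2, fun s => Or.inr ?_,
      fun t => (k3 t).imp_right fun h => ⟨h.1, HorP.to_nat g2 (h.2.trans r)⟩⟩
    obtain ⟨z, rfl⟩ := 𝒳.S.Λ.mkQ_surjective s
    have e : {c | 𝒳.S.π (f c) = 𝒳.S.Λ.mkQ z} = B.Fb z := Set.ext fun c => (hB c z).symm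
    rw [e]
    exact ⟨d.fin z, HorP.to_nat g2 ((k2 z).trans r)⟩

end Pool.Agent.P.MP_7ede32_ag.Bnd
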