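import Pool.Agent.P.MP_7ede32_ag.Bnd.XT

/-!
Level sets of ratios of sections on a curve, and the projection of a curve to the torus.
-/

open Filter Topology Metric Set

noncomputable section

namespace Pool.Agent.P.MP_7ede32_ag.Bnd

open Full Geo MP_5d7cf0_gt
open MP_5d7cf0_gt.T (RS zc loc An Hf Om Hol)

theorem sLev (h : SFibC) : SLev := by
  intro X _ S m N a b Z ξ C _ _ _ f t hR hf hZ hm
  have h1 : ∀ l c, Mr (fun y => t l * ξ l (f y)) c := fun l c => (mr_const _).mul (hm l c)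
  have h2 : Me fun y => ∑ l, t l * ξ l (f y) := fun c => mr_sum fun l _ => h1 l c
  have h3 : ∀ x ∉ Z, ∀ e ∈ S.A, x ∈ e.source →
      ∑ l, t l * ξ l x = (∑ l, t l * (a l).c e (e x)) / b.c e (e x) := fun x hx e he hxe => by
    rw [Finset.sum_div]
    exact Finset.sum_congr rfl fun l _ => by rw [(hR x hx e he hxe).2, mul_div_assoc]
  by_cases hF : ∀ᶠ c in cofinite, ∑ l, t l * ξ l (f c) = 0
  · left
    filter_upwards [hF, hZ] with c a1 a2
    obtain ⟨e, he, hx⟩ := S.cover (f c)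
    rw [h3 _ a2 e he hx, div_eq_zero_iff, or_iff_left (hR _ a2 e he hx).1] at a1
    exact ⟨e, he, hx, (hR _ a2 e he hx).1, a1⟩
  right
  obtain ⟨a1, a2⟩ := h C _ 0 {c | LvP a b t (f c)} h2 hF (by
    rintro c ⟨e, he, hx, b1, b2⟩
    have b3 : ContinuousAt (fun x => (∑ l, t l * (a l).c e (e x)) / b.c e (e x)) (f c) :=
      (tendsto_finsetSum _ fun l _ => continuousAt_const.mul
        (MfB.sec_an (a l) he hx).continuousAt).div (MfB.sec_an b he hx).continuousAt b1
    have b4 := (b3.tendsto.comp hf.cont.continuousAt).mono_left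
      (nhdsWithin_le_nhds (s := {c}ᶜ))
    rw [b2, zero_div] at b4
    refine b4.congr' ?_
    filter_upwards [cof_iff.1 hZ c, nhdsWithin_le_nhds
      (hf.cont.continuousAt.eventually (e.open_source.mem_nhds hx))] with y c1 c2
    exact (h3 _ c1 e he c2).symm)
  refine ⟨a1, a2.trans ?_⟩
  rw [← finsum_sum_comm _ _ fun l _ => (hm l).fs_po]
  refine su_le h2.fs_po (fs_sum fun l _ => (hm l).fs_po) fun c => ?_
  refine po_sum_le (Finset.sum_nonneg fun l _ => po_nonneg) fun l hl => ⟨h1 l c, ?_⟩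
  refine (po_mul_le (mr_const _) (hm l c)).trans ?_
  rw [po_const, zero_add]
  exact Finset.single_le_sum (f := fun l => po (ξ l ∘ f) c) (fun l _ => po_nonneg) hl

theorem sBc : SBc := by
  intro X _ S L C _ _ _ f hΛ hf hv
  have h1 : ∀ c, An (S.lf (f c) ∘ f) c := fun c => hf.an (Sf0.isLift_lf (f c)).2
  have h2 : ∀ c, ∀ᶠ y in 𝓝 c, S.π (f y) = S.Λ.mkQ (S.lf (f c) (f y)) := fun c =>
    hf.cont.continuousAt.eventually (Sf0.isLift_lf (f c)).1
  have h3 : ∀ c z, L.lattice.mkQ (S.lf (f c) (f c)) = L.lattice.mkQ z ↔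
      S.π (f c) = S.Λ.mkQ z := fun c z => by
    rw [(h2 c).self_of_nhds, Sf0.mk_eq_iff, Bc.mk_eq, hΛ]
  refine ⟨⟨fun y => L.lattice.mkQ (S.lf (f y) (f y)), fun c => S.lf (f c) ∘ f, h1,
    fun c => (h2 c).mono fun y a => (h3 _ _).2 a, fun c a => hv ?_⟩, h3⟩
  have h4 := all_of_loc (c := c) (P := fun y => S.π (f y) = S.π (f c)) (fun c' b => ?_) ?_
  · exact fun c₁ c₂ => (h4 c₁).trans (h4 c₂).symm
  · obtain ⟨w, hw⟩ := S.Λ.mkQ_surjective (S.π (f c))
    have b1 : ∃ᶠ y in 𝓝 c', ∀ᶠ y' in 𝓝 y, S.lf (f c') (f y') - w ∈ S.Λ :=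
      (b.and_eventually (h2 c').eventually_nhds).mono fun y d => (d.1.and d.2).mono fun y' d' =>
        Sf0.mk_eq_iff.1 (d'.2.symm.trans (d'.1.trans hw.symm))
    have := frequently_iff_neBot.1 (b1.mono fun _ d => d.self_of_nhds)
    obtain ⟨b2, b3⟩ := Sf0.lam_lim (S := S) (u := fun y => S.lf (f c') (f y) - w)
      (((h1 c').continuousAt.tendsto.sub_const w).mono_left inf_le_left)
      (mem_inf_of_right (mem_principal_self {y | S.lf (f c') (f y) - w ∈ S.Λ}))
    have b4 : ∀ᶠ y in 𝓝 c', S.lf (f c') (f y) - S.lf (f c') (f c') = 0 :=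
      an_zero_of ((h1 c').sub (T.an_const _)) ((b1.and_eventually
        (eventually_inf_principal.1 b3).eventually_nhds).mono fun y d => (d.1.and d.2).mono
          fun y' d' => sub_eq_zero.2 (sub_left_inj.1 (d'.2 d'.1)))
    filter_upwards [b4, h2 c'] with y d1 d2
    rw [d2, sub_eq_zero.1 d1, ← hw, Sf0.mk_eq_iff]
    exact b2
  · filter_upwards [a, h2 c] with y d1 d2
    rw [d2, (h2 c).self_of_nhds]
    exact congrArg _ d1

end Pool.Agent.P.MP_7ede32_ag.Bnd
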