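import Pool.Agent.P.MP_7ede32_ag.Bnd.DY
import Pool.Agent.P.MP_7ede32_ag.Bnd.XT

/-!
The poles of the polynomials in the slope of a curve.
-/

open Filter Topology Metric Set
open scoped Polynomial

noncomputable section

namespace Pool.Agent.P.MP_7ede32_ag.Bnd

open Full Geo MP_5d7cf0_gt
open MP_5d7cf0_gt.T (RS zc loc An Hf Om Hol)
open MP_5d7cf0_gt.T renaming D → Dc

namespace PoYP

theorem mer_eval {m : ℂ → ℂ} (hm : Meromorphic m) (h : ℂ[X]) :
    Meromorphic fun w => h.eval (m w) := by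
  intro w
  induction h using Polynomial.induction_on' with
  | add p q hp hq => simpa using hp.fun_add hq
  | monomial n a => simpa using (MeromorphicAt.const a w).fun_mul ((hm w).fun_pow n)

theorem base {ι : Type} [Fintype ι] {a b d : ℝ} {p q K : ι → ℝ} (ha : 0 ≤ a) (hb : 0 ≤ b)
    (hd : 0 ≤ d) (hq : ∀ i, 0 < q i) (h : ∀ i, p i ≤ K i * q i) :
    1 + a + b + ∑ i, p i * d / q i ≤ (1 + ∑ i, |K i|) * (1 + (a + b + d)) := by
  have h1 : ∑ i, p i * d / q i ≤ (∑ i, |K i|) * d := by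
    rw [Finset.sum_mul]
    refine Finset.sum_le_sum fun i _ => (div_le_iff₀ (hq i)).2 ?_
    have := (h i).trans (mul_le_mul_of_nonneg_right (le_abs_self (K i)) (hq i).le)
    nlinarith
  have h2 : 0 ≤ ∑ i, |K i| := Finset.sum_nonneg fun i _ => abs_nonneg _
  nlinarith [mul_nonneg h2 ha, mul_nonneg h2 hb]

variable {X : Type} [MetricSpace X] {S : Sf0 X} {L L'' : PeriodPair} {M : Mf S L} {C : Type}
  [TopologicalSpace C] [ChartedSpace ℂ C] {f : C → X}

/-- the bound of the certificate at a point of the curve -/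
theorem c1 (A : AC M) (hf : HolC S f) {y : C} (h1 : f y ∉ A.Z) (h2 : Dc (uf M ∘ f) y ≠ 0)
    (i : Fin A.m) : (1 + ‖A.χ (f y)‖) * ‖YC M A.d (A.cf i) f y‖ ≤
      A.K * (Bw A.h (uf M (f y)) + ∑ β, ‖Dc (A.y β ∘ f) y / Dc (uf M ∘ f) y‖ /
        (1 + ‖A.y β (f y)‖ ^ 2)) ^ A.k := by
  have := A.c1 (f ∘ (chartAt ℂ y).symm) (zc y y) ⟨hf y, by rwa [comp_symm], h2⟩ i
  rw [Yv, comp_symm] at this
  exact this

end PoYP

theorem sPoY (h1 : SPoB) (h2 : SSph) (h3 : SBw) (h4 : SDegB) : SPoY := by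
  intro X _ S L L'' M A z hL
  have per : ∀ p ∈ L''.lattice, ∀ w ∈ z.N₀, w + p ∈ z.N₀ := fun p hp w => (z.per p (hL hp) w).2
  obtain ⟨⟨k₀, b0⟩, b1⟩ := h3 L'' z.N₀ per z.disc
  have an : ∀ w ∉ z.N₀, AnalyticAt ℂ L.weierstrassP w := fun w hw =>
    L.analyticOnNhd_weierstrassP _ (z.off w hw).1
  obtain ⟨k₁, c1⟩ := b1 L.weierstrassP L.meromorphic_weierstrassP
    (fun p hp w => L.weierstrassP_add_coe w ⟨p, hL hp⟩) an
  obtain ⟨k₂, c2⟩ := b1 (fun w => (A.h.eval (L.weierstrassP w))⁻¹)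
    (fun w => (PoYP.mer_eval L.meromorphic_weierstrassP A.h w).fun_inv)
    (fun p hp w => by rw [L.weierstrassP_add_coe w ⟨p, hL hp⟩]) fun w hw =>
      ((A.h.differentiable.analyticAt _).comp (an w hw)).inv (z.off w hw).2.2.1
  obtain ⟨k₃, c3⟩ := b1 (fun w => (L.derivWeierstrassP w)⁻¹)
    (fun w => (L.meromorphic_derivWeierstrassP w).fun_inv)
    (fun p hp w => by rw [L.derivWeierstrassP_add_coe w ⟨p, hL hp⟩]) fun w hw =>
      (L.analyticOnNhd_derivWeierstrassP _ (z.off w hw).1).inv (z.off w hw).2.1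
  refine ⟨k₁ + A.k * (k₁ + k₂ + (k₃ + 1)), fun C _ _ _ B f hf ho h0 => ?_⟩
  have hB := h4 L'' C B
  have bw := (b0 C B).2.1
  have mu : Me (uf M ∘ f) := hf.me ((lq_f M M.iu).mono A.sub) h0
  have mx : Me (xf M ∘ f) := hf.me ((lq_f M M.ix).mono A.sub) h0
  have off : ∀ c, ∀ᶠ y in 𝓝[≠] c, f y ∉ A.Z := cof_iff.1 h0
  have p1 : ∀ c, po (uf M ∘ f) c ≤ k₁ * B.bw z.N₀ c := fun c => by
    rw [po_congr (u := uf M ∘ f) (v := B.pb L.weierstrassP)
      ((off c).mono fun y hy => (u_pb M ho fun a => hy (A.sub a)).2)]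
    exact (c1 C B c).2
  have e2 : ∀ c, B.pb (fun w => (A.h.eval (L.weierstrassP w))⁻¹) =ᶠ[𝓝[≠] c]
      fun y => (A.h.eval (uf M (f y)))⁻¹ := fun c => (off c).mono fun y hy => by
    beta_reduce
    rw [(u_pb M ho fun a => hy (A.sub a)).2]
    rfl
  have e3 : ∀ c, (fun y => B.pb (fun w => (L.derivWeierstrassP w)⁻¹) y * (fm B.w c y)⁻¹)
      =ᶠ[𝓝[≠] c] fun y => (fm (Dc (uf M ∘ f)) c y)⁻¹ := fun c => (off c).mono fun y hy => by
    beta_reduce
    rw [fm, fm, D_u M hL hf ho fun a => hy (A.sub a), mul_div_assoc, mul_inv]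
    rfl
  have p3 : ∀ c, po (fun y => (fm (Dc (uf M ∘ f)) c y)⁻¹) c ≤ (k₃ + 1) * B.bw z.N₀ c :=
    fun c => by
      have a1 := po_mul_le (c3 C B c).1 (meF_of_om hB.om c).inv
      have a2 : ze (fm B.w c) c = max (B.e c - 1) 0 := by rw [← hB.odf c]; rfl
      rw [po_congr (e3 c), po_inv, po_inv, a2, max_eq_left (sub_nonneg.2 (hB.one_le c))] at a1
      rw [po_inv]
      nlinarith [(c3 C B c).2, (bw c).1]
  have du : ∀ c, ∀ᶠ y in 𝓝[≠] c, Dc (uf M ∘ f) y ≠ 0 := fun c => by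
    filter_upwards [off c, cof_iff.1 (cof_notMem B per z.disc) c, hB.nz.ne c] with y a1 a2 a3
    rw [D_u M hL hf ho fun a => a1 (A.sub a)]
    exact mul_ne_zero (z.off _ a2).2.1 a3
  have key : ∀ i c (F : C → ℂ), Mr F c →
      (∀ y, ‖F y‖ ≤ (1 + ‖A.χ (f y)‖) * ‖YC M A.d (A.cf i) f y‖) →
      po F c ≤ ((k₁ + A.k * (k₁ + k₂ + (k₃ + 1)) : ℕ) : ℤ) * B.bw z.N₀ c := by
    intro i c F a1 a2
    choose K hK using fun β => h2 C (A.y β ∘ f) c (hf.me (A.ly β) h0 c)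
    have a3 := h1 C (Fin 3) F ![uf M ∘ f, fun y => (A.h.eval (uf M (f y)))⁻¹,
      fun y => (fm (Dc (uf M ∘ f)) c y)⁻¹] c (A.K * (1 + ∑ β, |K β|) ^ A.k) A.k a1
      (by
        intro j
        fin_cases j
        exacts [mu c, (c2 C B c).1.congr (e2 c), (mu.meF_D c).inv])
      (by
        filter_upwards [off c, du c, eventually_all.2 hK, eventually_all.2 fun β =>
          div_eq_fm (w := Dc (A.y β ∘ f)) (v := Dc (uf M ∘ f)) (c := c)] with y d1 d2 d3 d4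
        refine (a2 y).trans ((PoYP.c1 A hf d1 d2 i).trans ?_)
        rw [mul_assoc, ← mul_pow]
        refine mul_le_mul_of_nonneg_left (pow_le_pow_left₀ ?_ ?_ _) A.K_nonneg
        · rw [Bw]; positivity
        · have := PoYP.base (norm_nonneg (uf M (f y))) (norm_nonneg (A.h.eval (uf M (f y)))⁻¹)
            (norm_nonneg (fm (Dc (uf M ∘ f)) c y)⁻¹) (fun β => by positivity) d3
          simp only [← d4, Bw, Fin.sum_univ_three, div_eq_mul_inv (fm _ c y), norm_mul,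
            ← norm_inv]
          exact this)
    rw [Fin.sum_univ_three] at a3
    have a4 : po (fun y => (A.h.eval (uf M (f y)))⁻¹) c ≤ k₂ * B.bw z.N₀ c :=
      po_congr (e2 c) ▸ (c2 C B c).2
    have a5 := mul_le_mul_of_nonneg_left (add_le_add (add_le_add (p1 c) a4) (p3 c))
      (Int.natCast_nonneg A.k)
    have a6 := mul_nonneg (Int.natCast_nonneg k₁) (bw c).2
    refine (a3.trans a5).trans ?_
    push_cast
    linarith
  refine ⟨fun c => (p1 c).trans (mul_le_mul_of_nonneg_right ?_ (bw c).2), fun i => ?_⟩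
  · exact_mod_cast Nat.le_add_right _ _
  have mY : Me (YC M A.d (A.cf i) f) := fun c =>
    mr_sum fun j _ => (hf.me (A.lcf i j) h0 c).mul ((mx.meF_D.div mu.meF_D c).pow j)
  refine ⟨mY, fun c => ⟨key i c _ (mY c) fun y => ?_,
    key i c _ ((hf.me A.lχ h0 c).mul (mY c)) fun y => ?_⟩⟩
  · exact le_mul_of_one_le_left (norm_nonneg _) (le_add_of_nonneg_right (norm_nonneg _))
  · rw [norm_mul]
    exact mul_le_mul_of_nonneg_right (le_add_of_nonneg_left zero_le_one) (norm_nonneg _)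

end Pool.Agent.P.MP_7ede32_ag.Bnd
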