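import Pool.Agent.P.MP_7ede32_ag.Bnd.DY
import Pool.Agent.P.MP_7ede32_ag.Bnd.XT

/-!
The data near the periodic sections.
-/

open Filter Topology Metric Set

noncomputable section

namespace Pool.Agent.P.MP_7ede32_ag.Bnd

open Full Geo

namespace QDP

variable {X : Type} [MetricSpace X] {S : Sf0 X} {L : PeriodPair}

theorem O_ne (σ : Su S L) : ∃ w, w ∈ σ.O := by
  obtain ⟨c, hc⟩ := S.Λ.mkQ_surjective σ.s₀
  have hc' : c ∈ σ.C.Bt := by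
    change S.Λ.mkQ c ∈ σ.C.B
    rw [hc]; exact σ.C.mem
  have h0 := σ.sep.1
  have h1 : dist (c + (2 * σ.δ : ℝ)) c = 2 * σ.δ := by
    rw [dist_self_add_left, Complex.norm_real, Real.norm_of_nonneg (by linarith)]
  refine ⟨c + (2 * σ.δ : ℝ), σ.O_iff.2 fun c' h => ?_⟩
  rcases eq_or_ne c c' with rfl | h3
  · linarith
  · linarith [σ.sep.2.2 c hc' c' h h3, dist_triangle_left c c' (c + (2 * σ.δ : ℝ))]

/-- the polynomial `v - y` -/
def lin (y : ℂ) : MvPolynomial (Fin 2) ℂ := MvPolynomial.X 1 - MvPolynomial.C y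

theorem ev_lin (y u v : ℂ) : ev2 (lin y) u v = v - y := by simp [ev2, lin]

theorem lin_ne (y : ℂ) : lin y ≠ 0 := fun h => by
  have h1 := ev_lin y 0 (y + 1)
  rw [h] at h1
  simp [ev2] at h1

theorem ev_mul (P Q : MvPolynomial (Fin 2) ℂ) (u v : ℂ) :
    ev2 (P * Q) u v = ev2 P u v * ev2 Q u v := map_mul _ _ _

theorem small {Z : Set X} {ξ : X → ℂ} {q : ℂ → X} {w : ℂ} (hZ : Cz S Z)
    (hq : ∀ᶠ s in 𝓝 w, S.HolAt q s) (h : GdZ S Z ξ (q w)) :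
    ∀ᶠ η in 𝓝[>] (0 : ℝ), ∀ᶠ s in 𝓝 w, ∀ y ∉ Z, dist (q s) y ≤ η → ‖ξ y‖ ≤ η⁻¹ := by
  obtain ⟨a1, a2⟩ := gd_loc hZ hq h
  obtain ⟨η, a3, a4⟩ := a2 1 one_pos
  have h0 : 0 < ‖extZ Z ξ (q w)‖ + 2 := by positivity
  filter_upwards [Ioc_mem_nhdsGT a3, Ioc_mem_nhdsGT (inv_pos.2 h0)] with η' b1 b2
  filter_upwards [a4, a1.continuousAt.norm.eventually (gt_mem_nhds (lt_add_one _))]
    with s c1 c2 y c3 c4
  have h1 := c1 y c3 (c4.trans b1.2)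
  have h2 := (le_inv_comm₀ b1.1 h0).1 b2.2
  have h3 := norm_le_norm_add_norm_sub' (ξ y) (extZ Z ξ (q s))
  linarith

end QDP

open QDP

theorem sQD (h1 : SZf) (h2 : SY0) (h3 : SVO) (h4 : SOdT) (h5 : SQE) : SQD := by
  classical
  intro X _ S L σ M A
  obtain ⟨z⟩ := h1 L A.h A.H A.K A.k A.N A.h_ne A.H_ne A.K_nonneg A.N_pos
  have nz : ∀ y, NzX A.Z fun p => A.χ p - y := fun y => by
    simpa only [ev_lin] using A.ind _ (lin_ne y)
  have fin := z.fin.union (σ.reps.1.biUnion fun q hq =>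
    ((h2 X S L σ A.Z A.χ A.cz A.lχ q hq).2 nz).finite)
  obtain ⟨y₀, hy⟩ := fin.exists_notMem
  simp only [mem_union, mem_iUnion, not_or, not_exists, mem_ofPred_eq, not_not] at hy
  obtain ⟨ε₀, hε, K', hK⟩ := z.ab y₀ hy.1
  set f : (ℂ → X) → ℂ → ℂ := fun q w => extZ A.Z (fun p => (A.χ p - y₀)⁻¹) (q w) with hf
  have hH : ∀ q : ℂ → X, ∃ H : MvPolynomial (Fin 2) ℂ, H ≠ 0 ∧ (σ.Alg (f q) → ∃ w ∈ σ.O,
      ∀ᶠ w' in 𝓝[≠] w, ev2 H (L.weierstrassP w') (f q w') = 0) := fun q => by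
    by_cases h : σ.Alg (f q)
    · exact h.imp fun H a => ⟨a.1, fun _ => a.2⟩
    · exact ⟨1, one_ne_zero, fun a => (h a).elim⟩
  choose H H0 H1 using hH
  set HG := ∏ q ∈ σ.reps.1.toFinset, H q with hHG
  have HG0 : HG ≠ 0 := Finset.prod_ne_zero_iff.2 fun q _ => H0 q
  set G : X → ℂ := fun p => ev2 HG (uf M p) (A.χ p - y₀)⁻¹ with hG
  have l0 := A.lχ.sub (lq_const y₀)
  have c1 := cz_zero A.cz l0 (nz y₀)
  set Z₁ := A.Z ∪ {y | A.χ y - y₀ = 0} with hZ₁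
  have lG : Lq S Z₁ G := ((lq_f M M.iu).mono (A.sub.trans subset_union_left)).ev2
    ((l0.mono subset_union_left).inv fun y a b => a (Or.inr b)) HG
  have nG : NzX Z₁ G := fun x => by
    obtain ⟨P, d, a1, a2⟩ := exists_clear HG HG0 y₀
    refine (A.ind _ (mul_ne_zero a1 (lin_ne y₀)) x).mono fun y b => ?_
    obtain ⟨b1, b2⟩ := b
    simp only [ev_mul, ev_lin] at b2
    have b3 := right_ne_zero_of_mul b2
    have b4 := left_ne_zero_of_mul b2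
    rw [a2 _ _ (sub_ne_zero.1 b3)] at b4
    exact ⟨fun c => c.elim b1 b3, right_ne_zero_of_mul b4⟩
  have c2 := cz_zero c1 lG nG
  set Z := Z₁ ∪ {y | G y = 0} with hZ
  have sub : A.Z ⊆ Z := subset_union_left.trans subset_union_left
  have G0 : ∀ p ∉ Z, G p ≠ 0 := fun p a b => a (Or.inr b)
  have hol : ∀ q ∈ σ.T, ∀ w ∈ σ.O, ∀ᶠ s in 𝓝 w, S.HolAt q s := fun q hq w hw =>
    (σ.sec hq hw).mono fun _ a => a.1
  have gd : ∀ q ∈ σ.T, Gen σ.O fun w => GdZ S Z G (q w) ∧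
      extZ Z G (q w) = ev2 HG (L.weierstrassP w) (f q w) := fun q hq w hw => by
    filter_upwards [hy.2 q hq w hw, z.disc w, mem_nhdsWithin_of_mem_nhds (σ.sec hq hw)]
      with w' a1 a2 a3
    obtain ⟨b1, b2⟩ := gd_u M c2 (A.sub.trans sub) a3.2 (z.off w' a2).1
    obtain ⟨b3, b4⟩ := b1.ev2 (a1.mono sub) c2 HG
    rw [b2, a1.ext_mono A.cz c2 sub] at b4
    exact ⟨b3, b4⟩
  have one : ∀ q ∈ σ.T, ∃ (a b : ℕ) (ε : Fin A.nb → Bool) (e : ℂ → ℂ), 0 < b ∧ σ.Pr e ∧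
      (0 < a ∨ ¬ σ.Alg (f q)) ∧ Gen σ.O fun w => AnalyticAt ℂ e w ∧ AnalyticAt ℂ (f q) w ∧
        e w ≠ 0 ∧ (∃ η > 0, ∀ᶠ w' in 𝓝 w, σ.QE Z q G a b e η w' ∧
          QY Z q (fun β p => sg (ε β) (A.y β p)) η w') ∧
        ∀ ε > 0, ∃ η > 0, ∀ᶠ w' in 𝓝 w, QB Z q (fun p => (A.χ p - y₀)⁻¹) (f q) ε η w' := by
    intro q hq
    obtain ⟨a, b, od⟩ := h3 X S L σ Z G c2 (lG.mono subset_union_left) (nzX_of_ne c2 G0) q hq
    obtain ⟨-, -, -, sgn⟩ := h4 X S L σ Z G a b c2 q hq od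
    obtain ⟨w₀, hw₀⟩ := O_ne σ
    have a0 : 0 ≤ a := (sgn w₀ hw₀).1 ((gd q hq w₀ hw₀).mono fun _ c => c.1)
    have a1 : σ.Alg (f q) → 0 < a := fun h => by
      obtain ⟨w, hw, h6⟩ := H1 q h
      refine (sgn w hw).2 ?_
      filter_upwards [gd q hq w hw, h6] with w' b1 b2
      refine ⟨b1.1, b1.2.trans ?_⟩
      obtain ⟨R, hR⟩ := Finset.dvd_prod_of_mem H (σ.reps.1.mem_toFinset.2 hq)
      rw [hHG, hR, ev_mul, b2, zero_mul]
    lift a to ℕ using a0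
    obtain ⟨e, e1, e2⟩ := h5 X S L σ Z G a b c2 G0 q hq od
    choose ε hε using fun β => (h2 X S L σ A.Z (A.y β) A.cz (A.ly β) q hq).1
      (nzX_of_ne A.cz fun p hp => (A.off p hp).2.2 β)
    refine ⟨a, b, ε, e, od.1, e1, ?_, fun w hw => ?_⟩
    · by_cases h : σ.Alg (f q)
      · exact Or.inl (by exact_mod_cast a1 h)
      · exact Or.inr h
    filter_upwards [e2 w hw, hy.2 q hq w hw, eventually_all.2 fun β => hε β w hw,
      mem_nhdsWithin_of_mem_nhds (σ.isOpen_O.mem_nhds hw)] with w' b1 b2 b3 b4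
    obtain ⟨b5, b6, η, b7, b8⟩ := b1
    obtain ⟨d1, d2⟩ := gd_loc A.cz (hol q hq w' b4) b2
    refine ⟨b5, d1, b6, ?_, fun ε' h => ?_⟩
    · obtain ⟨η', d3, d4⟩ := ((eventually_all.2 fun β =>
        small A.cz (hol q hq w' b4) (b3 β)).and (Ioc_mem_nhdsGT b7)).exists
      refine ⟨η', d4.1, ?_⟩
      filter_upwards [b8, eventually_all.2 d3] with s g1 g2
      exact ⟨fun y k1 k2 k3 => g1 y k1 k2 (k3.trans d4.2),
        fun y k1 k2 β => g2 β y (fun k3 => k1 (sub k3)) k2⟩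
    · obtain ⟨η', d3, d4⟩ := d2 ε' h
      exact ⟨η', d3, d4.mono fun s g y k1 k2 => g y (fun k3 => k1 (sub k3)) k2⟩
  choose! a b ε e p1 p2 p3 p4 using one
  exact ⟨{
    A := A, z := z, y₀ := y₀, ε₀ := ε₀, K' := K', HG := HG, Z := Z, a := a, b := b, ε := ε
    e := e, f := f, ε₀_pos := hε, ab := hK, sub := sub, cz := c2
    off := fun p hp => ⟨fun h => hp (Or.inl (Or.inr (sub_eq_zero.2 h))), G0 p hp⟩
    b_pos := p1
    per := fun q hq => ⟨p2 q hq, fun p hp w hw =>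
      congrArg (extZ A.Z _) (σ.per q hq p hp w (σ.O_sub hw))⟩
    gen := p4
    alt := p3 }⟩

end Pool.Agent.P.MP_7ede32_ag.Bnd
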