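import Pool.Agent.P.MP_7ede32_ag.Bnd.DY
import Pool.Agent.P.MP_7ede32_ag.Bnd.XT
import Pool.Agent.P.MP_7ede32_ag.Full.Shad2
import Pool.Agent.P.MP_7ede32_ag.Geo.Equi

/-!
Bounds along a section that is close to a periodic section, and sections over large discs.
-/

open Filter Topology Metric Set
open scoped Polynomial

noncomputable section

namespace Pool.Agent.P.MP_7ede32_ag.Bnd

open Full Geo

namespace S1P

/-- the spherical derivative is bounded by the derivative of `y` or of its inverse -/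
theorem sph_le {y : ℂ → ℂ} {z : ℂ} (b : Bool) (hy : AnalyticAt ℂ y z) (h0 : y z ≠ 0) :
    ‖deriv y z‖ / (1 + ‖y z‖ ^ 2) ≤ ‖deriv (fun w => sg b (y w)) z‖ := by
  cases b
  · have h1 : deriv (fun w => sg false (y w)) z = -deriv y z / y z ^ 2 :=
      (hy.differentiableAt.hasDerivAt.inv h0).deriv
    rw [h1, norm_div, norm_neg, norm_pow]
    have h2 : 0 < ‖y z‖ ^ 2 := by positivity
    exact div_le_div_of_nonneg_left (norm_nonneg _) h2 (by linarith)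
  · exact div_le_self (norm_nonneg _) (by nlinarith [sq_nonneg ‖y z‖])

variable {X : Type} [MetricSpace X] {S : Sf0 X}

theorem lq_sg {Z : Set X} {ξ : X → ℂ} (b : Bool) (h : Lq S Z ξ) (h0 : ∀ y ∉ Z, ξ y ≠ 0) :
    Lq S Z fun p => sg b (ξ p) := by
  cases b
  · exact h.inv h0
  · exact h

theorem bw_nonneg (h : ℂ[X]) (u : ℂ) : 0 ≤ Bw h u := by unfold Bw; positivity

theorem R₀_nonneg {L : PeriodPair} {D : Discs} {P : Set ℂ} {R₀ : ℝ} (h : Tile L D P R₀) :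
    0 ≤ R₀ := by
  obtain ⟨w, hw, -⟩ := h.uniq 0
  exact dist_nonneg.trans (mem_closedBall.1 (h.sub hw.1))

end S1P

open S1P

theorem sS1 : SS1 := by
  intro X _ S L L'' σ M g u
  have hη := u.η_pos
  have hθ := u.D.θ_pos
  have hδ := σ.sep.1
  obtain ⟨η₁, hη₁, huni⟩ := u.uni 1 one_pos
  set B₀ : ℝ := u.η⁻¹ + g.A.nb * (2 * u.η⁻¹ / (u.D.θ / 2) / u.η) with hB₀
  have hK0 : 0 ≤ g.A.K * B₀ ^ g.A.k := mul_nonneg g.A.K_nonneg (by positivity)
  have hi : 0 < u.η⁻¹ := inv_pos.2 hη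
  refine ⟨1 + u.η⁻¹ + g.A.K * B₀ ^ g.A.k, ⟨by linarith, fun w hw => ?_⟩, min u.η η₁,
    lt_min hη hη₁, fun q hq γ hγ z hz => ?_⟩
  · have h1 := (u.sub w (u.D.Go_subset_G hw)).2.2.2.2
    calc (1 : ℝ) = u.η⁻¹ * u.η := (inv_mul_cancel₀ hη.ne').symm
      _ ≤ _ := mul_le_mul (by linarith) h1 hη.le (by linarith)
  have hsub : ∀ w ∈ ball z u.D.θ, w ∈ ball (0 : ℂ) u.R₁ ∧ w ∈ u.D.G (-(2 * u.D.θ)) := by
    intro w hw
    refine ⟨?_, fun c hc => ?_⟩
    · have := dist_triangle w z 0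
      rw [mem_ball, Ug.R₁]
      linarith [mem_ball.1 hw, mem_ball.1 hz.1]
    · linarith [hz.2 c hc, dist_triangle_left z c w, mem_ball.1 hw]
  have hol : ∀ w ∈ ball (0 : ℂ) u.R₁, ∀ᶠ s in 𝓝 w, S.HolAt γ s ∧ S.π (γ s) = S.Λ.mkQ s := by
    intro w hw
    filter_upwards [isOpen_ball.mem_nhds hw] with s hs
    simpa using hγ.sec s hs
  have near : ∀ w ∈ ball z u.D.θ, dist (q w) (γ w) ≤ min u.η η₁ := fun w hw =>
    hγ.near w ⟨(hsub w hw).1, interior_subset (u.sub w (hsub w hw).2).1⟩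
  filter_upwards [hγ.off z (hsub z (mem_ball_self hθ)).1,
    mem_nhdsWithin_of_mem_nhds (ball_mem_nhds z (half_pos hθ))] with z' hZ hz'
  have hb : ball z' (u.D.θ / 2) ⊆ ball z u.D.θ := fun w hw => by
    rw [mem_ball]
    linarith [dist_triangle w z' z, mem_ball.1 hw, mem_ball.1 hz']
  have hz1 : z' ∈ ball z u.D.θ := hb (mem_ball_self (half_pos hθ))
  have hA : γ z' ∉ g.A.Z := fun h => hZ (g.sub h)
  obtain ⟨-, hu1, hu2⟩ := u_sec M (hol z' (hsub z' hz1).1) fun h => hA (g.A.sub h)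
  obtain ⟨-, -, s1, s2, -⟩ := u.sub z' (hsub z' hz1).2
  obtain ⟨-, -, -, q1, -, -⟩ := u.qe q hq z' (hsub z' hz1).2
  have hH : ∀ᶠ s in 𝓝 z', S.HolAt γ s := (hol z' (hsub z' hz1).1).mono fun _ h => h.1
  have hok : Ok M g.A.Z γ z' := ⟨hH, hA, by
    rw [hu2]; exact norm_pos_iff.1 (hη.trans_le s1)⟩
  constructor
  · intro i
    have hβ : ∀ β, ‖sl M (g.A.y β) γ z'‖ / (1 + ‖g.A.y β (γ z')‖ ^ 2) ≤
        2 * u.η⁻¹ / (u.D.θ / 2) / u.η := by
      intro β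
      have l0 : ∀ p ∉ g.A.Z, g.A.y β p ≠ 0 := fun p hp => (g.A.off p hp).2.2 β
      have l1 : Lq S g.Z fun p => sg (g.ε q β) (g.A.y β p) :=
        (lq_sg _ (g.A.ly β) l0).mono g.sub
      have l2 := deriv_le_of_mero (m := (fun p => sg (g.ε q β) (g.A.y β p)) ∘ γ) (K := u.η⁻¹)
        (half_pos hθ)
        (fun w hw => l1.mero ((hol w (hsub w (hb hw)).1).mono fun _ h => h.1)
          (hγ.off w (hsub w (hb hw)).1))
        (anAt_comp (l1.anAt g.cz hZ) hH)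
        (fun w hw => by
          filter_upwards [hγ.off w (hsub w (hb hw)).1,
            mem_nhdsWithin_of_mem_nhds (isOpen_ball.mem_nhds hw)] with w' a1 a2
          exact (u.qe q hq w' (hsub w' (hb a2)).2).2.2.2.2.2 _ a1
            ((near w' (hb a2)).trans (min_le_left _ _)) β)
      have l3 := sph_le (y := g.A.y β ∘ γ) (g.ε q β)
        (anAt_comp ((g.A.ly β).anAt g.A.cz hA) hH) (l0 _ hA)
      rw [sl, hu2, norm_div, div_right_comm]
      exact div_le_div₀ (by positivity) (l3.trans l2) hη s1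
    have hu : uf M (γ z') = L.weierstrassP z' := hu1.self_of_nhds
    have hs : Bw g.A.h (uf M (γ z')) +
        ∑ β, ‖sl M (g.A.y β) γ z'‖ / (1 + ‖g.A.y β (γ z')‖ ^ 2) ≤ B₀ := by
      rw [hu]
      refine add_le_add s2 ((Finset.sum_le_sum fun β _ => hβ β).trans_eq ?_)
      simp
    refine (g.A.c1 γ z' hok i).trans (le_trans ?_ (le_add_of_nonneg_left (by linarith)))
    exact mul_le_mul_of_nonneg_left (pow_le_pow_left₀ (add_nonneg (bw_nonneg _ _)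
      (Finset.sum_nonneg fun β _ => by positivity)) hs _) g.A.K_nonneg
  · have h1 := huni q hq z' (hsub z' hz1).2 _ hZ ((near z' hz1).trans (min_le_right _ _))
    have h2 : 0 < ‖g.A.χ (γ z') - g.y₀‖ := norm_pos_iff.2 (sub_ne_zero.2 (g.off _ hZ).1)
    have h3 : ‖g.A.χ (γ z') - g.y₀‖⁻¹ ≤ 1 + u.η⁻¹ := by
      rw [← norm_inv]
      linarith [norm_sub_norm_le (g.A.χ (γ z') - g.y₀)⁻¹ (g.f q z')]
    calc (1 : ℝ) = ‖g.A.χ (γ z') - g.y₀‖⁻¹ * ‖g.A.χ (γ z') - g.y₀‖ :=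
          (inv_mul_cancel₀ h2.ne').symm
      _ ≤ _ := mul_le_mul_of_nonneg_right (by linarith) h2.le

theorem sShp (h1 : SS1) (h2 : SS2) (h3 : SS3) : SShp := by
  intro X _ _ S L L'' σ M g u
  obtain ⟨K₁, hK, ε₁, e1, a1⟩ := h1 X S L L'' σ M g u
  obtain ⟨ε₂, e2, a2⟩ := h2 X S L L'' σ M g u
  refine ⟨K₁, hK, fun M₀ => ?_⟩
  obtain ⟨ε₃, e3, a3⟩ := h3 X S L L'' σ M g u M₀
  obtain ⟨R', hR'⟩ := sShad2 (slim sequi) X S σ.s₀ σ.C σ.δ σ.T σ.sep σ.reps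
    (min ε₁ (min ε₂ ε₃)) (lt_min e1 (lt_min e2 e3))
  have hθ := u.D.θ_pos
  have hδ := σ.sep.1
  have h0 := R₀_nonneg u.tile
  have hm := le_max_right R' 0
  have hR : u.R₀ + 1 ≤ u.R₁ := by rw [Ug.R₁]; linarith
  refine ⟨u.R₁ + max R' 0, by linarith, fun γ hγ hZ => ?_⟩
  have hs : ball (0 : ℂ) u.R₁ ⊆ ball 0 (u.R₁ + max R' 0) := ball_subset_ball (by linarith)
  obtain ⟨q, hq, hn⟩ := hR' γ _ (ball 0 u.R₁) hγ (isConnected_ball (by linarith))
    fun w hw z hz => by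
      rw [mem_ball]
      linarith [dist_triangle z w 0, mem_ball.1 hw, mem_ball.1 hz, le_max_left R' 0]
  have hc : ∀ ε, min ε₁ (min ε₂ ε₃) ≤ ε → σ.Cl g.Z q γ u.R₁ ε := fun ε hε =>
    ⟨fun w hw => hγ w (hs hw), fun w hw => hZ w (hs hw), fun w hw => (hn w hw).trans hε⟩
  have b2 := a2 q hq γ (hc _ ((min_le_right _ _).trans (min_le_left _ _)))
  refine ⟨a1 q hq γ (hc _ (min_le_left _ _)), b2.1, (g.alt q hq).imp b2.2 fun h => ?_⟩
  exact a3 q hq h γ (hc _ ((min_le_right _ _).trans (min_le_right _ _)))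

end Pool.Agent.P.MP_7ede32_ag.Bnd
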