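import Pool.Agent.P.MP_7ede32_ag.Bnd.DP

/-!
The degree on a tile.
-/

open Filter Topology Metric Set
open scoped Real

noncomputable section

namespace Pool.Agent.P.MP_7ede32_ag.Bnd

open Full

namespace TileSP

theorem ord_zero {m e : ℂ → ℂ} {w : ℂ} (he : ContinuousAt e w) (h0 : e w ≠ 0)
    (h : ∀ᶠ w' in 𝓝[≠] w, ‖m w' - e w'‖ ≤ ‖e w'‖ / 2) : ord m w = 0 := by
  have te : Tendsto e (𝓝[≠] w) (𝓝 (e w)) := he.continuousWithinAt.tendsto
  have p := norm_pos_iff.2 h0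
  rcases lt_trichotomy (meromorphicOrderAt m w) 0 with a | a | a
  · have t := tendsto_norm_cobounded_atTop.comp (tendsto_cobounded_of_meromorphicOrderAt_neg a)
    obtain ⟨z, z1, z2, z3⟩ := (h.and ((t.eventually_gt_atTop (3 * ‖e w‖)).and
      (te.norm.eventually_lt_const (show ‖e w‖ < 2 * ‖e w‖ by linarith)))).exists
    have := norm_sub_norm_le (m z) (e z)
    simp only [Function.comp] at z2
    linarith
  · simp [ord, a]
  · have := le_of_tendsto_of_tendsto ((tendsto_zero_of_meromorphicOrderAt_pos a).sub te).norm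
      (te.norm.div_const 2) h
    simp only [zero_sub, norm_neg] at this
    linarith

theorem fin_supp {Q : ℂ → ℂ} {R : ℝ} {P : Set ℂ} (hQ : MeromorphicOn Q (ball 0 (R + 1)))
    (hP : P ⊆ closedBall 0 R) : (P ∩ Function.support (ord Q)).Finite := by
  have h : MeromorphicOn Q (closedBall 0 R) := fun z hz =>
    hQ z (closedBall_subset_ball (by linarith) hz)
  refine ((MeromorphicOn.divisor Q (closedBall 0 R)).finiteSupport
    (isCompact_closedBall 0 R)).subset fun z hz => ?_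
  rw [Function.mem_support, MeromorphicOn.divisor_apply h (hP hz.1)]
  exact hz.2

theorem fin_C (D : Discs) (R : ℝ) : (D.C ∩ closedBall 0 R).Finite := by
  obtain ⟨t, ht, h⟩ := Metric.totallyBounded_iff.1 (isCompact_closedBall (0 : ℂ) R).totallyBounded
    D.θ D.θ_pos
  refine (ht.biUnion (t := fun y => D.C ∩ ball y D.θ) fun y _ => Set.Subsingleton.finite
    fun a ha b hb => ?_).subset fun c hc => ?_
  · by_contra n
    linarith [D.sep a ha.1 b hb.1 n, D.le_r a ha.1, D.le_r b hb.1, mem_ball.1 ha.2,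
      mem_ball.1 hb.2, dist_triangle_right a b y, D.θ_pos]
  · obtain ⟨y, y1, y2⟩ := mem_iUnion₂.1 (h hc.2)
    exact mem_iUnion₂.2 ⟨y, y1, hc.1, y2⟩

theorem perOn_logDeriv {L : PeriodPair} {D : Discs} {e : ℂ → ℂ} (he : PerOn L D e)
    (h0 : ∀ w ∈ D.Go, e w ≠ 0) : PerOn L D (logDeriv e) := fun w hw => by
  refine ⟨(he w hw).1.deriv.div (he w hw).1 (h0 w hw), fun p hp => ?_⟩
  have : (fun z => e (z + p)) =ᶠ[𝓝 w] e :=
    mem_of_superset (D.isOpen_Go.mem_nhds hw) fun z hz => (he z hz).2 p hp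
  rw [logDeriv_apply, logDeriv_apply, (he w hw).2 p hp, ← this.deriv_eq, deriv_comp_add_const]

end TileSP

open TileSP

theorem sTileS (h1 : SRou) (h2 : SWind0) : STileS := by
  intro L D P R₀ T Q Θ e hQ hΘ he h0 hcl
  have θ0 := D.θ_pos
  have PB : P ⊆ ball 0 (R₀ + 1) := T.sub.trans (closedBall_subset_ball (by linarith))
  have GG : D.G 0 ⊆ D.G (-D.θ) := fun w hw c hc => by linarith [hw c hc]
  have GO : D.G (-D.θ) ⊆ D.Go := fun w hw c hc => by linarith [hw c hc]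
  obtain ⟨w₀, p₀, g₀⟩ : ∃ w ∈ P, w ∈ D.G 0 := by
    obtain ⟨w, hw⟩ : ∃ w, w ∈ D.G 0 := by
      by_cases n : ∃ c, c ∈ D.C
      · obtain ⟨c, hc⟩ := n
        have e : dist (c + D.r c) c = D.r c := by
          simp [abs_of_nonneg (show 0 ≤ D.r c by linarith [D.le_r c hc])]
        exact ⟨c + D.r c, D.mem_G hc (by linarith) (by linarith)⟩
      · exact ⟨0, fun c hc => absurd ⟨c, hc⟩ n⟩
    obtain ⟨w', ⟨a, b⟩, -⟩ := T.uniq w
    refine ⟨w', a, fun c hc => ?_⟩
    obtain ⟨c1, c2⟩ := T.per _ b c hc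
    have := hw _ c1
    rw [c2, dist_eq_norm] at this
    rw [dist_eq_norm]
    convert this using 2
    ring
  have nt : ∀ {f : ℂ → ℂ}, MeromorphicOn f (ball 0 (R₀ + 1)) → (∀ᶠ w' in 𝓝[≠] w₀, f w' ≠ 0) →
      ∀ w ∈ ball 0 (R₀ + 1), meromorphicOrderAt f w ≠ ⊤ := fun hf h w hw =>
    hf.meromorphicOrderAt_ne_top_of_isPreconnected (convex_ball _ _).isPreconnected (PB p₀) hw
      ((meromorphicOrderAt_ne_top_iff_eventually_ne_zero (hf _ (PB p₀))).2 h)
  have c₀ := hcl w₀ ⟨PB p₀, GG g₀⟩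
  have nΘ := nt hΘ (c₀.mono fun _ h => h.1)
  have nQ := nt hQ (by
    filter_upwards [c₀, mem_nhdsWithin_of_mem_nhds (D.isOpen_Go.mem_nhds (D.G_subset_Go g₀))]
      with z a b q
    have := norm_pos_iff.2 (mul_ne_zero (h0 z b) a.1)
    have := a.2
    rw [q, zero_sub, norm_neg] at this
    linarith)
  refine ⟨fun w hw => ⟨(meromorphicOrderAt_ne_top_iff_eventually_ne_zero (hQ w hw)).1 (nQ w hw),
    (meromorphicOrderAt_ne_top_iff_eventually_ne_zero (hΘ w hw)).1 (nΘ w hw)⟩, ?_⟩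
  have hm : MeromorphicOn (Q / Θ) (ball 0 (R₀ + 1)) := hQ.div hΘ
  have om : ∀ w ∈ P, ord Q w = ord (Q / Θ) w + ord Θ w := fun w hw => by
    simp only [ord]
    rw [meromorphicOrderAt_div (hQ w (PB hw)) (hΘ w (PB hw))]
    obtain ⟨a, ha⟩ := WithTop.ne_top_iff_exists.1 (nQ w (PB hw))
    obtain ⟨b, hb⟩ := WithTop.ne_top_iff_exists.1 (nΘ w (PB hw))
    rw [← ha, ← hb, ← WithTop.LinearOrderedAddCommGroup.coe_sub]
    simp only [WithTop.untop₀_coe, sub_add_cancel]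
  have cl : ∀ w ∈ ball 0 (R₀ + 1) ∩ D.G (-D.θ), ∀ᶠ w' in 𝓝[≠] w,
      ‖(Q / Θ) w' - e w'‖ ≤ ‖e w'‖ / 2 := fun w hw => (hcl w hw).mono fun z ⟨a, b⟩ => by
    have p := norm_pos_iff.2 a
    have : (Q / Θ) z - e z = (Q z - e z * Θ z) / Θ z := by simp only [Pi.div_apply]; field_simp
    rw [this, norm_div, div_le_iff₀ p]
    rw [norm_mul] at b
    linarith
  have fm := fin_supp hm T.sub
  rw [finsum_mem_congr rfl om, finsum_mem_add_distrib' fm (fin_supp hΘ T.sub), add_eq_right]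
  have cP : ∀ c ∈ D.C, ball c (D.r c) ⊆ P → c ∈ P := fun c hc h =>
    h (mem_ball_self (by linarith [D.le_r c hc]))
  have fJ : {c | c ∈ D.C ∧ ball c (D.r c) ⊆ P}.Finite :=
    (fin_C D R₀).subset fun c hc => ⟨hc.1, T.sub (cP c hc.1 hc.2)⟩
  have key := h2 L D (logDeriv e) fJ.toFinset T.per (fun c hc => (fJ.mem_toFinset.1 hc).1)
    (fun c hc => by
      obtain ⟨p, p1, p2⟩ := T.disc c hc
      obtain ⟨c1, c2⟩ := T.per p p1 c hc
      rw [← c2] at p2
      have a : c - (c + p) ∈ L.lattice := by simpa using p1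
      refine ⟨c + p, ⟨fJ.mem_toFinset.2 ⟨c1, p2⟩, a⟩, fun c' ⟨b1, b2⟩ => ?_⟩
      have b3 := fJ.mem_toFinset.1 b1
      exact (T.uniq c).unique ⟨cP _ b3.1 b3.2, b2⟩ ⟨cP _ c1 p2, a⟩) (perOn_logDeriv he h0)
  rw [← Finset.sum_congr rfl fun c hc => h1 (Q / Θ) e c (D.r c) D.θ θ0
    (by linarith [D.le_r c (fJ.mem_toFinset.1 hc).1])
    (fun z hz => hm z (PB ((fJ.mem_toFinset.1 hc).2 hz))) fun w hw => by
      have b := fJ.mem_toFinset.1 hc
      have g : w ∈ D.G (-D.θ) := D.mem_G b.1 (by linarith [hw.1]) (by linarith [hw.2])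
      exact ⟨(he w (GO g)).1, h0 w (GO g), cl w ⟨PB (b.2 hw.2), g⟩⟩,
    ← Finset.mul_sum, mul_eq_zero] at key
  have k2 := key.resolve_left Complex.two_pi_I_ne_zero
  rw [← Int.cast_sum, Int.cast_eq_zero, ← finsum_mem_coe_finset, fJ.coe_toFinset] at k2
  rw [← k2, finsum_mem_congr rfl fun c _ => (finsum_mem_inter_support (ord (Q / Θ)) _).symm,
    ← finsum_mem_biUnion (fun c hc c' hc' n => ?_) fJ
      fun c hc => fm.subset (inter_subset_inter_left _ hc.2)]
  · refine finsum_mem_inter_support_eq' _ _ _ fun w hw => ⟨fun a => ?_, fun a => ?_⟩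
    · have : w ∉ D.G (-D.θ) := fun g =>
        hw (ord_zero (he w (GO g)).1.continuousAt (h0 w (GO g)) (cl w ⟨PB a, g⟩))
      simp only [Discs.G, mem_ofPred_eq, not_forall, not_le] at this
      obtain ⟨c, hc, b⟩ := this
      obtain ⟨p, p1, p2⟩ := T.disc c hc
      have b1 : dist w c < D.r c := by linarith
      have e : w = w + p := (T.uniq w).unique ⟨a, by simp⟩
        ⟨p2 (by simpa using b1), by simpa using p1⟩
      rw [left_eq_add.1 e, add_zero] at p2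
      exact mem_iUnion₂.2 ⟨c, ⟨hc, p2⟩, b1, hw⟩
    · obtain ⟨c, hc, b⟩ := mem_iUnion₂.1 a
      exact hc.2 b.1
  · refine Disjoint.mono inter_subset_left inter_subset_left (ball_disjoint_ball ?_)
    linarith [D.sep c hc.1 c' hc'.1 n]

end Pool.Agent.P.MP_7ede32_ag.Bnd
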