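import Pool.Agent.P.MP_7ede32_ag.Bnd.DY
import Pool.Agent.P.MP_7ede32_ag.Bnd.XT
import Pool.Agent.P.MP_7ede32_ag.Bnd.TileS

/-!
The degree of `G` and the number of poles along a section that is close to a periodic section.
-/

open Filter Topology Metric Set

noncomputable section

namespace Pool.Agent.P.MP_7ede32_ag.Bnd

open Full Geo

namespace S2P

variable {X : Type} [MetricSpace X] {S : Sf0 X} {L L'' : PeriodPair} {σ : Su S L} {M : Mf S L}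
  {g : Gm σ M} {q γ : ℂ → X} {ε : ℝ}

theorem ord_pow {F : ℂ → ℂ} {w : ℂ} (h : MeromorphicAt F w) (n : ℕ) :
    ord (F ^ n) w = n * ord F w := by
  rw [ord, meromorphicOrderAt_pow h, WithTop.untop₀_mul]
  rfl

theorem sum_pow {F : ℂ → ℂ} {P : Set ℂ} {R : ℝ} (h : MeromorphicOn F (ball 0 (R + 1)))
    (hP : P ⊆ closedBall 0 R) (n : ℕ) :
    ∑ᶠ w ∈ P, ord (F ^ n) w = n * ∑ᶠ w ∈ P, ord F w := by
  have h1 := TileSP.fin_supp h hP
  rw [finsum_mem_congr rfl fun w hw =>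
    ord_pow (h w (closedBall_subset_ball (by linarith) (hP hw))) n,
    finsum_mem_eq_sum _ h1, Finset.mul_sum]
  refine finsum_mem_eq_sum_of_inter_support_eq _ (Set.ext fun w => ?_)
  simp only [mem_inter_iff, Function.mem_support, Finite.coe_toFinset]
  exact ⟨fun a => ⟨⟨a.1, right_ne_zero_of_mul a.2⟩, a.2⟩, fun a => ⟨a.1.1, a.2⟩⟩

theorem sum_mono {φ : ℂ → ℤ} {A P : Set ℂ} (hf : (P ∩ Function.support φ).Finite) (hA : A ⊆ P)
    (h0 : ∀ w ∈ P, 0 ≤ φ w) : ∑ᶠ w ∈ A, φ w ≤ ∑ᶠ w ∈ P, φ w := by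
  have h1 : (A ∩ Function.support φ).Finite := hf.subset (inter_subset_inter_left _ hA)
  rw [finsum_mem_eq_sum _ hf, finsum_mem_eq_sum _ h1]
  refine Finset.sum_le_sum_of_subset_of_nonneg (fun w hw => ?_) fun w hw _ => ?_
  · rw [Finite.mem_toFinset] at hw ⊢
    exact ⟨hA hw.1, hw.2⟩
  · exact h0 w ((Finite.mem_toFinset _).1 hw).1

theorem ord_nonneg {F : ℂ → ℂ} {w : ℂ} (h : AnalyticAt ℂ F w) : 0 ≤ ord F w :=
  WithTop.untop₀_nonneg.2 h.meromorphicOrderAt_nonneg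

theorem one_le_ord {F : ℂ → ℂ} {w : ℂ} (h : AnalyticAt ℂ F w) (h0 : F w = 0)
    (h1 : ∀ᶠ w' in 𝓝[≠] w, F w' ≠ 0) : 1 ≤ ord F w := by
  have h2 := (meromorphicOrderAt_ne_top_iff_eventually_ne_zero h.meromorphicAt).2 h1
  have h3 := (tendsto_zero_iff_meromorphicOrderAt_pos h.meromorphicAt).1
    (h0 ▸ h.continuousAt.tendsto.mono_left nhdsWithin_le_nhds)
  rw [ord]
  lift meromorphicOrderAt F w to ℤ using h2 with n
  exact_mod_cast h3

theorem lq_sub (g : Gm σ M) : Lq S g.Z fun p => g.A.χ p - g.y₀ :=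
  (g.A.lχ.mono g.sub).sub (lq_const _)

theorem lq_inv (g : Gm σ M) : Lq S g.Z fun p => (g.A.χ p - g.y₀)⁻¹ :=
  (lq_sub g).inv fun y hy => sub_ne_zero.2 (g.off y hy).1

theorem lq_G (g : Gm σ M) : Lq S g.Z g.G :=
  ((lq_f M M.iu).mono (g.A.sub.trans g.sub)).ev2 (lq_inv g) g.HG

theorem sub_ball (u : Ug g L'') : ball (0 : ℂ) (u.R₀ + 1) ⊆ ball 0 u.R₁ :=
  ball_subset_ball (by rw [Ug.R₁]; linarith [u.D.θ_pos, σ.sep.1])

theorem mero (u : Ug g L'') (h : σ.Cl g.Z q γ u.R₁ ε) {ξ : X → ℂ} (hξ : Lq S g.Z ξ) :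
    MeromorphicOn (ξ ∘ γ) (ball 0 (u.R₀ + 1)) := fun w hw =>
  hξ.mero (eventually_of_mem (isOpen_ball.mem_nhds (sub_ball u hw)) fun s hs => (h.sec s hs).1)
    (h.off w (sub_ball u hw))

theorem mem_Go (D : Discs) {w : ℂ} (hw : w ∈ D.G (-D.θ)) : w ∈ D.Go := fun c hc => by
  linarith [hw c hc, D.θ_pos]

theorem close (u : Ug g L'') (h : σ.Cl g.Z q γ u.R₁ ε) {w : ℂ} (h1 : w ∈ ball 0 (u.R₀ + 1))
    (h2 : w ∈ u.D.G (-u.D.θ)) : ∀ᶠ w' in 𝓝[≠] w, w' ∈ ball 0 (u.R₀ + 1) ∧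
      w' ∈ u.D.G (-(2 * u.D.θ)) ∧ γ w' ∉ g.Z ∧ S.π (γ w') = S.Λ.mkQ w' ∧
      dist (q w') (γ w') ≤ ε := by
  filter_upwards [h.off w (sub_ball u h1), nhdsWithin_le_nhds (isOpen_ball.mem_nhds h1),
    nhdsWithin_le_nhds (u.D.isOpen_Go.mem_nhds (mem_Go _ h2))] with w' a1 a2 a3
  have a4 := u.D.Go_subset_G a3
  exact ⟨a2, a4, a1, (h.sec w' (sub_ball u a2)).2.trans (zero_add _),
    h.near w' ⟨sub_ball u a2, interior_subset (u.sub w' a4).1⟩⟩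

theorem perOn (u : Ug g L'') {e : ℂ → ℂ} (h : σ.Pr e)
    (ha : ∀ w ∈ u.D.G (-(2 * u.D.θ)), AnalyticAt ℂ e w) : PerOn L'' u.D e := fun w hw => by
  refine ⟨ha w (u.D.Go_subset_G hw), fun p hp => ?_⟩
  obtain ⟨p', h1, rfl⟩ := u.le p hp
  exact h p' h1 w (u.sub w (u.D.Go_subset_G hw)).1

theorem one (h1 : SExtM) (h2 : SAlgE) (u : Ug g L'') (M₀ : ℕ) (hq : q ∈ σ.T)
    (hn : ¬ σ.Alg (g.f q)) : ∃ ε > 0, ∀ γ, σ.Cl g.Z q γ u.R₁ ε → M₀ ≤ u.T3 γ := by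
  by_contra hc
  push Not at hc
  obtain ⟨H, a1, a2⟩ := h2 L L'' u.D (g.f q) u.le.le u.tile.per
    (perOn u (g.per q hq).2 fun w hw => (u.qe q hq w hw).2.1) fun c hc' => by
      obtain ⟨p, b1, b2⟩ := u.tile.disc c hc'
      obtain ⟨b3, b4⟩ := u.tile.per p b1 c hc'
      have b5 : ∀ w ∈ An2 (c + p) (u.D.r c - u.D.θ) (u.D.r c), w ∈ u.D.G (-u.D.θ) :=
        fun w hw => u.D.mem_G b3 (by rw [b4]; linarith [hw.1])
          (by rw [b4]; linarith [hw.2, u.D.θ_pos])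
      have b6 : ball (c + p) (u.D.r c) ⊆ ball 0 (u.R₀ + 1) :=
        b2.trans (u.tile.sub.trans (closedBall_subset_ball (by linarith)))
      refine ⟨p, b1, h1 (g.f q) (c + p) (u.D.r c) u.D.θ M₀ u.D.θ_pos
        (by linarith [u.D.le_r c hc', u.D.θ_pos])
        (fun w hw => (u.qe q hq w (u.D.Go_subset_G (mem_Go _ (b5 w hw)))).2.1) fun ε hε => ?_⟩
      obtain ⟨η₁, d1, d2⟩ := u.uni ε hε
      obtain ⟨γ, d3, d4⟩ := hc η₁ d1
      refine ⟨(fun p => (g.A.χ p - g.y₀)⁻¹) ∘ γ, fun w hw => mero u d3 (lq_inv g) w (b6 hw), ?_,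
        fun w hw => ?_⟩
      · have e1 : ∀ w, npo ((fun p => (g.A.χ p - g.y₀)⁻¹) ∘ γ) w =
            max (ord ((fun p => g.A.χ p - g.y₀) ∘ γ) w) 0 := fun w => by
          rw [npo, ord, ord, ← WithTop.untop₀_neg, ← meromorphicOrderAt_inv]
          congr 3
          exact funext fun _ => inv_inv _
        simp only [e1]
        refine (sum_mono ((TileSP.fin_supp (mero u d3 (lq_sub g)) u.tile.sub).subset
          fun w hw => ⟨hw.1, fun e2 => hw.2 (by rw [e2, max_self])⟩) b2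
          fun w _ => le_max_right _ _).trans d4.le
      · filter_upwards [close u d3 (b6 hw.2) (b5 w hw)] with w' e1
        exact d2 q hq w' e1.2.1 _ e1.2.2.1 e1.2.2.2.2
  obtain ⟨w, hw⟩ := exists_mem_G u.D
  exact hn ⟨H, a1, w, (u.sub w (u.D.Go_subset_G (u.D.G_subset_Go hw))).1, a2 w hw⟩

end S2P

open S2P

theorem sS2 : SS2 := by
  intro X _ S L L'' σ M g u
  refine ⟨min u.η σ.η', lt_min u.η_pos σ.η'_pos, fun q hq γ h => ?_⟩
  obtain ⟨Θ, a1, a2, a3⟩ := σ.glue q γ (ball 0 u.R₁) (ball 0 (u.R₀ + 1)) isOpen_ball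
    (fun w hw => ball_subset_ball' (by rw [Ug.R₁]; linarith [mem_ball.1 hw, u.D.θ_pos]))
    (σ.reps.2.1 q hq) h.sec fun w hw => (h.near w hw).trans (min_le_right _ _)
  have a4 : AnalyticOnNhd ℂ Θ (ball 0 (u.R₀ + 1)) := a1.analyticOnNhd isOpen_ball
  have a5 := mero u h (lq_G g)
  have a6 : u.P ⊆ ball 0 (u.R₀ + 1) := u.tile.sub.trans (closedBall_subset_ball (by linarith))
  obtain ⟨b1, b2⟩ := u.tile.sum ((g.G ∘ γ) ^ g.b q) (Θ ^ g.a q) (g.e q) (a5.pow _)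
    (a4.meromorphicOn.pow _) (perOn u (g.per q hq).1 fun w hw => (u.qe q hq w hw).1)
    (fun w hw => (u.qe q hq w (u.D.Go_subset_G hw)).2.2.1) fun w hw => by
      filter_upwards [close u h hw.1 hw.2] with w' e1
      rw [Pi.pow_apply, Pi.pow_apply, a3 w' ⟨e1.1, (u.sub w' e1.2.1).1⟩]
      exact (u.qe q hq w' e1.2.1).2.2.2.2.1 _ e1.2.2.1 e1.2.2.2.1
        (e1.2.2.2.2.trans (min_le_left _ _))
  rw [sum_pow a5 u.tile.sub, sum_pow a4.meromorphicOn u.tile.sub] at b2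
  have b3 : (0 : ℤ) < g.b q := by exact_mod_cast g.b_pos q hq
  have b4 : ∀ A ⊆ u.P, ∑ᶠ w ∈ A, ord Θ w ≤ ∑ᶠ w ∈ u.P, ord Θ w := fun A hA =>
    sum_mono (TileSP.fin_supp a4.meromorphicOn u.tile.sub) hA fun w hw => ord_nonneg (a4 w (a6 hw))
  refine ⟨?_, fun ha => ?_⟩
  · have b5 := b4 ∅ (empty_subset _)
    rw [finsum_mem_empty] at b5
    exact nonneg_of_mul_nonneg_right (b2 ▸ mul_nonneg (Int.natCast_nonneg _) b5) b3
  · obtain ⟨w, c1⟩ := S.Λ.mkQ_surjective σ.s₀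
    obtain ⟨w₀, ⟨c2, c3⟩, -⟩ := u.tile.uniq w
    have c4 : S.Λ.mkQ w₀ = σ.s₀ := by
      rw [← c1, eq_comm, Sf0.mk_eq_iff, σ.hΛ]
      exact u.le.le c3
    have c5 := (one_le_ord (a4 w₀ (a6 c2)) (a2 w₀ (a6 c2) c4)
      ((b1 w₀ (a6 c2)).2.mono fun z c e => c (by rw [Pi.pow_apply, e, zero_pow ha.ne']))).trans
      ((finsum_mem_singleton (a := w₀) (f := ord Θ)).ge.trans (b4 _ (singleton_subset_iff.2 c2)))
    have c6 : (0 : ℤ) < g.a q := by exact_mod_cast ha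
    exact (mul_pos_iff_of_pos_left b3).1 (b2 ▸ mul_pos c6 (by linarith))

theorem sS3 (h1 : SExtM) (h2 : SAlgE) : SS3 := by
  intro X _ S L L'' σ M g u M₀
  have key : ∀ T' : Set (ℂ → X), T'.Finite → T' ⊆ σ.T → ∃ ε > 0, ∀ q ∈ T', ¬ σ.Alg (g.f q) →
      ∀ γ, σ.Cl g.Z q γ u.R₁ ε → M₀ ≤ u.T3 γ := fun T' hT => by
    induction T', hT using Set.Finite.induction_on with
    | empty => exact fun _ => ⟨1, one_pos, fun _ h => h.elim⟩
    | @insert q T' _ _ ih =>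
      intro hs
      obtain ⟨ε, a1, a2⟩ := ih ((subset_insert _ _).trans hs)
      by_cases hn : σ.Alg (g.f q)
      · exact ⟨ε, a1, fun q' hq' => hq'.elim (fun e n => (n (e ▸ hn)).elim) (a2 q')⟩
      · obtain ⟨ε', b1, b2⟩ := one h1 h2 u M₀ (hs (mem_insert _ _)) hn
        refine ⟨min ε ε', lt_min a1 b1, fun q' hq' n γ c => hq'.elim (fun e => ?_) fun e => ?_⟩
        · subst e
          exact b2 γ ⟨c.sec, c.off, fun w hw => (c.near w hw).trans (min_le_right _ _)⟩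
        · exact a2 q' e n γ ⟨c.sec, c.off, fun w hw => (c.near w hw).trans (min_le_left _ _)⟩
  exact key σ.T σ.reps.1 Subset.rfl

end Pool.Agent.P.MP_7ede32_ag.Bnd
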