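import Pool.Agent.P.MP_7ede32_ag.Hod.All

/-!
Some unramified cover carries a two-form that vanishes on a smooth fibre.
-/

open Filter

namespace Pool.Agent.P.MP_7ede32_ag.Bnd

open Hod
open Geo (sinv)

theorem exists_secC (𝒳 : Sx) : ∃ n z₁, 0 < n ∧ Nonempty (SecC 𝒳 n z₁) := by
  obtain ⟨K⟩ := exists_tk (sPm aBad2 (sCovX1 sinv) aIntg aSymX sBez sinv)
    (sRatQ (sCovX1 sinv) aIntg aSymX sinv) (sMdE (sFbE Full.aPch) sRef) (sUp aQuot aExtC) sMd2 𝒳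
  obtain ⟨g, N, hN⟩ := aBas _ _ K.Φ
  let T : Cx 𝒳 := ⟨K, g, N, hN⟩
  have hg := two_le sSecG aG2 T
  refine (aDich 𝒳.L _ T.Lat T.h (aLat1 𝒳 T) (fun _ hw t => Pl.hm_per T.N hw t)
    (aGm _ _ T.Φ _ T.N T.bas) (aLowB 𝒳 T)).elim (fun h => ?_) fun ⟨h1, h2⟩ => ?_
  · obtain ⟨z₁, ⟨n, κ, a1, a2⟩, a3, a4⟩ := (h.and (T.Q.gd.and (eventually_all.2 fun i =>
      T.hx 1 _ (Pl.rat_ph (T.N i)) (T.bas.H i)))).exists
    exact ⟨n, z₁, a1.pos, sSecA aNF aInd 𝒳 T n z₁ κ a1 a2 (fun p hp => (a3 p hp).1) a4⟩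
  · obtain ⟨m, s, a1, a2, a3⟩ :=
      exists_vf aConn2 sCw aSepY aPartY (sHypA sIrr) (sHypB sIrr) aVF T hg h1
    exact (not_str (sSecV (sIndX sinv)) sCyc1 aCyc2 (sWr1 sWrP aInd) (sEllRes aSig) K a1.rat a2
      (exists_str aLat1 aLowB (sFlatFr aFlat2) (sLeaf1 aNF0 aInd aRel2 (sLeafP Full.aDiv2))
        (sLeaf2 sinv) (sLeaf3 sRel1 aSepY sEuler) T hg h2 a1 a3)).elim

end Pool.Agent.P.MP_7ede32_ag.Bnd
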