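import Pool.Agent.P.MP_7ede32_ag.Bnd.DY
import Pool.Agent.P.MP_7ede32_ag.Full.All

/-!
The setting near the periodic sections exists.
-/

open Filter Topology Metric Set

noncomputable section

namespace Pool.Agent.P.MP_7ede32_ag.Bnd

open Full Geo

namespace SuP

variable {X : Type} [MetricSpace X] {S : Sf0 X} {s₀ : ℂ ⧸ S.Λ} {C : S.Cfg s₀} {δ : ℝ}

lemma mem_per {q : ℂ → X} {p : ℂ} (hp : p ∈ S.Λ) {i j : ℕ} (hij : i ≤ j)
    (h : ∀ w ∉ C.Bt, q (w + i * p) = q (w + j * p)) : ((j - i : ℕ) : ℤ) • p ∈ per C q := by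
  refine ⟨S.Λ.smul_mem _ hp, fun w hw => ?_⟩
  have h1 : -((i : ℤ) • p) ∈ S.Λ := S.Λ.neg_mem (S.Λ.smul_mem _ hp)
  have h2 := h (w + -((i : ℤ) • p)) fun b => hw ((Sf0.Cfg.add_mem_Bt h1).1 b)
  have e1 : w + -((i : ℤ) • p) + i * p = w := by simp
  have e2 : w + -((i : ℤ) • p) + j * p = w + ((j - i : ℕ) : ℤ) • p := by
    simp only [zsmul_eq_mul, Int.cast_natCast, Nat.cast_sub hij]; push_cast; ring
  rw [e1, e2] at h2
  exact h2.symm

lemma exists_N {T : Set (ℂ → X)} (hT : Reps C δ T) :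
    ∃ N : ℕ, 0 < N ∧ ∀ q ∈ T, ∀ p ∈ S.Λ, ∀ w ∉ C.Bt, q (w + N * p) = q w := by
  classical
  refine ⟨hT.1.toFinset.card.factorial, Nat.factorial_pos _, fun q hq p hp w hw => ?_⟩
  have hm : ∀ j : ℕ, (j : ℂ) * p ∈ S.Λ := fun j => by
    simpa using S.Λ.smul_mem (j : ℤ) hp
  choose r hr hr' using fun j : ℕ => hT.2.2 _ ((hT.2.1 q hq).shift (hm j))
  obtain ⟨i, hi, j, hj, hne, he⟩ := Finset.exists_ne_map_eq_of_card_lt_of_maps_to
    (s := Finset.range (hT.1.toFinset.card + 1)) (t := hT.1.toFinset) (by simp) (f := r)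
    (fun a _ => by simpa using hr a)
  have key : ∀ i j : ℕ, i < j → j < hT.1.toFinset.card + 1 → r i = r j →
      q (w + (hT.1.toFinset.card.factorial : ℕ) * p) = q w := fun i j h1 h2 h3 => by
    have h4 := mem_per (C := C) (q := q) hp h1.le fun z hz =>
      (hr' i hz).trans ((congrFun h3 z).trans (hr' j hz).symm)
    obtain ⟨m, hm⟩ : (j - i) ∣ hT.1.toFinset.card.factorial :=
      Nat.dvd_factorial (by omega) (by omega)
    have h5 := ((per C q).smul_mem (m : ℤ) h4).2 w hw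
    rw [hm, ← h5]
    congr 2
    simp only [zsmul_eq_mul, Int.cast_natCast]; push_cast; ring
  rcases lt_or_gt_of_ne hne with h | h
  · exact key i j h (Finset.mem_range.1 hj) he
  · exact key j i h (Finset.mem_range.1 hi) he.symm

end SuP

theorem sSu : SSu := by
  intro X _ _ S L s₀ hΛ hy
  obtain ⟨C⟩ := scfg_all X S s₀ hy
  obtain ⟨δ₀, hδ₀, hg⟩ := sGlue2 (spair smom_all sext) X S s₀ hy C
  obtain ⟨δ, η₀, hle, hsep, hη₀, hhalf⟩ :=
    sHalf2 (szero (spair smom_all sext) slat) sinj szsec X S s₀ hy C δ₀ hδ₀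
  obtain ⟨T, hT⟩ : ∃ T, Reps C δ T := sfin (slim sequi) X S s₀ C δ η₀ hsep hη₀ hhalf
  obtain ⟨l, U, η, hth⟩ := Sf0.exists_thOk (Sf0.Cfg.isCompact_Kc (C := C) (δ / 2))
    (Sf0.Cfg.regAt_Kc (half_pos hsep.1))
  obtain ⟨η', hη', H⟩ := hg δ ⟨hsep.1, hle⟩ hsep l η U hth
  obtain ⟨N, hN, hper⟩ := SuP.exists_N hT
  refine ⟨⟨s₀, C, δ, l, η, η', T, U, N, hΛ, hy, hsep, hT, hth, hη', ?_, hN, ?_⟩⟩
  · intro q g O O' h1 h2 h3 h4 h5
    obtain ⟨Θ, a, -, b, c⟩ := H q g O O' h1 h2 h3 h4 h5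
    exact ⟨Θ, a, b, c⟩
  · intro q hq p hp
    exact hper q hq p (by rw [hΛ]; exact hp)

end Pool.Agent.P.MP_7ede32_ag.Bnd
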