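import Pool.Agent.P.MP_7ede32_ag.Bnd.DY
import Pool.Agent.P.MP_7ede32_ag.Bnd.XT
import Pool.Agent.P.MP_7ede32_ag.Full.All

/-!
The integral along the fibres near a section, and normal forms.
-/

open Filter Topology Metric Set

noncomputable section

namespace Pool.Agent.P.MP_7ede32_ag.Bnd

open Full Geo
open Ell (E2)

namespace ThP

variable {X : Type} [MetricSpace X] {S : Sf0 X} {L : PeriodPair} {σ : Su S L} {q : ℂ → X} {w : ℂ}
  {e : OpenPartialHomeomorph X E2} {x : X}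

lemma an_chart {H : E2 → ℂ} (he : e ∈ S.A) (hx : x ∈ e.source) (h : AnalyticAt ℂ H (e x)) :
    S.AnAt (fun y => H (e y)) x := fun e' he' hx' =>
  h.comp_of_eq (Sf0.anAt_chart he hx e' he' hx') (by simp [e'.left_inv hx'])

lemma mu_near (h : S.π x = S.Λ.mkQ w) : Tendsto (S.mu (S.Λ.mkQ w)) (𝓝 x) (𝓝 0) :=
  (Sf0.muOk_fib h).eq_zero_iff.2 h ▸ (Sf0.muOk_fib h).1.continuousAt

lemma key (hq : q ∈ σ.T) (hw : w ∈ σ.O) (he : PCh S e (q w)) (e0 : e (q w) = 0)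
    (hs : ∀ᶠ t in 𝓝 (0 : ℂ), e (q (w + t)) = (t, 0)) : ∀ᶠ y in 𝓝 (q w), σ.θ q w y =
      (σ.U (q w) ∘ e.symm) (e y) - (σ.U (q w) ∘ e.symm) ((e y).1, 0) := by
  have h0 := σ.sec hq hw
  have h1 : Tendsto (fun y => (e y).1) (𝓝 (q w)) (𝓝 0) := by
    simpa [e0, Function.comp_def] using (continuous_fst.tendsto _).comp (e.continuousAt he.2.1)
  have h2 : Tendsto (fun y => w + (e y).1) (𝓝 (q w)) (𝓝 w) := by simpa using h1.const_add w
  have h3 := h0.self_of_nhds.1.1.tendsto.comp h2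
  have hK : ∀ s ∈ σ.O, S.π (q s) = S.Λ.mkQ s → q s ∈ σ.C.Kc (σ.δ / 2) :=
    fun s a b => ⟨s, interior_subset a, b⟩
  have h4 : Tendsto (fun y => dist (q (w + (e y).1)) y) (𝓝 (q w)) (𝓝 0) := by
    simpa using h3.dist tendsto_id
  filter_upwards [he.2.2, Metric.tendsto_nhds.1 h1 _ S.ρ_pos, h1.eventually hs,
    h2.eventually (h0.and (σ.isOpen_O.mem_nhds hw)), e.open_source.mem_nhds he.2.1,
    h3.eventually (e.open_source.mem_nhds he.2.1),
    Metric.tendsto_nhds.1 h3 _ (half_pos σ.tho.pos), h4.eventually_le_const σ.tho.2.1]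
    with y a1 a2 a3 a4 a5 a6 a7 a8
  rw [h0.self_of_nhds.2, e0, Prod.fst_zero, sub_zero] at a1
  rw [Su.θ, Sf0.mu_eq (by simpa using a2) a1, σ.tho.2.2.2 _ (hK w hw h0.self_of_nhds.2) _
    (hK _ a4.2 a4.1.2) a7 y (by rw [a1, a4.1.2, map_add]) a8, ← a3]
  simp only [Function.comp, e.left_inv a5, e.left_inv (show q (w + (e y).1) ∈ e.source from a6)]

lemma div {H : X → ℂ} (he : e ∈ S.A) (hx : x ∈ e.source) (e0 : e x = 0) (h : S.AnAt H x)
    (h0 : ¬ ∀ᶠ y in 𝓝 x, H y = 0) : ∃ (k : ℕ) (H' : E2 → ℂ),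
      (∀ᶠ y in 𝓝 x, AnalyticAt ℂ H' (e y) ∧ H y = (e y).2 ^ k * H' (e y)) ∧
      ∀ᶠ t in 𝓝[≠] (0 : ℂ), H' (t, 0) ≠ 0 := by
  have ce : Tendsto e (𝓝 x) (𝓝 0) := e0 ▸ e.continuousAt hx
  obtain ⟨k, H', a1, a2, a3⟩ := aDiv2 (H ∘ e.symm) (e0 ▸ h e he hx) fun a => h0 (by
    filter_upwards [ce.eventually a, e.open_source.mem_nhds hx] with y b1 b2
    simpa [e.left_inv b2] using b1)
  refine ⟨k, H', ?_, a3⟩
  filter_upwards [ce.eventually a1.eventually_analyticAt, ce.eventually a2,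
    e.open_source.mem_nhds hx] with y b1 b2 b3
  exact ⟨b1, by simpa [e.left_inv b3] using b2⟩

lemma zp {v : ℂ} (k : ℕ) {j : ℕ} (h : v ^ j ≠ 0) : v ^ ((k : ℤ) - j) = v ^ k / v ^ j := by
  rcases eq_or_ne v 0 with rfl | h1
  · rcases eq_or_ne j 0 with rfl | h2
    · simp
    · exact (h (zero_pow h2)).elim
  · rw [zpow_sub₀ h1, zpow_natCast, zpow_natCast]

end ThP

open ThP in
theorem sTh : STh := by
  intro X _ S L σ q hq w hw
  have h0 := σ.sec hq hw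
  obtain ⟨e, he, e0, hs⟩ := (aPch X S).2.2 q w h0
  have h1 := key hq hw he e0 hs
  have hV : ∀ᶠ y in 𝓝 (q w), S.RP (σ.U (q w)) y := by
    filter_upwards [ball_mem_nhds (q w) σ.tho.pos] with y hy
    exact (σ.tho.1 _ ⟨w, interior_subset hw, h0.self_of_nhds.2⟩ y hy).1
  have aG : AnalyticAt ℂ (σ.U (q w) ∘ e.symm) (e (q w)) :=
    sOsg _ _ (hV.self_of_nhds.2.1 e he.1 he.2.1)
  refine ⟨anAt_congr (an_chart he.1 he.2.1 (aG.sub (aG.comp_of_eq
    (f := fun u : E2 => ((u.1, 0) : E2)) (analyticAt_fst.prod analyticAt_const)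
      (by rw [e0]; rfl)))) (h1.mono fun _ a => a.symm), ?_, fun h2 => ?_, ?_, fun p hp => ?_⟩
  · rw [h1.self_of_nhds, e0]
    exact sub_self _
  · refine Qld.not_zero he hV (σ.hyp.ω_ne e he.1 _ he.2.1) ?_
    filter_upwards [Sf0.symm_eventually he.2.1 (h1.and h2),
      e.open_target.mem_nhds (e.map_source he.2.1)] with u a1 a2
    have a3 := a1.1.symm.trans a1.2
    rwa [e.right_inv a2] at a3
  · filter_upwards [h0, ball_mem_nhds w S.ρ_pos] with w' a1 a2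
    rw [mem_ball, dist_eq_norm] at a2
    refine ⟨?_, fun y hy => ?_⟩
    · filter_upwards [(Sf0.muOk_fib a1.2).2, (((mu_near a1.2).const_add
        (w' - w)).norm.eventually_lt_const (by simpa using a2))] with y b1 b2
      rw [Su.θ, Su.θ, Sf0.mu_eq (s := S.Λ.mkQ w) b2 (by rw [b1.1, map_add, map_sub]; abel),
        ← add_assoc, add_sub_cancel]
    · rw [Su.θ, Sf0.mu_eq a2 (by rw [hy, map_sub, add_sub_cancel]), add_sub_cancel]
  · have h2 : S.Λ.mkQ (w + σ.N * p) = S.Λ.mkQ w := Sf0.mk_eq_iff.2 (by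
      rw [add_sub_cancel_left, σ.hΛ]
      simpa using L.lattice.smul_mem (σ.N : ℤ) hp)
    filter_upwards [((mu_near h0.self_of_nhds.2).const_add w).eventually
      (σ.isOpen_O.mem_nhds (by simpa using hw))] with y a
    rw [Su.θ, Su.θ, h2, add_right_comm, σ.per q hq p hp _ (σ.O_sub a)]

open ThP in
theorem sNFq (h : STh) : SNFq := by
  intro X _ S L σ Z F hF hN q hq w hw
  have h0 := σ.sec hq hw
  obtain ⟨e, he, e0, hs⟩ := (aPch X S).2.2 q w h0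
  obtain ⟨t1, -, t3, t4, -⟩ := h X S L σ q hq w hw
  obtain ⟨A, B, a1, a2, a3⟩ := hF (q w)
  obtain ⟨k₁, A', b1, b2⟩ := div he.1 he.2.1 e0 a1 fun a => by
    obtain ⟨y, c1, c2, c3⟩ := ((hN (q w)).and_eventually (a3.and a)).exists
    exact c1.2 (by rw [(c2 c1.1).2, c3, zero_div])
  obtain ⟨k₂, B', b3, b4⟩ := div he.1 he.2.1 e0 a2 fun a => by
    obtain ⟨y, c1, c2, c3⟩ := ((hN (q w)).and_eventually (a3.and a)).exists
    exact (c2 c1.1).1 c3
  obtain ⟨k₃, T', b5, b6⟩ := div he.1 he.2.1 e0 t1 t3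
  have sub : Tendsto (fun w' => w' - w) (𝓝 w) (𝓝 0) :=
    Continuous.tendsto' (by fun_prop) _ _ (sub_self w)
  have sub' : Tendsto (fun w' => w' - w) (𝓝[≠] w) (𝓝[≠] 0) :=
    tendsto_nhdsWithin_iff.2 ⟨sub.mono_left nhdsWithin_le_nhds,
      eventually_mem_nhdsWithin.mono fun _ h => sub_ne_zero.2 h⟩
  refine ⟨(k₁ : ℤ) - k₂, k₃, ?_⟩
  filter_upwards [sub'.eventually (b2.and (b4.and b6)), nhdsWithin_le_nhds (t4.and h0),
    nhdsWithin_le_nhds (sub.eventually hs), nhdsWithin_le_nhds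
      (h0.self_of_nhds.1.1.eventually ((b1.and (b3.and (b5.and a3))).and
        (e.open_source.mem_nhds he.2.1)).eventually_nhds)] with w' c1 c2 c3 c4
  rw [add_sub_cancel] at c3
  rw [← c3] at c1
  obtain ⟨⟨d1, d2, d3, -⟩, d4⟩ := c4.self_of_nhds
  refine ⟨Nat.pos_of_ne_zero ?_, fun y => (e y).2, fun y => A' (e y) / B' (e y),
    fun y => T' (e y), an_chart he.1 d4 analyticAt_snd,
    anX_div (an_chart he.1 d4 d1.1) (an_chart he.1 d4 d2.1) c1.2.1, an_chart he.1 d4 d3.1,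
    div_ne_zero c1.1 c1.2.1, c1.2.2, ?_⟩
  · rintro rfl
    refine c1.2.2 ?_
    rw [← one_mul (T' _), ← pow_zero (e (q w')).2, ← d3.2, c2.1.2 _ c2.2.2]
    exact sub_self _
  · filter_upwards [c4, c2.1.1] with y ⟨⟨f1, f2, f3, f4⟩, _⟩ f5
    refine ⟨f5.trans f3.2, fun f6 => ?_⟩
    obtain ⟨f7, f8⟩ := f4 f6
    rw [f2.2] at f7
    rw [f8, f1.2, f2.2, zp k₁ (left_ne_zero_of_mul f7), div_mul_div_comm]

end Pool.Agent.P.MP_7ede32_ag.Bnd
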