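import Pool.Agent.P.MP_7ede32_ag.Bnd.TrX
import Pool.Agent.P.MP_7ede32_ag.Full.All

/-!
The analytic certificate in closed form.
-/

namespace Pool.Agent.P.MP_7ede32_ag.Bnd

open Full

theorem aAC : SAC :=
  sAC (sIndep aPch) (sSieg sSchw) (sFib aBad aNz (sPar aPch) sFib1) sHom aNz

end Pool.Agent.P.MP_7ede32_ag.Bnd
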