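import Pool.Agent.P.MP_7ede32_ag.Bnd.DY
import Pool.Agent.P.MP_7ede32_ag.Bnd.XT

/-!
The order of a meromorphic function along a section.
-/

open Filter Topology Metric Set

noncomputable section

namespace Pool.Agent.P.MP_7ede32_ag.Bnd

open Full Geo

namespace VOP

lemma nonneg_of {ι : Type} {l : Filter ι} [l.NeBot] {t : ι → ℂ} {n : ℤ} {c : ℂ}
    (h0 : Tendsto t l (𝓝 0)) (h1 : ∀ᶠ y in l, t y ≠ 0) (h2 : Tendsto (fun y => t y ^ n) l (𝓝 c)) :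
    0 ≤ n ∧ (c ≠ 0 → n = 0) ∧ (c = 0 → n ≠ 0) := by
  have h3 : 0 ≤ n := by
    by_contra h
    obtain ⟨k, hk⟩ := Int.eq_ofNat_of_zero_le (show 0 ≤ -n by omega)
    have h4 := h2.mul (h0.pow k)
    rw [zero_pow (by omega), mul_zero] at h4
    refine zero_ne_one (tendsto_nhds_unique h4 (tendsto_const_nhds.congr' (h1.mono fun y a => ?_)))
    simp only [← zpow_natCast, ← hk, ← zpow_add₀ a, add_neg_cancel, zpow_zero]
  obtain ⟨k, rfl⟩ := Int.eq_ofNat_of_zero_le h3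
  have h4 := tendsto_nhds_unique h2 (by simpa only [zpow_natCast] using h0.pow k)
  refine ⟨h3, fun a => by_contra fun b => a ?_, fun a b => ?_⟩
  · rw [h4, zero_pow (by omega)]
  · rw [a, show k = 0 by omega, pow_zero] at h4
    exact zero_ne_one h4

variable {X : Type} [MetricSpace X] {S : Sf0 X} {L : PeriodPair} {σ : Su S L} {Z : Set X}
  {F : X → ℂ} {q : ℂ → X} {w : ℂ} {α α' : ℤ} {β β' : ℕ}

/-- the points near `q w` off `Z` at which the integral does not vanish -/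
def fl (σ : Su S L) (Z : Set X) (q : ℂ → X) (w : ℂ) : Filter X :=
  𝓝[{y | y ∉ Z ∧ σ.θ q w y ≠ 0}] (q w)

lemma fl_le : fl σ Z q w ≤ 𝓝[Zᶜ] (q w) := nhdsWithin_mono _ fun _ h => h.1

lemma fl_mem : ∀ᶠ y in fl σ Z q w, y ∉ Z ∧ σ.θ q w y ≠ 0 := self_mem_nhdsWithin

lemma base (h : STh) (hZ : Cz S Z) (hq : q ∈ σ.T) (hw : w ∈ σ.O) :
    (fl σ Z q w).NeBot ∧ Tendsto (σ.θ q w) (fl σ Z q w) (𝓝 0) := by
  obtain ⟨a1, a2, a3, -⟩ := h X S L σ q hq w hw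
  exact ⟨mem_closure_iff_nhdsWithin_neBot.1 (mem_closure_iff_frequently.2 (hZ.freq a1 a3)),
    a2 ▸ a1.continuousAt.tendsto.mono_left nhdsWithin_le_nhds⟩

lemma unit (h : σ.NF Z q F α β w) : ∃ (u : X → ℂ) (c : ℂ), c ≠ 0 ∧
    Tendsto u (fl σ Z q w) (𝓝 c) ∧ ∀ᶠ y in fl σ Z q w, F y ^ β = σ.θ q w y ^ α * u y := by
  obtain ⟨-, v, E, g, -, a2, a3, a4, a5, a6⟩ := h
  refine ⟨fun y => E y ^ β / g y ^ α, _, div_ne_zero (pow_ne_zero β a4) (zpow_ne_zero α a5),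
    ((a2.continuousAt.pow β).div (a3.continuousAt.zpow₀ α (Or.inl a5))
      (zpow_ne_zero α a5)).tendsto.mono_left nhdsWithin_le_nhds, ?_⟩
  filter_upwards [nhdsWithin_le_nhds a6, fl_mem] with y b1 b2
  have b3 := zpow_ne_zero α (right_ne_zero_of_mul (b1.1 ▸ b2.2))
  rw [b1.2 b2.1, b1.1, mul_pow, mul_zpow, ← zpow_natCast (v y ^ α), ← zpow_natCast (v y),
    ← zpow_mul, ← zpow_mul, mul_comm α]
  field_simp

lemma uniq (h : STh) (hZ : Cz S Z) (hq : q ∈ σ.T) (hw : w ∈ σ.O) (h1 : σ.NF Z q F α β w)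
    (h2 : σ.NF Z q F α' β' w) : α * β' = α' * β := by
  obtain ⟨a1, a2⟩ := base h hZ hq hw
  obtain ⟨u, c, b1, b2, b3⟩ := unit h1
  obtain ⟨u', c', d1, d2, d3⟩ := unit h2
  refine sub_eq_zero.1 ((nonneg_of a2 (fl_mem.mono fun _ a => a.2) (((d2.pow β).div (b2.pow β')
    (pow_ne_zero _ b1)).congr' ?_)).2.1 (div_ne_zero (pow_ne_zero _ d1) (pow_ne_zero _ b1)))
  filter_upwards [b3, d3, fl_mem, b2.eventually_ne b1] with y e1 e2 e3 e4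
  have e5 : (σ.θ q w y ^ α * u y) ^ β' = (σ.θ q w y ^ α' * u' y) ^ β := by
    rw [← e1, ← e2, pow_right_comm]
  rw [mul_pow, mul_pow, ← zpow_natCast (_ ^ α), ← zpow_natCast (_ ^ α'), ← zpow_mul,
    ← zpow_mul] at e5
  rw [Pi.div_apply, zpow_sub₀ e3.2, div_eq_div_iff (pow_ne_zero _ e4) (zpow_ne_zero _ e3.2), e5,
    mul_comm]

lemma sign (h : STh) (hZ : Cz S Z) (hq : q ∈ σ.T) (hw : w ∈ σ.O) (h1 : σ.NF Z q F α β w)
    (h2 : GdZ S Z F (q w)) : 0 ≤ α ∧ (extZ Z F (q w) = 0 → α ≠ 0) := by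
  obtain ⟨a1, a2⟩ := base h hZ hq hw
  obtain ⟨u, c, b1, b2, b3⟩ := unit h1
  have h3 := nonneg_of (n := α) a2 (fl_mem.mono fun _ a => a.2)
    (((((h2.tendsto hZ).mono_left fl_le).pow β).div b2 b1).congr' (by
      filter_upwards [b3, b2.eventually_ne b1] with y e1 e2
      rw [Pi.div_apply, e1, mul_div_cancel_right₀ _ e2]))
  exact ⟨h3.1, fun a => h3.2.2 (by rw [a, zero_pow h1.1.ne', zero_div])⟩

lemma gd_of (h : STh) (hZ : Cz S Z) (hq : q ∈ σ.T) (hw : w ∈ σ.O) (h1 : σ.NF Z q F α β w) :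
    (0 ≤ α → GdZ S Z F (q w)) ∧ (α ≤ 0 → GdZ S Z (fun p => (F p)⁻¹) (q w)) ∧
      (0 < α → extZ Z F (q w) = 0) := by
  obtain ⟨a0, v, E, g, a1, a2, -, a4, a5, a6⟩ := h1
  have h2 : 0 ≤ α → ∀ᶠ y in 𝓝 (q w), y ∉ Z → F y = v y ^ α.toNat * E y := fun b =>
    a6.mono fun y c d => by rw [c.2 d, ← zpow_natCast, Int.toNat_of_nonneg b]
  refine ⟨fun b => ⟨_, anX_mul (anX_pow a1 _) a2, h2 b⟩, fun b =>
    ⟨_, anX_mul (anX_pow a1 (-α).toNat) (anX_inv a2 a4), a6.mono fun y c d => ?_⟩, fun b => ?_⟩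
  · simp only [c.2 d, ← zpow_natCast, Int.toNat_of_nonneg (neg_nonneg.2 b), zpow_neg, mul_inv]
  · have h3 := a6.self_of_nhds.1
    rw [(h X S L σ q hq w hw).2.1, eq_comm, mul_eq_zero, or_iff_left a5,
      pow_eq_zero_iff a0.ne'] at h3
    refine (extZ_eq hZ (anX_mul (anX_pow a1 _) a2) (h2 b.le)).self_of_nhds.trans ?_
    simp only [h3, zero_pow (show α.toNat ≠ 0 by omega), zero_mul]

lemma mem_O (hw : w ∈ σ.O) : ∀ᶠ w' in 𝓝[≠] w, w' ∈ σ.O :=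
  nhdsWithin_le_nhds (σ.isOpen_O.mem_nhds hw)

end VOP

open VOP

theorem sVO (h1 : STh) (h2 : SNFq) (h3 : SConn) : SVO := by
  intro X _ S L σ Z F hZ hF hN q hq
  have h4 := h2 X S L σ Z F hF hN q hq
  rcases σ.O.eq_empty_or_nonempty with h0 | ⟨w₀, h0⟩
  · exact ⟨0, 1, one_pos, fun w hw => by simp [h0] at hw⟩
  obtain ⟨a, b, h5⟩ := h4 w₀ h0
  have hc : IsPreconnected σ.O := by
    rw [show σ.O = {w | ∀ c ∈ σ.C.Bt, σ.δ / 2 < dist w c} from Set.ext fun _ => σ.O_iff]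
    exact h3 _ _ σ.sep.1 σ.sep.2.2
  refine ⟨a, b, h5.exists.elim fun _ c => c.1, fun w hw => (hc.subset_left_of_subset_union
    (u := σ.O ∩ {w | ∀ᶠ w' in 𝓝[≠] w, ∃ α β, σ.NF Z q F α β w' ∧ α * b = β * a})
    (v := σ.O ∩ {w | ∀ᶠ w' in 𝓝[≠] w, ∃ α β, σ.NF Z q F α β w' ∧ α * b ≠ β * a})
    (σ.isOpen_O.inter isOpen_setOfPred_eventually_nhdsWithin)
    (σ.isOpen_O.inter isOpen_setOfPred_eventually_nhdsWithin) ?_ (fun w hw => ?_)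
    ⟨w₀, h0, h0, h5.mono fun _ c => ⟨a, b, c, mul_comm _ _⟩⟩ hw).2⟩
  · rw [Set.disjoint_left]
    rintro w ⟨a1, a2⟩ ⟨-, a3⟩
    obtain ⟨w', b0, ⟨α, β, b1, b2⟩, α', β', b3, b4⟩ :=
      ((mem_O a1).and (Eventually.and a2 a3)).exists
    refine b4 (mul_right_cancel₀ (Int.natCast_ne_zero.2 b1.1.ne') ?_)
    rw [mul_right_comm, ← uniq h1 hZ hq b0 b1 b3, mul_right_comm, b2]
    ring
  · obtain ⟨α, β, a2⟩ := h4 w hw
    by_cases c : α * b = β * a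
    exacts [Or.inl ⟨hw, a2.mono fun _ d => ⟨α, β, d, c⟩⟩,
      Or.inr ⟨hw, a2.mono fun _ d => ⟨α, β, d, c⟩⟩]

theorem sOdT (h : STh) : SOdT := by
  intro X _ S L σ Z F a b hZ q hq ⟨hb, hO⟩
  have hb' : (0 : ℤ) < b := Int.natCast_pos.2 hb
  refine ⟨fun ha => hO.mono σ.isOpen_O fun w hw ⟨α, β, c1, c2⟩ => (gd_of h hZ hq hw c1).1 ?_,
    fun ha => hO.mono σ.isOpen_O fun w hw ⟨α, β, c1, c2⟩ => (gd_of h hZ hq hw c1).2.1 ?_,
    fun ha => hO.mono σ.isOpen_O fun w hw ⟨α, β, c1, c2⟩ => ?_, fun w hw => ⟨fun c => ?_, fun c => ?_⟩⟩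
  · exact nonneg_of_mul_nonneg_left (c2 ▸ mul_nonneg (Int.natCast_nonneg β) ha) hb'
  · exact nonpos_of_mul_nonpos_left (c2 ▸ mul_nonpos_of_nonneg_of_nonpos (Int.natCast_nonneg β) ha) hb'
  · have c3 : 0 < α :=
      (mul_pos_iff_of_pos_right hb').1 (c2 ▸ mul_pos (Int.natCast_pos.2 c1.1) ha)
    exact ⟨(gd_of h hZ hq hw c1).1 c3.le, (gd_of h hZ hq hw c1).2.2 c3⟩
  · obtain ⟨w', ⟨c1, c2⟩, α, β, c3, c4⟩ := ((c.and (mem_O hw)).and (hO w hw)).exists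
    exact nonneg_of_mul_nonneg_right (c4 ▸ mul_nonneg (sign h hZ hq c2 c3 c1).1 hb'.le)
      (Int.natCast_pos.2 c3.1)
  · obtain ⟨w', ⟨c1, c2⟩, α, β, c3, c4⟩ := ((c.and (mem_O hw)).and (hO w hw)).exists
    have c5 := sign h hZ hq c2 c3 c1.1
    exact (mul_pos_iff_of_pos_left (Int.natCast_pos.2 c3.1)).1
      (c4 ▸ mul_pos (c5.1.lt_of_ne' (c5.2 c1.2)) hb')

theorem sY0 (h1 : SVO) (h2 : SOdT) : SY0 := by
  intro X _ S L σ Z χ hZ hχ q hq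
  refine ⟨fun hN => ?_, fun hN y₀ a0 y₁ a1 => ?_⟩
  · obtain ⟨a, b, h3⟩ := h1 X S L σ Z χ hZ hχ hN q hq
    obtain ⟨c1, c2, -⟩ := h2 X S L σ Z χ a b hZ q hq h3
    rcases le_total 0 a with c | c
    exacts [⟨true, c1 c⟩, ⟨false, c2 c⟩]
  have h3 : ∀ y, (¬ Gen σ.O fun w => GdZ S Z (fun p => (χ p - y)⁻¹) (q w)) →
      Gen σ.O fun w => Tendsto (fun p => χ p - y) (𝓝[Zᶜ] (q w)) (𝓝 0) := fun y c => by
    obtain ⟨a, b, h3⟩ := h1 X S L σ Z _ hZ (hχ.sub (lq_const y)) (hN y) q hq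
    obtain ⟨-, c2, c3, -⟩ := h2 X S L σ Z _ a b hZ q hq h3
    exact (c3 (not_le.1 fun d => c (c2 d))).mono σ.isOpen_O fun w _ d => d.2 ▸ d.1.tendsto hZ
  obtain ⟨w, hw⟩ : σ.O.Nonempty := by
    by_contra c
    exact a0 fun w hw => (c ⟨w, hw⟩).elim
  obtain ⟨w', b0, b1⟩ := ((h3 y₀ a0).and (h3 y₁ a1) w hw).exists
  have := hZ.neBot (q w')
  have h4 := b1.sub b0
  simp only [sub_sub_sub_cancel_left, sub_self] at h4
  exact sub_eq_zero.1 (tendsto_nhds_unique tendsto_const_nhds h4)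

end Pool.Agent.P.MP_7ede32_ag.Bnd
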