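import Pool.Agent.P.MP_7ede32_ag.Bnd.XT
import Pool.Agent.P.MP_7ede32_ag.Bnd.AlL
import Pool.Agent.P.MP_7ede32_ag.Full.All

/-!
Vertical curves.
-/

open Filter Topology Metric Set

noncomputable section

namespace Pool.Agent.P.MP_7ede32_ag.Bnd

open Full Geo MP_5d7cf0_gt
open MP_5d7cf0_gt.T (RS zc loc An Hf Om Hol)
open MP_5d7cf0_gt.T renaming D → Dc

namespace VertP

variable {X : Type} [MetricSpace X] {S : Sf0 X} {L : PeriodPair}
  {C : Type} [TopologicalSpace C] [ChartedSpace ℂ C] [RS C] {f : C → X}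

/-- the local form of `d (x ∘ f)` on a curve in a smooth fibre -/
theorem local_form (M : Mf S L) (hf : HolC S f) (hnc : ∃ c c', f c ≠ f c')
    (off : ∀ᶠ c in cofinite, f c ∉ M.Z) (hπ : ∀ c c', S.π (f c) = S.π (f c')) (c : C)
    (hcr : ¬ S.Crit (f c)) : ∃ α β : C → ℂ, An α c ∧ An β c ∧ ∀ᶠ y in 𝓝[≠] c,
      Dc (xf M ∘ f) y ≠ 0 ∧ M.f M.ia (f y) * fm (Dc (xf M ∘ f)) c y ^ M.μ = α y ∧
        xf M (f y) * (M.f M.ia (f y) * fm (Dc (xf M ∘ f)) c y ^ M.μ) = β y := by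
  obtain ⟨e, he, -⟩ := (aPch X S).1 (f c) hcr
  obtain ⟨α, β, hα, hβ, hreg⟩ := M.reg e (f c) he
  obtain ⟨N, hN, hN'⟩ := Qld.same_fst he
  have hc := hf.cont.continuousAt (x := c)
  have hs : ∀ᶠ y in 𝓝 c, f y ∈ e.source := hc.eventually (e.open_source.mem_nhds he.2.1)
  have h1 : ∀ᶠ y in 𝓝 c, (e (f y)).1 = (e (f c)).1 := by
    filter_upwards [hc.eventually hN] with y a
    exact hN' _ a _ (mem_of_mem_nhds hN) (hπ y c)
  have h2 : ∀ᶠ y in 𝓝 c, Dc (fun y => (e (f y)).1) y = 0 :=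
    h1.eventually_nhds.mono fun y a => (T.D_congr a).trans (T.D_const _)
  have hv := (hf.an_chart he.1 he.2.1).2
  have h3 : ∀ᶠ y in 𝓝[≠] c, Dc (fun y => (e (f y)).2) y ≠ 0 := by
    refine hv.hf.zero_or.resolve_left fun a => hf.nc hnc c ?_
    filter_upwards [h1, hv.eventually_const a, hs] with y b1 b2 b3
    exact e.injOn b3 he.2.1 (Prod.ext b1 b2)
  have hg : An (fun y => fm (Dc fun y => (e (f y)).2) c y ^ M.μ) c := T.An.pow hv.hf _
  refine ⟨_, _, (hf.an hα).mul hg, (hf.an hβ).mul hg, ?_⟩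
  filter_upwards [cof_iff.1 off c, h3, nhdsWithin_le_nhds h2, nhdsWithin_le_nhds hs,
    nhdsWithin_le_nhds (hc.eventually hreg)] with y a1 a2 a3 a4 a5
  obtain ⟨b1, b2, b3⟩ := a5 a1
  have k : Dc (xf M ∘ f) y = Dc (fun y => (e (f y)).2) y * D (xf M) e (f y) (0, 1) := by
    rw [hf.D_comp (M.anAt_f _ a1) he.1 a4, a3, ← smul_eq_mul, ← map_smul]
    simp
  refine ⟨k ▸ mul_ne_zero a2 b1, ?_, ?_⟩
  · simp only [Function.comp, ← b2, fm, xf] at k ⊢
    rw [k]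
    ring
  · simp only [Function.comp, ← b3, fm, xf] at k ⊢
    rw [k]
    ring

theorem ev_rename {ι : Type} (g : ι → ℂ) (i j : ι) (H : MvPolynomial (Fin 2) ℂ) :
    MvPolynomial.eval g (MvPolynomial.rename ![i, j] H) = ev2 H (g i) (g j) := by
  rw [MvPolynomial.eval_rename, ev2]
  congr 2
  funext k
  fin_cases k <;> rfl

theorem ev_rename3 {ι : Type} (g : ι → ℂ) (i j l : ι) (H : MvPolynomial (Fin 3) ℂ) :
    MvPolynomial.eval g (MvPolynomial.rename ![i, j, l] H) =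
      MvPolynomial.eval ![g i, g j, g l] H := by
  rw [MvPolynomial.eval_rename]
  congr 2
  funext k
  fin_cases k <;> rfl

end VertP

open VertP

theorem sVert1 (h1 : SOd) (h2 : SKD) : SVert1 := by
  intro X _ S L M C _ _ _ f hf hnc h0 hπ hcr
  have off := hf.off (cz_M M) h0
  have mx : Me (xf M ∘ f) := hf.me (lq_f M _) off
  have ma : Me (M.f M.ia ∘ f) := hf.me (lq_f M _) off
  have mw : MeF (Dc (xf M ∘ f)) := mx.meF_D
  have loc := fun c => local_form M hf hnc off hπ c (hcr c)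
  have nw : Nz (Dc (xf M ∘ f)) := cof_iff.2 fun c =>
    let ⟨_, _, _, _, h⟩ := loc c
    h.mono fun _ a => a.1
  have key : ∀ c, po (xf M ∘ f) c ≤ od (M.f M.ia ∘ f) c + M.μ * odf (Dc (xf M ∘ f)) c := fun c => by
    obtain ⟨α, β, hα, hβ, h⟩ := loc c
    have na : ∀ᶠ y in 𝓝[≠] c, (M.f M.ia ∘ f) y ≠ 0 :=
      (cof_iff.1 off c).mono fun y a => M.a_ne _ a
    have np : ∀ᶠ y in 𝓝[≠] c, fm (Dc (xf M ∘ f)) c y ^ M.μ ≠ 0 :=
      (fm_ne.2 (nw.ne c)).mono fun y a => pow_ne_zero _ a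
    have e1 := od_mul (ma c) ((mw c).pow M.μ) na np
    rw [od_pow (mw c)] at e1
    have k1 : 0 ≤ od (M.f M.ia ∘ f) c + M.μ * odf (Dc (xf M ∘ f)) c := by
      rw [odf, ← e1]
      exact (od_nonneg_of_an hα).trans_eq (od_congr (h.mono fun _ a => a.2.1.symm))
    rcases (mx c).zero_or with z | z
    · rw [po, od_of_zero z]
      simpa using k1
    · have e2 := od_mul (mx c) ((ma c).mul ((mw c).pow M.μ)) z
        ((na.and np).mono fun _ a => mul_ne_zero a.1 a.2)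
      have k2 := ((od_nonneg_of_an hβ).trans_eq
        (od_congr (h.mono fun _ a => a.2.2.symm))).trans_eq e2
      rw [e1] at k2
      rw [odf] at k1 ⊢
      exact max_le (by linarith) k1
  have s1 : ∑ᶠ c, po (xf M ∘ f) c ≤ M.μ * ∑ᶠ c, odf (Dc (xf M ∘ f)) c := by
    refine (su_le mx.fs_po (ma.fs_od.add (mw.fs.mul _)) key).trans_eq ?_
    rw [su_add ma.fs_od (mw.fs.mul _), h1 C _ ma, zero_add, su_mul]
  have s2 : 1 ≤ ∑ᶠ c, po (xf M ∘ f) c := by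
    by_contra h
    obtain ⟨a, ha⟩ := mx.const_of_po
      (eq_zero_of_su mx.fs_po (fun _ => po_nonneg) (by omega))
    obtain ⟨c, -⟩ := h0
    obtain ⟨y, b1, b2, b3⟩ := ((nw.ne c).and (Eventually.and (nhdsWithin_le_nhds
      (eventually_nhdsWithin_iff.1 (cof_iff.1 ha c)).eventually_nhds) self_mem_nhdsWithin)).exists
    refine b1 ((T.D_congr (v := fun _ => a) ?_).trans (T.D_const a))
    filter_upwards [b2, isOpen_compl_singleton.mem_nhds b3] with y' d1 d2 using d1 d2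
  have s3 : 1 ≤ ∑ᶠ c, odf (Dc (xf M ∘ f)) c := by
    by_contra h
    have : (M.μ : ℤ) * ∑ᶠ c, odf (Dc (xf M ∘ f)) c ≤ 0 :=
      mul_nonpos_of_nonneg_of_nonpos (Int.natCast_nonneg _) (by omega)
    omega
  obtain ⟨g1, g2⟩ := h2 C _ mw nw s3
  exact ⟨g1, s1.trans (mul_le_mul_of_nonneg_left g2 (Int.natCast_nonneg _))⟩

theorem sVertB (h1 : SVert1) (h2 : SPsB) : SVertB := by
  intro X _ _ _ S L M hN
  have ex : ∀ i, ∃ (H : MvPolynomial (Fin 2) ℂ) (K : ℝ) (k : ℕ), H ≠ 0 ∧ ∀ y ∉ M.Z,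
      ‖M.f i y‖ * ‖ev2 H (uf M y) (xf M y)‖ ≤ K * (1 + ‖uf M y‖ + ‖xf M y‖) ^ k := fun i => by
    obtain ⟨P, a1, a2⟩ := sSieg sSchw X S L M ![M.iu, M.ix, i]
    obtain ⟨H, K, k, b1, -, b2⟩ := sLead P a1
    exact ⟨H, K, k, b1, fun y hy =>
      b2 _ _ _ ((ev_rename3 (fun i => M.f i y) _ _ _ P).symm.trans (a2 y hy))⟩
  choose H K k hH hK using ex
  choose k' hk' using fun i => (h2 (H i)).2 (K i) (k i)
  obtain ⟨B, hB, hB'⟩ := aBad X S M.Z hN (cz_M M).crv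
  have cz1 : ∀ i, Cz S (M.Z ∪ {y | ev2 (H i) (uf M y) (xf M y) = 0}) := fun i =>
    cz_zero (cz_M M) ((lq_f M _).ev2 (lq_f M _) _) (by
      have := nzX_ev M (P := MvPolynomial.rename ![M.iu, M.ix] (H i))
        fun a => hH i (sIndep aPch X S L M hN _ a)
      exact fun x => (this x).mono fun y a => ⟨a.1, fun b =>
        a.2 ((ev_rename (fun i => M.f i y) _ _ (H i)).trans b)⟩)
  have cz := (cz_M M).union ((cz_biUnion finite_univ fun i _ => cz1 i).union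
    (cz_biUnion hB fun s _ => cz_fib hN s))
  refine ⟨_, 2 * M.μ * ∑ i, k' i, cz, subset_union_left, fun C _ _ _ f hf hnc h0 hπ => ?_⟩
  have off := hf.off cz h0
  obtain ⟨c₀, h0⟩ := h0
  have off' : ∀ᶠ c in cofinite, f c ∉ M.Z := off.mono fun _ a b => a (.inl b)
  have hb : S.π (f c₀) ∉ B := fun a => h0 (.inr (.inr (mem_biUnion a rfl)))
  obtain ⟨g1, g2⟩ := h1 X S L M C f hf hnc ⟨c₀, fun a => h0 (.inl a)⟩ hπ
    fun c => (hB' _ (hπ c₀ c ▸ hb)).1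
  refine ⟨g1, fun i => ?_⟩
  obtain ⟨w, hw⟩ := S.Λ.mkQ_surjective (S.π (f c₀))
  have pu : ∑ᶠ c, po (uf M ∘ f) c = 0 := by
    refine finsum_eq_zero_of_forall_eq_zero fun c => ?_
    rw [po_congr (v := fun _ => L.weierstrassP w), po_const]
    filter_upwards [cof_iff.1 off' c] with y a
    exact (M.hu _ a w ((hπ y c₀).trans hw.symm)).2
  have k1 := hk' i C (M.f i ∘ f) (uf M ∘ f) (xf M ∘ f) (hf.me (lq_f M _) off')
    (hf.me (lq_f M _) off') (hf.me (lq_f M _) off') (off.mono fun c a =>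
      ⟨fun b => a (.inr (.inl (mem_biUnion (mem_univ i) (.inr b)))), hK i _ fun b => a (.inl b)⟩)
  rw [pu, zero_add] at k1
  have k2 : (k' i : ℤ) ≤ ∑ i, (k' i : ℤ) :=
    Finset.single_le_sum (f := fun i => (k' i : ℤ)) (fun _ _ => Int.natCast_nonneg _)
      (Finset.mem_univ i)
  have k3 : (0 : ℤ) ≤ M.μ * (2 * (Module.finrank ℂ (Om C) : ℤ) - 2) :=
    mul_nonneg (Int.natCast_nonneg _) (by omega)
  refine k1.trans ((mul_le_mul k2 g2 (su_nonneg fun _ => po_nonneg)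
    ((Int.natCast_nonneg _).trans k2)).trans_eq ?_)
  push_cast
  ring

end Pool.Agent.P.MP_7ede32_ag.Bnd
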