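import Pool.Agent.P.MP_7ede32_ag.Bnd.DY
import Pool.Agent.P.MP_7ede32_ag.Bnd.XT

/-!
The inequality in the working case.
-/

open Filter Topology Metric Set

noncomputable section

namespace Pool.Agent.P.MP_7ede32_ag.Bnd

open Full Geo
open MP_5d7cf0_gt.T (RS zc loc An Hf Om Hol)
open MP_5d7cf0_gt.T renaming D → Dc

namespace WkP

variable {X : Type} [MetricSpace X] {S : Sf0 X} {L L'' : PeriodPair} {C : Type}
  [TopologicalSpace C] [ChartedSpace ℂ C] [RS C] {B : Bc L'' C} {f : C → X} {γ : ℂ → C} {z : ℂ}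

theorem yc_eq (M : Mf S L) (d : ℕ) (cf : ℕ → X → ℂ) (hf : HolC S f) (h : B.ShF γ z)
    (hw : B.w (γ z) ≠ 0) (h0 : f (γ z) ∉ M.Z) : YC M d cf f (γ z) = Yv M d cf (f ∘ γ) z := by
  have a1 := (h.an (xf M ∘ f) (hf.an ((lq_f M M.ix).anAt (cz_M M) h0))).2
  have a2 := (h.an (uf M ∘ f) (hf.an ((lq_f M M.iu).anAt (cz_M M) h0))).2
  unfold YC Yv sl
  rw [← a1, ← a2, mul_div_mul_right _ _ hw]
  rfl

omit [MetricSpace X] in
theorem gen_off {Z : Set X} (h0 : ∀ᶠ c in cofinite, f c ∉ Z) (h : B.ShF γ z) :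
    ∀ᶠ w in 𝓝[≠] z, (f ∘ γ) w ∉ Z := by
  have := cof_iff.1 h0 (γ z)
  rw [← h.map_ne] at this
  exact this

end WkP

open WkP in
theorem sWk (h1 : SDU) (h2 : SCDx) (h3 : SShp) (h4 : SCoreC) (h5 : SPsB) (h6 : SPoY) (h7 : SBw)
    (h8 : SDegB) (h9 : SSh) : SWk := by
  intro X _ _ S L L'' σ M g hle
  obtain ⟨u⟩ := h1 X S L L'' σ M g hle
  obtain ⟨k, hk⟩ := h2 X S L L'' σ M g u
  obtain ⟨K₁, hK, a3⟩ := h3 X S L L'' σ M g u
  obtain ⟨M₀, a4⟩ := h4 L'' (u.pm K₁ hK k)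
  obtain ⟨R, hR, b3⟩ := a3 M₀
  obtain ⟨A, hA⟩ := a4 R hR
  obtain ⟨k', hk'⟩ := (h5 g.A.H₁).2 g.A.K g.A.k
  obtain ⟨k₆, hk₆⟩ := h6 X S L L'' M g.A g.z hle.le
  obtain ⟨⟨k₀, hk₀⟩, -⟩ := h7 L'' g.z.N₀ (fun p hp w hw => (g.z.per p (hle.le hp) w).2 hw) g.z.disc
  refine ⟨A + k' * (k₆ * (k₀ * A + 1) + A), fun C _ _ _ B f hf ho h0 => ?_⟩
  obtain ⟨d, dχ, dY, dG⟩ := hk K₁ hK C B f hf ho h0
  have off : ∀ᶠ c in cofinite, f c ∉ g.Z := hf.off g.cz h0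
  have offA : ∀ᶠ c in cofinite, f c ∉ g.A.Z := off.mono fun c a b => a (g.sub b)
  have offM : ∀ᶠ c in cofinite, f c ∉ M.Z := offA.mono fun c a b => a (g.A.sub b)
  obtain ⟨c1, c2⟩ := hA C B d fun γ hγ => by
    have sh := (h9 L'' C B).1 _ γ isOpen_ball hγ
    obtain ⟨t1, t2, t3⟩ := b3 (f ∘ γ) (hf.sec h9 ho isOpen_ball hγ)
      fun w hw => gen_off off (sh w hw)
    have hP : ∀ z ∈ u.P, z ∈ ball (0 : ℂ) R := fun z hz =>
      closedBall_subset_ball (by linarith) (u.tile.sub hz)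
    have e2 : ∑ᶠ z ∈ u.P, od d.G (γ z) = u.T2 (f ∘ γ) :=
      finsum_mem_congr rfl fun z hz => by
        rw [← ((sh z (hP z hz)).mr _ (d.mG _)).2, dG]
        rfl
    have e3 : ∑ᶠ z ∈ u.P, ze (fun y => d.χ y - g.y₀) (γ z) = u.T3 (f ∘ γ) :=
      finsum_mem_congr rfl fun z hz => by
        rw [ze, ← ((sh z (hP z hz)).mr _ ((d.mχ _).sub (mr_const _))).2, dχ]
        rfl
    refine ⟨fun z hz => ?_, e2.ge.trans' t2, t3.imp e2.ge.trans' e3.ge.trans'⟩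
    have hz' : z ∈ ball (0 : ℂ) R := ball_subset_ball hR hz.1
    filter_upwards [t1 z hz, gen_off offM (sh z hz'),
      mem_nhdsWithin_of_mem_nhds (isOpen_ball.mem_nhds hz')] with z' e1 e4 e5
    refine ⟨fun i => ?_, by rw [dχ]; exact e1.2⟩
    rw [dχ, dY, yc_eq M _ _ hf (sh z' e5) (hγ z' e5).2.2 e4]
    exact e1.1 i
  have hd := h8 L'' C B
  have r0 := hd.ρ_nonneg
  have mu : Me (uf M ∘ f) := hf.me (lq_f M M.iu) offM
  obtain ⟨w1, -, w3⟩ := hk₀ C B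
  have w4 := w3 univ B.n fun z => by rw [univ_inter, hd.sum]
  rw [sm_univ] at w4
  have w5 := su_le mu.fs_po (w1.mul k₆) (hk₆ C B f hf ho offA).1
  rw [su_mul] at w5
  have w6 : (k₀ : ℤ) * B.n ≤ k₀ * (A * B.ρ) := mul_le_mul_of_nonneg_left c1 (by positivity)
  have w7 : ∑ᶠ c, po (uf M ∘ f) c ≤ k₆ * (k₀ * (A * B.ρ) + B.ρ) :=
    w5.trans (mul_le_mul_of_nonneg_left (by linarith) (by positivity))
  rw [dχ] at c2
  have w8 : (0 : ℤ) ≤ A * B.ρ := by positivity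
  have w9 : (0 : ℤ) ≤ k' * (k₆ * (k₀ * A + 1) + A) * B.ρ := by positivity
  push_cast
  refine ⟨by linarith, fun i => ?_⟩
  have v1 := hk' C (M.f i ∘ f) (uf M ∘ f) (g.A.χ ∘ f) (hf.me (lq_f M i) offM) mu
    (hf.me g.A.lχ offA) (offA.mono fun c hc => ⟨(g.A.off _ hc).2.1, g.A.c4 i _ hc⟩)
  have v2 := mul_le_mul_of_nonneg_left (add_le_add w7 c2) (show (0 : ℤ) ≤ k' by positivity)
  linarith

end Pool.Agent.P.MP_7ede32_ag.Bnd
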