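import Pool.Agent.P.MP_7ede32_ag.Bnd.AllR
import Pool.Agent.P.MP_7ede32_ag.Bnd.TrAll
import Pool.Agent.P.MP_7ede32_ag.Bnd.SecE
import Pool.Agent.P.MP_7ede32_ag.Bnd.ExtM1
import Pool.Agent.P.MP_7ede32_ag.Bnd.Lev
import Pool.Agent.P.MP_7ede32_ag.Bnd.Vert
import Pool.Agent.P.MP_7ede32_ag.Bnd.SuE
import Pool.Agent.P.MP_7ede32_ag.Bnd.Th
import Pool.Agent.P.MP_7ede32_ag.Bnd.VO
import Pool.Agent.P.MP_7ede32_ag.Bnd.QE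
import Pool.Agent.P.MP_7ede32_ag.Bnd.QD
import Pool.Agent.P.MP_7ede32_ag.Bnd.DU
import Pool.Agent.P.MP_7ede32_ag.Bnd.S1
import Pool.Agent.P.MP_7ede32_ag.Bnd.S2
import Pool.Agent.P.MP_7ede32_ag.Bnd.PoY
import Pool.Agent.P.MP_7ede32_ag.Bnd.CDx
import Pool.Agent.P.MP_7ede32_ag.Bnd.Wk
import Pool.Agent.P.MP_7ede32_ag.Bnd.CzPr
import Pool.Agent.P.MP_7ede32_ag.Bnd.CvW
import Pool.Agent.P.MP_7ede32_ag.Bnd.Hor
import Pool.Agent.P.MP_7ede32_ag.Bnd.Fin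

/-!
Assembly.
-/

namespace Pool.Agent.P.MP_7ede32_ag.Bnd

theorem aVO : SVO := sVO sTh (sNFq sTh) sConn

theorem aQD : SQD := sQD aZf (sY0 aVO (sOdT sTh)) aVO (sOdT sTh) (sQE sTh)

theorem aPoY : SPoY := sPoY sPoB sSph aBw aDegB

theorem aWk : SWk :=
  sWk (sDU aTileE) (sCDx aPoY aPsB aBw aDegB) (sShp sS1 sS2 (sS3 aExtM aAlgE)) aCoreC aPsB aPoY
    aBw aDegB sSh

theorem aHor : SHor :=
  sHor sCvW sExtM1 sSu aAC aQD aWk sCzPr sCovRS sLiftC aCovN (sLev aFibC) aDegB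

theorem aBdd : SBdd := fun 𝒳 m N a b hb =>
  let ⟨n, z₁, hn, ⟨s⟩⟩ := exists_secC 𝒳
  sDesc8 aHor (sVertB (sVert1 aOd aKD) aPsB) sExtM1 (sLev aFibC) sBc aKD aDegB 𝒳 n z₁ m N a b hn
    s hb

theorem aFinal : SFinal := sFinal aBdd

end Pool.Agent.P.MP_7ede32_ag.Bnd
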