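import Pool.Agent.P.MP_7ede32_ag.Bnd.DP
import Pool.Agent.P.MP_7ede32_ag.Hod.Area

/-!
The area formula for the number of preimages.
-/

open Set Filter Topology MeasureTheory Function
open scoped ENNReal

namespace Pool.Agent.P.MP_7ede32_ag.Bnd

namespace Area2P

lemma encard_eq {t : ℕ → Set ℂ} {g : ℂ → ℂ} (hd : Pairwise (Disjoint on t))
    (hi : ∀ n, InjOn g (t n)) (y : ℂ) :
    ({v | v ∈ ⋃ n, t n ∧ g v = y}.encard : ℝ≥0∞) =
      ∑' n, indicator (g '' t n) (fun _ => (1 : ℝ≥0∞)) y := by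
  have hs : ∀ n, ({v | v ∈ t n ∧ g v = y} : Set ℂ).Subsingleton := fun n a ha b hb =>
    hi n ha.1 hb.1 (ha.2.trans hb.2.symm)
  have hm : ∀ n, MeasurableSet {v | v ∈ t n ∧ g v = y} := fun n => (hs n).measurableSet
  have hU : {v | v ∈ ⋃ n, t n ∧ g v = y} = ⋃ n, {v | v ∈ t n ∧ g v = y} := by
    ext v
    simp only [mem_ofPred_eq, mem_iUnion, exists_and_right]
  rw [hU, ← Measure.count_apply (MeasurableSet.iUnion hm),
    measure_iUnion (fun a b h => (hd h).mono (fun _ z => z.1) fun _ z => z.1) hm]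
  refine tsum_congr fun n => ?_
  by_cases h : y ∈ g '' t n
  · obtain ⟨v, hv, hy⟩ := id h
    rw [indicator_of_mem h, (hs n).eq_singleton_of_mem ⟨hv, hy⟩, Measure.count_singleton]
  · rw [indicator_of_notMem h,
      eq_empty_of_forall_notMem (s := {v | v ∈ t n ∧ g v = y}) fun v hv => h ⟨v, hv.1, hv.2⟩,
      measure_empty]

end Area2P

open Hod.AreaP Area2P in
theorem sArea2 : SArea2 := by
  intro W g hW hg
  have hO : IsOpen {v | AnalyticAt ℂ g v ∧ deriv g v ≠ 0} := by
    refine isOpen_iff_mem_nhds.2 fun v hv => ?_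
    filter_upwards [hv.1.eventually_analyticAt, hv.1.deriv.continuousAt.eventually_ne hv.2]
      with w h1 h2
    exact ⟨h1, h2⟩
  obtain ⟨s, hm, hd, hU, hinj⟩ := exists_pieces (g := g) hO fun v hv => hv
  set t : ℕ → Set ℂ := fun n => s n ∩ W with ht
  have tm : ∀ n, MeasurableSet (t n) := fun n => (hm n).inter hW
  have td : Pairwise (Disjoint on t) := fun a b h =>
    (hd h).mono inter_subset_left inter_subset_left
  have ti : ∀ n, InjOn g (t n) := fun n => (hinj n).mono inter_subset_left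
  have tU : ⋃ n, t n = W := by
    rw [ht, ← iUnion_inter, hU]
    exact inter_eq_right.2 hg
  have hder : ∀ n, ∀ x ∈ t n, HasFDerivWithinAt g (dm (deriv g x)) (t n) x := fun n x hx =>
    ((hg x hx.2).1.differentiableAt.hasDerivAt.hasFDerivAt.restrictScalars ℝ).hasFDerivWithinAt
  have hmi : ∀ n, MeasurableSet (g '' t n) := fun n =>
    measurable_image_of_fderivWithin (tm n) (hder n) (ti n)
  have hI : ∀ n, Measurable (indicator (g '' t n) fun _ => (1 : ℝ≥0∞)) := fun n =>
    measurable_const.indicator (hmi n)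
  have hf : (fun y => ({v | v ∈ W ∧ g v = y}.encard : ℝ≥0∞)) =
      fun y => ∑' n, indicator (g '' t n) (fun _ => (1 : ℝ≥0∞)) y := by
    funext y
    rw [← encard_eq td ti y, tU]
  rw [hf]
  refine ⟨Measurable.tsum hI, ?_⟩
  rw [lintegral_tsum fun n => (hI n).aemeasurable, ← tU, lintegral_iUnion tm td]
  refine tsum_congr fun n => ?_
  rw [lintegral_indicator (hmi n),
    lintegral_image_eq_lintegral_abs_det_fderiv_mul volume (tm n) (hder n) (ti n)]
  simp only [det_dm, mul_one]

end Pool.Agent.P.MP_7ede32_ag.Bnd
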