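import Pool.Agent.P.MP_7ede32_ag.Bnd.DR

/-!
The area lemma on a compact Riemann surface.
-/

open Filter Topology Metric Set Function MeasureTheory
open scoped ENNReal

noncomputable section

namespace Pool.Agent.P.MP_7ede32_ag.Bnd

open MP_5d7cf0_gt.T (RS zc loc An)
open MP_5d7cf0_gt.T renaming D → Dc

namespace AreaCP

lemma enc_le {α ι : Type} [Fintype ι] (s : ι → Set α) :
    ((⋃ i, s i).encard : ℝ≥0∞) ≤ ∑ i, ((s i).encard : ℝ≥0∞) := by
  let _ : MeasurableSpace α := ⊤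
  simp_rw [← Measure.count_apply (MeasurableSpace.measurableSet_top)]
  exact measure_iUnion_fintype_le _ _

lemma enc_eq {α ι : Type} [Fintype ι] (s : ι → Set α) (h : Pairwise (Disjoint on s)) :
    ((⋃ i, s i).encard : ℝ≥0∞) = ∑ i, ((s i).encard : ℝ≥0∞) := by
  let _ : MeasurableSpace α := ⊤
  simp_rw [← Measure.count_apply (MeasurableSpace.measurableSet_top)]
  rw [measure_iUnion h fun _ => MeasurableSpace.measurableSet_top, tsum_fintype]

variable {C : Type} [TopologicalSpace C] [ChartedSpace ℂ C]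

/-- the number of points of `A` where `u` takes the value `y` -/
def cnt (A : Set C) (u : C → ℂ) (y : ℂ) : ℝ≥0∞ := ((A ∩ {c | u c = y}).encard : ℝ≥0∞)

/-- the energy of `u` on `A` in the chart at `p` -/
def en (p : C) (A : Set C) (u : C → ℂ) : ℝ≥0∞ :=
  ∫⁻ v in zc p '' A, ENNReal.ofReal (‖deriv (loc u p) v‖ ^ 2)

lemma cnt_eq {p : C} {A : Set C} (hA : A ⊆ (chartAt ℂ p).source) (u : C → ℂ) (y : ℂ) :
    cnt A u y = ({v | v ∈ zc p '' A ∧ loc u p v = y}.encard : ℝ≥0∞) := by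
  have h1 : {v | v ∈ zc p '' A ∧ loc u p v = y} = zc p '' (A ∩ {c | u c = y}) := by
    ext v
    constructor
    · rintro ⟨⟨c, hc, rfl⟩, h⟩
      exact ⟨c, ⟨hc, by rwa [MP_5d7cf0_gt.T.loc_zc (hA hc)] at h⟩, rfl⟩
    · rintro ⟨c, ⟨hc, h⟩, rfl⟩
      exact ⟨⟨c, hc, rfl⟩, by rwa [MP_5d7cf0_gt.T.loc_zc (hA hc)]⟩
  rw [h1, cnt, InjOn.encard_image]
  exact (chartAt ℂ p).injOn.mono (inter_subset_left.trans hA)

lemma meas_image {p : C} {A : Set C} (hA : A ⊆ (chartAt ℂ p).source)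
    (hm : @MeasurableSet C (borel C) A) : MeasurableSet (zc p '' A) := by
  let _ : MeasurableSpace C := borel C
  have : BorelSpace C := ⟨rfl⟩
  have h1 : Measurable ((chartAt ℂ p).target.domRestrict (chartAt ℂ p).symm) :=
    (chartAt ℂ p).continuousOn_symm.domRestrict.measurable
  have h2 := (MeasurableEmbedding.subtype_coe
    (chartAt ℂ p).open_target.measurableSet).measurableSet_image.2 (h1 hm)
  convert h2 using 1
  ext v
  constructor
  · rintro ⟨c, hc, rfl⟩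
    refine ⟨⟨_, MP_5d7cf0_gt.T.zc_mem (hA hc)⟩, ?_, rfl⟩
    change (chartAt ℂ p).symm (zc p c) ∈ A
    rwa [MP_5d7cf0_gt.T.symm_zc (hA hc)]
  · rintro ⟨⟨w, hw⟩, h, rfl⟩
    exact ⟨_, h, MP_5d7cf0_gt.T.zc_symm hw⟩

variable [RS C]

lemma pieces (C : Type) [TopologicalSpace C] [ChartedSpace ℂ C] [RS C] :
    ∃ (n : ℕ) (p : Fin n → C) (S : Fin n → Set C), Pairwise (Disjoint on S) ∧ ⋃ i, S i = univ ∧
      ∀ i, S i ⊆ (chartAt ℂ (p i)).source ∧ @MeasurableSet C (borel C) (S i) := by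
  let _ : MeasurableSpace C := borel C
  have : BorelSpace C := ⟨rfl⟩
  obtain ⟨t, ht⟩ := isCompact_univ.elim_finite_subcover (fun p : C => (chartAt ℂ p).source)
    (fun p => (chartAt ℂ p).open_source) fun c _ => mem_iUnion.2 ⟨c, mem_chart_source ℂ c⟩
  set p : Fin t.card → C := fun i => t.equivFin.symm i with hp
  refine ⟨t.card, p, disjointed fun i => (chartAt ℂ (p i)).source, disjoint_disjointed _, ?_,
    fun i => ⟨disjointed_subset _ i, ?_⟩⟩
  · rw [iUnion_disjointed, eq_univ_iff_forall]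
    intro c
    obtain ⟨q, hq, hc⟩ := mem_iUnion₂.1 (ht (mem_univ c))
    exact mem_iUnion.2 ⟨t.equivFin ⟨q, hq⟩, by simpa [hp] using hc⟩
  · rw [disjointed_eq_inter_compl]
    exact (chartAt ℂ (p i)).open_source.measurableSet.inter
      (MeasurableSet.biInter (to_countable _) fun j _ =>
        (chartAt ℂ (p j)).open_source.measurableSet.compl)

lemma main_eq (h : SArea2) {p : C} {A : Set C} (hA : A ⊆ (chartAt ℂ p).source)
    (hm : @MeasurableSet C (borel C) A) {u : C → ℂ} (hu : ∀ c ∈ A, An u c ∧ Dc u c ≠ 0) :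
    Measurable (cnt A u) ∧ ∫⁻ y, cnt A u y = en p A u := by
  have h1 := h _ (loc u p) (meas_image hA hm) (by
    rintro _ ⟨c, hc, rfl⟩
    refine ⟨(hu c hc).1.loc (hA hc), fun h0 => (hu c hc).2 ?_⟩
    rw [MP_5d7cf0_gt.T.D_eq (hA hc) (hu c hc).1, h0, zero_mul])
  have h2 : cnt A u = _ := funext (cnt_eq hA u)
  rw [h2]
  exact h1

lemma en_le (h : SArea2) {p : C} {A : Set C} (hA : A ⊆ (chartAt ℂ p).source)
    (hm : @MeasurableSet C (borel C) A) {u : C → ℂ} (hu : ∀ c ∈ A, An u c) :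
    ∃ g : ℂ → ℝ≥0∞, Measurable g ∧ (∀ y, g y ≤ cnt A u y) ∧ en p A u = ∫⁻ y, g y := by
  have hV := meas_image hA hm
  have hT : MeasurableSet {v | deriv (loc u p) v ≠ 0} :=
    (measurable_deriv (loc u p)) (measurableSet_singleton 0).compl
  have h1 := h _ (loc u p) (hV.inter hT) (by
    rintro _ ⟨⟨c, hc, rfl⟩, h0⟩
    exact ⟨(hu c hc).loc (hA hc), h0⟩)
  refine ⟨_, h1.1, fun y => ?_, ?_⟩
  · rw [cnt_eq hA]
    exact ENat.toENNReal_le.2 (encard_le_encard fun v hv => ⟨hv.1.1, hv.2⟩)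
  · rw [h1.2, en, ← lintegral_indicator hV, ← lintegral_indicator (hV.inter hT)]
    refine lintegral_congr fun v => ?_
    by_cases h2 : v ∈ zc p '' A
    · by_cases h3 : deriv (loc u p) v = 0
      · rw [indicator_of_mem h2, indicator_of_notMem (fun h4 => h4.2 h3), h3]; simp
      · rw [indicator_of_mem h2, indicator_of_mem (show v ∈ _ ∩ _ from ⟨h2, h3⟩)]
    · rw [indicator_of_notMem h2, indicator_of_notMem fun h4 => h2 h4.1]

lemma en_cmp {p : C} {A : Set C} (hA : A ⊆ (chartAt ℂ p).source)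
    (hm : @MeasurableSet C (borel C) A) {ξ z z' : C → ℂ} {K : ℝ}
    (hu : ∀ c ∈ A, An ξ c ∧ An z c ∧ An z' c ∧ ‖Dc ξ c‖ ≤ K * (‖Dc z c‖ + ‖Dc z' c‖)) :
    en p A ξ ≤ ENNReal.ofReal (2 * K ^ 2) * (en p A z + en p A z') := by
  have hme : ∀ u : C → ℂ, Measurable fun v => ENNReal.ofReal (‖deriv (loc u p) v‖ ^ 2) :=
    fun u => ((measurable_deriv (loc u p)).norm.pow_const 2).ennreal_ofReal
  rw [en, en, en, ← lintegral_add_left (hme z), ← lintegral_const_mul' _ _ ENNReal.ofReal_ne_top]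
  refine setLIntegral_mono' (meas_image hA hm) ?_
  rintro _ ⟨c, hc, rfl⟩
  obtain ⟨h1, h2, h3, h4⟩ := hu c hc
  rw [MP_5d7cf0_gt.T.D_eq (hA hc) h1, MP_5d7cf0_gt.T.D_eq (hA hc) h2,
    MP_5d7cf0_gt.T.D_eq (hA hc) h3, norm_mul, norm_mul, norm_mul, ← add_mul, ← mul_assoc] at h4
  have h5 := le_of_mul_le_mul_right h4 (norm_pos_iff.2 (MP_5d7cf0_gt.T.D_zc_ne (hA hc)))
  rw [← ENNReal.ofReal_add (by positivity) (by positivity),
    ← ENNReal.ofReal_mul (by positivity)]
  refine ENNReal.ofReal_le_ofReal ?_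
  have h6 := pow_le_pow_left₀ (norm_nonneg _) h5 2
  nlinarith [mul_nonneg (sq_nonneg K) (sq_nonneg (‖deriv (loc z p) (zc p c)‖ -
    ‖deriv (loc z' p) (zc p c)‖))]

lemma sum_en (h : SArea2) {n : ℕ} {p : Fin n → C} {S : Fin n → Set C}
    (hd : Pairwise (Disjoint on S))
    (hS : ∀ i, S i ⊆ (chartAt ℂ (p i)).source ∧ @MeasurableSet C (borel C) (S i))
    {W : Set C} (hW : @MeasurableSet C (borel C) W) {u : C → ℂ} {a : ℂ} {R N : ℝ}
    (hu : ∀ c ∈ W, An u c ∧ ‖u c - a‖ ≤ R)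
    (hN : ∀ y, (W ∩ {c | u c = y}).Finite ∧ ((W ∩ {c | u c = y}).ncard : ℝ) ≤ N) :
    ∑ i, en (p i) (W ∩ S i) u ≤ ENNReal.ofReal N * (ENNReal.ofReal (R ^ 2) * NNReal.pi) := by
  choose g h1 h2 h3 using fun i => en_le h (A := W ∩ S i) (u := u)
    (inter_subset_right.trans (hS i).1) (hW.inter (hS i).2) fun c hc => (hu c hc.1).1
  simp_rw [h3]
  rw [← lintegral_finsetSum _ fun i _ => h1 i]
  have h4 : ∀ y, ∑ i, g i y ≤ (closedBall a R).indicator (fun _ => ENNReal.ofReal N) y := by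
    intro y
    have h5 : ∑ i, g i y ≤ cnt W u y := by
      refine (Finset.sum_le_sum fun i _ => h2 i y).trans ?_
      simp only [cnt]
      rw [← enc_eq _ fun i j hij => (hd hij).mono (fun _ hc => hc.1.2) fun _ hc => hc.1.2]
      exact ENat.toENNReal_le.2 (encard_le_encard (iUnion_subset fun i c hc => ⟨hc.1.1, hc.2⟩))
    refine h5.trans ?_
    by_cases hy : y ∈ closedBall a R
    · rw [indicator_of_mem hy, cnt, ← (hN y).1.cast_ncard_eq, ENat.toENNReal_coe,
        ← ENNReal.ofReal_natCast]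
      exact ENNReal.ofReal_le_ofReal (hN y).2
    · rw [indicator_of_notMem hy, cnt, eq_empty_of_forall_notMem (s := W ∩ {c | u c = y})
        fun c hc => hy (by rw [mem_closedBall, dist_eq_norm, ← hc.2]; exact (hu c hc.1).2)]
      simp
  refine (lintegral_mono h4).trans ?_
  rw [lintegral_indicator_const measurableSet_closedBall, Complex.volume_closedBall]
  gcongr
  rcases le_total 0 R with hR | hR
  · rw [ENNReal.ofReal_pow hR]
  · rw [ENNReal.ofReal_of_nonpos hR]; simp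

end AreaCP

open AreaCP in
theorem sAreaC (h : SArea2) : SAreaC := by
  intro C _ _ _ ι _ W ξ z z' a K R r N y₀ E hr hN hE hW hc
  let _ : MeasurableSpace C := borel C
  obtain ⟨n, p, S, hd, hU, hS⟩ := pieces C
  have hA : ∀ j i, W j ∩ S i ⊆ (chartAt ℂ (p i)).source :=
    fun j i => inter_subset_right.trans (hS i).1
  have hm : ∀ j i, MeasurableSet (W j ∩ S i) := fun j i => (hW j).1.inter (hS i).2
  have h1 := fun j i => main_eq h (hA j i) (hm j i) (u := ξ) fun c hc =>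
    ⟨((hW j).2 c hc.1).1, ((hW j).2 c hc.1).2.1⟩
  set G : ℂ → ℝ≥0∞ := fun y => ∑ j, ∑ i, cnt (W j ∩ S i) ξ y with hG
  have hGm : Measurable G :=
    Finset.measurable_sum _ fun j _ => Finset.measurable_sum _ fun i _ => (h1 j i).1
  set b : ℝ := 4 * K ^ 2 * R ^ 2 / r ^ 2 * Fintype.card ι * N with hb
  have hb0 : 0 ≤ b := by positivity
  have h2 : ∫⁻ y, G y ≤ ENNReal.ofReal b * volume (ball y₀ r) := by
    rw [hG, lintegral_finsetSum _ fun j _ => Finset.measurable_sum _ fun i _ => (h1 j i).1]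
    have h3 : ∀ j, ∫⁻ y, ∑ i, cnt (W j ∩ S i) ξ y ≤
        ENNReal.ofReal (4 * K ^ 2 * R ^ 2 * N) * NNReal.pi := fun j => by
      rw [lintegral_finsetSum _ fun i _ => (h1 j i).1]
      have h4 := sum_en h hd hS (hW j).1 (u := z j) (a := a j) (R := R) (N := N)
        (fun c hc => ⟨((hW j).2 c hc).2.2.1, ((hW j).2 c hc).2.2.2.2.2.1⟩)
        fun y => ⟨(hc j y).1, (hc j y).2.1⟩
      have h5 := sum_en h hd hS (hW j).1 (u := z' j) (a := a j) (R := R) (N := N)
        (fun c hc => ⟨((hW j).2 c hc).2.2.2.1, ((hW j).2 c hc).2.2.2.2.2.2⟩)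
        fun y => ⟨(hc j y).2.2.1, (hc j y).2.2.2⟩
      calc ∑ i, ∫⁻ y, cnt (W j ∩ S i) ξ y
          ≤ ∑ i, ENNReal.ofReal (2 * K ^ 2) *
            (en (p i) (W j ∩ S i) (z j) + en (p i) (W j ∩ S i) (z' j)) := by
            refine Finset.sum_le_sum fun i _ => ?_
            rw [(h1 j i).2]
            exact en_cmp (hA j i) (hm j i) fun c hc =>
              let t := (hW j).2 c hc.1
              ⟨t.1, t.2.2.1, t.2.2.2.1, t.2.2.2.2.1⟩
        _ ≤ ENNReal.ofReal (2 * K ^ 2) * (ENNReal.ofReal N * (ENNReal.ofReal (R ^ 2) * NNReal.pi)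
            + ENNReal.ofReal N * (ENNReal.ofReal (R ^ 2) * NNReal.pi)) := by
            rw [← Finset.mul_sum, Finset.sum_add_distrib]
            gcongr
        _ = _ := by
            rw [← mul_assoc (ENNReal.ofReal N), ← add_mul, ← mul_assoc,
              ← ENNReal.ofReal_mul hN, ← ENNReal.ofReal_add (by positivity) (by positivity),
              ← ENNReal.ofReal_mul (by positivity)]
            congr 2
            ring
    refine (Finset.sum_le_sum fun j _ => h3 j).trans (le_of_eq ?_)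
    rw [Finset.sum_const, Finset.card_univ, nsmul_eq_mul, Complex.volume_ball,
      ← ENNReal.ofReal_pow hr.le, ← mul_assoc, ← mul_assoc, ← ENNReal.ofReal_natCast,
      ← ENNReal.ofReal_mul (by positivity), ← ENNReal.ofReal_mul hb0, hb]
    congr 2
    field_simp
  have hv0 : volume (ball y₀ r) ≠ 0 := (measure_ball_pos volume y₀ hr).ne'
  have hv1 : volume (ball y₀ r) ≠ ∞ := measure_ball_lt_top.ne
  have : Fact (volume (ball y₀ r) < ∞) := ⟨measure_ball_lt_top⟩
  obtain ⟨y, hy, hle⟩ := exists_notMem_null_le_laverage (μ := volume.restrict (ball y₀ r))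
    (f := G) (N := E ∪ (ball y₀ r)ᶜ) (by rwa [Ne, Measure.restrict_eq_zero]) hGm.aemeasurable (by
      refine measure_union_null (hE.measure_zero _) ?_
      rw [Measure.restrict_apply measurableSet_ball.compl, compl_inter_self, measure_empty])
  have h6 : G y ≤ ENNReal.ofReal b := by
    refine hle.trans ?_
    rw [laverage_eq, Measure.restrict_apply_univ]
    exact ENNReal.div_le_of_le_mul ((setLIntegral_le_lintegral _ _).trans h2)
  have h7 : ((((⋃ j, W j) ∩ {c | ξ c = y}).encard : ℕ∞) : ℝ≥0∞) ≤ ENNReal.ofReal b := by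
    refine le_trans ?_ h6
    rw [iUnion_inter]
    refine (enc_le _).trans (Finset.sum_le_sum fun j _ => ?_)
    refine le_trans (ENat.toENNReal_le.2 (encard_le_encard fun c hc => ?_)) (enc_le _)
    obtain ⟨i, hi⟩ := mem_iUnion.1 (hU ▸ mem_univ c)
    exact mem_iUnion.2 ⟨i, ⟨hc.1, hi⟩, hc.2⟩
  have h8 : ((⋃ j, W j) ∩ {c | ξ c = y}).Finite := by
    by_contra h9
    rw [Set.Infinite.encard_eq h9, ENat.toENNReal_top] at h7
    exact ENNReal.ofReal_ne_top (top_le_iff.1 h7)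
  refine ⟨y, by_contra fun h9 => hy (Or.inr h9), fun h9 => hy (Or.inl h9), h8, ?_⟩
  rw [← h8.cast_ncard_eq, ENat.toENNReal_coe, ← ENNReal.ofReal_natCast] at h7
  exact (ENNReal.ofReal_le_ofReal_iff hb0).1 h7

end Pool.Agent.P.MP_7ede32_ag.Bnd
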