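import Pool.Agent.P.MP_7ede32_ag.Bnd.RT2

/-!
The weights of the points of the curve, and finitely many bounded lifts.
-/

open Filter Topology Metric Set Function

noncomputable section

namespace Pool.Agent.P.MP_7ede32_ag.Bnd

open MP_5d7cf0_gt.T (RS zc loc An Hf Om Hol)
open MP_5d7cf0_gt.T renaming D → Dc

namespace BwP

theorem rep (L : PeriodPair) : ∃ R : ℝ, ∀ w, ∃ z ∈ closedBall (0 : ℂ) R, w - z ∈ L.lattice := by
  refine ⟨∑ i, ‖L.basis i‖, fun w => ⟨ZSpan.fract L.basis w,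
    mem_closedBall_zero_iff.2 (ZSpan.norm_fract_le _ _), ?_⟩⟩
  rw [ZSpan.fract_apply, sub_sub_cancel, L.lattice_eq_span_range_basis]
  exact (ZSpan.floor L.basis w).2

theorem reps (L : PeriodPair) {N₀ : Set ℂ} (h1 : ∀ p ∈ L.lattice, ∀ w ∈ N₀, w + p ∈ N₀)
    (h2 : ∀ w, ∀ᶠ z in 𝓝[≠] w, z ∉ N₀) :
    ∃ J : Finset ℂ, ∀ w ∈ N₀, ∃ z ∈ J, w - z ∈ L.lattice := by
  obtain ⟨R, hR⟩ := rep L
  have hf : (closedBall (0 : ℂ) R \ N₀ᶜ).Finite :=
    (isCompact_closedBall 0 R).finite_sdiff_of_mem_codiscreteWithin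
      (mem_codiscreteWithin_iff_forall_mem_nhdsNE.2 fun x _ =>
        mem_of_superset (h2 x) fun _ h => Or.inl h)
  refine ⟨hf.toFinset, fun w hw => ?_⟩
  obtain ⟨z, hz, hp⟩ := hR w
  refine ⟨z, hf.mem_toFinset.2 ⟨hz, fun h => h ?_⟩, hp⟩
  have := h1 _ (L.lattice.neg_mem hp) w hw
  rwa [show w + -(w - z) = z by ring] at this

theorem sm_sum {C ι : Type} {s : Finset ι} {F : ι → C → ℤ} {W : Set C} (h : ∀ i ∈ s, Fs (F i)) :
    ∑ᶠ c ∈ W, ∑ i ∈ s, F i c = ∑ i ∈ s, ∑ᶠ c ∈ W, F i c := by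
  classical
  induction s using Finset.induction_on with
  | empty => simp
  | insert a s ha ih =>
    have h1 := fun i hi => h i (Finset.mem_insert_of_mem hi)
    simp only [Finset.sum_insert ha]
    rw [sm_add (h a (Finset.mem_insert_self _ _)) (fs_sum h1), ih h1]

theorem sm_ind {C : Type} (W V : Set C) (f : C → ℤ) :
    ∑ᶠ c ∈ W, V.indicator f c = ∑ᶠ c ∈ W ∩ V, f c := by
  rw [finsum_mem_def, finsum_mem_def, indicator_indicator]

theorem fs_ind {C : Type} {V : Set C} (h : V.Finite) (f : C → ℤ) : Fs (V.indicator f) :=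
  h.subset (support_indicator_subset)

variable {C : Type} [TopologicalSpace C] [ChartedSpace ℂ C] {L : PeriodPair}

theorem mem_Fb (B : Bc L C) {c : C} {z : ℂ} (h : B.l c c - z ∈ L.lattice) : c ∈ B.Fb z :=
  Bc.Fb_eq (B := B) h ▸ B.mem_l c

theorem od_pb (B : Bc L C) {m : ℂ → ℂ} (hm : ∀ p ∈ L.lattice, ∀ w, m (w + p) = m w) {c : C}
    {z : ℂ} (h : c ∈ B.Fb z) (hz : MeromorphicAt m z) :
    Mr (B.pb m) c ∧ od (B.pb m) c = ord m z * B.e c := by
  have h1 : An (fun y => z + (B.l c y - B.l c c)) c :=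
    (MP_5d7cf0_gt.T.an_const z).add ((B.an c).sub (MP_5d7cf0_gt.T.an_const _))
  have h2 : B.pb m =ᶠ[𝓝[≠] c] fun y => m (z + (B.l c y - B.l c c)) :=
    ((Bc.near h).mono fun _ hy => Bc.pb_of hm hy).filter_mono nhdsWithin_le_nhds
  have h3 : z + (B.l c c - B.l c c) = z := by ring
  have h4 : MeromorphicAt m (z + (B.l c c - B.l c c)) := by rwa [h3]
  refine ⟨(mr_comp h1 h4).congr h2.symm, ?_⟩
  rw [od_congr h2, od_comp h1 h4 fun e => B.nc c (e.mono fun y hy => by linear_combination hy), h3,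
    Bc.e]
  congr 2
  funext y
  ring

end BwP

open BwP in
theorem sBw (h : SDegB) : SBw := by
  classical
  intro L N₀ h1 h2
  obtain ⟨J, hJ⟩ := reps L h1 h2
  have hb : ∀ (C : Type) [TopologicalSpace C] [ChartedSpace ℂ C] [RS C] (B : Bc L C) (c : C),
      B.e c - 1 ≤ B.bw N₀ c ∧ 0 ≤ B.bw N₀ c := by
    intro C _ _ _ B c
    have := (h L C B).one_le c
    rw [Bc.bw]
    split_ifs <;> omega
  refine ⟨⟨J.card, fun C _ _ _ B => ?_⟩, fun m hm hp ha => ?_⟩
  · have d := h L C B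
    have hF : ∀ z ∈ J, Fs ((B.Fb z).indicator B.e) := fun z _ => fs_ind (d.fin z) _
    have hle : ∀ c, B.bw N₀ c ≤ ∑ z ∈ J, (B.Fb z).indicator B.e c + (B.e c - 1) := by
      intro c
      have h0 : ∀ z ∈ J, 0 ≤ (B.Fb z).indicator B.e c := fun z _ =>
        indicator_nonneg (fun c _ => zero_le_one.trans (d.one_le c)) c
      rw [Bc.bw]
      split_ifs with hc
      · obtain ⟨z, hz, hp⟩ := hJ _ hc
        have h3 := Finset.single_le_sum h0 hz
        rw [indicator_of_mem (mem_Fb B hp)] at h3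
        omega
      · have := Finset.sum_nonneg h0
        omega
    have hs : Fs (B.bw N₀) := ((fs_sum hF).add d.fs).of_le (fun c => (hb C B c).2) hle
    refine ⟨hs, hb C B, fun W b hW => ?_⟩
    refine (sm_le hs ((fs_sum hF).add d.fs) fun c _ => hle c).trans ?_
    rw [sm_add (fs_sum hF) d.fs, sm_sum hF]
    simp only [sm_ind, hW, Finset.sum_const, nsmul_eq_mul]
    exact add_le_add_right (sm_le_univ d.fs fun c => sub_nonneg.2 (d.one_le c)) _
  · refine ⟨J.sup fun z => (-ord m z).toNat, fun C _ _ _ B c => ?_⟩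
    have d := (h L C B).one_le c
    refine ⟨(od_pb B hp (B.mem_l c) (hm _)).1, ?_⟩
    have hk : (0 : ℤ) ≤ (J.sup fun z => (-ord m z).toNat : ℕ) := Nat.cast_nonneg _
    have h0 := mul_nonneg hk (hb C B c).2
    by_cases hc : B.l c c ∈ N₀
    · obtain ⟨z, hz, hq⟩ := hJ _ hc
      have h3 : (-ord m z).toNat ≤ J.sup fun z => (-ord m z).toNat :=
        Finset.le_sup (f := fun z => (-ord m z).toNat) hz
      have h4 : -ord m z ≤ (J.sup fun z => (-ord m z).toNat : ℕ) := by omega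
      have h5 : B.e c ≤ B.bw N₀ c := by rw [Bc.bw, if_pos hc]; omega
      rw [po, (od_pb B hp (mem_Fb B hq) (hm _)).2]
      refine max_le ?_ h0
      rw [← neg_mul]
      exact (mul_le_mul_of_nonneg_right h4 (by omega)).trans (mul_le_mul_of_nonneg_left h5 hk)
    · rw [po_of_an (Bc.D_pb hp (B.mem_l c) (ha _ hc)).1]
      exact h0

open BwP in
theorem sLam : SLam := by
  classical
  intro L
  obtain ⟨R, hR⟩ := rep L
  obtain ⟨δ, hδ, h0⟩ := Metric.mem_nhds_iff.1 (L.compl_lattice_sdiff_singleton_mem_nhds 0)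
  obtain ⟨t, ht, hf, hc⟩ := (isCompact_closedBall (0 : ℂ) R).finite_cover_balls (half_pos hδ)
  let a : Fin hf.toFinset.card → ℂ := fun j => (hf.toFinset.equivFin.symm j).1
  refine ⟨hf.toFinset.card, R + δ / 2, fun C _ _ _ B => ?_⟩
  let V : Fin hf.toFinset.card → Set C := fun j => {c | ∃ s ∈ ball (a j) (δ / 2), c ∈ B.Fb s}
  have hz : ∀ j c, ∃ s, c ∈ V j → s ∈ ball (a j) (δ / 2) ∧ c ∈ B.Fb s := fun j c => by
    by_cases h : c ∈ V j
    · obtain ⟨s, hs⟩ := h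
      exact ⟨s, fun _ => hs⟩
    · exact ⟨0, fun h' => (h h').elim⟩
  choose z hz using hz
  have hu : ∀ j c s, s ∈ ball (a j) (δ / 2) → c ∈ B.Fb s → z j c = s := fun j c s h1 h2 => by
    obtain ⟨h3, h4⟩ := hz j c ⟨s, h1, h2⟩
    by_contra h5
    refine h0 (a := z j c - s) ?_ ⟨Bc.sub_mem h4 h2, fun h6 => h5 (sub_eq_zero.1 h6)⟩
    rw [mem_ball_zero_iff, ← dist_eq_norm]
    exact (dist_triangle_right _ _ (a j)).trans_lt (by linarith [mem_ball.1 h1, mem_ball.1 h3])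
  have hn : ∀ j, ∀ c ∈ V j, ∀ᶠ y in 𝓝 c, z j c + (B.l c y - B.l c c) ∈ ball (a j) (δ / 2) ∧
      y ∈ B.Fb (z j c + (B.l c y - B.l c c)) := fun j c h => by
    refine Eventually.and ?_ (Bc.near (hz j c h).2)
    have h1 : ContinuousAt (fun y => z j c + (B.l c y - B.l c c)) c :=
      continuousAt_const.add ((B.an c).continuousAt.sub continuousAt_const)
    exact h1.eventually (isOpen_ball.mem_nhds (by simpa using (hz j c h).1))
  refine ⟨V, z, fun c => ?_, fun j => ⟨isOpen_iff_mem_nhds.2 fun c h =>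
    (hn j c h).mono fun y hy => ⟨_, hy⟩, fun c h => ?_⟩⟩
  · obtain ⟨s, h1, h2⟩ := hR (B.l c c)
    obtain ⟨x, hx, h3⟩ := mem_iUnion₂.1 (hc h1)
    refine ⟨hf.toFinset.equivFin ⟨x, hf.mem_toFinset.2 hx⟩, s, ?_, mem_Fb B h2⟩
    simpa [a] using h3
  · have h1 : An (z j) c :=
      ((MP_5d7cf0_gt.T.an_const (z j c)).add ((B.an c).sub
        (MP_5d7cf0_gt.T.an_const (B.l c c)))).congr
        ((hn j c h).mono fun y hy => (hu j y _ hy.1 hy.2).symm)
    refine ⟨h1, (Bc.of_lift h1 ((hn j c h).mono fun y hy =>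
      (hz j y ⟨_, hy⟩).2)).1.symm, ?_, (hz j c h).2⟩
    have h2 : ‖a j‖ ≤ R :=
      mem_closedBall_zero_iff.1 (ht (hf.mem_toFinset.1 (hf.toFinset.equivFin.symm j).2))
    have h3 := mem_ball.1 (hz j c h).1
    rw [dist_eq_norm] at h3
    linarith [norm_le_insert' (z j c) (a j)]

end Pool.Agent.P.MP_7ede32_ag.Bnd
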