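import Pool.Agent.P.MP_7ede32_ag.Bnd.RT2

/-!
The core inequality on one compact Riemann surface.
-/

open Filter Topology Metric Set Function

noncomputable section

namespace Pool.Agent.P.MP_7ede32_ag.Bnd

open Full
open MP_5d7cf0_gt.T (RS zc loc An Hf Om Hol)
open MP_5d7cf0_gt.T renaming D → Dc

theorem sK3c (h1 : SK3b) (h2 : STileC) (h3 : SDegB) : SK3c := by
  intro L p
  have hK : 0 < p.K₁ := lt_of_lt_of_le one_pos p.one_le
  obtain ⟨C₂, hC⟩ := h1 L p (1 / (2 * p.K₁)) (by positivity)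
  refine ⟨C₂, fun C _ _ _ B d 𝒢 W b hP => ?_⟩
  have hd := h3 L C B
  have m0 : ∀ y : ℂ, Me fun x => d.χ x - y := fun y c => (d.mχ c).sub (mr_const y)
  by_cases hc : ∃ a, ∀ᶠ c in cofinite, d.χ c = a
  · obtain ⟨a, ha⟩ := hc
    have z : ∀ c, ze (fun x => d.χ x - p.y₀) c = 0 := fun c => by
      have e : (fun x => d.χ x - p.y₀) =ᶠ[𝓝[≠] c] fun _ => a - p.y₀ := by
        filter_upwards [cof_iff.1 ha c] with y hy
        rw [hy]
      rw [ze_congr e, ze, od_const]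
      rfl
    simp only [z, finsum_zero]
    exact mul_nonneg (Int.natCast_nonneg _) (add_nonneg (hP.toPrt.nonneg hd) hd.ρ_nonneg)
  obtain ⟨y, hy, hs⟩ := hC C B d 𝒢 W b hP hc
  have mF : Me fun x => (d.χ x - y) / (d.χ x - p.y₀) := fun c => (m0 y c).div (m0 p.y₀ c)
  obtain ⟨nF, sF⟩ := h2 L C B p.D p.P p.R₀ 𝒢 W b _ (fun _ => 1) p.tile hP.toPrt hP.ne mF
    (fun w _ => ⟨analyticAt_const, fun _ _ => rfl⟩) (fun _ _ => one_ne_zero) fun g hg =>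
      ⟨(hP.sh g hg).1, fun z hz => by
        filter_upwards [(hP.sh g hg).2 z hz] with z' ⟨_, a⟩
        have a1 : 0 < ‖d.χ (g z') - p.y₀‖ := by
          by_contra a2
          have := mul_nonpos_of_nonneg_of_nonpos hK.le (not_lt.1 a2)
          linarith
        have a2 : d.χ (g z') - p.y₀ ≠ 0 := norm_pos_iff.1 a1
        have a3 : (d.χ (g z') - y) / (d.χ (g z') - p.y₀) - 1 =
            -(y - p.y₀) / (d.χ (g z') - p.y₀) := by
          field_simp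
          ring
        rw [a3, norm_div, norm_neg, norm_one, div_le_iff₀ a1]
        rw [mem_ball, dist_eq_norm, lt_div_iff₀ (by positivity)] at hy
        have a4 := norm_nonneg (y - p.y₀)
        nlinarith⟩
  have ny : Nz fun x => d.χ x - y := by
    filter_upwards [nF] with c a a1
    exact a (by rw [a1, zero_div])
  have e : ∀ c, ze (fun x => (d.χ x - y) / (d.χ x - p.y₀)) c -
      po (fun x => (d.χ x - y) / (d.χ x - p.y₀)) c =
      ze (fun x => d.χ x - y) c - ze (fun x => d.χ x - p.y₀) c := fun c => by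
    rw [← od_eq, od_div (m0 y c) (m0 p.y₀ c) (ny.ne c) (d.nχ.ne c), od_eq, od_eq,
      po_sub_const (d.mχ c), po_sub_const (d.mχ c)]
    ring
  have s1 := sm_sub (W := W) mF.fs_ze mF.fs_po
  have s2 := sm_sub (W := W) (m0 y).fs_ze (m0 p.y₀).fs_ze
  simp only [e] at s1
  rw [s1] at s2
  linarith

namespace CoreP

theorem arith {C₀ C₂ k k₀ A₁ : ℕ} {n b ρ X Y N : ℤ} (hn : 0 ≤ n) (hb : b ≤ A₁ * ρ)
    (h1 : n = N + b) (h2 : X ≤ k * (k₀ * b + ρ + C₂ * (b + ρ)))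
    (h3 : Y ≤ C₀ * (n + ρ)) (h4 : ((2 * C₀ + 1 : ℕ) : ℤ) * N ≤ (2 * C₀ + 1 : ℕ) * X + Y) :
    n ≤ (((2 * C₀ + 1) * (k * (k₀ * A₁ + 1 + C₂ * (A₁ + 1)) + A₁) + C₀ : ℕ) : ℤ) * ρ := by
  have a1 : X ≤ (k * (k₀ * A₁ + 1 + C₂ * (A₁ + 1)) : ℤ) * ρ := by
    refine h2.trans ?_
    rw [mul_assoc]
    refine mul_le_mul_of_nonneg_left ?_ (Int.natCast_nonneg _)
    have b1 := mul_le_mul_of_nonneg_left hb (Int.natCast_nonneg k₀)
    have b2 := mul_le_mul_of_nonneg_left hb (Int.natCast_nonneg C₂)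
    nlinarith
  have a2 := mul_le_mul_of_nonneg_left (add_le_add a1 hb)
    (show (0 : ℤ) ≤ 2 * C₀ + 1 by positivity)
  have a3 := mul_nonneg (Int.natCast_nonneg C₀) hn
  have a4 : N = n - b := by linarith
  subst a4
  push_cast at h4 ⊢
  nlinarith

end CoreP

theorem sCoreC (h1 : SK2) (h2 : SK3c) (h3 : SSheets) (h4 : SPrt) (h5 : SBw) (h6 : SOd)
    (h7 : SDegB) : SCoreC := by
  intro L p
  obtain ⟨C₀, hC₀⟩ := h1 L p
  obtain ⟨C₂, hC₂⟩ := h2 L p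
  obtain ⟨k₀, hk₀⟩ := (h5 L p.N₀ (fun q hq w hw => (p.per q hq w).2 hw) p.disc).1
  refine ⟨2 * C₀ + 1, fun R hR => ?_⟩
  have hR₀ : 0 ≤ p.R₀ := by
    obtain ⟨w, ⟨a, -⟩, -⟩ := p.tile.uniq 0
    exact dist_nonneg.trans (mem_closedBall.1 (p.tile.sub a))
  obtain ⟨A₁, hA₁⟩ := h3 L R (by linarith)
  set A₂ : ℕ := (2 * C₀ + 1) * (p.k * (k₀ * A₁ + 1 + C₂ * (A₁ + 1)) + A₁) + C₀ with hA₂
  refine ⟨A₂ + C₀ * (A₂ + 1), fun C _ _ _ B d H => ?_⟩
  have hd := h7 L C B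
  have hρ := hd.ρ_nonneg
  have hχ := hC₀ C B d
  have key : B.n ≤ A₂ * B.ρ := by
    obtain ⟨𝒢, g1, g2, g3⟩ := hA₁ C B
    obtain ⟨W, b, hP⟩ := h4 L C B p.P R 𝒢 p.tile.uniq p.tile.meas
      (p.tile.sub.trans (closedBall_subset_ball (by linarith))) g1 g2
    have hb : b ≤ A₁ * B.ρ := by linarith [hP.card]
    rcases 𝒢.eq_empty_or_nonempty with rfl | ne
    · refine (by simpa using g3 : B.n ≤ A₁ * B.ρ).trans (mul_le_mul_of_nonneg_right ?_ hρ)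
      have : A₁ ≤ A₂ := by rw [hA₂]; nlinarith [Nat.zero_le (p.k * (k₀ * A₁ + 1 + C₂ * (A₁ + 1)))]
      exact_mod_cast this
    have m0 : Me fun x => d.χ x - p.y₀ := fun c => (d.mχ c).sub (mr_const _)
    have hz := hC₂ C B d 𝒢 W b ⟨hP, ne, fun g hg =>
      ⟨(g1 g hg).mono (ball_subset_ball hR), (H g (g1 g hg)).1⟩⟩
    obtain ⟨w1, w2, w3⟩ := hk₀ C B
    have w4 := w3 W b hP.fib
    have s1 := hP.split _ d.mG.fs_od
    rw [h6 C _ d.mG] at s1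
    have s2 : ∑ᶠ c ∈ W, od d.G c = ∑ᶠ c ∈ W, ze d.G c - ∑ᶠ c ∈ W, po d.G c := by
      rw [← sm_sub d.mG.fs_ze d.mG.fs_po]
      simp only [← od_eq]
    have s3 : 0 ≤ ∑ᶠ c ∈ W, ze d.G c := sm_nonneg fun _ _ => ze_nonneg
    have s4 := sm_le (W := W) d.mG.fs_po ((w1.add m0.fs_ze).mul p.k) fun c _ => d.poG c
    rw [sm_mul, sm_add w1 m0.fs_ze] at s4
    have s5 := hP.split _ m0.fs_ze
    rw [m0.sum_ze h6] at s5
    simp only [fun c => po_sub_const (d.mχ c) p.y₀] at s5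
    have s6 : 0 ≤ ∑ᶠ c ∈ W, ze (fun x => d.χ x - p.y₀) c := sm_nonneg fun _ _ => ze_nonneg
    have s7 : ∑ g ∈ 𝒢, ((2 * C₀ + 1 : ℕ) : ℤ) ≤ ∑ g ∈ 𝒢,
        (((2 * C₀ + 1 : ℕ) : ℤ) * ∑ᶠ z ∈ p.P, od d.G (g z) +
          ∑ᶠ z ∈ p.P, ze (fun y => d.χ y - p.y₀) (g z)) := by
      refine Finset.sum_le_sum fun g hg => ?_
      obtain ⟨a1, a2⟩ := (H g (g1 g hg)).2
      have a3 : 0 ≤ ∑ᶠ z ∈ p.P, ze (fun y => d.χ y - p.y₀) (g z) :=
        sm_nonneg fun _ _ => ze_nonneg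
      have a4 := Int.natCast_nonneg (2 * C₀ + 1)
      rcases a2 with a2 | a2
      · nlinarith
      · nlinarith
    rw [Finset.sum_add_distrib, ← Finset.mul_sum, Finset.sum_const, nsmul_eq_mul, mul_comm] at s7
    refine CoreP.arith (zero_le_one.trans hd.pos) hb hP.card ?_ ?_ s7
    · have := mul_le_mul_of_nonneg_left (add_le_add w4 hz) (Int.natCast_nonneg p.k)
      linarith
    · linarith
  have a1 := mul_le_mul_of_nonneg_left key (Int.natCast_nonneg C₀)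
  have a2 := mul_nonneg (Int.natCast_nonneg A₂) hρ
  have a3 := mul_nonneg (Int.natCast_nonneg C₀) (add_nonneg a2 hρ)
  push_cast
  constructor <;> nlinarith

end Pool.Agent.P.MP_7ede32_ag.Bnd
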