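import Pool.Agent.P.MP_7ede32_ag.Bnd.RT2

/-!
Degree and ramification of the cover over which the map lifts to the torus of `n L`.
-/

open Filter Topology Metric Set Function

noncomputable section

namespace Pool.Agent.P.MP_7ede32_ag.Bnd

open MP_5d7cf0_gt.T (RS)

namespace CovNP

/-- the representatives of `L` modulo `n L` -/
def rep (L : PeriodPair) {n : ℕ} (q : Fin n × Fin n) : ℂ :=
  ((q.1 : ℕ) : ℂ) * L.ω₁ + ((q.2 : ℕ) : ℂ) * L.ω₂

theorem exists_fin {n : ℕ} (hn : 0 < n) (a : ℤ) : ∃ (i : Fin n) (k : ℤ), a = (i : ℕ) + n * k := by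
  have h0 : (0 : ℤ) < n := by exact_mod_cast hn
  have h1 := Int.emod_nonneg a h0.ne'
  have h2 := Int.emod_lt_of_pos a h0
  refine ⟨⟨(a % n).toNat, by omega⟩, a / n, ?_⟩
  have h3 := Int.emod_add_mul_ediv a n
  simp only [Int.toNat_of_nonneg h1]
  exact h3.symm

theorem exists_rep (L : PeriodPair) {n : ℕ} (hn : 0 < n) {w : ℂ} (hw : w ∈ L.lattice) :
    ∃ q : Fin n × Fin n, w - rep L q ∈ (Hod.nL L n hn).lattice := by
  obtain ⟨a, b, rfl⟩ := PeriodPair.mem_lattice.1 hw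
  obtain ⟨i, k, rfl⟩ := exists_fin hn a
  obtain ⟨j, l, rfl⟩ := exists_fin hn b
  refine ⟨(i, j), Hod.mem_nL.2 ⟨k * L.ω₁ + l * L.ω₂, PeriodPair.mem_lattice.2 ⟨k, l, rfl⟩, ?_⟩⟩
  simp only [rep]
  push_cast
  ring

variable {L : PeriodPair} {n : ℕ} {hn : 0 < n} {C : Type} [TopologicalSpace C] [ChartedSpace ℂ C]
  {B : Bc L C} (V : CvC B (Hod.nL L n hn))

theorem exists_mem {a : V.C'} {z : ℂ} (h : V.p a ∈ B.Fb z) :
    ∃ q : Fin n × Fin n, a ∈ V.B'.Fb (z + rep L q) := by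
  have h1 := V.B'.mem_l a
  have h2 := V.ov a _ h1
  have h3 : V.B'.l a a - z ∈ L.lattice := by
    rw [← Bc.mk_eq]
    exact h2.symm.trans h
  obtain ⟨q, hq⟩ := exists_rep L hn h3
  refine ⟨q, h1.trans ?_⟩
  rw [Bc.mk_eq, ← sub_sub]
  exact hq

theorem card_fib (c : C) (s : Finset V.C') (hs : ∀ a ∈ s, V.p a = c) : s.card ≤ n ^ 2 := by
  classical
  have h : ∀ a : V.C', ∃ q : Fin n × Fin n, V.p a = c → a ∈ V.B'.Fb (B.l c c + rep L q) := by
    intro a
    by_cases ha : V.p a = c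
    · obtain ⟨q, hq⟩ := exists_mem V (a := a) (z := B.l c c) (ha ▸ B.mem_l (V.p a))
      exact ⟨q, fun _ => hq⟩
    · exact ⟨(⟨0, hn⟩, ⟨0, hn⟩), fun h => absurd h ha⟩
  choose f hf using h
  have h1 : s.card ≤ (Finset.univ : Finset (Fin n × Fin n)).card := by
    refine Finset.card_le_card_of_injOn f (fun _ _ => Finset.mem_coe.2 (Finset.mem_univ _)) ?_
    intro a ha a' ha' he
    have h2 := hf a (hs a ha)
    have h3 := hf a' (hs a' ha')
    rw [← he] at h3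
    exact V.inj a a' ((hs a ha).trans (hs a' ha').symm) (Eq.trans h2 (Eq.symm h3))
  simpa [sq] using h1

theorem rho_le (hB : B.Deg) (hV : V.B'.Deg) : V.B'.ρ ≤ n ^ 2 * B.ρ := by
  classical
  have hS : (support fun c => B.e c - 1).Finite := hB.fs
  have hS' : (support fun c => V.B'.e c - 1).Finite := hV.fs
  rw [Bc.ρ, Bc.ρ, finsum_eq_sum _ hS, finsum_eq_sum _ hS', Finset.mul_sum]
  have hm : ∀ a ∈ hS'.toFinset, V.p a ∈ hS.toFinset := by
    intro a ha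
    rw [Finite.mem_toFinset, mem_support] at ha ⊢
    rwa [← V.e_eq]
  rw [← Finset.sum_fiberwise_of_maps_to hm]
  refine Finset.sum_le_sum fun c _ => ?_
  have h1 : ∀ a ∈ hS'.toFinset.filter (fun a => V.p a = c), V.p a = c :=
    fun a ha => (Finset.mem_filter.1 ha).2
  rw [Finset.sum_congr rfl (g := fun _ => B.e c - 1) fun a ha => by rw [V.e_eq, h1 a ha],
    Finset.sum_const, nsmul_eq_mul]
  have h2 : ((hS'.toFinset.filter (fun a => V.p a = c)).card : ℤ) ≤ (n : ℤ) ^ 2 := by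
    exact_mod_cast card_fib V c _ h1
  exact mul_le_mul_of_nonneg_right h2 (sub_nonneg.2 (hB.one_le c))

theorem ncard_le (hV : V.B'.Deg) (z : ℂ) : ((B.Fb z).ncard : ℤ) ≤ n ^ 2 * V.B'.n := by
  have hsub : B.Fb z ⊆ ⋃ q : Fin n × Fin n, V.p '' V.B'.Fb (z + rep L q) := by
    intro c hc
    obtain ⟨a, rfl⟩ := V.surj c
    obtain ⟨q, hq⟩ := exists_mem V hc
    exact mem_iUnion.2 ⟨q, a, hq, rfl⟩
  have h1 := ncard_le_ncard hsub (finite_iUnion fun q => (hV.fin _).image _)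
  have h2 := ncard_iUnion_le_of_fintype fun q : Fin n × Fin n => V.p '' V.B'.Fb (z + rep L q)
  have h3 : ∀ q : Fin n × Fin n, ((V.p '' V.B'.Fb (z + rep L q)).ncard : ℤ) ≤ V.B'.n := by
    intro q
    refine le_trans ?_ (hV.ncard_le (z + rep L q))
    exact_mod_cast ncard_image_le (hV.fin _)
  calc ((B.Fb z).ncard : ℤ)
      ≤ ∑ q : Fin n × Fin n, ((V.p '' V.B'.Fb (z + rep L q)).ncard : ℤ) := by
        exact_mod_cast h1.trans h2
    _ ≤ ∑ _q : Fin n × Fin n, V.B'.n := Finset.sum_le_sum fun q _ => h3 q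
    _ = n ^ 2 * V.B'.n := by simp [sq]

end CovNP

theorem sCovN (h : SDegB) : SCovN := fun L n hn C _ _ _ B V =>
  ⟨CovNP.rho_le V (h L C B) (h _ V.C' V.B'), CovNP.ncard_le V (h (Hod.nL L n hn) V.C' V.B')⟩

end Pool.Agent.P.MP_7ede32_ag.Bnd
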