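import Pool.Agent.P.MP_7ede32_ag.Bnd.RT2

/-!
The fibre product of a curve with a cover of the torus, as a compact Riemann surface.
-/

open Filter Topology Metric Set Function Manifold
open scoped ContDiff

noncomputable section

namespace Pool.Agent.P.MP_7ede32_ag.Bnd

open MP_5d7cf0_gt.T (RS zc loc An Hf Om Hol)
open MP_5d7cf0_gt.T renaming D → Dc

namespace CovRSP

section top

variable {G C : Type} [TopologicalSpace G] [TopologicalSpace C] {p : G → C}

theorem lh_of (hc : Continuous p) (hm : ∀ a, 𝓝 (p a) ≤ map p (𝓝 a))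
    (hi : ∀ a, ∃ U ∈ 𝓝 a, InjOn p U) : IsLocalHomeomorph p := by
  have ho : IsOpenMap p := isOpenMap_iff_nhds_le.2 hm
  rw [isLocalHomeomorph_iff_isOpenEmbedding_restrict]
  intro a
  obtain ⟨U, hU, h⟩ := hi a
  refine ⟨interior U, interior_mem_nhds.2 hU, ?_⟩
  refine IsOpenEmbedding.of_continuous_injective_isOpenMap (hc.comp continuous_subtype_val)
    (injOn_iff_injective.1 (h.mono interior_subset)) ?_
  exact ho.comp isOpen_interior.isOpenMap_subtype_val

variable [ChartedSpace ℂ C]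

/-- the charts pulled back by a local homeomorphism -/
@[reducible] def cs (hp : IsLocalHomeomorph p) : ChartedSpace ℂ G where
  atlas := range fun a => (hp.localInverseAt a).symm ≫ₕ chartAt ℂ (p a)
  chartAt a := (hp.localInverseAt a).symm ≫ₕ chartAt ℂ (p a)
  mem_chart_source a := by simp
  chart_mem_atlas a := ⟨a, rfl⟩

theorem zc_eq (hp : IsLocalHomeomorph p) (a y : G) :
    @zc G _ (cs hp) a y = zc (p a) (p y) := by
  change chartAt ℂ (p a) ((hp.localInverseAt a).symm y) = _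
  rw [hp.localInverseAt_symm]
  rfl

theorem loc_eq (hp : IsLocalHomeomorph p) (a : G) (u : C → ℂ) :
    @loc G _ (cs hp) (fun y => u (p y)) a =ᶠ[𝓝 (zc (p a) (p a))] loc u (p a) := by
  filter_upwards [(MP_5d7cf0_gt.T.tendsto_symm (mem_chart_source ℂ (p a))).eventually
    ((hp.localInverseAt a).open_source.mem_nhds hp.apply_self_mem_localInverseAt_source)] with z hz
  change u (p (hp.localInverseAt a ((chartAt ℂ (p a)).symm z))) = u ((chartAt ℂ (p a)).symm z)
  rw [hp.apply_localInverseAt_of_mem hz]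

theorem an_pull (hp : IsLocalHomeomorph p) {a : G} {u : C → ℂ} (h : An u (p a)) :
    @An G _ (cs hp) (fun y => u (p y)) a := by
  unfold An
  rw [zc_eq]
  exact AnalyticAt.congr h (loc_eq hp a u).symm

theorem od_pull (hp : IsLocalHomeomorph p) (a : G) (u : C → ℂ) :
    @od G _ (cs hp) (fun y => u (p y)) a = od u (p a) := by
  unfold od ord
  rw [zc_eq, meromorphicOrderAt_congr ((loc_eq hp a u).filter_mono nhdsWithin_le_nhds)]

theorem man [IsManifold 𝓘(ℂ) ω C] (hp : IsLocalHomeomorph p) :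
    @IsManifold ℂ _ ℂ _ _ ℂ _ 𝓘(ℂ) ω G _ (cs hp) := by
  let _ := cs hp
  refine isManifold_of_contDiffOn 𝓘(ℂ) ω G ?_
  rintro _ _ ⟨a, rfl⟩ ⟨b, rfl⟩
  have h := (contDiffGroupoid ω 𝓘(ℂ)).compatible (chart_mem_atlas ℂ (p a))
    (chart_mem_atlas ℂ (p b))
  rw [contDiffGroupoid, mem_groupoid_of_pregroupoid] at h
  have h1 := h.1
  simp only [contDiffPregroupoid, modelWithCornersSelf_coe, modelWithCornersSelf_coe_symm,
    range_id, inter_univ, preimage_id_eq, id, Function.comp_id, Function.id_comp] at h1 ⊢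
  have key : ∀ z ∈ (((hp.localInverseAt a).symm ≫ₕ chartAt ℂ (p a)).symm ≫ₕ
      ((hp.localInverseAt b).symm ≫ₕ chartAt ℂ (p b))).source,
      (hp.localInverseAt b).symm (hp.localInverseAt a ((chartAt ℂ (p a)).symm z)) =
        (chartAt ℂ (p a)).symm z := fun z hz => by
    rw [hp.localInverseAt_symm]
    exact hp.apply_localInverseAt_of_mem hz.1.2
  refine (h1.mono fun z hz => ⟨hz.1.1, ?_⟩).congr fun z hz => ?_
  · change (chartAt ℂ (p a)).symm z ∈ (chartAt ℂ (p b)).source
    rw [← key z hz]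
    exact hz.2.2
  · change chartAt ℂ (p b) ((hp.localInverseAt b).symm
      (hp.localInverseAt a ((chartAt ℂ (p a)).symm z))) = chartAt ℂ (p b) ((chartAt ℂ (p a)).symm z)
    rw [key z hz]

theorem isOpen_cc (hp : IsLocalHomeomorph p) (a : G) : IsOpen (connectedComponent a) := by
  let _ := cs hp
  have := ChartedSpace.locallyConnectedSpace ℂ G
  exact isOpen_connectedComponent

end top

instance closedL (L : PeriodPair) : IsClosed (L.lattice : Set ℂ) := L.isClosed_lattice

theorem cptQ (L' : PeriodPair) : CompactSpace (ℂ ⧸ L'.lattice) := by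
  obtain ⟨D, hD⟩ : ∃ D : ℝ, ∀ w : ℂ, ∃ l ∈ L'.lattice, dist w l ≤ D :=
    ⟨_, fun w => ⟨ZSpan.floor L'.basis w, by
      rw [L'.lattice_eq_span_range_basis]; exact Subtype.mem _, by
      rw [dist_eq_norm]; exact ZSpan.norm_fract_le L'.basis w⟩⟩
  refine ⟨?_⟩
  have h := (isCompact_closedBall (0 : ℂ) D).image L'.lattice.continuous_mkQ
  refine h.of_isClosed_subset isClosed_univ ?_
  intro q _
  obtain ⟨w, rfl⟩ := L'.lattice.mkQ_surjective q
  obtain ⟨l, hl, hd⟩ := hD w
  refine ⟨w - l, by simpa [dist_eq_norm] using hd, ?_⟩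
  rw [Submodule.mkQ_apply, Submodule.mkQ_apply, Submodule.Quotient.eq]
  simpa using hl

variable {L L' : PeriodPair} {C : Type} [TopologicalSpace C] [ChartedSpace ℂ C]

/-- the fibre product -/
def Gr (B : Bc L C) (hle : L'.lattice ≤ L.lattice) : Set (C × (ℂ ⧸ L'.lattice)) :=
  {a | B.φ a.1 = Submodule.factor hle a.2}

variable {B : Bc L C} {hle : L'.lattice ≤ L.lattice}

theorem mem_Gr {c : C} {z : ℂ} : (c, L'.lattice.mkQ z) ∈ Gr B hle ↔ c ∈ B.Fb z := Iff.rfl

theorem ov_of (a : Gr B hle) {z : ℂ} (h : a.1.2 = L'.lattice.mkQ z) : a.1.1 ∈ B.Fb z := by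
  have h1 : B.φ a.1.1 = Submodule.factor hle a.1.2 := a.2
  rw [h] at h1
  exact h1

theorem closed_Gr : IsClosed (Gr B hle) := by
  have h : Continuous (Submodule.factor hle) :=
    L'.lattice.isOpenQuotientMap_mkQ.isQuotientMap.continuous_iff.2 L.lattice.continuous_mkQ
  exact isClosed_eq (Bc.continuous_φ.comp continuous_fst) (h.comp continuous_snd)

theorem cont_p : Continuous fun b : Gr B hle => b.1.1 := continuous_fst.comp continuous_subtype_val

theorem cont_lam (B : Bc L C) (c : C) (z : ℂ) :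
    Tendsto (fun y => z + (B.l c y - B.l c c)) (𝓝 c) (𝓝 z) := by
  have h := ((B.an c).continuousAt.tendsto.sub_const (B.l c c)).const_add z
  rwa [sub_self, add_zero] at h

theorem lam_loc (a : Gr B hle) {z : ℂ} (h : a.1.2 = L'.lattice.mkQ z) :
    ∀ᶠ b in 𝓝 a, b.1.2 = L'.lattice.mkQ (z + (B.l a.1.1 b.1.1 - B.l a.1.1 a.1.1)) := by
  have h0 : Tendsto (fun q : ℂ × C => q.1 - (z + (B.l a.1.1 q.2 - B.l a.1.1 a.1.1)))
      (𝓝 z ×ˢ 𝓝 a.1.1) (𝓝 0) := by
    have h1 := (tendsto_fst (f := 𝓝 z) (g := 𝓝 a.1.1)).sub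
      ((cont_lam B a.1.1 z).comp (tendsto_snd (f := 𝓝 z) (g := 𝓝 a.1.1)))
    rwa [sub_self] at h1
  obtain ⟨V, hV, W, hW, hVW⟩ := eventually_prod_iff.1
    (h0.eventually (L.compl_lattice_sdiff_singleton_mem_nhds 0))
  have c2 : Tendsto (fun b : Gr B hle => b.1.2) (𝓝 a) (𝓝 (L'.lattice.mkQ z)) := by
    rw [← h]
    exact (continuous_snd.comp continuous_subtype_val).continuousAt
  filter_upwards [(cont_p.tendsto a).eventually (hW.and (Bc.near (ov_of a h))),
    c2.eventually (L'.lattice.isOpenMap_mkQ.image_mem_nhds hV)] with b h1 h2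
  obtain ⟨t, h3, h4⟩ := h2
  have h5 := Bc.sub_mem (ov_of b h4.symm) h1.2
  have h6 : t - (z + (B.l a.1.1 b.1.1 - B.l a.1.1 a.1.1)) = 0 := by
    by_contra h7
    exact hVW h3 h1.1 ⟨h5, h7⟩
  rw [← h4, sub_eq_zero.1 h6]

theorem map_pr (a : Gr B hle) : 𝓝 a.1.1 ≤ map (fun b : Gr B hle => b.1.1) (𝓝 a) := by
  classical
  obtain ⟨z, h⟩ := L'.lattice.mkQ_surjective a.1.2
  have hz := ov_of a h.symm
  let lam : C → ℂ := fun y => z + (B.l a.1.1 y - B.l a.1.1 a.1.1)
  let s : C → Gr B hle := fun y =>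
    if hy : y ∈ B.Fb (lam y) then ⟨(y, L'.lattice.mkQ (lam y)), mem_Gr.2 hy⟩ else a
  have h1 : ∀ᶠ y in 𝓝 a.1.1, (s y).1 = (y, L'.lattice.mkQ (lam y)) := by
    filter_upwards [Bc.near hz] with y hy
    simp only [s, lam, dif_pos hy]
  have h2 : Tendsto s (𝓝 a.1.1) (𝓝 a) := by
    rw [tendsto_subtype_rng]
    refine Tendsto.congr' (h1.mono fun y hy => hy.symm) ?_
    refine Tendsto.prodMk_nhds tendsto_id ?_
    rw [← h]
    exact (L'.lattice.continuous_mkQ.tendsto z).comp (cont_lam B a.1.1 z)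
  have h3 : Tendsto ((fun b : Gr B hle => b.1.1) ∘ s) (𝓝 a.1.1)
      (map (fun b : Gr B hle => b.1.1) (𝓝 a)) := tendsto_map.comp h2
  exact (h3.congr' (h1.mono fun y hy => congrArg Prod.fst hy) : Tendsto id _ _)

theorem lh_Gr : IsLocalHomeomorph fun b : Gr B hle => b.1.1 := by
  refine lh_of cont_p map_pr fun a => ?_
  obtain ⟨z, h⟩ := L'.lattice.mkQ_surjective a.1.2
  refine ⟨_, lam_loc a h.symm, fun b hb b' hb' e => Subtype.ext (Prod.ext e ?_)⟩
  have e' : b.1.1 = b'.1.1 := e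
  refine Eq.trans hb (Eq.trans ?_ (Eq.symm hb'))
  rw [e']

end CovRSP

open CovRSP in
theorem sCovRS : SCovRS := by
  intro L L' C _ _ _ B hle
  have := cptQ L'
  have : CompactSpace (Gr B hle) := isCompact_iff_compactSpace.1 closed_Gr.isCompact
  obtain ⟨c₀⟩ : Nonempty C := inferInstance
  let a₀ : Gr B hle := ⟨(c₀, L'.lattice.mkQ (B.l c₀ c₀)), mem_Gr.2 (B.mem_l c₀)⟩
  let C' : Type := connectedComponent a₀
  let p : C' → C := fun b => b.1.1.1
  have hp : IsLocalHomeomorph p :=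
    lh_Gr.comp (isOpen_cc lh_Gr a₀).isOpenEmbedding_subtypeVal.isLocalHomeomorph
  let _ : ChartedSpace ℂ C' := cs hp
  have : CompactSpace C' := isCompact_iff_compactSpace.1 isClosed_connectedComponent.isCompact
  have : ConnectedSpace C' := Subtype.connectedSpace isConnected_connectedComponent
  have : IsManifold 𝓘(ℂ) ω C' := man hp
  have : RS C' := {}
  choose z hz using fun a : C' => L'.lattice.mkQ_surjective a.1.1.2
  let B' : Bc L' C' :=
    { φ := fun b => b.1.1.2
      l := fun a b => z a + (B.l (p a) (p b) - B.l (p a) (p a))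
      an := fun a => an_pull hp (u := fun y => z a + (B.l (p a) y - B.l (p a) (p a)))
        ((MP_5d7cf0_gt.T.an_const _).add ((B.an _).sub (MP_5d7cf0_gt.T.an_const _)))
      lift := fun a => (continuous_subtype_val.tendsto a).eventually (lam_loc a.1 (hz a).symm)
      nc := fun a h => B.nc (p a) (by
        rw [← hp.map_nhds_eq a, eventually_map]
        filter_upwards [h] with b hb
        simpa [sub_eq_zero] using hb) }
  refine ⟨{
    C' := C'
    p := p
    B' := B'
    hol := fun a => ⟨hp.continuous.continuousAt, an_pull hp MP_5d7cf0_gt.T.an_zc_self⟩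
    map_p := hp.map_nhds_eq
    ov := fun a w h => ov_of a.1 h
    inj := fun a b h1 h2 => Subtype.ext (Subtype.ext (Prod.ext h1 h2))
    surj := range_eq_univ.1 (IsClopen.eq_univ
      ⟨(isCompact_range hp.continuous).isClosed, hp.isOpenMap.isOpen_range⟩ (range_nonempty p))
    e_eq := fun a => ?_ }⟩
  refine Eq.trans ?_ (od_pull hp a fun y => B.l (p a) y - B.l (p a) (p a))
  change od (fun b => z a + (B.l (p a) (p b) - B.l (p a) (p a)) -
    (z a + (B.l (p a) (p a) - B.l (p a) (p a)))) a = _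
  congr 1
  funext b
  ring

end Pool.Agent.P.MP_7ede32_ag.Bnd
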