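import Pool.Agent.P.MP_7ede32_ag.Bnd.RT2

/-!
The degree of a holomorphic map from a compact Riemann surface to a torus.
-/

open Filter Topology Metric Set Function

noncomputable section

namespace Pool.Agent.P.MP_7ede32_ag.Bnd

open MP_5d7cf0_gt.T (RS zc loc An Hf Om Hol)
open MP_5d7cf0_gt.T renaming D → Dc

namespace DegBP

variable {C : Type} [TopologicalSpace C] [ChartedSpace ℂ C] {L : PeriodPair}

theorem lat (L : PeriodPair) : ∃ δ > 0, ∀ t ∈ L.lattice, ‖t‖ < δ → t = 0 := by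
  obtain ⟨δ, h1, h2⟩ := Metric.mem_nhds_iff.1 (L.compl_lattice_sdiff_singleton_mem_nhds 0)
  refine ⟨δ, h1, fun t ht h3 => ?_⟩
  by_contra h4
  exact h2 (mem_ball_zero_iff.2 h3) ⟨ht, h4⟩

theorem an_u (B : Bc L C) (c : C) : An (fun y => B.l c y - B.l c c) c :=
  (B.an c).sub (MP_5d7cf0_gt.T.an_const _)

theorem ne_u (B : Bc L C) (c : C) : ∀ᶠ y in 𝓝[≠] c, B.l c y - B.l c c ≠ 0 :=
  (an_u B c).zero_or.resolve_left fun h => B.nc c (h.mono fun _ hy => sub_eq_zero.1 hy)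

theorem D_u {u : C → ℂ} {y : C} (h : An u y) (a : ℂ) : Dc (fun x => u x - a) y = Dc u y := by
  rw [MP_5d7cf0_gt.T.D_sub h (MP_5d7cf0_gt.T.an_const _), MP_5d7cf0_gt.T.D_const, sub_zero]

theorem small (B : Bc L C) (c : C) {δ : ℝ} (h : 0 < δ) :
    ∀ᶠ y in 𝓝 c, ‖B.l c y - B.l c c‖ < δ := by
  have := (Metric.tendsto_nhds.1 (B.an c).continuousAt.tendsto) δ h
  simpa only [dist_eq_norm] using this

theorem one_le (B : Bc L C) (c : C) : 1 ≤ B.e c :=
  one_le_od (an_u B c) (sub_self _) (ne_u B c)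

theorem e_iff (B : Bc L C) (c : C) : B.e c = 1 ↔ B.w c ≠ 0 := by
  constructor
  · intro h h0
    have := two_le_od (an_u B c) (sub_self _) (ne_u B c) ((D_u (B.an c) _).trans h0)
    have h2 : (2 : ℤ) ≤ B.e c := this
    omega
  · intro h
    exact od_eq_one (an_u B c) (sub_self _) (by rw [D_u (B.an c)]; exact h)

variable [RS C]

theorem om (B : Bc L C) : B.w ∈ Om C := fun p =>
  (B.an p).hf.congr ((Bc.w_eq (B := B) p).mono fun _ hy => hy.2.symm)

theorem nz (B : Bc L C) : Nz B.w := by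
  refine cof_iff.2 fun c => ?_
  filter_upwards [(B.an c).eventually_D_ne' (B.nc c),
    mem_nhdsWithin_of_mem_nhds (Bc.w_eq (B := B) c)] with y h1 h2
  rw [h2.2]
  exact h1

theorem odf_w (B : Bc L C) (c : C) : odf B.w c = B.e c - 1 := by
  have h0 : od (fun y => B.l c y - B.l c c) c ≠ 0 := by
    have h2 : 1 ≤ od (fun y => B.l c y - B.l c c) c := one_le B c
    omega
  refine Eq.trans ?_ (odf_D (mr_of_an (an_u B c)) h0)
  refine od_congr ?_
  filter_upwards [mem_nhdsWithin_of_mem_nhds (Bc.w_eq (B := B) c)] with y h2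
  simp only [fm]
  rw [h2.2, D_u h2.1]

theorem fs (B : Bc L C) : Fs fun c => B.e c - 1 := by
  refine Set.Finite.subset (nz B) fun c hc h => hc ?_
  have := (e_iff B c).2 h
  simp only [this, sub_self]

theorem fin (B : Bc L C) (z : ℂ) : (B.Fb z).Finite := by
  refine MP_5d7cf0_gt.T.finite_of_isolated fun p => ?_
  by_cases hp : p ∈ B.Fb z
  · obtain ⟨δ, h1, h2⟩ := lat L
    filter_upwards [ne_u B p, mem_nhdsWithin_of_mem_nhds (Bc.near hp),
      mem_nhdsWithin_of_mem_nhds (small B p h1)] with y h3 h4 h5 h6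
    have := Bc.sub_mem h4 h6
    rw [add_sub_cancel_left] at this
    exact h3 (h2 _ this h5)
  · exact mem_nhdsWithin_of_mem_nhds ((Bc.isClosed_Fb (B := B) z).isOpen_compl.mem_nhds hp)

theorem local_sum (h1 : SLocDeg) (B : Bc L C) {z : ℂ} {a : C} (ha : a ∈ B.Fb z) :
    ∃ U₀ ∈ 𝓝 a, ∀ U ∈ 𝓝 a, U ⊆ U₀ → ∀ᶠ t in 𝓝 z,
      (U ∩ B.Fb t).Finite ∧ ∑ᶠ c ∈ U ∩ B.Fb t, B.e c = B.e a := by
  obtain ⟨V, hV, h2⟩ := h1 C (B.l a) a (B.an a) (B.nc a)
  obtain ⟨δ, d1, d2⟩ := lat L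
  have d3 : 0 < δ / 2 := half_pos d1
  refine ⟨V ∩ {c | c ∈ B.Fb (z + (B.l a c - B.l a a)) ∧
    B.e c = od (fun x => B.l a x - B.l a c) c ∧ ‖B.l a c - B.l a a‖ < δ / 2},
    inter_mem hV ((Bc.near ha).and ((Bc.e_eq a).and (small B a d3))), fun U hU h3 => ?_⟩
  have h4 : Tendsto (fun t => B.l a a + (t - z)) (𝓝 z) (𝓝 (B.l a a)) := by
    have : ContinuousAt (fun t => B.l a a + (t - z)) z := by fun_prop
    simpa only [ContinuousAt, sub_self, add_zero] using this
  filter_upwards [h4.eventually (h2 U hU (h3.trans inter_subset_left)), ball_mem_nhds z d3]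
    with t h5 h6
  have h7 : U ∩ B.Fb t = U ∩ {c | B.l a c = B.l a a + (t - z)} := by
    ext c
    refine and_congr_right fun hc => ?_
    obtain ⟨-, b1, -, b3⟩ := h3 hc
    constructor
    · intro b4
      have b5 := Bc.sub_mem b1 b4
      have b6 : z + (B.l a c - B.l a a) - t = (B.l a c - B.l a a) - (t - z) := by ring
      have b7 : ‖t - z‖ < δ / 2 := by simpa only [mem_ball, dist_eq_norm] using h6
      rw [b6] at b5
      have b8 := d2 _ b5 ((norm_sub_le _ _).trans_lt (by linarith))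
      show B.l a c = _
      linear_combination b8
    · intro b4
      have b5 : B.l a c = B.l a a + (t - z) := b4
      have b6 : z + (B.l a c - B.l a a) = t := by linear_combination b5
      rwa [b6] at b1
  refine ⟨h7 ▸ h5.1, Eq.trans (finsum_mem_congr h7 fun c hc => ?_) h5.2.2⟩
  have b5 : B.l a c = B.l a a + (t - z) := hc.2
  rw [(h3 hc.1).2.2.1, b5]

theorem sum_eq (h1 : SLocDeg) (h2 : SSumLoc) (B : Bc L C) (z : ℂ) :
    ∑ᶠ c ∈ B.Fb z, B.e c = B.n := by
  have h : IsLocallyConstant fun z => ∑ᶠ c ∈ B.Fb z, B.e c := by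
    refine (IsLocallyConstant.iff_eventually_eq _).2 fun z => ?_
    exact (h2 C ℂ (B.Fb z) (𝓝 z) B.Fb (fun _ => B.e) B.e (fin B z)
      (fun a ha => local_sum h1 B ha) fun U hU => Bc.proper hU).mono fun _ ht => ht.2
  exact h.apply_eq_of_preconnectedSpace z 0

end DegBP

open DegBP in
theorem sDegB (h1 : SLocDeg) (h2 : SSumLoc) : SDegB := by
  intro L C _ _ _ B
  refine ⟨one_le B, e_iff B, om B, nz B, odf_w B, fs B, fin B, sum_eq h1 h2 B, ?_⟩
  obtain ⟨c⟩ : Nonempty C := inferInstance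
  have h3 := ncard_le_sm' (fin B (B.l c c)) fun c _ => one_le B c
  have h4 := (Set.ncard_pos (fin B (B.l c c))).2 ⟨c, B.mem_l c⟩
  rw [sum_eq h1 h2 B] at h3
  omega

end Pool.Agent.P.MP_7ede32_ag.Bnd
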