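import Pool.Agent.P.MP_7ede32_ag.Bnd.DP

/-!
Periodic meromorphic functions are algebraic over the Weierstrass function.
-/

open Filter Topology Metric Set

noncomputable section

namespace Pool.Agent.P.MP_7ede32_ag.Bnd

open Full

namespace EllAlgP

variable {g g' : ℂ → ℂ} {z : ℂ} {m m' : ℕ}

/-- the pole of `g` at `z` has order at most `m` -/
def Po (g : ℂ → ℂ) (z : ℂ) (m : ℕ) : Prop :=
  ∃ h : ℂ → ℂ, AnalyticAt ℂ h z ∧ ∀ᶠ t in 𝓝[≠] z, (t - z) ^ m * g t = h t

theorem Po.mul (h : Po g z m) (h' : Po g' z m') : Po (fun t => g t * g' t) z (m + m') := by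
  obtain ⟨a, ha, h1⟩ := h
  obtain ⟨b, hb, h2⟩ := h'
  refine ⟨fun t => a t * b t, ha.mul hb, ?_⟩
  filter_upwards [h1, h2] with t h3 h4
  rw [← h3, ← h4]
  ring

theorem po_one (z : ℂ) (m : ℕ) : Po (fun _ => 1) z m :=
  ⟨fun t => (t - z) ^ m, by fun_prop, Eventually.of_forall fun t => mul_one _⟩

theorem Po.mono (h : Po g z m) (h' : m ≤ m') : Po g z m' := by
  obtain ⟨k, rfl⟩ := Nat.exists_eq_add_of_le h'
  simpa using h.mul (po_one z k)

theorem Po.pow (h : Po g z m) (k : ℕ) : Po (fun t => g t ^ k) z (k * m) := by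
  induction k with
  | zero => simpa using po_one z 0
  | succ k ih => simpa [pow_succ, Nat.succ_mul] using ih.mul h

theorem po_of_mer (h : MeromorphicAt g z) : ∃ m, Po g z m := by
  obtain ⟨m, hm⟩ := h
  exact ⟨m, _, hm, Eventually.of_forall fun t => rfl⟩

theorem po_of_an (h : AnalyticAt ℂ g z) : Po g z 0 :=
  ⟨g, h, Eventually.of_forall fun t => by simp⟩

theorem tendsto_add (z w : ℂ) : Tendsto (fun t => t + w) (𝓝[≠] z) (𝓝[≠] (z + w)) := by
  refine tendsto_nhdsWithin_iff.2 ⟨?_, ?_⟩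
  · exact ((continuous_id.add continuous_const).tendsto z).mono_left nhdsWithin_le_nhds
  · filter_upwards [self_mem_nhdsWithin] with t ht
    simpa using ht

/-- linear algebra: a combination without poles on a finite set -/
theorem comb {ι : Type} [Fintype ι] (g : ι → ℂ → ℂ) (S : Finset ℂ) (m : ℕ)
    (h : ∀ i, ∀ z ∈ S, Po (g i) z m) (hc : S.card * m < Fintype.card ι) :
    ∃ a : ι → ℂ, a ≠ 0 ∧ ∀ z ∈ S, Po (fun t => ∑ i, a i * g i t) z 0 := by
  classical
  choose! k hk hk' using h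
  let T : (ι → ℂ) →ₗ[ℂ] (S × Fin m → ℂ) :=
    { toFun := fun a q => ∑ i, a i * iteratedDeriv q.2 (k i q.1) q.1
      map_add' := fun a b => by
        ext q
        simp [add_mul, Finset.sum_add_distrib]
      map_smul' := fun c a => by
        ext q
        simp [Finset.mul_sum, mul_assoc] }
  have h1 : LinearMap.ker T ≠ ⊥ := LinearMap.ker_ne_bot_of_finrank_lt (by simpa using hc)
  obtain ⟨a, h2, h3⟩ := Submodule.exists_mem_ne_zero_of_ne_bot h1
  refine ⟨a, h3, fun z hz => ?_⟩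
  have h4 : AnalyticAt ℂ (fun t => ∑ i, a i * k i z t) z :=
    Finset.analyticAt_fun_sum _ fun i _ => analyticAt_const.mul (hk i z hz)
  have h5 : (m : ℕ∞) ≤ analyticOrderAt (fun t => ∑ i, a i * k i z t) z := by
    rw [natCast_le_analyticOrderAt_iff_iteratedDeriv_eq_zero h4]
    intro j hj
    rw [iteratedDeriv_fun_sum (f := fun i t => a i * k i z t) fun i _ =>
      (analyticAt_const.mul (hk i z hz)).contDiffAt]
    have h6 := congrFun (LinearMap.mem_ker.1 h2) (⟨z, hz⟩, ⟨j, hj⟩)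
    simpa [T] using h6
  obtain ⟨b, hb, h6⟩ := (natCast_le_analyticOrderAt h4).1 h5
  refine ⟨b, hb, ?_⟩
  filter_upwards [mem_nhdsWithin_of_mem_nhds h6, self_mem_nhdsWithin,
    eventually_all.2 fun i => hk' i z hz] with t h7 h8 h9
  have h10 : (t - z) ^ m ≠ 0 := pow_ne_zero _ (sub_ne_zero.2 h8)
  refine mul_left_cancel₀ h10 ?_
  rw [pow_zero, one_mul, ← smul_eq_mul ((t - z) ^ m) (b t), ← h7, Finset.mul_sum]
  refine Finset.sum_congr rfl fun i _ => ?_
  rw [← h9 i]
  ring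

theorem net (L : PeriodPair) : ∃ R : ℝ, ∀ w, ∃ p ∈ L.lattice, w - p ∈ closedBall (0 : ℂ) R := by
  refine ⟨∑ i, ‖L.basis i‖, fun w => ⟨ZSpan.floor L.basis w, ?_, ?_⟩⟩
  · rw [L.lattice_eq_span_range_basis]
    exact (ZSpan.floor L.basis w).2
  · simpa [ZSpan.fract] using ZSpan.norm_fract_le L.basis w

/-- Liouville -/
theorem liou (L : PeriodPair) (R : ℝ) (hR : ∀ w, ∃ p ∈ L.lattice, w - p ∈ closedBall (0 : ℂ) R)
    (hp : ∀ p ∈ L.lattice, ∀ z, ∀ᶠ w in 𝓝[≠] z, g (w + p) = g w)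
    (h : ∀ z ∈ closedBall (0 : ℂ) R, Po g z 0) : ∃ c, ∀ z, ∀ᶠ w in 𝓝[≠] z, g w = c := by
  have h1 : ∀ z, ∃ k : ℂ → ℂ, AnalyticAt ℂ k z ∧ ∀ᶠ t in 𝓝[≠] z, g t = k t := fun z => by
    obtain ⟨p, h1, h2⟩ := hR z
    obtain ⟨k, h3, h4⟩ := h _ h2
    refine ⟨fun t => k (t + -p), ?_, ?_⟩
    · exact AnalyticAt.comp_of_eq (g := k) (f := fun t => t + -p) h3 (by fun_prop)
        (sub_eq_add_neg _ _).symm
    · rw [sub_eq_add_neg] at h4
      filter_upwards [(tendsto_add z (-p)).eventually h4, hp _ (L.lattice.neg_mem h1) z]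
        with t h5 h6
      rw [← h5, pow_zero, one_mul, h6]
  choose k hk hk' using h1
  have h2 : ∀ z, Tendsto g (𝓝[≠] z) (𝓝 (k z z)) := fun z =>
    ((hk z).continuousAt.tendsto.mono_left nhdsWithin_le_nhds).congr'
      (EventuallyEq.symm (hk' z))
  have h3 : ∀ z, ∀ᶠ t in 𝓝 z, k t t = k z t := fun z => by
    rw [← nhdsNE_sup_pure, eventually_sup, eventually_pure]
    refine ⟨?_, rfl⟩
    filter_upwards [eventually_eventually_nhdsWithin.2 (hk' z), mem_nhdsWithin_of_mem_nhds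
      (hk z).eventually_analyticAt, self_mem_nhdsWithin] with t h4 h5 h6
    rw [isOpen_compl_singleton.nhdsWithin_eq h6] at h4
    exact tendsto_nhds_unique (h2 t) ((h5.continuousAt.tendsto.congr'
      (EventuallyEq.symm h4)).mono_left nhdsWithin_le_nhds)
  have h4 : Differentiable ℂ fun t => k t t := fun z =>
    (hk z).differentiableAt.congr_of_eventuallyEq (h3 z)
  have h5 : ∀ z w, w ∈ L.lattice → k (z + w) (z + w) = k z z := fun z w hw =>
    tendsto_nhds_unique (((h2 (z + w)).comp (tendsto_add z w)).congr' (hp w hw z)) (h2 z)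
  have h6 := h4.apply_eq_apply_of_bounded
    (IsZLattice.isCompact_range_of_periodic L.lattice _ h4.continuous h5).isBounded
  refine ⟨k 0 0, fun z => ?_⟩
  filter_upwards [hk' z, mem_nhdsWithin_of_mem_nhds (h3 z)] with t h7 h8
  rw [h7, ← h8]
  exact h6 t 0

/-- a uniform bound for the poles in a compact set -/
theorem bound {K : Set ℂ} (hK : IsCompact K) (hg : Meromorphic g) (hg' : Meromorphic g') :
    ∃ (S : Finset ℂ) (d : ℕ), (∀ z ∈ S, Po g z d ∧ Po g' z d) ∧
      ∀ z ∈ K, z ∉ S → Po g z 0 ∧ Po g' z 0 := by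
  have h1 : {z | AnalyticAt ℂ g z ∧ AnalyticAt ℂ g' z} ∈ codiscreteWithin K :=
    codiscreteWithin_mono (subset_univ K) (cd_iff.2 fun z =>
      (hg z).eventually_analyticAt.and (hg' z).eventually_analyticAt)
  have h2 := hK.finite_sdiff_of_mem_codiscreteWithin h1
  choose a ha using fun z => po_of_mer (hg z)
  choose b hb using fun z => po_of_mer (hg' z)
  refine ⟨h2.toFinset, h2.toFinset.sup fun z => a z + b z, fun z hz => ?_, fun z hz h3 => ?_⟩
  · have h3 : a z + b z ≤ h2.toFinset.sup fun z => a z + b z :=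
      Finset.le_sup (f := fun z => a z + b z) hz
    exact ⟨(ha z).mono (by omega), (hb z).mono (by omega)⟩
  · have h4 : AnalyticAt ℂ g z ∧ AnalyticAt ℂ g' z := by
      by_contra h4
      exact h3 (h2.mem_toFinset.2 ⟨hz, h4⟩)
    exact ⟨po_of_an h4.1, po_of_an h4.2⟩

theorem po_sum {ι : Type} [Fintype ι] (g : ι → ℂ → ℂ) (a : ι → ℂ) (h : ∀ i, Po (g i) z 0) :
    Po (fun t => ∑ i, a i * g i t) z 0 := by
  choose k hk hk' using h
  refine ⟨fun t => ∑ i, a i * k i t,
    Finset.analyticAt_fun_sum _ fun i _ => analyticAt_const.mul (hk i), ?_⟩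
  filter_upwards [eventually_all.2 hk'] with t ht
  simp only [pow_zero, one_mul] at ht ⊢
  simp only [ht]

/-- the exponents -/
def ex {n : ℕ} (q : Fin n × Fin n) : Fin 2 →₀ ℕ :=
  Finsupp.single 0 ((q.1 : ℕ) + 1) + Finsupp.single 1 (q.2 : ℕ)

theorem ex_inj {n : ℕ} {q q' : Fin n × Fin n} (h : ex q = ex q') : q = q' := by
  have h0 := DFunLike.congr_fun h 0
  have h1 := DFunLike.congr_fun h 1
  simp [ex] at h0 h1
  exact Prod.ext (Fin.ext h0) (Fin.ext h1)

theorem ex_ne {n : ℕ} (q : Fin n × Fin n) : 0 ≠ ex q := fun h => by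
  have h0 := DFunLike.congr_fun h 0
  simp [ex] at h0

end EllAlgP

open EllAlgP in
theorem sEllAlg : SEllAlg := by
  classical
  intro L L' f hL hf hp
  obtain ⟨R, hR⟩ := net L'
  obtain ⟨S, d, h1, h2⟩ := bound (isCompact_closedBall (0 : ℂ) R) L.meromorphic_weierstrassP hf
  set n := S.card * (2 * d) + 1 with hn
  let g : Fin n × Fin n → ℂ → ℂ := fun q t => L.weierstrassP t ^ (q.1 + 1 : ℕ) * f t ^ (q.2 : ℕ)
  obtain ⟨a, h3, h4⟩ := comb g S (n * (2 * d)) (fun q z hz =>
    (((h1 z hz).1.pow _).mul ((h1 z hz).2.pow _)).mono (by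
      have h5 := q.1.2
      have h6 := q.2.2
      nlinarith [Nat.mul_le_mul_right d (show q.1 + 1 ≤ n from h5), Nat.mul_le_mul_right d h6.le]))
    (by
      rw [Fintype.card_prod, Fintype.card_fin]
      have h5 : 0 < n := Nat.succ_pos _
      nlinarith)
  obtain ⟨c, hc⟩ := liou (g := fun t => ∑ q, a q * g q t) L' R hR (fun p h5 z => by
    filter_upwards [cd_iff.1 (hp p h5) z] with w h6
    simp only [g, h6, L.weierstrassP_add_coe w ⟨p, hL h5⟩]) fun z hz => by
      by_cases h5 : z ∈ S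
      · exact h4 z h5
      · exact po_sum g a fun q => by
          simpa using ((h2 z hz h5).1.pow _).mul ((h2 z hz h5).2.pow _)
  refine ⟨∑ q, MvPolynomial.monomial (ex q) (a q) - MvPolynomial.C c, fun h5 => h3 ?_,
    cd_iff.2 fun z => ?_⟩
  · ext q
    have h6 := congrArg (MvPolynomial.coeff (ex q)) h5
    rw [MvPolynomial.coeff_sub, MvPolynomial.coeff_sum, MvPolynomial.coeff_C, if_neg (ex_ne q),
      Finset.sum_eq_single q (fun q' _ h7 => by
        rw [MvPolynomial.coeff_monomial, if_neg fun h8 => h7 (ex_inj h8)]) (by simp)] at h6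
    simpa using h6
  · filter_upwards [hc z] with w hw
    rw [ev2, map_sub, map_sum, MvPolynomial.eval_C, ← hw, sub_eq_zero]
    refine Finset.sum_congr rfl fun q _ => ?_
    rw [MvPolynomial.eval_monomial, ex, Finsupp.prod_add_index' (by simp) (by simp [pow_add])]
    simp [g]

end Pool.Agent.P.MP_7ede32_ag.Bnd
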