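import Pool.Agent.P.MP_7ede32_ag.Bnd.DP

/-!
Limits of meromorphic functions with a bounded number of poles.
-/

open Filter Topology Metric Set
open scoped Real

noncomputable section

namespace Pool.Agent.P.MP_7ede32_ag.Bnd

open Full

namespace ExtMP

/-- the monic polynomial with the given roots -/
def pm {M : ℕ} (α : Fin M → ℂ) (w : ℂ) : ℂ := ∏ i, (w - α i)

lemma isOpen_An2 (c : ℂ) (a b : ℝ) : IsOpen (An2 c a b) :=
  (isOpen_lt continuous_const (continuous_id.dist continuous_const)).inter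
    (isOpen_lt (continuous_id.dist continuous_const) continuous_const)

lemma pad (s : Finset ℂ) (n : ℂ → ℕ) (c : ℂ) {M : ℕ} (h : ∑ a ∈ s, n a ≤ M) :
    ∃ (α : Fin M → ℂ) (k : ℕ), (∀ i, α i ∈ s ∨ α i = c) ∧
      ∀ w, pm α w = pr s n w * (w - c) ^ k := by
  have hc : Fintype.card ((Σ a : s, Fin (n a)) ⊕ Fin (M - ∑ a ∈ s, n a)) = M := by
    rw [Fintype.card_sum, Fintype.card_sigma, Fintype.card_fin]
    simp only [Fintype.card_fin]
    rw [Finset.sum_coe_sort s n]
    omega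
  let β : (Σ a : s, Fin (n a)) ⊕ Fin (M - ∑ a ∈ s, n a) → ℂ :=
    Sum.elim (fun x => (x.1 : ℂ)) fun _ => c
  refine ⟨β ∘ (Fintype.equivFinOfCardEq hc).symm, M - ∑ a ∈ s, n a, fun i => ?_, fun w => ?_⟩
  · simp only [Function.comp]
    rcases (Fintype.equivFinOfCardEq hc).symm i with x | x
    · exact Or.inl x.1.2
    · exact Or.inr rfl
  · rw [pm, pr, ← Finset.prod_coe_sort s]
    refine ((Fintype.equivFinOfCardEq hc).symm.prod_comp fun x => w - β x).trans ?_
    rw [Fintype.prod_sum_type, Fintype.prod_sigma]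
    simp [β]

lemma bdd {m e : ℂ → ℂ} {w : ℂ} {ε : ℝ} (he : ContinuousAt e w)
    (h : ∀ᶠ w' in 𝓝[≠] w, ‖m w' - e w'‖ ≤ ε) : 0 ≤ meromorphicOrderAt m w := by
  by_contra h0
  have h1 := tendsto_cobounded_of_meromorphicOrderAt_neg (not_le.1 h0)
  have h2 := (tendsto_norm_atTop_iff_cobounded.2 h1).eventually_gt_atTop (‖e w‖ + 1 + ε)
  have h3 : ∀ᶠ w' in 𝓝[≠] w, ‖e w'‖ < ‖e w‖ + 1 :=
    nhdsWithin_le_nhds (he.norm.eventually (gt_mem_nhds (lt_add_one _)))
  obtain ⟨z, a1, a2, a3⟩ := (h.and (h2.and h3)).exists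
  linarith [norm_sub_norm_le (m z) (e z)]

lemma rep (h : SRep) {e m : ℂ → ℂ} {c : ℂ} {r θ ε : ℝ} {M : ℕ} (h0 : 0 < θ) (h1 : θ < r)
    (he : ∀ w ∈ An2 c (r - θ) r, AnalyticAt ℂ e w) (hm : MeromorphicOn m (ball c r))
    (hM : ∑ᶠ w ∈ ball c r, npo m w ≤ M)
    (hε : ∀ w ∈ An2 c (r - θ) r, ∀ᶠ w' in 𝓝[≠] w, ‖m w' - e w'‖ ≤ ε) :
    ∃ (α : Fin M → ℂ) (A : ℂ → ℂ), (∀ i, α i ∈ closedBall c (r - θ)) ∧
      DifferentiableOn ℂ A (ball c r) ∧
      ∀ w ∈ An2 c (r - θ) r, ‖A w - e w * pm α w‖ ≤ ε * ‖pm α w‖ := by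
  have b1 := meromorphicNFOn_toMeromorphicNFOn m (ball c r)
  have b0 : ∀ w ∈ An2 c (r - θ) r, 0 ≤ meromorphicOrderAt m w := fun w hw =>
    bdd (he w hw).continuousAt (hε w hw)
  have b2 : ∀ w ∈ An2 c (r - θ) r, AnalyticAt ℂ (toMeromorphicNFOn m (ball c r)) w := fun w hw =>
    (b1 hw.2).meromorphicOrderAt_nonneg_iff_analyticAt.1 (by
      rw [meromorphicOrderAt_toMeromorphicNFOn hm hw.2]; exact b0 w hw)
  obtain ⟨s, n, A, a1, a2, a3⟩ := h _ c (r - θ) r (by linarith) b1.meromorphicOn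
    fun w hw hw' => b2 w ⟨hw', hw⟩
  have hs : ∀ a ∈ s, a ∈ ball c r := fun a ha => by
    rw [mem_ball]; linarith [(a1 a ha).1]
  have hK : closedBall c (r - θ) ⊆ ball c r := closedBall_subset_ball (by linarith)
  have hf : (ball c r ∩ Function.support (npo m)).Finite := by
    refine ((MeromorphicOn.divisor m (closedBall c (r - θ))).finiteSupport
      (isCompact_closedBall _ _)).subset ?_
    rintro w ⟨c1, c2⟩
    have c3 : ord m w < 0 := by
      by_contra c4
      exact c2 (max_eq_right (by linarith))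
    have c4 : w ∈ closedBall c (r - θ) := by
      by_contra c5
      exact absurd (WithTop.untop₀_nonneg.2 (b0 w ⟨not_le.1 c5, c1⟩)) (not_le.2 c3)
    rw [Function.mem_support, MeromorphicOn.divisor_apply (hm.mono_set hK) c4]
    exact c3.ne
  have hn : ∑ a ∈ s, n a ≤ M := by
    have c1 : ∀ a ∈ s, npo m a = n a := fun a ha => by
      have := (a1 a ha).2
      rw [meromorphicOrderAt_toMeromorphicNFOn hm (hs a ha)] at this
      simp [npo, ord, this]
    rw [finsum_mem_eq_sum_of_inter_support_eq (npo m) (t := hf.toFinset ∪ s) (by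
      ext w
      simp only [mem_inter_iff, Finset.coe_union, Finite.coe_toFinset, mem_union, Finset.mem_coe]
      exact ⟨fun c2 => ⟨Or.inl c2, c2.2⟩, fun c2 => ⟨c2.1.elim (·.1) (hs w), c2.2⟩⟩)] at hM
    have c2 := Finset.sum_le_sum_of_subset_of_nonneg (f := npo m)
      (Finset.subset_union_right (s₁ := hf.toFinset) (s₂ := s)) fun _ _ _ => le_max_right _ _
    rw [Finset.sum_congr rfl c1] at c2
    exact_mod_cast c2.trans hM
  obtain ⟨α, k, d1, d2⟩ := pad s n c hn
  refine ⟨α, fun w => A w * (w - c) ^ k, fun i => ?_, a2.mul (by fun_prop), fun w hw => ?_⟩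
  · rcases d1 i with d | d
    · exact (a1 _ d).1
    · rw [d]; exact mem_closedBall_self (by linarith)
  · have d3 : ‖toMeromorphicNFOn m (ball c r) w - e w‖ ≤ ε := by
      refine le_of_tendsto (((b2 w hw).continuousAt.sub (he w hw).continuousAt).norm.tendsto.mono_left
        (nhdsWithin_le_nhds (s := {w}ᶜ))) ?_
      filter_upwards [hε w hw, hm.toMeromorphicNFOn_eq_self_on_nhdsNE hw.2] with z e1 e2
      rwa [Pi.sub_apply, e2]
    show ‖A w * (w - c) ^ k - e w * pm α w‖ ≤ _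
    rw [a3 w hw.2 hw.1, mul_assoc, ← d2, ← sub_mul, norm_mul]
    exact mul_le_mul_of_nonneg_right d3 (norm_nonneg _)

lemma pm_ne {M : ℕ} {α : Fin M → ℂ} {c w : ℂ} {ρ : ℝ} (h : ∀ i, α i ∈ closedBall c ρ)
    (hw : ρ < dist w c) : pm α w ≠ 0 :=
  Finset.prod_ne_zero_iff.2 fun i _ h1 => by
    have := h i
    rw [← sub_eq_zero.1 h1, mem_closedBall] at this
    linarith

lemma pm_le {M : ℕ} {α : Fin M → ℂ} {c w : ℂ} {ρ : ℝ} (h : ∀ i, α i ∈ closedBall c ρ)
    (hw : dist w c ≤ ρ) : ‖pm α w‖ ≤ (2 * ρ) ^ M := by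
  rw [pm, norm_prod]
  refine (Finset.prod_le_prod (g := fun _ => 2 * ρ) (fun _ _ => norm_nonneg _) fun i _ => ?_).trans
    (by simp)
  rw [← dist_eq_norm]
  linarith [dist_triangle_right w (α i) c, mem_closedBall.1 (h i)]

lemma pm_cont {M : ℕ} : Continuous fun p : (Fin M → ℂ) × ℂ => pm p.1 p.2 := by
  unfold pm
  fun_prop

end ExtMP

open ExtMP in
theorem sExtM (h : SRep) : SExtM := by
  intro e c r θ M h0 h1 he hm
  have H : ∀ n : ℕ, ∃ (α : Fin M → ℂ) (A : ℂ → ℂ), (∀ i, α i ∈ closedBall c (r - θ)) ∧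
      DifferentiableOn ℂ A (ball c r) ∧
      ∀ w ∈ An2 c (r - θ) r, ‖A w - e w * pm α w‖ ≤ 1 / (n + 1) * ‖pm α w‖ := fun n => by
    obtain ⟨m, a1, a2, a3⟩ := hm (1 / (n + 1)) Nat.one_div_pos_of_nat
    exact rep h h0 h1 he a1 a2 a3
  choose α A h2 h3 h4 using H
  obtain ⟨β, h5, φ, h6, h7⟩ := (isCompact_univ_pi fun _ : Fin M =>
    isCompact_closedBall c (r - θ)).tendsto_subseq (x := α) fun n i _ => h2 n i
  have h8 : ∀ i, β i ∈ closedBall c (r - θ) := fun i => h5 i (mem_univ i)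
  have pc : ∀ w, Tendsto (fun n => pm (α (φ n)) w) atTop (𝓝 (pm β w)) := fun w =>
    (pm_cont.tendsto (β, w)).comp (h7.prodMk_nhds tendsto_const_nhds)
  have lim : ∀ w ∈ An2 c (r - θ) r, Tendsto (fun n => A (φ n) w) atTop (𝓝 (e w * pm β w)) := by
    intro w hw
    have a1 : Tendsto (fun n => A (φ n) w - e w * pm (α (φ n)) w) atTop (𝓝 0) := by
      refine squeeze_zero_norm (fun n => h4 (φ n) w hw) ?_
      simpa using (tendsto_one_div_add_atTop_nhds_zero_nat.comp h6.tendsto_atTop).mul (pc w).norm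
    simpa using a1.add ((pc w).const_mul (e w))
  obtain ⟨ρ, hρ⟩ : ∃ ρ : NNReal, (ρ : ℝ) = r - θ / 2 := ⟨⟨r - θ / 2, by linarith⟩, rfl⟩
  have ρ0 : (0 : ℝ) < ρ := by linarith
  have hS : sphere c ρ ⊆ An2 c (r - θ) r := fun t ht => by
    rw [mem_sphere] at ht
    exact ⟨by linarith, by linarith⟩
  have ce : ContinuousOn e (sphere c ρ) := fun t ht =>
    (he t (hS ht)).continuousAt.continuousWithinAt
  have cp : Continuous (pm β) := pm_cont.comp (continuous_const.prodMk continuous_id)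
  obtain ⟨B, hB⟩ := (isCompact_sphere c ρ).exists_bound_of_continuousOn ce
  set G : ℂ → ℂ := fun w => (2 * π * Complex.I : ℂ)⁻¹ • ∮ z in C(c, ρ), (z - w)⁻¹ • (e z * pm β z)
    with hG
  have aG : ∀ w ∈ ball c ρ, AnalyticAt ℂ G w := fun w hw =>
    (hasFPowerSeriesOn_cauchy_integral ((ce.mul cp.continuousOn).circleIntegrable ρ0.le)
      (by exact_mod_cast ρ0)).analyticAt_of_mem (by simpa using hw)
  have eG : ∀ w ∈ An2 c (r - θ) r, w ∈ ball c ρ → G w = e w * pm β w := by
    intro w hw hw'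
    refine tendsto_nhds_unique ?_ (lim w hw)
    have a1 : ∀ n, A (φ n) w =
        (2 * π * Complex.I : ℂ)⁻¹ • ∮ z in C(c, ρ), (z - w)⁻¹ • A (φ n) z := fun n =>
      (((h3 (φ n)).mono (closure_ball_subset_closedBall.trans (closedBall_subset_ball
        (by linarith)))).diffContOnCl.two_pi_i_inv_smul_circleIntegral_sub_inv_smul hw').symm
    simp only [a1]
    refine Tendsto.const_smul ?_ _
    have a2 : ∀ t, circleMap c ρ t ∈ sphere c ρ := circleMap_mem_sphere c ρ0.le
    have a3 := continuous_circleMap_inv hw'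
    obtain ⟨B', hB'⟩ := isCompact_Icc.exists_bound_of_continuousOn
      (a3.continuousOn (s := Icc 0 (2 * π)))
    refine intervalIntegral.tendsto_integral_filter_of_dominated_convergence
      (fun _ => ρ * (B' * ((B + 1) * (2 * r) ^ M))) (Eventually.of_forall fun n => ?_)
      (Eventually.of_forall fun n => Eventually.of_forall fun t ht => ?_)
      intervalIntegrable_const (Eventually.of_forall fun t _ => ?_)
    · refine Continuous.aestronglyMeasurable ?_
      simp only [deriv_circleMap]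
      exact (by fun_prop : Continuous fun t => circleMap 0 ρ t * Complex.I).smul (a3.smul
        ((h3 (φ n)).continuousOn.comp_continuous (continuous_circleMap c ρ) fun t => (hS (a2 t)).2))
    · rw [uIoc_of_le (by positivity)] at ht
      have b1 := pm_le (ρ := r) (fun i => closedBall_subset_closedBall (by linarith) (h2 (φ n) i))
        (hS (a2 t)).2.le
      have b2 := h4 (φ n) _ (hS (a2 t))
      have b3 := hB _ (a2 t)
      have b4 : (1 : ℝ) / (φ n + 1) ≤ 1 := by
        rw [div_le_one (by positivity)]; linarith [Nat.cast_nonneg (α := ℝ) (φ n)]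
      have b5 := norm_sub_norm_le (A (φ n) (circleMap c ρ t))
        (e (circleMap c ρ t) * pm (α (φ n)) (circleMap c ρ t))
      rw [norm_mul] at b5
      have b6 : ‖A (φ n) (circleMap c ρ t)‖ ≤ (B + 1) * (2 * r) ^ M := by
        have b7 := norm_nonneg (pm (α (φ n)) (circleMap c ρ t))
        have b8 := norm_nonneg (e (circleMap c ρ t))
        nlinarith [mul_le_mul b3 b1 b7 (b8.trans b3), mul_le_mul_of_nonneg_right b4 b7]
      rw [norm_smul, norm_smul, deriv_circleMap, norm_mul, norm_circleMap_zero, Complex.norm_I,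
        mul_one, abs_of_pos ρ0]
      exact mul_le_mul_of_nonneg_left (mul_le_mul (hB' t (Ioc_subset_Icc_self ht)) b6
        (norm_nonneg _) ((norm_nonneg _).trans (hB' t (Ioc_subset_Icc_self ht)))) ρ0.le
    · exact ((lim _ (hS (a2 t))).const_smul _).const_smul _
  classical
  have eq : EqOn (fun w => if w ∈ ball c ρ then G w / pm β w else e w) e (An2 c (r - θ) r) := by
    intro w hw
    simp only
    split_ifs with a1
    · rw [eG w hw a1, mul_div_cancel_right₀ _ (pm_ne h8 hw.1)]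
    · rfl
  refine ⟨_, fun w hw => ?_, eq⟩
  by_cases a1 : w ∈ ball c ρ
  · have a2 : AnalyticAt ℂ (pm β) w := by
      unfold pm
      fun_prop
    refine ((aG w a1).meromorphicAt.div a2.meromorphicAt).congr (nhdsWithin_le_nhds ?_)
    filter_upwards [isOpen_ball.mem_nhds a1] with z hz
    simp only [Pi.div_apply, if_pos hz]
  · have a2 : w ∈ An2 c (r - θ) r := ⟨by rw [mem_ball] at a1; linarith, hw⟩
    refine (he w a2).meromorphicAt.congr (nhdsWithin_le_nhds ?_)
    filter_upwards [(isOpen_An2 _ _ _).mem_nhds a2] with z hz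
    exact (eq hz).symm

end Pool.Agent.P.MP_7ede32_ag.Bnd
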