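import Pool.Agent.P.MP_7ede32_ag.Bnd.RT2

/-!
All meromorphic forms have the same degree; a form of degree at most zero in genus zero.
-/

open Filter Topology Metric Set Function

noncomputable section

namespace Pool.Agent.P.MP_7ede32_ag.Bnd

open MP_5d7cf0_gt.T (RS zc loc An Hf Om Hol)
open MP_5d7cf0_gt.T renaming D → Dc

namespace FormDegP

variable {C : Type} [TopologicalSpace C] [ChartedSpace ℂ C]

theorem D_sub_const (f : C → ℂ) (a : ℂ) : Dc (fun x => f x - a) = Dc f := by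
  funext c
  exact deriv_sub_const (f := loc f c) a

/-- a simple pole -/
theorem simple {g v : C → ℂ} {p : C} (hv : An v p)
    (h : ∀ᶠ y in 𝓝[≠] p, g y = 1 / (zc p y - zc p p) + v y) :
    Mr g p ∧ (∀ᶠ y in 𝓝[≠] p, g y ≠ 0) ∧ od g p = -1 := by
  have a1 : An (fun y => zc p y - zc p p) p :=
    MP_5d7cf0_gt.T.an_zc_self.sub (MP_5d7cf0_gt.T.an_const _)
  have a2 : Dc (fun y => zc p y - zc p p) p ≠ 0 := by
    rw [D_sub_const, MP_5d7cf0_gt.T.D_zc_self]
    exact one_ne_zero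
  have a3 : ∀ᶠ y in 𝓝[≠] p, zc p y - zc p p ≠ 0 := by
    refine a1.zero_or.resolve_left fun h0 => a2 ?_
    rw [MP_5d7cf0_gt.T.D_congr (v := fun _ => 0) h0, MP_5d7cf0_gt.T.D_const]
  have a4 : od (fun y => zc p y - zc p p) p = 1 := od_eq_one a1 (sub_self _) a2
  have b1 : Mr g p :=
    (((mr_const 1).div (mr_of_an a1)).add (mr_of_an hv)).congr (h.mono fun y hy => hy.symm)
  have b2 : An (fun y => 1 + v y * (zc p y - zc p p)) p :=
    (MP_5d7cf0_gt.T.an_const _).add (hv.mul a1)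
  have b3 : (fun y => 1 + v y * (zc p y - zc p p)) p ≠ 0 := by simp
  have b4 : (fun y => g y * (zc p y - zc p p)) =ᶠ[𝓝[≠] p]
      fun y => 1 + v y * (zc p y - zc p p) := by
    filter_upwards [h, a3] with y h1 h2
    rw [h1, add_mul, one_div_mul_cancel h2]
  have b5 : ∀ᶠ y in 𝓝[≠] p, g y ≠ 0 := by
    filter_upwards [b4, (b2.continuousAt.eventually_ne b3).filter_mono nhdsWithin_le_nhds]
      with y h1 h2 h3
    rw [h3, zero_mul] at h1
    exact h2 h1.symm
  have b6 := od_mul b1 (mr_of_an a1) b5 a3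
  rw [od_congr b4, od_of_ne b2 b3, a4] at b6
  exact ⟨b1, b5, by omega⟩

end FormDegP

theorem sFormDeg (h : SOd) : SFormDeg := by
  intro C _ _ _ w w' a1 a2 a3 a4
  have := h C _ (a1.div a2)
  rw [finsum_congr (od_div_form a1 a2 a3 a4), su_sub a1.fs a2.fs] at this
  omega

theorem sGen0 (h1 : MP_5d7cf0_gt.T.S_ML) (h2 : SOd) : SGen0 := by
  intro C _ _ _ h0
  obtain ⟨p⟩ : Nonempty C := inferInstance
  obtain ⟨f, f1, f2⟩ := h1 C {p} (fun _ => 1) fun w hw => by simp [h0 w hw]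
  obtain ⟨u, u1, u2⟩ := f2 p (Finset.mem_singleton_self p)
  have an : ∀ a : ℂ, ∀ c, c ≠ p → An (fun x => f x - a) c := fun a c hc =>
    (f1 c (by simpa using hc)).sub (MP_5d7cf0_gt.T.an_const _)
  have sp : ∀ a : ℂ, Mr (fun x => f x - a) p ∧ (∀ᶠ y in 𝓝[≠] p, f y - a ≠ 0) ∧
      od (fun x => f x - a) p = -1 := fun a =>
    FormDegP.simple (u1.sub (MP_5d7cf0_gt.T.an_const a)) (u2.mono fun y hy => by
      rw [hy]; ring)
  have me : ∀ a : ℂ, Me fun x => f x - a := fun a c => by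
    by_cases hc : c = p
    · rw [hc]; exact (sp a).1
    · exact mr_of_an (an a c hc)
  have nz : ∀ a : ℂ, Nz fun x => f x - a := fun a => (me a).nz_of (sp a).2.1
  have s1 : ∀ a : ℂ, ∑ᶠ c, ze (fun x => f x - a) c = 1 := fun a => by
    rw [(me a).sum_ze h2, finsum_eq_single _ p fun c hc => po_of_an (an a c hc), po, (sp a).2.2]
    rfl
  have le : ∀ c, odf (Dc f) c ≤ 0 := fun c => by
    by_cases hc : c = p
    · rw [hc, ← FormDegP.D_sub_const f 0, odf_D (sp 0).1 (by rw [(sp 0).2.2]; omega), (sp 0).2.2]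
      omega
    · have b1 := one_le_od (an (f c) c hc) (sub_self _) ((nz (f c)).ne c)
      have b2 := sm_le_univ (W := {c}) (me (f c)).fs_ze fun _ => ze_nonneg
      rw [finsum_mem_singleton, s1] at b2
      have b3 : od (fun x => f x - f c) c ≤ ze (fun x => f x - f c) c := le_max_left _ _
      rw [← FormDegP.D_sub_const f (f c), odf_D (me (f c) c) (by omega)]
      omega
  have m1 : MeF (Dc f) := FormDegP.D_sub_const f 0 ▸ (me 0).meF_D
  refine ⟨Dc f, m1, ?_, ?_⟩
  · rw [← FormDegP.D_sub_const f 0]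
    refine (me 0).nz_D ?_
    rintro ⟨a, ha⟩
    obtain ⟨c, c1, c2⟩ := (ha.and (nz a)).exists
    exact c2 (sub_eq_zero.2 (by rw [← c1, sub_zero]))
  · have := su_le m1.fs (g := fun _ => 0) (by simp [Fs]) le
    rwa [finsum_zero] at this

end Pool.Agent.P.MP_7ede32_ag.Bnd
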