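import Pool.Agent.P.MP_7ede32_ag.Bnd.RT2

/-!
The degree of the canonical divisor in positive genus.
-/

open Filter Topology Metric Set Function

noncomputable section

namespace Pool.Agent.P.MP_7ede32_ag.Bnd

open MP_5d7cf0_gt.T (RS zc loc An Hf Om Hol)
open MP_5d7cf0_gt.T renaming D → Dc

namespace GenP

variable {C : Type} [TopologicalSpace C] [ChartedSpace ℂ C] {u v w : C → ℂ} {c : C}

theorem fm_self (w : C → ℂ) (c : C) : fm w c c = w c := by
  rw [fm, MP_5d7cf0_gt.T.D_zc_self, div_one]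

theorem an_fm (h : w ∈ Om C) (c : C) : An (fm w c) c := h c

theorem slope (h : An u c) (h0 : u c = 0) :
    Tendsto (fun y => u y / (zc c y - zc c c)) (𝓝[≠] c) (𝓝 (Dc u c)) := by
  have hc := mem_chart_source ℂ c
  have h1 := hasDerivAt_iff_tendsto_slope.1 h.hasDerivAt
  have h2 : Tendsto (zc c) (𝓝[≠] c) (𝓝[≠] (zc c c)) := (MP_5d7cf0_gt.T.map_zc_ne hc).le
  refine (h1.comp h2).congr' ?_
  filter_upwards [mem_nhdsWithin_of_mem_nhds (MP_5d7cf0_gt.T.source_mem hc)] with y hy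
  rw [comp_apply, slope_def_field, MP_5d7cf0_gt.T.loc_zc hy, MP_5d7cf0_gt.T.loc_self, h0, sub_zero]

variable [RS C]

theorem exists_ne (h2 : MP_5d7cf0_gt.T.S_Bpf) (h : ∃ w ∈ Om C, w ≠ 0) {Z : Set C}
    (hZ : Z.Finite) : ∃ w ∈ Om C, ∀ c ∈ Z, w c ≠ 0 := by
  induction Z, hZ using Set.Finite.induction_on with
  | empty => exact ⟨0, zero_mem _, fun _ h => h.elim⟩
  | @insert p Z _ hZ ih =>
    obtain ⟨w₂, a1, a2⟩ := ih
    obtain ⟨w₃, b1, b2⟩ := h2 C h p
    obtain ⟨t, ht⟩ := ((hZ.insert p).image fun c => -w₂ c / w₃ c).exists_notMem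
    refine ⟨w₂ + t • w₃, add_mem a1 (Submodule.smul_mem _ t b1), fun c hc h0 => ?_⟩
    simp only [Pi.add_apply, Pi.smul_apply, smul_eq_mul] at h0
    by_cases h3 : w₃ c = 0
    · rw [h3, mul_zero, add_zero] at h0
      rcases hc with rfl | hc
      · exact b2 h3
      · exact a2 c hc h0
    · refine ht ⟨c, hc, ?_⟩
      field_simp
      linear_combination -h0

omit [RS C] in
theorem odf_of_ne (h : w ∈ Om C) (h0 : w c ≠ 0) : odf w c = 0 :=
  od_of_ne (an_fm h c) (by rwa [fm_self])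

theorem one_le_odf (h : w ∈ Om C) (hw : w ≠ 0) (h0 : w c = 0) : 1 ≤ odf w c := by
  refine one_le_od (an_fm h c) (by rwa [fm_self]) ?_
  filter_upwards [(nz_of_om h hw).ne c,
    mem_nhdsWithin_of_mem_nhds (MP_5d7cf0_gt.T.source_mem (mem_chart_source ℂ c))] with y a1 a2
  exact div_ne_zero a1 (MP_5d7cf0_gt.T.D_zc_ne a2)

theorem eq_smul (hu : u ∈ Om C) (hv : v ∈ Om C) (h0 : v ≠ 0) {a : ℂ}
    (h : ∀ᶠ c in cofinite, u c / v c = a) : u = a • v := by
  have h1 : ∀ᶠ c in cofinite, (u - a • v) c = 0 := by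
    filter_upwards [h, nz_of_om hv h0] with c a1 a2
    simp only [Pi.sub_apply, Pi.smul_apply, smul_eq_mul]
    rw [← a1, div_mul_cancel₀ _ a2, sub_self]
  exact sub_eq_zero.1 (MP_5d7cf0_gt.T.om_eq_zero_of_finite
    (sub_mem hu (Submodule.smul_mem _ a hv)) h1 fun y hy => not_not.1 hy)

/-- a form with simple zeros -/
theorem exists_simple (h2 : MP_5d7cf0_gt.T.S_Bpf) (h4 : SSimple) (hw : w ∈ Om C) (h0 : w ≠ 0)
    {p : C} (hp : w p = 0) :
    ∃ v ∈ Om C, v ≠ 0 ∧ ∀ c, v c = 0 → Dc (fm v c) c ≠ 0 := by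
  obtain ⟨w₂, a1, a2⟩ := exists_ne h2 ⟨w, hw, h0⟩ (MP_5d7cf0_gt.T.om_finite_zeros hw h0)
  have a3 : w₂ ≠ 0 := fun h => a2 p hp (by rw [h]; rfl)
  have hF : ¬ ∃ a, ∀ᶠ c in cofinite, w c / w₂ c = a := by
    rintro ⟨a, ha⟩
    have h1 := eq_smul hw a1 a3 ha
    have h3 : a * w₂ p = 0 := by rw [← hp, h1]; rfl
    rw [(mul_eq_zero.1 h3).resolve_right (a2 p hp), zero_smul] at h1
    exact h0 h1
  have hS := (h4 C _ ((meF_of_om hw).div (meF_of_om a1))).1 hF
  obtain ⟨t, ht⟩ := (((mem_cofinite.1 hS).image fun c => w c / w₂ c).insert 0).exists_notMem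
  refine ⟨w - t • w₂, sub_mem hw (Submodule.smul_mem _ t a1), fun h => ?_, fun c hc => ?_⟩
  · have h1 := congrFun h p
    simp only [Pi.sub_apply, Pi.smul_apply, smul_eq_mul, hp, zero_sub, Pi.zero_apply,
      neg_eq_zero] at h1
    exact ht (Or.inl ((mul_eq_zero.1 h1).resolve_right (a2 p hp)))
  · simp only [Pi.sub_apply, Pi.smul_apply, smul_eq_mul] at hc
    have b1 : w₂ c ≠ 0 := fun h => a2 c (by simpa [h] using hc) h
    have b2 : w c / w₂ c = t := by
      field_simp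
      linear_combination hc
    have b3 : An (fun y => w y / w₂ y) c ∧ Dc (fun y => w y / w₂ y) c ≠ 0 := by
      by_contra h
      exact ht (Or.inr ⟨c, h, b2⟩)
    have b4 : fm (w - t • w₂) c =ᶠ[𝓝 c] fun y => (w y / w₂ y - t) * fm w₂ c y := by
      filter_upwards [(MP_5d7cf0_gt.T.Hf.tendsto (a1 c)).eventually_ne b1] with y hy
      have b5 : w₂ y ≠ 0 := fun h => hy (by rw [h, zero_div])
      simp only [fm, Pi.sub_apply, Pi.smul_apply, smul_eq_mul]
      rw [← mul_div_assoc, sub_mul, div_mul_cancel₀ _ b5]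
    have b6 := b3.1.sub (MP_5d7cf0_gt.T.an_const t)
    rw [MP_5d7cf0_gt.T.D_congr b4, MP_5d7cf0_gt.T.D_mul b6 (an_fm a1 c),
      MP_5d7cf0_gt.T.D_sub b3.1 (MP_5d7cf0_gt.T.an_const t), MP_5d7cf0_gt.T.D_const, b2, sub_self,
      zero_mul, add_zero, sub_zero, fm_self]
    exact mul_ne_zero b3.2 b1

omit [RS C] in
theorem odf_simple (hv : v ∈ Om C) (hs : ∀ c, v c = 0 → Dc (fm v c) c ≠ 0) (h : v c = 0) :
    odf v c = 1 := od_eq_one (an_fm hv c) (by rwa [fm_self]) (hs c h)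

/-- a form that vanishes at all zeros of `v` is a multiple of `v` -/
theorem ker_ev (hv : v ∈ Om C) (h0 : v ≠ 0) (hs : ∀ c, v c = 0 → Dc (fm v c) c ≠ 0)
    (hu : u ∈ Om C) (h : ∀ c, v c = 0 → u c = 0) : ∃ a : ℂ, u = a • v := by
  by_cases h1 : u = 0
  · exact ⟨0, by rw [h1, zero_smul]⟩
  obtain ⟨a, ha⟩ := ((meF_of_om hu).div (meF_of_om hv)).const_of_po fun c => by
    rw [po, od_div_form (meF_of_om hu) (meF_of_om hv) (nz_of_om hu h1) (nz_of_om hv h0)]
    by_cases h2 : v c = 0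
    · have := one_le_odf hu h1 (h c h2)
      rw [odf_simple hv hs h2]
      omega
    · have : 0 ≤ odf u c := od_nonneg_of_an (an_fm hu c)
      rw [odf_of_ne hv h2]
      omega
  exact ⟨a, eq_smul hu hv h0 ha⟩

/-- the product of a solution of the Mittag-Leffler problem and `v` -/
theorem exists_form (h1 : MP_5d7cf0_gt.T.S_ML) (hv : v ∈ Om C) (s : Finset C)
    (hs : ∀ p ∈ s, v p = 0) (a : C → ℂ) (ha : ∀ w ∈ Om C, ∑ p ∈ s, a p * w p = 0) :
    ∃ w ∈ Om C, ∀ p ∈ s, w p = a p * Dc (fm v p) p := by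
  obtain ⟨f, a1, a2⟩ := h1 C s a ha
  have key : ∀ p ∈ s, Tendsto (fun y => f y * v y / Dc (zc p) y) (𝓝[≠] p)
      (𝓝 (a p * Dc (fm v p) p)) := fun p hp => by
    obtain ⟨u, b1, b2⟩ := a2 p hp
    have b3 : fm v p p = 0 := by rw [fm_self, hs p hp]
    have b4 := (slope (an_fm hv p) b3).const_mul (a p)
    have b5 : Tendsto (fun y => u y * fm v p y) (𝓝[≠] p) (𝓝 0) := by
      have := (b1.mul (an_fm hv p)).continuousAt.tendsto
      rw [b3, mul_zero] at this
      exact this.mono_left nhdsWithin_le_nhds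
    have b6 := b4.add b5
    rw [add_zero] at b6
    refine b6.congr' ?_
    filter_upwards [b2] with y hy
    rw [hy, fm]
    ring
  obtain ⟨w, c1, c2⟩ := MP_5d7cf0_gt.T.om_extend (w := fun y => f y * v y) s.finite_toSet
    (fun y hy => MP_5d7cf0_gt.T.Hf.mul (a1 y hy) (hv y)) fun p hp =>
      ⟨_, ((key p hp).norm.eventually (gt_mem_nhds (lt_add_one _))).mono fun _ h => h.le⟩
  refine ⟨w, c1, fun p hp => tendsto_nhds_unique
    ((MP_5d7cf0_gt.T.Hf.tendsto (c1 p)).mono_left (nhdsWithin_le_nhds (s := {p}ᶜ)))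
    ((key p hp).congr' ?_)⟩
  filter_upwards [MP_5d7cf0_gt.T.eventually_notMem s.finite_toSet p] with y hy
  rw [c2 y hy]

/-- evaluation at the points of `s` -/
def ev (s : Finset C) : Om C →ₗ[ℂ] (s → ℂ) where
  toFun u p := u.1 p
  map_add' _ _ := rfl
  map_smul' _ _ := rfl

theorem count (h1 : MP_5d7cf0_gt.T.S_ML) (hv : v ∈ Om C) (h0 : v ≠ 0)
    (hs : ∀ c, v c = 0 → Dc (fm v c) c ≠ 0) (s : Finset C) (hm : ∀ p, p ∈ s ↔ v p = 0) :
    ∃ r : ℕ, s.card ≤ 2 * r ∧ r + 1 ≤ Module.finrank ℂ (Om C) := by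
  classical
  obtain ⟨p₀, hp₀⟩ := Function.ne_iff.1 h0
  have hfin : Module.Finite ℂ (Om C) := by
    refine Module.Finite.of_injective (ev (insert p₀ s)) ?_
    rw [injective_iff_map_eq_zero]
    intro u hu
    obtain ⟨a, ha⟩ := ker_ev hv h0 hs u.2 fun c hc =>
      congrFun hu ⟨c, Finset.mem_insert_of_mem ((hm c).2 hc)⟩
    have h2 : u.1 p₀ = 0 := congrFun hu ⟨p₀, Finset.mem_insert_self _ _⟩
    rw [ha] at h2
    refine Subtype.ext ?_
    rw [ha, (mul_eq_zero.1 h2).resolve_right hp₀, zero_smul]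
    rfl
  refine ⟨Module.finrank ℂ (LinearMap.range (ev s)), ?_, ?_⟩
  · let T : Module.Dual ℂ (s → ℂ) →ₗ[ℂ] (s → ℂ) :=
      { toFun := fun φ p => φ (Pi.single p 1) * Dc (fm v p) p
        map_add' := fun _ _ => funext fun _ => add_mul _ _ _
        map_smul' := fun _ _ => funext fun _ => mul_assoc _ _ _ }
    have hφ : ∀ (φ : Module.Dual ℂ (s → ℂ)) (x : s → ℂ),
        φ x = ∑ p, φ (Pi.single p 1) * x p := fun φ x => by
      conv_lhs => rw [pi_eq_sum_univ' x, map_sum]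
      exact Finset.sum_congr rfl fun p _ => by rw [map_smul, smul_eq_mul, mul_comm]
    have hT : Injective T := by
      rw [injective_iff_map_eq_zero]
      intro φ h
      refine LinearMap.ext fun x => ?_
      rw [hφ]
      refine Finset.sum_eq_zero fun p _ => ?_
      rw [(mul_eq_zero.1 (congrFun h p)).resolve_right (hs p ((hm p).1 p.2)), zero_mul]
    have hR : ∀ φ ∈ (LinearMap.range (ev s)).dualAnnihilator, T φ ∈ LinearMap.range (ev s) := by
      intro φ h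
      rw [Submodule.mem_dualAnnihilator] at h
      obtain ⟨w, b1, b2⟩ := exists_form h1 hv s (fun p hp => (hm p).1 hp)
        (fun p => if hp : p ∈ s then φ (Pi.single ⟨p, hp⟩ 1) else 0) fun w hw => by
          rw [← h _ ⟨⟨w, hw⟩, rfl⟩, hφ, ← Finset.sum_coe_sort]
          exact Finset.sum_congr rfl fun p _ => by rw [dif_pos p.2]; rfl
      refine ⟨⟨w, b1⟩, funext fun p => (b2 p p.2).trans ?_⟩
      rw [dif_pos p.2]
      rfl
    have h2 := LinearMap.finrank_le_finrank_of_injective (f := T.restrict hR) fun x y h =>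
      Subtype.ext (hT (congrArg Subtype.val h))
    have h3 := Subspace.finrank_add_finrank_dualAnnihilator_eq (LinearMap.range (ev s))
    rw [Module.finrank_fintype_fun_eq_card, Fintype.card_coe] at h3
    omega
  · have h2 := LinearMap.finrank_range_add_finrank_ker (ev s)
    have h4 : (⟨v, hv⟩ : Om C) ∈ LinearMap.ker (ev s) :=
      LinearMap.mem_ker.2 (funext fun p : s => (hm p).1 p.2)
    have h3 : 0 < Module.finrank ℂ (LinearMap.ker (ev s)) :=
      Module.finrank_pos_iff_exists_ne_zero.2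
        ⟨⟨_, h4⟩, fun h => h0 (congrArg Subtype.val (congrArg Subtype.val h))⟩
    omega

end GenP

theorem sGenP (h1 : MP_5d7cf0_gt.T.S_ML) (h2 : MP_5d7cf0_gt.T.S_Bpf) (h3 : SFormDeg)
    (h4 : SSimple) : SGenP := by
  intro C _ _ _ w hw h0 hk
  obtain ⟨p, hp⟩ : ∃ p, w p = 0 := by
    by_contra h
    push Not at h
    rw [finsum_congr fun c => GenP.odf_of_ne hw (h c), finsum_zero] at hk
    omega
  obtain ⟨v, a1, a2, a3⟩ := GenP.exists_simple h2 h4 hw h0 hp
  have hf := MP_5d7cf0_gt.T.om_finite_zeros a1 a2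
  obtain ⟨r, b1, b2⟩ := GenP.count h1 a1 a2 a3 hf.toFinset fun p => hf.mem_toFinset
  have e : ∑ᶠ c, odf w c = hf.toFinset.card := by
    rw [h3 C w v (meF_of_om hw) (meF_of_om a1) (nz_of_om hw h0) (nz_of_om a1 a2), ← sm_univ,
      sm_eq_ncard (W' := {y | v y = 0}) (fun c hc => GenP.odf_simple a1 a3 hc)
        fun c hc => GenP.odf_of_ne a1 hc, univ_inter, Set.ncard_eq_toFinset_card _ hf]
  omega

end Pool.Agent.P.MP_7ede32_ag.Bnd
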