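import Pool.Agent.P.MP_7ede32_ag.Bnd.RT2

/-!
A value that is taken few times.
-/

open Filter Topology Metric Set Function

noncomputable section

namespace Pool.Agent.P.MP_7ede32_ag.Bnd

open MP_5d7cf0_gt
open MP_5d7cf0_gt.T (RS zc loc An Hf Om Hol)
open MP_5d7cf0_gt.T renaming D → Dc

namespace K3bP

theorem isOpen_lt' {C : Type} [TopologicalSpace C] [T1Space C] {S : Set C} (hS : S.Finite)
    {f g : C → ℝ} (h : ∀ c ∉ S, ContinuousAt f c ∧ ContinuousAt g c) :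
    IsOpen {c | c ∉ S ∧ f c < g c} := by
  refine isOpen_iff_mem_nhds.2 fun c hc => ?_
  filter_upwards [hS.isClosed.isOpen_compl.mem_nhds hc.1,
    (h c hc.1).1.eventually_lt (h c hc.1).2 hc.2] with y a b using ⟨a, b⟩

variable {C : Type} [TopologicalSpace C] [ChartedSpace ℂ C] {L : PeriodPair} {p : Pm L}
  {B : Bc L C}

theorem lam_pos (p : Pm L) : 0 < p.lam := by
  have := p.one_le
  unfold Pm.lam
  positivity

/-- the two auxiliary functions -/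
def xs (d : CD p B) (i : Fin p.m) (j : ℕ) (s : ℂ) (c : C) : ℂ :=
  d.χ c + s * p.lam * B.pb p.Ψ c ^ j / d.Y i c

theorem an_xs {d : CD p B} {i : Fin p.m} {j : ℕ} {s : ℂ} {c : C} (h1 : An d.χ c)
    (h2 : An (d.Y i) c) (h3 : An (B.pb p.Ψ) c) (h4 : d.Y i c ≠ 0) : An (xs d i j s) c :=
  h1.add (((T.an_const _).mul (h3.pow j)).div h2 h4)

theorem D_le {d : CD p B} {i : Fin p.m} {j : ℕ} {c : C} (h1 : An d.χ c)
    (h2 : An (d.Y i) c) (h3 : An (B.pb p.Ψ) c) (h4 : d.Y i c ≠ 0) :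
    ‖Dc d.χ c‖ ≤ ‖Dc (xs d i j 1) c‖ + ‖Dc (xs d i j (-1)) c‖ := by
  have a := T.D_add (an_xs (j := j) (s := 1) h1 h2 h3 h4) (an_xs (j := j) (s := -1) h1 h2 h3 h4)
  have b : (fun y => xs d i j 1 y + xs d i j (-1) y) = fun y => 2 * d.χ y := by
    funext y
    simp only [xs]
    ring
  rw [b, T.D_const_mul 2 h1] at a
  have e := norm_add_le (Dc (xs d i j 1) c) (Dc (xs d i j (-1)) c)
  rw [← a, norm_mul, Complex.norm_two] at e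
  linarith [norm_nonneg (Dc d.χ c)]

theorem xs_near {d : CD p B} {i : Fin p.m} {j : ℕ} {s : ℂ} {c : C} (hs : ‖s‖ = 1)
    (h1 : ‖d.χ c - p.y₀‖ < 1 / 2) (h2 : 2 * p.lam * ‖B.pb p.Ψ c‖ ^ j < ‖d.Y i c‖) :
    d.Y i c ≠ 0 ∧ ‖xs d i j s c - p.y₀‖ ≤ 1 := by
  have hl := lam_pos p
  have h3 : 0 < ‖d.Y i c‖ := lt_of_le_of_lt (by positivity) h2
  refine ⟨norm_pos_iff.1 h3, ?_⟩
  have h4 : ‖s * p.lam * B.pb p.Ψ c ^ j / d.Y i c‖ ≤ 1 / 2 := by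
    rw [norm_div, norm_mul, norm_mul, hs, norm_pow, Complex.norm_real, Real.norm_of_nonneg hl.le,
      div_le_iff₀ h3]
    linarith
  have h5 : xs d i j s c - p.y₀ = (d.χ c - p.y₀) + s * p.lam * B.pb p.Ψ c ^ j / d.Y i c := by
    simp only [xs]
    ring
  rw [h5]
  linarith [norm_add_le (d.χ c - p.y₀) (s * p.lam * B.pb p.Ψ c ^ j / d.Y i c)]

theorem cnt [RS C] {d : CD p B} {W W' : Set C} {i : Fin p.m} {j : ℕ} {s : ℂ} {M : ℤ} (hM : 0 ≤ M)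
    (h : ∀ y, ‖y - p.y₀‖ ≤ 1 → Me (d.Gy i j s y) ∧ Nz (d.Gy i j s y) ∧
      ∑ᶠ c ∈ W, ze (d.Gy i j s y) c ≤ M) (hW : W' ⊆ W)
    (h2 : ∀ c ∈ W', An d.χ c ∧ An (d.Y i) c ∧ An (B.pb p.Ψ) c ∧ d.Y i c ≠ 0 ∧
      ‖xs d i j s c - p.y₀‖ ≤ 1) (y : ℂ) :
    (W' ∩ {c | xs d i j s c = y}).Finite ∧ ((W' ∩ {c | xs d i j s c = y}).ncard : ℤ) ≤ M := by
  by_cases hy : ‖y - p.y₀‖ ≤ 1
  · obtain ⟨a1, a2, a3⟩ := h y hy
    have := ncard_le_sm (W := W' ∩ {c | xs d i j s c = y}) (W' := W) a1.fs_ze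
      (fun _ => ze_nonneg) (fun c hc => hW hc.1) fun c hc => by
        obtain ⟨b1, b2, b3, b4, -⟩ := h2 c hc.1
        refine le_trans (one_le_od ?_ ?_ (a2.ne c)) (le_max_left _ _)
        · exact ((b1.sub (T.an_const y)).mul b2).add ((T.an_const _).mul (b3.pow j))
        · have e : xs d i j s c = y := hc.2
          rw [CD.Gy, ← e, xs]
          field_simp
          ring
    exact ⟨this.1, this.2.trans a3⟩
  · have : W' ∩ {c | xs d i j s c = y} = ∅ :=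
      eq_empty_of_forall_notMem fun c hc => hy (hc.2 ▸ (h2 c hc.1).2.2.2.2)
    rw [this]
    simpa using hM

end K3bP

open K3bP in
theorem sK3b (h1 : SK3a) (h2 : SAreaC) (h3 : SLam) (h4 : SSimple) (h5 : SBw) (h6 : SDegB) :
    SK3b := by
  intro L p r hr
  obtain ⟨C₁, hC₁⟩ := h1 L p
  obtain ⟨n, R₁, hn⟩ := h3 L
  obtain ⟨k, hk⟩ := (h5 L p.N₀ (fun q hq w hw => (p.per q hq w).2 hw) p.disc).2 p.Ψ p.mer
    (fun q hq w => (p.per q hq w).1) p.an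
  have hl := lam_pos p
  set Λ : ℝ := p.m * (2 * p.lam) with hΛ
  set r' : ℝ := min r (min p.ε₀ (1 / 2)) with hr'
  have r0 : 0 < r' := lt_min hr (lt_min p.ε₀_pos one_half_pos)
  set K : ℝ := 1 + |p.K' Λ| with hK
  set R : ℝ := max 1 R₁ with hR
  set A : ℝ := 4 * K ^ 2 * R ^ 2 / r' ^ 2 * Fintype.card ((Fin p.m × Fin 2) ⊕ Fin n) with hA
  refine ⟨⌈A⌉₊ * (C₁ + 1), ?_⟩
  intro C _ _ _ B d 𝒢 W b hP hc
  obtain ⟨V, z, hV, hz⟩ := hn C B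
  have hd := h6 L C B
  have b0 := hP.toPrt.nonneg hd
  have ρ0 := hd.ρ_nonneg
  obtain ⟨s1, s2⟩ := h4 C d.χ d.mχ
  have mΨ : Me (B.pb p.Ψ) := fun c => (hk C B c).1
  have hS := ((s1 hc).and ((eventually_all.2 fun i => (d.mY i).ev_an).and
    (mΨ.ev_an.and (d.ab Λ))))
  set S : Set C := {c | ¬ ((An d.χ c ∧ Dc d.χ c ≠ 0) ∧ (∀ i, An (d.Y i) c) ∧ An (B.pb p.Ψ) c ∧
    (‖d.χ c - p.y₀‖ ≤ p.ε₀ → ∑ i, ‖d.Y i c‖ ≤ Λ → ∑ i, ‖d.Y i c‖ ≤ Λ * ‖B.pb p.Ψ c‖ →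
      ‖Dc d.χ c‖ ≤ p.K' Λ * ‖B.w c‖))} with hSd
  have Sf : S.Finite := hS
  have off : ∀ c ∉ S, (An d.χ c ∧ Dc d.χ c ≠ 0) ∧ (∀ i, An (d.Y i) c) ∧ An (B.pb p.Ψ) c ∧
      (‖d.χ c - p.y₀‖ ≤ p.ε₀ → ∑ i, ‖d.Y i c‖ ≤ Λ → ∑ i, ‖d.Y i c‖ ≤ Λ * ‖B.pb p.Ψ c‖ →
        ‖Dc d.χ c‖ ≤ p.K' Λ * ‖B.w c‖) := fun c hc => not_not.1 hc
  clear_value S
  have hE := s2 S Sf fun c hc => (off c hc).1
  set O : Set C := {c | c ∉ S ∧ ‖d.χ c - p.y₀‖ < r'} with hO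
  set U : Fin p.m × Fin 2 → Set C := fun q =>
    {c | c ∉ S ∧ 2 * p.lam * ‖B.pb p.Ψ c‖ ^ (q.2 : ℕ) < ‖d.Y q.1 c‖} with hU
  have Oo : IsOpen O := isOpen_lt' Sf fun c hc =>
    ⟨((off c hc).1.1.continuousAt.sub continuousAt_const).norm, continuousAt_const⟩
  have Uo : ∀ q, IsOpen (U q) := fun q => isOpen_lt' Sf fun c hc =>
    ⟨continuousAt_const.mul ((off c hc).2.2.1.continuousAt.norm.pow _),
      ((off c hc).2.1 q.1).continuousAt.norm⟩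
  have M0 : (0 : ℤ) ≤ C₁ * (b + B.ρ) := by positivity
  have K1 : 1 ≤ K := le_add_of_nonneg_right (abs_nonneg _)
  have near : ∀ q : Fin p.m × Fin 2, ∀ s : ℂ, ‖s‖ = 1 → ∀ c ∈ W ∩ O ∩ U q,
      An d.χ c ∧ An (d.Y q.1) c ∧ An (B.pb p.Ψ) c ∧ d.Y q.1 c ≠ 0 ∧
        ‖xs d q.1 q.2 s c - p.y₀‖ ≤ 1 := fun q s hs c hc =>
    ⟨(off c hc.2.1).1.1, (off c hc.2.1).2.1 _, (off c hc.2.1).2.2.1,
      xs_near hs (hc.1.2.2.trans_le ((min_le_right _ _).trans (min_le_right _ _))) hc.2.2⟩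
  have cN : ∀ x : ℤ, x ≤ C₁ * (b + B.ρ) ∨ x ≤ b → (x : ℝ) ≤ (C₁ + 1) * (b + B.ρ) := fun x hx => by
    have : x ≤ (C₁ + 1) * (b + B.ρ) := by rcases hx with hx | hx <;> nlinarith
    exact_mod_cast this
  obtain ⟨y, y1, y2, y3, y4⟩ := h2 C ((Fin p.m × Fin 2) ⊕ Fin n)
    (Sum.elim (fun q => W ∩ O ∩ U q) fun j => W ∩ O ∩ (V j ∩ (⋃ q, U q)ᶜ)) d.χ
    (Sum.elim (fun q => xs d q.1 q.2 1) z) (Sum.elim (fun q => xs d q.1 q.2 (-1)) z)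
    (Sum.elim (fun _ => p.y₀) fun _ => 0) K R r' ((C₁ + 1) * (b + B.ρ)) p.y₀ _ r0
    (by simpa using cN 0 (Or.inr b0)) (Finite.countable hE) (by
      let _ := borel C
      have : BorelSpace C := ⟨rfl⟩
      have mW : MeasurableSet (W ∩ O) := MeasurableSet.inter hP.meas Oo.measurableSet
      rintro (q | j)
      · refine ⟨mW.inter (Uo q).measurableSet, fun c hc => ?_⟩
        obtain ⟨a1, a2, a3, a4, a5⟩ := near q 1 norm_one c hc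
        refine ⟨a1, (off c hc.2.1).1.2, an_xs a1 a2 a3 a4, an_xs a1 a2 a3 a4,
          (D_le a1 a2 a3 a4).trans (le_mul_of_one_le_left (by positivity) K1),
          a5.trans (le_max_left _ _),
          (near q (-1) (by simp) c hc).2.2.2.2.trans (le_max_left _ _)⟩
      · refine ⟨mW.inter ((hz j).1.measurableSet.inter (isOpen_iUnion Uo).measurableSet.compl),
          fun c hc => ?_⟩
        obtain ⟨⟨-, a1, a2⟩, a3, a4⟩ := hc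
        obtain ⟨e1, e2, e3, -⟩ := (hz j).2 c a3
        have a5 : ∀ i, ∀ t : Fin 2, ‖d.Y i c‖ ≤ 2 * p.lam * ‖B.pb p.Ψ c‖ ^ (t : ℕ) := fun i t =>
          not_lt.1 fun h => a4 (mem_iUnion.2 ⟨(i, t), a1, h⟩)
        have a6 : ∀ t : Fin 2, ∑ i, ‖d.Y i c‖ ≤ Λ * ‖B.pb p.Ψ c‖ ^ (t : ℕ) := fun t => by
          refine (Finset.sum_le_sum fun i _ => a5 i t).trans_eq ?_
          rw [Finset.sum_const, Finset.card_univ, Fintype.card_fin, nsmul_eq_mul, hΛ]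
          ring
        have a7 := (off c a1).2.2.2 (a2.le.trans ((min_le_right _ _).trans (min_le_left _ _)))
          (by simpa using a6 0) (by simpa using a6 1)
        have e4 : ‖z j c - 0‖ ≤ R := by
          rw [sub_zero]
          exact e3.trans (le_max_right _ _)
        refine ⟨(off c a1).1.1, (off c a1).1.2, e1, e1, ?_, e4, e4⟩
        change _ ≤ K * (‖Dc (z j) c‖ + ‖Dc (z j) c‖)
        rw [e2]
        have := norm_nonneg (B.w c)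
        have := le_abs_self (p.K' Λ)
        have := abs_nonneg (p.K' Λ)
        nlinarith) (by
      rintro (q | j) y
      · have hq : (q.2 : ℕ) ≤ 1 := Nat.lt_succ_iff.1 q.2.2
        have a := cnt M0 (fun y hy => hC₁ C B d 𝒢 W b hP q.1 q.2 hq 1 y norm_one hy)
          (fun c hc => hc.1.1) (near q 1 norm_one) y
        have a' := cnt M0 (fun y hy => hC₁ C B d 𝒢 W b hP q.1 q.2 hq (-1) y (by simp) hy)
          (fun c hc => hc.1.1) (near q (-1) (by simp)) y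
        exact ⟨a.1, by exact_mod_cast cN _ (Or.inl a.2), a'.1, by exact_mod_cast cN _ (Or.inl a'.2)⟩
      · have a : W ∩ O ∩ (V j ∩ (⋃ q, U q)ᶜ) ∩ {c | z j c = y} ⊆ W ∩ B.Fb y := fun c hc =>
          ⟨hc.1.1.1, (show z j c = y from hc.2) ▸ ((hz j).2 c hc.1.2.1).2.2.2⟩
        have f := (hd.fin y).inter_of_right W
        have a' : ((W ∩ O ∩ (V j ∩ (⋃ q, U q)ᶜ) ∩ {c | z j c = y}).ncard : ℝ) ≤
            (C₁ + 1) * (b + B.ρ) := by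
          exact_mod_cast cN _ (Or.inr ((Int.ofNat_le.2 (ncard_le_ncard a f)).trans
            (hP.toPrt.ncard_le hd y)))
        exact ⟨f.subset a, a', f.subset a, a'⟩)
  have y5 := not_not.1 y2
  refine ⟨y, ball_subset_ball (min_le_left _ _) y1, ?_⟩
  rw [sm_eq_ncard (W' := {c | c ∉ S ∧ d.χ c = y}) (fun c hc => (y5 c).1 hc)
    fun c hc => (y5 c).2 hc]
  have sub : W ∩ {c | c ∉ S ∧ d.χ c = y} ⊆ (⋃ j, Sum.elim (fun q => W ∩ O ∩ U q)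
      (fun j => W ∩ O ∩ (V j ∩ (⋃ q, U q)ᶜ)) j) ∩ {c | d.χ c = y} := by
    rintro c ⟨a1, a2, a3⟩
    have a4 : c ∈ W ∩ O := ⟨a1, a2, by rwa [a3, ← mem_ball_iff_norm]⟩
    refine ⟨?_, a3⟩
    by_cases a5 : c ∈ ⋃ q, U q
    · obtain ⟨q, hq⟩ := mem_iUnion.1 a5
      exact mem_iUnion.2 ⟨Sum.inl q, a4, hq⟩
    · obtain ⟨j, hj⟩ := hV c
      exact mem_iUnion.2 ⟨Sum.inr j, a4, hj, a5⟩
  have e1 := (Nat.cast_le (α := ℝ)).2 (ncard_le_ncard sub y3)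
  have e2 := mul_le_mul_of_nonneg_right (Nat.le_ceil A) (by simpa using cN 0 (Or.inr b0) :
    (0 : ℝ) ≤ (C₁ + 1) * (b + B.ρ))
  have e3 := (e1.trans y4).trans e2
  rw [← mul_assoc] at e3
  exact_mod_cast e3

end Pool.Agent.P.MP_7ede32_ag.Bnd
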