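import Pool.Agent.P.MP_7ede32_ag.Bnd.RT2

/-!
The local degree of a holomorphic function, and sums of local degrees.
-/

open Filter Topology Metric Set Function

noncomputable section

namespace Pool.Agent.P.MP_7ede32_ag.Bnd

open MP_5d7cf0_gt.T (RS zc loc An Hf Om Hol)
open MP_5d7cf0_gt.T renaming D → Dc

theorem sLocDeg : SLocDeg := by
  intro C _ _ _ f a hf hc
  obtain ⟨n, ψ, hn, hψ, h0, hD, he⟩ := hf.nf hc
  obtain ⟨V, hV, hi⟩ := hψ.injOn hD
  have hod : od (fun x => f x - f a) a = n := by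
    rw [od_congr (v := fun x => ψ x ^ n) ((he.filter_mono nhdsWithin_le_nhds).mono fun x hx => by
      rw [hx]; ring), od_pow (mr_of_an hψ), od_eq_one hψ h0 hD, mul_one]
  refine ⟨V ∩ {y | An f y ∧ (y ∈ ({a} : Set C)ᶜ → Dc f y ≠ 0) ∧ f y = f a + ψ y ^ n},
    inter_mem hV (hf.eventually.and
      ((eventually_nhdsWithin_iff.1 (hf.eventually_D_ne' hc)).and he)), fun U hU hU0 => ?_⟩
  rw [← nhdsNE_sup_pure (f a), eventually_sup, eventually_pure]
  constructor
  · filter_upwards [MP_5d7cf0_gt.T.nf_preimages hn hψ h0 hD he hU, self_mem_nhdsWithin]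
      with y hy hne
    obtain ⟨s, hs, hsU⟩ := hy
    have hm : ∀ c ∈ U ∩ {c | f c = y},
        ψ c ∈ ((Polynomial.nthRoots n (y - f a)).toFinset : Set ℂ) := fun c hc => by
      rw [Finset.mem_coe, Multiset.mem_toFinset, Polynomial.mem_nthRoots hn, ← hc.2,
        (hU0 hc.1).2.2.2]
      ring
    have hinj : InjOn ψ (U ∩ {c | f c = y}) := hi.mono fun c hc => (hU0 hc.1).1
    have hfin : (U ∩ {c | f c = y}).Finite := Finite.of_injOn hm hinj (Finset.finite_toSet _)
    have hcard : (U ∩ {c | f c = y}).ncard = n := by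
      refine le_antisymm ?_ ?_
      · refine (ncard_le_ncard_of_injOn ψ hm hinj (Finset.finite_toSet _)).trans ?_
        rw [ncard_coe_finset]
        exact (Multiset.toFinset_card_le _).trans (Polynomial.card_nthRoots n _)
      · rw [← hs, ← ncard_coe_finset]
        exact ncard_le_ncard (fun c hc => hsU c hc) hfin
    have h1 : ∀ c ∈ U ∩ {c | f c = y}, od (fun x => f x - y) c = 1 := fun c hc => by
      have h2 := (hU0 hc.1).2
      refine od_eq_one (h2.1.sub (MP_5d7cf0_gt.T.an_const y)) (sub_eq_zero.2 hc.2) ?_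
      rw [MP_5d7cf0_gt.T.D_sub h2.1 (MP_5d7cf0_gt.T.an_const y), MP_5d7cf0_gt.T.D_const, sub_zero]
      refine h2.2.1 fun e => hne ?_
      rw [mem_singleton_iff.1 e] at hc
      exact hc.2.symm
    refine ⟨hfin, fun c hc => (h1 c hc).ge, ?_⟩
    rw [finsum_mem_congr rfl h1, finsum_mem_eq_finite_toFinset_sum _ hfin, Finset.sum_const, hod,
      ← hcard, ncard_eq_toFinset_card _ hfin, nsmul_eq_mul, mul_one]
  · have e : U ∩ {c | f c = f a} = {a} := by
      refine eq_singleton_iff_unique_mem.2 ⟨⟨mem_of_mem_nhds hU, rfl⟩, fun c hc => ?_⟩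
      have h2 := (hU0 hc.1).2.2.2
      rw [show f c = f a from hc.2, left_eq_add] at h2
      exact hi (hU0 hc.1).1 (mem_of_mem_nhds hV) ((pow_eq_zero_iff (by omega)).1 h2 ▸ h0.symm)
    rw [e]
    refine ⟨finite_singleton a, fun c hc => ?_, finsum_mem_singleton⟩
    rw [mem_singleton_iff.1 hc, hod]
    exact_mod_cast hn

theorem sSumLoc : SSumLoc := by
  intro C T _ _ A F S m m₀ hA h1 h2
  obtain ⟨U, hU, hd⟩ := hA.t2_separation
  choose! V hV hl using h1
  have hW : ∀ a ∈ A, U a ∩ V a ∈ 𝓝 a := fun a ha =>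
    inter_mem ((hU a).2.mem_nhds (hU a).1) (hV a ha)
  filter_upwards [(eventually_all_finite hA).2 fun a ha => hl a ha _ (hW a ha) inter_subset_right,
    h2 (⋃ a ∈ A, U a ∩ V a) (mem_nhdsSet_iff_forall.2 fun a ha =>
      mem_of_superset (hW a ha) (subset_biUnion_of_mem (u := fun a => U a ∩ V a) ha))]
    with t h4 h5
  have e : S t = ⋃ a ∈ A, U a ∩ V a ∩ S t := by
    refine Subset.antisymm (fun c hc => ?_) (iUnion₂_subset fun a _ => inter_subset_right)
    obtain ⟨a, ha, h6⟩ := mem_iUnion₂.1 (h5 hc)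
    exact mem_iUnion₂.2 ⟨a, ha, h6, hc⟩
  refine ⟨e ▸ hA.biUnion fun a ha => (h4 a ha).1, ?_⟩
  rw [e, finsum_mem_biUnion (hd.mono fun a c hc => hc.1.1) hA fun a ha => (h4 a ha).1]
  exact finsum_mem_congr rfl fun a ha => (h4 a ha).2

end Pool.Agent.P.MP_7ede32_ag.Bnd
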