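import Pool.Agent.P.MP_7ede32_ag.Bnd.RT2

/-!
Principal divisors have degree zero.
-/

open Filter Topology Metric Set Function

noncomputable section

namespace Pool.Agent.P.MP_7ede32_ag.Bnd

open MP_5d7cf0_gt
open MP_5d7cf0_gt.T (RS zc loc An Hf Om Hol)

namespace OdP

variable {C : Type} [TopologicalSpace C] [ChartedSpace ℂ C] [RS C] {v : C → ℂ}

omit [RS C] in
theorem po_eq {c : C} (h : po v c ≠ 0) : po v c = -od v c := by
  simp only [po] at *
  omega

theorem main (h1 : SLocDeg) (h2 : SSumLoc) (hv : Me v) (an : ∀ c, c ∉ support (po v) → An v c) :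
    ∑ᶠ c, od v c = 0 := by
  by_cases hc : ∃ a, ∀ᶠ c in cofinite, v c = a
  · obtain ⟨a, ha⟩ := hc
    rw [finsum_congr fun c => (od_congr (cof_iff.1 ha c)).trans (od_const a), finsum_zero]
  have nz : ∀ y, Nz fun c => v c - y := fun y =>
    (Me.nz_or fun c => (hv c).sub (mr_const y)).resolve_right
      fun h => hc ⟨y, h.mono fun _ => sub_eq_zero.1⟩
  have fP : (support (po v)).Finite := hv.fs_po
  have tP : ∀ p ∈ support (po v), Tendsto v (𝓝[≠] p) (Bornology.cobounded ℂ) :=
    fun p hp => tendsto_of_po hp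
  generalize hP : support (po v) = P at *
  let S : ℂ → Set C := fun y => {c | c ∉ P ∧ v c = y}
  let N : ℂ → ℤ := fun y => ∑ᶠ c ∈ S y, od (fun x => v x - y) c
  have fS : ∀ y, (S y).Finite := fun y =>
    Set.Finite.subset (nz y) fun c hc => by simp [hc.2]
  have lc : IsLocallyConstant N := (IsLocallyConstant.iff_eventually_eq N).2 fun y => by
    refine (h2 C ℂ (S y) (𝓝 y) S (fun t c => od (fun x => v x - t) c)
      (fun c => od (fun x => v x - y) c) (fS y) (fun a ha => ?_) fun U hU =>
        (T.proper_fin an tP y hU).mono fun t h c hc => h c hc.1 hc.2).mono fun t h => h.2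
    obtain ⟨U₀, u0, h⟩ := h1 C v a (an a ha.1) fun h => by
      obtain ⟨x, x1, x2⟩ := (((nz (v a)).ne a).and (mem_nhdsWithin_of_mem_nhds h)).exists
      exact x1 (sub_eq_zero.2 x2)
    refine ⟨U₀ ∩ Pᶜ, inter_mem u0 (T.eventually_notMem' fP ha.1), fun U hU s => ?_⟩
    have := h U hU (s.trans inter_subset_left)
    rw [ha.2] at this
    refine this.mono fun t ht => ?_
    have e : U ∩ S t = U ∩ {c | v c = t} :=
      Set.ext fun c => ⟨fun z => ⟨z.1, z.2.2⟩, fun z => ⟨z.1, (s z.1).2, z.2⟩⟩
    rw [e]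
    exact ⟨ht.1, ht.2.2⟩
  obtain ⟨t, -, ht⟩ := (h2 C ℂ P (Bornology.cobounded ℂ) S (fun t c => od (fun x => v x - t) c)
    (po v) fP (fun a ha => by
      obtain ⟨φ, p1, p2, p3, p4⟩ := T.exists_inv (hv a).ev_an (tP a ha)
      obtain ⟨U₀, u0, h⟩ := h1 C φ a p1 p3
      have u1 := ((eventually_nhdsWithin_iff.1 (p4.and (T.eventually_notMem fP a))).and
        p1.eventually).eventually_nhds
      refine ⟨U₀ ∩ _, inter_mem u0 u1, fun U hU s => ?_⟩
      have h3 := h U hU (s.trans inter_subset_left)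
      rw [p2] at h3
      filter_upwards [tendsto_inv₀_cobounded.eventually h3,
        (Bornology.isBounded_singleton (x := (0 : ℂ)) : ∀ᶠ t in Bornology.cobounded ℂ, t ≠ 0)]
        with t ht t0
      have e : U ∩ S t = U ∩ {c | φ c = t⁻¹} := by
        refine Set.ext fun c => and_congr_right fun z => ⟨fun w => ?_, fun w => ?_⟩
        · have := ((s z).2.self_of_nhds.1 fun q => w.1 (mem_singleton_iff.1 q ▸ ha)).1
          rw [w.2] at this
          exact eq_inv_of_mul_eq_one_left this
        · have := (s z).2.self_of_nhds.1 fun q =>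
            inv_ne_zero t0 (by rw [← show φ c = t⁻¹ from w, mem_singleton_iff.1 q, p2])
          refine ⟨this.2, ?_⟩
          have k := this.1
          rw [show φ c = t⁻¹ from w] at k
          exact ((inv_mul_eq_one₀ t0).1 k).symm
      refine ⟨e ▸ ht.1, ?_⟩
      have e0 : od (fun x => φ x - 0) a = po v a := by
        rw [po_eq (by rw [← mem_support, hP]; exact ha), ← od_inv]
        exact od_congr (p4.mono fun x hx => by simpa using eq_inv_of_mul_eq_one_left hx)
      rw [← e0, ← ht.2.2, ← e]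
      refine finsum_mem_congr rfl fun c hc => ?_
      have ca : ∀ᶠ x in 𝓝 c, x ≠ a := eventually_ne_nhds fun q => hc.2.1 (q ▸ ha)
      have k : ∀ᶠ x in 𝓝[≠] c, φ x * v x = 1 := mem_nhdsWithin_of_mem_nhds
        (((s hc.1).2.and ca).mono fun x hx => (hx.1.1 hx.2).1)
      have k1 : (fun x => v x - t) =ᶠ[𝓝[≠] c] fun x => (φ x - t⁻¹) * (-t * v x) :=
        k.mono fun x hx => by
          have := inv_mul_cancel₀ t0
          linear_combination t * hx - v x * this
      have k2 : ∀ᶠ x in 𝓝[≠] c, (φ x - t⁻¹) * (-t * v x) ≠ 0 :=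
        (k1.and ((nz t).ne c)).mono fun x hx => ne_of_eq_of_ne hx.1.symm hx.2
      have a1 := (T.an_const (-t)).mul (an c hc.2.1)
      rw [od_congr k1, od_mul ((mr_of_an (s hc.1).2.self_of_nhds.2).sub (mr_const _)) (mr_of_an a1)
        (k2.mono fun x => left_ne_zero_of_mul) (k2.mono fun x => right_ne_zero_of_mul),
        od_of_ne a1 (by rw [hc.2.2]; simpa using t0), add_zero])
    fun U hU => (T.proper_inf an hU).mono fun t h c hc => h c hc.2).exists
  have k : ∑ᶠ c ∈ S 0, od v c = ∑ᶠ a ∈ P, po v a := by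
    rw [← ht]
    simpa only [N, sub_zero] using lc.apply_eq_of_preconnectedSpace 0 t
  rw [← finsum_mem_univ, finsum_mem_inter_support_eq' (od v) univ (S 0 ∪ P) fun c hc =>
    ⟨fun _ => by
      by_contra n
      simp only [S, mem_union, mem_ofPred_eq, not_or, not_and] at n
      exact hc (od_of_ne (an c n.2) (n.1 n.2)), fun _ => trivial⟩,
    finsum_mem_union (disjoint_left.2 fun c hc => hc.1) (fS 0) fP, k, ← finsum_mem_add_distrib fP,
    finsum_mem_congr (g := fun _ => 0) rfl fun c hc => by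
      rw [po_eq (by rw [← mem_support, hP]; exact hc), neg_add_cancel]]
  simp

end OdP

theorem sOd (h1 : SLocDeg) (h2 : SSumLoc) : SOd := by
  intro C _ _ _ u hu
  have fA : {c | ¬ An u c ∧ po u c = 0}.Finite := Set.Finite.subset hu.ev_an fun c hc => hc.1
  obtain ⟨v, v1, v2⟩ := T.an_extend (u := u) fA hu.fs_po
    (fun y a b => by
      by_contra n
      exact a ⟨n, notMem_support.1 b⟩)
    fun a ha => by
      obtain ⟨w, w1, w2⟩ := exists_an (hu a) ha.2
      refine ⟨‖w a‖ + 1, ?_⟩
      filter_upwards [w2, mem_nhdsWithin_of_mem_nhds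
        (w1.continuousAt.norm.eventually (ge_mem_nhds (lt_add_one ‖w a‖)))] with y a b
      rw [a]
      exact b
  have e : ∀ c, u =ᶠ[𝓝[≠] c] v := fun c =>
    (T.eventually_notMem fA c).mono fun y hy => (v2 y hy).symm
  rw [finsum_congr fun c => od_congr (e c)]
  refine OdP.main h1 h2 (fun c => (hu c).congr (e c)) fun c hc => v1 c (Or.inr fun q => hc ?_)
  rwa [mem_support, ← po_congr (e c)]

end Pool.Agent.P.MP_7ede32_ag.Bnd
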