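import Pool.Agent.P.MP_7ede32_ag.Bnd.RT2

/-!
Bounds for the orders of poles.
-/

open Filter Topology Metric Set Function

noncomputable section

namespace Pool.Agent.P.MP_7ede32_ag.Bnd

open MP_5d7cf0_gt.T (RS zc loc An Hf Om Hol)
open MP_5d7cf0_gt.T renaming D → Dc

namespace PoBP

variable {C : Type} [TopologicalSpace C] [ChartedSpace ℂ C] {u : C → ℂ} {c : C}

theorem unif (c : C) : ∃ t : C → ℂ, Mr t c ∧ (∀ᶠ y in 𝓝[≠] c, t y ≠ 0) ∧ od t c = 1 := by
  have a : An (fun y => zc c y - zc c c) c :=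
    MP_5d7cf0_gt.T.an_zc_self.sub (MP_5d7cf0_gt.T.an_const _)
  have o : od (fun y => zc c y - zc c c) c = 1 := od_eq_one a (sub_self _) (by
    rw [MP_5d7cf0_gt.T.D_sub MP_5d7cf0_gt.T.an_zc_self (MP_5d7cf0_gt.T.an_const _),
      MP_5d7cf0_gt.T.D_zc_self, MP_5d7cf0_gt.T.D_const]
    simp)
  exact ⟨_, mr_of_an a, (mr_of_an a).zero_or.resolve_left fun z => by
    rw [od_of_zero z] at o
    exact zero_ne_one o, o⟩

theorem bd_of_po (h : Mr u c) (h0 : po u c = 0) : ∃ K : ℝ, ∀ᶠ y in 𝓝[≠] c, ‖u y‖ ≤ K := by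
  obtain ⟨v, a, e⟩ := exists_an h h0
  refine ⟨‖v c‖ + 1, ?_⟩
  filter_upwards [e, nhdsWithin_le_nhds (a.continuousAt.norm.eventually
    (eventually_le_nhds (lt_add_one _)))] with y h1 h2
  exact h1 ▸ h2

theorem bd {t : C → ℂ} (h : Mr u c) (ht : Mr t c) (t0 : ∀ᶠ y in 𝓝[≠] c, t y ≠ 0) (t1 : od t c = 1)
    {n : ℕ} (hn : po u c ≤ n) : ∃ K : ℝ, ∀ᶠ y in 𝓝[≠] c, ‖u y * t y ^ n‖ ≤ K := by
  rcases h.zero_or with z | z
  · exact ⟨0, z.mono fun y hy => by simp [hy]⟩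
  refine bd_of_po (h.mul (ht.pow n)) ?_
  rw [po, od_mul h (ht.pow n) z (t0.mono fun y hy => pow_ne_zero n hy), od_pow ht, t1]
  rw [po] at hn
  omega

theorem der {f g : ℂ → ℂ} {z : ℂ} (hg : AnalyticAt ℂ g z) (e : f =ᶠ[𝓝[≠] z] g) :
    ∃ K : ℝ, 0 ≤ K ∧ ∀ᶠ w in 𝓝[≠] z, ‖deriv f w‖ ≤ K := by
  refine ⟨‖deriv g z‖ + 1, by positivity, ?_⟩
  filter_upwards [e.nhdsNE_deriv, nhdsWithin_le_nhds (hg.deriv.continuousAt.norm.eventually
    (eventually_le_nhds (lt_add_one _)))] with y h1 h2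
  exact h1 ▸ h2

theorem part1 (H : MvPolynomial (Fin 2) ℂ) :
    ∃ k' : ℕ, ∀ (C : Type) [TopologicalSpace C] [ChartedSpace ℂ C] (u v : C → ℂ) (c : C),
      Mr u c → Mr v c → Mr (fun y => ev2 H (u y) (v y)) c ∧
        po (fun y => ev2 H (u y) (v y)) c ≤ k' * (po u c + po v c) := by
  induction H using MvPolynomial.induction_on with
  | C a =>
    refine ⟨0, fun C _ _ u v c _ _ => ?_⟩
    simp only [ev2, MvPolynomial.eval_C]
    exact ⟨mr_const a, by simp [po, od_const]⟩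
  | add p q hp hq =>
    obtain ⟨k, hp⟩ := hp
    obtain ⟨l, hq⟩ := hq
    refine ⟨k + l, fun C _ _ u v c hu hv => ?_⟩
    obtain ⟨a1, a2⟩ := hp C u v c hu hv
    obtain ⟨b1, b2⟩ := hq C u v c hu hv
    simp only [ev2, map_add] at *
    exact ⟨a1.add b1, (po_add_le a1 b1).trans (by push_cast; linarith)⟩
  | mul_X p i hp =>
    obtain ⟨k, hp⟩ := hp
    refine ⟨k + 1, fun C _ _ u v c hu hv => ?_⟩
    obtain ⟨a1, a2⟩ := hp C u v c hu hv
    simp only [ev2, map_mul, MvPolynomial.eval_X] at *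
    have := po_nonneg (u := u) (c := c)
    have := po_nonneg (u := v) (c := c)
    fin_cases i
    · exact ⟨a1.mul hu, (po_mul_le a1 hu).trans (by push_cast; linarith)⟩
    · exact ⟨a1.mul hv, (po_mul_le a1 hv).trans (by push_cast; linarith)⟩

end PoBP

open PoBP

theorem sPoB : SPoB := by
  intro C _ _ ι _ F a c K k hF ha hb
  obtain ⟨t, ht, t0, t1⟩ := unif c
  obtain ⟨n, hn⟩ := Int.eq_ofNat_of_zero_le (Finset.sum_nonneg fun j _ => po_nonneg :
    0 ≤ ∑ j, po (a j) c)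
  choose A hA using fun j => bd (ha j) ht t0 t1 (n := n) (hn ▸ Finset.single_le_sum
    (f := fun j => po (a j) c) (fun j _ => po_nonneg) (Finset.mem_univ j))
  obtain ⟨A₀, h0⟩ := bd (mr_const (1 : ℂ)) ht t0 t1 (n := n) (by simp [po, od_const])
  have b : po (fun y => F y * t y ^ (k * n)) c = 0 := by
    refine po_of_bound (K := |K| * (A₀ + ∑ j, A j) ^ k) (hF.mul (ht.pow _)) ?_
    filter_upwards [hb, h0, eventually_all.2 hA] with y h1 h2 h3
    simp only [norm_mul, one_mul] at h2 h3 ⊢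
    rw [mul_comm k n, pow_mul, norm_pow]
    calc ‖F y‖ * ‖t y ^ n‖ ^ k ≤ |K| * (1 + ∑ j, ‖a j y‖) ^ k * ‖t y ^ n‖ ^ k := by
          gcongr
          exact h1.trans (by gcongr; exact le_abs_self K)
      _ = |K| * (‖t y ^ n‖ + ∑ j, ‖a j y‖ * ‖t y ^ n‖) ^ k := by
          rw [mul_assoc, ← mul_pow, add_mul, one_mul, Finset.sum_mul]
      _ ≤ _ := by gcongr; exact h3 _
  have := po_le_of_mul hF (ht.pow (k * n)) (t0.mono fun y hy => pow_ne_zero _ hy)
  rw [b, ze, od_pow ht, t1, mul_one, max_eq_left (by positivity)] at this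
  rw [hn]
  exact_mod_cast this.trans_eq (zero_add _)

theorem sSph : SSph := by
  intro C _ _ _ u c h
  have m := mem_chart_source ℂ c
  suffices ∃ K : ℝ, ∀ᶠ w in 𝓝[≠] (zc c c), ‖deriv (loc u c) w‖ ≤ K * (1 + ‖loc u c w‖ ^ 2) by
    obtain ⟨K, hK⟩ := this
    rw [← MP_5d7cf0_gt.T.map_zc_ne m, eventually_map] at hK
    refine ⟨K, ?_⟩
    filter_upwards [hK, fm_D h, nhdsWithin_le_nhds (MP_5d7cf0_gt.T.source_mem m)] with y a1 a2 a3
    rwa [a2, ← MP_5d7cf0_gt.T.loc_zc (u := u) a3]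
  by_cases h0 : po u c = 0
  · obtain ⟨v, a, e⟩ := exists_an h h0
    obtain ⟨K, K0, hK⟩ := der (f := loc u c) a ((MP_5d7cf0_gt.T.eventually_chart_ne m).1 e)
    exact ⟨K, hK.mono fun w hw => hw.trans (le_mul_of_one_le_right K0 (by simp))⟩
  · obtain ⟨v, a, e⟩ := exists_an h.inv (by
      rw [po_inv, ze]
      rw [po] at h0
      omega)
    have z := h.zero_or.resolve_left fun z => h0 (by simp [po, od_of_zero z])
    obtain ⟨K, K0, hK⟩ := der (f := fun w => (loc u c w)⁻¹) a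
      ((MP_5d7cf0_gt.T.eventually_chart_ne m).1 e)
    refine ⟨K, ?_⟩
    filter_upwards [hK, (MP_5d7cf0_gt.T.eventually_chart_ne m).1 z,
      MeromorphicAt.eventually_analyticAt h] with w a1 a2 a3
    have a4 : loc u c w ≠ 0 := a2
    rw [deriv_fun_inv'' a3.differentiableAt a4, norm_div, norm_neg, norm_pow,
      div_le_iff₀ (by positivity)] at a1
    nlinarith

theorem sPsB (h1 : SPoB) (h2 : SOd) : SPsB := by
  intro H
  obtain ⟨l, hl⟩ := part1 H
  refine ⟨⟨l, hl⟩, fun K k => ⟨k + l, fun C _ _ _ F u v hF hu hv hb => ?_⟩⟩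
  have hG : Me fun y => ev2 H (u y) (v y) := fun c => (hl C u v c (hu c) (hv c)).1
  have fs := hu.fs_po.add hv.fs_po
  have a1 : ∀ c, po F c ≤ k * (po u c + po v c) + ze (fun y => ev2 H (u y) (v y)) c := fun c => by
    have b := cof_iff.1 hb c
    have b1 := h1 C (Fin 2) (fun y => F y * ev2 H (u y) (v y)) ![u, v] c K k ((hF c).mul (hG c))
      (Fin.forall_fin_two.2 ⟨hu c, hv c⟩) (b.mono fun y hy => by
        simpa [Fin.sum_univ_two, add_assoc] using hy.2)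
    have b2 := po_le_of_mul (hF c) (hG c) (b.mono fun y hy => hy.1)
    simp only [Fin.sum_univ_two, Matrix.cons_val_zero, Matrix.cons_val_one] at b1
    linarith
  have a2 := su_le hF.fs_po ((fs.mul k).add hG.fs_ze) a1
  have a3 := su_le hG.fs_po (fs.mul l) fun c => (hl C u v c (hu c) (hv c)).2
  rw [su_add (fs.mul k) hG.fs_ze, hG.sum_ze h2, su_mul, su_add hu.fs_po hv.fs_po] at a2
  rw [su_mul, su_add hu.fs_po hv.fs_po] at a3
  push_cast
  linarith

end Pool.Agent.P.MP_7ede32_ag.Bnd
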