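import Pool.Agent.P.MP_7ede32_ag.Bnd.DP

/-!
Rouche's theorem together with the argument principle.
-/

open Filter Topology Metric Set MeasureTheory
open scoped Real

noncomputable section

namespace Pool.Agent.P.MP_7ede32_ag.Bnd

namespace RouP

theorem ord_zero {m e : ℂ → ℂ} {w : ℂ} (he : ContinuousAt e w) (h0 : e w ≠ 0)
    (h : ∀ᶠ w' in 𝓝[≠] w, ‖m w' - e w'‖ ≤ ‖e w'‖ / 2) : meromorphicOrderAt m w = 0 := by
  have h1 : Tendsto e (𝓝[≠] w) (𝓝 (e w)) := he.tendsto.mono_left nhdsWithin_le_nhds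
  rcases lt_trichotomy (meromorphicOrderAt m w) 0 with a | a | a
  · exfalso
    have h2 := tendsto_norm_atTop_iff_cobounded.2 (tendsto_cobounded_of_meromorphicOrderAt_neg a)
    have h3 := h2.eventually_gt_atTop (2 * (‖e w‖ + 1))
    have h4 := h1.norm.eventually_lt_const (lt_add_one ‖e w‖)
    obtain ⟨z, b1, b2, b3⟩ := (h.and (h3.and h4)).exists
    have h5 := norm_sub_norm_le (m z) (e z)
    have h6 := norm_nonneg (e z)
    linarith
  · exact a
  · exfalso
    have h2 := ((tendsto_zero_of_meromorphicOrderAt_pos a).sub h1).norm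
    have h3 := le_of_tendsto_of_tendsto h2 (h1.norm.div_const 2) h
    have h4 := norm_pos_iff.2 h0
    simp only [zero_sub, norm_neg] at h3
    linarith

theorem slit {a b : ℂ} (hb : b ≠ 0) (h : ‖a - b‖ ≤ ‖b‖ / 2) : a / b ∈ Complex.slitPlane := by
  have h1 : a / b = 1 + (a - b) / b := by field_simp; ring
  rw [h1]
  refine Complex.mem_slitPlane_of_norm_lt_one ?_
  have h2 := norm_pos_iff.2 hb
  rw [norm_div, div_lt_one h2]
  linarith

theorem cont_ld {f : ℂ → ℂ} {w : ℂ} (h : AnalyticAt ℂ f w) (h0 : f w ≠ 0) :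
    AnalyticAt ℂ (logDeriv f) w := by
  have : logDeriv f = fun z => deriv f z / f z := by ext z; exact logDeriv_apply f z
  rw [this]
  exact h.deriv.div h h0

theorem int_ld {f : ℂ → ℂ} {c : ℂ} {ρ : ℝ} (hρ : 0 ≤ ρ)
    (h : ∀ w ∈ sphere c ρ, AnalyticAt ℂ f w ∧ f w ≠ 0) : CircleIntegrable (logDeriv f) c ρ :=
  ContinuousOn.circleIntegrable hρ fun w hw =>
    (cont_ld (h w hw).1 (h w hw).2).continuousAt.continuousWithinAt

/-- Rouche on the circle. -/
theorem rou {M e : ℂ → ℂ} {c : ℂ} {ρ : ℝ} (hρ : 0 ≤ ρ)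
    (h : ∀ w ∈ sphere c ρ, AnalyticAt ℂ M w ∧ AnalyticAt ℂ e w ∧ e w ≠ 0 ∧
      ‖M w - e w‖ ≤ ‖e w‖ / 2) :
    ∮ w in C(c, ρ), logDeriv M w = ∮ w in C(c, ρ), logDeriv e w := by
  have h0 : ∀ w ∈ sphere c ρ, M w ≠ 0 := fun w hw a => by
    have h1 := (h w hw).2.2.2
    have h2 := norm_pos_iff.2 (h w hw).2.2.1
    rw [a, zero_sub, norm_neg] at h1
    linarith
  rw [← sub_eq_zero, ← circleIntegral.integral_sub (int_ld hρ fun w hw => ⟨(h w hw).1, h0 w hw⟩)
    (int_ld hρ fun w hw => ⟨(h w hw).2.1, (h w hw).2.2.1⟩)]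
  refine circleIntegral.integral_eq_zero_of_hasDerivWithinAt
    (f := fun w => Complex.log (M w / e w)) hρ fun w hw => ?_
  obtain ⟨a1, a2, a3, a4⟩ := h w hw
  have h1 := ((a1.differentiableAt.hasDerivAt.div a2.differentiableAt.hasDerivAt a3).clog
    (slit a3 a4)).hasDerivWithinAt (s := sphere c ρ)
  have a5 := h0 w hw
  have a6 : logDeriv M w - logDeriv e w =
      (deriv M w * e w - M w * deriv e w) / e w ^ 2 / (M w / e w) := by
    rw [logDeriv_apply, logDeriv_apply]
    field_simp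
  rw [a6]
  exact h1

/-- The argument principle for a product. -/
theorem arg {g : ℂ → ℂ} {c : ℂ} {ρ : ℝ} (hρ : 0 < ρ) (s : Finset ℂ) (n : ℂ → ℤ)
    (hs : ∀ u ∈ s, u ∈ ball c ρ) (hg : ∀ w ∈ closedBall c ρ, AnalyticAt ℂ g w ∧ g w ≠ 0) :
    ∮ w in C(c, ρ), logDeriv (fun z => (∏ u ∈ s, (z - u) ^ n u) * g z) w =
      2 * π * Complex.I * ((∑ u ∈ s, n u : ℤ) : ℂ) := by
  have hne : ∀ w ∈ sphere c ρ, ∀ u ∈ s, w - u ≠ 0 := fun w hw u hu a => by
    have h1 := hs u hu
    rw [← sub_eq_zero.1 a, mem_ball, mem_sphere.1 hw] at h1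
    exact lt_irrefl _ h1
  have h1 : EqOn (logDeriv (fun z => (∏ u ∈ s, (z - u) ^ n u) * g z))
      (fun w => (∑ u ∈ s, (n u : ℂ) * (w - u)⁻¹) + logDeriv g w) (sphere c ρ) := by
    intro w hw
    have a := hg w (sphere_subset_closedBall hw)
    have d : ∀ u ∈ s, DifferentiableAt ℂ (fun z : ℂ => (z - u) ^ n u) w := fun u hu =>
      (differentiableAt_id.sub_const u).zpow (Or.inl (hne w hw u hu))
    have z : ∀ u ∈ s, (w - u) ^ n u ≠ 0 := fun u hu => zpow_ne_zero _ (hne w hw u hu)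
    rw [logDeriv_mul (f := fun z => ∏ u ∈ s, (z - u) ^ n u) w (Finset.prod_ne_zero_iff.2 z) a.2
      (DifferentiableAt.fun_finsetProd d) a.1.differentiableAt,
      logDeriv_prod (f := fun u z => (z - u) ^ n u) z d]
    simp only
    congr 1
    refine Finset.sum_congr rfl fun u _ => ?_
    rw [logDeriv_fun_zpow (f := fun z : ℂ => z - u) (differentiableAt_id.sub_const u)]
    simp [logDeriv_apply]
  have h2 : ∀ u ∈ s, CircleIntegrable (fun w => (n u : ℂ) * (w - u)⁻¹) c ρ := fun u hu =>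
    ContinuousOn.circleIntegrable hρ.le (continuousOn_const.mul
      ((continuousOn_id.sub continuousOn_const).inv₀ fun w hw => hne w hw u hu))
  have h3 : ∮ w in C(c, ρ), logDeriv g w = 0 := by
    have a : ∀ w ∈ closedBall c ρ, AnalyticAt ℂ (logDeriv g) w := fun w hw =>
      cont_ld (hg w hw).1 (hg w hw).2
    exact Complex.circleIntegral_eq_zero_of_differentiable_on_off_countable hρ.le
      countable_empty (fun w hw => (a w hw).continuousAt.continuousWithinAt)
      fun w hw => (a w (ball_subset_closedBall hw.1)).differentiableAt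
  have h4 : CircleIntegrable (fun w => ∑ u ∈ s, (n u : ℂ) * (w - u)⁻¹) c ρ :=
    ContinuousOn.circleIntegrable hρ.le (continuousOn_finsetSum _ fun u hu =>
      continuousOn_const.mul
        ((continuousOn_id.sub continuousOn_const).inv₀ fun w hw => hne w hw u hu))
  rw [circleIntegral.integral_congr hρ.le h1, circleIntegral.integral_add h4
    (int_ld hρ.le fun w hw => hg w (sphere_subset_closedBall hw)), h3, add_zero,
    circleIntegral.integral_fun_sum h2]
  push_cast
  rw [Finset.mul_sum]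
  refine Finset.sum_congr rfl fun u hu => ?_
  rw [circleIntegral.integral_const_mul, circleIntegral.integral_sub_inv_of_mem_ball (hs u hu)]
  ring

end RouP

theorem sRou : SRou := by
  intro m e c r θ hθ hr hm h
  have h0 : ∀ w ∈ An2 c (r - θ) r, meromorphicOrderAt m w = 0 := fun w hw =>
    RouP.ord_zero (h w hw).1.continuousAt (h w hw).2.1 (h w hw).2.2
  have hρ : 0 < r - θ / 2 := by linarith
  have hsp : ∀ w ∈ sphere c (r - θ / 2), w ∈ An2 c (r - θ) r := fun w hw => by
    constructor <;> rw [mem_sphere.1 hw] <;> linarith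
  have hx : c + (r - θ / 2 : ℝ) ∈ sphere c (r - θ / 2) := by
    rw [mem_sphere, dist_eq_norm, add_sub_cancel_left, Complex.norm_real, Real.norm_eq_abs,
      abs_of_pos hρ]
  have htop : ∀ u : ball c r, meromorphicOrderAt m u ≠ ⊤ := fun u =>
    hm.meromorphicOrderAt_ne_top_of_isPreconnected (convex_ball c r).isPreconnected
      (hsp _ hx).2 u.2 (by rw [h0 _ (hsp _ hx)]; exact WithTop.zero_ne_top)
  have hsub : closedBall c (r - θ) ⊆ ball c r := closedBall_subset_ball (by linarith)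
  have hD : ∀ w ∈ ball c r, MeromorphicOn.divisor m (ball c r) w = ord m w := fun w hw =>
    MeromorphicOn.divisor_apply hm hw
  have hin : ∀ w ∈ (MeromorphicOn.divisor m (ball c r)).support, w ∈ closedBall c (r - θ) := by
    intro w hw
    have a := (MeromorphicOn.divisor m (ball c r)).supportWithinDomain hw
    by_contra b
    refine hw ?_
    rw [MeromorphicOn.divisor_apply hm a, h0 w ⟨not_le.1 b, a⟩]
    rfl
  have hfin : (MeromorphicOn.divisor m (ball c r)).support.Finite := by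
    refine ((MeromorphicOn.divisor m (closedBall c (r - θ))).finiteSupport
      (isCompact_closedBall _ _)).subset fun w hw a => hw ?_
    rw [MeromorphicOn.divisor_apply hm (hsub (hin w hw)),
      ← MeromorphicOn.divisor_apply (hm.mono_set hsub) (hin w hw)]
    exact a
  obtain ⟨g, g1, g2, g3⟩ := hm.extract_zeros_poles htop hfin
  set n : ℂ → ℤ := fun u => MeromorphicOn.divisor m (ball c r) u with hn
  set s := hfin.toFinset with hs
  have hs1 : ∀ u ∈ s, u ∈ closedBall c (r - θ) := fun u hu => hin u (hfin.mem_toFinset.1 hu)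
  have hP : ((∏ᶠ u, (· - u) ^ n u) • g) = fun z => (∏ u ∈ s, (z - u) ^ n u) * g z := by
    rw [finprod_eq_prod_of_mulSupport_subset (s := s) _ (by
      rw [Function.FactorizedRational.mulSupport]
      intro u hu
      exact hfin.mem_toFinset.2 hu)]
    ext z
    simp
  rw [hP] at g3
  have hsum : ∑ᶠ w ∈ ball c r, ord m w = ∑ u ∈ s, n u := by
    rw [finsum_mem_eq_sum_of_inter_support_eq (t := s)]
    · exact Finset.sum_congr rfl fun u hu => (hD u (hsub (hs1 u hu))).symm
    · ext w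
      constructor
      · rintro ⟨a, b⟩
        exact ⟨hfin.mem_toFinset.2 fun d => b ((hD w a).symm.trans d), b⟩
      · rintro ⟨a, b⟩
        exact ⟨hsub (hs1 w a), b⟩
  rw [hsum, ← RouP.arg (g := g) hρ s n
    (fun u hu => closedBall_subset_ball (by linarith) (hs1 u hu)) (fun w hw =>
      have a : w ∈ ball c r := closedBall_subset_ball (by linarith) hw
      ⟨g1 w a, g2 ⟨w, a⟩⟩)]
  refine RouP.rou hρ.le fun w hw => ?_
  have a := hsp w hw
  obtain ⟨a1, a2, a3⟩ := h w a
  have a4 : AnalyticAt ℂ (fun z => (∏ u ∈ s, (z - u) ^ n u) * g z) w := by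
    refine AnalyticAt.mul (Finset.analyticAt_fun_prod _ fun u hu => ?_) (g1 w a.2)
    refine (analyticAt_id.sub analyticAt_const).zpow fun b => ?_
    have b1 : w = u := sub_eq_zero.1 b
    exact absurd (hs1 u hu) (by rw [← b1]; exact not_le.2 a.1)
  refine ⟨a4, a1, a2, ?_⟩
  have a5 : ∀ᶠ z in 𝓝[≠] w, m z = (∏ u ∈ s, (z - u) ^ n u) * g z := by
    have b := mem_codiscreteWithin_iff_forall_mem_nhdsNE.1 g3 w a.2
    filter_upwards [b, mem_nhdsWithin_of_mem_nhds (isOpen_ball.mem_nhds a.2)] with z b1 b2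
    exact b1.elim id fun b3 => absurd b2 b3
  have t1 := a1.continuousAt.tendsto.mono_left (nhdsWithin_le_nhds (s := {w}ᶜ))
  have t2 := a4.continuousAt.tendsto.mono_left (nhdsWithin_le_nhds (s := {w}ᶜ))
  refine le_of_tendsto_of_tendsto (t2.sub t1).norm (t1.norm.div_const 2) ?_
  filter_upwards [a3, a5] with z b1 b2
  rw [← b2]
  exact b1

end Pool.Agent.P.MP_7ede32_ag.Bnd
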