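import Pool.Agent.P.MP_7ede32_ag.Bnd.RT2

/-!
Sheets: local structure, uniqueness, local existence.
-/

open Filter Topology Metric Set Function

noncomputable section

namespace Pool.Agent.P.MP_7ede32_ag.Bnd

open MP_5d7cf0_gt.T (RS zc loc An Hf Om Hol)
open MP_5d7cf0_gt.T renaming D → Dc

namespace ShP8

variable {L : PeriodPair} {C : Type} [TopologicalSpace C] [ChartedSpace ℂ C] {B : Bc L C}
  {O : Set ℂ} {g g' : ℂ → C} {z : ℂ}

theorem struct (hO : IsOpen O) (h : B.Sheet O g) (hz : z ∈ O) :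
    ∀ᶠ z' in 𝓝 z, B.l (g z) (g z') = z' + (B.l (g z) (g z) - z) := by
  have hc := (h z hz).1
  refine Bc.lift_eq (L := L) (a := fun s => B.l (g z) (g s)) (a' := fun s => s)
    ((B.an (g z)).continuousAt.comp hc) continuousAt_id ?_
  filter_upwards [hc.eventually (B.lift (g z)), hO.mem_nhds hz] with s h1 h2
  exact Bc.mk_eq.mp (h1.symm.trans (h s h2).2.1)

variable [RS C]

theorem shF (hO : IsOpen O) (h : B.Sheet O g) (hz : z ∈ O) : B.ShF g z := by
  obtain ⟨hc, -, hw⟩ := h z hz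
  have hs := struct hO h hz
  set k := B.l (g z) (g z) - z with hk
  have han : An (fun y => B.l (g z) (g y)) z :=
    AnalyticAt.congr (f := fun s => s + k) (by fun_prop) (EventuallyEq.symm hs)
  have hol : Hol g z := MP_5d7cf0_gt.T.hol_of_local hc (B.an _) hw han
  obtain ⟨e, h1, h2, -⟩ := (B.an (g z)).exists_homeo hw
  have hzk : z + k = e (g z) := by rw [h2, hk]; ring
  let E : OpenPartialHomeomorph ℂ C := (Homeomorph.addRight k).toOpenPartialHomeomorph.trans e.symm
  have hE : z ∈ E.source := by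
    refine ⟨trivial, ?_⟩
    change z + k ∈ e.target
    rw [hzk]
    exact e.map_source h1
  have hg : g =ᶠ[𝓝 z] E := by
    filter_upwards [hs, hc.eventually (e.open_source.mem_nhds h1)] with s h3 h4
    change g s = e.symm (s + k)
    rw [← h3, ← h2, e.left_inv h4]
  have hd : Dc (zc (g z) ∘ g) z * B.w (g z) = 1 := by
    have h3 := hol.D_comp (B.an (g z))
    have h4 : Dc (fun y => B.l (g z) (g y)) z = 1 := by
      change deriv (fun y => B.l (g z) (g y)) z = 1
      rw [EventuallyEq.deriv_eq (f := fun s => s + k) hs]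
      simp
    rw [mul_comm]
    exact h3.symm.trans h4
  refine ⟨hol, ?_, ?_, fun u hu => ⟨hol.an_comp hu, ?_⟩, fun u hu => ?_⟩
  · rw [map_congr hg, E.map_nhds_eq hE, hg.self_of_nhds]
  · rw [map_congr (hg.filter_mono nhdsWithin_le_nhds), MP_5d7cf0_gt.T.map_ne_of_homeo E hE,
      hg.self_of_nhds]
  · have h3 : deriv (u ∘ g) z = _ := hol.D_comp hu
    rw [h3, mul_assoc, hd, mul_one]
  · have h3 : u ∘ g =ᶠ[𝓝[≠] z] loc u (g z) ∘ (zc (g z) ∘ g) :=
      (hc.eventually (MP_5d7cf0_gt.T.eq_loc (u := u) (mem_chart_source ℂ (g z)))).filter_mono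
        nhdsWithin_le_nhds
    have h4 : AnalyticAt ℂ (zc (g z) ∘ g) z := hol.2
    have h5 : deriv (zc (g z) ∘ g) z ≠ 0 := left_ne_zero_of_mul_eq_one hd
    refine ⟨((meromorphicAt_comp_iff_of_deriv_ne_zero h4 h5).mpr hu).congr h3.symm, ?_⟩
    rw [ord, meromorphicOrderAt_congr h3, meromorphicOrderAt_comp_of_deriv_ne_zero h4 h5]
    rfl

theorem loc_uniq (hO : IsOpen O) (h : B.Sheet O g) (h' : B.Sheet O g') (hz : z ∈ O)
    (e : g z = g' z) : g =ᶠ[𝓝 z] g' := by
  obtain ⟨U, hU, hi⟩ := (B.an (g z)).injOn (h z hz).2.2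
  have hU' : U ∈ 𝓝 (g' z) := e ▸ hU
  filter_upwards [struct hO h hz, struct hO h' hz, (h z hz).1.eventually hU,
    (h' z hz).1.eventually hU'] with s h1 h2 h3 h4
  rw [← e] at h2
  exact hi h3 h4 (h1.trans h2.symm)

theorem uniq (hO : IsOpen O) (hc : IsPreconnected O) (h : B.Sheet O g) (h' : B.Sheet O g')
    (hz : z ∈ O) (e : g z = g' z) : EqOn g g' O := by
  have : O ⊆ {s | g =ᶠ[𝓝 s] g'} := by
    refine hc.subset_of_closure_inter_subset isOpen_setOfPred_eventually_nhds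
      ⟨z, hz, loc_uniq hO h h' hz e⟩ fun s hs => loc_uniq hO h h' hs.2 ?_
    exact tendsto_nhds_unique_of_frequently_eq (h s hs.2).1 (h' s hs.2).1
      ((mem_closure_iff_frequently.mp hs.1).mono fun t ht => EventuallyEq.eq_of_nhds ht)
  exact fun s hs => EventuallyEq.eq_of_nhds (this hs)

theorem exi {c : C} (hc : c ∈ B.Fb z) (hw : B.w c ≠ 0) : ∃ r > 0, ∃ g, B.Sheet (ball z r) g ∧
    g z = c ∧ ∀ᶠ y in 𝓝 c, ∀ z' ∈ ball z r, y ∈ B.Fb z' → y = g z' := by
  obtain ⟨e, h1, h2, h3⟩ := (B.an c).exists_homeo hw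
  set k := B.l c c - z with hk
  have hkL : k ∈ L.lattice := Bc.sub_mem (B.mem_l c) hc
  have hzk : z + k = e c := by rw [h2, hk]; ring
  obtain ⟨δ, hδ, hL⟩ := Metric.mem_nhds_iff.mp (L.compl_lattice_sdiff_singleton_mem_nhds 0)
  have ht : Tendsto (fun s => s + k) (𝓝 z) (𝓝 (e c)) :=
    hzk ▸ (continuous_add_const k).tendsto z
  have hg : Tendsto (fun s => e.symm (s + k)) (𝓝 z) (𝓝 c) := (e.tendsto_symm h1).comp ht
  obtain ⟨r₀, hr₀, hb⟩ := Metric.eventually_nhds_iff_ball.mp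
    ((ht.eventually (e.open_target.mem_nhds (e.map_source h1))).and
      ((hg.eventually (B.lift c)).and (hg.eventually (Bc.w_eq (B := B) c))))
  refine ⟨min r₀ (δ / 2), by positivity, fun s => e.symm (s + k), fun s hs => ?_,
    by simp only [hzk, e.left_inv h1], ?_⟩
  · obtain ⟨h4, h5, h6⟩ := hb s (ball_subset_ball (min_le_left _ _) hs)
    refine ⟨(e.continuousAt_symm h4).comp (f := fun s => s + k) (by fun_prop), ?_, ?_⟩
    · change B.φ (e.symm (s + k)) = _
      rw [h5, ← h2, e.right_inv h4]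
      exact Bc.mk_eq.mpr (by simpa using hkL)
    · change B.w (e.symm (s + k)) ≠ 0
      rw [h6.2]
      exact (h3 _ (e.map_target h4)).2.1
  · filter_upwards [B.lift c, e.open_source.mem_nhds h1,
      (B.an c).continuousAt.eventually (ball_mem_nhds _ (half_pos hδ))] with y h4 h5 h6 s hs h7
    have h8 : B.l c y - s - k ∈ L.lattice := sub_mem (Bc.sub_mem h4 h7) hkL
    have h9 : B.l c y - s - k ∈ ball (0 : ℂ) δ := by
      have h10 := ball_subset_ball (min_le_right _ _) hs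
      rw [mem_ball] at h10
      rw [dist_eq_norm] at h6 h10
      rw [mem_ball_zero_iff, show B.l c y - s - k = (B.l c y - B.l c c) - (s - z) by rw [hk]; ring]
      linarith [norm_sub_le (B.l c y - B.l c c) (s - z)]
    have h10 : B.l c y - s - k = 0 := by
      by_contra h11
      exact hL h9 ⟨h8, h11⟩
    rw [show s + k = e y by rw [h2]; linear_combination -h10, e.left_inv h5]

end ShP8

theorem sSh : SSh := fun _ _ _ _ _ _ =>
  ⟨fun _ _ hO h _ hz => ShP8.shF hO h hz,
    fun _ _ _ hO hc h h' _ hz e => ShP8.uniq hO hc h h' hz e, fun _ _ hc hw => ShP8.exi hc hw⟩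

end Pool.Agent.P.MP_7ede32_ag.Bnd
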