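import Mathlib

/-!
Inverse branches of a finite map that is a local homeomorphism outside a finite set.
-/

open Set Filter Topology Metric

namespace Pool.Agent.P.MP_7ede32_ag.Bnd.ShP

variable {Y Z : Type} [TopologicalSpace Y] [TopologicalSpace Z] {φ : Y → Z} {U : Set Y}

lemma lh_sub (ho : IsOpen U) (hU : IsLocalHomeomorphOn φ U) :
    IsLocalHomeomorph (fun y : U => φ y) :=
  isLocalHomeomorph_iff_isLocalHomeomorphOn_univ.2 <|
    hU.comp ho.isOpenEmbedding_subtypeVal.isLocalHomeomorph.isLocalHomeomorphOn fun y _ => y.2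

/-- uniqueness of lifts -/
lemma uniq [T2Space Y] (ho : IsOpen U) (hU : IsLocalHomeomorphOn φ U) {A : Type}
    [TopologicalSpace A] {s : Set A} (hs : IsPreconnected s) {g g' : A → Y}
    (h : ContinuousOn g s) (h' : ContinuousOn g' s) (m : ∀ a ∈ s, g a ∈ U)
    (m' : ∀ a ∈ s, g' a ∈ U) (he : ∀ a ∈ s, φ (g a) = φ (g' a)) {a : A} (ha : a ∈ s)
    (h0 : g a = g' a) : EqOn g g' s := by
  have := isPreconnected_iff_preconnectedSpace.1 hs
  have h1 := (T2Space.isSeparatedMap (fun y : U => φ y)).eq_of_comp_eq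
    (lh_sub ho hU).isLocallyInjective (g₁ := fun a : s => (⟨g a, m a a.2⟩ : U))
    (g₂ := fun a : s => (⟨g' a, m' a a.2⟩ : U)) (h.domRestrict.subtype_mk _)
    (h'.domRestrict.subtype_mk _) (funext fun a => he a a.2) ⟨a, ha⟩ (Subtype.ext h0)
  exact fun b hb => congrArg Subtype.val (congrFun h1 ⟨b, hb⟩)

/-- a lift has a limit at the end point -/
lemma lim [T2Space Y] [CompactSpace Y] [T2Space Z] (hφ : Continuous φ) {s : Z}
    (hs : (φ ⁻¹' {s}).Finite) {γ : ℝ → Y} {τ : ℝ} (hτ : 0 < τ) (hγ : ContinuousOn γ (Ico 0 τ))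
    (ht : Tendsto (fun t => φ (γ t)) (𝓝[<] τ) (𝓝 s)) :
    ∃ p, φ p = s ∧ Tendsto γ (𝓝[<] τ) (𝓝 p) := by
  have hp : ∀ V : Set Y, IsOpen V → φ ⁻¹' {s} ⊆ V → ∀ᶠ t in 𝓝[<] τ, γ t ∈ V := fun V hV hs' => by
    have h1 : (φ '' Vᶜ)ᶜ ∈ 𝓝 s := (hV.isClosed_compl.isCompact.image hφ).isClosed.isOpen_compl.mem_nhds
      fun ⟨y, h1, h2⟩ => h1 (hs' h2)
    filter_upwards [ht.eventually h1] with t h2
    by_contra h3
    exact h2 ⟨_, h3, rfl⟩
  obtain ⟨V, hV, hd⟩ := hs.t2_separation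
  obtain ⟨a, ha, hb⟩ := (mem_nhdsLT_iff_exists_Ioo_subset' hτ).1 ((hp (⋃ p ∈ φ ⁻¹' {s}, V p)
    (isOpen_biUnion fun p _ => (hV p).2) fun p h => mem_biUnion h (hV p).1).and
      (Ioo_mem_nhdsLT hτ))
  obtain ⟨t₀, ht₀⟩ := nonempty_Ioo.2 (show a < τ from ha)
  obtain ⟨p, hps, hp0⟩ := mem_iUnion₂.1 (hb ht₀).1
  have hc : IsPreconnected (γ '' Ioo a τ) :=
    isPreconnected_Ioo.image _ (hγ.mono fun t h => Ioo_subset_Ico_self (hb h).2)
  have hdis : Disjoint (V p) (⋃ p' ∈ φ ⁻¹' {s} \ {p}, V p') :=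
    disjoint_iUnion₂_right.2 fun p' h => hd hps h.1 (Ne.symm h.2)
  have hin : γ '' Ioo a τ ⊆ V p := by
    refine hc.subset_left_of_subset_union (hV p).2 (isOpen_biUnion fun p _ => (hV p).2) hdis ?_
      ⟨_, ⟨t₀, ht₀, rfl⟩, hp0⟩
    rintro _ ⟨t, h, rfl⟩
    obtain ⟨p', h1, h2⟩ := mem_iUnion₂.1 (hb h).1
    by_cases e : p' = p
    · exact Or.inl (e ▸ h2)
    · exact Or.inr (mem_biUnion (show p' ∈ φ ⁻¹' {s} \ {p} from ⟨h1, e⟩) h2)
  refine ⟨p, hps, tendsto_nhds.2 fun O hO hpO => ?_⟩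
  filter_upwards [hp (O ∪ ⋃ p' ∈ φ ⁻¹' {s} \ {p}, V p')
    (hO.union (isOpen_biUnion fun p _ => (hV p).2)) fun p' h => by
      by_cases e : p' = p
      · exact Or.inl (e ▸ hpO)
      · exact Or.inr (mem_biUnion (show p' ∈ φ ⁻¹' {s} \ {p} from ⟨h, e⟩) (hV p').1),
    Ioo_mem_nhdsLT (show a < τ from ha)] with t h1 h2
  exact h1.resolve_right (disjoint_left.1 hdis (hin ⟨t, h2, rfl⟩))

/-- `γ` lifts `β` on `[0, τ]` and stays in `U` before the time `τ` -/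
structure Lf (φ : Y → Z) (U : Set Y) (β : ℝ → Z) (c : Y) (τ : ℝ) (γ : ℝ → Y) : Prop where
  cont : ContinuousOn γ (Icc 0 τ)
  zero : γ 0 = c
  lift : ∀ t ∈ Icc 0 τ, φ (γ t) = β t
  mem : ∀ t ∈ Ico 0 τ, γ t ∈ U

omit [TopologicalSpace Z] in
lemma Lf.mem' {β : ℝ → Z} {c : Y} {τ : ℝ} {γ : ℝ → Y} (h : Lf φ U β c τ γ) (h1 : γ τ ∈ U) :
    ∀ t ∈ Icc 0 τ, γ t ∈ U := fun t ht => by
  rcases eq_or_lt_of_le ht.2 with rfl | h2
  exacts [h1, h.mem t ⟨ht.1, h2⟩]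

omit [TopologicalSpace Z] in
lemma Lf.mono {β : ℝ → Z} {c : Y} {τ τ' : ℝ} {γ : ℝ → Y} (h : Lf φ U β c τ γ) (h1 : τ' ≤ τ) :
    Lf φ U β c τ' γ :=
  ⟨h.cont.mono (Icc_subset_Icc_right h1), h.zero, fun t ht => h.lift t ⟨ht.1, ht.2.trans h1⟩,
    fun t ht => h.mem t ⟨ht.1, ht.2.trans_le h1⟩⟩

/-- a path lifts up to the end or up to a point outside `U` -/
lemma path [T2Space Y] [CompactSpace Y] [T2Space Z] (hφ : Continuous φ)
    (hf : ∀ s, (φ ⁻¹' {s}).Finite) (ho : IsOpen U) (hU : IsLocalHomeomorphOn φ U) {β : ℝ → Z}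
    (hβ : Continuous β) {c : Y} (hc : c ∈ U) (h0 : φ c = β 0) :
    (∃ γ, Lf φ U β c 1 γ ∧ γ 1 ∈ U) ∨ ∃ τ ∈ Ioc (0 : ℝ) 1, ∃ γ, Lf φ U β c τ γ ∧ γ τ ∉ U := by
  classical
  have : Nonempty Y := ⟨c⟩
  refine or_iff_not_imp_right.2 fun hn => ?_
  set S : Set ℝ := {τ | ∃ γ, Lf φ U β c τ γ ∧ γ τ ∈ U}
  have hS0 : (0 : ℝ) ∈ S := ⟨fun _ => c, ⟨continuousOn_const, rfl, fun t ht => by
    rw [le_antisymm ht.2 ht.1, h0], fun _ _ => hc⟩, hc⟩
  refine IsClosed.mem_of_ge_of_forall_exists_gt (s := S) ?_ hS0 zero_le_one ?_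
  · refine isClosed_of_closure_subset fun τ hτ => ?_
    have hτ1 : τ ∈ Icc (0 : ℝ) 1 := isClosed_Icc.closure_subset (closure_mono inter_subset_right hτ)
    refine ⟨?_, hτ1⟩
    rcases eq_or_lt_of_le hτ1.1 with rfl | hpos
    · exact hS0
    have h1 : ∀ t, t < τ → ∃ γ, Lf φ U β c t γ ∧ (0 ≤ t → γ t ∈ U) := fun t ht => by
      obtain ⟨t', h2, ⟨γ, h3, -⟩, -⟩ := mem_closure_iff.1 hτ _ isOpen_Ioi ht
      exact ⟨γ, h3.mono (le_of_lt h2), fun h4 => h3.mem t ⟨h4, h2⟩⟩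
    choose! Γ hΓ hΓ' using h1
    have h2 : ∀ t' < τ, ∀ t ∈ Icc 0 t', Γ t t = Γ t' t := fun t' ht' t ht =>
      uniq ho hU isPreconnected_Icc (hΓ t (ht.2.trans_lt ht')).cont
        ((hΓ t' ht').mono ht.2).cont
        ((hΓ t (ht.2.trans_lt ht')).mem' (hΓ' t (ht.2.trans_lt ht') ht.1))
        (fun a ha => (hΓ t' ht').mem' (hΓ' t' ht' (ht.1.trans ht.2)) a ⟨ha.1, ha.2.trans ht.2⟩)
        (fun a ha => by
          rw [(hΓ t (ht.2.trans_lt ht')).lift a ha, (hΓ t' ht').lift a ⟨ha.1, ha.2.trans ht.2⟩])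
        (left_mem_Icc.2 ht.1) (by rw [(hΓ t (ht.2.trans_lt ht')).zero, (hΓ t' ht').zero])
        (right_mem_Icc.2 ht.1)
    have h3 : ContinuousOn (fun t => Γ t t) (Ico 0 τ) := fun t ht => by
      obtain ⟨t', h4, h5⟩ := exists_between ht.2
      have h6 := ((hΓ t' h5).cont.congr (h2 t' h5)) t ⟨ht.1, h4.le⟩
      refine h6.mono_of_mem_nhdsWithin ?_
      filter_upwards [self_mem_nhdsWithin, mem_nhdsWithin_of_mem_nhds (Iio_mem_nhds h4)]
        with a h7 h8 using ⟨h7.1, le_of_lt h8⟩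
    have h4 : ∀ t ∈ Ico 0 τ, φ (Γ t t) = β t := fun t ht => (hΓ t ht.2).lift t ⟨ht.1, le_rfl⟩
    obtain ⟨p, h5, h6⟩ := lim hφ (hf (β τ)) hpos h3
      (((hβ.tendsto τ).mono_left nhdsWithin_le_nhds).congr' (by
        filter_upwards [Ioo_mem_nhdsLT hpos] with t ht using (h4 t ⟨ht.1.le, ht.2⟩).symm))
    have h7 : Lf φ U β c τ (Function.update (fun t => Γ t t) τ p) := by
      refine ⟨continuousOn_update_iff.2 ⟨?_, fun _ => ?_⟩, ?_, fun t ht => ?_, fun t ht => ?_⟩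
      · rwa [Icc_sdiff_right]
      · rw [Icc_sdiff_right]
        exact h6.mono_left (nhdsWithin_mono _ Ico_subset_Iio_self)
      · rw [Function.update_of_ne hpos.ne]
        exact (hΓ 0 hpos).zero
      · rcases eq_or_lt_of_le ht.2 with rfl | h8
        · rwa [Function.update_self]
        · rw [Function.update_of_ne h8.ne]
          exact h4 t ⟨ht.1, h8⟩
      · rw [Function.update_of_ne ht.2.ne]
        exact hΓ' t ht.2 ht.1
    by_contra h8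
    exact hn ⟨τ, ⟨hpos, hτ1.2⟩, _, h7, fun h9 => h8 ⟨_, h7, h9⟩⟩
  · rintro τ ⟨⟨γ, h1, h2⟩, h3⟩
    obtain ⟨e, he, rfl⟩ := hU _ h2
    have h4 : e (γ τ) = β τ := h1.lift τ ⟨h3.1, le_rfl⟩
    have h5 : ∀ᶠ t in 𝓝 τ, β t ∈ e.target ∧ e.symm (β t) ∈ U := by
      have h6 : β τ ∈ e.target := h4 ▸ e.map_source he
      refine (hβ.continuousAt.eventually (e.open_target.mem_nhds h6)).and
        (((e.continuousAt_symm h6).comp hβ.continuousAt).eventually (ho.mem_nhds ?_))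
      change e.symm (β τ) ∈ U
      rwa [← h4, e.left_inv he]
    obtain ⟨b, hb, h6⟩ := mem_nhdsGE_iff_exists_Icc_subset.1
      (mem_nhdsWithin_of_mem_nhds (h5.and (Iio_mem_nhds h3.2)))
    have h7 : ∀ t ∈ Icc τ b, (if t ≤ τ then γ t else e.symm (β t)) = e.symm (β t) := fun t ht => by
      split_ifs with h8
      · rw [le_antisymm h8 ht.1, ← h4, e.left_inv he]
      · rfl
    refine ⟨b, ⟨fun t => if t ≤ τ then γ t else e.symm (β t), ⟨?_, ?_, fun t ht => ?_,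
      fun t ht => ?_⟩, ?_⟩, hb, le_of_lt (h6 (right_mem_Icc.2 hb.le)).2⟩
    · rw [← Icc_union_Icc_eq_Icc h3.1 hb.le]
      refine ContinuousOn.union_of_isClosed (h1.cont.congr fun t ht => if_pos ht.2)
        (ContinuousOn.congr ?_ h7) isClosed_Icc isClosed_Icc
      exact e.continuousOn_symm.comp hβ.continuousOn fun t ht => (h6 ht).1.1
    · exact (if_pos h3.1).trans h1.zero
    · split_ifs with h8
      · exact h1.lift t ⟨ht.1, h8⟩
      · exact e.right_inv (h6 ⟨le_of_not_ge h8, ht.2⟩).1.1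
    · split_ifs with h8
      · exact h1.mem' h2 t ⟨ht.1, h8⟩
      · exact (h6 ⟨le_of_not_ge h8, ht.2.le⟩).1.2
    · change (if b ≤ τ then γ b else e.symm (β b)) ∈ U
      rw [h7 b (right_mem_Icc.2 hb.le)]
      exact (h6 (right_mem_Icc.2 hb.le)).1.2

/-- `g` is an inverse branch on the disc of radius `R` -/
structure Br (φ : Y → Z) (U : Set Y) (β : ℂ → Z) (R : ℝ) (c : Y) (g : ℂ → Y) : Prop where
  cont : ContinuousOn g (ball 0 R)
  zero : g 0 = c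
  mem : ∀ w ∈ ball (0 : ℂ) R, g w ∈ U
  lift : ∀ w ∈ ball (0 : ℂ) R, φ (g w) = β w

/-- an inverse branch on the disc, or a ray that runs into a point outside `U` -/
lemma disc [T2Space Y] [CompactSpace Y] [T2Space Z] (hφ : Continuous φ)
    (hf : ∀ s, (φ ⁻¹' {s}).Finite) (ho : IsOpen U) (hU : IsLocalHomeomorphOn φ U) {β : ℂ → Z}
    (hβ : Continuous β) {R : ℝ} (hR : 0 < R) {c : Y} (hc : c ∈ U) (h0 : φ c = β 0) :
    (∃ g, Br φ U β R c g) ∨ ∃ w ∈ ball (0 : ℂ) R, ∃ γ,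
      Lf φ U (fun t : ℝ => β (t * w)) c 1 γ ∧ γ 1 ∉ U := by
  have : Nonempty Y := ⟨c⟩
  refine or_iff_not_imp_right.2 fun hn => ?_
  have h1 : ∀ w ∈ ball (0 : ℂ) R, ∃ γ, Lf φ U (fun t : ℝ => β (t * w)) c 1 γ ∧ γ 1 ∈ U := by
    intro w hw
    refine (path hφ hf ho hU (by fun_prop) hc (by simpa using h0)).resolve_right ?_
    rintro ⟨τ, hτ, γ, h1, h2⟩
    have h3 : ∀ t ∈ Icc (0 : ℝ) 1, t * τ ∈ Icc 0 τ := fun t ht =>
      ⟨mul_nonneg ht.1 hτ.1.le, mul_le_of_le_one_left hτ.1.le ht.2⟩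
    refine hn ⟨τ * w, ?_, fun t => γ (t * τ), ⟨h1.cont.comp (by fun_prop) h3, by
      simpa using h1.zero, fun t ht => ?_, fun t ht => h1.mem _ ⟨mul_nonneg ht.1 hτ.1.le,
        mul_lt_of_lt_one_left hτ.1 ht.2⟩⟩, by simpa using h2⟩
    · rw [mem_ball_zero_iff] at hw ⊢
      rw [norm_mul, Complex.norm_real, Real.norm_of_nonneg hτ.1.le]
      exact (mul_le_of_le_one_left (norm_nonneg _) hτ.2).trans_lt hw
    · rw [h1.lift _ (h3 t ht)]
      simp [mul_assoc]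
  choose! Γ hΓ hΓ' using h1
  have h2 := (lh_sub ho hU).continuous_lift (T2Space.isSeparatedMap _)
    (A := ball (0 : ℂ) R) ⟨fun x => β ((x.1 : ℝ) * (x.2 : ℂ)), by fun_prop⟩
    (g := fun x => ⟨Γ x.2 x.1, (hΓ _ x.2.2).mem' (hΓ' _ x.2.2) _ x.1.2⟩)
    (funext fun x => (hΓ _ x.2.2).lift _ x.1.2)
    (by
      refine (continuous_const (y := (⟨c, hc⟩ : U))).congr fun a => Subtype.ext ?_
      exact (hΓ _ a.2).zero.symm)
    (fun a => (hΓ _ a.2).cont.domRestrict.subtype_mk _)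
  have hz : (0 : ℂ) ∈ ball (0 : ℂ) R := mem_ball_self hR
  refine ⟨fun w => Γ w 1, continuousOn_iff_continuous_domRestrict.2
    ((continuous_subtype_val.comp h2).comp (Continuous.prodMk_right 1)), ?_, hΓ', fun w hw => ?_⟩
  · exact uniq ho hU isPreconnected_Icc (hΓ 0 hz).cont (continuousOn_const (c := c))
      ((hΓ 0 hz).mem' (hΓ' 0 hz)) (fun _ _ => hc)
      (fun a ha => by rw [(hΓ 0 hz).lift a ha, h0]; simp) (left_mem_Icc.2 zero_le_one)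
      (hΓ 0 hz).zero (right_mem_Icc.2 zero_le_one)
  · simpa using (hΓ w hw).lift 1 (right_mem_Icc.2 zero_le_one)

/-- few lifts of a path end at the same point -/
lemma few [T2Space Y] (ho : IsOpen U) (hU : IsLocalHomeomorphOn φ U)
    (hf : ∀ s, (φ ⁻¹' {s}).Finite) {β : ℝ → Z} {p : Y} {V : Set Y} (hV : V ∈ 𝓝 p) {k : ℕ}
    (hk : ∀ s, (V ∩ φ ⁻¹' {s}).ncard ≤ k) (C : Finset Y) (γ : Y → ℝ → Y)
    (h : ∀ c ∈ C, Lf φ U β c 1 (γ c) ∧ γ c 1 = p) : C.card ≤ k := by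
  have h1 : ∀ᶠ t in 𝓝[<] (1 : ℝ), ∀ c ∈ C, γ c t ∈ V := by
    refine (eventually_all_finset C).2 fun c hc => ?_
    have h2 := (h c hc).1.cont 1 (right_mem_Icc.2 zero_le_one)
    rw [ContinuousWithinAt, (h c hc).2] at h2
    exact (h2.mono_left (nhdsWithin_le_of_mem (mem_of_superset (Ioo_mem_nhdsLT zero_lt_one)
      Ioo_subset_Icc_self))).eventually hV
  obtain ⟨t, h2, h3⟩ := (h1.and (Ioo_mem_nhdsLT zero_lt_one)).exists
  rw [← ncard_coe_finset]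
  refine (ncard_le_ncard_of_injOn (fun c => γ c t) (fun c hc => ?_) (fun c hc c' hc' e => ?_)
    ((hf (β t)).inter_of_right V)).trans (hk _)
  · exact ⟨h2 c hc, (h c hc).1.lift t ⟨h3.1.le, h3.2.le⟩⟩
  · have h4 := uniq ho hU isPreconnected_Icc ((h c hc).1.mono h3.2.le).cont
      ((h c' hc').1.mono h3.2.le).cont (fun a ha => (h c hc).1.mem a ⟨ha.1, ha.2.trans_lt h3.2⟩)
      (fun a ha => (h c' hc').1.mem a ⟨ha.1, ha.2.trans_lt h3.2⟩)
      (fun a ha => by rw [((h c hc).1.mono h3.2.le).lift a ha,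
        ((h c' hc').1.mono h3.2.le).lift a ha]) (right_mem_Icc.2 h3.1.le) e
      (left_mem_Icc.2 h3.1.le)
    rwa [(h c hc).1.zero, (h c' hc').1.zero] at h4

/-- most points of a fibre carry an inverse branch -/
theorem sheets [T2Space Y] [CompactSpace Y] [T2Space Z] (hφ : Continuous φ)
    (hf : ∀ s, (φ ⁻¹' {s}).Finite) (ho : IsOpen U) (hU : IsLocalHomeomorphOn φ U) (K : Finset Y)
    (hK : ∀ p ∉ U, p ∈ K) (e : Y → ℕ) (he : ∀ p, ∃ V ∈ 𝓝 p, ∀ s, (V ∩ φ ⁻¹' {s}).ncard ≤ e p)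
    {β : ℂ → Z} (hβ : Continuous β) {R : ℝ} (hR : 0 < R) {A : ℕ}
    (hA : ∀ s, (ball 0 R ∩ β ⁻¹' {s}).Finite ∧ (ball 0 R ∩ β ⁻¹' {s}).ncard ≤ A) :
    ∃ (G : Finset Y) (g : Y → ℂ → Y), (∀ c ∈ G, Br φ U β R c (g c)) ∧
      (U ∩ φ ⁻¹' {β 0}).ncard ≤ G.card + A * ∑ p ∈ K, e p := by
  classical
  have hF := (hf (β 0)).inter_of_right U
  have h1 : ∀ c, ∃ g : ℂ → Y, (∃ g, Br φ U β R c g) → Br φ U β R c g := fun c => by
    by_cases h : ∃ g, Br φ U β R c g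
    · exact ⟨h.choose, fun _ => h.choose_spec⟩
    · exact ⟨fun _ => c, fun h' => absurd h' h⟩
  choose g hg using h1
  refine ⟨hF.toFinset.filter fun c => ∃ g, Br φ U β R c g, g,
    fun c hc => hg c (Finset.mem_filter.1 hc).2, ?_⟩
  rw [ncard_eq_toFinset_card _ hF, ← Finset.card_filter_add_card_filter_not
    (p := fun c => ∃ g, Br φ U β R c g)]
  refine Nat.add_le_add_left ?_ _
  set B := hF.toFinset.filter fun c => ¬∃ g, Br φ U β R c g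
  have h2 : ∀ c ∈ B, ∃ w ∈ ball (0 : ℂ) R, ∃ γ,
      Lf φ U (fun t : ℝ => β (t * w)) c 1 γ ∧ γ 1 ∉ U := fun c hc => by
    obtain ⟨h2, h3⟩ := Finset.mem_filter.1 hc
    obtain ⟨h4, h5⟩ := hF.mem_toFinset.1 h2
    exact (disc hφ hf ho hU hβ hR h4 h5).resolve_left h3
  have : Nonempty (ℝ → Y) ∨ B = ∅ := by
    rcases B.eq_empty_or_nonempty with h | ⟨c, -⟩
    exacts [Or.inr h, Or.inl ⟨fun _ => c⟩]
  rcases this with this | h
  swap
  · simp [h]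
  choose! w hw γ hγ hγ' using h2
  rw [Finset.card_eq_sum_card_fiberwise (f := fun c => γ c 1) (t := K)
    fun c hc => hK _ (hγ' c hc), Finset.mul_sum]
  refine Finset.sum_le_sum fun p _ => ?_
  obtain ⟨V, hV, hk⟩ := he p
  rw [Finset.card_eq_sum_card_fiberwise (f := w) (t := (hA (φ p)).1.toFinset) fun c hc => by
    obtain ⟨h3, h4⟩ := Finset.mem_filter.1 hc
    refine (hA (φ p)).1.mem_toFinset.2 ⟨hw c h3, ?_⟩
    have h5 := (hγ c h3).lift 1 (right_mem_Icc.2 zero_le_one)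
    rw [h4] at h5
    simpa using h5.symm]
  refine (Finset.sum_le_card_nsmul _ _ (e p) fun a _ => ?_).trans ?_
  · refine few ho hU hf (β := fun t : ℝ => β (t * a)) hV hk _ γ fun c hc => ?_
    obtain ⟨h3, h4⟩ := Finset.mem_filter.1 hc
    obtain ⟨h5, h6⟩ := Finset.mem_filter.1 h3
    exact ⟨h4 ▸ hγ c h5, h6⟩
  · rw [smul_eq_mul, ← ncard_eq_toFinset_card _ (hA (φ p)).1]
    exact Nat.mul_le_mul_right _ (hA (φ p)).2

end Pool.Agent.P.MP_7ede32_ag.Bnd.ShP
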