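import Pool.Agent.P.MP_7ede32_ag.Bnd.RT1
import Pool.Agent.P.MP_7ede32_ag.Bnd.ShTop

/-!
Most sheets of a map to a torus are unramified over a large disc.
-/

open Set Filter Topology Metric Function Manifold
open scoped ContDiff

namespace Pool.Agent.P.MP_7ede32_ag.Bnd

open MP_5d7cf0_gt.T (RS zc loc An)
open MP_5d7cf0_gt.T renaming D → Dc

namespace ShAP

variable {L : PeriodPair}

lemma mk_cont : Continuous L.lattice.mkQ := continuous_quot_mk

lemma mk_lh : IsLocalHomeomorph L.lattice.mkQ :=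
  (AddSubgroup.isAddQuotientCoveringMap_of_comm L.lattice.toAddSubgroup
    (isDiscrete_iff_discreteTopology.2
      (inferInstanceAs (DiscreteTopology L.lattice)))).isCoveringMap.isLocalHomeomorph

lemma t2 : T2Space (ℂ ⧸ L.lattice) := by
  have := L.isClosed_lattice
  infer_instance

lemma mk_eq {a b : ℂ} : L.lattice.mkQ a = L.lattice.mkQ b ↔ a - b ∈ L.lattice :=
  Submodule.Quotient.eq _

lemma inj_near (a : ℂ) : ∃ V ∈ 𝓝 a, InjOn L.lattice.mkQ V :=
  isLocallyInjective_iff_nhds.1 mk_lh.isLocallyInjective a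

lemma fin_ball (L : PeriodPair) (R : ℝ) : (ball (0 : ℂ) R ∩ L.lattice).Finite := by
  rw [L.lattice_eq_span_range_basis]
  exact ZSpan.setFinite_inter _ isBounded_ball

lemma count (L : PeriodPair) (R : ℝ) : ∃ A : ℕ, ∀ s,
    (ball 0 R ∩ L.lattice.mkQ ⁻¹' {s}).Finite ∧ (ball 0 R ∩ L.lattice.mkQ ⁻¹' {s}).ncard ≤ A := by
  refine ⟨(ball (0 : ℂ) (R + R) ∩ L.lattice).ncard, fun s => ?_⟩
  rcases (ball 0 R ∩ L.lattice.mkQ ⁻¹' {s}).eq_empty_or_nonempty with h | ⟨a, ha⟩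
  · simp [h]
  have h1 : MapsTo (· - a) (ball 0 R ∩ L.lattice.mkQ ⁻¹' {s}) (ball 0 (R + R) ∩ L.lattice) :=
    fun b hb => ⟨mem_ball_zero_iff.2 ((norm_sub_le _ _).trans_lt
      (add_lt_add (mem_ball_zero_iff.1 hb.1) (mem_ball_zero_iff.1 ha.1))),
      mk_eq.1 (hb.2.trans ha.2.symm)⟩
  exact ⟨Finite.of_injOn h1 (sub_left_injective.injOn) (fin_ball L _),
    ncard_le_ncard_of_injOn _ h1 sub_left_injective.injOn (fin_ball L _)⟩

variable {Y : Type} [TopologicalSpace Y] [ChartedSpace ℂ Y] (M : Bc L Y)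

lemma cont : Continuous M.φ := continuous_iff_continuousAt.2 fun p =>
  (mk_cont.continuousAt.comp (M.an p).continuousAt).congr (EventuallyEq.symm (M.lift p))

variable [IsManifold 𝓘(ℂ) ω Y]

lemma lh : IsLocalHomeomorphOn M.φ {p | M.w p ≠ 0} := by
  refine IsLocalHomeomorphOn.mk _ _ fun p hp => ?_
  obtain ⟨E, h1, h2, -⟩ := (M.an p).exists_homeo hp
  obtain ⟨E', h3, h4⟩ := mk_lh (L := L) (M.l p p)
  obtain ⟨V, h5, h6, h7⟩ := eventually_nhds_iff.1 (M.lift p)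
  refine ⟨(E ≫ₕ E').restrOpen V h6, ⟨⟨h1, by change E p ∈ E'.source; rwa [h2]⟩, h7⟩, fun y hy => ?_⟩
  rw [h5 y hy.2, h4, ← h2]
  rfl

lemma few {p : Y} {k : ℕ} (hk : 0 < k) {ψ : Y → ℂ} (h1 : An ψ p)
    (h2 : Dc ψ p ≠ 0) (h3 : ∀ᶠ y in 𝓝 p, M.l p y = M.l p p + ψ y ^ k) :
    ∃ V ∈ 𝓝 p, ∀ s, (V ∩ M.φ ⁻¹' {s}).ncard ≤ k := by
  classical
  obtain ⟨U, hU, hi⟩ := h1.injOn h2
  obtain ⟨V, hV, hi'⟩ := inj_near (L := L) (M.l p p)
  refine ⟨_, inter_mem hU ((h3.and (M.lift p)).and ((M.an p).continuousAt.eventually hV)),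
    fun s => ?_⟩
  set T := U ∩ {y | (M.l p y = M.l p p + ψ y ^ k ∧ M.φ y = L.lattice.mkQ (M.l p y)) ∧
    M.l p y ∈ V} ∩ M.φ ⁻¹' {s}
  rcases T.eq_empty_or_nonempty with h | ⟨a, ha⟩
  · change T.ncard ≤ k
    simp [h]
  refine (ncard_le_ncard_of_injOn (t := (Polynomial.nthRoots k (ψ a ^ k)).toFinset) ψ
    (fun y hy => ?_) (hi.mono fun y hy => hy.1.1) (Finset.finite_toSet _)).trans ?_
  · have h4 : M.l p y = M.l p a :=
      hi' hy.1.2.2 ha.1.2.2 (by rw [← hy.1.2.1.2, ← ha.1.2.1.2, hy.2, ha.2])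
    rw [hy.1.2.1.1, ha.1.2.1.1] at h4
    exact Multiset.mem_toFinset.2 ((Polynomial.mem_nthRoots hk).2 (add_left_cancel h4))
  · rw [ncard_coe_finset]
    exact (Multiset.toFinset_card_le _).trans (Polynomial.card_nthRoots _ _)

end ShAP

open ShAP in
theorem sSheets2 (h : SDegB) : SSheets := by
  classical
  intro L R hR
  obtain ⟨A, hA⟩ := count L R
  refine ⟨2 * (A + 1), fun Y _ _ _ M => ?_⟩
  have hd := h L Y M
  have := t2 (L := L)
  have h2 : {p | M.e p ≠ 1}.Finite := hd.fs.subset fun p hp => sub_ne_zero.2 hp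
  have hf : ∀ s, (M.φ ⁻¹' {s}).Finite := fun s => by
    obtain ⟨a, rfl⟩ := L.lattice.mkQ_surjective s
    exact hd.fin a
  have hU : {p | M.w p ≠ 0} = {p | M.e p ≠ 1}ᶜ := by
    ext p
    simp [hd.e_iff p]
  have ho : IsOpen {p | M.w p ≠ 0} := hU ▸ h2.isClosed.isOpen_compl
  obtain ⟨G, g, hg, hn⟩ := ShP.sheets (cont M) hf ho (lh M) h2.toFinset
    (fun p hp => h2.mem_toFinset.2 (by simpa [hU] using hp)) (fun p => (M.e p).toNat)
    (fun p => by
      obtain ⟨k, ψ, h4, h5, h0, h6, h7⟩ := (M.an p).nf (M.nc p)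
      have h8 : M.e p = k := by
        rw [Bc.e, od_congr (v := fun y => ψ y ^ k) ((h7.mono fun y hy => by
          rw [hy, add_sub_cancel_left]).filter_mono nhdsWithin_le_nhds), od_pow (mr_of_an h5),
          od_eq_one h5 h0 h6, mul_one]
      rw [h8]
      exact few M h4 h5 h6 h7) mk_cont hR hA
  have hi : InjOn g G := fun c hc c' hc' e => by rw [← (hg c hc).zero, ← (hg c' hc').zero, e]
  refine ⟨G.image g, fun γ hγ => ?_, fun γ hγ γ' hγ' e => ?_, ?_⟩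
  · obtain ⟨c, hc, rfl⟩ := Finset.mem_image.1 hγ
    exact fun z hz => ⟨(hg c hc).cont.continuousAt (isOpen_ball.mem_nhds hz), (hg c hc).lift z hz,
      (hg c hc).mem z hz⟩
  · obtain ⟨c, hc, rfl⟩ := Finset.mem_image.1 hγ
    obtain ⟨c', hc', rfl⟩ := Finset.mem_image.1 hγ'
    rw [(hg c hc).zero, (hg c' hc').zero] at e
    rw [e]
  · rw [Finset.card_image_of_injOn hi]
    have h4 : ∑ p ∈ h2.toFinset, M.e p ≤ 2 * M.ρ := by
      rw [Bc.ρ, finsum_eq_sum_of_support_subset (s := h2.toFinset) _ fun p hp => by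
        simpa [sub_eq_zero] using hp, Finset.mul_sum]
      refine Finset.sum_le_sum fun p hp => ?_
      have h4 : M.e p ≠ 1 := h2.mem_toFinset.1 hp
      have := hd.one_le p
      omega
    have h5 : ((∑ p ∈ h2.toFinset, (M.e p).toNat : ℕ) : ℤ) = ∑ p ∈ h2.toFinset, M.e p := by
      push_cast
      exact Finset.sum_congr rfl fun p _ => Int.toNat_of_nonneg (zero_le_one.trans (hd.one_le p))
    have h6 : M.n ≤ ({p | M.w p ≠ 0} ∩ M.φ ⁻¹' {L.lattice.mkQ 0}).ncard +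
        ∑ p ∈ h2.toFinset, M.e p := by
      have hF := hd.fin 0
      rw [Bc.n, finsum_mem_eq_finite_toFinset_sum _ hF,
        ← Finset.sum_filter_add_sum_filter_not _ fun p => M.e p = 1,
        ncard_eq_toFinset_card _ ((hf _).inter_of_right _)]
      refine add_le_add (le_of_eq ?_) (Finset.sum_le_sum_of_subset_of_nonneg (fun p hp =>
        h2.mem_toFinset.2 (Finset.mem_filter.1 hp).2) fun p _ _ => zero_le_one.trans (hd.one_le p))
      rw [Finset.sum_congr rfl fun p hp => (Finset.mem_filter.1 hp).2, Finset.sum_const,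
        nsmul_eq_mul, mul_one]
      congr 2
      ext p
      simp [hd.e_iff p, and_comm, Bc.Fb]
    have h7 : (({p | M.w p ≠ 0} ∩ M.φ ⁻¹' {L.lattice.mkQ 0}).ncard : ℤ) ≤
        G.card + A * ∑ p ∈ h2.toFinset, M.e p := by
      rw [← h5]
      exact_mod_cast hn
    have h8 : (0 : ℤ) ≤ A := Nat.cast_nonneg A
    push_cast
    nlinarith

end Pool.Agent.P.MP_7ede32_ag.Bnd
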