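import Pool.Agent.P.MP_7ede32_ag.Bnd.RT2

/-!
Simple level sets, and the size of a level set.
-/

open Filter Topology Metric Set Function

noncomputable section

namespace Pool.Agent.P.MP_7ede32_ag.Bnd

open MP_5d7cf0_gt.T (RS zc loc An Hf Om Hol)
open MP_5d7cf0_gt.T renaming D → Dc

namespace Simple

variable {C : Type} [TopologicalSpace C] [ChartedSpace ℂ C] {F : C → ℂ} {c : C}

theorem ev_ze (h : Mr F c) : ∀ᶠ y in cofinite, ze (fun x => F x - y) c = 0 := by
  by_cases h0 : po F c = 0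
  · obtain ⟨v, hv, e⟩ := exists_an h h0
    filter_upwards [eventually_cofinite_ne (v c)] with y hy
    have e' : (fun x => F x - y) =ᶠ[𝓝[≠] c] fun x => v x - y := e.mono fun x hx => by
      simp only [hx]
    rw [ze_congr e', ze, od_of_ne (hv.sub (MP_5d7cf0_gt.T.an_const y)) (sub_ne_zero.2 hy.symm),
      max_self]
  · refine Eventually.of_forall fun y => ?_
    rw [← po_sub_const h y, po] at h0
    rw [ze]
    omega

end Simple

theorem sSimple : SSimple := by
  intro C _ _ _ F hF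
  refine ⟨fun h => hF.ev_an.and (hF.nz_D h), fun S hS h => ?_⟩
  filter_upwards [(eventually_all_finite hS).2 fun c _ => Simple.ev_ze (hF c)] with y hy c
  refine ⟨fun h1 => ?_, fun h1 => ?_⟩
  · obtain ⟨h2, h3⟩ := h c h1.1
    have h4 : Dc (fun x => F x - y) c ≠ 0 := by
      rwa [MP_5d7cf0_gt.T.D_sub h2 (MP_5d7cf0_gt.T.an_const y), MP_5d7cf0_gt.T.D_const, sub_zero]
    rw [ze, od_eq_one (h2.sub (MP_5d7cf0_gt.T.an_const y)) (sub_eq_zero.2 h1.2) h4]
    rfl
  · by_cases hc : c ∈ S
    · exact hy c hc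
    · rw [ze, od_of_ne ((h c hc).1.sub (MP_5d7cf0_gt.T.an_const y))
        (sub_ne_zero.2 fun e => h1 ⟨hc, e⟩), max_self]

theorem sFibC (h : SOd) : SFibC := by
  intro C _ _ _ F a S hF hn hS
  have hu : Me fun x => F x - a := fun c => (hF c).sub (mr_const a)
  have hz : Nz fun x => F x - a :=
    hu.nz_or.resolve_right fun h0 => hn (h0.mono fun c hc => sub_eq_zero.1 hc)
  have h1 := ncard_le_sm hu.fs_ze (fun _ => ze_nonneg) (subset_univ S) fun c hc =>
    (one_le_od_of_tendsto (hu c) (hz.ne c) (tendsto_sub_nhds_zero_iff.2 (hS c hc))).trans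
      (le_max_left _ _)
  rw [sm_univ, hu.sum_ze h] at h1
  simpa only [po_sub_const (hF _) a] using h1

end Pool.Agent.P.MP_7ede32_ag.Bnd
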