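import Pool.Agent.P.MP_7ede32_ag.Bnd.DP

/-!
Adapted fundamental domains, and the complement of separated discs is connected.
-/

open Filter Topology Metric Set MeasureTheory

noncomputable section

namespace Pool.Agent.P.MP_7ede32_ag.Bnd

open Full

namespace Tile0P

lemma rep (L : PeriodPair) : ∃ (P₀ : Set ℂ) (R : ℝ), MeasurableSet P₀ ∧ P₀ ⊆ closedBall 0 R ∧
    (∀ z, ∃ p ∈ L.lattice, z + p ∈ P₀) ∧
    ∀ a ∈ P₀, ∀ b ∈ P₀, a - b ∈ L.lattice → a = b := by
  obtain ⟨R, hR⟩ := (ZSpan.fundamentalDomain_isBounded L.basis).subset_closedBall 0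
  refine ⟨ZSpan.fundamentalDomain L.basis, R, ZSpan.fundamentalDomain_measurableSet _, hR,
    fun z => ⟨-(ZSpan.floor L.basis z : ℂ), ?_, ?_⟩, fun a ha b hb h => ?_⟩
  · rw [L.lattice_eq_span_range_basis]
    exact neg_mem (ZSpan.floor L.basis z).2
  · have := ZSpan.fract_mem_fundamentalDomain L.basis z
    rwa [ZSpan.fract_apply, sub_eq_add_neg] at this
  · rw [L.lattice_eq_span_range_basis] at h
    have h1 := (ZSpan.fract_eq_fract L.basis b a).2 (by rwa [neg_add_eq_sub])
    rw [ZSpan.fract_eq_self.2 ha, ZSpan.fract_eq_self.2 hb] at h1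
    exact h1.symm

lemma G_per {L : PeriodPair} {D : Discs} (h : ∀ p ∈ L.lattice, D.Per p) {p : ℂ}
    (hp : p ∈ L.lattice) {w : ℂ} (hw : w ∈ D.G 0) : w + p ∈ D.G 0 := fun c hc => by
  obtain ⟨h1, h2⟩ := h (-p) (neg_mem hp) c hc
  have h3 := hw _ h1
  rw [h2] at h3
  have h4 : dist (w + p) c = dist w (c + -p) := by
    rw [dist_eq_norm, dist_eq_norm]; congr 1; ring
  rwa [h4]

lemma one_disc (D : Discs) {c c' w : ℂ} (hc : c ∈ D.C) (hc' : c' ∈ D.C)
    (h : dist w c < D.r c) (h' : dist w c' < D.r c') : c = c' := by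
  by_contra hne
  have h1 := D.sep c hc c' hc' hne
  have h2 := dist_triangle_left c c' w
  linarith [D.θ_pos]

/-- the radial push -/
def ψ (δ : ℝ) (u : ℂ) : ℂ := (max 0 ((δ - ‖u‖) / 2) / ‖u‖) • u

lemma ψ_far {δ : ℝ} {u : ℂ} (h : δ ≤ ‖u‖) : ψ δ u = 0 := by
  rw [ψ, max_eq_left (by linarith), zero_div, zero_smul]

lemma ψ_near {δ : ℝ} {u : ℂ} (h0 : u ≠ 0) (h : ‖u‖ ≤ δ) :
    u + ψ δ u = ((δ + ‖u‖) / 2 / ‖u‖) • u := by
  have h1 : ‖u‖ ≠ 0 := norm_ne_zero_iff.2 h0
  rw [ψ, max_eq_right (by linarith)]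
  have : (δ + ‖u‖) / 2 / ‖u‖ = 1 + (δ - ‖u‖) / 2 / ‖u‖ := by field_simp; ring
  rw [this, add_smul, one_smul]

lemma ψ_cont (δ : ℝ) {u : ℂ} (h0 : u ≠ 0) : ContinuousAt (ψ δ) u := by
  unfold ψ
  exact ContinuousAt.smul (ContinuousAt.div (by fun_prop) (by fun_prop)
    (norm_ne_zero_iff.2 h0)) continuousAt_id

open Classical in
/-- the retraction -/
def Φ (B : Set ℂ) (δ : ℝ) (w : ℂ) : ℂ :=
  if h : ∃ c ∈ B, dist w c < 2 * δ then w + ψ δ (w - h.choose) else w

variable {B : Set ℂ} {δ : ℝ}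

lemma Φ_near (hB : ∀ c ∈ B, ∀ c' ∈ B, c ≠ c' → 4 * δ ≤ dist c c') {c w : ℂ} (hc : c ∈ B)
    (h : dist w c < 2 * δ) : Φ B δ w = w + ψ δ (w - c) := by
  have h1 : ∃ c ∈ B, dist w c < 2 * δ := ⟨c, hc, h⟩
  have h2 : h1.choose = c := by
    by_contra hne
    have h3 := hB _ h1.choose_spec.1 c hc hne
    have h4 := dist_triangle_left h1.choose c w
    linarith [h1.choose_spec.2]
  rw [Φ, dif_pos h1, h2]

lemma Φ_far {w : ℂ} (h : ∀ c ∈ B, δ ≤ dist w c) : Φ B δ w = w := by
  rw [Φ]
  split_ifs with h1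
  · rw [ψ_far (by simpa [dist_eq_norm] using h _ h1.choose_spec.1), add_zero]
  · rfl

lemma Φ_cont (hδ : 0 < δ) (hB : ∀ c ∈ B, ∀ c' ∈ B, c ≠ c' → 4 * δ ≤ dist c c') {w : ℂ}
    (hw : w ∉ B) : ContinuousAt (Φ B δ) w := by
  by_cases h : ∃ c ∈ B, dist w c < 2 * δ
  · obtain ⟨c, hc, h1⟩ := h
    have h2 : w - c ≠ 0 := fun h3 => hw (sub_eq_zero.1 h3 ▸ hc)
    have h3 : ContinuousAt (fun v => v + ψ δ (v - c)) w :=
      continuousAt_id.add (ContinuousAt.comp (f := fun v => v - c) (ψ_cont δ h2) (by fun_prop))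
    refine h3.congr ?_
    filter_upwards [isOpen_ball.mem_nhds (mem_ball.2 h1)] with v hv
    exact (Φ_near hB hc hv).symm
  · push Not at h
    refine continuousAt_id.congr ?_
    filter_upwards [ball_mem_nhds w hδ] with v hv
    refine (Φ_far fun c hc => ?_).symm
    have h1 := dist_triangle_left w c v
    change δ ≤ dist v c
    linarith [h c hc, mem_ball.1 hv]

lemma Φ_image (hδ : 0 < δ) (hB : ∀ c ∈ B, ∀ c' ∈ B, c ≠ c' → 4 * δ ≤ dist c c') :
    Φ B δ '' Bᶜ = {w | ∀ c ∈ B, δ / 2 < dist w c} := by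
  ext w
  constructor
  · rintro ⟨v, hv, rfl⟩ c' hc'
    by_cases h : ∃ c ∈ B, dist v c < δ
    · obtain ⟨c, hc, h1⟩ := h
      have h2 : v - c ≠ 0 := fun h3 => hv (sub_eq_zero.1 h3 ▸ hc)
      have h3 : 0 < ‖v - c‖ := norm_pos_iff.2 h2
      rw [dist_eq_norm] at h1
      have h4 : dist (Φ B δ v) c = (δ + ‖v - c‖) / 2 := by
        rw [Φ_near hB hc (by rw [dist_eq_norm]; linarith), dist_eq_norm,
          show v + ψ δ (v - c) - c = v - c + ψ δ (v - c) by ring, ψ_near h2 h1.le, norm_smul,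
          Real.norm_of_nonneg (by positivity), div_mul_cancel₀ _ h3.ne']
      rcases eq_or_ne c c' with rfl | hne
      · rw [h4]; linarith
      · have h5 := hB c hc c' hc' hne
        have h6 := dist_triangle_left c c' (Φ B δ v)
        linarith
    · push Not at h
      rw [Φ_far h]
      linarith [h c' hc']
  · intro hw
    by_cases h : ∃ c ∈ B, dist w c < δ
    · obtain ⟨c, hc, h1⟩ := h
      have h2 := hw c hc
      rw [dist_eq_norm] at h1 h2
      set s := ‖w - c‖ with hs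
      have h3 : 0 < s := by linarith
      have h4 : 0 < 2 * s - δ := by linarith
      set u : ℂ := ((2 * s - δ) / s) • (w - c) with hu
      have h5 : ‖u‖ = 2 * s - δ := by
        rw [hu, norm_smul, Real.norm_of_nonneg (by positivity), ← hs, div_mul_cancel₀ _ h3.ne']
      have h6 : dist (c + u) c = 2 * s - δ := by rw [dist_eq_norm, add_sub_cancel_left, h5]
      have h7 : u ≠ 0 := norm_pos_iff.1 (h5 ▸ h4)
      refine ⟨c + u, fun h8 => ?_, ?_⟩
      · rcases eq_or_ne (c + u) c with h9 | h9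
        · rw [h9, dist_self] at h6; linarith
        · have := hB _ h8 c hc h9
          linarith
      · rw [Φ_near hB hc (by linarith), add_sub_cancel_left, add_assoc,
          ψ_near h7 (by linarith), h5, hu, smul_smul]
        have : (δ + (2 * s - δ)) / 2 / (2 * s - δ) * ((2 * s - δ) / s) = 1 := by
          field_simp; ring
        rw [this, one_smul, add_sub_cancel]
    · push Not at h
      exact ⟨w, fun h1 => by have := hw w h1; rw [dist_self] at this; linarith, Φ_far h⟩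

end Tile0P

open Tile0P

theorem sTile0 : STile0 := by
  intro L D h
  obtain ⟨P₀, R, h1, h2, h3, h4⟩ := rep L
  have hnot : ∀ {c w}, c ∈ D.C → w ∈ ball c (D.r c) → w ∉ D.G 0 := fun hc hw hG => by
    have := hG _ hc
    linarith [mem_ball.1 hw]
  refine ⟨(P₀ ∩ D.G 0) ∪ ⋃ c ∈ D.C ∩ P₀, ball c (D.r c), R + D.rm, h, fun w => ?_, ?_, ?_,
    fun c hc => ?_⟩
  · by_cases hw : w ∈ D.G 0
    · obtain ⟨p, hp, hp'⟩ := h3 w
      refine ⟨w + p, ⟨Or.inl ⟨hp', G_per h hp hw⟩, by simpa using neg_mem hp⟩, ?_⟩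
      rintro v ⟨hv, hq⟩
      have h5 : v ∈ D.G 0 := by simpa using G_per h (neg_mem hq) hw
      rcases hv with hv | hv
      · refine h4 v hv.1 _ hp' ?_
        have := sub_mem (neg_mem hq) hp
        convert this using 1; ring
      · simp only [mem_iUnion] at hv
        obtain ⟨c, hc, hv⟩ := hv
        exact (hnot hc.1 hv h5).elim
    · obtain ⟨c, hc, hwc⟩ : ∃ c ∈ D.C, dist w c < D.r c := by
        by_contra hn
        push Not at hn
        exact hw fun c hc => by simpa using hn c hc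
      obtain ⟨p, hp, hp'⟩ := h3 c
      obtain ⟨h5, h6⟩ := h p hp c hc
      refine ⟨w + p, ⟨Or.inr (mem_biUnion (show c + p ∈ D.C ∩ P₀ from ⟨h5, hp'⟩) ?_),
        by simpa using neg_mem hp⟩, ?_⟩
      · rw [mem_ball, dist_add_right, h6]; exact hwc
      · rintro v ⟨hv, hq⟩
        rcases hv with hv | hv
        · exact (hw (by simpa using G_per h hq hv.2)).elim
        · simp only [mem_iUnion] at hv
          obtain ⟨c', hc', hv⟩ := hv
          obtain ⟨h7, h8⟩ := h _ hq c' hc'.1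
          have h9 : dist w (c' + (w - v)) < D.r (c' + (w - v)) := by
            rw [h8, show dist w (c' + (w - v)) = dist v c' by
              rw [dist_eq_norm, dist_eq_norm]; congr 1; ring]
            exact hv
          have h10 := one_disc D hc h7 hwc h9
          have h11 : c' = c + p := by
            refine h4 _ hc'.2 _ hp' ?_
            have := sub_mem (neg_mem hq) hp
            convert this using 1
            rw [h10]; ring
          rw [h11] at h10
          linear_combination h10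
  · rintro w (hw | hw)
    · exact closedBall_subset_closedBall (by linarith [D.rm_nonneg]) (h2 hw.1)
    · simp only [mem_iUnion] at hw
      obtain ⟨c, hc, hw⟩ := hw
      have h5 := mem_closedBall.1 (h2 hc.2)
      have h6 := dist_triangle w c 0
      exact mem_closedBall.2 (by linarith [mem_ball.1 hw, D.r_le c hc.1])
  · refine (h1.inter (IsClosed.measurableSet ?_)).union
      (isOpen_biUnion fun c _ => isOpen_ball).measurableSet
    have : D.G 0 = ⋂ c ∈ D.C, {w | D.r c + 0 ≤ dist w c} := by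
      ext w; simp [Discs.G]
    rw [this]
    exact isClosed_biInter fun c _ => isClosed_le continuous_const (by fun_prop)
  · obtain ⟨p, hp, hp'⟩ := h3 c
    obtain ⟨h5, h6⟩ := h p hp c hc
    refine ⟨p, hp, fun w hw => Or.inr (mem_biUnion (show c + p ∈ D.C ∩ P₀ from ⟨h5, hp'⟩) ?_)⟩
    rwa [h6]

theorem sConn : SConn := by
  intro B δ hδ hB
  have h1 : B.Countable := by
    refine Set.PairwiseDisjoint.countable_of_isOpen (s := fun c => ball c (2 * δ))
      (fun c hc c' hc' hne => ?_) (fun _ _ => isOpen_ball)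
      fun c _ => nonempty_ball.2 (by linarith)
    exact ball_disjoint_ball (by linarith [hB c hc c' hc' hne])
  rw [← Φ_image hδ hB]
  exact (h1.isConnected_compl_of_one_lt_rank (by simp)).isPreconnected.image _
    fun w hw => (Φ_cont hδ hB hw).continuousWithinAt

end Pool.Agent.P.MP_7ede32_ag.Bnd
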