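import Pool.Agent.P.MP_7ede32_ag.Bnd.RT2

/-!
The degree of a function on the part of the curve outside the sheets.
-/

open Filter Topology Metric Set Function

noncomputable section

namespace Pool.Agent.P.MP_7ede32_ag.Bnd

open Full
open MP_5d7cf0_gt.T (RS zc loc An Hf Om Hol)
open MP_5d7cf0_gt.T renaming D → Dc

namespace TileCP

theorem ord_one (w : ℂ) : ord (fun _ => 1) w = 0 := by
  have h : meromorphicOrderAt (fun _ : ℂ => (1 : ℂ)) w = (0 : ℤ) :=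
    (meromorphicOrderAt_eq_int_iff analyticAt_const.meromorphicAt).2
      ⟨_, analyticAt_const, one_ne_zero, Eventually.of_forall fun z => by simp⟩
  rw [ord, h, WithTop.untop₀_coe]

theorem po_smul {C : Type} [TopologicalSpace C] [ChartedSpace ℂ C] {u : C → ℂ} {c : C}
    (hu : Mr u c) (a : ℂ) : po (fun y => a * u y) c ≤ po u c := by
  have h := po_mul_le (mr_const (c := c) a) hu
  rwa [po_const, zero_add] at h

theorem arith {k k₀ : ℕ} {b ρ X : ℤ} (hb : 0 ≤ b) (hρ : 0 ≤ ρ) (h : X ≤ k₀ * b + ρ) :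
    k * X ≤ ((k * (k₀ + 1) : ℕ) : ℤ) * (b + ρ) := by
  have a1 := mul_nonneg (Int.natCast_nonneg k₀) hρ
  have a2 : X ≤ (k₀ + 1) * (b + ρ) := by nlinarith
  push_cast
  rw [mul_assoc]
  exact mul_le_mul_of_nonneg_left a2 (Int.natCast_nonneg k)

theorem near {x y y₀ Y ψ s : ℂ} {K : ℝ} {j : ℕ} (hj : j ≤ 1) (hK : 1 ≤ K) (hs : ‖s‖ = 1)
    (hy : ‖y - y₀‖ ≤ 1) (h1 : (1 + ‖x‖) * ‖Y‖ ≤ K) (h2 : 1 ≤ K * ‖ψ‖) :
    ‖(x - y) * Y‖ ≤ ‖s * (2 * (2 + ‖y₀‖) * K ^ 2 : ℝ) * ψ ^ j‖ / 2 := by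
  have a0 := norm_nonneg y₀
  have a1 := norm_nonneg x
  have a2 := norm_nonneg Y
  have a3 : 1 ≤ K * ‖ψ‖ ^ j := by
    obtain rfl | rfl : j = 0 ∨ j = 1 := by omega
    · simpa using hK
    · simpa using h2
  have a4 : ‖x - y‖ ≤ (2 + ‖y₀‖) * (1 + ‖x‖) := by
    have b1 := norm_sub_le x y
    have b2 := norm_le_norm_add_norm_sub' y y₀
    nlinarith
  rw [norm_mul, norm_mul, norm_mul, hs, one_mul, norm_pow, Complex.norm_real,
    Real.norm_of_nonneg (by positivity)]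
  calc ‖x - y‖ * ‖Y‖ ≤ (2 + ‖y₀‖) * ((1 + ‖x‖) * ‖Y‖) := by
        rw [← mul_assoc]
        exact mul_le_mul_of_nonneg_right a4 a2
    _ ≤ (2 + ‖y₀‖) * (K * 1) := by
        rw [mul_one]
        exact mul_le_mul_of_nonneg_left h1 (by positivity)
    _ ≤ (2 + ‖y₀‖) * (K * (K * ‖ψ‖ ^ j)) := by gcongr
    _ = _ := by ring

end TileCP

theorem sTileC (h1 : SSh) (h2 : SOd) : STileC := by
  intro L C _ _ _ B D P R₀ 𝒢 W b F e hT hP hne hF he h0 H
  have hR₀ : 0 ≤ R₀ := by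
    obtain ⟨w, ⟨a, -⟩, -⟩ := hT.uniq 0
    exact dist_nonneg.trans (mem_closedBall.1 (hT.sub a))
  have hS : ∀ g ∈ 𝒢, ∀ z ∈ ball (0 : ℂ) (R₀ + 1), B.ShF g z := fun g hg =>
    (h1 L C B).1 _ g isOpen_ball (H g hg).1
  have key := fun g hg => hT.sum (F ∘ g) (fun _ => 1) e
    (fun z hz => ((hS g hg z hz).mr F (hF _)).1) (fun _ _ => analyticAt_const.meromorphicAt) he h0
    fun z hz => ((H g hg).2 z hz).mono fun z' a => ⟨one_ne_zero, by simpa using a⟩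
  obtain ⟨g₀, hg₀⟩ := hne
  have hz : (0 : ℂ) ∈ ball (0 : ℂ) (R₀ + 1) := mem_ball_self (by linarith)
  refine ⟨hF.nz_of (c := g₀ 0) ?_, ?_⟩
  · rw [← (hS g₀ hg₀ 0 hz).map_ne]
    exact ((key g₀ hg₀).1 0 hz).1
  have s1 := hP.split _ hF.fs_od
  have s2 : ∑ g ∈ 𝒢, ∑ᶠ z ∈ P, od F (g z) = 0 := Finset.sum_eq_zero fun g hg => by
    have a := (key g hg).2
    simp only [TileCP.ord_one, finsum_zero] at a
    rw [← a]
    exact finsum_mem_congr rfl fun z hz =>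
      ((hS g hg z (closedBall_subset_ball (by linarith) (hT.sub hz))).mr F (hF _)).2.symm
  rw [h2 C F hF, s2, add_zero] at s1
  rw [← sub_eq_zero, ← sm_sub hF.fs_ze hF.fs_po, s1]
  exact finsum_mem_congr rfl fun c _ => od_eq.symm

theorem sK2 (h1 : SBw) (h2 : SOd) (h3 : SDegB) : SK2 := by
  intro L p
  obtain ⟨k₀, hk₀⟩ := (h1 L p.N₀ (fun q hq w hw => (p.per q hq w).2 hw) p.disc).1
  refine ⟨2 * p.k * (k₀ + 1), fun C _ _ _ B d => ?_⟩
  have hd := h3 L C B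
  have hn : 0 ≤ B.n := zero_le_one.trans hd.pos
  obtain ⟨w1, -, w3⟩ := hk₀ C B
  rcases d.alt with ⟨i, hi⟩ | ⟨a, ha⟩
  · have m1 : Me fun y => d.χ y * d.Y i y := fun c => (d.mχ c).mul (d.mY i c)
    have a1 := su_le d.mχ.fs_po (m1.fs_po.add (d.mY i).fs_ze) fun c =>
      po_le_of_mul (d.mχ c) (d.mY i c) (hi.ne c)
    rw [su_add m1.fs_po (d.mY i).fs_ze, (d.mY i).sum_ze h2] at a1
    have a2 := su_le m1.fs_po (w1.mul p.k) fun c => (d.poY i c).2
    have a3 := su_le (d.mY i).fs_po (w1.mul p.k) fun c => (d.poY i c).1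
    rw [su_mul] at a2 a3
    have a4 := w3 univ B.n fun z => by rw [univ_inter, hd.sum]
    rw [sm_univ] at a4
    have a5 := TileCP.arith (k := 2 * p.k) hn hd.ρ_nonneg a4
    refine le_trans ?_ a5
    push_cast
    linarith
  · have z : ∀ c, po d.χ c = 0 := fun c => by
      rw [po_congr (v := fun _ => a) (cof_iff.1 ha c), po_const]
    simp only [z, finsum_zero]
    exact mul_nonneg (Int.natCast_nonneg _) (add_nonneg hn hd.ρ_nonneg)

theorem sK3a (h1 : STileC) (h2 : SBw) (h3 : SDegB) : SK3a := by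
  intro L p
  obtain ⟨⟨k₀, hk₀⟩, hm⟩ := h2 L p.N₀ (fun q hq w hw => (p.per q hq w).2 hw) p.disc
  have hper : ∀ q ∈ L.lattice, ∀ w, p.Ψ (w + q) = p.Ψ w := fun q hq w => (p.per q hq w).1
  obtain ⟨k', hk'⟩ := hm p.Ψ p.mer hper p.an
  refine ⟨(p.k + k') * (k₀ + 1), fun C _ _ _ B d 𝒢 W b hP i j hj s y hs hy => ?_⟩
  have hd := h3 L C B
  have hK : 0 < p.K₁ := lt_of_lt_of_le one_pos p.one_le
  obtain ⟨w1, w2, w3⟩ := hk₀ C B
  have m1 : Me fun x => (d.χ x - y) * d.Y i x := fun c =>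
    ((d.mχ c).sub (mr_const y)).mul (d.mY i c)
  have m2 : Me fun x => s * p.lam * B.pb p.Ψ x ^ j := fun c =>
    (mr_const _).mul ((hk' C B c).1.pow j)
  have mG : Me (d.Gy i j s y) := fun c => (m1 c).add (m2 c)
  obtain ⟨nG, sG⟩ := h1 L C B p.D p.P p.R₀ 𝒢 W b _ (fun z => s * p.lam * p.Ψ z ^ j) p.tile
    hP.toPrt hP.ne mG
    (fun w hw => ⟨analyticAt_const.mul ((p.an w (p.go w hw).1).pow j), fun q hq => by
      simp only [hper q hq]⟩)
    (fun w hw => by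
      have a1 : p.Ψ w ≠ 0 := fun a => by
        have := (p.go w hw).2
        rw [a, norm_zero, mul_zero] at this
        linarith
      have a2 : 0 < p.lam := by
        rw [Pm.lam]
        positivity
      exact mul_ne_zero (mul_ne_zero (norm_ne_zero_iff.1 (hs ▸ one_ne_zero))
        (Complex.ofReal_ne_zero.2 a2.ne')) (pow_ne_zero _ a1))
    fun g hg => ⟨(hP.sh g hg).1, fun z hz => by
      have a1 : z ∈ p.D.Go := fun c hc => by linarith [hz.2 c hc, p.D.θ_pos]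
      filter_upwards [(hP.sh g hg).2 z hz, mem_nhdsWithin_of_mem_nhds (isOpen_ball.mem_nhds hz.1),
        mem_nhdsWithin_of_mem_nhds (p.D.isOpen_Go.mem_nhds a1)] with z' ⟨a, _⟩ a2 a3
      rw [CD.Gy, Bc.pb_of hper ((hP.sh g hg).1 z' a2).2.1, add_sub_cancel_right]
      exact TileCP.near hj p.one_le hs hy (a i) (p.go z' a3).2⟩
  refine ⟨mG, nG, ?_⟩
  have hp : ∀ c ∈ W, po (d.Gy i j s y) c ≤ ((p.k + k' : ℕ) : ℤ) * B.bw p.N₀ c := fun c _ => by
    have a1 := po_add_le (m1 c) (m2 c)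
    have a2 : po (fun x => (d.χ x - y) * d.Y i x) c ≤ p.k * B.bw p.N₀ c := by
      rw [po_congr (v := fun x => d.χ x * d.Y i x + -y * d.Y i x)
        (Eventually.of_forall fun x => by ring)]
      exact (po_add_le_max ((d.mχ c).mul (d.mY i c)) ((mr_const _).mul (d.mY i c))).trans
        (max_le (d.poY i c).2 ((TileCP.po_smul (d.mY i c) _).trans (d.poY i c).1))
    have a3 := TileCP.po_smul ((hk' C B c).1.pow j) (s * p.lam)
    rw [po_pow (hk' C B c).1] at a3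
    have a4 : (j : ℤ) * po (B.pb p.Ψ) c ≤ 1 * po (B.pb p.Ψ) c :=
      mul_le_mul_of_nonneg_right (by exact_mod_cast hj) po_nonneg
    have a5 := (hk' C B c).2
    push_cast
    change po (d.Gy i j s y) c ≤ _ at a1
    linarith
  have a1 := sm_le mG.fs_po (w1.mul _) hp
  rw [sm_mul] at a1
  rw [sG]
  exact a1.trans (TileCP.arith (hP.toPrt.nonneg hd) hd.ρ_nonneg (w3 W b hP.fib))

end Pool.Agent.P.MP_7ede32_ag.Bnd
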