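import Pool.Agent.P.MP_7ede32_ag.Bnd.DP
import Pool.Agent.P.MP_7ede32_ag.Full.Laur
import Pool.Agent.P.MP_7ede32_ag.Hod.EllRes

/-!
The contour integrals of a periodic function around the discs add up to zero.
-/

open Filter Topology Metric Set Complex ComplexConjugate
open scoped Real

noncomputable section

namespace Pool.Agent.P.MP_7ede32_ag.Bnd

open Full Hod

namespace Wind0P

/-- a convolution integral depends holomorphically on the parameter -/
lemma diff_conv {k h : ℂ → ℂ} {c w : ℂ} {ρ : ℝ} (hρ : 0 ≤ ρ) (hh : ContinuousOn h (sphere c ρ))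
    (hk : ∀ t ∈ sphere c ρ, AnalyticAt ℂ k (w - t)) :
    DifferentiableAt ℂ (fun v => ∮ t in C(c, ρ), k (v - t) * h t) w := by
  have hK : IsCompact ((fun t => w - t) '' sphere c ρ) :=
    (isCompact_sphere c ρ).image (by fun_prop)
  obtain ⟨δ, hδ, hV⟩ := hK.exists_cthickening_subset_open (isOpen_analyticAt ℂ k)
    (by rintro _ ⟨t, ht, rfl⟩; exact hk t ht)
  have hA : AnalyticOnNhd ℂ k (cthickening δ ((fun t => w - t) '' sphere c ρ)) := fun z hz => hV hz
  obtain ⟨B, hB⟩ := (hK.cthickening (r := δ)).exists_bound_of_continuousOn hA.deriv.continuousOn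
  obtain ⟨M, hM⟩ := (isCompact_sphere c ρ).exists_bound_of_continuousOn hh
  have hm : ∀ θ, circleMap c ρ θ ∈ sphere c ρ := circleMap_mem_sphere c hρ
  have hin : ∀ v ∈ ball w δ, ∀ θ,
      v - circleMap c ρ θ ∈ cthickening δ ((fun t => w - t) '' sphere c ρ) := fun v hv θ =>
    mem_cthickening_of_dist_le _ _ _ _ ⟨_, hm θ, rfl⟩ (by
      rw [dist_sub_right]; exact (mem_ball.1 hv).le)
  have c1 : Continuous fun θ => h (circleMap c ρ θ) :=
    hh.comp_continuous (continuous_circleMap c ρ) hm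
  have c2 : Continuous (deriv (circleMap c ρ)) := by
    rw [funext (deriv_circleMap c ρ)]
    fun_prop
  have c3 : ∀ {f : ℂ → ℂ}, AnalyticOnNhd ℂ f (cthickening δ ((fun t => w - t) '' sphere c ρ)) →
      ∀ v ∈ ball w δ, Continuous fun θ => deriv (circleMap c ρ) θ •
        (f (v - circleMap c ρ θ) * h (circleMap c ρ θ)) := fun hf v hv =>
    c2.smul ((hf.continuousOn.comp_continuous (by fun_prop) (hin v hv)).mul c1)
  refine (intervalIntegral.hasDerivAt_integral_of_dominated_loc_of_deriv_le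
    (F := fun v θ => deriv (circleMap c ρ) θ • (k (v - circleMap c ρ θ) * h (circleMap c ρ θ)))
    (F' := fun v θ => deriv (circleMap c ρ) θ •
      (deriv k (v - circleMap c ρ θ) * h (circleMap c ρ θ)))
    (bound := fun _ => ρ * (B * M)) (ball_mem_nhds w hδ) ?_
    ((c3 hA w (mem_ball_self hδ)).intervalIntegrable _ _)
    (c3 hA.deriv w (mem_ball_self hδ)).aestronglyMeasurable
    (Eventually.of_forall fun θ _ v hv => ?_) intervalIntegrable_const
    (Eventually.of_forall fun θ _ v hv => ?_)).2.differentiableAt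
  · filter_upwards [ball_mem_nhds w hδ] with v hv using (c3 hA v hv).aestronglyMeasurable
  · have h1 := hB _ (hin v hv θ)
    have h2 := hM _ (hm θ)
    rw [norm_smul, norm_mul, deriv_circleMap, norm_mul, norm_circleMap_zero, norm_I, mul_one,
      abs_of_nonneg hρ]
    gcongr
    exact (norm_nonneg _).trans h1
  · have h1 := ((hA _ (hin v hv θ)).differentiableAt.hasDerivAt.comp v
      ((hasDerivAt_id' v).sub_const (circleMap c ρ θ)))
    rw [mul_one] at h1
    exact (h1.mul_const _).const_smul (deriv (circleMap c ρ) θ)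

/-- an entire quasi-periodic function is periodic -/
lemma entire_qp {L : PeriodPair} {E : ℂ → ℂ} {κ : ℂ} (hd : Differentiable ℂ E)
    (h6 : ∀ w ∈ L.lattice, ∀ z, E (z + w) = E z + κ * conj w) : κ = 0 := by
  have hd' : Differentiable ℂ (deriv E) := fun z => (hd.analyticAt z).deriv.differentiableAt
  have h7 := hd'.apply_eq_apply_of_bounded (IsZLattice.isCompact_range_of_periodic L.lattice _
    hd'.continuous fun z w hw => by
      rw [← deriv_comp_add_const, funext (h6 w hw), deriv_add_const]).isBounded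
  have h8 := is_const_of_deriv_eq_zero (f := fun t => E t - deriv E 0 * t) (by fun_prop) fun t => by
    rw [((hd t).hasDerivAt.fun_sub ((hasDerivAt_id' t).const_mul _)).deriv, h7 t 0]
    ring
  have h9 : ∀ w ∈ L.lattice, deriv E 0 * w = κ * conj w := fun w hw => by
    have p1 := h6 w hw 0
    have p2 := h8 w 0
    rw [zero_add] at p1
    linear_combination p1 - p2
  have h10 : κ * (conj L.ω₁ * L.ω₂ - conj L.ω₂ * L.ω₁) = 0 := by
    linear_combination L.ω₁ * h9 _ L.ω₂_mem_lattice - L.ω₂ * h9 _ L.ω₁_mem_lattice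
  rcases mul_eq_zero.1 h10 with p | p
  · exact p
  · have := congrArg Complex.im p
    simp at this
    exact absurd (by linarith) (EllResP.det_ne L)

/-- the normalised zeta function -/
lemma exists_zeta (hS : SSig) (L : PeriodPair) : ∃ (ζ ζ₀ : ℂ → ℂ) (β : ℂ), β ≠ 0 ∧
    (∀ z ∉ L.lattice, AnalyticAt ℂ ζ z ∧ ζ z = z⁻¹ + ζ₀ z ∧
      ∀ p ∈ L.lattice, ζ (z + p) = ζ z + β * conj p) ∧
    ∀ z, (z ∈ L.lattice → z = 0) → AnalyticAt ℂ ζ₀ z := by
  obtain ⟨σ, β, hσ⟩ := hS L
  have h0 : σ 0 = 0 := (hσ.zero 0).2 (zero_mem _)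
  have hτ : Differentiable ℂ (dslope σ 0) :=
    differentiableOn_univ.1 ((differentiableOn_dslope univ_mem).2 hσ.diff.differentiableOn)
  have he : σ = fun z => z * dslope σ 0 z := funext fun z => by
    have := sub_smul_dslope σ 0 z
    rw [h0, sub_zero, sub_zero, smul_eq_mul] at this
    exact this.symm
  have hτ0 : ∀ z, (z ∈ L.lattice → z = 0) → dslope σ 0 z ≠ 0 := fun z hz h => by
    have h1 : σ z = 0 := by rw [he]; simp [h]
    rw [hz ((hσ.zero z).1 h1), dslope_same] at h
    exact hσ.simple 0 (zero_mem _) h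
  refine ⟨logDeriv σ, logDeriv (dslope σ 0), 2 * β, mul_ne_zero two_ne_zero
    (ofReal_ne_zero.2 hσ.pos.ne'), fun z hz => ?_, fun z hz =>
    (hτ.analyticAt z).deriv.div (hτ.analyticAt z) (hτ0 z hz)⟩
  have h2 : σ z ≠ 0 := fun h => hz ((hσ.zero _).1 h)
  refine ⟨(hσ.diff.analyticAt z).deriv.div (hσ.diff.analyticAt z) h2, ?_, fun p hp => ?_⟩
  · have h3 : z ≠ 0 := fun h => hz (h ▸ zero_mem _)
    have := logDeriv_mul (f := fun z : ℂ => z) (g := dslope σ 0) z h3
      (hτ0 z fun h => absurd h hz) differentiableAt_id (hτ z)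
    rw [← he, logDeriv_id', one_div] at this
    exact this
  · obtain ⟨C, hC, h1⟩ := hσ.per p hp
    have hC0 : C ≠ 0 := norm_pos_iff.1 (hC ▸ Real.exp_pos _)
    have h3 := (((((hasDerivAt_id' z).const_mul (2 * β * conj p)).cexp).const_mul C).fun_mul
      (hσ.diff z).hasDerivAt).deriv
    rw [← funext h1, deriv_comp_add_const] at h3
    have h4 := Complex.exp_ne_zero (2 * β * conj p * z)
    rw [logDeriv_apply, logDeriv_apply, h3, h1]
    field_simp
    ring

lemma dist_add (n c p : ℂ) : dist (n + p) c = dist n (c + -p) := by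
  rw [dist_eq_norm, dist_eq_norm]
  congr 1
  ring

variable {L : PeriodPair} {D : Discs}

lemma G_add (hD : ∀ p ∈ L.lattice, D.Per p) {t : ℝ} {w p : ℂ} (hp : p ∈ L.lattice)
    (hw : w ∈ D.G t) : w + p ∈ D.G t := fun c hc => by
  have h1 := hD _ (neg_mem hp) c hc
  rw [dist_add, ← h1.2]
  exact hw _ h1.1

/-- a function on the complement of the discs that extends over each disc extends to the plane -/
lemma glue {K₀ : ℂ → ℂ} (h1 : ∀ w ∈ D.G D.θ, DifferentiableAt ℂ K₀ w)
    (h2 : ∀ c ∈ D.C, ∃ H : ℂ → ℂ, DifferentiableOn ℂ H (ball c (D.r c + D.θ)) ∧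
      ∀ w, D.r c - D.θ < dist w c → dist w c < D.r c + D.θ → K₀ w = H w) :
    ∃ K : ℂ → ℂ, Differentiable ℂ K ∧ ∀ w ∈ D.G 0, K w = K₀ w := by
  classical
  have hθ := D.θ_pos
  choose! H ha hb using h2
  let K : ℂ → ℂ := fun w => if h : ∃ c ∈ D.C, dist w c < D.r c then H h.choose w else K₀ w
  have hE : ∀ w ∈ D.G 0, K w = K₀ w := fun w hw => dif_neg fun ⟨c, hc, h⟩ => by
    linarith [hw c hc]
  have hc : ∀ c ∈ D.C, ∀ w, dist w c < D.r c + D.θ → K w = H c w := by
    intro c hc w hw
    by_cases h : ∃ c ∈ D.C, dist w c < D.r c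
    · have h1 := h.choose_spec
      have h2 : h.choose = c := by
        by_contra hne
        have := D.sep _ h1.1 c hc hne
        linarith [dist_triangle_left h.choose c w, h1.2]
      simp only [K]
      rw [dif_pos h, h2]
    · push Not at h
      rw [hE w fun c hc => by linarith [h c hc], hb c hc w (by linarith [h c hc]) hw]
  refine ⟨K, fun w => ?_, hE⟩
  by_cases h : ∃ c ∈ D.C, dist w c < D.r c + D.θ
  · obtain ⟨c, hcF, h⟩ := h
    have hn : ball c (D.r c + D.θ) ∈ 𝓝 w := isOpen_ball.mem_nhds (mem_ball.2 h)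
    refine ((ha c hcF).differentiableAt hn).congr_of_eventuallyEq ?_
    filter_upwards [hn] with z hz using hc c hcF z (mem_ball.1 hz)
  · push Not at h
    refine (h1 w h).congr_of_eventuallyEq ?_
    filter_upwards [ball_mem_nhds w hθ] with z hz
    refine hE z fun c hc => ?_
    linarith [h c hc, mem_ball.1 hz, dist_triangle_left w c z]

/-- The contour integrals around representatives of the discs add up to zero. -/
theorem perInt (hS : SSig) (hD : ∀ p ∈ L.lattice, D.Per p) (F : Finset ℂ) (hF : ∀ c ∈ F, c ∈ D.C)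
    (hrep : ∀ c ∈ D.C, ∃ p ∈ L.lattice, c + p ∈ F)
    (huniq : ∀ c ∈ F, ∀ p ∈ L.lattice, c + p ∈ F → p = 0) {h : ℂ → ℂ}
    (hh : DifferentiableOn ℂ h D.Go) (hper : ∀ p ∈ L.lattice, ∀ w ∈ D.Go, h (w + p) = h w) :
    ∑ c ∈ F, (∮ z in C(c, D.r c - D.θ), h z) = 0 := by
  classical
  rcases F.eq_empty_or_nonempty with rfl | ⟨c₀, hc₀⟩
  · rfl
  obtain ⟨ζ, ζ₀, β, hβ, hζ, hζ₀⟩ := exists_zeta hS L
  have hθ := D.θ_pos
  have hr : ∀ c ∈ D.C, 0 < D.r c - D.θ := fun c hc => by linarith [D.le_r c hc]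
  have hcs : ∀ c ∈ D.C, ∀ ρ, D.r c - 2 * D.θ < ρ → ρ ≤ D.r c + 2 * D.θ →
      ContinuousOn h (sphere c ρ) := fun c hc ρ x y => hh.continuousOn.mono fun z hz =>
    D.mem_Go hc (by rwa [mem_sphere.1 hz]) (by rwa [mem_sphere.1 hz])
  have hc1 : ∀ c ∈ D.C, ContinuousOn h (sphere c (D.r c - D.θ)) := fun c hc =>
    hcs c hc _ (by linarith) (by linarith)
  set a : ℂ := (2 * π * I : ℂ)⁻¹ with ha
  set J : (ℂ → ℂ) → ℂ → ℂ → ℂ := fun k c w => ∮ t in C(c, D.r c - D.θ), k (w - t) * h t with hJ
  have hoff : ∀ c ∈ D.C, ∀ w, (∀ p ∈ L.lattice, dist w (c + p) ≠ D.r c - D.θ) →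
      ∀ t ∈ sphere c (D.r c - D.θ), w - t ∉ L.lattice := fun c hc w hw t ht hp =>
    hw _ hp (by rw [← mem_sphere.1 ht, dist_eq_norm, dist_eq_norm]; congr 1; ring)
  have hU : ∀ c ∈ D.C, ∀ w, (∀ c' ∈ D.C, D.r c' - D.θ < dist w c') →
      ∀ t ∈ sphere c (D.r c - D.θ), w - t ∉ L.lattice := fun c hc w hw =>
    hoff c hc w fun p hp => by
      have h1 := hD p hp c hc
      have h2 := hw _ h1.1
      rw [h1.2] at h2
      exact h2.ne'
  have ci : ∀ c ∈ D.C, ∀ (k : ℂ → ℂ) w, (∀ t ∈ sphere c (D.r c - D.θ), AnalyticAt ℂ k (w - t)) →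
      CircleIntegrable (fun t => k (w - t) * h t) c (D.r c - D.θ) := fun c hc k w hk =>
    ContinuousOn.circleIntegrable (hr c hc).le (ContinuousOn.mul (fun t ht =>
      (ContinuousAt.comp (f := fun t => w - t) (hk t ht).continuousAt
        (by fun_prop)).continuousWithinAt) (hc1 c hc))
  set K₀ : ℂ → ℂ := fun w => h w - ∑ c ∈ F, a * J ζ c w with hK₀
  set κ : ℂ := -(a * β * ∑ c ∈ F, (∮ z in C(c, D.r c - D.θ), h z)) with hκ
  have hqp : ∀ w, (∀ c' ∈ D.C, D.r c' - D.θ < dist w c') → ∀ p ∈ L.lattice,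
      K₀ (w + p) = K₀ w + κ * conj p := fun w hw p hp => by
    have h1 : ∀ c ∈ F, a * J ζ c (w + p) =
        a * J ζ c w + a * β * (∮ z in C(c, D.r c - D.θ), h z) * conj p := fun c hc => by
      have i1 := ci c (hF c hc) ζ w fun t ht => (hζ _ (hU c (hF c hc) w hw t ht)).1
      have i2 : CircleIntegrable (fun t => β * conj p * h t) c (D.r c - D.θ) :=
        (continuousOn_const.mul (hc1 c (hF c hc))).circleIntegrable (hr c (hF c hc)).le
      have : J ζ c (w + p) = J ζ c w + β * conj p * ∮ z in C(c, D.r c - D.θ), h z := by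
        simp only [hJ]
        rw [← circleIntegral.integral_const_mul, ← circleIntegral.integral_add i1 i2]
        refine circleIntegral.integral_congr (hr c (hF c hc)).le fun t ht => ?_
        rw [add_sub_right_comm, (hζ _ (hU c (hF c hc) w hw t ht)).2.2 p hp]
        ring
      rw [this]
      ring
    simp only [hK₀, hκ]
    rw [hper p hp w fun c hc => by linarith [hw c hc], Finset.sum_congr rfl h1,
      Finset.sum_add_distrib, ← Finset.sum_mul, ← Finset.mul_sum, ← Finset.mul_sum]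
    ring
  have hann : ∀ c ∈ D.C, ∀ w, D.r c - D.θ < dist w c → dist w c < D.r c + D.θ →
      ∀ c' ∈ D.C, D.r c' - D.θ < dist w c' := fun c hc w x y c' hc' => by
    rcases eq_or_ne c c' with rfl | h1
    · exact x
    · linarith [D.sep c hc c' hc' h1, dist_triangle_left c c' w]
  have hloc : ∀ c ∈ F, ∃ H : ℂ → ℂ, DifferentiableOn ℂ H (ball c (D.r c + D.θ)) ∧
      ∀ w, D.r c - D.θ < dist w c → dist w c < D.r c + D.θ → K₀ w = H w := fun c hcF => by
    have hc := hF c hcF
    have z0 : ∀ w, dist w c < D.r c + D.θ → ∀ t ∈ sphere c (D.r c - D.θ),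
        AnalyticAt ℂ ζ₀ (w - t) := fun w hw t ht => hζ₀ _ fun hp => by
      by_contra h0
      have h1 := hD _ hp c hc
      have h2 := D.sep c hc _ h1.1 (by simpa using h0)
      rw [h1.2, dist_self_add_right, ← dist_eq_norm] at h2
      linarith [mem_sphere.1 ht, dist_triangle_right w t c]
    refine ⟨fun w => a * Laur.G c (D.r c + D.θ) h w - a * J ζ₀ c w -
      ∑ c' ∈ F.erase c, a * J ζ c' w, fun w hw => DifferentiableAt.differentiableWithinAt ?_,
      fun w x y => ?_⟩
    · have hw' := mem_ball.1 hw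
      refine (((Laur.diff_G (by linarith [hr c hc]) (hcs c hc _ (by linarith) (by linarith))
        hw'.ne).const_mul a).sub ((diff_conv (hr c hc).le (hc1 c hc) (z0 w hw')).const_mul a)).sub
        (DifferentiableAt.fun_sum fun c' hc' => DifferentiableAt.const_mul ?_ a)
      have h1 := Finset.mem_of_mem_erase hc'
      refine diff_conv (hr c' (hF c' h1)).le (hc1 c' (hF c' h1)) fun t ht =>
        (hζ _ (hoff c' (hF c' h1) w (fun p hp => ?_) t ht)).1
      have h2 := hD p hp c' (hF c' h1)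
      have h3 : c ≠ c' + p := fun h3 => Finset.ne_of_mem_erase hc' (by
        rw [h3, huniq c' h1 p hp (h3 ▸ hcF), add_zero])
      have h4 := D.sep c hc _ h2.1 h3
      rw [h2.2] at h4
      intro h5
      linarith [dist_triangle_left c (c' + p) w]
    · have h1 := Laur.annulus (F := h) (a' := D.r c - 2 * D.θ) (b' := D.r c + 2 * D.θ) (hr c hc)
        (by linarith) (show D.r c + D.θ < _ by linarith)
        (hh.mono fun z hz => D.mem_Go hc hz.1 hz.2.le) x y
      have h2 : J ζ c w = J ζ₀ c w - Laur.G c (D.r c - D.θ) h w := by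
        simp only [hJ, Laur.G]
        rw [← circleIntegral.integral_sub (ci c hc ζ₀ w (z0 w y))
          (Laur.int_G (hr c hc).le (hc1 c hc) x.ne')]
        refine circleIntegral.integral_congr (hr c hc).le fun t ht => ?_
        rw [(hζ _ (hU c hc w (hann c hc w x y) t ht)).2.1, ← neg_sub t w, inv_neg]
        ring
      simp only [hK₀]
      rw [← Finset.add_sum_erase F _ hcF, h2, h1]
      ring
  obtain ⟨K, hK, hKe⟩ := glue (D := D) (K₀ := K₀) (fun w hw => by
      refine (hh.differentiableAt (D.isOpen_Go.mem_nhds fun c hc => by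
        linarith [hw c hc])).sub (DifferentiableAt.fun_sum fun c hc =>
          DifferentiableAt.const_mul ?_ a)
      exact diff_conv (hr c (hF c hc)).le (hc1 c (hF c hc)) fun t ht =>
        (hζ _ (hU c (hF c hc) w (fun c' hc' => by linarith [hw c' hc']) t ht)).1)
    fun c hc => by
      obtain ⟨p, hp, hcp⟩ := hrep c hc
      obtain ⟨H, h1, h2⟩ := hloc _ hcp
      rw [(hD p hp c hc).2] at h1 h2
      refine ⟨fun w => H (w + p) - κ * conj p, (h1.comp (differentiableOn_id.add_const p)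
        fun w hw => by simpa using hw).sub_const _, fun w x y => ?_⟩
      beta_reduce
      rw [← h2 (w + p) (by simpa using x) (by simpa using y), hqp w (hann c hc w x y) p hp]
      ring
  have hκ0 : κ = 0 := entire_qp (L := L) hK fun p hp => by
    have hc := hF c₀ hc₀
    have h1 : c₀ + ((D.r c₀ + D.θ : ℝ) : ℂ) ∈ D.G D.θ := by
      have : dist (c₀ + ((D.r c₀ + D.θ : ℝ) : ℂ)) c₀ = D.r c₀ + D.θ := by
        rw [dist_self_add_left, norm_real, Real.norm_of_nonneg (by linarith [hr c₀ hc])]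
      exact D.mem_G hc this.ge (by linarith)
    have a1 : AnalyticOnNhd ℂ (fun z => K (z + p)) univ := fun z _ =>
      (hK.comp (differentiable_id.add_const p)).analyticAt z
    have a2 : AnalyticOnNhd ℂ (fun z => K z + κ * conj p) univ := fun z _ =>
      (hK.add_const _).analyticAt z
    refine congrFun (a1.eq_of_eventuallyEq a2 (z₀ := c₀ + ((D.r c₀ + D.θ : ℝ) : ℂ)) ?_)
    filter_upwards [ball_mem_nhds _ hθ] with z hz
    have h2 : z ∈ D.G 0 := fun c hc => by
      linarith [h1 c hc, mem_ball.1 hz, dist_triangle_left (c₀ + ((D.r c₀ + D.θ : ℝ) : ℂ)) c z]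
    rw [hKe _ (G_add hD hp h2), hKe z h2, hqp z (fun c hc => by linarith [h2 c hc]) p hp]
  rw [hκ, neg_eq_zero, mul_eq_zero] at hκ0
  exact hκ0.resolve_left (mul_ne_zero (inv_ne_zero two_pi_I_ne_zero) hβ)

end Wind0P

theorem sWind0 (hS : Hod.SSig) : SWind0 := by
  intro L D h J hD hJ hrep hper
  have hθ := D.θ_pos
  have hh : DifferentiableOn ℂ h D.Go := fun w hw =>
    (hper w hw).1.differentiableAt.differentiableWithinAt
  rw [← Wind0P.perInt hS hD J hJ (fun c hc => ?_) (fun c hc p hp h1 => ?_) hh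
    fun p hp w hw => (hper w hw).2 p hp]
  · refine Finset.sum_congr rfl fun c hc => ?_
    have hs : closedBall c (D.r c - D.θ / 2) \ ball c (D.r c - D.θ) ⊆ D.Go := fun z hz => by
      have x := mem_closedBall.1 hz.1
      have y : D.r c - D.θ ≤ dist z c := not_lt.1 fun h => hz.2 (mem_ball.2 h)
      exact D.mem_Go (hJ c hc) (by linarith) (by linarith)
    exact circleIntegral_eq_of_differentiable_on_annulus_off_countable
      (by linarith [D.le_r c (hJ c hc)]) (by linarith) countable_empty (hh.continuousOn.mono hs)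
      fun z hz => (hper z (hs ⟨ball_subset_closedBall hz.1.1,
        fun h => hz.1.2 (ball_subset_closedBall h)⟩)).1.differentiableAt
  · obtain ⟨c', h1, -⟩ := hrep c hc
    exact ⟨-(c - c'), neg_mem h1.2, by simpa using h1.1⟩
  · have := (hrep c (hJ c hc)).unique (y₁ := c + p) (y₂ := c) ⟨h1, by simpa using hp⟩
      ⟨hc, by simp⟩
    simpa using this

end Pool.Agent.P.MP_7ede32_ag.Bnd
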