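import Pool.Agent.P.MP_7ede32_ag.Bnd.DP

/-!
The weight function and the inequality near the bad fibres.
-/

open Filter Topology Metric Set
open scoped Polynomial

noncomputable section

namespace Pool.Agent.P.MP_7ede32_ag.Bnd

namespace ZfP

theorem wp_ne (L : PeriodPair) (u w : ℂ) : ∀ᶠ z in 𝓝[≠] w, L.weierstrassP z ≠ u := by
  have hm : Meromorphic fun z => L.weierstrassP z - u := fun z =>
    (L.meromorphic_weierstrassP z).sub (MeromorphicAt.const u z)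
  have h0 : meromorphicOrderAt (fun z => L.weierstrassP z - u) 0 ≠ ⊤ := by
    intro h
    have h1 : L.weierstrassP =ᶠ[𝓝[≠] 0] fun _ => u :=
      (meromorphicOrderAt_eq_top_iff.1 h).mono fun z hz => sub_eq_zero.1 hz
    have h2 := meromorphicOrderAt_congr h1
    rw [L.order_weierstrassP 0 (zero_mem _)] at h2
    have h3 := (analyticAt_const (𝕜 := ℂ) (v := u) (x := (0 : ℂ))).meromorphicOrderAt_nonneg
    rw [← h2] at h3
    exact absurd h3 (by decide)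
  have h1 := (hm.meromorphicOn (s := univ)).meromorphicOrderAt_ne_top_of_isPreconnected
    isPreconnected_univ (mem_univ 0) (mem_univ w) h0
  exact ((meromorphicOrderAt_ne_top_iff_eventually_ne_zero (hm w)).1 h1).mono
    fun z hz => sub_ne_zero.1 hz

theorem wp_poly (L : PeriodPair) {p : ℂ[X]} (hp : p ≠ 0) (w : ℂ) :
    ∀ᶠ z in 𝓝[≠] w, p.eval (L.weierstrassP z) ≠ 0 := by
  have h := (eventually_all_finset p.roots.toFinset).2 fun u _ => wp_ne L u w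
  filter_upwards [h] with z hz h0
  exact hz _ (Multiset.mem_toFinset.2 ((Polynomial.mem_roots hp).2 h0)) rfl

theorem not_lattice (L : PeriodPair) (w : ℂ) : ∀ᶠ z in 𝓝[≠] w, z ∉ L.lattice := by
  filter_upwards [mem_nhdsWithin_of_mem_nhds (L.compl_lattice_sdiff_singleton_mem_nhds w),
    self_mem_nhdsWithin] with z h1 h2 h3
  exact h1 ⟨h3, h2⟩

theorem dwp_ne (L : PeriodPair) (w : ℂ) : ∀ᶠ z in 𝓝[≠] w, L.derivWeierstrassP z ≠ 0 := by
  have hp : (Polynomial.C 4 * Polynomial.X ^ 3 - Polynomial.C L.g₂ * Polynomial.X -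
      Polynomial.C L.g₃ : ℂ[X]) ≠ 0 := by
    intro h
    have := congrArg (fun p : ℂ[X] => p.coeff 3) h
    simp [Polynomial.coeff_X, Polynomial.coeff_C] at this
  filter_upwards [wp_poly L hp w, not_lattice L w] with z h1 h2 h3
  apply h1
  have := L.derivWeierstrassP_sq z h2
  rw [h3] at this
  simp only [Polynomial.eval_sub, Polynomial.eval_mul, Polynomial.eval_C, Polynomial.eval_pow,
    Polynomial.eval_X]
  rw [← this]
  norm_num

theorem mer_poly {f : ℂ → ℂ} (hf : Meromorphic f) (p : ℂ[X]) :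
    Meromorphic fun z => p.eval (f z) := by
  intro z
  simp only [Polynomial.eval_eq_sum_range]
  exact MeromorphicAt.fun_sum fun i _ => (MeromorphicAt.const _ z).mul ((hf z).pow i)

theorem one_le_Bw (h : ℂ[X]) (u : ℂ) : 1 ≤ Bw h u := by
  have := norm_nonneg u
  have := inv_nonneg.2 (norm_nonneg (h.eval u))
  unfold Bw
  linarith

theorem norm_le_Bw (h : ℂ[X]) (u : ℂ) : 1 + ‖u‖ ≤ Bw h u :=
  le_add_of_nonneg_right (inv_nonneg.2 (norm_nonneg _))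

theorem poly_bound (h : ℂ[X]) : ∃ C : ℝ, 0 ≤ C ∧ ∀ u, ‖h.eval u‖ ≤ C * (1 + ‖u‖) ^ h.natDegree := by
  refine ⟨∑ i ∈ Finset.range (h.natDegree + 1), ‖h.coeff i‖,
    Finset.sum_nonneg fun _ _ => norm_nonneg _, fun u => ?_⟩
  rw [Polynomial.eval_eq_sum_range, Finset.sum_mul]
  refine (norm_sum_le _ _).trans (Finset.sum_le_sum fun i hi => ?_)
  rw [norm_mul, norm_pow]
  refine mul_le_mul_of_nonneg_left ?_ (norm_nonneg _)
  have h0 := norm_nonneg u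
  exact (pow_le_pow_left₀ h0 (by linarith) i).trans
    (pow_le_pow_right₀ (by linarith) (Nat.lt_succ_iff.1 (Finset.mem_range.1 hi)))

/-- where `Bw` is large the weight is small -/
theorem psi_bound (h : ℂ[X]) {u₁ : ℂ} (h1 : h.eval u₁ ≠ 0) : ∃ K₃ B₁ : ℝ, ∀ u, h.eval u ≠ 0 →
    B₁ ≤ Bw h u → Bw h u * ‖h.eval u / (u - u₁) ^ (h.natDegree + 1)‖ ≤ K₃ := by
  obtain ⟨C, hC, hb⟩ := poly_bound h
  have hp : 0 < ‖h.eval u₁‖ := norm_pos_iff.2 h1
  obtain ⟨δ, hδ, hc⟩ := Metric.continuousAt_iff.1 (h.continuous.continuousAt (x := u₁))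
    (‖h.eval u₁‖ / 2) (by positivity)
  set ε := min δ 1 with hε
  have hε0 : 0 < ε := lt_min hδ one_pos
  set M := (1 + ‖u₁‖) / ε + 1 with hM
  refine ⟨C * M ^ (h.natDegree + 1) + (ε ^ (h.natDegree + 1))⁻¹,
    3 + ‖u₁‖ + 2 / ‖h.eval u₁‖, fun u hu hB => ?_⟩
  have hfar : ε ≤ ‖u - u₁‖ := by
    by_contra hlt
    rw [not_le] at hlt
    have a1 := hc (show dist u u₁ < δ by rw [dist_eq_norm]; exact hlt.trans_le (min_le_left _ _))
    rw [dist_eq_norm] at a1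
    have a2 : ‖h.eval u₁‖ / 2 ≤ ‖h.eval u‖ := by
      have := norm_sub_norm_le (h.eval u₁) (h.eval u)
      rw [norm_sub_rev] at this
      linarith
    have a3 : ‖h.eval u‖⁻¹ ≤ 2 / ‖h.eval u₁‖ := by
      rw [← inv_div]
      exact inv_anti₀ (by positivity) a2
    have a4 : ‖u‖ ≤ ‖u₁‖ + 1 := by
      have := norm_sub_norm_le u u₁
      linarith [min_le_right δ 1]
    unfold Bw at hB
    linarith
  have hD : 0 < ‖u - u₁‖ := hε0.trans_le hfar
  have hu0 : 0 < ‖h.eval u‖ := norm_pos_iff.2 hu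
  have b1 : 1 + ‖u‖ ≤ M * ‖u - u₁‖ := by
    have := norm_sub_norm_le u u₁
    have b2 : 1 + ‖u₁‖ ≤ (1 + ‖u₁‖) / ε * ‖u - u₁‖ := by
      rw [div_mul_eq_mul_div, le_div_iff₀ hε0]
      exact mul_le_mul_of_nonneg_left hfar (by positivity)
    rw [hM, add_mul, one_mul]
    linarith
  have hP : 0 < ‖u - u₁‖ ^ (h.natDegree + 1) := pow_pos hD _
  have b3 : (1 + ‖u‖) * ‖h.eval u‖ ≤
      C * M ^ (h.natDegree + 1) * ‖u - u₁‖ ^ (h.natDegree + 1) := by
    calc (1 + ‖u‖) * ‖h.eval u‖ ≤ (1 + ‖u‖) * (C * (1 + ‖u‖) ^ h.natDegree) :=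
          mul_le_mul_of_nonneg_left (hb u) (by positivity)
      _ = C * (1 + ‖u‖) ^ (h.natDegree + 1) := by ring
      _ ≤ C * (M * ‖u - u₁‖) ^ (h.natDegree + 1) :=
          mul_le_mul_of_nonneg_left (pow_le_pow_left₀ (by positivity) b1 _) hC
      _ = _ := by rw [mul_pow, mul_assoc]
  have b4 : (‖u - u₁‖ ^ (h.natDegree + 1))⁻¹ ≤ (ε ^ (h.natDegree + 1))⁻¹ :=
    inv_anti₀ (pow_pos hε0 _) (pow_le_pow_left₀ hε0.le hfar _)
  rw [norm_div, norm_pow, Bw, add_mul, ← mul_div_assoc, ← mul_div_assoc, inv_mul_cancel₀ hu0.ne',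
    one_div]
  exact add_le_add ((div_le_iff₀ hP).2 b3) b4

theorem dwp_bound (L : PeriodPair) : ∃ C : ℝ, 0 ≤ C ∧ ∀ w ∉ L.lattice, ∀ B : ℝ,
    1 + ‖L.weierstrassP w‖ ≤ B → ‖L.derivWeierstrassP w‖ ≤ C * B ^ 2 := by
  refine ⟨4 + ‖L.g₂‖ + ‖L.g₃‖, by positivity, fun w hw B hB => ?_⟩
  have h0 := norm_nonneg (L.weierstrassP w)
  have h2 := norm_nonneg L.g₂
  have h3 := norm_nonneg L.g₃
  have hB1 : 1 ≤ B := by linarith
  have hu : ‖L.weierstrassP w‖ ≤ B := by linarith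
  have e : ‖L.derivWeierstrassP w‖ ^ 2 ≤ (4 + ‖L.g₂‖ + ‖L.g₃‖) * B ^ 4 := by
    rw [← norm_pow, L.derivWeierstrassP_sq w hw]
    have a1 : ‖4 * L.weierstrassP w ^ 3‖ ≤ 4 * B ^ 4 := by
      rw [norm_mul, norm_pow, Complex.norm_ofNat]
      exact mul_le_mul_of_nonneg_left ((pow_le_pow_left₀ h0 hu 3).trans
        (pow_le_pow_right₀ hB1 (by norm_num))) (by norm_num)
    have a2 : ‖L.g₂ * L.weierstrassP w‖ ≤ ‖L.g₂‖ * B ^ 4 := by
      rw [norm_mul]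
      exact mul_le_mul_of_nonneg_left (hu.trans (le_self_pow₀ hB1 (by norm_num))) h2
    have a3 : ‖L.g₃‖ ≤ ‖L.g₃‖ * B ^ 4 := le_mul_of_one_le_right h3 (one_le_pow₀ hB1)
    have a4 := norm_sub_le (4 * L.weierstrassP w ^ 3 - L.g₂ * L.weierstrassP w) L.g₃
    have a5 := norm_sub_le (4 * L.weierstrassP w ^ 3) (L.g₂ * L.weierstrassP w)
    linarith
  refine (pow_le_pow_iff_left₀ (norm_nonneg _) (by positivity) two_ne_zero).1 (e.trans ?_)
  rw [mul_pow, ← pow_mul]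
  exact mul_le_mul_of_nonneg_right (le_self_pow₀ (by linarith) two_ne_zero) (by positivity)

/-- the real inequality -/
theorem core {K K₃ Y Λ c B T s x y η ψ : ℝ} {k N a : ℕ} (hK : 0 ≤ K) (hN : 0 < N) (hc : 0 < c)
    (hB : 1 ≤ B) (hT : 0 ≤ T) (hs : 0 ≤ s) (hx0 : 0 ≤ x) (hx : 1 + x ≤ B) (hy0 : 0 ≤ y)
    (hy : y ≤ Y) (hψ : 0 ≤ ψ) (hΛ : 0 ≤ Λ) (hs2 : s ≤ Λ * ψ ^ (a + k * max k 1 + 2 * N))
    (h1 : T ≤ K * (1 + Y + Λ) ^ k * B ^ k) (h2 : T ^ N * η ≤ K * (1 + T + x + y) ^ k * s)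
    (h3 : c ≤ η * B ^ a) (h4 : B * ψ ≤ K₃) :
    T * B ^ 2 ≤ max 1 (K * (1 + K * (1 + Y + Λ) ^ k + Y) ^ k * Λ *
      K₃ ^ (a + k * max k 1 + 2 * N) / c) := by
  have hY : 0 ≤ Y := hy0.trans hy
  set K₄ := K * (1 + Y + Λ) ^ k with hK₄
  have hK₄0 : 0 ≤ K₄ := by positivity
  have hB0 : 0 ≤ B := by linarith
  have a1 : B ≤ B ^ max k 1 := le_self_pow₀ hB (by omega)
  have a2 : B ^ k ≤ B ^ max k 1 := pow_le_pow_right₀ hB (le_max_left _ _)
  have a3 : 1 + T + x + y ≤ (1 + K₄ + Y) * B ^ max k 1 := by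
    have b1 := mul_le_mul_of_nonneg_left a2 hK₄0
    have b2 := mul_le_mul_of_nonneg_left (hB.trans a1) hY
    linarith
  have a4 : (1 + T + x + y) ^ k ≤ (1 + K₄ + Y) ^ k * B ^ (k * max k 1) := by
    rw [mul_comm k, pow_mul, ← mul_pow]
    exact pow_le_pow_left₀ (by positivity) a3 k
  have a5 : (B * ψ) ^ (a + k * max k 1 + 2 * N) ≤ K₃ ^ (a + k * max k 1 + 2 * N) :=
    pow_le_pow_left₀ (by positivity) h4 _
  have a6 : (T * B ^ 2) ^ N * c ≤ K * (1 + K₄ + Y) ^ k * Λ * K₃ ^ (a + k * max k 1 + 2 * N) := by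
    calc (T * B ^ 2) ^ N * c ≤ (T * B ^ 2) ^ N * (η * B ^ a) :=
          mul_le_mul_of_nonneg_left h3 (by positivity)
      _ = T ^ N * η * B ^ (a + 2 * N) := by ring
      _ ≤ K * (1 + T + x + y) ^ k * s * B ^ (a + 2 * N) :=
          mul_le_mul_of_nonneg_right h2 (by positivity)
      _ ≤ K * ((1 + K₄ + Y) ^ k * B ^ (k * max k 1)) * (Λ * ψ ^ (a + k * max k 1 + 2 * N)) *
            B ^ (a + 2 * N) := by gcongr
      _ = K * (1 + K₄ + Y) ^ k * Λ * (B * ψ) ^ (a + k * max k 1 + 2 * N) := by ring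
      _ ≤ _ := mul_le_mul_of_nonneg_left a5 (by positivity)
  rcases le_total (T * B ^ 2) 1 with h | h
  · exact h.trans (le_max_left _ _)
  · exact ((le_self_pow₀ h hN.ne').trans ((le_div_iff₀ hc).2 a6)).trans (le_max_right _ _)

end ZfP

open ZfP in
theorem sZf (hL : SLowH) : SZf := by
  intro L h H K k N hh hH hK hN
  obtain ⟨a, Bad, hfin, hlow⟩ := hL h H hh hH
  obtain ⟨u₁, hu₁⟩ : ∃ u₁, h.eval u₁ ≠ 0 := by
    by_contra hc
    push Not at hc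
    exact hh (Polynomial.funext (by simpa using hc))
  obtain ⟨K₃, B₁, hψ⟩ := psi_bound h hu₁
  obtain ⟨C, hC, hd⟩ := dwp_bound L
  refine ⟨⟨fun w => (h.eval (L.weierstrassP w) / (L.weierstrassP w - u₁) ^ (h.natDegree + 1)) ^
      (a + k * max k 1 + 2 * N),
    {w | w ∈ L.lattice ∨ L.derivWeierstrassP w = 0 ∨ h.eval (L.weierstrassP w) = 0 ∨
      L.weierstrassP w = u₁}, Bad, fun w => ?_, fun p hp w => ?_, fun w => ?_, fun w hw => ?_,
    hfin, fun y₀ hy₀ => ?_⟩⟩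
  · exact ((mer_poly L.meromorphic_weierstrassP h w).div
      (((L.meromorphic_weierstrassP w).sub (MeromorphicAt.const u₁ w)).pow _)).pow _
  · have e1 : L.weierstrassP (w + p) = L.weierstrassP w := L.weierstrassP_add_coe w ⟨p, hp⟩
    have e2 : L.derivWeierstrassP (w + p) = L.derivWeierstrassP w :=
      L.derivWeierstrassP_add_coe w ⟨p, hp⟩
    refine ⟨by rw [e1], fun hw => ?_⟩
    simp only [mem_ofPred_eq, e1, e2]
    exact hw.imp_left fun h => add_mem h hp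
  · filter_upwards [not_lattice L w, dwp_ne L w, wp_poly L hh w, wp_ne L u₁ w] with z a1 a2 a3 a4
    simp only [mem_ofPred_eq, not_or]
    exact ⟨a1, a2, a3, a4⟩
  · simp only [mem_ofPred_eq, not_or] at hw
    obtain ⟨a1, a2, a3, a4⟩ := hw
    have an := L.analyticOnNhd_weierstrassP w a1
    have ne : (L.weierstrassP w - u₁) ^ (h.natDegree + 1) ≠ 0 := pow_ne_zero _ (sub_ne_zero.2 a4)
    exact ⟨a1, a2, a3, ((an.aeval_polynomial h).fun_div ((an.fun_sub analyticAt_const).fun_pow _)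
      ne).fun_pow _, pow_ne_zero _ (div_ne_zero a3 ne)⟩
  · obtain ⟨ε₀, hε₀, c, hc, B₀, hl⟩ := hlow y₀ hy₀
    refine ⟨ε₀, hε₀, fun Λ => C * max (K * (1 + (‖y₀‖ + ε₀) + Λ) ^ k * max B₀ B₁ ^ (k + 2))
      (max 1 (K * (1 + K * (1 + (‖y₀‖ + ε₀) + Λ) ^ k + (‖y₀‖ + ε₀)) ^ k * Λ *
        K₃ ^ (a + k * max k 1 + 2 * N) / c)), fun Λ w hw v T s hT hs hv hs1 hs2 h1 h2 => ?_⟩
    simp only [mem_ofPred_eq, not_or] at hw
    obtain ⟨a1, -, a3, -⟩ := hw
    set B := Bw h (L.weierstrassP w) with hBdef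
    have hB : 1 ≤ B := one_le_Bw h _
    have hx : 1 + ‖L.weierstrassP w‖ ≤ B := norm_le_Bw h _
    have hΛ : 0 ≤ Λ := hs.trans hs1
    have hy : ‖v‖ ≤ ‖y₀‖ + ε₀ := by linarith [norm_sub_norm_le v y₀]
    have hY : 0 ≤ ‖y₀‖ + ε₀ := by positivity
    have h1' : T ≤ K * (1 + (‖y₀‖ + ε₀) + Λ) ^ k * B ^ k := by
      rw [mul_assoc, ← mul_pow]
      refine h1.trans (mul_le_mul_of_nonneg_left (pow_le_pow_left₀ (by positivity) ?_ k) hK)
      have b1 := mul_le_mul_of_nonneg_left hB hY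
      have b2 := mul_le_mul_of_nonneg_left hB hΛ
      linarith
    refine (mul_le_mul_of_nonneg_left (hd w a1 B hx) hT).trans ?_
    rw [mul_left_comm]
    refine mul_le_mul_of_nonneg_left ?_ hC
    rcases le_total B (max B₀ B₁) with hb | hb
    · refine le_trans ?_ (le_max_left _ _)
      calc T * B ^ 2 ≤ K * (1 + (‖y₀‖ + ε₀) + Λ) ^ k * B ^ k * B ^ 2 := by gcongr
        _ = K * (1 + (‖y₀‖ + ε₀) + Λ) ^ k * B ^ (k + 2) := by ring
        _ ≤ _ := by gcongr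
    · refine le_trans ?_ (le_max_right _ _)
      rw [norm_pow] at hs2
      exact core hK hN hc hB hT hs (norm_nonneg _) hx (norm_nonneg v) hy (norm_nonneg _) hΛ hs2
        h1' h2 (hl _ v a3 ((le_max_left _ _).trans hb) hv) (hψ _ a3 ((le_max_right _ _).trans hb))

end Pool.Agent.P.MP_7ede32_ag.Bnd
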