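import Pool.Agent.P.MP_7ede32_ag.Hod.AllR
import Pool.Agent.P.MP_7ede32_ag.Full.Rep
import Pool.Agent.P.MP_7ede32_ag.Bnd.Rou
import Pool.Agent.P.MP_7ede32_ag.Bnd.Wind0
import Pool.Agent.P.MP_7ede32_ag.Bnd.Tile0
import Pool.Agent.P.MP_7ede32_ag.Bnd.TileS
import Pool.Agent.P.MP_7ede32_ag.Bnd.ExtM
import Pool.Agent.P.MP_7ede32_ag.Bnd.EllAlg
import Pool.Agent.P.MP_7ede32_ag.Bnd.AlgE
import Pool.Agent.P.MP_7ede32_ag.Bnd.Area2
import Pool.Agent.P.MP_7ede32_ag.Bnd.LowH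
import Pool.Agent.P.MP_7ede32_ag.Bnd.Zf
import Pool.Agent.P.MP_7ede32_ag.Bnd.LocDeg
import Pool.Agent.P.MP_7ede32_ag.Bnd.Od
import Pool.Agent.P.MP_7ede32_ag.Bnd.PoB
import Pool.Agent.P.MP_7ede32_ag.Bnd.Simple
import Pool.Agent.P.MP_7ede32_ag.Bnd.FormDeg
import Pool.Agent.P.MP_7ede32_ag.Bnd.GenP
import Pool.Agent.P.MP_7ede32_ag.Bnd.DegB
import Pool.Agent.P.MP_7ede32_ag.Bnd.Sh
import Pool.Agent.P.MP_7ede32_ag.Bnd.ShA
import Pool.Agent.P.MP_7ede32_ag.Bnd.Prt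
import Pool.Agent.P.MP_7ede32_ag.Bnd.Bw
import Pool.Agent.P.MP_7ede32_ag.Bnd.AreaC
import Pool.Agent.P.MP_7ede32_ag.Bnd.TileC
import Pool.Agent.P.MP_7ede32_ag.Bnd.K3b
import Pool.Agent.P.MP_7ede32_ag.Bnd.Core
import Pool.Agent.P.MP_7ede32_ag.Bnd.CovRS
import Pool.Agent.P.MP_7ede32_ag.Bnd.CovN

/-!
Assembly of the steps in the plane and on a Riemann surface.
-/

namespace Pool.Agent.P.MP_7ede32_ag.Bnd

theorem aTileE : STileE := sTileE sTile0 (sTileS sRou (sWind0 Hod.aSig))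

theorem aExtM : SExtM := sExtM Full.sRep

theorem aAlgE : SAlgE := sAlgE sEllAlg

theorem aZf : SZf := sZf sLowH

theorem aOd : SOd := sOd sLocDeg sSumLoc

theorem aPsB : SPsB := sPsB sPoB aOd

theorem aFibC : SFibC := sFibC aOd

theorem aFormDeg : SFormDeg := sFormDeg aOd

theorem aKD : SKD :=
  sKD aFormDeg (sGen0 Hod.aML aOd) (sGenP Hod.aML Hod.aBpf aFormDeg sSimple)

theorem aDegB : SDegB := sDegB sLocDeg sSumLoc

theorem aSheets : SSheets := sSheets2 aDegB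

theorem aBw : SBw := sBw aDegB

theorem aTileC : STileC := sTileC sSh aOd

theorem aK3c : SK3c :=
  sK3c (sK3b (sK3a aTileC aBw aDegB) (sAreaC sArea2) sLam sSimple aBw aDegB) aTileC aDegB

theorem aCoreC : SCoreC :=
  sCoreC (sK2 aBw aOd aDegB) aK3c aSheets (sPrt sSh aDegB) aBw aOd aDegB

theorem aCovN : SCovN := sCovN aDegB

end Pool.Agent.P.MP_7ede32_ag.Bnd
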