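import Pool.Agent.P.MP_7ede32_ag.Full.StA

/-!
Regular symmetric differentials on the generic fibre: definitions and steps.
-/

open scoped WithZero IntermediateField Polynomial
open WithZero Polynomial

noncomputable section

namespace Pool.Agent.P.MP_7ede32_ag.Bnd

open Full

section defs

variable (k : Type) {F : Type} [Field k] [Field F] [Algebra k F]

/-- a place of `F` over `k` -/
def IsPl (O : ValuationSubring F) : Prop := O ≠ ⊤ ∧ ∀ c, algebraMap k F c ∈ O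

variable {k}

/-- `y` is a local coordinate at `O` -/
def CoO (d : Der F) (O : ValuationSubring F) (y : F) : Prop :=
  y ∈ O ∧ d.D y ≠ 0 ∧ ∀ z ∈ O, d.D z / d.D y ∈ O

/-- the total derivative of `z` along a curve of slope `X` -/
def Dp (d δ : Der F) (z : F) : F[X] := C (δ.D z) + X * C (d.D z)

/-- `η` as a polynomial in the total derivative of `y` -/
def sb (d δ : Der F) (η : F[X]) (y : F) : F[X] := η.comp (C (d.D y)⁻¹ * (X - C (δ.D y)))

/-- the coefficients of `η` and `χ η` in the coordinate `y` lie in `O` -/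
def RgO (d δ : Der F) (χ : F) (η : F[X]) (O : ValuationSubring F) (y : F) : Prop :=
  ∀ j, (sb d δ η y).coeff j ∈ O ∧ χ * (sb d δ η y).coeff j ∈ O

/-- in the coordinate `y` the polynomial `η` is monic up to a factor, which is a unit if `χ` is
regular -/
def Mon (d δ : Der F) (χ : F) (η : F[X]) (O : ValuationSubring F) (y : F) : Prop :=
  0 < η.natDegree ∧ (∀ j, (sb d δ η y).coeff j / (sb d δ η y).leadingCoeff ∈ O) ∧
    (χ ∈ O → ((sb d δ η y).leadingCoeff)⁻¹ ∈ O)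

variable (k)

/-- regular symmetric differentials that vanish at the poles of `χ` -/
def RR (d δ : Der F) (χ : F) : Set F[X] :=
  {η | ∀ O, IsPl k O → ∀ y, CoO d O y → RgO d δ χ η O y}

/-- the derivation `δ + θ d` has no poles -/
def RgT (d δ : Der F) (θ : F) : Prop :=
  ∀ O, IsPl k O → ∀ y, CoO d O y → δ.D y + θ * d.D y ∈ O

variable (F)

/-- a function field with two derivations and a positive canonical divisor -/
structure FD where
  d : Der F
  δ : Der F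
  x : F
  a : F
  μ : ℕ
  cf : FF.IsCurveField k F
  std : Std k d x
  pres : Pres k δ
  δx : δ.D x = 0
  a_ne : a ≠ 0
  μ_pos : 0 < μ
  reg : Reg k x a μ

/-- the same, with a field of definition `M` -/
structure AD (M : Type) [Field M] [CharZero F] [Algebra M F] extends FD k F where
  d₀ : Der M
  δ₀ : Der M
  x₀ : M
  K₀ : Subfield M
  hd : ∀ z, algebraMap M F (d₀.D z) = d.D (algebraMap M F z)
  hδ : ∀ z, algebraMap M F (δ₀.D z) = δ.D (algebraMap M F z)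
  hx : algebraMap M F x₀ = x
  const : ∀ z ∈ K₀, ∃ c, algebraMap M F z = algebraMap k F c
  alg : ∀ c, algebraMap k F c ∈ acl (algebraMap M F '' (K₀ : Set M))
  gen : Subfield.closure (Set.range (algebraMap k F) ∪ Set.range (algebraMap M F)) = ⊤

variable {k F}

/-- the regular differentials that are defined over `M` -/
def AD.R₀ {M : Type} [Field M] [CharZero F] [Algebra M F] (A : AD k F M) (χ : M) : Set M[X] :=
  {η | η.map (algebraMap M F) ∈ RR k A.d A.δ (algebraMap M F χ)}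

/-- the generators of the coordinate ring of a chart -/
def gP {M : Type} [Field M] (d δ : Der M) (s : Finset M) (ε : s → Bool) (α : s) : Set M[X] :=
  (Set.range fun β : s => C (sg (ε β) (β : M))) ∪
    (Set.range fun β : s => C (sg' (ε β) (β : M) (d.D β) / sg' (ε α) (α : M) (d.D α))) ∪
    {Dp d δ (sg (ε α) (α : M))}

/-- the algebraic certificate -/
structure CB {M : Type} [Field M] (K₀ : Subfield M) (d δ : Der M) where
  χ : M
  R : Set M[X]
  s : Finset M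
  N : ℕ
  dχ : d.D χ ≠ 0
  ne : s.Nonempty
  hs : ∀ y ∈ s, y ≠ 0 ∧ d.D y ≠ 0
  N_pos : 0 < N
  i1 : ∀ Y ∈ R, ∀ ε α, IsIntegral (Subring.closure (C '' (K₀ : Set M) ∪ gP d δ s ε α)) Y ∧
    IsIntegral (Subring.closure (C '' (K₀ : Set M) ∪ gP d δ s ε α)) (C χ * Y)
  i2 : IsIntegral (Subring.closure (C '' (K₀ : Set M) ∪ insert (C χ) R)) (Dp d δ χ)
  i3 : Dp d δ χ ^ N ∈ Ideal.span R

lemma sb_comp (d δ : Der F) (η : F[X]) {y : F} (hy : d.D y ≠ 0) :
    (sb d δ η y).comp (Dp d δ y) = η := by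
  have : (C (d.D y)⁻¹ * (X - C (δ.D y))).comp (Dp d δ y) = X := by
    rw [mul_comp, sub_comp, C_comp, C_comp, X_comp, Dp, add_sub_cancel_left, mul_comm X,
      ← mul_assoc, ← C_mul, inv_mul_cancel₀ hy, C_1, one_mul]
  rw [sb, comp_assoc, this, comp_X]

lemma sb_add (d δ : Der F) (η η' : F[X]) (y : F) :
    sb d δ (η + η') y = sb d δ η y + sb d δ η' y := add_comp

lemma sb_mul (d δ : Der F) (η η' : F[X]) (y : F) :
    sb d δ (η * η') y = sb d δ η y * sb d δ η' y := mul_comp _ _ _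

lemma RR.zero (d δ : Der F) (χ : F) : 0 ∈ RR k d δ χ := fun O _ y _ j => by
  simp [sb]

lemma RR.add {d δ : Der F} {χ : F} {η η' : F[X]} (h : η ∈ RR k d δ χ) (h' : η' ∈ RR k d δ χ) :
    η + η' ∈ RR k d δ χ := fun O hO y hy j => by
  rw [sb_add, coeff_add, mul_add]
  exact ⟨add_mem (h O hO y hy j).1 (h' O hO y hy j).1, add_mem (h O hO y hy j).2 (h' O hO y hy j).2⟩

lemma RR.neg {d δ : Der F} {χ : F} {η : F[X]} (h : η ∈ RR k d δ χ) : -η ∈ RR k d δ χ :=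
  fun O hO y hy j => by
    rw [sb, neg_comp, coeff_neg, mul_neg]
    exact ⟨neg_mem (h O hO y hy j).1, neg_mem (h O hO y hy j).2⟩

lemma RR.mul {d δ : Der F} {χ : F} {η η' : F[X]} (h : η ∈ RR k d δ χ) (h' : η' ∈ RR k d δ χ) :
    η * η' ∈ RR k d δ χ := fun O hO y hy j => by
  rw [sb_mul, coeff_mul, Finset.mul_sum]
  refine ⟨sum_mem fun p _ => mul_mem (h O hO y hy _).1 (h' O hO y hy _).1, sum_mem fun p _ => ?_⟩
  rw [← mul_assoc]
  exact mul_mem (h O hO y hy _).2 (h' O hO y hy _).1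

lemma coO_iff {d : Der F} (w : Valuation F ℤᵐ⁰) {y : F} :
    CoO d w.valuationSubring y ↔ Coord d w y := by
  refine and_congr Iff.rfl (and_congr_right fun h => forall_congr' fun z => imp_congr Iff.rfl ?_)
  rw [Valuation.mem_valuationSubring_iff, map_div₀,
    div_le_one₀ (zero_lt_iff.2 (w.ne_zero_iff.2 h))]

lemma isPl_v (𝒞 : FC k F) (P : 𝒞.Pl) : IsPl k (𝒞.v P).valuationSubring :=
  ⟨𝒞.ne_top P, 𝒞.const P⟩

end defs

/-- The true genus. -/
def SGen : Prop :=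
  ∀ (k F : Type) [Field k] [Field F] [Algebra k F] (𝒞 : FC k F), ∃ g N : ℤ, ∀ D : 𝒞.Pl →₀ ℤ,
    D.degree + 1 - g ≤ Module.finrank k (𝒞.toCurve.L D) ∧
      (N ≤ D.degree → (Module.finrank k (𝒞.toCurve.L D) : ℤ) = D.degree + 1 - g)

/-- The canonical divisor, and coordinates that are equal to `x` almost everywhere. -/
def SKap : Prop :=
  ∀ (k F : Type) [Field k] [IsAlgClosed k] [CharZero k] [Field F] [Algebra k F] (A : FD k F)
    (𝒞 : FC k F), ∃ (κ γ : 𝒞.Pl →₀ ℤ) (y : 𝒞.Pl → F), 1 ≤ κ.degree ∧ ∀ P, 0 ≤ γ P ∧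
      Coord A.d (𝒞.v P) (y P) ∧ 𝒞.v P (A.d.D (y P)) = exp (κ P) ∧ 𝒞.v P (A.δ.D (y P)) ≤ exp (γ P)

/-- There are places, and coordinates at every place; negative divisors have no sections. -/
def SNeg : Prop :=
  ∀ (k F : Type) [Field k] [IsAlgClosed k] [CharZero k] [Field F] [Algebra k F] (A : FD k F),
    (∃ O : ValuationSubring F, IsPl k O) ∧ (∀ O, IsPl k O → ∃ y, CoO A.d O y) ∧
    ∀ (z : F) (j : ℕ), 0 < j → (∀ O, IsPl k O → ∀ y, CoO A.d O y → z * A.d.D y ^ j ∈ O) → z = 0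

/-- The dimension count. -/
def SCnt2 : Prop :=
  ∀ (k F : Type) [Field k] [Field F] [Algebra k F] (𝒞 : FC k F) (κ γ e : 𝒞.Pl →₀ ℤ)
    (u b : 𝒞.Pl → F) (g : ℤ) (m : ℕ), (∀ P, 0 ≤ γ P) → (∀ P, 𝒞.v P (u P) ≤ exp (-κ P)) →
    (∀ P, 𝒞.v P (b P) ≤ exp (γ P)) →
    (∀ D : 𝒞.Pl →₀ ℤ, D.degree + 1 - g ≤ Module.finrank k (𝒞.toCurve.L D)) →
    ∃ V : Submodule k (Fin (m + 1) → F), FiniteDimensional k V ∧
      ∑ i ∈ Finset.range (m + 1), (i * κ.degree - e.degree + 1 - g) ≤ Module.finrank k V ∧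
      ∀ c ∈ V, ∀ P j, 𝒞.v P (((∑ i : Fin (m + 1), monomial i (c i)).comp
        (C (u P) * (X - C (b P)))).coeff j) ≤ exp (-e P)

/-- The leading coefficient can be given the exact order at a place. -/
def SSurj : Prop :=
  ∀ (k F : Type) [Field k] [Field F] [Algebra k F] (𝒞 : FC k F) (κ γ e : 𝒞.Pl →₀ ℤ)
    (u b : 𝒞.Pl → F), 1 ≤ κ.degree → (∀ P, 0 ≤ γ P) → (∀ P, 𝒞.v P (u P) = exp (-κ P)) →
    (∀ P, 𝒞.v P (b P) ≤ exp (γ P)) → ∀ P₀, ∃ η : F[X], 0 < η.natDegree ∧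
      (∀ P j, 𝒞.v P ((η.comp (C (u P) * (X - C (b P)))).coeff j) ≤ exp (-e P)) ∧
      𝒞.v P₀ (η.comp (C (u P₀) * (X - C (b P₀)))).leadingCoeff = exp (-e P₀)

/-- Change of the coordinate. -/
def SCoord : Prop :=
  ∀ (k F : Type) [Field k] [IsAlgClosed k] [CharZero k] [Field F] [Algebra k F] (A : FD k F)
    (O : ValuationSubring F) (y : F), IsPl k O → CoO A.d O y →
    (∀ z ∈ O, A.δ.D z - A.δ.D y * (A.d.D z / A.d.D y) ∈ O) ∧
    ∀ (y' χ : F) (η : F[X]), CoO A.d O y' →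
      (RgO A.d A.δ χ η O y → RgO A.d A.δ χ η O y') ∧ (Mon A.d A.δ χ η O y → Mon A.d A.δ χ η O y')

/-- At every place there is a monic regular differential. -/
def SMon : Prop :=
  ∀ (k F : Type) [Field k] [IsAlgClosed k] [CharZero k] [Field F] [Algebra k F] (A : FD k F)
    (χ : F), χ ≠ 0 → ∀ O, IsPl k O → ∃ η ∈ RR k A.d A.δ χ, ∀ y, CoO A.d O y → Mon A.d A.δ χ η O y

/-- The greatest common divisor of the regular differentials. -/
def SGcd : Prop :=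
  ∀ (k F : Type) [Field k] [IsAlgClosed k] [CharZero k] [Field F] [Algebra k F] (A : FD k F),
    (∀ χ, χ ≠ 0 → (1 : F[X]) ∈ Ideal.span (RR k A.d A.δ χ) ∨ ∃ (θ : F) (l : ℕ),
      RgT k A.d A.δ θ ∧ (X - C θ) ^ l ∈ Ideal.span (RR k A.d A.δ χ)) ∧
    ∀ θ θ', RgT k A.d A.δ θ → RgT k A.d A.δ θ' → θ = θ'

/-- The Galois group. -/
def SGal : Prop :=
  ∀ (k F M : Type) [Field k] [IsAlgClosed k] [CharZero k] [Field F] [CharZero F] [Algebra k F]
    [Field M] [Algebra M F] (A : AD k F M), IsGalois M F ∧ ∀ σ : F ≃ₐ[M] F,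
      (∀ c, ∃ c', σ (algebraMap k F c) = algebraMap k F c') ∧
      (∀ z, σ (A.d.D z) = A.d.D (σ z)) ∧ ∀ z, σ (A.δ.D z) = A.δ.D (σ z)

/-- Descent to the field of definition. -/
def SDsc : Prop :=
  ∀ (k F M : Type) [Field k] [IsAlgClosed k] [CharZero k] [Field F] [CharZero F] [Algebra k F]
    [Field M] [Algebra M F] (A : AD k F M),
    (∀ χ : M, ∀ η ∈ RR k A.d A.δ (algebraMap M F χ), ∃ (N : ℕ) (c : ℕ → M[X]), 0 < N ∧
      (∀ j, c j ∈ A.R₀ χ) ∧
      η ^ N + ∑ j ∈ Finset.range N, (c j).map (algebraMap M F) * η ^ j = 0) ∧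
    ∀ θ, RgT k A.d A.δ θ → ∃ θ₀, algebraMap M F θ₀ = θ

/-- A first integral in the field of definition. -/
def SFi2 : Prop :=
  ∀ (k F M : Type) [Field k] [IsAlgClosed k] [CharZero k] [Field F] [CharZero F] [Algebra k F]
    [Field M] [Algebra M F] (A : AD k F M) (θ : M), RgT k A.d A.δ (algebraMap M F θ) →
    ∃ r : M, A.d₀.D r ≠ 0 ∧ A.δ₀.D r + θ * A.d₀.D r = 0

/-- A power of the total derivative lies in the ideal. -/
def SI3 : Prop :=
  ∀ (k F M : Type) [Field k] [IsAlgClosed k] [CharZero k] [Field F] [CharZero F] [Algebra k F]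
    [Field M] [Algebra M F] (A : AD k F M), ∃ (χ : M) (N : ℕ), A.d₀.D χ ≠ 0 ∧ 0 < N ∧
      Dp A.d₀ A.δ₀ χ ^ N ∈ Ideal.span (A.R₀ χ)

/-- Integrality from valuation rings, and bounds on roots. -/
def SIntP : Prop :=
  (∀ (R Ω : Type) [CommRing R] [Field Ω] (j : R →+* Ω), Function.Injective j →
    ∀ (s : Set R) (z : R), (∀ O : ValuationSubring Ω, (∀ u ∈ s, j u ∈ O) → j z ∈ O) →
      IsIntegral (Subring.closure s) z) ∧
  ∀ (F Ω : Type) [Field F] [Field Ω] (j : F →+* Ω) (O : ValuationSubring Ω) (η : F[X]) (t : Ω),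
    ((∀ i, j (η.coeff i) ∈ O) → t ∈ O → η.eval₂ j t ∈ O) ∧
    (0 < η.natDegree → (∀ i, j (η.coeff i / η.leadingCoeff) ∈ O) → j η.leadingCoeff⁻¹ ∈ O →
      η.eval₂ j t ∈ O → t ∈ O)

/-- Regular differentials are integral on the charts. -/
def SI1 : Prop :=
  ∀ (k F M : Type) [Field k] [IsAlgClosed k] [CharZero k] [Field F] [CharZero F] [Algebra k F]
    [Field M] [Algebra M F] (A : AD k F M), ∃ s : Finset M, s.Nonempty ∧
      (∀ y ∈ s, y ≠ 0 ∧ A.d₀.D y ≠ 0) ∧ ∀ χ, ∀ Y ∈ A.R₀ χ, ∀ ε α,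
        IsIntegral (Subring.closure (C '' (A.K₀ : Set M) ∪ gP A.d₀ A.δ₀ s ε α)) Y ∧
        IsIntegral (Subring.closure (C '' (A.K₀ : Set M) ∪ gP A.d₀ A.δ₀ s ε α)) (C χ * Y)

/-- The total derivative is integral over the regular differentials. -/
def SI2 : Prop :=
  ∀ (k F M : Type) [Field k] [IsAlgClosed k] [CharZero k] [Field F] [CharZero F] [Algebra k F]
    [Field M] [Algebra M F] (A : AD k F M) (χ : M), χ ≠ 0 →
      IsIntegral (Subring.closure (C '' (A.K₀ : Set M) ∪ insert (C χ) (A.R₀ χ))) (Dp A.d₀ A.δ₀ χ)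

/-- The algebraic certificate exists. -/
def SCB : Prop :=
  ∀ (k F M : Type) [Field k] [IsAlgClosed k] [CharZero k] [Field F] [CharZero F] [Algebra k F]
    [Field M] [Algebra M F] (A : AD k F M), Nonempty (CB A.K₀ A.d₀ A.δ₀)

theorem sCB (h1 : SI1) (h2 : SI2) (h3 : SI3) : SCB := by
  intro k F M _ _ _ _ _ _ _ _ A
  obtain ⟨s, a1, a2, a3⟩ := h1 k F M A
  obtain ⟨χ, N, b1, b2, b3⟩ := h3 k F M A
  exact ⟨⟨χ, A.R₀ χ, s, N, b1, a1, a2, b2, a3 χ,
    h2 k F M A χ fun h => b1 (by rw [h, A.d₀.D_zero]), b3⟩⟩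

/-- Regularity passes to an extension of the constants. -/
def SRegUp2 : Prop :=
  ∀ (k F k' F' : Type) [Field k] [CharZero k] [Field F] [Algebra k F] [Field k'] [Field F']
    [Algebra k' F'] (i : F →+* F') (x a : F) (μ : ℕ), Transcendental k x →
    Algebra.IsAlgebraic k⟮x⟯ F → (∀ c, ∃ c', i (algebraMap k F c) = algebraMap k' F' c') →
    Reg k x a μ → Reg k' (i x) (i a) μ

/-- Algebraic dependence by exchange. -/
def SDep : Prop :=
  ∀ (M : Type) [Field M] [CharZero M] [Algebra ℂ M] (u x χ z : M) (d : Der M),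
    (∀ c, d.D (algebraMap ℂ M c) = 0) → d.D u = 0 → d.D χ ≠ 0 →
    (∀ P : MvPolynomial (Fin 2) ℂ, MvPolynomial.aeval ![u, x] P = 0 → P = 0) →
    (∀ w : M, w ∈ acl (insert x (insert u (Set.range (algebraMap ℂ M))))) →
    (∀ P : MvPolynomial (Fin 2) ℂ, MvPolynomial.aeval ![u, χ] P = 0 → P = 0) ∧
    ∃ P : MvPolynomial (Fin 3) ℂ, P ≠ 0 ∧ MvPolynomial.aeval ![u, χ, z] P = 0

/-- A bound for the roots of a polynomial. -/
def SLead : Prop :=
  ∀ P : MvPolynomial (Fin 3) ℂ, P ≠ 0 → ∃ (H : MvPolynomial (Fin 2) ℂ) (K : ℝ) (k : ℕ), H ≠ 0 ∧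
    0 ≤ K ∧ ∀ a b c : ℂ, MvPolynomial.eval ![a, b, c] P = 0 →
      ‖c‖ * ‖MvPolynomial.eval ![a, b] H‖ ≤ K * (1 + ‖a‖ + ‖b‖) ^ k

/-- `ev` is eventually a ring homomorphism -/
structure EH {R α : Type} [CommRing R] (l : Filter α) (ev : R → α → ℂ) : Prop where
  add : ∀ a b, ∀ᶠ p in l, ev (a + b) p = ev a p + ev b p
  mul : ∀ a b, ∀ᶠ p in l, ev (a * b) p = ev a p * ev b p
  one : ∀ᶠ p in l, ev 1 p = 1

/-- the value of a polynomial at a point and a slope -/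
def evP {M α : Type} [Field M] (r : M → α → ℂ) (η : M[X]) (p : α × ℂ) : ℂ :=
  ∑ j ∈ Finset.range (η.natDegree + 1), r (η.coeff j) p.1 * p.2 ^ j

/-- Polynomial bounds for integral elements. -/
def SBdI : Prop :=
  ∀ (R α : Type) [CommRing R] (l : Filter α) (ev : R → α → ℂ), EH l ev → ∀ (A : Set R) (z : R),
    IsIntegral (Subring.closure A) z → ∃ (s : Finset R) (K : ℝ) (k : ℕ), (s : Set R) ⊆ A ∧ 0 ≤ K ∧
      ∀ᶠ p in l, ‖ev z p‖ ≤ K * (1 + ∑ a ∈ s, ‖ev a p‖) ^ k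

/-- Evaluation of polynomials. -/
def SEvP : Prop :=
  ∀ (M α : Type) [Field M] [Algebra ℂ M] (l : Filter α) (r : M → α → ℂ), EH l r →
    (∀ c, ∀ᶠ p in l, r (algebraMap ℂ M c) p = c) →
    EH (l.comap Prod.fst) (evP r) ∧ (∀ z, ∀ᶠ p in l.comap Prod.fst, evP r (C z) p = r z p.1) ∧
    (∀ᶠ p in l.comap Prod.fst, evP r X p = p.2) ∧
    (∀ z, z ≠ 0 → ∀ᶠ p in l, r z p ≠ 0 ∧ r z⁻¹ p = (r z p)⁻¹) ∧
    ∀ (σ : Type) (v : σ → M) (P : MvPolynomial σ ℂ), ∀ᶠ p in l,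
      r (MvPolynomial.aeval v P) p = MvPolynomial.eval (fun i => r (v i) p) P

/-- Bounds for rational functions of `u`. -/
def SBdK : Prop :=
  ∀ (M α : Type) [Field M] [Algebra ℂ M] (l : Filter α) (r : M → α → ℂ), EH l r →
    (∀ c, ∀ᶠ p in l, r (algebraMap ℂ M c) p = c) →
    ∀ (u : M) (s : Finset M), (∀ P : ℂ[X], aeval u P = 0 → P = 0) →
      (∀ z ∈ s, z ∈ Subfield.closure (insert u (Set.range (algebraMap ℂ M)))) →
      ∃ (h : ℂ[X]) (K : ℝ) (k : ℕ), h ≠ 0 ∧ 0 ≤ K ∧ ∀ᶠ p in l, h.eval (r u p) ≠ 0 ∧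
        ∑ z ∈ s, ‖r z p‖ ≤ K * (1 + ‖r u p‖ + ‖h.eval (r u p)‖⁻¹) ^ k

end Pool.Agent.P.MP_7ede32_ag.Bnd
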