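import Pool.Agent.P.MP_7ede32_ag.Full.StB
import Pool.Agent.P.MP_7ede32_ag.Hod.StB

/-!
The steps in the complex plane: definitions and propositions.
-/

open Filter Topology Metric Set MeasureTheory
open scoped Real ENNReal Polynomial

noncomputable section

namespace Pool.Agent.P.MP_7ede32_ag.Bnd

open Full

/-- the order of a meromorphic function -/
def ord (Q : ℂ → ℂ) (w : ℂ) : ℤ := (meromorphicOrderAt Q w).untop₀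

/-- the order of the pole -/
def npo (Q : ℂ → ℂ) (w : ℂ) : ℤ := max (-ord Q w) 0

/-- the annulus -/
def An2 (c : ℂ) (a b : ℝ) : Set ℂ := {w | a < dist w c ∧ dist w c < b}

/-- `e` is holomorphic and periodic on the complement of the small discs -/
def PerOn (L : PeriodPair) (D : Discs) (e : ℂ → ℂ) : Prop :=
  ∀ w ∈ D.Go, AnalyticAt ℂ e w ∧ ∀ p ∈ L.lattice, e (w + p) = e w

/-- a fundamental domain that is adapted to the discs -/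
structure Tile0 (L : PeriodPair) (D : Discs) (P : Set ℂ) (R₀ : ℝ) : Prop where
  per : ∀ p ∈ L.lattice, D.Per p
  uniq : ∀ w, ∃! w', w' ∈ P ∧ w - w' ∈ L.lattice
  sub : P ⊆ closedBall 0 R₀
  meas : MeasurableSet P
  disc : ∀ c ∈ D.C, ∃ p ∈ L.lattice, ball (c + p) (D.r c) ⊆ P

/-- if `Q` is close to `e Θ` then `Q` and `Θ` have the same degree on `P` -/
def TSum (L : PeriodPair) (D : Discs) (P : Set ℂ) (R₀ : ℝ) : Prop :=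
  ∀ Q Θ e : ℂ → ℂ, MeromorphicOn Q (ball 0 (R₀ + 1)) → MeromorphicOn Θ (ball 0 (R₀ + 1)) →
    PerOn L D e → (∀ w ∈ D.Go, e w ≠ 0) →
    (∀ w ∈ ball 0 (R₀ + 1) ∩ D.G (-D.θ), ∀ᶠ w' in 𝓝[≠] w,
      Θ w' ≠ 0 ∧ ‖Q w' - e w' * Θ w'‖ ≤ ‖e w' * Θ w'‖ / 2) →
    (∀ w ∈ ball 0 (R₀ + 1), (∀ᶠ w' in 𝓝[≠] w, Q w' ≠ 0) ∧ ∀ᶠ w' in 𝓝[≠] w, Θ w' ≠ 0) ∧
      ∑ᶠ w ∈ P, ord Q w = ∑ᶠ w ∈ P, ord Θ w

/-- a tile -/
structure Tile (L : PeriodPair) (D : Discs) (P : Set ℂ) (R₀ : ℝ) : Prop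
    extends Tile0 L D P R₀ where
  sum : TSum L D P R₀

/-- the size of `u` relative to the roots of `h` -/
def Bw (h : ℂ[X]) (u : ℂ) : ℝ := 1 + ‖u‖ + ‖h.eval u‖⁻¹

/-- the value of a polynomial in two variables -/
def ev2 (H : MvPolynomial (Fin 2) ℂ) (u v : ℂ) : ℂ := MvPolynomial.eval ![u, v] H

/-- the weight function and the exceptional set -/
structure Zf (L : PeriodPair) (h : ℂ[X]) (H : MvPolynomial (Fin 2) ℂ) (K : ℝ) (k N : ℕ) where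
  Ψ : ℂ → ℂ
  N₀ : Set ℂ
  Bad : Set ℂ
  mer : Meromorphic Ψ
  per : ∀ p ∈ L.lattice, ∀ w, Ψ (w + p) = Ψ w ∧ (w ∈ N₀ → w + p ∈ N₀)
  disc : ∀ w, ∀ᶠ z in 𝓝[≠] w, z ∉ N₀
  off : ∀ w ∉ N₀, w ∉ L.lattice ∧ L.derivWeierstrassP w ≠ 0 ∧ h.eval (L.weierstrassP w) ≠ 0 ∧
    AnalyticAt ℂ Ψ w ∧ Ψ w ≠ 0
  fin : Bad.Finite
  ab : ∀ y₀ ∉ Bad, ∃ ε₀ > 0, ∃ K' : ℝ → ℝ, ∀ Λ₀, ∀ w ∉ N₀, ∀ (v : ℂ) (T s : ℝ), 0 ≤ T → 0 ≤ s →
    ‖v - y₀‖ ≤ ε₀ → s ≤ Λ₀ → s ≤ Λ₀ * ‖Ψ w‖ →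
    T ≤ K * (Bw h (L.weierstrassP w) + ‖v‖ + s) ^ k →
    T ^ N * ‖ev2 H (L.weierstrassP w) v‖ ≤ K * (1 + T + ‖L.weierstrassP w‖ + ‖v‖) ^ k * s →
    T * ‖L.derivWeierstrassP w‖ ≤ K' Λ₀

/-- Rouche and the argument principle. -/
def SRou : Prop :=
  ∀ (m e : ℂ → ℂ) (c : ℂ) (r θ : ℝ), 0 < θ → θ < r → MeromorphicOn m (ball c r) →
    (∀ w ∈ An2 c (r - θ) r, AnalyticAt ℂ e w ∧ e w ≠ 0 ∧
      ∀ᶠ w' in 𝓝[≠] w, ‖m w' - e w'‖ ≤ ‖e w'‖ / 2) →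
    2 * π * Complex.I * ((∑ᶠ w ∈ ball c r, ord m w : ℤ) : ℂ) =
      ∮ w in C(c, r - θ / 2), logDeriv e w

/-- The contour integrals of a periodic function add up to zero. -/
def SWind0 : Prop :=
  ∀ (L : PeriodPair) (D : Discs) (h : ℂ → ℂ) (J : Finset ℂ), (∀ p ∈ L.lattice, D.Per p) →
    (∀ c ∈ J, c ∈ D.C) → (∀ c ∈ D.C, ∃! c', c' ∈ J ∧ c - c' ∈ L.lattice) → PerOn L D h →
    ∑ c ∈ J, ∮ w in C(c, D.r c - D.θ / 2), h w = 0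

/-- Adapted fundamental domains exist. -/
def STile0 : Prop :=
  ∀ (L : PeriodPair) (D : Discs), (∀ p ∈ L.lattice, D.Per p) → ∃ P R₀, Tile0 L D P R₀

/-- The degree on a tile. -/
def STileS : Prop := ∀ (L : PeriodPair) (D : Discs) (P : Set ℂ) (R₀ : ℝ),
  Tile0 L D P R₀ → TSum L D P R₀

/-- Tiles exist. -/
def STileE : Prop :=
  ∀ (L : PeriodPair) (D : Discs), (∀ p ∈ L.lattice, D.Per p) → ∃ P R₀, Tile L D P R₀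

theorem sTileE (h1 : STile0) (h2 : STileS) : STileE := fun L D h =>
  let ⟨P, R₀, a⟩ := h1 L D h
  ⟨P, R₀, a, h2 L D P R₀ a⟩

/-- Limits of meromorphic functions with a bounded number of poles. -/
def SExtM : Prop :=
  ∀ (e : ℂ → ℂ) (c : ℂ) (r θ : ℝ) (M : ℕ), 0 < θ → θ < r →
    (∀ w ∈ An2 c (r - θ) r, AnalyticAt ℂ e w) →
    (∀ ε > 0, ∃ m, MeromorphicOn m (ball c r) ∧ ∑ᶠ w ∈ ball c r, npo m w ≤ M ∧
      ∀ w ∈ An2 c (r - θ) r, ∀ᶠ w' in 𝓝[≠] w, ‖m w' - e w'‖ ≤ ε) →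
    ∃ m, MeromorphicOn m (ball c r) ∧ EqOn m e (An2 c (r - θ) r)

/-- A meromorphic function that is periodic for a sublattice is algebraic over the Weierstrass
function. -/
def SEllAlg : Prop :=
  ∀ (L L' : PeriodPair) (f : ℂ → ℂ), L'.lattice ≤ L.lattice → Meromorphic f →
    (∀ p ∈ L'.lattice, ∀ᶠ w in codiscrete ℂ, f (w + p) = f w) →
    ∃ H : MvPolynomial (Fin 2) ℂ, H ≠ 0 ∧
      ∀ᶠ w in codiscrete ℂ, ev2 H (L.weierstrassP w) (f w) = 0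

/-- The same for a function that extends over the discs. -/
def SAlgE : Prop :=
  ∀ (L L' : PeriodPair) (D : Discs) (e : ℂ → ℂ), L'.lattice ≤ L.lattice →
    (∀ p ∈ L'.lattice, D.Per p) → PerOn L' D e →
    (∀ c ∈ D.C, ∃ p ∈ L'.lattice, ∃ m, MeromorphicOn m (ball (c + p) (D.r c)) ∧
      EqOn m e (An2 (c + p) (D.r c - D.θ) (D.r c))) →
    ∃ H : MvPolynomial (Fin 2) ℂ, H ≠ 0 ∧
      ∀ w ∈ D.G 0, ∀ᶠ w' in 𝓝[≠] w, ev2 H (L.weierstrassP w') (e w') = 0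

/-- The area formula. -/
def SArea2 : Prop :=
  ∀ (W : Set ℂ) (g : ℂ → ℂ), MeasurableSet W → (∀ v ∈ W, AnalyticAt ℂ g v ∧ deriv g v ≠ 0) →
    Measurable (fun y => ({v | v ∈ W ∧ g v = y}.encard : ℝ≥0∞)) ∧
      ∫⁻ y, ({v | v ∈ W ∧ g v = y}.encard : ℝ≥0∞) = ∫⁻ v in W, ENNReal.ofReal (‖deriv g v‖ ^ 2)

/-- Uniformity on a periodic closed set. -/
def SUni : Prop :=
  ∀ (Λ : Submodule ℤ ℂ) (R₀ : ℝ) (K : Set ℂ) (Φ : ℝ → ℂ → Prop), Net Λ R₀ → IsClosed K →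
    (∀ p ∈ Λ, ∀ w ∈ K, w + p ∈ K ∧ ∀ η, Φ η (w + p) → Φ η w) →
    (∀ η η' w, 0 < η' → η' ≤ η → Φ η w → Φ η' w) →
    (∀ w ∈ K, ∃ η > 0, ∀ᶠ w' in 𝓝 w, Φ η w') → ∃ η > 0, ∀ w ∈ K, Φ η w

/-- A lower bound for a polynomial near the roots of `h` and near infinity. -/
def SLowH : Prop :=
  ∀ (h : ℂ[X]) (H : MvPolynomial (Fin 2) ℂ), h ≠ 0 → H ≠ 0 → ∃ (a : ℕ) (Bad : Set ℂ), Bad.Finite ∧
    ∀ y₀ ∉ Bad, ∃ ε₀ > 0, ∃ c > 0, ∃ B₀ : ℝ, ∀ u v : ℂ, h.eval u ≠ 0 → B₀ ≤ Bw h u →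
      ‖v - y₀‖ ≤ ε₀ → c ≤ ‖ev2 H u v‖ * Bw h u ^ a

/-- The weight function exists. -/
def SZf : Prop :=
  ∀ (L : PeriodPair) (h : ℂ[X]) (H : MvPolynomial (Fin 2) ℂ) (K : ℝ) (k N : ℕ), h ≠ 0 → H ≠ 0 →
    0 ≤ K → 0 < N → Nonempty (Zf L h H K k N)

/-- The complement of separated discs is connected. -/
def SConn : Prop :=
  ∀ (B : Set ℂ) (δ : ℝ), 0 < δ → (∀ c ∈ B, ∀ c' ∈ B, c ≠ c' → 4 * δ ≤ dist c c') →
    IsPreconnected {w | ∀ c ∈ B, δ / 2 < dist w c}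

theorem sUni : SUni := by
  intro Λ R₀ K Φ hN hK hp hm hl
  have hc : IsCompact (K ∩ closedBall 0 R₀) := (isCompact_closedBall 0 R₀).inter_left hK
  obtain ⟨η, h3, h2⟩ : ∃ η > 0, ∀ w ∈ K ∩ closedBall 0 R₀, Φ η w := by
    refine hc.induction_on (p := fun t => ∃ η > 0, ∀ w ∈ t, Φ η w) ⟨1, one_pos, fun _ h => h.elim⟩
      (fun s t h ⟨η, a1, a2⟩ => ⟨η, a1, fun w hw => a2 w (h hw)⟩)
      (fun s t ⟨η, a1, a2⟩ ⟨η', b1, b2⟩ => ⟨min η η', lt_min a1 b1, fun w hw => hw.elim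
        (fun h => hm _ _ _ (lt_min a1 b1) (min_le_left _ _) (a2 w h))
        fun h => hm _ _ _ (lt_min a1 b1) (min_le_right _ _) (b2 w h)⟩) fun w hw => ?_
    obtain ⟨η, a1, a2⟩ := hl w hw.1
    exact ⟨_, mem_nhdsWithin_of_mem_nhds a2, η, a1, fun _ h => h⟩
  refine ⟨η, h3, fun w hw => ?_⟩
  obtain ⟨p, h4, h5⟩ := hN w
  have h6 := hp (-p) (Λ.neg_mem h4) w hw
  exact h6.2 η (h2 _ ⟨h6.1, by simpa [dist_eq_norm, sub_eq_add_neg] using h5⟩)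

end Pool.Agent.P.MP_7ede32_ag.Bnd
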