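import Pool.Agent.P.MP_7ede32_ag.Bnd.DP
import Pool.Agent.P.MP_5d7cf0_gt.T.RS

/-!
The steps on a compact Riemann surface: definitions and propositions.
-/

open Filter Topology Metric Set Function

noncomputable section

namespace Pool.Agent.P.MP_7ede32_ag.Bnd

open Full
open MP_5d7cf0_gt.T (RS zc loc An Hf Om Hol)
open MP_5d7cf0_gt.T renaming D → Dc

section defs

variable {C : Type} [TopologicalSpace C] [ChartedSpace ℂ C] {L : PeriodPair}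

/-- `u` is meromorphic at `c` -/
def Mr (u : C → ℂ) (c : C) : Prop := MeromorphicAt (loc u c) (zc c c)

/-- the order -/
def od (u : C → ℂ) (c : C) : ℤ := ord (loc u c) (zc c c)

/-- the order of the zero -/
def ze (u : C → ℂ) (c : C) : ℤ := max (od u c) 0

/-- the order of the pole -/
def po (u : C → ℂ) (c : C) : ℤ := max (-od u c) 0

/-- meromorphic functions -/
def Me (u : C → ℂ) : Prop := ∀ c, Mr u c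

/-- `u` has finitely many zeros -/
def Nz {C : Type} (u : C → ℂ) : Prop := ∀ᶠ c in cofinite, u c ≠ 0

/-- the coefficient of the form `w` in the chart at `c` -/
def fm (w : C → ℂ) (c : C) : C → ℂ := fun y => w y / Dc (zc c) y

/-- meromorphic forms -/
def MeF (w : C → ℂ) : Prop := ∀ c, Mr (fm w c) c

/-- the order of a form -/
def odf (w : C → ℂ) (c : C) : ℤ := od (fm w c) c

/-- finite support -/
def Fs {C : Type} (f : C → ℤ) : Prop := (support f).Finite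

/-- a holomorphic map to the torus that is not constant -/
structure Bc (L : PeriodPair) (C : Type) [TopologicalSpace C] [ChartedSpace ℂ C] where
  φ : C → ℂ ⧸ L.lattice
  l : C → C → ℂ
  an : ∀ c, An (l c) c
  lift : ∀ c, ∀ᶠ y in 𝓝 c, φ y = L.lattice.mkQ (l c y)
  nc : ∀ c, ¬ ∀ᶠ y in 𝓝 c, l c y = l c c

namespace Bc

variable (B : Bc L C)

/-- the local degree -/
def e (c : C) : ℤ := od (fun y => B.l c y - B.l c c) c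

/-- the differential -/
def w (c : C) : ℂ := Dc (B.l c) c

/-- the ramification -/
def ρ : ℤ := ∑ᶠ c, (B.e c - 1)

/-- the fibre -/
def Fb (z : ℂ) : Set C := {c | B.φ c = L.lattice.mkQ z}

/-- the degree -/
def n : ℤ := ∑ᶠ c ∈ B.Fb 0, B.e c

/-- the pull-back of a periodic function -/
def pb (m : ℂ → ℂ) (c : C) : ℂ := m (B.l c c)

open Classical in
/-- the weight of a point -/
def bw (N₀ : Set ℂ) (c : C) : ℤ := (if B.l c c ∈ N₀ then B.e c else 0) + B.e c - 1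

/-- an inverse branch over `O` -/
def Sheet (O : Set ℂ) (g : ℂ → C) : Prop :=
  ∀ z ∈ O, ContinuousAt g z ∧ g z ∈ B.Fb z ∧ B.w (g z) ≠ 0

/-- degree and ramification -/
structure Deg : Prop where
  one_le : ∀ c, 1 ≤ B.e c
  e_iff : ∀ c, B.e c = 1 ↔ B.w c ≠ 0
  om : B.w ∈ Om C
  nz : Nz B.w
  odf : ∀ c, odf B.w c = B.e c - 1
  fs : Fs fun c => B.e c - 1
  fin : ∀ z, (B.Fb z).Finite
  sum : ∀ z, ∑ᶠ c ∈ B.Fb z, B.e c = B.n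
  pos : 1 ≤ B.n

/-- functions on a sheet -/
structure ShF (g : ℂ → C) (z : ℂ) : Prop where
  hol : Hol g z
  map_nhds : map g (𝓝 z) = 𝓝 (g z)
  map_ne : map g (𝓝[≠] z) = 𝓝[≠] (g z)
  an : ∀ u, An u (g z) → AnalyticAt ℂ (u ∘ g) z ∧ deriv (u ∘ g) z * B.w (g z) = Dc u (g z)
  mr : ∀ u, Mr u (g z) → MeromorphicAt (u ∘ g) z ∧ ord (u ∘ g) z = od u (g z)

/-- the good sheets over `P` and the rest `W` -/
structure Prt (P : Set ℂ) (𝒢 : Finset (ℂ → C)) (W : Set C) (b : ℤ) : Prop where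
  meas : @MeasurableSet C (borel C) W
  fib : ∀ z, ∑ᶠ c ∈ W ∩ B.Fb z, B.e c = b
  card : B.n = 𝒢.card + b
  split : ∀ f : C → ℤ, Fs f → ∑ᶠ c, f c = ∑ᶠ c ∈ W, f c + ∑ g ∈ 𝒢, ∑ᶠ z ∈ P, f (g z)

end Bc

/-- the data in the plane -/
structure Pm (L : PeriodPair) where
  m : ℕ
  D : Discs
  P : Set ℂ
  R₀ : ℝ
  N₀ : Set ℂ
  Ψ : ℂ → ℂ
  K₁ : ℝ
  k : ℕ
  y₀ : ℂ
  ε₀ : ℝ
  K' : ℝ → ℝ
  tile : Tile L D P R₀
  mer : Meromorphic Ψ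
  per : ∀ p ∈ L.lattice, ∀ w, Ψ (w + p) = Ψ w ∧ (w ∈ N₀ → w + p ∈ N₀)
  disc : ∀ w, ∀ᶠ z in 𝓝[≠] w, z ∉ N₀
  an : ∀ w ∉ N₀, AnalyticAt ℂ Ψ w
  go : ∀ w ∈ D.Go, w ∉ N₀ ∧ 1 ≤ K₁ * ‖Ψ w‖
  one_le : 1 ≤ K₁
  ε₀_pos : 0 < ε₀

/-- the constant `λ` -/
def Pm.lam (p : Pm L) : ℝ := 2 * (2 + ‖p.y₀‖) * p.K₁ ^ 2

/-- the functions on the curve -/
structure CD (p : Pm L) (B : Bc L C) where
  χ : C → ℂ
  Y : Fin p.m → C → ℂ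
  G : C → ℂ
  mχ : Me χ
  mY : ∀ i, Me (Y i)
  mG : Me G
  nχ : Nz fun c => χ c - p.y₀
  nG : Nz G
  poY : ∀ i c, po (Y i) c ≤ p.k * B.bw p.N₀ c ∧ po (fun y => χ y * Y i y) c ≤ p.k * B.bw p.N₀ c
  poG : ∀ c, po G c ≤ p.k * (B.bw p.N₀ c + ze (fun y => χ y - p.y₀) c)
  alt : (∃ i, Nz (Y i)) ∨ ∃ a, ∀ᶠ c in cofinite, χ c = a
  ab : ∀ Λ₀, ∀ᶠ c in cofinite, ‖χ c - p.y₀‖ ≤ p.ε₀ → ∑ i, ‖Y i c‖ ≤ Λ₀ →
    ∑ i, ‖Y i c‖ ≤ Λ₀ * ‖B.pb p.Ψ c‖ → ‖Dc χ c‖ ≤ p.K' Λ₀ * ‖B.w c‖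

namespace CD

variable {p : Pm L} {B : Bc L C} (d : CD p B)

/-- the bounds on a sheet -/
def S1 (g : ℂ → C) : Prop :=
  ∀ z ∈ ball 0 (p.R₀ + 1) ∩ p.D.G (-p.D.θ), ∀ᶠ z' in 𝓝[≠] z,
    (∀ i, (1 + ‖d.χ (g z')‖) * ‖d.Y i (g z')‖ ≤ p.K₁) ∧ 1 ≤ p.K₁ * ‖d.χ (g z') - p.y₀‖

/-- the degree of `G` on a sheet -/
def S2 (M₀ : ℕ) (g : ℂ → C) : Prop :=
  0 ≤ ∑ᶠ z ∈ p.P, od d.G (g z) ∧
    (1 ≤ ∑ᶠ z ∈ p.P, od d.G (g z) ∨ (M₀ : ℤ) ≤ ∑ᶠ z ∈ p.P, ze (fun y => d.χ y - p.y₀) (g z))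

/-- a partition into at least one sheet with the bounds and the rest -/
structure Pt (𝒢 : Finset (ℂ → C)) (W : Set C) (b : ℤ) : Prop extends B.Prt p.P 𝒢 W b where
  ne : 𝒢.Nonempty
  sh : ∀ g ∈ 𝒢, B.Sheet (ball 0 (p.R₀ + 1)) g ∧ d.S1 g

/-- the auxiliary functions -/
def Gy (i : Fin p.m) (j : ℕ) (s y : ℂ) (c : C) : ℂ :=
  (d.χ c - y) * d.Y i c + s * p.lam * B.pb p.Ψ c ^ j

end CD

/-- an unramified cover of the curve over which the map lifts to the torus of `L'` -/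
structure CvC (B : Bc L C) (L' : PeriodPair) where
  C' : Type
  [top : TopologicalSpace C']
  [ch : ChartedSpace ℂ C']
  [rs : RS C']
  p : C' → C
  B' : Bc L' C'
  hol : ∀ c, Hol p c
  map_p : ∀ c, map p (𝓝 c) = 𝓝 (p c)
  ov : ∀ c z, c ∈ B'.Fb z → p c ∈ B.Fb z
  inj : ∀ c c', p c = p c' → B'.φ c = B'.φ c' → c = c'
  surj : Surjective p
  e_eq : ∀ c, B'.e c = B.e (p c)

attribute [instance] CvC.top CvC.ch CvC.rs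

end defs

/-- The local degree. -/
def SLocDeg : Prop :=
  ∀ (C : Type) [TopologicalSpace C] [ChartedSpace ℂ C] [RS C] (f : C → ℂ) (a : C), An f a →
    (¬ ∀ᶠ y in 𝓝 a, f y = f a) → ∃ U₀ ∈ 𝓝 a, ∀ U ∈ 𝓝 a, U ⊆ U₀ → ∀ᶠ y in 𝓝 (f a),
      (U ∩ {c | f c = y}).Finite ∧ (∀ c ∈ U ∩ {c | f c = y}, 1 ≤ od (fun x => f x - y) c) ∧
      ∑ᶠ c ∈ U ∩ {c | f c = y}, od (fun x => f x - y) c = od (fun x => f x - f a) a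

/-- Adding up the local degrees. -/
def SSumLoc : Prop :=
  ∀ (C T : Type) [TopologicalSpace C] [T2Space C] (A : Set C) (F : Filter T) (S : T → Set C)
    (m : T → C → ℤ) (m₀ : C → ℤ), A.Finite →
    (∀ a ∈ A, ∃ U₀ ∈ 𝓝 a, ∀ U ∈ 𝓝 a, U ⊆ U₀ → ∀ᶠ t in F,
      (U ∩ S t).Finite ∧ ∑ᶠ c ∈ U ∩ S t, m t c = m₀ a) →
    (∀ U ∈ 𝓝ˢ A, ∀ᶠ t in F, S t ⊆ U) →
    ∀ᶠ t in F, (S t).Finite ∧ ∑ᶠ c ∈ S t, m t c = ∑ᶠ a ∈ A, m₀ a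

/-- A principal divisor has degree zero. -/
def SOd : Prop :=
  ∀ (C : Type) [TopologicalSpace C] [ChartedSpace ℂ C] [RS C] (u : C → ℂ), Me u →
    ∑ᶠ c, od u c = 0

/-- Pole orders from polynomial bounds. -/
def SPoB : Prop :=
  ∀ (C : Type) [TopologicalSpace C] [ChartedSpace ℂ C] (ι : Type) [Fintype ι] (F : C → ℂ)
    (a : ι → C → ℂ) (c : C) (K : ℝ) (k : ℕ), Mr F c → (∀ j, Mr (a j) c) →
    (∀ᶠ y in 𝓝[≠] c, ‖F y‖ ≤ K * (1 + ∑ j, ‖a j y‖) ^ k) → po F c ≤ k * ∑ j, po (a j) c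

/-- The spherical derivative is locally bounded. -/
def SSph : Prop :=
  ∀ (C : Type) [TopologicalSpace C] [ChartedSpace ℂ C] [RS C] (u : C → ℂ) (c : C), Mr u c →
    ∃ K : ℝ, ∀ᶠ y in 𝓝[≠] c, ‖fm (Dc u) c y‖ ≤ K * (1 + ‖u y‖ ^ 2)

/-- Degrees from polynomial bounds. -/
def SPsB : Prop :=
  ∀ H : MvPolynomial (Fin 2) ℂ,
    (∃ k' : ℕ, ∀ (C : Type) [TopologicalSpace C] [ChartedSpace ℂ C] (u v : C → ℂ) (c : C),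
      Mr u c → Mr v c → Mr (fun y => ev2 H (u y) (v y)) c ∧
        po (fun y => ev2 H (u y) (v y)) c ≤ k' * (po u c + po v c)) ∧
    ∀ (K : ℝ) (k : ℕ), ∃ k' : ℕ, ∀ (C : Type) [TopologicalSpace C] [ChartedSpace ℂ C] [RS C]
      (F u v : C → ℂ), Me F → Me u → Me v → (∀ᶠ c in cofinite, ev2 H (u c) (v c) ≠ 0 ∧
        ‖F c‖ * ‖ev2 H (u c) (v c)‖ ≤ K * (1 + ‖u c‖ + ‖v c‖) ^ k) →
      ∑ᶠ c, po F c ≤ k' * (∑ᶠ c, po u c + ∑ᶠ c, po v c)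

/-- Generic values are taken simply. -/
def SSimple : Prop :=
  ∀ (C : Type) [TopologicalSpace C] [ChartedSpace ℂ C] [RS C] (F : C → ℂ), Me F →
    ((¬ ∃ a, ∀ᶠ c in cofinite, F c = a) → ∀ᶠ c in cofinite, An F c ∧ Dc F c ≠ 0) ∧
    ∀ S : Set C, S.Finite → (∀ c ∉ S, An F c ∧ Dc F c ≠ 0) → ∀ᶠ y in cofinite, ∀ c,
      (c ∉ S ∧ F c = y → ze (fun x => F x - y) c = 1) ∧
      (¬ (c ∉ S ∧ F c = y) → ze (fun x => F x - y) c = 0)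

/-- A level set has at most as many points as there are poles. -/
def SFibC : Prop :=
  ∀ (C : Type) [TopologicalSpace C] [ChartedSpace ℂ C] [RS C] (F : C → ℂ) (a : ℂ) (S : Set C),
    Me F → (¬ ∀ᶠ c in cofinite, F c = a) → (∀ c ∈ S, Tendsto F (𝓝[≠] c) (𝓝 a)) →
    S.Finite ∧ (S.ncard : ℤ) ≤ ∑ᶠ c, po F c

/-- All forms have the same degree. -/
def SFormDeg : Prop :=
  ∀ (C : Type) [TopologicalSpace C] [ChartedSpace ℂ C] [RS C] (w w' : C → ℂ), MeF w → MeF w' →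
    Nz w → Nz w' → ∑ᶠ c, odf w c = ∑ᶠ c, odf w' c

/-- Genus zero. -/
def SGen0 : Prop :=
  ∀ (C : Type) [TopologicalSpace C] [ChartedSpace ℂ C] [RS C], (∀ w ∈ Om C, w = 0) →
    ∃ w : C → ℂ, MeF w ∧ Nz w ∧ ∑ᶠ c, odf w c ≤ 0

/-- Positive genus. -/
def SGenP : Prop :=
  ∀ (C : Type) [TopologicalSpace C] [ChartedSpace ℂ C] [RS C], ∀ w ∈ Om C, w ≠ 0 →
    1 ≤ ∑ᶠ c, odf w c →
    2 ≤ Module.finrank ℂ (Om C) ∧ ∑ᶠ c, odf w c ≤ 2 * (Module.finrank ℂ (Om C) : ℤ) - 2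

/-- The degree of the canonical divisor. -/
def SKD : Prop :=
  ∀ (C : Type) [TopologicalSpace C] [ChartedSpace ℂ C] [RS C] (w : C → ℂ), MeF w → Nz w →
    1 ≤ ∑ᶠ c, odf w c →
    2 ≤ Module.finrank ℂ (Om C) ∧ ∑ᶠ c, odf w c ≤ 2 * (Module.finrank ℂ (Om C) : ℤ) - 2

/-- The degree of the map to the torus. -/
def SDegB : Prop :=
  ∀ (L : PeriodPair) (C : Type) [TopologicalSpace C] [ChartedSpace ℂ C] [RS C] (B : Bc L C), B.Deg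

/-- Sheets: local structure, uniqueness, local existence. -/
def SSh : Prop :=
  ∀ (L : PeriodPair) (C : Type) [TopologicalSpace C] [ChartedSpace ℂ C] [RS C] (B : Bc L C),
    (∀ O g, IsOpen O → B.Sheet O g → ∀ z ∈ O, B.ShF g z) ∧
    (∀ O g g', IsOpen O → IsPreconnected O → B.Sheet O g → B.Sheet O g' →
      ∀ z ∈ O, g z = g' z → EqOn g g' O) ∧
    ∀ z, ∀ c ∈ B.Fb z, B.w c ≠ 0 → ∃ r > 0, ∃ g, B.Sheet (ball z r) g ∧ g z = c ∧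
      ∀ᶠ y in 𝓝 c, ∀ z' ∈ ball z r, y ∈ B.Fb z' → y = g z'

/-- The largest disc over which a sheet exists. -/
def SMaxD : Prop :=
  ∀ (L : PeriodPair) (C : Type) [TopologicalSpace C] [ChartedSpace ℂ C] [RS C] (B : Bc L C)
    (R : ℝ), 0 < R → ∀ c ∈ B.Fb 0, B.w c ≠ 0 → (∃ g, B.Sheet (ball 0 R) g ∧ g 0 = c) ∨
      ∃ (g : ℂ → C) (z : ℂ) (c' : C), z ≠ 0 ∧ ‖z‖ ≤ R ∧ B.Sheet (ball 0 ‖z‖) g ∧ g 0 = c ∧
        c' ∈ B.Fb z ∧ B.w c' = 0 ∧ Tendsto g (𝓝[ball 0 ‖z‖] z) (𝓝 c')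

/-- Many sheets. -/
def SSheets : Prop :=
  ∀ (L : PeriodPair) (R : ℝ), 0 < R → ∃ A : ℕ, ∀ (C : Type) [TopologicalSpace C]
    [ChartedSpace ℂ C] [RS C] (B : Bc L C), ∃ 𝒢 : Finset (ℂ → C),
      (∀ g ∈ 𝒢, B.Sheet (ball 0 R) g) ∧ (∀ g ∈ 𝒢, ∀ g' ∈ 𝒢, g 0 = g' 0 → g = g') ∧
      B.n ≤ 𝒢.card + A * B.ρ

/-- The partition. -/
def SPrt : Prop :=
  ∀ (L : PeriodPair) (C : Type) [TopologicalSpace C] [ChartedSpace ℂ C] [RS C] (B : Bc L C)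
    (P : Set ℂ) (R : ℝ) (𝒢 : Finset (ℂ → C)), (∀ w, ∃! w', w' ∈ P ∧ w - w' ∈ L.lattice) →
    MeasurableSet P → P ⊆ ball 0 R → (∀ g ∈ 𝒢, B.Sheet (ball 0 R) g) →
    (∀ g ∈ 𝒢, ∀ g' ∈ 𝒢, g 0 = g' 0 → g = g') → ∃ W b, B.Prt P 𝒢 W b

/-- The weights. -/
def SBw : Prop :=
  ∀ (L : PeriodPair) (N₀ : Set ℂ), (∀ p ∈ L.lattice, ∀ w ∈ N₀, w + p ∈ N₀) →
    (∀ w, ∀ᶠ z in 𝓝[≠] w, z ∉ N₀) →
    (∃ k₀ : ℕ, ∀ (C : Type) [TopologicalSpace C] [ChartedSpace ℂ C] [RS C] (B : Bc L C),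
      Fs (B.bw N₀) ∧ (∀ c, B.e c - 1 ≤ B.bw N₀ c ∧ 0 ≤ B.bw N₀ c) ∧ ∀ (W : Set C) (b : ℤ),
        (∀ z, ∑ᶠ c ∈ W ∩ B.Fb z, B.e c = b) → ∑ᶠ c ∈ W, B.bw N₀ c ≤ k₀ * b + B.ρ) ∧
    ∀ m : ℂ → ℂ, Meromorphic m → (∀ p ∈ L.lattice, ∀ w, m (w + p) = m w) →
      (∀ w ∉ N₀, AnalyticAt ℂ m w) → ∃ k : ℕ, ∀ (C : Type) [TopologicalSpace C]
        [ChartedSpace ℂ C] [RS C] (B : Bc L C) (c : C),
          Mr (B.pb m) c ∧ po (B.pb m) c ≤ k * B.bw N₀ c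

/-- Finitely many bounded lifts. -/
def SLam : Prop :=
  ∀ L : PeriodPair, ∃ (m : ℕ) (R₁ : ℝ), ∀ (C : Type) [TopologicalSpace C] [ChartedSpace ℂ C]
    [RS C] (B : Bc L C), ∃ (V : Fin m → Set C) (z : Fin m → C → ℂ), (∀ c, ∃ j, c ∈ V j) ∧
      ∀ j, IsOpen (V j) ∧ ∀ c ∈ V j, An (z j) c ∧ Dc (z j) c = B.w c ∧ ‖z j c‖ ≤ R₁ ∧
        c ∈ B.Fb (z j c)

/-- The area lemma. -/
def SAreaC : Prop :=
  ∀ (C : Type) [TopologicalSpace C] [ChartedSpace ℂ C] [RS C] (ι : Type) [Fintype ι]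
    (W : ι → Set C) (ξ : C → ℂ) (z z' : ι → C → ℂ) (a : ι → ℂ) (K R r N : ℝ) (y₀ : ℂ)
    (E : Set ℂ), 0 < r → 0 ≤ N → E.Countable →
    (∀ j, @MeasurableSet C (borel C) (W j) ∧ ∀ c ∈ W j, An ξ c ∧ Dc ξ c ≠ 0 ∧ An (z j) c ∧
      An (z' j) c ∧ ‖Dc ξ c‖ ≤ K * (‖Dc (z j) c‖ + ‖Dc (z' j) c‖) ∧ ‖z j c - a j‖ ≤ R ∧
      ‖z' j c - a j‖ ≤ R) →
    (∀ j y, (W j ∩ {c | z j c = y}).Finite ∧ ((W j ∩ {c | z j c = y}).ncard : ℝ) ≤ N ∧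
      (W j ∩ {c | z' j c = y}).Finite ∧ ((W j ∩ {c | z' j c = y}).ncard : ℝ) ≤ N) →
    ∃ y ∈ ball y₀ r, y ∉ E ∧ ((⋃ j, W j) ∩ {c | ξ c = y}).Finite ∧
      (((⋃ j, W j) ∩ {c | ξ c = y}).ncard : ℝ) ≤ 4 * K ^ 2 * R ^ 2 / r ^ 2 * Fintype.card ι * N

/-- A function that is close to a periodic function on all sheets has degree zero on the rest. -/
def STileC : Prop :=
  ∀ (L : PeriodPair) (C : Type) [TopologicalSpace C] [ChartedSpace ℂ C] [RS C] (B : Bc L C)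
    (D : Discs) (P : Set ℂ) (R₀ : ℝ) (𝒢 : Finset (ℂ → C)) (W : Set C) (b : ℤ) (F : C → ℂ)
    (e : ℂ → ℂ), Tile L D P R₀ → B.Prt P 𝒢 W b → 𝒢.Nonempty → Me F → PerOn L D e →
    (∀ w ∈ D.Go, e w ≠ 0) → (∀ g ∈ 𝒢, B.Sheet (ball 0 (R₀ + 1)) g ∧
      ∀ z ∈ ball 0 (R₀ + 1) ∩ D.G (-D.θ), ∀ᶠ z' in 𝓝[≠] z, ‖F (g z') - e z'‖ ≤ ‖e z'‖ / 2) →
    Nz F ∧ ∑ᶠ c ∈ W, ze F c = ∑ᶠ c ∈ W, po F c

/-- The a priori bound for the degree of `χ`. -/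
def SK2 : Prop :=
  ∀ (L : PeriodPair) (p : Pm L), ∃ C₀ : ℕ, ∀ (C : Type) [TopologicalSpace C] [ChartedSpace ℂ C]
    [RS C] (B : Bc L C) (d : CD p B), ∑ᶠ c, po d.χ c ≤ C₀ * (B.n + B.ρ)

/-- The zeros of the auxiliary functions. -/
def SK3a : Prop :=
  ∀ (L : PeriodPair) (p : Pm L), ∃ C₁ : ℕ, ∀ (C : Type) [TopologicalSpace C] [ChartedSpace ℂ C]
    [RS C] (B : Bc L C) (d : CD p B) (𝒢 : Finset (ℂ → C)) (W : Set C) (b : ℤ), d.Pt 𝒢 W b →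
    ∀ i, ∀ j ≤ 1, ∀ s y : ℂ, ‖s‖ = 1 → ‖y - p.y₀‖ ≤ 1 → Me (d.Gy i j s y) ∧ Nz (d.Gy i j s y) ∧
      ∑ᶠ c ∈ W, ze (d.Gy i j s y) c ≤ C₁ * (b + B.ρ)

/-- A value that is taken few times. -/
def SK3b : Prop :=
  ∀ (L : PeriodPair) (p : Pm L), ∀ r > 0, ∃ C₂ : ℕ, ∀ (C : Type) [TopologicalSpace C]
    [ChartedSpace ℂ C] [RS C] (B : Bc L C) (d : CD p B) (𝒢 : Finset (ℂ → C)) (W : Set C) (b : ℤ),
    d.Pt 𝒢 W b → (¬ ∃ a, ∀ᶠ c in cofinite, d.χ c = a) →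
    ∃ y ∈ ball p.y₀ r, ∑ᶠ c ∈ W, ze (fun x => d.χ x - y) c ≤ C₂ * (b + B.ρ)

/-- The value `y₀` is taken few times. -/
def SK3c : Prop :=
  ∀ (L : PeriodPair) (p : Pm L), ∃ C₂ : ℕ, ∀ (C : Type) [TopologicalSpace C]
    [ChartedSpace ℂ C] [RS C] (B : Bc L C) (d : CD p B) (𝒢 : Finset (ℂ → C)) (W : Set C) (b : ℤ),
    d.Pt 𝒢 W b → ∑ᶠ c ∈ W, ze (fun x => d.χ x - p.y₀) c ≤ C₂ * (b + B.ρ)

/-- The core inequality. -/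
def SCoreC : Prop :=
  ∀ (L : PeriodPair) (p : Pm L), ∃ M₀ : ℕ, ∀ R, p.R₀ + 1 ≤ R → ∃ A : ℕ, ∀ (C : Type)
    [TopologicalSpace C] [ChartedSpace ℂ C] [RS C] (B : Bc L C) (d : CD p B),
    (∀ g, B.Sheet (ball 0 R) g → d.S1 g ∧ d.S2 M₀ g) →
    B.n ≤ A * B.ρ ∧ ∑ᶠ c, po d.χ c ≤ A * B.ρ

/-- The cover exists. -/
def SCovRS : Prop :=
  ∀ (L L' : PeriodPair) (C : Type) [TopologicalSpace C] [ChartedSpace ℂ C] [RS C] (B : Bc L C),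
    L'.lattice ≤ L.lattice → Nonempty (CvC B L')

/-- Degree and ramification of the cover. -/
def SCovN : Prop :=
  ∀ (L : PeriodPair) (n : ℕ) (hn : 0 < n) (C : Type) [TopologicalSpace C] [ChartedSpace ℂ C]
    [RS C] (B : Bc L C) (V : CvC B (Hod.nL L n hn)), V.B'.ρ ≤ n ^ 2 * B.ρ ∧
      ∀ z, ((B.Fb z).ncard : ℤ) ≤ n ^ 2 * V.B'.n

end Pool.Agent.P.MP_7ede32_ag.Bnd
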