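import Pool.Agent.P.MP_7ede32_ag.Bnd.DA
import Pool.Agent.P.MP_7ede32_ag.Bnd.DR
import Pool.Agent.P.MP_7ede32_ag.Full.StC

/-!
Meromorphic functions on the surface, holomorphic curves, and the analytic certificate.
-/

open Filter Topology Metric Set
open scoped Polynomial

noncomputable section

namespace Pool.Agent.P.MP_7ede32_ag.Bnd

open Full Geo
open MP_5d7cf0_gt.T (RS zc loc An Hf Om Hol)
open MP_5d7cf0_gt.T renaming D → Dc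

section defs

variable {X : Type} [MetricSpace X] {S : Sf0 X} {L : PeriodPair}

/-- `Z` is an analytic curve -/
def Cz (S : Sf0 X) (Z : Set X) : Prop :=
  ∀ x, ∃ F : X → ℂ, S.AnAt F x ∧ (¬ ∀ᶠ y in 𝓝 x, F y = 0) ∧ ∀ᶠ y in 𝓝 x, (y ∈ Z ↔ F y = 0)

/-- off `Z` the function `ξ` is locally a quotient of holomorphic functions -/
def Lq (S : Sf0 X) (Z : Set X) (ξ : X → ℂ) : Prop :=
  ∀ x, ∃ A B : X → ℂ, S.AnAt A x ∧ S.AnAt B x ∧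
    ∀ᶠ y in 𝓝 x, y ∉ Z → B y ≠ 0 ∧ ξ y = A y / B y

/-- `ξ` is nowhere locally zero -/
def NzX (Z : Set X) (ξ : X → ℂ) : Prop := ∀ x, ∃ᶠ y in 𝓝 x, y ∉ Z ∧ ξ y ≠ 0

/-- `ξ` extends holomorphically to a neighbourhood of `x` -/
def GdZ (S : Sf0 X) (Z : Set X) (ξ : X → ℂ) (x : X) : Prop :=
  ∃ F : X → ℂ, S.AnAt F x ∧ ∀ᶠ y in 𝓝 x, y ∉ Z → ξ y = F y

/-- the extension -/
def extZ (Z : Set X) (ξ : X → ℂ) (x : X) : ℂ := limUnder (𝓝[Zᶜ] x) ξ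

/-- `P` holds on `O` off a discrete set -/
def Gen (O : Set ℂ) (P : ℂ → Prop) : Prop := ∀ w ∈ O, ∀ᶠ w' in 𝓝[≠] w, P w'

/-- a holomorphic map from a Riemann surface -/
def HolC (S : Sf0 X) {C : Type} [TopologicalSpace C] [ChartedSpace ℂ C] (f : C → X) : Prop :=
  ∀ c, ∀ᶠ t in 𝓝 (zc c c), S.HolAt (f ∘ (chartAt ℂ c).symm) t

/-- the map `f` lies over `B` -/
def Ov (S : Sf0 X) {L' : PeriodPair} {C : Type} [TopologicalSpace C] [ChartedSpace ℂ C]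
    (B : Bc L' C) (f : C → X) : Prop := ∀ c z, c ∈ B.Fb z → S.π (f c) = S.Λ.mkQ z

/-- `b` does not vanish at `x` and the combination of the `a l` vanishes -/
def LvP {m N : ℕ} (a : Fin N → Sec S m) (b : Sec S m) (t : Fin N → ℂ) (x : X) : Prop :=
  ∃ e ∈ S.A, x ∈ e.source ∧ b.c e (e x) ≠ 0 ∧ ∑ l, t l * (a l).c e (e x) = 0

/-- off `Z` the functions `ξ l` are the ratios `a l / b` -/
def Rq {m N : ℕ} (a : Fin N → Sec S m) (b : Sec S m) (Z : Set X) (ξ : Fin N → X → ℂ) : Prop :=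
  ∀ x ∉ Z, ∀ e ∈ S.A, x ∈ e.source →
    b.c e (e x) ≠ 0 ∧ ∀ l, ξ l x = (a l).c e (e x) / b.c e (e x)

/-- the Weierstrass function of the projection -/
abbrev uf (M : Mf S L) : X → ℂ := M.f M.iu

/-- the fibre coordinate -/
abbrev xf (M : Mf S L) : X → ℂ := M.f M.ix

/-- a holomorphic germ off `Z` on which `u` is a coordinate -/
structure Ok (M : Mf S L) (Z : Set X) (γ : ℂ → X) (t : ℂ) : Prop where
  hol : ∀ᶠ s in 𝓝 t, S.HolAt γ s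
  off : γ t ∉ Z
  du : deriv (uf M ∘ γ) t ≠ 0

/-- the derivative of `ξ` with respect to `u` along `γ` -/
def sl (M : Mf S L) (ξ : X → ℂ) (γ : ℂ → X) (t : ℂ) : ℂ :=
  deriv (ξ ∘ γ) t / deriv (uf M ∘ γ) t

/-- a polynomial in the slope of `γ` -/
def Yv (M : Mf S L) (d : ℕ) (cf : ℕ → X → ℂ) (γ : ℂ → X) (t : ℂ) : ℂ :=
  ∑ j ∈ Finset.range d, cf j (γ t) * sl M (xf M) γ t ^ j

/-- the analytic certificate -/
structure AC (M : Mf S L) where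
  Z : Set X
  m : ℕ
  d : ℕ
  nb : ℕ
  χ : X → ℂ
  cf : Fin m → ℕ → X → ℂ
  y : Fin nb → X → ℂ
  h : ℂ[X]
  H : MvPolynomial (Fin 2) ℂ
  H₁ : MvPolynomial (Fin 2) ℂ
  K : ℝ
  k : ℕ
  N : ℕ
  sub : M.Z ⊆ Z
  cz : Cz S Z
  lχ : Lq S Z χ
  lcf : ∀ i j, Lq S Z (cf i j)
  ly : ∀ β, Lq S Z (y β)
  ind : ∀ P, P ≠ 0 → NzX Z fun p => ev2 P (uf M p) (χ p)
  h_ne : h ≠ 0
  H_ne : H ≠ 0
  K_nonneg : 0 ≤ K
  N_pos : 0 < N
  off : ∀ p ∉ Z, ev2 H (uf M p) (χ p) ≠ 0 ∧ ev2 H₁ (uf M p) (χ p) ≠ 0 ∧ ∀ β, y β p ≠ 0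
  c1 : ∀ γ t, Ok M Z γ t → ∀ i, (1 + ‖χ (γ t)‖) * ‖Yv M d (cf i) γ t‖ ≤
    K * (Bw h (uf M (γ t)) + ∑ β, ‖sl M (y β) γ t‖ / (1 + ‖y β (γ t)‖ ^ 2)) ^ k
  c2 : ∀ γ t, Ok M Z γ t → ‖sl M χ γ t‖ ≤
    K * (Bw h (uf M (γ t)) + ‖χ (γ t)‖ + ∑ i, ‖Yv M d (cf i) γ t‖) ^ k
  c3 : ∀ γ t, Ok M Z γ t → ‖sl M χ γ t‖ ^ N * ‖ev2 H (uf M (γ t)) (χ (γ t))‖ ≤
    K * (1 + ‖sl M χ γ t‖ + ‖uf M (γ t)‖ + ‖χ (γ t)‖) ^ k * ∑ i, ‖Yv M d (cf i) γ t‖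
  c4 : ∀ i, ∀ p ∉ Z, ‖M.f i p‖ * ‖ev2 H₁ (uf M p) (χ p)‖ ≤ K * (1 + ‖uf M p‖ + ‖χ p‖) ^ k

/-- the conclusion in the working structure -/
def Bdd (S : Sf0 X) {m N : ℕ} (a : Fin N → Sec S m) (b : Sec S m) : Prop :=
  ∃ (Z : Set X) (A : ℕ), Cz S Z ∧ ∀ (C : Type) [TopologicalSpace C] [ChartedSpace ℂ C] [RS C]
    (f : C → X), HolC S f → (∃ c c', f c ≠ f c') → (∃ c, f c ∉ Z) →
    2 ≤ Module.finrank ℂ (Om C) ∧
    (∀ s, (∀ c, S.π (f c) = s) ∨ ({c | S.π (f c) = s}.Finite ∧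
      {c | S.π (f c) = s}.ncard ≤ A * (Module.finrank ℂ (Om C) - 1))) ∧
    ∀ t, (∀ᶠ c in cofinite, LvP a b t (f c)) ∨ ({c | LvP a b t (f c)}.Finite ∧
      {c | LvP a b t (f c)}.ncard ≤ A * (Module.finrank ℂ (Om C) - 1))

end defs

/-- The analytic certificate exists. -/
def SAC : Prop :=
  ∀ (X : Type) [MetricSpace X] [CompactSpace X] [ConnectedSpace X] (S : Sf0 X) (L : PeriodPair)
    (M : Mf S L), Nc S → Nonempty (AC M)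

/-- Ratios of pluricanonical sections can be added to the family. -/
def SExtM1 : Prop :=
  ∀ (X : Type) [MetricSpace X] [PreconnectedSpace X] (S : Sf0 X) (L : PeriodPair) (_M : Mf S L)
    (m N : ℕ) (a : Fin N → Sec S m) (b : Sec S m), b.Nz →
    ∃ (M' : Mf S L) (i : Fin N → M'.ι), Rq a b M'.Z fun l => M'.f (i l)

/-- Level sets. -/
def SLev : Prop :=
  ∀ (X : Type) [MetricSpace X] (S : Sf0 X) (m N : ℕ) (a : Fin N → Sec S m) (b : Sec S m)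
    (Z : Set X) (ξ : Fin N → X → ℂ) (C : Type) [TopologicalSpace C] [ChartedSpace ℂ C] [RS C]
    (f : C → X) (t : Fin N → ℂ), Rq a b Z ξ → HolC S f → (∀ᶠ c in cofinite, f c ∉ Z) →
    (∀ l, Me (ξ l ∘ f)) → (∀ᶠ c in cofinite, LvP a b t (f c)) ∨
      ({c | LvP a b t (f c)}.Finite ∧
        ({c | LvP a b t (f c)}.ncard : ℤ) ≤ ∑ l, ∑ᶠ c, po (ξ l ∘ f) c)

/-- Curves in a smooth fibre. -/
def SVert1 : Prop :=
  ∀ (X : Type) [MetricSpace X] (S : Sf0 X) (L : PeriodPair) (M : Mf S L) (C : Type)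
    [TopologicalSpace C] [ChartedSpace ℂ C] [RS C] (f : C → X), HolC S f → (∃ c c', f c ≠ f c') →
    (∃ c, f c ∉ M.Z) → (∀ c c', S.π (f c) = S.π (f c')) → (∀ c, ¬ S.Crit (f c)) →
    2 ≤ Module.finrank ℂ (Om C) ∧
      ∑ᶠ c, po (xf M ∘ f) c ≤ M.μ * (2 * (Module.finrank ℂ (Om C) : ℤ) - 2)

/-- Vertical curves. -/
def SVertB : Prop :=
  ∀ (X : Type) [MetricSpace X] [CompactSpace X] [ConnectedSpace X] (S : Sf0 X) (L : PeriodPair)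
    (M : Mf S L), Nc S → ∃ (Z : Set X) (A : ℕ), Cz S Z ∧ M.Z ⊆ Z ∧ ∀ (C : Type)
      [TopologicalSpace C] [ChartedSpace ℂ C] [RS C] (f : C → X), HolC S f →
      (∃ c c', f c ≠ f c') → (∃ c, f c ∉ Z) → (∀ c c', S.π (f c) = S.π (f c')) →
      2 ≤ Module.finrank ℂ (Om C) ∧
        ∀ i, ∑ᶠ c, po (M.f i ∘ f) c ≤ A * ((Module.finrank ℂ (Om C) : ℤ) - 1)

/-- The projection of a curve that is not vertical. -/
def SBc : Prop :=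
  ∀ (X : Type) [MetricSpace X] (S : Sf0 X) (L : PeriodPair) (C : Type) [TopologicalSpace C]
    [ChartedSpace ℂ C] [RS C] (f : C → X), S.Λ = L.lattice → HolC S f →
    (¬ ∀ c c', S.π (f c) = S.π (f c')) →
    ∃ B : Bc L C, ∀ c z, c ∈ B.Fb z ↔ S.π (f c) = S.Λ.mkQ z

end Pool.Agent.P.MP_7ede32_ag.Bnd
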