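import Pool.Agent.P.MP_7ede32_ag.Bnd.DX
import Pool.Agent.P.MP_7ede32_ag.Hod.StX

/-!
The geometry near the periodic sections, and the descent from the cover.
-/

open Filter Topology Metric Set
open scoped Polynomial

noncomputable section

namespace Pool.Agent.P.MP_7ede32_ag.Bnd

open Full Geo
open Hod (Sx CvT CvA IsCv SecC nL)
open MP_5d7cf0_gt.T (RS zc loc An Hf Om Hol)
open MP_5d7cf0_gt.T renaming D → Dc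

section defs

variable {X : Type} [MetricSpace X] {S : Sf0 X} {L L'' : PeriodPair}

/-- the bad values, the periodic sections and the integral along the fibres -/
structure Su (S : Sf0 X) (L : PeriodPair) where
  s₀ : ℂ ⧸ S.Λ
  C : S.Cfg s₀
  δ : ℝ
  l : ℝ
  η : ℝ
  η' : ℝ
  T : Set (ℂ → X)
  U : X → X → ℂ
  N : ℕ
  hΛ : S.Λ = L.lattice
  hyp : S.Hyp s₀
  sep : C.Sep δ
  reps : Reps C δ T
  tho : S.ThOk (C.Kc (δ / 2)) l U η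
  η'_pos : 0 < η'
  glue : ∀ (q g : ℂ → X) (O O' : Set ℂ), IsOpen O' → (∀ w ∈ O', ball w (4 * δ) ⊆ O) →
    C.Cls δ q → S.SecOn 0 g O → (∀ w ∈ O ∩ C.Cr (δ / 2), dist (q w) (g w) ≤ η') → ∃ Θ : ℂ → ℂ,
      DifferentiableOn ℂ Θ O' ∧ (∀ w ∈ O', S.Λ.mkQ w = s₀ → Θ w = 0) ∧
      ∀ w ∈ O' ∩ interior (C.Cr (δ / 2)), Θ w = th U (q w) (g w)
  N_pos : 0 < N
  per : ∀ q ∈ T, ∀ p ∈ L.lattice, ∀ w ∉ C.Bt, q (w + N * p) = q w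

namespace Su

variable (σ : Su S L)

/-- the good part of the plane -/
def O : Set ℂ := interior (σ.C.Cr (σ.δ / 2))

/-- the integral from `q` to `y` along the fibre, near the fibre over `w` -/
def θ (q : ℂ → X) (w : ℂ) (y : X) : ℂ := th σ.U (q (w + S.mu (S.Λ.mkQ w) y)) y

/-- normal form of `F` and of the integral near `q w` -/
def NF (Z : Set X) (q : ℂ → X) (F : X → ℂ) (α : ℤ) (β : ℕ) (w : ℂ) : Prop :=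
  0 < β ∧ ∃ v E g : X → ℂ, S.AnAt v (q w) ∧ S.AnAt E (q w) ∧ S.AnAt g (q w) ∧ E (q w) ≠ 0 ∧
    g (q w) ≠ 0 ∧ ∀ᶠ y in 𝓝 (q w), σ.θ q w y = v y ^ β * g y ∧ (y ∉ Z → F y = v y ^ α * E y)

/-- the order of `F` along `q`, relative to the integral, is `a / b` -/
def Od (Z : Set X) (q : ℂ → X) (F : X → ℂ) (a : ℤ) (b : ℕ) : Prop :=
  0 < b ∧ Gen σ.O fun w => ∃ α β, σ.NF Z q F α β w ∧ α * b = β * a

/-- near `q w` the function `F ^ b` is close to `e w` times a power of the integral -/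
def QE (Z : Set X) (q : ℂ → X) (F : X → ℂ) (a b : ℕ) (e : ℂ → ℂ) (η : ℝ) (w : ℂ) : Prop :=
  ∀ y ∉ Z, S.π y = S.Λ.mkQ w → dist (q w) y ≤ η → th σ.U (q w) y ^ a ≠ 0 ∧
    ‖F y ^ b - e w * th σ.U (q w) y ^ a‖ ≤ ‖e w * th σ.U (q w) y ^ a‖ / 2

/-- periodic on the good part -/
def Pr (e : ℂ → ℂ) : Prop := ∀ p ∈ L.lattice, ∀ w ∈ σ.O, e (w + σ.N * p) = e w

/-- algebraic over the Weierstrass function near some point -/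
def Alg (f : ℂ → ℂ) : Prop :=
  ∃ H : MvPolynomial (Fin 2) ℂ, H ≠ 0 ∧ ∃ w ∈ σ.O,
    ∀ᶠ w' in 𝓝[≠] w, ev2 H (L.weierstrassP w') (f w') = 0

/-- the sublattice consists of periods of the sections -/
def Le (L'' : PeriodPair) : Prop := ∀ p ∈ L''.lattice, ∃ p' ∈ L.lattice, p = σ.N * p'

/-- `γ` is a section over a disc that is close to `q` and not contained in `Z` -/
structure Cl (Z : Set X) (q γ : ℂ → X) (R ε : ℝ) : Prop where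
  sec : S.SecOn 0 γ (ball 0 R)
  off : Gen (ball 0 R) fun w => γ w ∉ Z
  near : ∀ w ∈ ball 0 R ∩ σ.C.Cr (σ.δ / 2), dist (q w) (γ w) ≤ ε

lemma isOpen_O : IsOpen σ.O := isOpen_interior

lemma O_sub : σ.O ⊆ σ.C.Btᶜ :=
  interior_subset.trans (Sf0.Cfg.Cr_subset (half_pos σ.sep.1))

lemma sec {q : ℂ → X} (hq : q ∈ σ.T) {w : ℂ} (hw : w ∈ σ.O) :
    ∀ᶠ s in 𝓝 w, S.HolAt q s ∧ S.π (q s) = S.Λ.mkQ s := by
  filter_upwards [σ.isOpen_O.mem_nhds hw] with s hs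
  simpa using (σ.reps.2.1 q hq).1 s (σ.O_sub hs)

lemma O_iff {w : ℂ} : w ∈ σ.O ↔ ∀ c ∈ σ.C.Bt, σ.δ / 2 < dist w c :=
  ⟨fun h _ hc => Sf0.Cfg.lt_dist_of_interior (half_pos σ.sep.1) h hc, mem_interior_Cr σ.sep⟩

lemma Le.le {σ : Su S L} (h : σ.Le L'') : L''.lattice ≤ L.lattice := fun p hp => by
  obtain ⟨p', h1, rfl⟩ := h p hp
  simpa using L.lattice.smul_mem (σ.N : ℤ) h1

end Su

/-- near `q w` the function `ξ` is close to `f w` -/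
def QB (Z : Set X) (q : ℂ → X) (ξ : X → ℂ) (f : ℂ → ℂ) (ε η : ℝ) (w : ℂ) : Prop :=
  ∀ y ∉ Z, dist (q w) y ≤ η → ‖ξ y - f w‖ ≤ ε

/-- near `q w` the functions `ξ β` are bounded -/
def QY {ι : Type} (Z : Set X) (q : ℂ → X) (ξ : ι → X → ℂ) (η : ℝ) (w : ℂ) : Prop :=
  ∀ y ∉ Z, dist (q w) y ≤ η → ∀ β, ‖ξ β y‖ ≤ η⁻¹

/-- the data near the sections -/
structure Gm (σ : Su S L) (M : Mf S L) where
  A : AC M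
  z : Zf L A.h A.H A.K A.k A.N
  y₀ : ℂ
  ε₀ : ℝ
  K' : ℝ → ℝ
  HG : MvPolynomial (Fin 2) ℂ
  Z : Set X
  a : (ℂ → X) → ℕ
  b : (ℂ → X) → ℕ
  ε : (ℂ → X) → Fin A.nb → Bool
  e : (ℂ → X) → ℂ → ℂ
  f : (ℂ → X) → ℂ → ℂ
  ε₀_pos : 0 < ε₀
  ab : ∀ Λ₀, ∀ w ∉ z.N₀, ∀ (v : ℂ) (T s : ℝ), 0 ≤ T → 0 ≤ s →
    ‖v - y₀‖ ≤ ε₀ → s ≤ Λ₀ → s ≤ Λ₀ * ‖z.Ψ w‖ →
    T ≤ A.K * (Bw A.h (L.weierstrassP w) + ‖v‖ + s) ^ A.k →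
    T ^ A.N * ‖ev2 A.H (L.weierstrassP w) v‖ ≤
      A.K * (1 + T + ‖L.weierstrassP w‖ + ‖v‖) ^ A.k * s →
    T * ‖L.derivWeierstrassP w‖ ≤ K' Λ₀
  sub : A.Z ⊆ Z
  cz : Cz S Z
  off : ∀ p ∉ Z, A.χ p ≠ y₀ ∧ ev2 HG (uf M p) (A.χ p - y₀)⁻¹ ≠ 0
  b_pos : ∀ q ∈ σ.T, 0 < b q
  per : ∀ q ∈ σ.T, σ.Pr (e q) ∧ σ.Pr (f q)
  gen : ∀ q ∈ σ.T, Gen σ.O fun w => AnalyticAt ℂ (e q) w ∧ AnalyticAt ℂ (f q) w ∧ e q w ≠ 0 ∧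
    (∃ η > 0, ∀ᶠ w' in 𝓝 w,
      σ.QE Z q (fun p => ev2 HG (uf M p) (A.χ p - y₀)⁻¹) (a q) (b q) (e q) η w' ∧
      QY Z q (fun β p => sg (ε q β) (A.y β p)) η w') ∧
    ∀ ε > 0, ∃ η > 0, ∀ᶠ w' in 𝓝 w, QB Z q (fun p => (A.χ p - y₀)⁻¹) (f q) ε η w'
  alt : ∀ q ∈ σ.T, 0 < a q ∨ ¬ σ.Alg (f q)

variable {σ : Su S L} {M : Mf S L}

/-- the function that vanishes on the algebraic sections -/
def Gm.G (g : Gm σ M) (p : X) : ℂ := ev2 g.HG (uf M p) (g.A.χ p - g.y₀)⁻¹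

/-- the discs and the uniform bounds -/
structure Ug (g : Gm σ M) (L'' : PeriodPair) where
  D : Discs
  P : Set ℂ
  R₀ : ℝ
  η : ℝ
  le : σ.Le L''
  tile : Tile L'' D P R₀
  η_pos : 0 < η
  sub : ∀ w ∈ D.G (-(2 * D.θ)), w ∈ σ.O ∧ w ∉ g.z.N₀ ∧ η ≤ ‖L.derivWeierstrassP w‖ ∧
    Bw g.A.h (L.weierstrassP w) ≤ η⁻¹ ∧ η ≤ ‖g.z.Ψ w‖
  qe : ∀ q ∈ σ.T, ∀ w ∈ D.G (-(2 * D.θ)), AnalyticAt ℂ (g.e q) w ∧ AnalyticAt ℂ (g.f q) w ∧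
    g.e q w ≠ 0 ∧ ‖g.f q w‖ ≤ η⁻¹ ∧ σ.QE g.Z q g.G (g.a q) (g.b q) (g.e q) η w ∧
    QY g.Z q (fun β p => sg (g.ε q β) (g.A.y β p)) η w
  uni : ∀ ε > 0, ∃ η₁ > 0, ∀ q ∈ σ.T, ∀ w ∈ D.G (-(2 * D.θ)),
    QB g.Z q (fun p => (g.A.χ p - g.y₀)⁻¹) (g.f q) ε η₁ w

namespace Ug

variable {g : Gm σ M} (u : Ug g L'')

/-- the radius of the disc on which closeness is needed -/
def R₁ : ℝ := u.R₀ + 1 + u.D.θ + 4 * σ.δ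

/-- a lower bound for the weight -/
def HK (K₁ : ℝ) : Prop := 1 ≤ K₁ ∧ ∀ w ∈ u.D.Go, 1 ≤ K₁ * ‖g.z.Ψ w‖

/-- the bounds along a section -/
def T1 (K₁ : ℝ) (γ : ℂ → X) : Prop :=
  ∀ z ∈ ball 0 (u.R₀ + 1) ∩ u.D.G (-u.D.θ), ∀ᶠ z' in 𝓝[≠] z,
    (∀ i, (1 + ‖g.A.χ (γ z')‖) * ‖Yv M g.A.d (g.A.cf i) γ z'‖ ≤ K₁) ∧
      1 ≤ K₁ * ‖g.A.χ (γ z') - g.y₀‖

/-- the degree of `G` along a section -/
def T2 (γ : ℂ → X) : ℤ := ∑ᶠ z ∈ u.P, ord (g.G ∘ γ) z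

/-- the number of points at which `χ` takes the value `y₀` along a section -/
def T3 (γ : ℂ → X) : ℤ := ∑ᶠ z ∈ u.P, max (ord ((fun p => g.A.χ p - g.y₀) ∘ γ) z) 0

/-- the data in the plane -/
def pm (K₁ : ℝ) (hK : u.HK K₁) (k : ℕ) : Pm L'' where
  m := g.A.m
  D := u.D
  P := u.P
  R₀ := u.R₀
  N₀ := g.z.N₀
  Ψ := g.z.Ψ
  K₁ := K₁
  k := k
  y₀ := g.y₀
  ε₀ := g.ε₀
  K' := g.K'
  tile := u.tile
  mer := g.z.mer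
  per p hp := g.z.per p (u.le.le hp)
  disc := g.z.disc
  an w hw := (g.z.off w hw).2.2.2.1
  go w hw := ⟨(u.sub w (u.D.Go_subset_G hw)).2.1, hK.2 w hw⟩
  one_le := hK.1
  ε₀_pos := g.ε₀_pos

end Ug

/-- a polynomial in the slope of a curve -/
def YC (M : Mf S L) (d : ℕ) (cf : ℕ → X → ℂ) {C : Type} [TopologicalSpace C] [ChartedSpace ℂ C]
    (f : C → X) (c : C) : ℂ :=
  ∑ j ∈ Finset.range d, cf j (f c) * (Dc (xf M ∘ f) c / Dc (uf M ∘ f) c) ^ j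

end defs

/-- The setting exists. -/
def SSu : Prop :=
  ∀ (X : Type) [MetricSpace X] [CompactSpace X] (S : Sf0 X) (L : PeriodPair) (s₀ : ℂ ⧸ S.Λ),
    S.Λ = L.lattice → S.Hyp s₀ → Nonempty (Su S L)

/-- The integral near a section. -/
def STh : Prop :=
  ∀ (X : Type) [MetricSpace X] (S : Sf0 X) (L : PeriodPair) (σ : Su S L), ∀ q ∈ σ.T, ∀ w ∈ σ.O,
    S.AnAt (σ.θ q w) (q w) ∧ σ.θ q w (q w) = 0 ∧ (¬ ∀ᶠ y in 𝓝 (q w), σ.θ q w y = 0) ∧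
    (∀ᶠ w' in 𝓝 w, (∀ᶠ y in 𝓝 (q w'), σ.θ q w' y = σ.θ q w y) ∧
      ∀ y, S.π y = S.Λ.mkQ w' → σ.θ q w y = th σ.U (q w') y) ∧
    ∀ p ∈ L.lattice, ∀ᶠ y in 𝓝 (q w), σ.θ q (w + σ.N * p) y = σ.θ q w y

/-- Normal forms exist off a discrete set. -/
def SNFq : Prop :=
  ∀ (X : Type) [MetricSpace X] (S : Sf0 X) (L : PeriodPair) (σ : Su S L) (Z : Set X)
    (F : X → ℂ), Lq S Z F → NzX Z F → ∀ q ∈ σ.T, ∀ w ∈ σ.O,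
      ∃ α β, ∀ᶠ w' in 𝓝[≠] w, σ.NF Z q F α β w'

/-- The order along a section. -/
def SVO : Prop :=
  ∀ (X : Type) [MetricSpace X] (S : Sf0 X) (L : PeriodPair) (σ : Su S L) (Z : Set X)
    (F : X → ℂ), Cz S Z → Lq S Z F → NzX Z F → ∀ q ∈ σ.T, ∃ a b, σ.Od Z q F a b

/-- The sign of the order. -/
def SOdT : Prop :=
  ∀ (X : Type) [MetricSpace X] (S : Sf0 X) (L : PeriodPair) (σ : Su S L) (Z : Set X)
    (F : X → ℂ) (a : ℤ) (b : ℕ), Cz S Z → ∀ q ∈ σ.T, σ.Od Z q F a b →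
      (0 ≤ a → Gen σ.O fun w => GdZ S Z F (q w)) ∧
      (a ≤ 0 → Gen σ.O fun w => GdZ S Z (fun p => (F p)⁻¹) (q w)) ∧
      (0 < a → Gen σ.O fun w => GdZ S Z F (q w) ∧ extZ Z F (q w) = 0) ∧
      ∀ w ∈ σ.O, ((∀ᶠ w' in 𝓝[≠] w, GdZ S Z F (q w')) → 0 ≤ a) ∧
        ((∀ᶠ w' in 𝓝[≠] w, GdZ S Z F (q w') ∧ extZ Z F (q w') = 0) → 0 < a)

/-- A section excludes at most one value. -/
def SY0 : Prop :=
  ∀ (X : Type) [MetricSpace X] (S : Sf0 X) (L : PeriodPair) (σ : Su S L) (Z : Set X)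
    (χ : X → ℂ), Cz S Z → Lq S Z χ → ∀ q ∈ σ.T,
      (NzX Z χ → ∃ ε, Gen σ.O fun w => GdZ S Z (fun p => sg ε (χ p)) (q w)) ∧
      ((∀ y₀, NzX Z fun p => χ p - y₀) →
        {y₀ | ¬ Gen σ.O fun w => GdZ S Z (fun p => (χ p - y₀)⁻¹) (q w)}.Subsingleton)

/-- The leading coefficient along a section. -/
def SQE : Prop :=
  ∀ (X : Type) [MetricSpace X] (S : Sf0 X) (L : PeriodPair) (σ : Su S L) (Z : Set X)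
    (F : X → ℂ) (a b : ℕ), Cz S Z → (∀ p ∉ Z, F p ≠ 0) → ∀ q ∈ σ.T, σ.Od Z q F a b →
      ∃ e, σ.Pr e ∧ Gen σ.O fun w => AnalyticAt ℂ e w ∧ e w ≠ 0 ∧
        ∃ η > 0, ∀ᶠ w' in 𝓝 w, σ.QE Z q F a b e η w'

/-- The data near the sections exist. -/
def SQD : Prop :=
  ∀ (X : Type) [MetricSpace X] (S : Sf0 X) (L : PeriodPair) (σ : Su S L) (M : Mf S L),
    AC M → Nonempty (Gm σ M)

/-- The discs exist. -/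
def SDU : Prop :=
  ∀ (X : Type) [MetricSpace X] (S : Sf0 X) (L L'' : PeriodPair) (σ : Su S L) (M : Mf S L)
    (g : Gm σ M), σ.Le L'' → Nonempty (Ug g L'')

/-- Bounds along a section that is close to `q`. -/
def SS1 : Prop :=
  ∀ (X : Type) [MetricSpace X] (S : Sf0 X) (L L'' : PeriodPair) (σ : Su S L) (M : Mf S L)
    (g : Gm σ M) (u : Ug g L''), ∃ K₁, u.HK K₁ ∧ ∃ ε > 0, ∀ q ∈ σ.T, ∀ γ,
      σ.Cl g.Z q γ u.R₁ ε → u.T1 K₁ γ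

/-- The degree of `G` along a section that is close to `q`. -/
def SS2 : Prop :=
  ∀ (X : Type) [MetricSpace X] (S : Sf0 X) (L L'' : PeriodPair) (σ : Su S L) (M : Mf S L)
    (g : Gm σ M) (u : Ug g L''), ∃ ε > 0, ∀ q ∈ σ.T, ∀ γ, σ.Cl g.Z q γ u.R₁ ε →
      0 ≤ u.T2 γ ∧ (0 < g.a q → 1 ≤ u.T2 γ)

/-- Many poles along a section that is close to a transcendental `q`. -/
def SS3 : Prop :=
  ∀ (X : Type) [MetricSpace X] (S : Sf0 X) (L L'' : PeriodPair) (σ : Su S L) (M : Mf S L)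
    (g : Gm σ M) (u : Ug g L'') (M₀ : ℕ), ∃ ε > 0, ∀ q ∈ σ.T, ¬ σ.Alg (g.f q) → ∀ γ,
      σ.Cl g.Z q γ u.R₁ ε → M₀ ≤ u.T3 γ

/-- Sections over large discs. -/
def SShp : Prop :=
  ∀ (X : Type) [MetricSpace X] [CompactSpace X] (S : Sf0 X) (L L'' : PeriodPair) (σ : Su S L)
    (M : Mf S L) (g : Gm σ M) (u : Ug g L''), ∃ K₁, u.HK K₁ ∧ ∀ M₀ : ℕ, ∃ R, u.R₀ + 1 ≤ R ∧
      ∀ γ, S.SecOn 0 γ (ball 0 R) → (Gen (ball 0 R) fun w => γ w ∉ g.Z) →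
        u.T1 K₁ γ ∧ 0 ≤ u.T2 γ ∧ (1 ≤ u.T2 γ ∨ M₀ ≤ u.T3 γ)

/-- The poles of the polynomials in the slope. -/
def SPoY : Prop :=
  ∀ (X : Type) [MetricSpace X] (S : Sf0 X) (L L'' : PeriodPair) (M : Mf S L) (A : AC M)
    (z : Zf L A.h A.H A.K A.k A.N), L''.lattice ≤ L.lattice → ∃ k : ℕ, ∀ (C : Type)
      [TopologicalSpace C] [ChartedSpace ℂ C] [RS C] (B : Bc L'' C) (f : C → X), HolC S f →
      Ov S B f → (∀ᶠ c in cofinite, f c ∉ A.Z) → (∀ c, po (uf M ∘ f) c ≤ k * B.bw z.N₀ c) ∧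
        ∀ i, Me (YC M A.d (A.cf i) f) ∧ ∀ c, po (YC M A.d (A.cf i) f) c ≤ k * B.bw z.N₀ c ∧
          po (fun y => A.χ (f y) * YC M A.d (A.cf i) f y) c ≤ k * B.bw z.N₀ c

/-- The functions on the curve. -/
def SCDx : Prop :=
  ∀ (X : Type) [MetricSpace X] (S : Sf0 X) (L L'' : PeriodPair) (σ : Su S L) (M : Mf S L)
    (g : Gm σ M) (u : Ug g L''), ∃ k : ℕ, ∀ (K₁ : ℝ) (hK : u.HK K₁) (C : Type)
      [TopologicalSpace C] [ChartedSpace ℂ C] [RS C] (B : Bc L'' C) (f : C → X), HolC S f →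
      Ov S B f → (∃ c, f c ∉ g.Z) → ∃ d : CD (u.pm K₁ hK k) B, d.χ = g.A.χ ∘ f ∧
        (∀ i, d.Y i = YC M g.A.d (g.A.cf i) f) ∧ d.G = g.G ∘ f

/-- The inequality in the working case. -/
def SWk : Prop :=
  ∀ (X : Type) [MetricSpace X] [CompactSpace X] (S : Sf0 X) (L L'' : PeriodPair) (σ : Su S L)
    (M : Mf S L) (g : Gm σ M), σ.Le L'' → ∃ A : ℕ, ∀ (C : Type) [TopologicalSpace C]
      [ChartedSpace ℂ C] [RS C] (B : Bc L'' C) (f : C → X), HolC S f → Ov S B f →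
      (∃ c, f c ∉ g.Z) → B.n ≤ A * B.ρ ∧ ∀ i, ∑ᶠ c, po (M.f i ∘ f) c ≤ A * B.ρ

/-- The image of a curve under the cover. -/
def SCzPr : Prop :=
  ∀ (𝒳 : Sx) (Λ' : Submodule ℤ ℂ) (T : CvT 𝒳 Λ') (𝒜 : CvA T) (S' : Sf0 T.X') (Z : Set T.X'),
    IsCv 𝒜 S' → Cz S' Z → Cz 𝒳.S (T.pr '' Z)

/-- Lifting a curve to the cover. -/
def SLiftC : Prop :=
  ∀ (𝒳 : Sx) (Λ' : Submodule ℤ ℂ) (T : CvT 𝒳 Λ') (𝒜 : CvA T) (S' : Sf0 T.X') (L'' : PeriodPair)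
    (C : Type) [TopologicalSpace C] [ChartedSpace ℂ C] [RS C] (B : Bc L'' C) (f : C → 𝒳.X),
    IsCv 𝒜 S' → L''.lattice ≤ Λ' → HolC 𝒳.S f → Ov 𝒳.S B f →
    ∃ f' : C → T.X', HolC S' f' ∧ Ov S' B f' ∧ ∀ c, T.pr (f' c) = f c

/-- The cover with its two-form and the pulled back sections. -/
def SCvW : Prop :=
  ∀ (𝒳 : Sx) (n : ℕ) (hn : 0 < n) (z₁ : ℂ) (_s : SecC 𝒳 n z₁) (m N : ℕ)
    (a : Fin N → Sec 𝒳.S m) (b : Sec 𝒳.S m), b.Nz →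
    ∃ (T : CvT 𝒳 (nL 𝒳.L n hn).lattice) (𝒜 : CvA T) (S' : Sf0 T.X') (s₀ : ℂ ⧸ S'.Λ)
      (a' : Fin N → Sec S' m) (b' : Sec S' m), IsCv 𝒜 S' ∧ S'.Hyp s₀ ∧
      Nonempty (Mf S' (nL 𝒳.L n hn)) ∧ b'.Nz ∧ ∀ t x, LvP a' b' t x ↔ LvP a b t (T.pr x)

/-- Curves that are not vertical. -/
def SHor : Prop :=
  ∀ (𝒳 : Sx) (n : ℕ) (z₁ : ℂ) (m N : ℕ) (a : Fin N → Sec 𝒳.S m) (b : Sec 𝒳.S m), 0 < n →
    SecC 𝒳 n z₁ → b.Nz → ∃ (Z : Set 𝒳.X) (A : ℕ), Cz 𝒳.S Z ∧ ∀ (C : Type) [TopologicalSpace C]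
      [ChartedSpace ℂ C] [RS C] (B : Bc 𝒳.L C) (f : C → 𝒳.X), HolC 𝒳.S f → Ov 𝒳.S B f →
      (∃ c, f c ∉ Z) → 1 ≤ B.ρ ∧ (∀ z, ((B.Fb z).ncard : ℤ) ≤ A * B.ρ) ∧
        ∀ t, (∀ᶠ c in cofinite, LvP a b t (f c)) ∨ ({c | LvP a b t (f c)}.Finite ∧
          ({c | LvP a b t (f c)}.ncard : ℤ) ≤ A * B.ρ)

/-- The theorem for a surface whose cover carries a two-form. -/
def SDesc8 : Prop :=
  ∀ (𝒳 : Sx) (n : ℕ) (z₁ : ℂ) (m N : ℕ) (a : Fin N → Sec 𝒳.S m) (b : Sec 𝒳.S m), 0 < n →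
    SecC 𝒳 n z₁ → b.Nz → Bdd 𝒳.S a b

end Pool.Agent.P.MP_7ede32_ag.Bnd
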