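import Pool.Agent.P.MP_7ede32_ag.Full.Defs

/-!
Analytic curves on a surface, and the genus of a Riemann surface.
-/

open Filter Topology
open scoped Manifold ContDiff

namespace Pool.Agent.P.MP_7ede32_ag.Bnd

/-- Near every point of the complex surface `X` the set `Z` is the zero set of a holomorphic
function that does not vanish identically near that point. -/
def IsCurve {X : Type} [TopologicalSpace X] [ChartedSpace (ℂ × ℂ) X] (Z : Set X) : Prop :=
  ∀ x, ∃ F : X → ℂ, ContMDiffAt 𝓘(ℂ, ℂ × ℂ) 𝓘(ℂ, ℂ) ω F x ∧ (¬ ∀ᶠ y in 𝓝 x, F y = 0) ∧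
    ∀ᶠ y in 𝓝 x, (y ∈ Z ↔ F y = 0)

/-- A one-form on a Riemann surface is given by its coefficient `w y` in the preferred chart at
each point `y`. It is holomorphic if for every `p` its coefficient in the chart at `p`, which is
`w y` divided by the derivative of the transition map, is analytic near `p`. -/
def IsHolForm {C : Type} [TopologicalSpace C] [ChartedSpace ℂ C] (w : C → ℂ) : Prop :=
  ∀ p, AnalyticAt ℂ ((fun y => w y / deriv (chartAt ℂ p ∘ (chartAt ℂ y).symm) (chartAt ℂ y y)) ∘
    (chartAt ℂ p).symm) (chartAt ℂ p p)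

/-- The genus of a compact Riemann surface: the dimension of the space of holomorphic
one-forms. -/
noncomputable def genus (C : Type) [TopologicalSpace C] [ChartedSpace ℂ C] : ℕ :=
  Module.finrank ℂ (Submodule.span ℂ {w : C → ℂ | IsHolForm w})

end Pool.Agent.P.MP_7ede32_ag.Bnd
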