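import Pool.Agent.P.MP_7ede32_ag.Bnd.DY
import Pool.Agent.P.MP_7ede32_ag.Bnd.Defs

/-!
The passage from complex manifolds.
-/

open Filter Topology Set
open scoped Manifold ContDiff

namespace Pool.Agent.P.MP_7ede32_ag.Bnd

open Ell Full

theorem genus_eq (C : Type) [TopologicalSpace C] [ChartedSpace ℂ C] :
    genus C = Module.finrank ℂ (MP_5d7cf0_gt.T.Om C) := by
  rw [genus, ← Submodule.span_eq (MP_5d7cf0_gt.T.Om C)]
  rfl

/-- The theorem in the working structure. -/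
def SBdd : Prop :=
  ∀ (𝒳 : Hod.Sx) (m N : ℕ) (a : Fin N → Sec 𝒳.S m) (b : Sec 𝒳.S m), b.Nz → Bdd 𝒳.S a b

/-- The theorem. -/
def SFinal : Prop :=
  ∀ (X : Type) [MetricSpace X] [CompactSpace X] [ConnectedSpace X]
    [ChartedSpace (ℂ × ℂ) X] [IsManifold 𝓘(ℂ, ℂ × ℂ) ω X], GenType X → ∀ (L : PeriodPair)
    (π : X → ℂ ⧸ L.lattice), IsHolomorphic L π → (∀ s, IsConnected (π ⁻¹' {s})) →
    ∀ (m N : ℕ) (a : Fin N → PluriForm X m) (b : PluriForm X m), (∃ x, b.val X x ≠ 0) →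
    ∃ (Z : Set X) (A : ℕ), IsCurve Z ∧
      ∀ (C : Type) [TopologicalSpace C] [T2Space C] [CompactSpace C] [ConnectedSpace C]
        [ChartedSpace ℂ C] [IsManifold 𝓘(ℂ, ℂ) ω C] (f : C → X),
        MDifferentiable 𝓘(ℂ, ℂ) 𝓘(ℂ, ℂ × ℂ) f → (∃ c c', f c ≠ f c') → (∃ c, f c ∉ Z) →
        2 ≤ genus C ∧
        (∀ s, (∀ c, π (f c) = s) ∨ {c | π (f c) = s}.encard ≤ (A * (genus C - 1) : ℕ)) ∧
        ∀ t : Fin N → ℂ, (∀ c, ∑ l, t l * (a l).val X (f c) = 0) ∨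
          {c | b.val X (f c) ≠ 0 ∧ ∑ l, t l * (a l).val X (f c) = 0}.encard ≤
            (A * (genus C - 1) : ℕ)

end Pool.Agent.P.MP_7ede32_ag.Bnd
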