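import Pool.Agent.P.MP_7ede32_ag.Bnd.DZ
import Pool.Agent.P.MP_7ede32_ag.Bnd.XT
import Pool.Agent.P.MP_7ede32_ag.Hod.All

/-!
The passage from the working structure to complex manifolds.
-/

open Filter Topology Set
open scoped Manifold ContDiff

noncomputable section

namespace Pool.Agent.P.MP_7ede32_ag.Bnd

open Geo Full
open Ell (E2 Charts PluriForm chart_mem)
open MP_5d7cf0_gt.T (RS)

namespace FinP

variable {X : Type} [MetricSpace X] [ChartedSpace (ℂ × ℂ) X] [IsManifold 𝓘(ℂ, ℂ × ℂ) ω X]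
  {S : Sf0 X} {m N : ℕ}

lemma sum_eq (a : Fin N → PluriForm X m) (t : Fin N → ℂ) {e : OpenPartialHomeomorph X E2}
    (he : e ∈ Charts X) {x : X} (hx : x ∈ e.source) :
    ∑ l, t l * (a l).coeff e (e x) = (∑ l, t l * (a l).val X x) *
      (fderiv ℂ (chartAt (ℂ × ℂ) x ∘ e.symm) (e x)).det ^ m := by
  rw [Finset.sum_mul]
  refine Finset.sum_congr rfl fun l _ => ?_
  rw [(a l).compat e he _ (chart_mem x) x ⟨hx, mem_chart_source _ x⟩, mul_assoc]
  rfl

lemma lv_iff (hA : S.A = Charts X) (a : Fin N → PluriForm X m) (b : PluriForm X m)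
    (t : Fin N → ℂ) (x : X) : LvP (fun l => toSec hA (a l)) (toSec hA b) t x ↔
      b.val X x ≠ 0 ∧ ∑ l, t l * (a l).val X x = 0 := by
  refine ⟨fun ⟨e, he, hx, h1, h2⟩ => ?_,
    fun h => ⟨_, hA ▸ chart_mem x, mem_chart_source _ x, h.1, h.2⟩⟩
  rw [hA] at he
  have h3 : b.coeff e (e x) ≠ 0 := h1
  rw [b.compat e he _ (chart_mem x) x ⟨hx, mem_chart_source _ x⟩] at h3
  exact ⟨left_ne_zero_of_mul h3, (mul_eq_zero.1 ((sum_eq a t he hx).symm.trans h2)).resolve_right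
    (right_ne_zero_of_mul h3)⟩

lemma isCurve (hA : S.A = Charts X) {Z : Set X} (h : Cz S Z) : IsCurve Z := fun x => by
  obtain ⟨F, h1, h2⟩ := h x
  refine ⟨F, ?_, h2⟩
  have h3 : ContMDiffAt 𝓘(ℂ, ℂ × ℂ) 𝓘(ℂ, ℂ) ω (F ∘ (chartAt (ℂ × ℂ) x).symm)
      (chartAt (ℂ × ℂ) x x) :=
    (h1 _ (hA ▸ chart_mem x) (mem_chart_source _ x)).contDiffAt.contMDiffAt
  refine (h3.comp x (contMDiffAt_of_mem_maximalAtlas (chart_mem x)
    (mem_chart_source _ x))).congr_of_eventuallyEq ?_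
  filter_upwards [(chartAt (ℂ × ℂ) x).open_source.mem_nhds (mem_chart_source _ x)] with y hy
  simp [(chartAt (ℂ × ℂ) x).left_inv hy]

variable {C : Type} [TopologicalSpace C] [ChartedSpace ℂ C] [RS C] {f : C → X}

omit [IsManifold 𝓘(ℂ, ℂ × ℂ) ω X] in
lemma holC (hA : S.A = Charts X) (hf : MDifferentiable 𝓘(ℂ, ℂ) 𝓘(ℂ, ℂ × ℂ) f) : HolC S f :=
  fun c => by
  filter_upwards [(chartAt ℂ c).open_target.mem_nhds
    ((chartAt ℂ c).map_source (mem_chart_source ℂ c))] with t ht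
  have h1 : MDifferentiableAt 𝓘(ℂ, ℂ) 𝓘(ℂ, ℂ × ℂ) (f ∘ (chartAt ℂ c).symm) t :=
    MDifferentiableAt.comp t (hf _) ((contMDiffAt_symm_of_mem_maximalAtlas (n := ω)
      (IsManifold.chart_mem_maximalAtlas c) ht).mdifferentiableAt (by simp))
  refine ⟨h1.continuousAt, fun e he hz => ?_⟩
  rw [hA] at he
  exact mdifferentiableAt_iff_differentiableAt.1 (MDifferentiableAt.comp t
    ((contMDiffAt_of_mem_maximalAtlas he hz).mdifferentiableAt (by simp)) h1)

lemma all_zero (hf : Continuous f) (a : Fin N → PluriForm X m) (t : Fin N → ℂ)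
    (h : ∀ᶠ c in cofinite, ∑ l, t l * (a l).val X (f c) = 0) (c : C) :
    ∑ l, t l * (a l).val X (f c) = 0 := by
  have hx := mem_chart_source (ℂ × ℂ) (f c)
  have h1 : ContinuousAt (fun y => ∑ l, t l * (a l).coeff (chartAt (ℂ × ℂ) (f c))
      (chartAt (ℂ × ℂ) (f c) (f y))) c :=
    tendsto_finsetSum _ fun l _ => Tendsto.const_mul _
      (((a l).analytic _ (chart_mem (f c)) _
        ((chartAt (ℂ × ℂ) (f c)).map_source hx)).continuousAt.tendsto.comp
          (((chartAt (ℂ × ℂ) (f c)).continuousAt hx).tendsto.comp hf.continuousAt))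
  refine tendsto_nhds_unique (h1.tendsto.mono_left (nhdsWithin_le_nhds (s := {c}ᶜ)))
    (tendsto_const_nhds.congr' ?_)
  filter_upwards [cof_iff.1 h c, nhdsWithin_le_nhds (hf.continuousAt.eventually
    ((chartAt (ℂ × ℂ) (f c)).open_source.mem_nhds hx))] with y a1 a2
  rw [sum_eq a t (chart_mem (f c)) a2, a1, zero_mul]

lemma encard_le {α : Type} {s : Set α} {n : ℕ} (h : s.Finite ∧ s.ncard ≤ n) :
    s.encard ≤ (n : ℕ) := by
  rw [← h.1.cast_ncard_eq]
  exact_mod_cast h.2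

end FinP

open FinP in
theorem sFinal (h : SBdd) : SFinal := by
  intro X _ _ _ _ _ hX L π hπ hc m N a b ⟨x, hx⟩
  let S := toSf L π hπ (Hod.zf X)
  have hA : S.A = Charts X := rfl
  obtain ⟨p, hp⟩ := Hod.exists_ncrit (S := S) fun s => (hc s).nonempty
  have hn : Nc S := π_nc_of hp
  obtain ⟨G⟩ := gt_of (S := S) rfl hX
  obtain ⟨M⟩ := Hod.aMgB X S L rfl hn G
  obtain ⟨Z, A, hZ, H⟩ := h ⟨X, S, L, rfl, hn, hc, G, M⟩ m N (fun l => toSec hA (a l)) (toSec hA b)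
    ⟨_, chart_mem x, x, mem_chart_source _ x, hx⟩
  refine ⟨Z, A, isCurve hA hZ, fun C _ _ _ _ _ _ f hf h1 h2 => ?_⟩
  have _ : RS C := {}
  obtain ⟨a1, a2, a3⟩ := H C f (holC hA hf) h1 h2
  rw [genus_eq]
  refine ⟨a1, fun s => (a2 s).imp id encard_le, fun t => ?_⟩
  simp only [lv_iff hA] at a3
  exact (a3 t).imp (fun d => all_zero hf.continuous a t (d.mono fun _ d' => d'.2)) encard_le

end Pool.Agent.P.MP_7ede32_ag.Bnd
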