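import Pool.Agent.P.MP_7ede32_ag.Bnd.AlAll
import Pool.Agent.P.MP_7ede32_ag.Full.AlgH
import Pool.Agent.P.MP_7ede32_ag.Full.L2A
import Pool.Agent.P.MP_7ede32_ag.Full.L2B
import Pool.Agent.P.MP_7ede32_ag.Full.Emb
import Pool.Agent.P.MP_7ede32_ag.Full.Rot

/-!
The algebraic certificate for the function field of the surface.
-/

open scoped IntermediateField Polynomial
open Set

noncomputable section

namespace Pool.Agent.P.MP_7ede32_ag.Bnd

open Full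

namespace FldA

variable {M : Type} [Field M] [CharZero M]

lemma exists_der (S : Set M) (x : M) (hx : x ∉ acl S) (ha : ∀ w, w ∈ acl (insert x S)) :
    ∃ d : Der M, (∀ c ∈ S, d.D c = 0) ∧ d.D x = 1 := by
  obtain ⟨d, h1, h2⟩ := sDer (acl S) M x
    (fun h => hx (mem_acl_of_isAlgebraic Subtype.val_injective (fun r => r.2) h))
    ⟨fun w => isAlgebraic_of_mem_acl _ (by
      rintro y (rfl | hy)
      · exact ⟨IntermediateField.AdjoinSimple.gen _ y, rfl⟩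
      · exact ⟨algebraMap (acl S) _ ⟨y, subset_acl S hy⟩, rfl⟩) (ha w)⟩
    ⟨fun _ => 0, by simp, by simp⟩ 1
  exact ⟨d, fun c hc => (h1 ⟨c, subset_acl S hc⟩).trans (map_zero _), h2⟩

/-- the data over the algebraic closure of the constants -/
lemma cb {Ω : Type} [DecidableEq Ω] [Field Ω] [CharZero Ω] [IsAlgClosed Ω] [Algebra M Ω] [Algebra.IsAlgebraic M Ω]
    (d δ : Der M) (K₀ : Subfield M) (Γ : Finset M) (x a : M) (μ : ℕ) (κ : Subfield Ω)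
    (F : IntermediateField κ Ω) (x' a' : F) (hκ : κ = acl (algebraMap M Ω '' K₀))
    (hF : F = IntermediateField.adjoin κ ((Γ.image (algebraMap M Ω) : Finset Ω) : Set Ω))
    (hx' : (x' : Ω) = algebraMap M Ω x) (ha' : (a' : Ω) = algebraMap M Ω a)
    (hgen : Subfield.closure ((K₀ : Set M) ∪ Γ) = ⊤) (hx : x ∈ Γ)
    (hΓ : ∀ y, y ∈ acl (insert x (K₀ : Set M))) (h1 : ∀ c ∈ K₀, d.D c = 0) (h2 : d.D x = 1)
    (h3 : ∀ c ∈ K₀, δ.D c ∈ K₀) (h4 : δ.D x = 0) (ha : a ≠ 0) (hμ : 0 < μ) (hR : Reg κ x' a' μ) :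
    Nonempty (CB K₀ d δ) := by
  have Kκ : ∀ c ∈ K₀, algebraMap M Ω c ∈ κ := fun c hc => hκ ▸ subset_acl _ ⟨c, hc, rfl⟩
  have mF : ∀ y ∈ Γ, algebraMap M Ω y ∈ F := fun y hy => hF ▸
    IntermediateField.subset_adjoin _ _ (Finset.mem_coe.2 (Finset.mem_image_of_mem _ hy))
  have hM : ∀ z, algebraMap M Ω z ∈ F := fun z => by
    have : Subfield.closure ((K₀ : Set M) ∪ Γ) ≤ F.toSubfield.comap (algebraMap M Ω) :=
      Subfield.closure_le.2 (by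
        rintro y (hy | hy)
        exacts [F.algebraMap_mem ⟨_, Kκ y hy⟩, mF y hy])
    exact this (hgen ▸ Subfield.mem_top z)
  let _ : Algebra M F := ((algebraMap M Ω).codRestrict F hM).toAlgebra
  have : IsScalarTower M F Ω := IsScalarTower.of_algebraMap_eq fun _ => rfl
  have : Algebra.IsAlgebraic M F :=
    Algebra.IsAlgebraic.of_injective (IsScalarTower.toAlgHom M F Ω) Subtype.val_injective
  have : IsAlgClosed κ := by rw [hκ]; exact isAlgClosed_acl _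
  obtain ⟨D, hD⟩ := d.exists_extend (L := F)
  obtain ⟨Δ, hΔ⟩ := δ.exists_extend (L := F)
  have mκ : ∀ z : F, z ∈ acl (algebraMap M F '' (K₀ : Set M)) ↔ (z : Ω) ∈ κ := fun z => by
    rw [← CertP.acl_img (Ω := Ω), image_image]
    exact (SetLike.ext_iff.1 hκ _).symm
  have xκ : algebraMap M Ω x ∉ acl (κ : Set Ω) := fun e => by
    have h5 := d.acl_le_const (S := K₀) h1 ((CertP.acl_img (Ω := Ω)).1 (acl_le (by rw [hκ]) e))
    rw [Der.mem_const, h2] at h5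
    exact one_ne_zero h5
  have ex : algebraMap M F x = x' := Subtype.ext hx'.symm
  refine aCB κ F M
    { d := D, δ := Δ, x := x', a := a', μ := μ, μ_pos := hμ, reg := hR, d₀ := d, δ₀ := δ, x₀ := x
      K₀ := K₀, hd := fun z => (hD z).symm, hδ := fun z => (hΔ z).symm, hx := ex
      cf := ?_, std := ⟨fun c => ?_, ?_⟩, pres := fun c => ?_, δx := ?_, a_ne := fun h => ?_
      const := fun z hz => ⟨⟨_, Kκ z hz⟩, rfl⟩, alg := fun c => (mκ _).2 c.2, gen := ?_ }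
  · rw [hF]
    refine isCurveField_adjoin κ _ (Finset.mem_image_of_mem _ hx) xκ fun u hu => ?_
    obtain ⟨y, -, rfl⟩ := Finset.mem_image.1 hu
    refine acl_mono ?_ ((CertP.acl_img (Ω := Ω)).2 (hΓ y))
    rw [image_insert_eq]
    exact insert_subset_insert (by rintro _ ⟨c, hc, rfl⟩; exact Kκ c hc)
  · refine D.acl_le_const ?_ ((mκ _).2 c.2)
    rintro _ ⟨y, hy, rfl⟩
    rw [SetLike.mem_coe, Der.mem_const, hD, h1 y hy, map_zero]
  · rw [← ex, hD, h2, map_one]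
  · refine ⟨⟨_, (mκ _).1 (Δ.D_mem_acl ?_ ((mκ (algebraMap κ F c)).2 c.2))⟩, rfl⟩
    rintro _ ⟨y, hy, rfl⟩
    rw [hΔ]
    exact subset_acl _ ⟨_, h3 y hy, rfl⟩
  · rw [← ex, hΔ, h4, map_zero]
  · exact ha ((algebraMap M Ω).injective (by rw [← ha', h, map_zero]; rfl))
  · refine eq_top_iff.2 fun u _ => ?_
    have : F ≤ ((Subfield.closure (range (algebraMap κ F) ∪ range (algebraMap M F))).map
        (algebraMap F Ω)).toIntermediateField fun c =>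
          ⟨algebraMap κ F c, Subfield.subset_closure (Or.inl ⟨c, rfl⟩), rfl⟩ := by
      conv_lhs => rw [hF]
      rw [IntermediateField.adjoin_le_iff, Finset.coe_image]
      rintro _ ⟨y, -, rfl⟩
      exact ⟨algebraMap M F y, Subfield.subset_closure (Or.inr ⟨y, rfl⟩), rfl⟩
    obtain ⟨v, hv, e⟩ := this u.2
    exact (Subtype.ext e : v = u) ▸ hv

lemma regUp {Ω : Type} [Field Ω] [CharZero Ω] (κ₀ κ : Subfield Ω) (F₀ : IntermediateField κ₀ Ω)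
    (F : IntermediateField κ Ω) (h : κ₀ ≤ κ) (hF : ∀ z ∈ F₀, z ∈ F) (x a : F₀) (μ : ℕ)
    (hx : (x : Ω) ∉ acl (κ₀ : Set Ω)) (hF₀ : ∀ u ∈ F₀, u ∈ acl (insert (x : Ω) (κ₀ : Set Ω)))
    (R : Reg κ₀ x a μ) : Reg κ (⟨x, hF x x.2⟩ : F) ⟨a, hF a a.2⟩ μ :=
  aRegUp2 κ₀ F₀ κ F ((algebraMap F₀ Ω).codRestrict F fun z => hF z z.2) x a μ
    (CertP.tr_alg κ₀ F₀ x hx hF₀).1 (CertP.tr_alg κ₀ F₀ x hx hF₀).2
    (fun c => ⟨⟨c, h c.2⟩, rfl⟩) R

end FldA

open FldA in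
/-- derivations and the certificate -/
theorem mkCB (ι M : Type) [Fintype ι] [Field M] [CharZero M] [Algebra ℂ M] (ζ : ι → M)
    (iu ix ia : ι) (μ : ℕ) (hμ : 0 < μ) (ha : ζ ia ≠ 0)
    (hgen : Subfield.closure (range (algebraMap ℂ M) ∪ range ζ) = ⊤)
    (hind : ∀ P : MvPolynomial (Fin 2) ℂ, MvPolynomial.aeval ![ζ iu, ζ ix] P = 0 → P = 0)
    (hdep : ∀ i, ∃ P : MvPolynomial (Fin 3) ℂ, P ≠ 0 ∧
      MvPolynomial.aeval ![ζ iu, ζ ix, ζ i] P = 0)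
    (hfib : ∀ Q : Set (MvPolynomial ι ℂ), Q.Countable → ∃ Φ : Fib iu ix ia μ, ∀ P ∈ Q,
      P.eval₂ MG.const (Φ.ξ Φ.p₀) = 0 ↔ MvPolynomial.aeval ζ P = 0) :
    ∃ d δ : Der M, (∀ c, d.D (algebraMap ℂ M c) = 0) ∧ d.D (ζ iu) = 0 ∧ d.D (ζ ix) = 1 ∧
      (∀ c, δ.D (algebraMap ℂ M c) = 0) ∧ δ.D (ζ iu) = 1 ∧ δ.D (ζ ix) = 0 ∧
      (∀ w, w ∈ acl (insert (ζ ix) (insert (ζ iu) (range (algebraMap ℂ M))))) ∧
      Nonempty (CB (Subfield.closure (insert (ζ iu) (range (algebraMap ℂ M)))) d δ) := by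
  classical
  obtain ⟨k₀, hk, -, hx, hall⟩ := sAlgH ι M (algebraMap ℂ M) ζ (ζ iu) (ζ ix) ∅ hind hdep
  obtain ⟨-, -, -, hu, -⟩ := sAlgH Empty M (algebraMap ℂ M) Empty.elim (ζ ix) (ζ iu) ∅
    (fun P hP => MvPolynomial.rename_injective _ (Equiv.swap (0 : Fin 2) 1).injective (by
      rw [map_zero]
      refine hind _ ?_
      rw [MvPolynomial.aeval_rename, ← hP, MvPolynomial.aeval_def]
      congr 1
      funext j
      fin_cases j <;> rfl)) fun i => i.elim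
  have hGs : insert (ζ iu) (algebraMap ℂ M '' k₀) ⊆ insert (ζ iu) (range (algebraMap ℂ M)) :=
    insert_subset_insert (image_subset_range _ _)
  have hw : ∀ w, w ∈ acl (insert (ζ ix) (insert (ζ iu) (range (algebraMap ℂ M)))) := fun w => by
    have : Subfield.closure (range (algebraMap ℂ M) ∪ range ζ) ≤
        acl (insert (ζ ix) (insert (ζ iu) (range (algebraMap ℂ M)))) := Subfield.closure_le.2 (by
      rintro y (hy | ⟨i, rfl⟩)
      · exact subset_acl _ (Or.inr (Or.inr hy))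
      · exact acl_mono (insert_subset_insert hGs) (hall i))
    exact this (hgen ▸ Subfield.mem_top w)
  obtain ⟨d, d1, d2⟩ := exists_der _ _ hx hw
  obtain ⟨δ, e1, e2⟩ := exists_der _ _ hu fun w => insert_comm _ _ _ ▸ hw w
  refine ⟨d, δ, fun c => d1 _ (Or.inr ⟨c, rfl⟩), d1 _ (Or.inl rfl), d2,
    fun c => e1 _ (Or.inr ⟨c, rfl⟩), e2, e1 _ (Or.inl rfl), hw, ?_⟩
  obtain ⟨K₀, hK⟩ : ∃ K₀, K₀ = Subfield.closure (insert (ζ iu) (range (algebraMap ℂ M))) :=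
    ⟨_, rfl⟩
  have sK : insert (ζ iu) (range (algebraMap ℂ M)) ⊆ K₀ := hK ▸ Subfield.subset_closure
  rw [← hK]
  have hQ : (range (MvPolynomial.map (σ := ι) k₀.subtype)).Countable := by
    have : Countable (MvPolynomial ι k₀) := Cardinal.mk_le_aleph0_iff.1
      (MvPolynomial.cardinalMk_le_max.trans
        (max_le (max_le Cardinal.mk_le_aleph0 Cardinal.mk_le_aleph0) le_rfl))
    exact countable_range _
  obtain ⟨Φ, hΦ⟩ := hfib _ hQ
  obtain ⟨i, hi⟩ : ∃ i, i = algebraMap M (AlgebraicClosure M) := ⟨_, rfl⟩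
  obtain ⟨Γ, hΓ₀⟩ : ∃ Γ : Finset M, Γ = Finset.univ.image ζ := ⟨_, rfl⟩
  have hΓ : ∀ j, ζ j ∈ Γ := fun j => hΓ₀ ▸ Finset.mem_image_of_mem ζ (Finset.mem_univ j)
  obtain ⟨κ₀, h₀⟩ : ∃ κ₀, κ₀ = acl (insert ((i ∘ ζ) iu) ((i.comp (algebraMap ℂ M)) '' k₀)) :=
    ⟨_, rfl⟩
  obtain ⟨F₀, hF₀⟩ : ∃ F₀, F₀ = IntermediateField.adjoin κ₀ (range (i ∘ ζ)) := ⟨_, rfl⟩
  obtain ⟨κ, hκ⟩ : ∃ κ, κ = acl (i '' K₀) := ⟨_, rfl⟩
  obtain ⟨F, hF⟩ : ∃ F, F = IntermediateField.adjoin κ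
    ((Γ.image i : Finset _) : Set (AlgebraicClosure M)) := ⟨_, rfl⟩
  have e0 : κ₀ = acl (i '' insert (ζ iu) (algebraMap ℂ M '' k₀)) := by
    rw [h₀, image_insert_eq, image_image]
    rfl
  have x0 : (i ∘ ζ) ix ∉ κ₀ := fun a => hx (acl_mono hGs (L2B.acl_comap i _ (e0 ▸ a)))
  have z0 : ∀ j, (i ∘ ζ) j ∈ acl (insert ((i ∘ ζ) ix) (κ₀ : Set _)) := fun j => by
    refine acl_mono ?_ (L2B.acl_map i _ (hall j))
    rw [image_insert_eq, e0]
    exact insert_subset_insert (subset_acl _)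
  have m0 : ∀ j, (i ∘ ζ) j ∈ F₀ := fun j => by
    rw [hF₀]
    exact IntermediateField.subset_adjoin _ _ ⟨j, rfl⟩
  have κκ : κ₀ ≤ κ := by
    rw [e0, hκ]
    exact acl_mono (image_mono (hGs.trans sK))
  have FF : ∀ z ∈ F₀, z ∈ F := fun z hz => by
    have : F₀ ≤ F.toSubfield.toIntermediateField fun c : κ₀ => F.algebraMap_mem ⟨c, κκ c.2⟩ := by
      rw [hF₀]
      refine IntermediateField.adjoin_le_iff.2 (range_subset_iff.2 fun j => ?_)
      change i (ζ j) ∈ F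
      rw [hF]
      exact IntermediateField.subset_adjoin _ _
        (Finset.mem_coe.2 (Finset.mem_image_of_mem _ (hΓ j)))
    exact this hz
  have R₁ := regUp κ₀ κ F₀ F κκ FF ⟨_, m0 ix⟩ ⟨_, m0 ia⟩ μ
    (fun h => x0 (e0.ge (acl_le (fun _ c => e0.le c) h)))
    (fun u hu => CertP.adjoin_acl κ₀ (fun c hc => subset_acl _ (Or.inr hc))
      (range_subset_iff.2 z0) (hF₀ ▸ hu))
    (sL2B sEmb (sL2A sRot sUniq sLoc) sUniq ι _ iu ix ia μ Φ (i.comp (algebraMap ℂ M))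
      (i ∘ ζ) k₀ κ₀ F₀ _ _ h₀ hF₀ rfl rfl x0 z0 fun P => by
        rw [← MvPolynomial.eval₂_comp_left, map_eq_zero, hΦ _ ⟨P, rfl⟩, MvPolynomial.aeval_def])
  subst hi
  refine cb d δ K₀ Γ (ζ ix) (ζ ia) μ κ F _ _ hκ hF rfl rfl ?_ (hΓ ix)
    (fun y => acl_mono (insert_subset_insert sK) (hw y)) (fun c hc => ?_) d2 (fun c hc => ?_)
    (e1 _ (Or.inl rfl)) ha hμ R₁
  · refine eq_top_iff.2 (hgen ▸ Subfield.closure_mono ?_)
    rintro y (hy | ⟨j, rfl⟩)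
    exacts [Or.inl (sK (Or.inr hy)), Or.inr (hΓ j)]
  · exact (hK ▸ Subfield.closure_le.2 d1 : K₀ ≤ d.const) hc
  · have : K₀ ≤ δ.stab K₀ := by
      conv_lhs => rw [hK]
      refine Subfield.closure_le.2 ?_
      rintro y (rfl | hy)
      · exact ⟨sK (Or.inl rfl), by rw [e2]; exact one_mem _⟩
      · exact ⟨sK (Or.inr hy), by rw [e1 y (Or.inr hy)]; exact zero_mem _⟩
    exact (this hc).2

end Pool.Agent.P.MP_7ede32_ag.Bnd
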