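import Pool.Agent.P.MP_7ede32_ag.Bnd.AlAll

/-!
Translation of the algebraic certificate into inequalities.
-/

open scoped Polynomial
open Polynomial Filter

noncomputable section

namespace Pool.Agent.P.MP_7ede32_ag.Bnd

open Full

namespace TrG

section PE

variable {β : Type} {l : Filter β} {w v f g : β → ℝ}

/-- `f` is eventually bounded by a power of `w` -/
def PE (l : Filter β) (w f : β → ℝ) : Prop :=
  ∃ (K : ℝ) (k : ℕ), 0 ≤ K ∧ ∀ᶠ p in l, f p ≤ K * w p ^ k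

lemma up {a b K K' : ℝ} {k k' : ℕ} (h : a ≤ K * b ^ k) (hb : 1 ≤ b) (h0 : 0 ≤ K) (hK : K ≤ K')
    (hk : k ≤ k') : a ≤ K' * b ^ k' :=
  h.trans (mul_le_mul hK (pow_le_pow_right₀ hb hk) (by positivity) (h0.trans hK))

lemma PE.mono (h : PE l w g) (hfg : ∀ᶠ p in l, f p ≤ g p) : PE l w f := by
  obtain ⟨K, k, h1, h2⟩ := h
  exact ⟨K, k, h1, (hfg.and h2).mono fun p hp => hp.1.trans hp.2⟩

lemma PE.filt {l' : Filter β} (h : PE l w f) (hl : l' ≤ l) : PE l' w f := by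
  obtain ⟨K, k, h1, h2⟩ := h
  exact ⟨K, k, h1, h2.filter_mono hl⟩

lemma PE.const {c : ℝ} (hc : 0 ≤ c) : PE l w fun _ => c :=
  ⟨c, 0, hc, Eventually.of_forall fun _ => by simp⟩

lemma PE.of_le (h : ∀ᶠ p in l, f p ≤ w p) : PE l w f :=
  ⟨1, 1, zero_le_one, h.mono fun _ hp => by simpa using hp⟩

lemma PE.of_pb (h : AlL.PB w f) : PE l w f :=
  let ⟨K, k, h1, h2⟩ := h
  ⟨K, k, h1, Eventually.of_forall h2⟩

lemma PE.add (hw : ∀ p, 1 ≤ w p) (hf : PE l w f) (hg : PE l w g) : PE l w fun p => f p + g p := by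
  obtain ⟨K, k, h1, h2⟩ := hf
  obtain ⟨L, m, g1, g2⟩ := hg
  refine ⟨K + L, k + m, by positivity, (h2.and g2).mono fun p hp => ?_⟩
  have a := up hp.1 (hw p) h1 le_rfl (Nat.le_add_right k m)
  have b := up hp.2 (hw p) g1 le_rfl (Nat.le_add_left m k)
  beta_reduce
  rw [add_mul]
  linarith

lemma PE.mul (hw : ∀ p, 1 ≤ w p) (hf : PE l w f) (hg : PE l w g) (g0 : ∀ p, 0 ≤ g p) :
    PE l w fun p => f p * g p := by
  obtain ⟨K, k, h1, h2⟩ := hf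
  obtain ⟨L, m, g1, g2⟩ := hg
  refine ⟨K * L, k + m, by positivity, (h2.and g2).mono fun p hp => ?_⟩
  have := hw p
  refine (mul_le_mul hp.1 hp.2 (g0 p) (by positivity)).trans (le_of_eq ?_)
  ring

lemma PE.trans (h : PE l v f) (v0 : ∀ p, 0 ≤ v p) (hv : PE l w v) : PE l w f := by
  obtain ⟨K, k, h1, h2⟩ := h
  obtain ⟨L, m, g1, g2⟩ := hv
  refine ⟨K * L ^ k, m * k, by positivity, (h2.and g2).mono fun p hp => hp.1.trans ?_⟩
  rw [mul_assoc, pow_mul, ← mul_pow]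
  exact mul_le_mul_of_nonneg_left (pow_le_pow_left₀ (v0 p) hp.2 k) h1

lemma PE.sum {ι : Type} (hw : ∀ p, 1 ≤ w p) (s : Finset ι) (f : ι → β → ℝ)
    (hf : ∀ i ∈ s, PE l w (f i)) : PE l w fun p => ∑ i ∈ s, f i p := by
  classical
  induction s using Finset.induction_on with
  | empty => simpa using PE.const (l := l) (w := w) le_rfl
  | insert a s ha ih =>
    simp only [Finset.sum_insert ha]
    exact PE.add hw (hf a (Finset.mem_insert_self _ _))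
      (ih fun i hi => hf i (Finset.mem_insert_of_mem hi))

lemma PE.cover {ι : Type} [Fintype ι] (hw : ∀ p, 1 ≤ w p) (G : ι → Set β) (hG : ∀ p, ∃ i, p ∈ G i)
    (h : ∀ i, PE (l ⊓ 𝓟 (G i)) w f) : PE l w f := by
  choose K k h1 h2 using h
  refine ⟨∑ i, K i, ∑ i, k i, Finset.sum_nonneg fun i _ => h1 i, ?_⟩
  filter_upwards [eventually_all.2 fun i => eventually_inf_principal.1 (h2 i)] with p hp
  obtain ⟨i, hi⟩ := hG p
  exact up (hp i hi) (hw p) (h1 i) (Finset.single_le_sum (fun j _ => h1 j) (Finset.mem_univ i))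
    (Finset.single_le_sum (fun j _ => Nat.zero_le (k j)) (Finset.mem_univ i))

end PE

lemma sph (b : Bool) {y : ℂ} (y' : ℂ) (h0 : y ≠ 0) (h : ‖sg b y‖ ≤ 1) :
    ‖sg' b y y'‖ ≤ 2 * (‖y'‖ / (1 + ‖y‖ ^ 2)) := by
  have h1 : 0 < ‖y‖ := norm_pos_iff.2 h0
  have h2 := norm_nonneg y'
  rw [← mul_div_assoc, le_div_iff₀ (by positivity)]
  cases b
  · have h3 : 1 ≤ ‖y‖ := by
      rwa [sg, if_neg Bool.false_ne_true, norm_inv, inv_le_one₀ h1] at h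
    rw [sg', if_neg Bool.false_ne_true, norm_div, norm_neg, norm_pow, div_mul_eq_mul_div,
      div_le_iff₀ (by positivity)]
    nlinarith [mul_nonneg h2 (sub_nonneg.2 (one_le_pow₀ h3 : 1 ≤ ‖y‖ ^ 2))]
  · have h3 : ‖y‖ ≤ 1 := h
    change ‖y'‖ * _ ≤ _
    nlinarith [mul_nonneg h2 (sub_nonneg.2 (pow_le_one₀ h1.le h3 : ‖y‖ ^ 2 ≤ 1))]

variable {M α : Type} [Field M] [Algebra ℂ M] {l : Filter α} {r : M → α → ℂ}
  (hr : EH l r) (hc : ∀ c, ∀ᶠ p in l, r (algebraMap ℂ M c) p = c)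

lemma lift {P : α → Prop} (h : ∀ᶠ p in l, P p) : ∀ᶠ q : α × ℂ in l.comap Prod.fst, P q.1 :=
  h.comap Prod.fst

include hr hc

lemma ev_div (a : M) {b : M} (hb : b ≠ 0) : ∀ᶠ p in l, r (a / b) p = r a p / r b p := by
  filter_upwards [hr.mul a b⁻¹, (aEvP M α l r hr hc).2.2.2.1 b hb] with p h1 h2
  rw [div_eq_mul_inv, h1, h2.2, div_eq_mul_inv]

lemma ev_sg (b : Bool) {y : M} (hy : y ≠ 0) : ∀ᶠ p in l, r (sg b y) p = sg b (r y p) := by
  cases b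
  · exact ((aEvP M α l r hr hc).2.2.2.1 y hy).mono fun p hp => hp.2
  · exact Eventually.of_forall fun _ => rfl

lemma ev_sg' (b : Bool) {y : M} (y' : M) (hy : y ≠ 0) :
    ∀ᶠ p in l, r (sg' b y y') p = sg' b (r y p) (r y' p) := by
  cases b
  · filter_upwards [ev_div hr hc (-y') (pow_ne_zero 2 hy), AlE.neg hr y', hr.mul y y] with p a b c
    change r (-y' / y ^ 2) p = -r y' p / r y p ^ 2
    rw [a, b, sq, c, sq]
  · exact Eventually.of_forall fun _ => rfl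

lemma ev_Dp (d δ : Der M) (z : M) : ∀ᶠ q in l.comap Prod.fst,
    evP r (Dp d δ z) q = r (δ.D z) q.1 + q.2 * r (d.D z) q.1 := by
  obtain ⟨a1, a2, a3, -⟩ := aEvP M α l r hr hc
  filter_upwards [a1.add (C (δ.D z)) (X * C (d.D z)), a1.mul X (C (d.D z)), a2 (δ.D z),
    a2 (d.D z), a3] with q b1 b2 b3 b4 b5
  rw [Dp, b1, b2, b3, b4, b5]

/-- integral elements -/
lemma split (K₀ : Set M) (B : Set M[X]) {z : M[X]}
    (hz : IsIntegral (Subring.closure (C '' K₀ ∪ B)) z) :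
    ∃ (s : Finset M) (t : Finset M[X]), (s : Set M) ⊆ K₀ ∧ (t : Set M[X]) ⊆ B ∧
      PE (l.comap Prod.fst) (fun q => 1 + ∑ c ∈ s, ‖r c q.1‖ + ∑ b ∈ t, ‖evP r b q‖)
        fun q => ‖evP r z q‖ := by
  classical
  obtain ⟨a1, a2, -⟩ := aEvP M α l r hr hc
  obtain ⟨s, K, k, h1, h2, h3⟩ := aBdI _ _ _ _ a1 _ z hz
  have h4 : ∀ a ∈ s.filter (· ∉ B), a.coeff 0 ∈ K₀ ∧ C (a.coeff 0) = a := fun a ha => by
    rw [Finset.mem_filter] at ha
    obtain ⟨c, hc, rfl⟩ := (h1 ha.1).resolve_right ha.2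
    simpa using hc
  refine ⟨(s.filter (· ∉ B)).image (·.coeff 0), s.filter (· ∈ B), fun c hc => ?_,
    fun b hb => (Finset.mem_filter.1 hb).2, K, k, h2, ?_⟩
  · obtain ⟨a, ha, rfl⟩ := Finset.mem_image.1 hc
    exact (h4 a ha).1
  filter_upwards [h3, (eventually_all_finset (s.filter (· ∉ B))).2 fun a _ => a2 (a.coeff 0)]
    with q b1 b2
  have e : ∑ a ∈ s.filter (· ∉ B), ‖r (a.coeff 0) q.1‖ = ∑ a ∈ s.filter (· ∉ B), ‖evP r a q‖ :=
    Finset.sum_congr rfl fun a ha => by rw [← b2 a ha, (h4 a ha).2]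
  rw [Finset.sum_image fun a ha b hb e => by rw [← (h4 a ha).2, ← (h4 b hb).2]; exact congrArg C e,
    e, add_assoc, add_comm (∑ x ∈ _, _), Finset.sum_filter_add_sum_filter_not]
  exact b1

/-- the generators on a chart -/
lemma gens (d δ : Der M) (s : Finset M) (hs : ∀ y ∈ s, y ≠ 0 ∧ d.D y ≠ 0) (ε : s → Bool) (a : s)
    {b : M[X]} (hb : b ∈ gP d δ s ε a) : ∀ᶠ q in l.comap Prod.fst,
      ((∀ β : s, ‖sg (ε β) (r β q.1)‖ ≤ 1) ∧ ∀ β : s, ‖sg' (ε β) (r β q.1) (r (d.D β) q.1)‖ ≤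
        ‖sg' (ε a) (r a q.1) (r (d.D a) q.1)‖) → ‖evP r b q‖ ≤ 1 + 2 * ∑ y ∈ s,
          ‖r (δ.D y) q.1 + q.2 * r (d.D y) q.1‖ / (1 + ‖r y q.1‖ ^ 2) := by
  obtain ⟨-, a2, -, a4, -⟩ := aEvP M α l r hr hc
  have h0 : ∀ q : α × ℂ, 0 ≤ ∑ y ∈ s,
      ‖r (δ.D y) q.1 + q.2 * r (d.D y) q.1‖ / (1 + ‖r y q.1‖ ^ 2) :=
    fun q => Finset.sum_nonneg fun _ _ => by positivity
  rcases hb with (⟨β, rfl⟩ | ⟨β, rfl⟩) | rfl
  · filter_upwards [a2 _, lift (ev_sg hr hc (ε β) (hs β β.2).1)] with q b1 b2 h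
    rw [b1, b2]
    linarith [h.1 β, h0 q]
  · filter_upwards [a2 _, lift (ev_div hr hc (sg' (ε β) (β : M) (d.D β))
      (Chart.sg'_ne (ε a) (hs a a.2).1 (hs a a.2).2)), lift (ev_sg' hr hc (ε β) (d.D β) (hs β β.2).1),
      lift (ev_sg' hr hc (ε a) (d.D a) (hs a a.2).1)] with q b1 b2 b3 b4 h
    rw [b1, b2, b3, b4, norm_div]
    linarith [div_le_one_of_le₀ (h.2 β) (norm_nonneg _), h0 q]
  · filter_upwards [ev_Dp hr hc d δ (sg (ε a) (a : M)), lift (ev_sg' hr hc (ε a) (d.D a) (hs a a.2).1),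
      lift (ev_sg' hr hc (ε a) (δ.D a) (hs a a.2).1), lift (a4 a (hs a a.2).1)] with q b1 b2 b3 b4 h
    have e : sg' (ε a) (r a q.1) (r (δ.D a) q.1) + q.2 * sg' (ε a) (r a q.1) (r (d.D a) q.1) =
        sg' (ε a) (r a q.1) (r (δ.D a) q.1 + q.2 * r (d.D a) q.1) := by
      cases ε a
      · simp only [sg', Bool.false_eq_true, if_false]
        ring
      · rfl
    rw [b1, Chart.D_sg, Chart.D_sg, b2, b3, e]
    have := Finset.single_le_sum (f := fun y =>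
      ‖r (δ.D y) q.1 + q.2 * r (d.D y) q.1‖ / (1 + ‖r y q.1‖ ^ 2)) (fun _ _ => by positivity) a.2
    linarith [sph (ε a) (r (δ.D a) q.1 + q.2 * r (d.D a) q.1) b4.1 (h.1 a)]

/-- the bound for regular differentials -/
lemma chart (K₀ : Set M) (d δ : Der M) (s : Finset M) (hn : s.Nonempty)
    (hs : ∀ y ∈ s, y ≠ 0 ∧ d.D y ≠ 0) {z : M[X]}
    (hz : ∀ ε a, IsIntegral (Subring.closure (C '' K₀ ∪ gP d δ s ε a)) z) :
    ∃ t : Finset M, (t : Set M) ⊆ K₀ ∧ PE (l.comap Prod.fst) (fun q => 1 + ∑ c ∈ t, ‖r c q.1‖ +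
      ∑ y ∈ s, ‖r (δ.D y) q.1 + q.2 * r (d.D y) q.1‖ / (1 + ‖r y q.1‖ ^ 2))
        fun q => ‖evP r z q‖ := by
  classical
  choose t u h1 h2 h3 using fun i : (s → Bool) × s => split hr hc K₀ _ (hz i.1 i.2)
  refine ⟨Finset.univ.biUnion t, fun c hc => ?_, ?_⟩
  · obtain ⟨i, -, hi⟩ := Finset.mem_biUnion.1 hc
    exact h1 i hi
  have h0 : ∀ q : α × ℂ, 0 ≤ ∑ y ∈ s,
      ‖r (δ.D y) q.1 + q.2 * r (d.D y) q.1‖ / (1 + ‖r y q.1‖ ^ 2) :=
    fun q => Finset.sum_nonneg fun _ _ => by positivity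
  have h4 : ∀ q : α × ℂ, 0 ≤ ∑ c ∈ Finset.univ.biUnion t, ‖r c q.1‖ :=
    fun q => Finset.sum_nonneg fun _ _ => norm_nonneg _
  have hw : ∀ q : α × ℂ, 1 ≤ 1 + ∑ c ∈ Finset.univ.biUnion t, ‖r c q.1‖ +
      ∑ y ∈ s, ‖r (δ.D y) q.1 + q.2 * r (d.D y) q.1‖ / (1 + ‖r y q.1‖ ^ 2) :=
    fun q => by linarith [h0 q, h4 q]
  refine PE.cover hw (fun i : (s → Bool) × s => {q | (∀ β : s, ‖sg (i.1 β) (r β q.1)‖ ≤ 1) ∧
    ∀ β : s, ‖sg' (i.1 β) (r β q.1) (r (d.D β) q.1)‖ ≤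
      ‖sg' (i.1 i.2) (r i.2 q.1) (r (d.D i.2) q.1)‖}) (fun q => ?_) fun i => ?_
  · have := hn.to_subtype
    obtain ⟨a, ha⟩ := Finite.exists_max fun β : s =>
      ‖sg' (decide (‖r β q.1‖ ≤ 1)) (r β q.1) (r (d.D β) q.1)‖
    refine ⟨(fun β => decide (‖r β q.1‖ ≤ 1), a), fun β => ?_, ha⟩
    by_cases h : ‖r β q.1‖ ≤ 1
    · simp [sg, h]
    · simpa [sg, h] using inv_le_one_of_one_le₀ (not_le.1 h).le
  refine ((h3 i).filt inf_le_left).trans (fun q => by positivity) (PE.add hw (PE.of_le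
    (Eventually.of_forall fun q => ?_)) (PE.sum hw _ _ fun b hb => ?_))
  · have : ∑ c ∈ t i, ‖r c q.1‖ ≤ ∑ c ∈ Finset.univ.biUnion t, ‖r c q.1‖ :=
      Finset.sum_le_sum_of_subset_of_nonneg (Finset.subset_biUnion_of_mem t (Finset.mem_univ i))
        fun _ _ _ => norm_nonneg _
    linarith [h0 q]
  · refine ⟨2, 1, zero_le_two, (eventually_inf_principal.2
      (gens hr hc d δ s hs i.1 i.2 (h2 i hb))).mono fun q hq => ?_⟩
    rw [pow_one]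
    linarith [h4 q]

/-- the bound with a polynomial factor -/
def WB (l : Filter α) (r : M → α → ℂ) (u χ : M) (D : M[X]) (f : α × ℂ → ℝ) : Prop :=
  ∃ H : MvPolynomial (Fin 2) ℂ, H ≠ 0 ∧ PE (l.comap Prod.fst)
    (fun q => 1 + ‖evP r D q‖ + ‖r u q.1‖ + ‖r χ q.1‖)
    fun q => f q * ‖MvPolynomial.eval ![r u q.1, r χ q.1] H‖

section

omit hr hc [Algebra ℂ M]

variable {u χ : M} {D : M[X]} {f g : α × ℂ → ℝ}

lemma wb_one (q : α × ℂ) : 1 ≤ 1 + ‖evP r D q‖ + ‖r u q.1‖ + ‖r χ q.1‖ := by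
  linarith [norm_nonneg (evP r D q), norm_nonneg (r u q.1), norm_nonneg (r χ q.1)]

lemma wb_poly (H : MvPolynomial (Fin 2) ℂ) : PE (l.comap Prod.fst)
    (fun q => 1 + ‖evP r D q‖ + ‖r u q.1‖ + ‖r χ q.1‖)
    fun q => ‖MvPolynomial.eval ![r u q.1, r χ q.1] H‖ :=
  PE.of_pb (AlL.mv wb_one (fun q => ![r u q.1, r χ q.1]) (fun q i => by
    fin_cases i <;> simp <;>
      linarith [norm_nonneg (evP r D q), norm_nonneg (r u q.1), norm_nonneg (r χ q.1)]) H)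

lemma WB.mono (h : WB l r u χ D g) (hfg : ∀ᶠ q in l.comap Prod.fst, f q ≤ g q) :
    WB l r u χ D f :=
  let ⟨H, h1, h2⟩ := h
  ⟨H, h1, h2.mono (hfg.mono fun _ hq => mul_le_mul_of_nonneg_right hq (norm_nonneg _))⟩

lemma WB.add (hf : WB l r u χ D f) (hg : WB l r u χ D g) : WB l r u χ D fun q => f q + g q := by
  obtain ⟨H, h1, h2⟩ := hf
  obtain ⟨G, g1, g2⟩ := hg
  refine ⟨H * G, mul_ne_zero h1 g1, ((h2.mul wb_one (wb_poly G) fun _ => norm_nonneg _).add wb_one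
    (g2.mul wb_one (wb_poly H) fun _ => norm_nonneg _)).mono (Eventually.of_forall fun q => ?_)⟩
  rw [map_mul, norm_mul]
  exact le_of_eq (by ring)

lemma WB.mul (hf : WB l r u χ D f) (hg : WB l r u χ D g) (g0 : ∀ q, 0 ≤ g q) :
    WB l r u χ D fun q => f q * g q := by
  obtain ⟨H, h1, h2⟩ := hf
  obtain ⟨G, g1, g2⟩ := hg
  refine ⟨H * G, mul_ne_zero h1 g1, (h2.mul wb_one g2 fun q =>
    mul_nonneg (g0 q) (norm_nonneg _)).mono (Eventually.of_forall fun q => ?_)⟩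
  rw [map_mul, norm_mul]
  exact le_of_eq (by ring)

lemma WB.sum {ι : Type} (s : Finset ι) (f : ι → α × ℂ → ℝ) (hf : ∀ i ∈ s, WB l r u χ D (f i)) :
    WB l r u χ D fun q => ∑ i ∈ s, f i q := by
  classical
  induction s using Finset.induction_on with
  | empty => exact ⟨1, one_ne_zero, by simpa using PE.const le_rfl⟩
  | insert a s ha ih =>
    simp only [Finset.sum_insert ha]
    exact (hf a (Finset.mem_insert_self _ _)).add (ih fun i hi => hf i (Finset.mem_insert_of_mem hi))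

end

lemma lead {u χ z : M} (h : ∃ P : MvPolynomial (Fin 3) ℂ, P ≠ 0 ∧ MvPolynomial.aeval ![u, χ, z] P = 0) :
    ∃ H : MvPolynomial (Fin 2) ℂ, H ≠ 0 ∧ PE l (fun p => 1 + ‖r u p‖ + ‖r χ p‖)
      fun p => ‖r z p‖ * ‖MvPolynomial.eval ![r u p, r χ p] H‖ := by
  obtain ⟨P, h1, h2⟩ := h
  obtain ⟨H, K, k, a1, a2, a3⟩ := aLead P h1
  refine ⟨H, a1, K, k, a2, ?_⟩
  filter_upwards [(aEvP M α l r hr hc).2.2.2.2 _ ![u, χ, z] P, AlE.zero hr] with p b1 b2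
  refine a3 _ _ _ ?_
  rw [h2, b2] at b1
  rw [b1]
  congr 2
  ext i
  fin_cases i <;> rfl

lemma wb_all {u χ : M} (d δ : Der M) (hχ : d.D χ ≠ 0)
    (h : ∀ z, ∃ P : MvPolynomial (Fin 3) ℂ, P ≠ 0 ∧ MvPolynomial.aeval ![u, χ, z] P = 0)
    (η : M[X]) : WB l r u χ (Dp d δ χ) fun q => ‖evP r η q‖ := by
  obtain ⟨a1, a2, -⟩ := aEvP M α l r hr hc
  have hC : ∀ z, WB l r u χ (Dp d δ χ) fun q => ‖evP r (C z) q‖ := fun z => by
    obtain ⟨H, h1, K, k, h2, h3⟩ := lead hr hc (h z)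
    refine ⟨H, h1, PE.trans (v := fun q => 1 + ‖r u q.1‖ + ‖r χ q.1‖) ⟨K, k, h2, ?_⟩
      (fun q => by positivity) (PE.of_le (Eventually.of_forall fun q => ?_))⟩
    · filter_upwards [lift h3, a2 z] with q b1 b2
      rwa [b2]
    · linarith [norm_nonneg (evP r (Dp d δ χ) q)]
  rw [← sb_comp d δ η hχ]
  induction sb d δ η χ using Polynomial.induction_on with
  | C a => simpa using hC a
  | add p q hp hq =>
    rw [add_comp]
    exact (hp.add hq).mono ((a1.add _ _).mono fun q hq => by rw [hq]; exact norm_add_le _ _)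
  | monomial n a hp =>
    rw [pow_succ, ← mul_assoc, mul_comp _ X, X_comp]
    refine (hp.mul (g := fun q => ‖evP r (Dp d δ χ) q‖) ⟨1, one_ne_zero,
      PE.of_le (Eventually.of_forall fun q => ?_)⟩ fun _ => norm_nonneg _).mono
      ((a1.mul _ _).mono fun q hq => by rw [hq, norm_mul])
    rw [map_one, norm_one, mul_one]
    linarith [norm_nonneg (r u q.1), norm_nonneg (r χ q.1)]

end TrG

open TrG in
/-- the certificate as inequalities -/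
theorem trG (M α : Type) [Field M] [CharZero M] [Algebra ℂ M] (l : Filter α) (r : M → α → ℂ)
    (hr : EH l r) (hc : ∀ c, ∀ᶠ p in l, r (algebraMap ℂ M c) p = c) (u x z : M) (d δ : Der M)
    (hd : ∀ c, d.D (algebraMap ℂ M c) = 0) (hu : d.D u = 0)
    (hi : ∀ P : MvPolynomial (Fin 2) ℂ, MvPolynomial.aeval ![u, x] P = 0 → P = 0)
    (ha : ∀ w : M, w ∈ acl (insert x (insert u (Set.range (algebraMap ℂ M)))))
    (cb : CB (Subfield.closure (insert u (Set.range (algebraMap ℂ M)))) d δ) :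
    ∃ (m : ℕ) (Y : Fin m → M[X]) (h : ℂ[X]) (H H₁ : MvPolynomial (Fin 2) ℂ) (K : ℝ) (k : ℕ),
      h ≠ 0 ∧ H ≠ 0 ∧ H₁ ≠ 0 ∧ 0 ≤ K ∧
      (∀ P : MvPolynomial (Fin 2) ℂ, MvPolynomial.aeval ![u, cb.χ] P = 0 → P = 0) ∧
      ∀ᶠ p in l, h.eval (r u p) ≠ 0 ∧ MvPolynomial.eval ![r u p, r cb.χ p] H ≠ 0 ∧
        MvPolynomial.eval ![r u p, r cb.χ p] H₁ ≠ 0 ∧
        ‖r z p‖ * ‖MvPolynomial.eval ![r u p, r cb.χ p] H₁‖ ≤ K * (1 + ‖r u p‖ + ‖r cb.χ p‖) ^ k ∧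
        ∀ τ : ℂ, (∀ i, (1 + ‖r cb.χ p‖) * ‖evP r (Y i) (p, τ)‖ ≤
            K * (1 + ‖r u p‖ + ‖h.eval (r u p)‖⁻¹ +
              ∑ y ∈ cb.s, ‖r (δ.D y) p + τ * r (d.D y) p‖ / (1 + ‖r y p‖ ^ 2)) ^ k) ∧
          ‖r (δ.D cb.χ) p + τ * r (d.D cb.χ) p‖ ≤ K * (1 + ‖r u p‖ + ‖h.eval (r u p)‖⁻¹ +
            ‖r cb.χ p‖ + ∑ i, ‖evP r (Y i) (p, τ)‖) ^ k ∧
          ‖r (δ.D cb.χ) p + τ * r (d.D cb.χ) p‖ ^ cb.N *
              ‖MvPolynomial.eval ![r u p, r cb.χ p] H‖ ≤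
            K * (1 + ‖r (δ.D cb.χ) p + τ * r (d.D cb.χ) p‖ + ‖r u p‖ + ‖r cb.χ p‖) ^ k *
              ∑ i, ‖evP r (Y i) (p, τ)‖ := by
  classical
  obtain ⟨a1, a2, -, a4, a5⟩ := aEvP M α l r hr hc
  have dep := fun z => aDep M u x cb.χ z d hd hu cb.dχ hi ha
  have ind := (dep 0).1
  obtain ⟨s₂, t₂, b1, b2, b3⟩ := split hr hc _ _ cb.i2
  obtain ⟨T₃, b4, b5⟩ := Submodule.mem_span_finite_of_mem_span cb.i3
  obtain ⟨T, hT⟩ : ∃ T, T = t₂.erase (C cb.χ) ∪ T₃ := ⟨_, rfl⟩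
  have hTR : ∀ Y ∈ T, Y ∈ cb.R := fun Y hY => by
    rcases Finset.mem_union.1 (hT ▸ hY) with h | h
    · exact (b2 (Finset.mem_of_mem_erase h)).resolve_left (Finset.ne_of_mem_erase h)
    · exact b4 h
  obtain ⟨A, -, hA⟩ := Submodule.mem_span_finset.1 (Submodule.span_mono
    (show (T₃ : Set M[X]) ⊆ T from hT ▸ Finset.coe_subset.2 Finset.subset_union_right) b5)
  choose t c1 c2 using fun Y : T => chart hr hc _ d δ cb.s cb.ne cb.hs
    fun ε a => (cb.i1 Y (hTR Y Y.2) ε a).1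
  choose t' c1' c2' using fun Y : T => chart hr hc _ d δ cb.s cb.ne cb.hs
    fun ε a => (cb.i1 Y (hTR Y Y.2) ε a).2
  obtain ⟨s₀, hs₀⟩ : ∃ s₀, s₀ = s₂ ∪ (Finset.univ.biUnion t ∪ Finset.univ.biUnion t') := ⟨_, rfl⟩
  obtain ⟨h, K₀, k₀, d1, d2, d3⟩ := aBdK M α l r hr hc u s₀ (fun P hP => by
      have := hi (aeval (MvPolynomial.X 0) P) (by rw [← aeval_algHom_apply]; simpa using hP)
      have h1 := congrArg (MvPolynomial.aeval (fun _ => (X : ℂ[X]))) this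
      rwa [← aeval_algHom_apply, MvPolynomial.aeval_X, aeval_X_left_apply, map_zero] at h1)
    fun c hc => by
      rw [hs₀, Finset.mem_union, Finset.mem_union, Finset.mem_biUnion, Finset.mem_biUnion] at hc
      rcases hc with h | ⟨Y, -, h⟩ | ⟨Y, -, h⟩
      exacts [b1 h, c1 Y h, c1' Y h]
  have key : ∀ (s : Finset M) (g f : α × ℂ → ℝ), s ⊆ s₀ → (∀ q, 0 ≤ g q) →
      PE (l.comap Prod.fst) (fun q => 1 + ∑ c ∈ s, ‖r c q.1‖ + g q) f →
      PE (l.comap Prod.fst) (fun q => 1 + ‖r u q.1‖ + ‖h.eval (r u q.1)‖⁻¹ + g q) f := by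
    intro s g f hs hg hf
    have hw : ∀ q : α × ℂ, 1 ≤ 1 + ‖r u q.1‖ + ‖h.eval (r u q.1)‖⁻¹ + g q := fun q => by
      linarith [hg q, norm_nonneg (r u q.1), inv_nonneg.2 (norm_nonneg (h.eval (r u q.1)))]
    refine hf.trans (fun q => by have := hg q; positivity) (((PE.const zero_le_one).add hw
      (PE.trans (v := fun q => 1 + ‖r u q.1‖ + ‖h.eval (r u q.1)‖⁻¹) ⟨K₀, k₀, d2,
        (lift d3).mono fun q hq => le_trans ?_ hq.2⟩ (fun q => by positivity)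
        (PE.of_le (Eventually.of_forall fun q => by linarith [hg q])))).add hw
      (PE.of_le (Eventually.of_forall fun q => ?_)))
    · exact Finset.sum_le_sum_of_subset_of_nonneg hs fun _ _ _ => norm_nonneg _
    · linarith [norm_nonneg (r u q.1), inv_nonneg.2 (norm_nonneg (h.eval (r u q.1)))]
  have h0 : ∀ q : α × ℂ, 0 ≤ ∑ y ∈ cb.s,
      ‖r (δ.D y) q.1 + q.2 * r (d.D y) q.1‖ / (1 + ‖r y q.1‖ ^ 2) :=
    fun q => Finset.sum_nonneg fun _ _ => by positivity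
  have hw : ∀ q : α × ℂ, 1 ≤ 1 + ‖r u q.1‖ + ‖h.eval (r u q.1)‖⁻¹ + ∑ y ∈ cb.s,
      ‖r (δ.D y) q.1 + q.2 * r (d.D y) q.1‖ / (1 + ‖r y q.1‖ ^ 2) := fun q => by
    linarith [h0 q, norm_nonneg (r u q.1), inv_nonneg.2 (norm_nonneg (h.eval (r u q.1)))]
  obtain ⟨K₁, k₁, e1, e1'⟩ := PE.sum hw Finset.univ
    (fun (Y : T) q => (1 + ‖r cb.χ q.1‖) * ‖evP r Y q‖) fun Y _ => by
      refine ((key _ _ _ (fun c hc => ?_) h0 (c2 Y)).add hw
        (key _ _ _ (fun c hc => ?_) h0 (c2' Y))).mono ?_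
      · rw [hs₀, Finset.mem_union, Finset.mem_union, Finset.mem_biUnion]
        exact Or.inr (Or.inl ⟨Y, Finset.mem_univ _, hc⟩)
      · rw [hs₀, Finset.mem_union, Finset.mem_union, Finset.mem_biUnion (t := t')]
        exact Or.inr (Or.inr ⟨Y, Finset.mem_univ _, hc⟩)
      · filter_upwards [a1.mul (C cb.χ) Y, a2 cb.χ] with q f1 f2
        rw [f1, f2, norm_mul, add_mul, one_mul]
  have h1 : ∀ q : α × ℂ, 0 ≤ ∑ Y ∈ T, ‖evP r Y q‖ :=
    fun q => Finset.sum_nonneg fun _ _ => norm_nonneg _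
  obtain ⟨K₂, k₂, e2, e2'⟩ := key s₂ (fun q => ‖r cb.χ q.1‖ + ∑ Y ∈ T, ‖evP r Y q‖) _
    (hs₀ ▸ Finset.subset_union_left) (fun q => by have := h1 q; positivity)
    (b3.trans (fun q => by positivity) (PE.of_le ((a2 cb.χ).mono fun q hq => by
      have f1 : ∑ b ∈ t₂, ‖evP r b q‖ ≤ ∑ b ∈ insert (C cb.χ) (t₂.erase (C cb.χ)), ‖evP r b q‖ :=
        Finset.sum_le_sum_of_subset_of_nonneg (Finset.subset_insert_iff.2 subset_rfl)
          fun _ _ _ => norm_nonneg _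
      have f2 : ∑ b ∈ t₂.erase (C cb.χ), ‖evP r b q‖ ≤ ∑ Y ∈ T, ‖evP r Y q‖ :=
        Finset.sum_le_sum_of_subset_of_nonneg (hT ▸ Finset.subset_union_left)
          fun _ _ _ => norm_nonneg _
      rw [Finset.sum_insert (Finset.notMem_erase _ _), hq] at f1
      linarith)))
  obtain ⟨H, e3, K₃, k₃, e3', e3''⟩ := WB.sum T (fun Y q => ‖evP r (A Y) q‖) fun Y _ =>
    wb_all hr hc d δ cb.dχ (fun z => (dep z).2) (A Y)
  obtain ⟨H₁, e4, K₄, k₄, e4', e4''⟩ := lead hr hc (dep z).2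
  have ne : ∀ G : MvPolynomial (Fin 2) ℂ, G ≠ 0 →
      ∀ᶠ p in l, MvPolynomial.eval ![r u p, r cb.χ p] G ≠ 0 := fun G hG => by
    filter_upwards [a5 _ ![u, cb.χ] G, a4 _ fun h => hG (ind G h)] with p f1 f2
    have : (fun i => r (![u, cb.χ] i) p) = ![r u p, r cb.χ p] := by
      ext i
      fin_cases i <;> rfl
    rw [← this, ← f1]
    exact f2.1
  have e5 : ∀ᶠ q in l.comap Prod.fst, evP r (Dp d δ cb.χ) q ^ cb.N =
      ∑ Y ∈ T, evP r (A Y) q * evP r Y q := by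
    have e : AlE.hom a1 (Dp d δ cb.χ) ^ cb.N = ∑ Y ∈ T, AlE.hom a1 (A Y) * AlE.hom a1 Y := by
      rw [← map_pow, ← hA, map_sum]
      simp only [smul_eq_mul, map_mul]
    have e' : Germ.coeRingHom (l.comap Prod.fst) (evP r (Dp d δ cb.χ) ^ cb.N) =
        Germ.coeRingHom (l.comap Prod.fst) (∑ Y ∈ T, evP r (A Y) * evP r Y) := by
      simp only [map_sum, map_mul, map_pow]
      exact e
    refine (Germ.coe_eq.1 e').mono fun q hq => ?_
    simpa [Finset.sum_apply] using hq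
  have hs : ∀ q, ∑ i, ‖evP r (T.equivFin.symm i : M[X]) q‖ = ∑ Y ∈ T, ‖evP r Y q‖ := fun q => by
    rw [T.equivFin.symm.sum_comp fun Y : T => ‖evP r Y q‖, Finset.sum_coe_sort T fun Y => ‖evP r Y q‖]
  refine ⟨T.card, fun i => T.equivFin.symm i, h, H, H₁, K₁ + K₂ + K₃ + K₄, k₁ + k₂ + k₃ + k₄, d1, e3,
    e4, by positivity, ind, ?_⟩
  filter_upwards [d3, ne H e3, ne H₁ e4, e4'', eventually_comap.1
    (e1'.and (e2'.and (e3''.and (e5.and (ev_Dp hr hc d δ cb.χ)))))] with p f1 f2 f3 f4 f5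
  refine ⟨f1.1, f2, f3, up f4 (by linarith [norm_nonneg (r u p), norm_nonneg (r cb.χ p)]) e4'
    (by linarith) (by omega), fun τ => ?_⟩
  obtain ⟨g1, g2, g3, g4, g5⟩ := f5 (p, τ) rfl
  rw [hs, ← g5]
  refine ⟨fun i => up (le_trans ?_ g1) (hw (p, τ)) e1 (by linarith) (by omega), ?_, ?_⟩
  · exact Finset.single_le_sum (f := fun Y : T => (1 + ‖r cb.χ p‖) * ‖evP r Y (p, τ)‖)
      (fun _ _ => by positivity) (Finset.mem_univ _)
  · rw [add_assoc _ ‖r cb.χ p‖]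
    refine up g2 ?_ e2 (by linarith) (by omega)
    linarith [h1 (p, τ), norm_nonneg (r u p), norm_nonneg (r cb.χ p),
      inv_nonneg.2 (norm_nonneg (h.eval (r u p)))]
  · refine le_trans ?_ (mul_le_mul_of_nonneg_right (up g3 (wb_one (p, τ)) e3' (by linarith)
      (by omega)) (h1 (p, τ)))
    rw [mul_right_comm, ← norm_pow, g4, Finset.sum_mul_sum]
    refine mul_le_mul_of_nonneg_right ((norm_sum_le _ _).trans (Finset.sum_le_sum fun Y hY => ?_))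
      (norm_nonneg _)
    rw [norm_mul]
    exact Finset.single_le_sum (f := fun Y' => ‖evP r (A Y) (p, τ)‖ * ‖evP r Y' (p, τ)‖)
      (fun _ _ => by positivity) hY

end Pool.Agent.P.MP_7ede32_ag.Bnd
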