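import Pool.Agent.P.MP_7ede32_ag.Bnd.FldA
import Pool.Agent.P.MP_7ede32_ag.Bnd.TrG
import Pool.Agent.P.MP_7ede32_ag.Full.StC

/-!
The function field of the surface, representatives and the chain rule.
-/

open Filter Topology Set
open scoped Polynomial

noncomputable section

namespace Pool.Agent.P.MP_7ede32_ag.Bnd

open Full Geo MvPolynomial

namespace FldX

/-- a derivation along `j` that kills a transcendence basis is zero -/
lemma uniq {F K : Type} [Field F] [CharZero F] [CommRing K] (j : F →+* K) (E : F → K) (S : Set F)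
    (hS : ∀ w, w ∈ acl S) (hadd : ∀ a b, E (a + b) = E a + E b)
    (hmul : ∀ a b, E (a * b) = j a * E b + j b * E a) (hc : ∀ s ∈ S, E s = 0) (z : F) :
    E z = 0 := by
  have h0 : E 0 = 0 := by simpa using hadd 0 0
  have h1 : E 1 = 0 := by simpa using hmul 1 1
  have can : ∀ a w, a ≠ 0 → j a * w = 0 → w = 0 := fun a w ha h => by
    rw [← one_mul w, ← j.map_one, ← inv_mul_cancel₀ ha, map_mul, mul_assoc, h, mul_zero]
  let T : Subfield F :=
    { carrier := {u | E u = 0}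
      mul_mem' := fun {a b} ha hb => by
        simp only [Set.mem_ofPred_eq] at *
        rw [hmul, ha, hb]; ring
      one_mem' := h1
      add_mem' := fun {a b} ha hb => by
        simp only [Set.mem_ofPred_eq] at *
        rw [hadd, ha, hb]; ring
      zero_mem' := h0
      neg_mem' := fun {a} ha => by
        simp only [Set.mem_ofPred_eq] at *
        have := hadd a (-a)
        rwa [add_neg_cancel, h0, ha, zero_add, eq_comm] at this
      inv_mem' := fun a ha => by
        simp only [Set.mem_ofPred_eq] at *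
        by_cases h : a = 0
        · rw [h, inv_zero, h0]
        have := hmul a a⁻¹
        rw [mul_inv_cancel₀ h, h1, ha, mul_zero, add_zero] at this
        exact can a _ h this.symm }
  have hT : ∀ u : T, E (algebraMap T F u) = 0 := fun u => u.2
  have hpow : ∀ n : ℕ, E (z ^ n) = j (n * z ^ (n - 1)) * E z := by
    intro n
    induction n with
    | zero => simp [h1]
    | succ n ih =>
      rw [pow_succ, hmul, ih]
      cases n with
      | zero => simp
      | succ n => simp only [map_mul, map_pow, map_natCast, Nat.add_sub_cancel]; push_cast; ring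
  have key : ∀ p : T[X], E (Polynomial.aeval z p) =
      j (Polynomial.aeval z p.derivative) * E z := by
    intro p
    induction p using Polynomial.induction_on' with
    | add p q hp hq => simp only [map_add, hadd, hp, hq, add_mul]
    | monomial n a =>
      rw [Polynomial.derivative_monomial, Polynomial.aeval_monomial, Polynomial.aeval_monomial,
        hmul, hT, hpow]
      simp only [map_mul, map_pow, map_natCast]
      ring
  have hint : IsIntegral T z :=
    (isAlgebraic_of_mem_acl T (fun s hs => ⟨⟨s, hc s hs⟩, rfl⟩) (hS z)).isIntegral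
  have h3 := key (minpoly T z)
  rw [minpoly.aeval, h0] at h3
  exact can _ _ ((minpoly.irreducible hint).separable.aeval_derivative_ne_zero (minpoly.aeval T z))
    h3.symm

variable {X : Type} [MetricSpace X] {S : Sf0 X} {L : PeriodPair} (M : Mf S L)

lemma ev_mul (P Q : MvPolynomial M.ι ℂ) (y : X) : M.ev (P * Q) y = M.ev P y * M.ev Q y :=
  map_mul _ _ _

lemma ev_add (P Q : MvPolynomial M.ι ℂ) (y : X) : M.ev (P + Q) y = M.ev P y + M.ev Q y :=
  map_add _ _ _

lemma anAt_ev (P : MvPolynomial M.ι ℂ) {y : X} (hy : y ∉ M.Z) : S.AnAt (M.ev P) y := by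
  intro e he hx
  change AnalyticAt ℂ (fun t => M.ev P (e.symm t)) (e y)
  induction P using MvPolynomial.induction_on with
  | C a =>
    simp only [Mf.ev, eval_C]
    exact analyticAt_const
  | add p q hp hq =>
    simp only [ev_add]
    exact hp.fun_add hq
  | mul_X p i hp =>
    simp only [ev_mul]
    refine hp.fun_mul ?_
    simp only [Mf.ev, eval_X]
    exact M.anAt_f i hy e he hx

/-- the ideal of relations -/
def idl : Ideal (MvPolynomial M.ι ℂ) where
  carrier := {P | M.Van P}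
  add_mem' ha hb y hy := by rw [ev_add, ha y hy, hb y hy, add_zero]
  zero_mem' _ _ := map_zero _
  smul_mem' c _ ha y hy := by rw [smul_eq_mul, ev_mul, ha y hy, mul_zero]

lemma open_ne (D : MvPolynomial M.ι ℂ) {y : X} (hy : y ∉ M.Z) (h : M.ev D y ≠ 0) :
    ∀ᶠ y' in 𝓝 y, y' ∉ M.Z ∧ M.ev D y' ≠ 0 :=
  (M.isClosed_Z.isOpen_compl.eventually_mem hy).and ((anAt_ev M D hy).continuousAt.eventually_ne h)

lemma prime [Nonempty X]
    (h : ∀ P, ¬ M.Van P → ∀ x, ∃ᶠ y in 𝓝 x, y ∉ M.Z ∧ M.ev P y ≠ 0) : (idl M).IsPrime := by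
  refine ⟨fun e => ?_, fun {P Q} hPQ => ?_⟩
  · obtain ⟨y, hy⟩ := (not_eventually.1 (M.den_ne (Classical.arbitrary X))).exists
    have : (1 : MvPolynomial M.ι ℂ) ∈ idl M := e ▸ Submodule.mem_top
    exact one_ne_zero ((map_one _).symm.trans (this y hy))
  · by_contra hn
    obtain ⟨h1, h2⟩ := not_or.1 hn
    obtain ⟨y, a1, a2⟩ := (h P h1 (Classical.arbitrary X)).exists
    obtain ⟨y', b1, b2⟩ := ((h Q h2 y).and_eventually (open_ne M P a1 a2)).exists
    exact mul_ne_zero b2.2 b1.2 ((ev_mul M P Q y').symm.trans (hPQ y' b1.1))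

end FldX

open FldX

variable {X : Type} [MetricSpace X] {S : Sf0 X} {L : PeriodPair}

/-- the field generated by the family, with representatives -/
structure RF (M : Mf S L) where
  K : Type
  [fld : Field K]
  [ch : CharZero K]
  [alg : Algebra ℂ K]
  ζ : M.ι → K
  r : K → X → ℂ
  l : Filter X
  mem : ∀ U, U ∈ l ↔ ∃ D, ¬ M.Van D ∧ ∀ y ∉ M.Z, M.ev D y ≠ 0 → y ∈ U
  ker : ∀ P, aeval ζ P = 0 ↔ M.Van P
  rep : ∀ z, ∃ P Q, ¬ M.Van Q ∧ z = aeval ζ P / aeval ζ Q ∧ r z = fun y => M.ev P y / M.ev Q y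

attribute [instance] RF.fld RF.ch RF.alg

theorem exists_rf [Nonempty X] (M : Mf S L)
    (h : ∀ P, ¬ M.Van P → ∀ x, ∃ᶠ y in 𝓝 x, y ∉ M.Z ∧ M.ev P y ≠ 0) : Nonempty (RF M) := by
  have hp := prime M h
  let A := MvPolynomial M.ι ℂ ⧸ idl M
  let K := FractionRing A
  let φ : MvPolynomial M.ι ℂ →ₐ[ℂ] K := (IsScalarTower.toAlgHom ℂ A K).comp (Ideal.Quotient.mkₐ ℂ _)
  have hφ : ∀ P, aeval (fun i => φ (MvPolynomial.X i)) P = φ P := fun P => by
    rw [← comp_aeval_apply, aeval_X_left_apply]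
  have hk : ∀ P, φ P = 0 ↔ M.Van P := fun P =>
    (map_eq_zero_iff _ (IsFractionRing.injective A K)).trans Ideal.Quotient.eq_zero_iff_mem
  have hs : ∀ z : K, ∃ P Q, ¬ M.Van Q ∧ z = φ P / φ Q := fun z => by
    obtain ⟨a, b, hb, rfl⟩ := IsFractionRing.div_surjective A z
    obtain ⟨P, rfl⟩ := Ideal.Quotient.mk_surjective a
    obtain ⟨Q, rfl⟩ := Ideal.Quotient.mk_surjective b
    exact ⟨P, Q, fun hQ => nonZeroDivisors.ne_zero hb (Ideal.Quotient.eq_zero_iff_mem.2 hQ), rfl⟩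
  choose P Q h1 h2 using hs
  have : CharZero K := algebraRat.charZero K
  exact ⟨{ K := K, ζ := fun i => φ (MvPolynomial.X i), r := fun z y => M.ev (P z) y / M.ev (Q z) y
           l := { sets := {U | ∃ D, ¬ M.Van D ∧ ∀ y ∉ M.Z, M.ev D y ≠ 0 → y ∈ U}
                  univ_sets := ⟨1, (Ideal.ne_top_iff_one _).1 hp.ne_top, fun _ _ _ => trivial⟩
                  sets_of_superset := fun ⟨D, a, b⟩ hU => ⟨D, a, fun y c d => hU (b y c d)⟩
                  inter_sets := fun ⟨D, a, b⟩ ⟨D', a', b'⟩ => ⟨D * D',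
                    fun e => (hp.mem_or_mem e).elim a a', fun y c d => by
                      rw [ev_mul, mul_ne_zero_iff] at d
                      exact ⟨b y c d.1, b' y c d.2⟩⟩ }
           mem := fun _ => Iff.rfl
           ker := fun P => by rw [hφ, hk]
           rep := fun z => ⟨P z, Q z, h1 z, by rw [hφ, hφ]; exact h2 z, rfl⟩ }⟩

namespace RF

variable {M : Mf S L} (R : RF M)

lemma ne {D : MvPolynomial M.ι ℂ} (h : ¬ M.Van D) : ∀ᶠ y in R.l, y ∉ M.Z ∧ M.ev D y ≠ 0 :=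
  (R.mem _).2 ⟨D, h, fun _ a b => ⟨a, b⟩⟩

lemma nv {D : MvPolynomial M.ι ℂ} (h : ¬ M.Van D) : aeval R.ζ D ≠ 0 := fun e => h ((R.ker D).1 e)

include R in
lemma nv_mul {D D' : MvPolynomial M.ι ℂ} (h : ¬ M.Van D) (h' : ¬ M.Van D') : ¬ M.Van (D * D') :=
  fun e => mul_ne_zero (R.nv h) (R.nv h') (by rw [← map_mul]; exact (R.ker _).2 e)

include R in
lemma nv_one : ¬ M.Van 1 := fun e => one_ne_zero ((map_one _).symm.trans ((R.ker _).2 e))

lemma nhds {p : X → Prop} (h : ∀ᶠ y in R.l, p y) : ∀ᶠ y in R.l, ∀ᶠ y' in 𝓝 y, p y' := by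
  obtain ⟨D, a, b⟩ := (R.mem _).1 h
  exact (R.ne a).mono fun y hy => (open_ne M D hy.1 hy.2).mono fun y' c => b y' c.1 c.2

lemma gen : Subfield.closure (range (algebraMap ℂ R.K) ∪ range R.ζ) = ⊤ := by
  have h : ∀ P : MvPolynomial M.ι ℂ,
      aeval R.ζ P ∈ Subfield.closure (range (algebraMap ℂ R.K) ∪ range R.ζ) := fun P => by
    induction P using MvPolynomial.induction_on with
    | C a => rw [aeval_C]; exact Subfield.subset_closure (Or.inl ⟨a, rfl⟩)
    | add p q hp hq => rw [map_add]; exact add_mem hp hq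
    | mul_X p i hp =>
      rw [map_mul, aeval_X]; exact mul_mem hp (Subfield.subset_closure (Or.inr ⟨i, rfl⟩))
  refine eq_top_iff.2 fun z _ => ?_
  obtain ⟨P, Q, -, rfl, -⟩ := R.rep z
  exact div_mem (h P) (h Q)

lemma quot (P : MvPolynomial M.ι ℂ) {Q : MvPolynomial M.ι ℂ} (hQ : ¬ M.Van Q) {z : R.K}
    (hz : z = aeval R.ζ P / aeval R.ζ Q) : ∀ᶠ y in R.l, R.r z y = M.ev P y / M.ev Q y := by
  obtain ⟨P', Q', a, b, c⟩ := R.rep z
  have h : M.Van (P' * Q + (-P) * Q') := (R.ker _).1 (by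
    rw [hz, div_eq_div_iff (R.nv hQ) (R.nv a)] at b
    rw [map_add, map_mul, map_mul, map_neg, ← b]
    ring)
  filter_upwards [R.ne hQ, R.ne a] with y h1 h2
  have h3 := h y h1.1
  have h4 : M.ev (-P) y = -M.ev P y := map_neg _ _
  rw [ev_add, ev_mul, ev_mul, h4] at h3
  rw [c, div_eq_div_iff h2.2 h1.2]
  linear_combination h3

lemma poly (P : MvPolynomial M.ι ℂ) : ∀ᶠ y in R.l, R.r (aeval R.ζ P) y = M.ev P y :=
  (R.quot P R.nv_one (by rw [map_one, div_one])).mono fun y hy => by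
    rw [hy, show M.ev 1 y = 1 from map_one _, div_one]

lemma const (c : ℂ) : ∀ᶠ y in R.l, R.r (algebraMap ℂ R.K c) y = c := by
  simpa [Mf.ev] using R.poly (C c)

lemma zeta (i : M.ι) : ∀ᶠ y in R.l, R.r (R.ζ i) y = M.f i y := by
  simpa [Mf.ev] using R.poly (MvPolynomial.X i)

lemma eh : EH R.l R.r where
  add a b := by
    obtain ⟨P, Q, a1, a2, a3⟩ := R.rep a
    obtain ⟨P', Q', b1, b2, b3⟩ := R.rep b
    filter_upwards [R.quot (z := a + b) (P * Q' + Q * P') (R.nv_mul a1 b1) (by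
      rw [a2, b2, div_add_div _ _ (R.nv a1) (R.nv b1), map_add, map_mul, map_mul, map_mul]),
      R.ne a1, R.ne b1] with y h1 h2 h3
    rw [h1, a3, b3, div_add_div _ _ h2.2 h3.2, ev_add, ev_mul, ev_mul, ev_mul]
  mul a b := by
    obtain ⟨P, Q, a1, a2, a3⟩ := R.rep a
    obtain ⟨P', Q', b1, b2, b3⟩ := R.rep b
    filter_upwards [R.quot (z := a * b) (P * P') (R.nv_mul a1 b1) (by
      rw [a2, b2, div_mul_div_comm, map_mul, map_mul])] with y h1
    rw [h1, a3, b3, div_mul_div_comm, ev_mul, ev_mul]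
  one := by simpa using R.const 1

lemma anAt (z : R.K) : ∀ᶠ y in R.l, S.AnAt (R.r z) y := by
  obtain ⟨P, Q, a1, -, a3⟩ := R.rep z
  filter_upwards [R.ne a1] with y h e he hx
  rw [a3]
  exact (anAt_ev M P h.1 e he hx).div (anAt_ev M Q h.1 e he hx) (by simpa [e.left_inv hx] using h.2)

/-- the chain rule -/
lemma chain (d δ : Der R.K) (i i' : M.ι) (h1 : ∀ c, d.D (algebraMap ℂ R.K c) = 0)
    (h2 : d.D (R.ζ i) = 0) (h3 : d.D (R.ζ i') = 1) (h4 : ∀ c, δ.D (algebraMap ℂ R.K c) = 0)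
    (h5 : δ.D (R.ζ i) = 1) (h6 : δ.D (R.ζ i') = 0)
    (h7 : ∀ w, w ∈ acl (insert (R.ζ i') (insert (R.ζ i) (range (algebraMap ℂ R.K))))) (z : R.K) :
    ∀ᶠ y in R.l, ∀ (γ : ℂ → X) (t : ℂ), S.HolAt γ t → γ t = y → deriv (R.r z ∘ γ) t =
      R.r (δ.D z) y * deriv (M.f i ∘ γ) t + R.r (d.D z) y * deriv (M.f i' ∘ γ) t := by
  let β := {q : (ℂ → X) × ℂ // S.HolAt q.1 q.2}
  let b : β → X := fun q => q.1.1 q.1.2
  have eh' : EH (R.l.comap b) fun z q => R.r z (b q) :=
    ⟨fun x y => (R.eh.add x y).comap b, fun x y => (R.eh.mul x y).comap b, R.eh.one.comap b⟩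
  let E : R.K → β → ℂ := fun z q => deriv (R.r z ∘ q.1.1) q.1.2 -
    (R.r (δ.D z) (b q) * deriv (M.f i ∘ q.1.1) q.1.2 +
      R.r (d.D z) (b q) * deriv (M.f i' ∘ q.1.1) q.1.2)
  have dv : ∀ (f g : X → ℂ) (q : β), (∀ᶠ y in 𝓝 (b q), f y = g y) →
      deriv (f ∘ q.1.1) q.1.2 = deriv (g ∘ q.1.1) q.1.2 := fun f g q h =>
    EventuallyEq.deriv_eq (q.2.1.eventually h)
  have z0 := AlE.zero R.eh
  have key := uniq (AlE.hom eh') (fun z => (E z : Germ (R.l.comap b) ℂ)) _ h7 (fun x y => ?_)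
    (fun x y => ?_) (fun s hs => ?_) z
  · refine (eventually_comap.1 (Germ.coe_eq.1 key)).mono fun y hy γ t a c => ?_
    rw [← c]
    exact sub_eq_zero.1 (hy ⟨(γ, t), a⟩ c)
  · refine Germ.coe_eq.2 (?_ : E (x + y) =ᶠ[_] E x + E y)
    filter_upwards [(R.nhds (R.eh.add x y)).comap b, (R.anAt x).comap b, (R.anAt y).comap b,
      (R.eh.add (δ.D x) (δ.D y)).comap b, (R.eh.add (d.D x) (d.D y)).comap b] with q a1 a2 a3 a4 a5
    have := deriv_add (a2.differentiableAt q.2) (a3.differentiableAt q.2)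
    simp only [E, Pi.add_apply, Der.D_add, a4, a5]
    rw [dv _ _ q a1]
    exact (congrArg (· - _) this).trans (by ring)
  · refine Germ.coe_eq.2 (?_ : E (x * y) =ᶠ[_]
      (fun q => R.r x (b q)) * E y + (fun q => R.r y (b q)) * E x)
    filter_upwards [(R.nhds (R.eh.mul x y)).comap b, (R.anAt x).comap b, (R.anAt y).comap b,
      (R.eh.add (x * δ.D y) (y * δ.D x)).comap b, (R.eh.add (x * d.D y) (y * d.D x)).comap b,
      (R.eh.mul x (δ.D y)).comap b, (R.eh.mul y (δ.D x)).comap b, (R.eh.mul x (d.D y)).comap b,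
      (R.eh.mul y (d.D x)).comap b] with q a1 a2 a3 a4 a5 a6 a7 a8 a9
    have := deriv_mul (a2.differentiableAt q.2) (a3.differentiableAt q.2)
    simp only [E, Pi.add_apply, Pi.mul_apply, Der.D_mul, a4, a5, a6, a7, a8, a9]
    rw [dv _ _ q a1]
    exact (congrArg (· - _) this).trans (by simp only [Function.comp, b]; ring)
  · refine Germ.coe_eq.2 (?_ : E s =ᶠ[_] 0)
    rcases hs with rfl | rfl | ⟨c, rfl⟩
    · filter_upwards [(R.nhds (R.zeta i')).comap b, z0.comap b, R.eh.one.comap b] with q a1 a2 a3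
      simp only [E, h3, h6, a2, a3, dv _ _ q a1]
      simp
    · filter_upwards [(R.nhds (R.zeta i)).comap b, z0.comap b, R.eh.one.comap b] with q a1 a2 a3
      simp only [E, h2, h5, a2, a3, dv _ _ q a1]
      simp
    · filter_upwards [(R.nhds (R.const c)).comap b, z0.comap b] with q a1 a2
      simp only [E, h1, h4, a2, dv _ _ q a1]
      simp [Function.comp_def]

end RF

end Pool.Agent.P.MP_7ede32_ag.Bnd
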