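import Pool.Agent.P.MP_7ede32_ag.Bnd.DP

/-!
A lower bound for a polynomial near the roots of `h` and near infinity.
-/

open Filter Topology Metric Set Polynomial

noncomputable section

namespace Pool.Agent.P.MP_7ede32_ag.Bnd

namespace LowHP

theorem cont (G : ℂ[X][X]) : Continuous fun z : ℂ × ℂ => G.evalEval z.2 z.1 := by
  induction G using Polynomial.induction_on' with
  | add p q hp hq =>
    simp only [evalEval_add]
    exact hp.add hq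
  | monomial n a =>
    have : (fun z : ℂ × ℂ => (monomial n a : ℂ[X][X]).evalEval z.2 z.1) =
        fun z : ℂ × ℂ => a.eval z.2 * z.1 ^ n := by
      funext z
      simp [evalEval]
    rw [this]
    exact (a.continuous.comp continuous_snd).mul (continuous_fst.pow n)

theorem near (G : ℂ[X][X]) (hG : G ≠ 0) (α : ℂ) : ∃ (n : ℕ) (q : ℂ[X]), q ≠ 0 ∧
    ∀ y₀, q.eval y₀ ≠ 0 → ∃ c > 0, ∃ ε > 0, ∀ u v : ℂ, ‖u - α‖ < ε → ‖v - y₀‖ < ε →
      c * ‖u - α‖ ^ n ≤ ‖G.evalEval v u‖ := by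
  obtain ⟨G₁, h1, h2⟩ := exists_eq_pow_rootMultiplicity_mul_and_not_dvd G hG (C α)
  refine ⟨rootMultiplicity (C α) G, G₁.eval (C α), fun h => h2 (dvd_iff_isRoot.2 h),
    fun y₀ hy => ?_⟩
  have h3 : 0 < ‖G₁.evalEval y₀ α‖ := norm_pos_iff.2 hy
  have h4 : ∀ᶠ z : ℂ × ℂ in 𝓝 (α, y₀), ‖G₁.evalEval y₀ α‖ / 2 < ‖G₁.evalEval z.2 z.1‖ :=
    (cont G₁).norm.continuousAt.eventually (lt_mem_nhds (by simpa using half_lt_self h3))
  obtain ⟨ε, hε, h5⟩ := Metric.eventually_nhds_iff.1 h4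
  refine ⟨_, half_pos h3, ε, hε, fun u v hu hv => ?_⟩
  have h6 := h5 (y := (u, v)) (by
    rw [Prod.dist_eq, dist_eq_norm, dist_eq_norm]
    exact max_lt hu hv)
  have h7 : G.evalEval v u = (u - α) ^ rootMultiplicity (C α) G * G₁.evalEval v u := by
    conv_lhs => rw [h1]
    simp [evalEval]
  rw [h7, norm_mul, norm_pow, mul_comm]
  exact mul_le_mul_of_nonneg_left h6.le (by positivity)

theorem one_le (h : ℂ[X]) (u : ℂ) : 1 ≤ Bw h u := by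
  have : 0 ≤ ‖u‖ + ‖h.eval u‖⁻¹ := by positivity
  unfold Bw
  linarith

theorem small {c ε : ℝ} (hc : 0 < c) (hε : 0 < ε) :
    ∀ᶠ δ in 𝓝[>] (0 : ℝ), 0 < δ ∧ δ < c ∧ δ < ε := by
  filter_upwards [Ioo_mem_nhdsGT (lt_min hc hε)] with δ hδ
  exact ⟨hδ.1, hδ.2.trans_le (min_le_left _ _), hδ.2.trans_le (min_le_right _ _)⟩

theorem root (h : ℂ[X]) (G : ℂ[X][X]) (hG : G ≠ 0) (α : ℂ) : ∃ (n : ℕ) (q : ℂ[X]), q ≠ 0 ∧
    (h.eval α = 0 → ∀ y₀, q.eval y₀ ≠ 0 → ∀ a, n ≤ a → ∀ᶠ δ in 𝓝[>] (0 : ℝ), ∀ u v : ℂ,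
      ‖u - α‖ < δ → ‖v - y₀‖ ≤ δ → h.eval u ≠ 0 → δ ≤ ‖G.evalEval v u‖ * Bw h u ^ a) := by
  obtain ⟨n, q, hq, h1⟩ := near G hG α
  refine ⟨n, q, hq, fun hα y₀ hy a ha => ?_⟩
  obtain ⟨c, hc, ε, hε, h2⟩ := h1 y₀ hy
  obtain ⟨h₁, h3⟩ := dvd_iff_isRoot.2 hα
  obtain ⟨M, hM⟩ := (isCompact_closedBall α ε).exists_bound_of_continuousOn
    h₁.continuous.continuousOn
  have hM0 : 0 < max M 1 := lt_max_of_lt_right one_pos
  filter_upwards [small (div_pos hc (pow_pos hM0 n)) hε] with δ ⟨_, d2, d3⟩ u v hu hv h0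
  have a1 := h2 u v (hu.trans d3) (hv.trans_lt d3)
  have a2 : ‖h₁.eval u‖ ≤ max M 1 :=
    (hM u (by rw [mem_closedBall, dist_eq_norm]; exact (hu.trans d3).le)).trans (le_max_left _ _)
  have a3 : ‖h.eval u‖ ≤ ‖u - α‖ * max M 1 := by
    rw [h3, eval_mul, norm_mul]
    simpa using mul_le_mul_of_nonneg_left a2 (norm_nonneg (u - α))
  have a4 : ‖h.eval u‖⁻¹ ≤ Bw h u := by
    have := norm_nonneg u
    unfold Bw
    linarith
  have b0 := one_le h u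
  have a5 : 1 ≤ ‖u - α‖ * max M 1 * Bw h u := by
    have := mul_le_mul a3 a4 (by positivity) (by positivity)
    rwa [mul_inv_cancel₀ (norm_ne_zero_iff.2 h0)] at this
  have a6 : 1 ≤ ‖u - α‖ ^ n * max M 1 ^ n * Bw h u ^ n := by
    rw [← mul_pow, ← mul_pow]
    exact one_le_pow₀ a5
  have a7 : Bw h u ^ n ≤ Bw h u ^ a := pow_le_pow_right₀ b0 ha
  refine d2.le.trans ((div_le_iff₀ (pow_pos hM0 n)).2 ?_)
  calc c ≤ c * (‖u - α‖ ^ n * max M 1 ^ n * Bw h u ^ n) := le_mul_of_one_le_right hc.le a6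
    _ = c * ‖u - α‖ ^ n * Bw h u ^ n * max M 1 ^ n := by ring
    _ ≤ ‖G.evalEval v u‖ * Bw h u ^ a * max M 1 ^ n := by gcongr

theorem inf (h : ℂ[X]) (G : ℂ[X][X]) (hG : G ≠ 0) : ∃ (n : ℕ) (q : ℂ[X]), q ≠ 0 ∧
    ∀ y₀, q.eval y₀ ≠ 0 → ∀ a, n ≤ a → ∀ᶠ δ in 𝓝[>] (0 : ℝ), ∀ u v : ℂ,
      δ⁻¹ < ‖u‖ → ‖v - y₀‖ ≤ δ → δ ≤ ‖G.evalEval v u‖ * Bw h u ^ a := by
  obtain ⟨n, q, hq, h1⟩ := near G.reverse (fun e => hG (reverse_eq_zero.1 e)) 0
  refine ⟨n, q, hq, fun y₀ hy a ha => ?_⟩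
  obtain ⟨c, hc, ε, hε, h2⟩ := h1 y₀ hy
  filter_upwards [small hc (lt_min hε one_pos)] with δ ⟨d1, d2, d3⟩ u v hu hv
  have u0 : 0 < ‖u‖ := (inv_pos.2 d1).trans hu
  have u1 : ‖u‖⁻¹ < δ := inv_lt_of_inv_lt₀ d1 hu
  have u2 : 1 ≤ ‖u‖ := by
    have := u1.trans (d3.trans_le (min_le_right _ _))
    exact ((inv_lt_one₀ u0).1 this).le
  have a1 := h2 u⁻¹ v (by simpa using u1.trans (d3.trans_le (min_le_left _ _)))
    (hv.trans_lt (d3.trans_le (min_le_left _ _)))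
  have un : u ≠ 0 := norm_pos_iff.1 u0
  have a2 : G.reverse.evalEval v u⁻¹ * u ^ G.natDegree = G.evalEval v u := by
    letI := invertibleOfNonzero un
    have := eval₂_reverse_mul_pow (evalRingHom v) u G
    rwa [invOf_eq_inv, eval₂_evalRingHom] at this
  have a3 : ‖G.reverse.evalEval v u⁻¹‖ ≤ ‖G.evalEval v u‖ := by
    rw [← a2, norm_mul, norm_pow]
    exact le_mul_of_one_le_right (norm_nonneg _) (one_le_pow₀ u2)
  have b0 := one_le h u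
  have a4 : ‖u‖ ≤ Bw h u := by
    have : 0 ≤ ‖h.eval u‖⁻¹ := by positivity
    unfold Bw
    linarith
  have a5 : ‖u‖ ^ n ≤ Bw h u ^ a :=
    (pow_le_pow_left₀ u0.le a4 n).trans (pow_le_pow_right₀ b0 ha)
  have a6 : c = c * ‖u⁻¹ - 0‖ ^ n * ‖u‖ ^ n := by
    rw [sub_zero, norm_inv, mul_assoc, ← mul_pow, inv_mul_cancel₀ u0.ne', one_pow, mul_one]
  refine d2.le.trans ?_
  rw [a6]
  exact mul_le_mul (a1.trans a3) a5 (by positivity) (norm_nonneg _)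

theorem bdd (h : ℂ[X]) (δ : ℝ) (hδ : 0 < δ) : ∃ B : ℝ, ∀ u : ℂ, ‖u‖ ≤ δ⁻¹ →
    (∀ α, h.eval α = 0 → δ ≤ ‖u - α‖) → Bw h u < B := by
  have hc : IsClosed {u : ℂ | ∀ α, h.eval α = 0 → δ ≤ ‖u - α‖} := by
    simp only [setOf_forall]
    exact isClosed_iInter fun α => isClosed_iInter fun _ =>
      isClosed_le continuous_const (continuous_id.sub continuous_const).norm
  have hk := (isCompact_closedBall (0 : ℂ) δ⁻¹).inter_right hc
  have h1 : ContinuousOn (Bw h) (closedBall 0 δ⁻¹ ∩ {u : ℂ | ∀ α, h.eval α = 0 → δ ≤ ‖u - α‖}) := by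
    refine (continuous_const.add continuous_norm).continuousOn.add
      (h.continuous.norm.continuousOn.inv₀ fun u hu e => ?_)
    have := hu.2 u (norm_eq_zero.1 e)
    simp only [sub_self, norm_zero] at this
    exact absurd this (not_le.2 hδ)
  obtain ⟨M, hM⟩ := hk.bddAbove_image h1
  refine ⟨M + 1, fun u h2 h3 => ?_⟩
  have := hM ⟨u, ⟨mem_closedBall_zero_iff.2 h2, h3⟩, rfl⟩
  linarith

theorem conv (H : MvPolynomial (Fin 2) ℂ) (hH : H ≠ 0) :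
    ∃ G : ℂ[X][X], G ≠ 0 ∧ ∀ u v, ev2 H u v = G.evalEval v u := by
  have key : ∀ (H : MvPolynomial (Fin 2) ℂ) (u v : ℂ), ev2 H u v =
      (MvPolynomial.aeval ![(X : ℂ[X][X]), C X] H).evalEval v u := by
    intro H u v
    unfold ev2
    induction H using MvPolynomial.induction_on with
    | C a => simp [evalEval]
    | add p q hp hq => simp only [map_add, evalEval_add, hp, hq]
    | mul_X p i hp =>
      simp only [map_mul, evalEval_mul, hp]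
      fin_cases i <;> simp [evalEval]
  refine ⟨_, fun e => hH (MvPolynomial.funext fun x => ?_), key H⟩
  have h1 := key H (x 0) (x 1)
  have h2 : ![x 0, x 1] = x := by
    funext i
    fin_cases i <;> rfl
  rw [e, ev2, h2] at h1
  simpa using h1

end LowHP

open LowHP in
theorem sLowH : SLowH := by
  intro h H hh hH
  obtain ⟨G, hG, hev⟩ := conv H hH
  choose n q hq h1 using root h G hG
  obtain ⟨n', q', hq', h2⟩ := inf h G hG
  have hQ : q' * ∏ α ∈ h.roots.toFinset, q α ≠ 0 :=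
    mul_ne_zero hq' (Finset.prod_ne_zero_iff.2 fun α _ => hq α)
  refine ⟨n' + ∑ α ∈ h.roots.toFinset, n α, _, finite_setOf_isRoot hQ, fun y₀ hy => ?_⟩
  have hy' : q'.eval y₀ ≠ 0 ∧ ∀ α ∈ h.roots.toFinset, (q α).eval y₀ ≠ 0 := by
    have : (q' * ∏ α ∈ h.roots.toFinset, q α).eval y₀ ≠ 0 := hy
    rwa [eval_mul, eval_prod, mul_ne_zero_iff, Finset.prod_ne_zero_iff] at this
  have hr : ∀ α, α ∈ h.roots.toFinset ↔ h.eval α = 0 := fun α => by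
    rw [Multiset.mem_toFinset, mem_roots hh, IsRoot.def]
  have e1 := (eventually_all_finset h.roots.toFinset).2 fun α hα =>
    h1 α ((hr α).1 hα) y₀ (hy'.2 α hα) (n' + ∑ α ∈ h.roots.toFinset, n α)
      ((Finset.single_le_sum (fun _ _ => Nat.zero_le _) hα).trans (Nat.le_add_left _ _))
  have e2 := h2 y₀ hy'.1 (n' + ∑ α ∈ h.roots.toFinset, n α) (Nat.le_add_right _ _)
  obtain ⟨δ, ⟨d1, d2⟩, d3⟩ := ((e1.and e2).and self_mem_nhdsWithin).exists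
  obtain ⟨B, hB⟩ := bdd h δ d3
  refine ⟨δ, d3, δ, d3, B, fun u v h0 hu hv => ?_⟩
  rw [hev]
  by_cases c1 : δ⁻¹ < ‖u‖
  · exact d2 u v c1 hv
  by_cases c2 : ∃ α, h.eval α = 0 ∧ ‖u - α‖ < δ
  · obtain ⟨α, c3, c4⟩ := c2
    exact d1 α ((hr α).2 c3) u v c4 hv h0
  · exact absurd (hB u (not_lt.1 c1) fun α hα => not_lt.1 fun c => c2 ⟨α, hα, c⟩) (not_lt.2 hu)

end Pool.Agent.P.MP_7ede32_ag.Bnd
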