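import Pool.Agent.P.MP_7ede32_ag.Bnd.RT2

/-!
The largest disc over which a sheet exists.
-/

open Filter Topology Metric Set Function

noncomputable section

namespace Pool.Agent.P.MP_7ede32_ag.Bnd

open MP_5d7cf0_gt.T (RS)

namespace MaxDP

variable {C : Type} [TopologicalSpace C] [ChartedSpace ℂ C] [RS C] {L : PeriodPair} {B : Bc L C}

/-- compatible sheets can be glued -/
theorem glue {ι : Type} {O : ι → Set ℂ} {G : ι → ℂ → C} (hO : ∀ i, IsOpen (O i))
    (hG : ∀ i, B.Sheet (O i) (G i)) (h : ∀ i j, EqOn (G i) (G j) (O i ∩ O j)) :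
    ∃ g, B.Sheet (⋃ i, O i) g ∧ ∀ i, EqOn g (G i) (O i) := by
  classical
  let g : ℂ → C := fun t => if a : ∃ i, t ∈ O i then G a.choose t else Classical.arbitrary C
  have e : ∀ i, EqOn g (G i) (O i) := fun i t ht => by
    have a : ∃ i, t ∈ O i := ⟨i, ht⟩
    exact (dif_pos a).trans (h _ _ ⟨a.choose_spec, ht⟩)
  refine ⟨g, fun t ht => ?_, e⟩
  obtain ⟨i, hi⟩ := mem_iUnion.1 ht
  rw [e i hi]
  exact ⟨(hG i t hi).1.congr ((e i).eventuallyEq_of_mem ((hO i).mem_nhds hi)).symm, (hG i t hi).2⟩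

/-- a sheet over a convex set has limits at the boundary -/
theorem lim (hd : B.Deg) {O : Set ℂ} (hO : Convex ℝ O) {g : ℂ → C} (hg : B.Sheet O g) {z : ℂ}
    (hz : z ∈ closure O) : ∃ c' ∈ B.Fb z, Tendsto g (𝓝[O] z) (𝓝 c') := by
  have : (𝓝[O] z).NeBot := mem_closure_iff_nhdsWithin_neBot.1 hz
  obtain ⟨c', hc⟩ := exists_clusterPt_of_compactSpace (map g (𝓝[O] z))
  obtain ⟨U', U, hU', hU, h1, h2, h3⟩ :=
    ((hd.fin z).sdiff (t := {c'})).isCompact.separation_of_notMem (x := c') (by simp)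
  have key : ∀ W, IsOpen W → c' ∈ W → ∃ᶠ t in 𝓝[O] z, g t ∈ W := fun W hW hc' =>
    mapClusterPt_iff_frequently.1 hc W (hW.mem_nhds hc')
  have ev : ∀ W, IsOpen W → B.Fb z ⊆ W → ∀ᶠ t in 𝓝 z, t ∈ O → g t ∈ W := fun W hW h =>
    (Bc.proper (hW.mem_nhdsSet.2 h)).mono fun t ht ho => ht (hg t ho).2.1
  refine ⟨c', by_contra fun hn => ?_, tendsto_nhds.2 fun W hW hc' => ?_⟩
  · obtain ⟨t, a, b⟩ := ((key U hU h2).and_eventually (eventually_nhdsWithin_iff.2
      (ev U' hU' fun y hy => h1 ⟨hy, fun e => hn (by rwa [← show y = c' from e])⟩))).exists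
    exact disjoint_left.1 h3 b a
  · obtain ⟨ε, hε, hb⟩ := Metric.eventually_nhds_iff_ball.1
      (ev (W ∩ U ∪ U') ((hW.inter hU).union hU') fun y hy => by
        by_cases e : y = c'
        · exact Or.inl (e ▸ ⟨hc', h2⟩)
        · exact Or.inr (h1 ⟨hy, e⟩))
    have hp : IsPreconnected (g '' (O ∩ ball z ε)) :=
      (hO.inter (convex_ball z ε)).isPreconnected.image _ fun t ht =>
        (hg t ht.1).1.continuousWithinAt
    have hm : O ∩ ball z ε ∈ 𝓝[O] z := inter_mem_nhdsWithin O (ball_mem_nhds z hε)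
    obtain ⟨t, a, b⟩ := ((key (W ∩ U) (hW.inter hU) ⟨hc', h2⟩).and_eventually hm).exists
    have := hp.subset_left_of_subset_union (hW.inter hU) hU' (h3.symm.mono_left inter_subset_right)
      (by rintro _ ⟨t, ht, rfl⟩; exact hb t ht.2 ht.1) ⟨g t, mem_image_of_mem g b, a⟩
    filter_upwards [hm] with t ht using (this ⟨t, ht, rfl⟩).1

/-- two discs centred in a closed disc that meet also meet inside the open disc -/
theorem meet {r ε ε' : ℝ} (hr : 0 < r) {z z' t : ℂ} (hz : z ∈ closedBall 0 r)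
    (hz' : z' ∈ closedBall 0 r) (ht : t ∈ ball z ε ∩ ball z' ε') :
    ∃ s ∈ ball z ε ∩ ball z' ε', s ∈ ball 0 r := by
  have h1 : 0 < ε := pos_of_mem_ball ht.1
  have h2 : 0 < ε' := pos_of_mem_ball ht.2
  have h3 : dist z z' < ε + ε' := (dist_triangle_left z z' t).trans_lt (add_lt_add ht.1 ht.2)
  have h4 : 0 < ε / (ε + ε') := by positivity
  have h5 : 1 - ε / (ε + ε') = ε' / (ε + ε') := by field_simp; ring
  have h6 : 0 < ε' / (ε + ε') := by positivity
  have h7 : AffineMap.lineMap z z' (ε / (ε + ε')) ∈ closure (ball (0 : ℂ) r) := by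
    rw [closure_ball _ hr.ne']
    exact (convex_closedBall 0 r).lineMap_mem hz hz' ⟨h4.le, by linarith⟩
  refine mem_closure_iff.1 h7 _ (isOpen_ball.inter isOpen_ball) ⟨?_, ?_⟩
  · rw [mem_ball, dist_lineMap_left, Real.norm_of_nonneg h4.le]
    refine (mul_lt_mul_of_pos_left h3 h4).trans_eq ?_
    field_simp
  · rw [mem_ball, dist_lineMap_right, h5, Real.norm_of_nonneg h6.le]
    refine (mul_lt_mul_of_pos_left h3 h6).trans_eq ?_
    field_simp

/-- a sheet without ramified boundary values extends to a larger disc -/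
theorem extend (h1 : SSh) {r : ℝ} (hr : 0 < r) {g : ℂ → C} (hg : B.Sheet (ball 0 r) g)
    (h : ∀ z ∈ sphere (0 : ℂ) r, ∃ c' ∈ B.Fb z, B.w c' ≠ 0 ∧
      Tendsto g (𝓝[ball 0 r] z) (𝓝 c')) :
    ∃ r' > r, ∃ g', B.Sheet (ball 0 r') g' ∧ g' 0 = g 0 := by
  obtain ⟨-, hU, hE⟩ := h1 L C B
  have loc : ∀ z : sphere (0 : ℂ) r, ∃ ε > 0, ∃ s, B.Sheet (ball z.1 ε) s ∧
      EqOn g s (ball 0 r ∩ ball z.1 ε) := fun z => by
    obtain ⟨c', a1, a2, a3⟩ := h z.1 z.2
    obtain ⟨ε, hε, s, b1, -, b3⟩ := hE z.1 c' a1 a2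
    have : (𝓝[ball 0 r] z.1).NeBot := mem_closure_iff_nhdsWithin_neBot.1 (by
      rw [closure_ball _ hr.ne']; exact sphere_subset_closedBall z.2)
    obtain ⟨t, c1, c2⟩ := ((a3.eventually b3).and
      (inter_mem_nhdsWithin (ball 0 r) (ball_mem_nhds z.1 hε))).exists
    exact ⟨ε, hε, s, b1, hU _ _ _ (isOpen_ball.inter isOpen_ball)
      ((convex_ball _ _).inter (convex_ball _ _)).isPreconnected (hg.mono inter_subset_left)
      (b1.mono inter_subset_right) t c2 (c1 t c2.2 (hg t c2.1).2.1)⟩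
  choose ε hε s hs he using loc
  obtain ⟨g', a1, a2⟩ := glue (B := B) (ι := Option (sphere (0 : ℂ) r))
    (O := fun i => i.elim (ball 0 r) fun z => ball z.1 (ε z)) (G := fun i => i.elim g s)
    (by rintro (_ | z) <;> exact isOpen_ball) (by rintro (_ | z); exacts [hg, hs z]) (by
      rintro (_ | z) (_ | z') t ht
      · rfl
      · exact he z' ht
      · exact (he z ⟨ht.2, ht.1⟩).symm
      · obtain ⟨u, b1, b2⟩ := meet hr (sphere_subset_closedBall z.2)
          (sphere_subset_closedBall z'.2) ht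
        exact hU _ _ _ (isOpen_ball.inter isOpen_ball)
          ((convex_ball _ _).inter (convex_ball _ _)).isPreconnected
          ((hs z).mono inter_subset_left) ((hs z').mono inter_subset_right) u b1
          ((he z ⟨b2, b1.1⟩).symm.trans (he z' ⟨b2, b1.2⟩)) ht)
  obtain ⟨δ, hδ, hs'⟩ := (isCompact_closedBall (0 : ℂ) r).exists_thickening_subset_open
    (t := ⋃ i : Option (sphere (0 : ℂ) r), i.elim (ball 0 r) fun z => ball z.1 (ε z))
    (isOpen_iUnion (by rintro (_ | z) <;> exact isOpen_ball)) fun t ht => by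
      rw [← ball_union_sphere] at ht
      rcases ht with ht | ht
      · exact mem_iUnion.2 ⟨none, ht⟩
      · exact mem_iUnion.2 ⟨some ⟨t, ht⟩, mem_ball_self (hε _)⟩
  rw [thickening_closedBall hδ hr.le] at hs'
  exact ⟨δ + r, lt_add_of_pos_left r hδ, g', a1.mono hs', a2 none (mem_ball_self hr)⟩

end MaxDP

open MaxDP in
theorem sMaxD (h1 : SSh) (h2 : SDegB) : SMaxD := by
  intro L C _ _ _ B R hR c hc hw
  obtain ⟨-, hU, hE⟩ := h1 L C B
  let T : Set ℝ := {r | (0 < r ∧ r ≤ R) ∧ ∃ g, B.Sheet (ball 0 r) g ∧ g 0 = c}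
  have hb : BddAbove T := ⟨R, fun r hr => hr.1.2⟩
  have hT : ∀ r > 0, ∀ g, B.Sheet (ball 0 r) g → g 0 = c → min r R ∈ T := fun r hr g a b =>
    ⟨⟨lt_min hr hR, min_le_right _ _⟩, g, a.mono (ball_subset_ball (min_le_left _ _)), b⟩
  obtain ⟨r₀, hr₀, g₀, a1, a2, -⟩ := hE 0 c hc hw
  have h0 := hT r₀ hr₀ g₀ a1 a2
  have hr : 0 < sSup T := h0.1.1.trans_le (le_csSup hb h0)
  have hrR : sSup T ≤ R := csSup_le ⟨_, h0⟩ fun r hr => hr.1.2
  choose G hG hG0 using fun r : T => r.2.2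
  obtain ⟨g, b1, b2⟩ := glue (B := B) (O := fun r : T => ball 0 r.1) (fun _ => isOpen_ball) hG
    fun r r' => hU _ _ _ (isOpen_ball.inter isOpen_ball)
      ((convex_ball _ _).inter (convex_ball _ _)).isPreconnected ((hG r).mono inter_subset_left)
      ((hG r').mono inter_subset_right) 0 ⟨mem_ball_self r.2.1.1, mem_ball_self r'.2.1.1⟩
      ((hG0 r).trans (hG0 r').symm)
  have hg : B.Sheet (ball 0 (sSup T)) g := b1.mono fun t ht => by
    obtain ⟨r, c1, c2⟩ := exists_lt_of_lt_csSup ⟨_, h0⟩ (mem_ball.1 ht)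
    exact mem_iUnion.2 ⟨⟨r, c1⟩, c2⟩
  have hg0 : g 0 = c := (b2 ⟨_, h0⟩ (mem_ball_self h0.1.1)).trans (hG0 _)
  rcases hrR.eq_or_lt with e | hlt
  · exact Or.inl ⟨g, e ▸ hg, hg0⟩
  refine Or.inr (by_contra fun hn => ?_)
  obtain ⟨r', c1, g', c2, c3⟩ := extend h1 hr hg fun z hz => by
    obtain ⟨c', d1, d2⟩ := lim (h2 L C B) (convex_ball 0 _) hg (z := z) (by
      rw [closure_ball _ hr.ne']; exact sphere_subset_closedBall hz)
    have e : ‖z‖ = sSup T := mem_sphere_zero_iff_norm.1 hz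
    refine ⟨c', d1, fun d3 => hn ⟨g, z, c', norm_pos_iff.1 (e ▸ hr), e ▸ hrR, ?_⟩, d2⟩
    rw [e]
    exact ⟨hg, hg0, d1, d3, d2⟩
  exact (lt_min c1 hlt).not_ge (le_csSup hb (hT r' (hr.trans c1) g' c2 (c3.trans hg0)))

end Pool.Agent.P.MP_7ede32_ag.Bnd
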