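import Pool.Agent.P.MP_7ede32_ag.Bnd.DR

/-!
The partition of the curve into the good sheets over a fundamental domain and the rest.
-/

open Filter Topology Metric Set Function

noncomputable section

namespace Pool.Agent.P.MP_7ede32_ag.Bnd

open MP_5d7cf0_gt.T (RS)

namespace PrtP

/-- a finitely supported sum over a finite disjoint union -/
lemma sum_biUnion {C ι : Type} {f : C → ℤ} (I : Finset ι) (t : ι → Set C)
    (hd : ∀ i ∈ I, ∀ j ∈ I, i ≠ j → Disjoint (t i) (t j))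
    (hf : ∀ i ∈ I, (t i ∩ support f).Finite) :
    ∑ᶠ c ∈ ⋃ i ∈ (I : Set ι), t i, f c = ∑ i ∈ I, ∑ᶠ c ∈ t i, f c := by
  have e : (⋃ i ∈ (I : Set ι), t i) ∩ support f = ⋃ i ∈ (I : Set ι), t i ∩ support f := by
    rw [iUnion₂_inter]
  rw [← finsum_mem_inter_support, e, finsum_mem_biUnion (fun i hi j hj hij =>
    (hd i hi j hj hij).mono inter_subset_left inter_subset_left) I.finite_toSet hf,
    finsum_mem_coe_finset]
  exact Finset.sum_congr rfl fun i _ => finsum_mem_inter_support _ _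

/-- a finitely supported sum splits along a set and its complement -/
lemma sum_split {C : Type} {f : C → ℤ} (S U : Set C) (hf : (S ∩ support f).Finite) :
    ∑ᶠ c ∈ S, f c = ∑ᶠ c ∈ Uᶜ ∩ S, f c + ∑ᶠ c ∈ U ∩ S, f c := by
  rw [← finsum_mem_union' (disjoint_compl_left.mono inter_subset_left inter_subset_left)
    (hf.subset fun c h => ⟨h.1.2, h.2⟩) (hf.subset fun c h => ⟨h.1.2, h.2⟩),
    ← union_inter_distrib_right, compl_union_self, univ_inter]

end PrtP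

open PrtP in
theorem sPrt (h1 : SSh) (h2 : SDegB) : SPrt := by
  intro L C _ _ _ B P R 𝒢 hu hP hR hs hi
  have hd := h2 L C B
  have sub : ∀ {c : C} {z z' : ℂ}, c ∈ B.Fb z → c ∈ B.Fb z' → z - z' ∈ L.lattice :=
    fun h h' => (Submodule.Quotient.eq _).1 (h.symm.trans h')
  have one : ∀ {c : C} {z z' : ℂ}, z ∈ P → z' ∈ P → c ∈ B.Fb z → c ∈ B.Fb z' → z = z' :=
    fun {c z z'} hz hz' h h' =>
      (hu z).unique ⟨hz, by simp⟩ ⟨hz', sub h h'⟩
  have fb : ∀ g ∈ 𝒢, ∀ z ∈ P, g z ∈ B.Fb z := fun g hg z hz => (hs g hg z (hR hz)).2.1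
  have inj : ∀ g ∈ 𝒢, ∀ g' ∈ 𝒢, ∀ z ∈ P, ∀ z' ∈ P, g z = g' z' → z = z' ∧ g = g' := by
    intro g hg g' hg' z hz z' hz' e
    obtain rfl : z = z' := one hz hz' (fb g hg z hz) (e ▸ fb g' hg' z' hz')
    refine ⟨rfl, hi g hg g' hg' ?_⟩
    exact (h1 L C B).2.1 _ g g' isOpen_ball (convex_ball 0 R).isPreconnected (hs g hg) (hs g' hg')
      z (hR hz) e (mem_ball_self (pos_of_mem_ball (hR hz)))
  have io : ∀ g ∈ 𝒢, InjOn g P := fun g hg z hz z' hz' e => (inj g hg g hg z hz z' hz' e).1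
  have dj : ∀ g ∈ 𝒢, ∀ g' ∈ 𝒢, g ≠ g' → Disjoint (g '' P) (g' '' P) := by
    intro g hg g' hg' hne
    rw [Set.disjoint_left]
    rintro _ ⟨z, hz, rfl⟩ ⟨z', hz', e⟩
    exact hne (inj g hg g' hg' z hz z' hz' e.symm).2
  refine ⟨(⋃ g ∈ (𝒢 : Set (ℂ → C)), g '' P)ᶜ, B.n - 𝒢.card, ?_, fun z => ?_, by ring,
    fun f hf => ?_⟩
  · let _ : MeasurableSpace C := borel C
    have _ : BorelSpace C := ⟨rfl⟩
    exact (MeasurableSet.biUnion 𝒢.finite_toSet.countable fun g hg =>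
      hP.image_of_continuousOn_injOn
        (fun z hz => (hs g hg z (hR hz)).1.continuousWithinAt) (io g hg)).compl
  · obtain ⟨z₀, ⟨hz₀, hzz⟩, -⟩ := hu z
    have eF : B.Fb z = B.Fb z₀ := by
      have : L.lattice.mkQ z = L.lattice.mkQ z₀ := (Submodule.Quotient.eq _).2 hzz
      simp only [Bc.Fb, this]
    have eU : (⋃ g ∈ (𝒢 : Set (ℂ → C)), g '' P) ∩ B.Fb z = (fun g : ℂ → C => g z₀) '' 𝒢 := by
      rw [eF]
      ext c
      constructor
      · rintro ⟨hc, hF⟩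
        obtain ⟨g, hg, t, ht, rfl⟩ := mem_iUnion₂.1 hc
        obtain rfl : t = z₀ := one ht hz₀ (fb g hg t ht) hF
        exact ⟨g, hg, rfl⟩
      · rintro ⟨g, hg, rfl⟩
        exact ⟨mem_biUnion hg ⟨z₀, hz₀, rfl⟩, fb g hg z₀ hz₀⟩
    have h3 := sum_split (f := B.e) (B.Fb z) (⋃ g ∈ (𝒢 : Set (ℂ → C)), g '' P)
      ((hd.fin z).subset inter_subset_left)
    rw [hd.sum, eU, finsum_mem_image
      (fun g hg g' hg' e => (inj g hg g' hg' z₀ hz₀ z₀ hz₀ e).2), finsum_mem_coe_finset,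
      Finset.sum_congr rfl (fun g hg => (hd.e_iff _).2 (hs g hg z₀ (hR hz₀)).2.2)] at h3
    rw [h3]
    simp
  · have h3 := sum_split (f := f) univ (⋃ g ∈ (𝒢 : Set (ℂ → C)), g '' P)
      (hf.subset inter_subset_right)
    rw [finsum_mem_univ, inter_univ, inter_univ,
      sum_biUnion 𝒢 _ dj fun g _ => hf.subset inter_subset_right] at h3
    rw [h3]
    exact congrArg _ (Finset.sum_congr rfl fun g hg => finsum_mem_image (io g hg))

end Pool.Agent.P.MP_7ede32_ag.Bnd
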