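import Pool.Agent.P.MP_7ede32_ag.Bnd.DY
import Pool.Agent.P.MP_7ede32_ag.Bnd.XT

/-!
The leading coefficient of a meromorphic function along a periodic section.
-/

open Filter Topology Metric Set

noncomputable section

namespace Pool.Agent.P.MP_7ede32_ag.Bnd

open Full Geo

namespace QEP

variable {X : Type} [MetricSpace X]

theorem ext_congr {Z : Set X} {ξ ξ' : X → ℂ} {x : X} (h : ∀ᶠ y in 𝓝 x, ξ y = ξ' y) :
    extZ Z ξ x = extZ Z ξ' x := by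
  have h1 : ξ =ᶠ[𝓝[Zᶜ] x] ξ' := nhdsWithin_le_nhds h
  unfold extZ limUnder
  simp only [Filter.map_congr h1]

theorem alg {v E g f t : ℂ} {α : ℤ} {β a b : ℕ} (h : α * b = β * a) (hg : g ≠ 0) (hf : f ≠ 0)
    (h1 : t = v ^ β * g) (h2 : f = v ^ α * E) : t ^ a ≠ 0 ∧ f ^ b = E ^ b / g ^ a * t ^ a := by
  have h3 : (v ^ α) ^ b = (v ^ β) ^ a := by
    rw [← zpow_natCast, ← zpow_mul, h, zpow_mul, zpow_natCast, zpow_natCast]
  have h4 : (v ^ β) ^ a ≠ 0 := h3 ▸ pow_ne_zero _ (left_ne_zero_of_mul (h2 ▸ hf))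
  have h5 := pow_ne_zero a hg
  subst h1 h2
  rw [mul_pow, mul_pow, h3]
  exact ⟨mul_ne_zero h4 h5, by field_simp⟩

end QEP

theorem sQE (h : STh) : SQE := by
  intro X _ S L σ Z F a b hZ hF q hq hO
  refine ⟨fun w => extZ Z (fun y => F y ^ b / σ.θ q w y ^ a) (q w), fun p hp w hw => ?_,
    hO.2.mono σ.isOpen_O ?_⟩
  · beta_reduce
    rw [σ.per q hq p hp w (σ.O_sub hw)]
    exact QEP.ext_congr (((h X S L σ q hq w hw).2.2.2.2 p hp).mono fun y hy => by rw [hy])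
  rintro w hw ⟨α, β, ⟨-, v, E, g, -, a1, a2, a3, a4, a5⟩, hαβ⟩
  have hs := (σ.sec hq hw).mono fun _ b => b.1
  have hc : ContinuousAt q w := hs.self_of_nhds.1
  have b0 := (h X S L σ q hq w hw).2.2.2.1
  have b1 : S.AnAt (fun y => E y ^ b / g y ^ a) (q w) :=
    anX_div (anX_pow a1 b) (anX_pow a2 a) (pow_ne_zero _ a4)
  have b2 : E (q w) ^ b / g (q w) ^ a ≠ 0 := div_ne_zero (pow_ne_zero _ a3) (pow_ne_zero _ a4)
  have b3 : ∀ᶠ y in 𝓝 (q w), y ∉ Z → σ.θ q w y ^ a ≠ 0 ∧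
      F y ^ b = E y ^ b / g y ^ a * σ.θ q w y ^ a := by
    filter_upwards [a5, a2.continuousAt.eventually_ne a4] with y c1 c2 c3
    exact QEP.alg hαβ c2 (hF y c3) c1.1 (c1.2 c3)
  have b4 := extZ_eq (ξ := fun y => F y ^ b / σ.θ q w y ^ a) hZ b1
    (b3.mono fun y c1 c2 => by rw [(c1 c2).2, mul_div_cancel_right₀ _ (c1 c2).1])
  have b5 : ∀ᶠ w' in 𝓝 w, extZ Z (fun y => F y ^ b / σ.θ q w' y ^ a) (q w') =
      E (q w') ^ b / g (q w') ^ a := by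
    filter_upwards [b0, hc.eventually b4] with w' c1 c2
    exact (QEP.ext_congr (c1.1.mono fun y hy => by rw [hy])).trans c2
  refine ⟨(anAt_comp (h := q) b1 hs).congr (b5.mono fun _ c => c.symm),
    b5.self_of_nhds.trans_ne b2, ?_⟩
  have t1 : Tendsto (fun p : ℂ × X => p.1) (𝓝 (w, q w)) (𝓝 w) := continuous_fst.tendsto _
  have t2 : Tendsto (fun p : ℂ × X => p.2) (𝓝 (w, q w)) (𝓝 (q w)) := continuous_snd.tendsto _
  have t3 := b1.continuousAt.tendsto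
  have t4 := (t3.comp hc).comp t1
  obtain ⟨η, d1, d2⟩ := tube hc (P := fun p => (p.2 ∉ Z → σ.θ q w p.2 ^ a ≠ 0 ∧
      F p.2 ^ b = E p.2 ^ b / g p.2 ^ a * σ.θ q w p.2 ^ a) ∧
      ‖E p.2 ^ b / g p.2 ^ a - E (q p.1) ^ b / g (q p.1) ^ a‖ <
        ‖E (q p.1) ^ b / g (q p.1) ^ a‖ / 2)
    ((t2.eventually b3).and (((t3.comp t2).sub t4).norm.eventually_lt (t4.norm.div_const 2)
      (by rw [sub_self, norm_zero]; exact half_pos (norm_pos_iff.2 b2))))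
  refine ⟨η, d1, ?_⟩
  filter_upwards [d2, b0, b5] with w' c1 c2 c3 y hy hπ hd
  obtain ⟨e1, e2⟩ := c1 y hd
  beta_reduce
  rw [← c2.2 y hπ, c3, (e1 hy).2, ← sub_mul, norm_mul, norm_mul, ← div_mul_eq_mul_div]
  exact ⟨(e1 hy).1, mul_le_mul_of_nonneg_right e2.le (norm_nonneg _)⟩

end Pool.Agent.P.MP_7ede32_ag.Bnd
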