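import Pool.Agent.P.MP_7ede32_ag.Bnd.DR

/-!
Toolbox: orders of meromorphic functions on a Riemann surface.
-/

open Filter Topology Metric Set Function

noncomputable section

namespace Pool.Agent.P.MP_7ede32_ag.Bnd

open MP_5d7cf0_gt
open MP_5d7cf0_gt.T (RS zc loc An Hf Om Hol)
open MP_5d7cf0_gt.T renaming D → Dc

variable {C : Type} [TopologicalSpace C] [ChartedSpace ℂ C] {u v w : C → ℂ} {c y : C}

theorem loc_congr_ne (e : u =ᶠ[𝓝[≠] c] v) : loc u c =ᶠ[𝓝[≠] (zc c c)] loc v c :=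
  (T.eventually_chart_ne (mem_chart_source ℂ c)).1 e

theorem mr_of_an (h : An u c) : Mr u c := AnalyticAt.meromorphicAt h

theorem Mr.congr (h : Mr u c) (e : u =ᶠ[𝓝[≠] c] v) : Mr v c :=
  MeromorphicAt.congr h (loc_congr_ne e)

theorem od_congr (e : u =ᶠ[𝓝[≠] c] v) : od u c = od v c := by
  rw [od, od, ord, ord, meromorphicOrderAt_congr (loc_congr_ne e)]

theorem ze_congr (e : u =ᶠ[𝓝[≠] c] v) : ze u c = ze v c := by rw [ze, ze, od_congr e]

theorem po_congr (e : u =ᶠ[𝓝[≠] c] v) : po u c = po v c := by rw [po, po, od_congr e]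

theorem mr_const (a : ℂ) : Mr (fun _ => a) c := mr_of_an (T.an_const a)

theorem Mr.add (hu : Mr u c) (hv : Mr v c) : Mr (fun y => u y + v y) c := MeromorphicAt.add hu hv

theorem Mr.sub (hu : Mr u c) (hv : Mr v c) : Mr (fun y => u y - v y) c := MeromorphicAt.sub hu hv

theorem Mr.neg (hu : Mr u c) : Mr (fun y => -u y) c := MeromorphicAt.neg hu

theorem Mr.mul (hu : Mr u c) (hv : Mr v c) : Mr (fun y => u y * v y) c := MeromorphicAt.mul hu hv

theorem Mr.inv (hu : Mr u c) : Mr (fun y => (u y)⁻¹) c := MeromorphicAt.inv hu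

theorem Mr.div (hu : Mr u c) (hv : Mr v c) : Mr (fun y => u y / v y) c := MeromorphicAt.div hu hv

theorem Mr.pow (hu : Mr u c) (n : ℕ) : Mr (fun y => u y ^ n) c := MeromorphicAt.pow hu n

theorem Mr.zpow (hu : Mr u c) (n : ℤ) : Mr (fun y => u y ^ n) c := MeromorphicAt.zpow hu n

theorem mr_sum {ι : Type} {s : Finset ι} {f : ι → C → ℂ} (h : ∀ i ∈ s, Mr (f i) c) :
    Mr (fun y => ∑ i ∈ s, f i y) c := MeromorphicAt.fun_sum (G := fun i => loc (f i) c) h

theorem mr_prod {ι : Type} {s : Finset ι} {f : ι → C → ℂ} (h : ∀ i ∈ s, Mr (f i) c) :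
    Mr (fun y => ∏ i ∈ s, f i y) c := MeromorphicAt.fun_prod (F := fun i => loc (f i) c) h

theorem mr_eval {ι : Type} {f : ι → C → ℂ} (h : ∀ i, Mr (f i) c) (P : MvPolynomial ι ℂ) :
    Mr (fun y => MvPolynomial.eval (fun i => f i y) P) c := by
  induction P using MvPolynomial.induction_on with
  | C a => simpa using mr_const a
  | add p q hp hq => simpa using hp.add hq
  | mul_X p i hp => simpa using hp.mul (h i)

theorem mr_comp {m : ℂ → ℂ} (hu : An u c) (hm : MeromorphicAt m (u c)) :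
    Mr (fun y => m (u y)) c :=
  MeromorphicAt.comp_analyticAt (f := m) (g := loc u c) (by rwa [T.loc_self]) hu

theorem Mr.ne_top (h : Mr u c) :
    meromorphicOrderAt (loc u c) (zc c c) ≠ ⊤ ↔ ∀ᶠ y in 𝓝[≠] c, u y ≠ 0 :=
  (meromorphicOrderAt_ne_top_iff_eventually_ne_zero h).trans
    (T.eventually_chart_ne (mem_chart_source ℂ c) (P := fun y => u y ≠ 0)).symm

theorem top_iff : meromorphicOrderAt (loc u c) (zc c c) = ⊤ ↔ ∀ᶠ y in 𝓝[≠] c, u y = 0 :=
  meromorphicOrderAt_eq_top_iff.trans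
    (T.eventually_chart_ne (mem_chart_source ℂ c) (P := fun y => u y = 0)).symm

theorem Mr.zero_or (h : Mr u c) : (∀ᶠ y in 𝓝[≠] c, u y = 0) ∨ ∀ᶠ y in 𝓝[≠] c, u y ≠ 0 := by
  rw [← top_iff, ← h.ne_top]
  exact em _

theorem ze_nonneg : 0 ≤ ze u c := le_max_right _ _

theorem po_nonneg : 0 ≤ po u c := le_max_right _ _

theorem od_eq : od u c = ze u c - po u c := by rw [ze, po]; omega

theorem od_of_zero (h : ∀ᶠ y in 𝓝[≠] c, u y = 0) : od u c = 0 := by
  rw [od, ord, top_iff.2 h, WithTop.untop₀_top]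

theorem Mr.coe_od (h : Mr u c) (h0 : ∀ᶠ y in 𝓝[≠] c, u y ≠ 0) :
    meromorphicOrderAt (loc u c) (zc c c) = od u c :=
  (WithTop.coe_untop₀_of_ne_top (h.ne_top.2 h0)).symm

theorem od_of_eq {n : ℤ} (h : meromorphicOrderAt (loc u c) (zc c c) = n) : od u c = n := by
  rw [od, ord, h, WithTop.untop₀_coe]

theorem od_of_ne (h : An u c) (h0 : u c ≠ 0) : od u c = 0 :=
  od_of_eq ((meromorphicOrderAt_eq_int_iff (mr_of_an h)).2
    ⟨_, h, by rwa [T.loc_self], Eventually.of_forall fun z => by simp⟩)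

theorem od_const (a : ℂ) : od (fun _ : C => a) c = 0 := by
  by_cases h : a = 0
  · exact od_of_zero (Eventually.of_forall fun _ => h)
  · exact od_of_ne (T.an_const a) h

theorem od_neg : od (fun y => -u y) c = od u c := by
  have : meromorphicOrderAt (loc u c) (zc c c) =
      meromorphicOrderAt (loc (fun y => -u y) c) (zc c c) := meromorphicOrderAt_neg
  rw [od, od, ord, ord, this]

theorem od_inv : od (fun y => (u y)⁻¹) c = -od u c := by
  have : meromorphicOrderAt (loc (fun y => (u y)⁻¹) c) (zc c c) = _ :=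
    meromorphicOrderAt_inv (f := loc u c)
  rw [od, ord, this, WithTop.untop₀_neg]
  rfl

theorem od_mul (hu : Mr u c) (hv : Mr v c) (h1 : ∀ᶠ y in 𝓝[≠] c, u y ≠ 0)
    (h2 : ∀ᶠ y in 𝓝[≠] c, v y ≠ 0) : od (fun y => u y * v y) c = od u c + od v c :=
  od_of_eq ((meromorphicOrderAt_mul hu hv).trans (by rw [hu.coe_od h1, hv.coe_od h2]; rfl))

theorem od_div (hu : Mr u c) (hv : Mr v c) (h1 : ∀ᶠ y in 𝓝[≠] c, u y ≠ 0)
    (h2 : ∀ᶠ y in 𝓝[≠] c, v y ≠ 0) : od (fun y => u y / v y) c = od u c - od v c := by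
  simp only [div_eq_mul_inv]
  rw [od_mul hu hv.inv h1 (h2.mono fun _ h => inv_ne_zero h), od_inv, sub_eq_add_neg]

theorem od_zpow (hu : Mr u c) (n : ℤ) : od (fun y => u y ^ n) c = n * od u c := by
  have : meromorphicOrderAt (loc (fun y => u y ^ n) c) (zc c c) = _ :=
    meromorphicOrderAt_zpow (n := n) hu
  rw [od, ord, this, WithTop.untop₀_mul]
  rfl

theorem od_pow (hu : Mr u c) (n : ℕ) : od (fun y => u y ^ n) c = n * od u c := by
  simpa using od_zpow hu n

theorem od_nonneg_of_an (h : An u c) : 0 ≤ od u c :=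
  WithTop.untop₀_nonneg.2 (AnalyticAt.meromorphicOrderAt_nonneg h)

theorem ne_of_an (h : An u c) (h0 : u c ≠ 0) : ∀ᶠ y in 𝓝[≠] c, u y ≠ 0 :=
  (h.continuousAt.eventually_ne h0).filter_mono nhdsWithin_le_nhds

theorem od_unit_mul (hv : An v c) (h0 : v c ≠ 0) : od (fun y => v y * u y) c = od u c := by
  have : meromorphicOrderAt (loc (fun y => v y * u y) c) (zc c c) = _ :=
    meromorphicOrderAt_mul_of_ne_zero (f := loc u c) hv (ne_of_eq_of_ne T.loc_self h0)
  rw [od, ord, this]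
  rfl

theorem tendsto_loc {l : Filter ℂ} :
    Tendsto (loc u c) (𝓝[≠] (zc c c)) l ↔ Tendsto u (𝓝[≠] c) l := by
  rw [loc, ← tendsto_map'_iff, T.map_symm_ne (mem_chart_source ℂ c)]

theorem od_neg_iff (h : Mr u c) :
    od u c < 0 ↔ Tendsto u (𝓝[≠] c) (Bornology.cobounded ℂ) := by
  rw [← tendsto_loc, tendsto_cobounded_iff_meromorphicOrderAt_neg h, ← not_le, ← not_le, od, ord,
    WithTop.untop₀_nonneg]

theorem od_pos_iff (h : Mr u c) (h0 : ∀ᶠ y in 𝓝[≠] c, u y ≠ 0) :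
    0 < od u c ↔ Tendsto u (𝓝[≠] c) (𝓝 0) := by
  rw [← tendsto_loc, tendsto_zero_iff_meromorphicOrderAt_pos h, h.coe_od h0]
  norm_cast

theorem od_nonneg_iff (h : Mr u c) : 0 ≤ od u c ↔ ∃ a, Tendsto u (𝓝[≠] c) (𝓝 a) := by
  rw [od, ord, WithTop.untop₀_nonneg, ← tendsto_nhds_iff_meromorphicOrderAt_nonneg h]
  simp only [tendsto_loc]

theorem one_le_od_of_tendsto (h : Mr u c) (h1 : ∀ᶠ y in 𝓝[≠] c, u y ≠ 0)
    (h2 : Tendsto u (𝓝[≠] c) (𝓝 0)) : 1 ≤ od u c := (od_pos_iff h h1).2 h2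

theorem one_le_od (h : An u c) (h0 : u c = 0) (h1 : ∀ᶠ y in 𝓝[≠] c, u y ≠ 0) : 1 ≤ od u c :=
  one_le_od_of_tendsto (mr_of_an h) h1
    (h0 ▸ h.continuousAt.tendsto.mono_left (nhdsWithin_le_nhds (s := {c}ᶜ)))

theorem order_eq_one (h : An u c) (h0 : u c = 0) (h1 : Dc u c ≠ 0) :
    meromorphicOrderAt (loc u c) (zc c c) = (1 : ℤ) := by
  have h2 : analyticOrderAt (loc u c) (zc c c) = 1 :=
    AnalyticAt.analyticOrderAt_eq_one_of_zero_deriv_ne_zero h (by rwa [T.loc_self]) h1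
  rw [AnalyticAt.meromorphicOrderAt_eq h, h2]
  rfl

theorem od_eq_one (h : An u c) (h0 : u c = 0) (h1 : Dc u c ≠ 0) : od u c = 1 :=
  od_of_eq (order_eq_one h h0 h1)

theorem ne_of_D (h : An u c) (h0 : u c = 0) (h1 : Dc u c ≠ 0) : ∀ᶠ y in 𝓝[≠] c, u y ≠ 0 :=
  (mr_of_an h).ne_top.1 (by rw [order_eq_one h h0 h1]; exact WithTop.coe_ne_top)

theorem two_le_od (h : An u c) (h0 : u c = 0) (h1 : ∀ᶠ y in 𝓝[≠] c, u y ≠ 0) (h2 : Dc u c = 0) :
    2 ≤ od u c := by
  have a := one_le_od h h0 h1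
  have b := meromorphicOrderAt_deriv_eq_sub_one (Int.cast_ne_zero.2 (by omega))
    ((mr_of_an h).coe_od h1)
  have d := (tendsto_zero_iff_meromorphicOrderAt_pos (AnalyticAt.deriv h).meromorphicAt).1
    (show Tendsto _ _ (𝓝 0) from h2 ▸
      (AnalyticAt.deriv h).continuousAt.tendsto.mono_left nhdsWithin_le_nhds)
  rw [b] at d
  have : 0 < od u c - 1 := by exact_mod_cast d
  omega

theorem od_of_tendsto {a : ℂ} (h : Mr u c) (h0 : a ≠ 0) (h1 : Tendsto u (𝓝[≠] c) (𝓝 a)) :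
    od u c = 0 := by
  have a1 := (od_nonneg_iff h).2 ⟨a, h1⟩
  have a2 : ¬ 0 < od u c := fun e =>
    h0 (tendsto_nhds_unique h1 ((od_pos_iff h (h1.eventually_ne h0)).1 e))
  omega

theorem od_comp {m : ℂ → ℂ} (hu : An u c) (hm : MeromorphicAt m (u c))
    (hc : ¬ ∀ᶠ y in 𝓝 c, u y = u c) :
    od (fun y => m (u y)) c = ord m (u c) * od (fun y => u y - u c) c := by
  have h1 : ¬ EventuallyConst (loc u c) (𝓝 (zc c c)) := fun e => by
    obtain ⟨a, ha⟩ := eventuallyConst_iff_exists_eventuallyEq.1 e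
    have h2 : ∀ᶠ y in 𝓝 c, u y = a := (T.eventually_chart (mem_chart_source ℂ c)).2 ha
    exact hc (h2.self_of_nhds ▸ h2)
  have h2 := MeromorphicAt.meromorphicOrderAt_comp (f := m) (g := loc u c)
    (by rwa [T.loc_self]) hu h1
  rw [T.loc_self, ← AnalyticAt.meromorphicOrderAt_eq (f := fun x => loc u c x - u c)
    (AnalyticAt.sub hu analyticAt_const)] at h2
  rw [od, od, ord, ord, ord, ← WithTop.untop₀_mul]
  exact congrArg _ h2

theorem po_of_an (h : An u c) : po u c = 0 := by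
  have := od_nonneg_of_an h
  rw [po]; omega

theorem po_of_bound {K : ℝ} (h : Mr u c) (hb : ∀ᶠ y in 𝓝[≠] c, ‖u y‖ ≤ K) : po u c = 0 := by
  have : ¬ od u c < 0 := fun e => by
    obtain ⟨y, a, b⟩ := ((((od_neg_iff h).1 e).eventually
      (isBounded_closedBall (x := (0 : ℂ)) (r := K))).and hb).exists
    exact a (mem_closedBall_zero_iff.2 b)
  rw [po]; omega

theorem exists_an (h : Mr u c) (h0 : po u c = 0) : ∃ v, An v c ∧ u =ᶠ[𝓝[≠] c] v := by
  have hc := mem_chart_source ℂ c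
  obtain ⟨g, h1, h2⟩ := (MeromorphicAt.meromorphicOrderAt_nonneg_iff h).1
    (WithTop.untop₀_nonneg.1 (show 0 ≤ od u c by rw [po] at h0; omega))
  refine ⟨fun y => g (zc c y), T.an_zc_self.comp h1, ?_⟩
  filter_upwards [(T.map_zc_ne hc).le h2, mem_nhdsWithin_of_mem_nhds (T.source_mem hc)] with y a b
  rw [← T.loc_zc (u := u) b]
  exact a

theorem mr_of_od (h0 : od u c ≠ 0) : Mr u c := by
  by_contra h
  exact h0 (by rw [od, ord, meromorphicOrderAt_of_not_meromorphicAt h, WithTop.untop₀_zero])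

theorem tendsto_of_po (h0 : po u c ≠ 0) : Tendsto u (𝓝[≠] c) (Bornology.cobounded ℂ) := by
  have : od u c < 0 := by rw [po] at h0; omega
  exact (od_neg_iff (mr_of_od this.ne)).1 this

theorem po_inv : po (fun y => (u y)⁻¹) c = ze u c := by rw [ze, po, od_inv, neg_neg]

theorem ze_inv : ze (fun y => (u y)⁻¹) c = po u c := by rw [ze, po, od_inv]

theorem po_neg : po (fun y => -u y) c = po u c := by rw [po, po, od_neg]

theorem po_const (a : ℂ) : po (fun _ : C => a) c = 0 := po_of_an (T.an_const a)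

theorem od_add (hu : Mr u c) (hv : Mr v c) (h1 : ∀ᶠ y in 𝓝[≠] c, u y ≠ 0)
    (h2 : ∀ᶠ y in 𝓝[≠] c, v y ≠ 0) (h0 : ∀ᶠ y in 𝓝[≠] c, u y + v y ≠ 0) :
    min (od u c) (od v c) ≤ od (fun y => u y + v y) c := by
  have h : min (meromorphicOrderAt (loc u c) (zc c c)) (meromorphicOrderAt (loc v c) (zc c c)) ≤
      meromorphicOrderAt (loc (fun y => u y + v y) c) (zc c c) := meromorphicOrderAt_add hu hv
  rw [hu.coe_od h1, hv.coe_od h2, (hu.add hv).coe_od h0] at h
  exact_mod_cast h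

theorem po_add_le_max (hu : Mr u c) (hv : Mr v c) :
    po (fun y => u y + v y) c ≤ max (po u c) (po v c) := by
  rcases hu.zero_or with h1 | h1
  · rw [po_congr (v := v) (h1.mono fun y hy => by simp only [hy, zero_add])]; omega
  rcases hv.zero_or with h2 | h2
  · rw [po_congr (v := u) (h2.mono fun y hy => by simp only [hy, add_zero])]; omega
  rcases (hu.add hv).zero_or with h3 | h3
  · have a := po_nonneg (u := u) (c := c)
    rw [po, od_of_zero h3]; omega
  have := od_add hu hv h1 h2 h3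
  rw [po, po, po]
  omega

theorem po_add_le (hu : Mr u c) (hv : Mr v c) :
    po (fun y => u y + v y) c ≤ po u c + po v c := by
  have a := po_nonneg (u := u) (c := c)
  have b := po_nonneg (u := v) (c := c)
  have d := po_add_le_max hu hv
  omega

theorem po_mul_le (hu : Mr u c) (hv : Mr v c) :
    po (fun y => u y * v y) c ≤ po u c + po v c := by
  have a := po_nonneg (u := u) (c := c)
  have b := po_nonneg (u := v) (c := c)
  rcases hu.zero_or with h1 | h1
  · rw [po, od_of_zero (h1.mono fun y hy => by rw [hy, zero_mul])]; omega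
  rcases hv.zero_or with h2 | h2
  · rw [po, od_of_zero (h2.mono fun y hy => by rw [hy, mul_zero])]; omega
  rw [po, po, po, od_mul hu hv h1 h2]
  omega

theorem po_pow (hu : Mr u c) (n : ℕ) : po (fun y => u y ^ n) c = n * po u c := by
  rw [po, po, od_pow hu, mul_max_of_nonneg _ _ (Nat.cast_nonneg n), mul_zero, mul_neg]

theorem po_add_an (hu : Mr u c) (hv : An v c) : po (fun y => u y + v y) c = po u c := by
  have a := po_add_le hu (mr_of_an hv)
  have b := po_add_le (hu.add (mr_of_an hv)) (mr_of_an hv.neg)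
  rw [po_of_an hv] at a
  rw [po_of_an hv.neg] at b
  simp only [add_neg_cancel_right] at b
  change po u c ≤ _ at b
  omega

theorem po_sub_const (hu : Mr u c) (a : ℂ) : po (fun y => u y - a) c = po u c := by
  simpa only [sub_eq_add_neg] using po_add_an hu (T.an_const (-a))

theorem po_prod_le {ι : Type} {s : Finset ι} {f : ι → C → ℂ} (h : ∀ i ∈ s, Mr (f i) c) :
    po (fun y => ∏ i ∈ s, f i y) c ≤ ∑ i ∈ s, po (f i) c := by
  classical
  induction s using Finset.induction_on with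
  | empty => simpa using (po_const (c := c) 1).le
  | insert a s ha ih =>
    have h1 := fun i hi => h i (Finset.mem_insert_of_mem hi)
    simp only [Finset.prod_insert ha, Finset.sum_insert ha]
    exact (po_mul_le (h a (Finset.mem_insert_self _ _)) (mr_prod h1)).trans
      (add_le_add_right (ih h1) _)

theorem po_sum_le {ι : Type} {s : Finset ι} {f : ι → C → ℂ} {k : ℤ} (hk : 0 ≤ k)
    (h : ∀ i ∈ s, Mr (f i) c ∧ po (f i) c ≤ k) : po (fun y => ∑ i ∈ s, f i y) c ≤ k := by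
  classical
  induction s using Finset.induction_on with
  | empty => simpa [po_const] using hk
  | insert a s ha ih =>
    have h1 := fun i hi => h i (Finset.mem_insert_of_mem hi)
    simp only [Finset.sum_insert ha]
    exact (po_add_le_max (h a (Finset.mem_insert_self _ _)).1
      (mr_sum fun i hi => (h1 i hi).1)).trans (max_le (h a (Finset.mem_insert_self _ _)).2 (ih h1))

theorem po_le_of_mul (hu : Mr u c) (hv : Mr v c) (h : ∀ᶠ y in 𝓝[≠] c, v y ≠ 0) :
    po u c ≤ po (fun y => u y * v y) c + ze v c := by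
  rw [← po_inv, po_congr (u := u) (v := fun y => u y * v y * (v y)⁻¹)
    (h.mono fun y hy => (mul_inv_cancel_right₀ hy _).symm)]
  exact po_mul_le (hu.mul hv) hv.inv

variable [RS C]

theorem cof_iff {P : C → Prop} : (∀ᶠ c in cofinite, P c) ↔ ∀ c, ∀ᶠ y in 𝓝[≠] c, P y :=
  ⟨fun h c => (T.eventually_notMem h c).mono fun _ a => not_not.1 a,
    fun h => T.finite_of_isolated fun c => (h c).mono fun _ a => not_not.2 a⟩

instance cof_neBot : (cofinite : Filter C).NeBot :=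
  NeBot.mono (f := 𝓝[≠] (Classical.arbitrary C)) inferInstance fun _ h => cof_iff.1 h _

theorem Nz.ne (h : Nz u) (c : C) : ∀ᶠ y in 𝓝[≠] c, u y ≠ 0 := cof_iff.1 h c

theorem mr_iff (hy : y ∈ (chartAt ℂ c).source) : Mr u y ↔ MeromorphicAt (loc u c) (zc c y) := by
  have h := meromorphicAt_comp_iff_of_deriv_ne_zero (f := loc u c) (g := loc (zc c) y)
    (T.an_zc hy) (T.D_zc_ne hy)
  rw [T.loc_self] at h
  rw [← h]
  exact MeromorphicAt.meromorphicAt_congr
    ((T.loc_congr (mem_chart_source ℂ y) (T.eq_loc hy)).filter_mono nhdsWithin_le_nhds)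

theorem od_loc (hy : y ∈ (chartAt ℂ c).source) : od u y = ord (loc u c) (zc c y) := by
  have h := meromorphicOrderAt_comp_of_deriv_ne_zero (f := loc u c) (g := loc (zc c) y)
    (T.an_zc hy) (T.D_zc_ne hy)
  rw [T.loc_self] at h
  rw [od, ord, ord, ← h]
  exact congrArg _ (meromorphicOrderAt_congr
    ((T.loc_congr (mem_chart_source ℂ y) (T.eq_loc hy)).filter_mono nhdsWithin_le_nhds))

theorem Mr.ev_an (h : Mr u c) : ∀ᶠ y in 𝓝[≠] c, An u y := by
  have hc := mem_chart_source ℂ c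
  filter_upwards [(T.map_zc_ne hc).le (MeromorphicAt.eventually_analyticAt h),
    mem_nhdsWithin_of_mem_nhds (T.source_mem hc)] with y a b using T.an_of_loc b a

theorem Mr.eventually (h : Mr u c) : ∀ᶠ y in 𝓝 c, Mr u y := by
  filter_upwards [eventually_nhdsWithin_iff.1 h.ev_an] with y a
  by_cases e : y = c
  · exact e ▸ h
  · exact mr_of_an (a e)

theorem ev_ne_ev {P : C → Prop} (h : ∀ᶠ y in 𝓝[≠] c, P y) :
    ∀ᶠ y in 𝓝 c, ∀ᶠ y' in 𝓝[≠] y, P y' := by
  filter_upwards [(eventually_nhdsWithin_iff.1 h).eventually_nhds] with y a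
  filter_upwards [nhdsWithin_le_nhds a, T.eventually_notMem (finite_singleton c) y] with y' b d
  exact b d

theorem Mr.ev_od (h : Mr u c) : ∀ᶠ y in 𝓝[≠] c, od u y = 0 := by
  rcases h.zero_or with h1 | h1
  · exact nhdsWithin_le_nhds ((ev_ne_ev h1).mono fun _ a => od_of_zero a)
  · filter_upwards [h.ev_an, h1] with y a b using od_of_ne a b

theorem Me.ev_an (h : Me u) : ∀ᶠ c in cofinite, An u c := cof_iff.2 fun c => (h c).ev_an

theorem Me.congr (h : Me u) (e : ∀ᶠ c in cofinite, u c = v c) : Me v :=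
  fun c => (h c).congr (cof_iff.1 e c)

theorem Me.zero_of (h : Me u) (h1 : ∀ᶠ y in 𝓝[≠] c, u y = 0) : ∀ᶠ c in cofinite, u c = 0 :=
  h.ev_an.mono fun y a => T.an_eq_zero h.ev_an (fun _ b => not_not.1 b) h1 y (not_not.2 a)

theorem Me.nz_or (h : Me u) : Nz u ∨ ∀ᶠ c in cofinite, u c = 0 := by
  rw [or_iff_not_imp_right]
  exact fun h1 => cof_iff.2 fun c => (h c).zero_or.resolve_left fun a => h1 (h.zero_of a)

theorem Me.nz_of (h : Me u) (h1 : ∀ᶠ y in 𝓝[≠] c, u y ≠ 0) : Nz u :=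
  h.nz_or.resolve_right fun a => by
    obtain ⟨y, b, d⟩ := (h1.and (cof_iff.1 a c)).exists
    exact b d

theorem Me.fs_od (h : Me u) : Fs (od u) :=
  (cof_iff.2 fun c => (h c).ev_od : ∀ᶠ c in cofinite, od u c = 0)

theorem Me.fs_ze (h : Me u) : Fs (ze u) :=
  h.fs_od.subset fun c a b => a (by rw [ze, b, max_self])

theorem Me.fs_po (h : Me u) : Fs (po u) :=
  h.fs_od.subset fun c a b => a (by rw [po, b, neg_zero, max_self])

theorem Me.const_of_po (h : Me u) (h0 : ∀ c, po u c = 0) : ∃ a, ∀ᶠ c in cofinite, u c = a := by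
  obtain ⟨v, h1, h2⟩ := T.an_extend (u := u) h.ev_an finite_empty (fun _ b _ => not_not.1 b)
    fun c _ => by
      obtain ⟨a, ha⟩ := (od_nonneg_iff (h c)).1 (by have := h0 c; rw [po] at this; omega)
      exact ⟨‖a‖ + 1, ha.norm.eventually (ge_mem_nhds (by simp))⟩
  obtain ⟨a, ha⟩ := T.const_of_an fun y => h1 y (Or.inr (notMem_empty y))
  exact ⟨a, h.ev_an.mono fun y b => by rw [← h2 y (not_not.2 b), ha]⟩

theorem Me.sum_ze (hO : SOd) (h : Me u) : ∑ᶠ c, ze u c = ∑ᶠ c, po u c := by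
  rw [← sub_eq_zero, ← finsum_sub_distrib h.fs_ze h.fs_po, ← hO C u h]
  exact finsum_congr fun c => od_eq.symm

theorem fm_D (h : Mr u c) : fm (Dc u) c =ᶠ[𝓝[≠] c] fun y => deriv (loc u c) (zc c y) := by
  filter_upwards [h.ev_an, mem_nhdsWithin_of_mem_nhds (T.source_mem (mem_chart_source ℂ c))]
    with y a b
  rw [fm, T.D_eq b a, mul_div_cancel_right₀ _ (T.D_zc_ne b)]

theorem loc_fm_D (h : Mr u c) : loc (fm (Dc u) c) c =ᶠ[𝓝[≠] (zc c c)] deriv (loc u c) := by
  filter_upwards [loc_congr_ne (fm_D h),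
    mem_nhdsWithin_of_mem_nhds (T.target_mem (mem_chart_source ℂ c))] with z a b
  rw [a]
  simp only [loc, Function.comp, T.zc_symm b]

theorem Mr.fm_D (h : Mr u c) : Mr (fm (Dc u) c) c :=
  (MeromorphicAt.deriv h).congr (loc_fm_D h).symm

theorem Me.meF_D (h : Me u) : MeF (Dc u) := fun c => (h c).fm_D

theorem odf_D (h : Mr u c) (h0 : od u c ≠ 0) : odf (Dc u) c = od u c - 1 := by
  have h1 := h.zero_or.resolve_left fun e => h0 (od_of_zero e)
  have h2 := meromorphicOrderAt_deriv_eq_sub_one (Int.cast_ne_zero.2 h0) (h.coe_od h1)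
  rw [← meromorphicOrderAt_congr (loc_fm_D h)] at h2
  exact od_of_eq h2

theorem fm_ne : (∀ᶠ y in 𝓝[≠] c, fm w c y ≠ 0) ↔ ∀ᶠ y in 𝓝[≠] c, w y ≠ 0 := by
  refine eventually_congr ?_
  filter_upwards [mem_nhdsWithin_of_mem_nhds (T.source_mem (mem_chart_source ℂ c))] with y b
  rw [fm, div_ne_zero_iff, and_iff_left (T.D_zc_ne b)]

theorem fm_zero : (∀ᶠ y in 𝓝[≠] c, fm w c y = 0) ↔ ∀ᶠ y in 𝓝[≠] c, w y = 0 := by
  refine eventually_congr ?_
  filter_upwards [mem_nhdsWithin_of_mem_nhds (T.source_mem (mem_chart_source ℂ c))] with y b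
  rw [fm, div_eq_zero_iff, or_iff_left (T.D_zc_ne b)]

theorem Me.nz_D (h : Me u) (hc : ¬ ∃ a, ∀ᶠ c in cofinite, u c = a) : Nz (Dc u) := by
  refine cof_iff.2 fun c => fm_ne.1 ((h c).fm_D.zero_or.resolve_left fun h1 => hc ?_)
  obtain ⟨y, a, b, b'⟩ := ((h c).ev_an.and (Eventually.and (nhdsWithin_le_nhds
    (eventually_nhdsWithin_iff.1 (fm_zero.1 h1)).eventually_nhds) self_mem_nhdsWithin)).exists
  have d : ∀ᶠ y' in 𝓝 y, Dc u y' = 0 := by
    filter_upwards [b, isOpen_compl_singleton.mem_nhds b'] with y' e f using e f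
  exact ⟨u y, (Me.zero_of (u := fun y' => u y' - u y) (fun x => (h x).sub (mr_const _))
    (nhdsWithin_le_nhds ((a.eventually_const d).mono fun _ e => sub_eq_zero.2 e))).mono
      fun _ e => sub_eq_zero.1 e⟩

omit [RS C] in
theorem meF_of_om (h : w ∈ Om C) : MeF w := fun c => mr_of_an (h c)

theorem nz_of_om (h : w ∈ Om C) (h0 : w ≠ 0) : Nz w :=
  (T.om_finite_zeros h h0).subset fun _ a => not_not.1 a

theorem odf_chart (hy : y ∈ (chartAt ℂ c).source) : odf w y = od (fm w c) y := by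
  have h1 : An (fm (Dc (zc c)) y) y := (T.an_zc hy).hf
  rw [odf, ← od_unit_mul (u := fm w c) h1 (by rw [fm, T.D_zc_self, div_one]; exact T.D_zc_ne hy)]
  refine od_congr ?_
  filter_upwards [mem_nhdsWithin_of_mem_nhds (T.source_mem hy)] with x a
  have := T.D_zc_ne a
  simp only [fm]
  field_simp

theorem MeF.fs (h : MeF w) : Fs (odf w) := by
  refine (cof_iff.2 fun c => ?_ : ∀ᶠ c in cofinite, odf w c = 0)
  filter_upwards [(h c).ev_od, mem_nhdsWithin_of_mem_nhds (T.source_mem (mem_chart_source ℂ c))]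
    with y a b
  rw [odf_chart b, a]

theorem div_eq_fm : (fun y => fm w c y / fm v c y) =ᶠ[𝓝[≠] c] fun y => w y / v y := by
  filter_upwards [mem_nhdsWithin_of_mem_nhds (T.source_mem (mem_chart_source ℂ c))] with y b
  rw [fm, fm, div_div_div_cancel_right₀ (T.D_zc_ne b)]

theorem MeF.div (h : MeF w) (h' : MeF v) : Me fun y => w y / v y :=
  fun c => ((h c).div (h' c)).congr div_eq_fm

theorem od_div_form (h : MeF w) (h' : MeF v) (h1 : Nz w) (h2 : Nz v) (c : C) :
    od (fun y => w y / v y) c = odf w c - odf v c := by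
  rw [← od_congr div_eq_fm, od_div (h c) (h' c) (fm_ne.2 (h1.ne c)) (fm_ne.2 (h2.ne c)), odf, odf]

theorem sKD (h1 : SFormDeg) (h2 : SGen0) (h3 : SGenP) : SKD := by
  intro C _ _ _ w a1 a2 a3
  by_cases h : ∀ v ∈ Om C, v = 0
  · obtain ⟨v, b1, b2, b3⟩ := h2 C h
    rw [h1 C w v a1 b1 a2 b2] at a3
    omega
  · push Not at h
    obtain ⟨v, b1, b2⟩ := h
    rw [h1 C w v a1 (meF_of_om b1) a2 (nz_of_om b1 b2)] at a3 ⊢
    exact h3 C v b1 b2 a3

end Pool.Agent.P.MP_7ede32_ag.Bnd
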