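import Pool.Agent.P.MP_7ede32_ag.Bnd.XT
import Pool.Agent.P.MP_7ede32_ag.Full.Qld
import Pool.Agent.P.MP_7ede32_ag.Full.QStr

/-!
The order of a meromorphic function along a section of the fibration.
-/

open Filter Topology Metric Set

noncomputable section

namespace Pool.Agent.P.MP_7ede32_ag.Bnd

open Geo Full
open Ell (E2 jac)

variable {X : Type} [MetricSpace X]

/-- off `Z` the function `F` is locally a quotient of analytic functions without zeros -/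
def MerX (S : Sf0 X) (Z : Set X) (F : X → ℂ) : Prop :=
  ∀ x, ∃ α β : X → ℂ, S.AnAt α x ∧ S.AnAt β x ∧
    ∀ᶠ y in 𝓝 x, y ∉ Z → α y ≠ 0 ∧ β y ≠ 0 ∧ F y = α y / β y

/-- `F` extends holomorphically over `Z` near `y`, with the value zero at `y` -/
def GdZ0 (S : Sf0 X) (Z : Set X) (F : X → ℂ) (y : X) : Prop :=
  ∃ F' : X → ℂ, S.AnAt F' y ∧ F' y = 0 ∧ ∀ᶠ y' in 𝓝 y, y' ∉ Z → F y' = F' y'

/-- on the fibre near `q w` the function `F ^ b` is close to `c` times the `a`-th power of the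
integral of the form -/
def QE (S : Sf0 X) (Z : Set X) (F : X → ℂ) (U : X → X → ℂ) (q : ℂ → X) (a b : ℕ) (c : ℂ) (κ η : ℝ)
    (w : ℂ) : Prop :=
  ∀ y ∉ Z, S.π y = S.Λ.mkQ w → dist (q w) y ≤ η → th U (q w) y ^ a ≠ 0 ∧
    ‖F y ^ b - c * th U (q w) y ^ a‖ ≤ κ * ‖c * th U (q w) y ^ a‖

/-- the points of the fibre near `x` that are different from `x` and not in `Z` -/
def fl (S : Sf0 X) (Z : Set X) (x : X) : Filter X := 𝓝[{y | y ∉ Z ∧ S.π y = S.π x ∧ y ≠ x}] x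

/-- the leading coefficient of `F ^ b` along the fibre at `x` -/
def lc (S : Sf0 X) (Z : Set X) (F : X → ℂ) (U : X → X → ℂ) (a b : ℕ) (x : X) : ℂ :=
  limUnder (fl S Z x) fun y => F y ^ b / th U x y ^ a

/-- the estimate holds locally uniformly near `w` -/
def QEL (S : Sf0 X) (Z : Set X) (F : X → ℂ) (U : X → X → ℂ) (q : ℂ → X) (a b : ℕ) (w : ℂ) : Prop :=
  AnalyticAt ℂ (lc S Z F U a b ∘ q) w ∧ lc S Z F U a b (q w) ≠ 0 ∧
    ∀ κ > 0, ∃ η > 0, ∀ᶠ w' in 𝓝 w, QE S Z F U q a b (lc S Z F U a b (q w')) κ η w'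

namespace Sv

variable {S : Sf0 X} {Z : Set X} {F : X → ℂ} {U : X → X → ℂ} {q : ℂ → X} {w : ℂ} {k m : ℕ}

/-- normal form of `F` and of the integral of the form near `q w` -/
def NF (S : Sf0 X) (Z : Set X) (F : X → ℂ) (U : X → X → ℂ) (q : ℂ → X) (k m : ℕ) (w : ℂ) : Prop :=
  ∃ v A B : X → ℂ, S.AnAt A (q w) ∧ S.AnAt B (q w) ∧ A (q w) ≠ 0 ∧ B (q w) ≠ 0 ∧
    S.AnAt v (q w) ∧ v (q w) = 0 ∧
    (∀ᶠ y in 𝓝 (q w), y ∉ Z → F y ≠ 0 ∧ F y = v y ^ k * A y) ∧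
    (∀ᶠ p in 𝓝 (w, q w), S.π p.2 = S.Λ.mkQ p.1 →
      th U (q p.1) p.2 = v p.2 ^ m * B p.2 ∧ (v p.2 = 0 → p.2 = q p.1)) ∧
    ∀ᶠ w' in 𝓝 w, (fl S Z (q w')).NeBot

lemma fl_le (x : X) : fl S Z x ≤ 𝓝 x := nhdsWithin_le_nhds

lemma fl_mem (x : X) : ∀ᶠ y in fl S Z x, y ∉ Z ∧ S.π y = S.π x ∧ y ≠ x := self_mem_nhdsWithin

lemma graph (hq : ContinuousAt q w) {P : ℂ × X → Prop} (h : ∀ᶠ p in 𝓝 (w, q w), P p) :
    ∀ᶠ w' in 𝓝 w, ∀ᶠ y in 𝓝 (q w'), P (w', y) := by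
  have h1 : Tendsto (fun w' => (w', q w')) (𝓝 w) (𝓝 (w, q w)) := tendsto_id.prodMk_nhds hq
  filter_upwards [h1.eventually h.eventually_nhds] with w' h2
  exact (tendsto_const_nhds.prodMk_nhds tendsto_id).eventually h2

lemma quot {v A B f t : ℂ} {a b : ℕ} (hab : a * m = b * k) (hf : f ≠ 0) (h1 : f = v ^ k * A)
    (h2 : t = v ^ m * B) (hB : B ≠ 0) : t ^ a ≠ 0 ∧ f ^ b = A ^ b / B ^ a * t ^ a := by
  have h3 : v ^ k ≠ 0 := left_ne_zero_of_mul (h1 ▸ hf)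
  have h4 : t ^ a = (v ^ k) ^ b * B ^ a := by
    rw [h2, mul_pow, ← pow_mul, ← pow_mul, mul_comm m, hab, mul_comm b]
  refine ⟨by rw [h4]; exact mul_ne_zero (pow_ne_zero _ h3) (pow_ne_zero _ hB), ?_⟩
  rw [h4, h1, mul_pow]
  field_simp

lemma NF.qel (h : NF S Z F U q k m w) (hq : ∀ᶠ w' in 𝓝 w, S.HolAt q w' ∧ S.π (q w') = S.Λ.mkQ w')
    {a b : ℕ} (hab : a * m = b * k) : QEL S Z F U q a b w := by
  obtain ⟨v, A, B, aA, aB, nA, nB, -, -, h1, h2, h3⟩ := h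
  have hc : ContinuousAt q w := hq.self_of_nhds.1.1
  set E : X → ℂ := fun y => A y ^ b / B y ^ a with hE
  have aE : S.AnAt E (q w) := fun e he hx =>
    ((aA e he hx).pow b).div ((aB e he hx).pow a) (by simpa [e.left_inv hx] using fun h => (nB h).elim)
  have nE : E (q w) ≠ 0 := div_ne_zero (pow_ne_zero _ nA) (pow_ne_zero _ nB)
  have h4 : ∀ᶠ p in 𝓝 (w, q w), p.2 ∉ Z → S.π p.2 = S.Λ.mkQ p.1 →
      th U (q p.1) p.2 ^ a ≠ 0 ∧ F p.2 ^ b = E p.2 * th U (q p.1) p.2 ^ a := by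
    have hs : Tendsto (fun p : ℂ × X => p.2) (𝓝 (w, q w)) (𝓝 (q w)) := continuous_snd.tendsto _
    filter_upwards [hs.eventually h1, h2, hs.eventually (aB.continuousAt.eventually_ne nB)]
      with p a1 a2 a3 a4 a5
    exact quot hab (a1 a4).1 (a1 a4).2 (a2 a5).1 a3
  have h5 : ∀ᶠ w' in 𝓝 w, lc S Z F U a b (q w') = E (q w') := by
    filter_upwards [graph hc h4, h3, hq, hc.eventually aE.eventually] with w' a1 a2 a3 a4
    refine Tendsto.limUnder_eq ((a4.continuousAt.tendsto.mono_left (fl_le _)).congr' ?_)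
    filter_upwards [fl_le _ a1, fl_mem (S := S) (Z := Z) (q w')] with y b1 b2
    obtain ⟨b3, b4⟩ := b1 b2.1 (b2.2.1.trans a3.2)
    rw [b4, mul_div_cancel_right₀ _ b3]
  refine ⟨(anAt_comp aE (hq.mono fun _ h => h.1)).congr (h5.mono fun _ h => h.symm),
    h5.self_of_nhds ▸ nE, fun κ hκ => ?_⟩
  have c1 : ContinuousAt (fun p : ℂ × X => E p.2) (w, q w) :=
    ContinuousAt.comp (f := fun p : ℂ × X => p.2) (g := E) (x := (w, q w)) aE.continuousAt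
      continuousAt_snd
  have c2 : ContinuousAt (fun p : ℂ × X => E (q p.1)) (w, q w) :=
    ContinuousAt.comp (f := fun p : ℂ × X => p.1) (g := E ∘ q) (aE.continuousAt.comp hc)
      continuousAt_fst
  have h6 : ∀ᶠ p in 𝓝 (w, q w), ‖E p.2 - E (q p.1)‖ < κ * ‖E (q p.1)‖ :=
    (c1.sub c2).norm.eventually_lt (continuousAt_const.mul c2.norm)
      (by simpa using mul_pos hκ (norm_pos_iff.2 nE))
  obtain ⟨η, h7, h8⟩ := tube hc (h4.and h6)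
  refine ⟨η, h7, ?_⟩
  filter_upwards [h8, h5] with w' a1 a2 y hy hπ hd
  obtain ⟨a3, a4⟩ := a1 y hd
  obtain ⟨a5, a6⟩ := a3 hy hπ
  refine ⟨a5, ?_⟩
  rw [a2, a6, ← sub_mul, norm_mul, norm_mul, ← mul_assoc]
  exact mul_le_mul_of_nonneg_right a4.le (norm_nonneg _)

lemma NF.tend (h : NF S Z F U q k m w) (hm : m ≠ 0) (hπ : S.π (q w) = S.Λ.mkQ w) :
    (fl S Z (q w)).NeBot ∧ Tendsto (th U (q w)) (fl S Z (q w)) (𝓝 0) ∧
      (∀ᶠ y in fl S Z (q w), th U (q w) y ≠ 0) ∧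
      ∃ c ≠ 0, Tendsto (fun y => F y ^ m / th U (q w) y ^ k) (fl S Z (q w)) (𝓝 c) := by
  obtain ⟨v, A, B, aA, aB, nA, nB, cv, v0, h1, h2, h3⟩ := h
  have h4 : ∀ᶠ y in fl S Z (q w), th U (q w) y = v y ^ m * B y ∧ v y ≠ 0 := by
    filter_upwards [fl_le _ ((tendsto_const_nhds.prodMk_nhds tendsto_id).eventually h2),
      fl_mem (S := S) (Z := Z) (q w)] with y a1 a2
    have a3 := a1 (a2.2.1.trans hπ)
    exact ⟨a3.1, fun a4 => a2.2.2 (a3.2 a4)⟩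
  have h5 := fl_le (S := S) (Z := Z) _ (aB.continuousAt.eventually_ne nB)
  refine ⟨h3.self_of_nhds, ?_, ?_, A (q w) ^ m / B (q w) ^ k,
    div_ne_zero (pow_ne_zero _ nA) (pow_ne_zero _ nB), ?_⟩
  · have h6 := ((cv.continuousAt.pow m).mul aB.continuousAt).tendsto.mono_left (fl_le (S := S) (Z := Z) _)
    simp only [Pi.mul_apply, Pi.pow_apply, v0, zero_pow hm, zero_mul] at h6
    exact h6.congr' (h4.mono fun y a => a.1.symm)
  · filter_upwards [h4, h5] with y a1 a2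
    rw [a1.1]
    exact mul_ne_zero (pow_ne_zero _ a1.2) a2
  · refine (((aA.continuousAt.pow m).div (aB.continuousAt.pow k)
      (pow_ne_zero _ nB)).tendsto.mono_left (fl_le (S := S) (Z := Z) _)).congr' ?_
    filter_upwards [h4, h5, fl_le _ h1, fl_mem (S := S) (Z := Z) (q w)] with y a1 a2 a3 a4
    obtain ⟨b1, b2⟩ := quot (a := k) (b := m) (mul_comm _ _) (a3 a4.1).1 (a3 a4.1).2 a1.1 a2
    rw [b2, mul_div_cancel_right₀ _ b1]
    rfl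

lemma ratio_le {α : Type} {l : Filter α} [l.NeBot] {f t : α → ℂ} {k m k' m' : ℕ} {c c' : ℂ}
    (h0 : Tendsto t l (𝓝 0)) (h1 : ∀ᶠ y in l, t y ≠ 0) (hc : c ≠ 0)
    (h2 : Tendsto (fun y => f y ^ m / t y ^ k) l (𝓝 c))
    (h3 : Tendsto (fun y => f y ^ m' / t y ^ k') l (𝓝 c')) : k' * m ≤ k * m' := by
  by_contra h
  obtain ⟨j, hj⟩ := Nat.exists_eq_add_of_lt (not_le.1 h)
  have h4 := (h3.pow m).mul (h0.pow (j + 1))
  rw [zero_pow j.succ_ne_zero, mul_zero] at h4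
  refine pow_ne_zero m' hc (tendsto_nhds_unique (h2.pow m') (h4.congr' (h1.mono fun y hy => ?_)))
  simp only [div_pow, ← pow_mul, hj, add_assoc, mul_comm m' m]
  rw [pow_add _ (k * m')]
  field_simp

lemma NF.ratio {k' m' : ℕ} (h : NF S Z F U q k m w) (h' : NF S Z F U q k' m' w) (hm : m ≠ 0)
    (hm' : m' ≠ 0) (hπ : S.π (q w) = S.Λ.mkQ w) : k * m' = k' * m := by
  obtain ⟨a1, a2, a3, c, a4, a5⟩ := h.tend hm hπ
  obtain ⟨-, -, -, c', b4, b5⟩ := h'.tend hm' hπ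
  exact le_antisymm (ratio_le a2 a3 b4 b5 a5) (ratio_le a2 a3 a4 a5 b5)

lemma NF.pos (h : NF S Z F U q k m w) (h0 : GdZ0 S Z F (q w)) : k ≠ 0 := by
  rintro rfl
  obtain ⟨v, A, B, aA, -, nA, -, -, -, h1, -, h3⟩ := h
  obtain ⟨F', a1, a2, a3⟩ := h0
  have := h3.self_of_nhds
  refine nA (a2 ▸ tendsto_nhds_unique (aA.continuousAt.tendsto.mono_left (fl_le (S := S) (Z := Z) _))
    ((a1.continuousAt.tendsto.mono_left (fl_le _)).congr' ?_))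
  filter_upwards [fl_le _ h1, fl_le _ a3, fl_mem (S := S) (Z := Z) (q w)] with y b1 b2 b3
  rw [← b2 b3.1, (b1 b3.1).2, pow_zero, one_mul]

lemma NF.gd (h : NF S Z F U q k m w) : GdZ S Z F (q w) ∧ (k ≠ 0 → GdZ0 S Z F (q w)) := by
  obtain ⟨v, A, B, aA, -, -, -, av, v0, h1, -, -⟩ := h
  have h2 : S.AnAt (fun y => v y ^ k * A y) (q w) := fun e he hx =>
    ((av e he hx).pow k).mul (aA e he hx)
  exact ⟨⟨_, h2, h1.mono fun y a b => (a b).2⟩, fun hk =>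
    ⟨_, h2, by rw [v0, zero_pow hk, zero_mul], h1.mono fun y a b => (a b).2⟩⟩

lemma not_both {x : X} [(fl S Z x).NeBot] (h0 : ∀ᶠ y in 𝓝 x, y ∉ Z → F y ≠ 0) (h1 : GdZ S Z F x)
    (h2 : GdZ0 S Z (fun y => (F y)⁻¹) x) : False := by
  obtain ⟨A, a1, a2⟩ := h1
  obtain ⟨B, b1, b2, b3⟩ := h2
  have h3 := (a1.continuousAt.mul b1.continuousAt).tendsto.mono_left (fl_le (S := S) (Z := Z) _)
  rw [Pi.mul_apply, b2, mul_zero] at h3
  refine zero_ne_one (tendsto_nhds_unique h3 (tendsto_const_nhds.congr' ?_))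
  filter_upwards [fl_le _ a2, fl_le _ b3, fl_le _ h0, fl_mem (S := S) (Z := Z) x] with y c1 c2 c3 c4
  rw [Pi.mul_apply, ← c1 c4.1, ← c2 c4.1, mul_inv_cancel₀ (c3 c4.1)]

lemma neBot {e : OpenPartialHomeomorph X E2} {x : X} {s : ℂ ⧸ S.Λ} {c : ℂ} {Φ : E2 → ℂ}
    (hx : x ∈ e.source) (h0 : (e x).2 = 0)
    (h1 : ∀ᶠ y in 𝓝 x, S.π y = s + S.Λ.mkQ ((e y).1 - c) ∧ (y ∈ Z → (e y).2 ^ k * Φ (e y) = 0))
    (h2 : ContinuousAt Φ (e x)) (h3 : Φ (e x) ≠ 0) : (fl S Z x).NeBot := by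
  have l1 : Tendsto (fun t : ℂ => (((e x).1, t) : E2)) (𝓝[≠] 0) (𝓝 (e x)) :=
    (Continuous.tendsto' (f := fun t : ℂ => (((e x).1, t) : E2)) (by fun_prop) 0 _
      (by rw [← h0])).mono_left nhdsWithin_le_nhds
  have l2 : Tendsto (fun t : ℂ => e.symm ((e x).1, t)) (𝓝[≠] 0) (𝓝 x) :=
    (e.tendsto_symm hx).comp l1
  refine NeBot.mono (f := map (fun t : ℂ => e.symm ((e x).1, t)) (𝓝[≠] 0)) inferInstance
    (tendsto_nhdsWithin_iff.2 ⟨l2, ?_⟩)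
  filter_upwards [l2.eventually h1, l1.eventually (h2.eventually_ne h3), self_mem_nhdsWithin,
    l1.eventually (e.open_target.mem_nhds (e.map_source hx))] with t a1 a2 a3 a4
  rw [e.right_inv a4] at a1
  refine ⟨fun a5 => mul_ne_zero (pow_ne_zero k a3) a2 (a1.2 a5),
    by rw [a1.1, h1.self_of_nhds.1], fun a5 => a3 ?_⟩
  have := congrArg (fun y => (e y).2) a5
  simpa [e.right_inv a4, h0] using this

end Sv

end Pool.Agent.P.MP_7ede32_ag.Bnd
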