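import Pool.Agent.P.MP_7ede32_ag.Bnd.Sv0

/-!
The normal form of a meromorphic function along a section, off a discrete set.
-/

open Filter Topology Metric Set

noncomputable section

namespace Pool.Agent.P.MP_7ede32_ag.Bnd

open Geo Full
open Ell (E2 jac)

variable {X : Type} [MetricSpace X]

namespace Sv

variable {S : Sf0 X} {Z K : Set X} {F : X → ℂ} {U : X → X → ℂ} {q : ℂ → X} {w : ℂ} {l η : ℝ}
  {O : Set ℂ} {e : OpenPartialHomeomorph X E2}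

lemma ev_ev {P : ℂ → Prop} (h : ∀ᶠ w' in 𝓝[≠] w, P w') :
    ∀ᶠ w' in 𝓝[≠] w, ∀ᶠ w'' in 𝓝 w', P w'' := by
  filter_upwards [nhdsWithin_le_nhds (eventually_nhdsWithin_iff.1 h).eventually_nhds,
    self_mem_nhdsWithin] with w' a b
  filter_upwards [a, isOpen_compl_singleton.mem_nhds b] with w'' c d using c d

lemma unshift {P : ℂ → Prop} (h : ∀ᶠ t in 𝓝[≠] (0 : ℂ), P t) : ∀ᶠ w' in 𝓝[≠] w, P (w' - w) :=
  QStr.shift (P := fun w' => P (w' - w)) (by simpa using h)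

/-- the integral of the form in a chart adapted to the section -/
lemma theta (h2 : SDiv2) (h3 : SOsg)
    (hω : ∀ e ∈ S.A, ∀ x ∈ e.source, ¬ ∀ᶠ p in 𝓝 (e x), S.ω e p = 0) (hT : S.ThOk K l U η)
    (hO : IsOpen O) (hq : S.SecOn 0 q O) (hK : ∀ w ∈ O, q w ∈ K) (hw : w ∈ O)
    (he : PCh S e (q w)) (e0 : e (q w) = 0) (hs : ∀ᶠ w' in 𝓝 w, e (q w') = (w' - w, 0)) :
    ∃ (m : ℕ) (B : E2 → ℂ), m ≠ 0 ∧ AnalyticAt ℂ B 0 ∧ (∀ᶠ t in 𝓝[≠] (0 : ℂ), B (t, 0) ≠ 0) ∧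
      ∀ᶠ p in 𝓝 (w, q w), S.π p.2 = S.Λ.mkQ p.1 →
        th U (q p.1) p.2 = (e p.2).2 ^ m * B (e p.2) ∧ ((e p.2).2 = 0 → p.2 = q p.1) := by
  have hV : ∀ᶠ y in 𝓝 (q w), S.RP (U (q w)) y := by
    filter_upwards [ball_mem_nhds (q w) hT.pos] with y hy
    exact (hT.1 _ (hK w hw) y hy).1
  have aG : AnalyticAt ℂ (U (q w) ∘ e.symm) 0 := h3 _ _ (e0 ▸ hV.self_of_nhds.2.1 e he.1 he.2.1)
  obtain ⟨k, F', aF, eF, nF⟩ := h2 (fun u => (U (q w) ∘ e.symm) u - (U (q w) ∘ e.symm) (u.1, 0))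
    (aG.sub (aG.comp_of_eq (f := fun u : E2 => ((u.1, 0) : E2))
      (analyticAt_fst.prod analyticAt_const) rfl)) (e0 ▸ Qld.not_zero he hV (hω e he.1 _ he.2.1))
  have hk : k ≠ 0 := by
    rintro rfl
    have l : Tendsto (fun t : ℂ => ((t, 0) : E2)) (𝓝[≠] 0) (𝓝 0) :=
      ((continuous_id.prodMk continuous_const).tendsto' 0 0 rfl).mono_left nhdsWithin_le_nhds
    obtain ⟨t, k1, k2⟩ := ((l.eventually eF).and nF).exists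
    exact k2 (by simpa using k1.symm)
  obtain ⟨N, hN, hN'⟩ := Qld.same_fst he
  have ce : Tendsto e (𝓝 (q w)) (𝓝 0) := e0 ▸ e.continuousAt he.2.1
  have t1 : Tendsto (fun p : ℂ × X => p.1) (𝓝 (w, q w)) (𝓝 w) := continuous_fst.tendsto _
  have t2 : Tendsto (fun p : ℂ × X => p.2) (𝓝 (w, q w)) (𝓝 (q w)) := continuous_snd.tendsto _
  have t3 : Tendsto (fun p : ℂ × X => q p.1) (𝓝 (w, q w)) (𝓝 (q w)) := (hq w hw).1.1.tendsto.comp t1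
  have hS := (show ∀ᶠ y in 𝓝 (q w), y ∈ N from hN).and (e.open_source.mem_nhds he.2.1)
  refine ⟨k, F', hk, aF, nF, ?_⟩
  filter_upwards [t1.eventually (hs.and (hO.mem_nhds hw)), t2.eventually (hS.and (ce.eventually eF)),
    t3.eventually (hS.and (ball_mem_nhds (q w) (half_pos hT.pos))),
    (t3.dist t2).eventually (ge_mem_nhds (by simpa using hT.2.1))] with p a1 a2 a3 a4 hπ
  have hπ' : S.π p.2 = S.π (q p.1) := by rw [hπ, (hq _ a1.2).2, zero_add]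
  have e1 : e (q p.1) = ((e p.2).1, 0) := by rw [hN' _ a2.1.1 _ a3.1.1 hπ', a1.1]
  refine ⟨?_, fun h => e.injOn a2.1.2 a3.1.2 (by rw [e1, ← h])⟩
  rw [hT.2.2.2 _ (hK w hw) _ (hK _ a1.2) a3.2 _ hπ' a4, ← a2.2, ← e1]
  simp only [Function.comp, e.left_inv a2.1.2, e.left_inv a3.1.2]

lemma freq (hZ : Crv S Z) (x : X) : ∃ᶠ y in 𝓝 x, y ∉ Z := by
  obtain ⟨Φ, -, h1, h2⟩ := hZ x
  exact ((not_eventually.1 h1).and_eventually h2).mono fun y a b => a.1 (a.2 b)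

/-- the local normal form -/
lemma loc_nf (h1 : SPch) (h2 : SDiv2) (h3 : SOsg)
    (hω : ∀ e ∈ S.A, ∀ x ∈ e.source, ¬ ∀ᶠ p in 𝓝 (e x), S.ω e p = 0) (hT : S.ThOk K l U η)
    (hO : IsOpen O) (hq : S.SecOn 0 q O) (hK : ∀ w ∈ O, q w ∈ K) (hZ : Crv S Z) (hF : MerX S Z F)
    (hw : w ∈ O) : ∃ k m : ℕ, m ≠ 0 ∧ ((∀ᶠ w' in 𝓝[≠] w, NF S Z F U q k m w') ∨
      k ≠ 0 ∧ ∀ᶠ w' in 𝓝[≠] w, NF S Z (fun y => (F y)⁻¹) U q k m w') := by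
  obtain ⟨e, he, e0, hs⟩ := (h1 X S).2.2 q w (by
    filter_upwards [hO.mem_nhds hw] with w' hw'
    exact ⟨(hq w' hw').1, by rw [(hq w' hw').2, zero_add]⟩)
  have hs' : ∀ᶠ w' in 𝓝 w, e (q w') = (w' - w, 0) := by
    simpa using (Continuous.tendsto' (f := fun w' => w' - w) (by fun_prop) w 0
      (sub_self w)).eventually hs
  obtain ⟨m, B, hm, aB, nB, hB⟩ := theta h2 h3 hω hT hO hq hK hw he e0 hs'
  obtain ⟨α, β, aα, aβ, hab⟩ := hF (q w)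
  have fr := (freq hZ (q w)).and_eventually hab
  obtain ⟨i, α', α1, α2⟩ := QStr.div h2 he.1 he.2.1 e0 aα fun h =>
    (fr.and_eventually h).exists.elim fun y a => (a.1.2 a.1.1).1 a.2
  obtain ⟨j, β', β1, β2⟩ := QStr.div h2 he.1 he.2.1 e0 aβ fun h =>
    (fr.and_eventually h).exists.elim fun y a => (a.1.2 a.1.1).2.1 a.2
  obtain ⟨Φ, aΦ, nΦ, hΦ⟩ := hZ (q w)
  obtain ⟨n, Φ', Φ1, Φ2⟩ := QStr.div h2 he.1 he.2.1 e0 aΦ nΦ
  have cq : ContinuousAt q w := (hq w hw).1.1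
  have ce : Tendsto e (𝓝 (q w)) (𝓝 0) := e0 ▸ e.continuousAt he.2.1
  have hsrc : ∀ᶠ y in 𝓝 (q w), y ∈ e.source := e.open_source.mem_nhds he.2.1
  have nb : ∀ᶠ w' in 𝓝[≠] w, (fl S Z (q w')).NeBot := by
    filter_upwards [unshift (w := w) Φ2, nhdsWithin_le_nhds (hs'.and (cq.eventually
      (hsrc.and (Φ1.and (he.2.2.and hΦ))).eventually_nhds))] with w' a1 a2
    refine neBot (k := n) (Φ := Φ') a2.2.self_of_nhds.1 (by rw [a2.1])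
      (a2.2.mono fun y b => ⟨b.2.2.1, fun c => b.2.1.2 ▸ b.2.2.2 c⟩)
      a2.2.self_of_nhds.2.1.1.continuousAt (a2.1 ▸ a1)
  have key : ∀ (G : X → ℂ) (a b : E2 → ℂ) (k : ℕ), (∀ᶠ t in 𝓝[≠] (0 : ℂ), a (t, 0) ≠ 0) →
      (∀ᶠ t in 𝓝[≠] (0 : ℂ), b (t, 0) ≠ 0) →
      (∀ᶠ y in 𝓝 (q w), AnalyticAt ℂ a (e y) ∧ AnalyticAt ℂ b (e y) ∧
        (y ∉ Z → G y ≠ 0 ∧ G y = (e y).2 ^ k * (a (e y) / b (e y)))) →
      ∀ᶠ w' in 𝓝[≠] w, NF S Z G U q k m w' := fun G a b k a1 a2 a3 => by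
    filter_upwards [unshift (w := w) a1, unshift (w := w) a2, unshift (w := w) nB, ev_ev nb,
      nhdsWithin_le_nhds (hs'.and (cq.eventually (hsrc.and (a3.and
        (ce.eventually aB.eventually_analyticAt))).eventually_nhds)),
      nhdsWithin_le_nhds ((tendsto_id.prodMk_nhds cq).eventually hB.eventually_nhds)]
      with w' b1 b2 b3 b4 b5 b6
    obtain ⟨c1, ⟨c2, c3, -⟩, c4⟩ := b5.2.self_of_nhds
    rw [← b5.1] at b1 b2 b3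
    have an1 : AnalyticAt ℂ (fun _ : E2 => (1 : ℂ)) (e (q w')) := analyticAt_const
    refine ⟨fun y => (e y).2, fun y => a (e y) / b (e y), fun y => B (e y),
      by simpa using QStr.quo he.1 c1 c2 c3 b2 0, by simpa using QStr.quo he.1 c1 c4 an1 one_ne_zero 0,
      div_ne_zero b1 b2, b3, by simpa using QStr.quo he.1 c1 an1 an1 one_ne_zero 1,
      congrArg Prod.snd b5.1,
      b5.2.mono fun y c => c.2.1.2.2, b6, b4⟩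
  rcases le_or_gt j i with hk | hk
  · obtain ⟨k, rfl⟩ := Nat.exists_eq_add_of_le hk
    refine ⟨k, m, hm, Or.inl (key F α' β' k α2 β2 ?_)⟩
    filter_upwards [α1, β1, hab] with y a1 a2 a3
    refine ⟨a1.1, a2.1, fun hy => ?_⟩
    obtain ⟨b1, b2, b3⟩ := a3 hy
    refine ⟨b3 ▸ div_ne_zero b1 b2, ?_⟩
    rw [b3, a1.2, a2.2, pow_add, mul_assoc, mul_div_mul_left _ _ (left_ne_zero_of_mul (a2.2 ▸ b2)),
      mul_div_assoc]
  · obtain ⟨k, rfl⟩ := Nat.exists_eq_add_of_lt hk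
    refine ⟨k + 1, m, hm, Or.inr ⟨k.succ_ne_zero, key _ β' α' (k + 1) β2 α2 ?_⟩⟩
    filter_upwards [α1, β1, hab] with y a1 a2 a3
    refine ⟨a2.1, a1.1, fun hy => ?_⟩
    obtain ⟨b1, b2, b3⟩ := a3 hy
    refine ⟨inv_ne_zero (b3 ▸ div_ne_zero b1 b2), ?_⟩
    rw [b3, inv_div, a1.2, a2.2, add_assoc, pow_add, mul_assoc,
      mul_div_mul_left _ _ (left_ne_zero_of_mul (a1.2 ▸ b1)), mul_div_assoc]

lemma NF.neBot {k m : ℕ} (h : NF S Z F U q k m w) : (fl S Z (q w)).NeBot := by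
  obtain ⟨-, -, -, -, -, -, -, -, -, -, -, h3⟩ := h
  exact h3.self_of_nhds

lemma ne_zero (hF : MerX S Z F) (x : X) : ∀ᶠ y in 𝓝 x, y ∉ Z → F y ≠ 0 := by
  obtain ⟨α, β, -, -, h⟩ := hF x
  exact h.mono fun y a b => (a b).2.2 ▸ div_ne_zero (a b).1 (a b).2.1

/-- `F` is holomorphic along the section, or `1 / F` is holomorphic and vanishes on it -/
theorem dich (h1 : SPch) (h2 : SDiv2) (h3 : SOsg)
    (hω : ∀ e ∈ S.A, ∀ x ∈ e.source, ¬ ∀ᶠ p in 𝓝 (e x), S.ω e p = 0) (hT : S.ThOk K l U η)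
    (hO : IsOpen O) (hc : IsPreconnected O) (hq : S.SecOn 0 q O) (hK : ∀ w ∈ O, q w ∈ K)
    (hZ : Crv S Z) (hF : MerX S Z F) :
    (∀ w ∈ O, ∀ᶠ w' in 𝓝[≠] w, GdZ S Z F (q w')) ∨
      ∀ w ∈ O, ∀ᶠ w' in 𝓝[≠] w, GdZ0 S Z (fun y => (F y)⁻¹) (q w') := by
  refine (hc.subset_or_subset (u := O ∩ {w | ∀ᶠ w' in 𝓝[≠] w, GdZ S Z F (q w')})
    (v := O ∩ {w | ∀ᶠ w' in 𝓝[≠] w, GdZ0 S Z (fun y => (F y)⁻¹) (q w')})
    (hO.inter isOpen_setOfPred_eventually_nhdsWithin)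
    (hO.inter isOpen_setOfPred_eventually_nhdsWithin) ?_ ?_).imp (fun h w hw => (h hw).2)
      fun h w hw => (h hw).2
  · rw [Set.disjoint_left]
    rintro w ⟨a1, a2⟩ ⟨-, a3⟩
    obtain ⟨k, m, -, a4⟩ := loc_nf h1 h2 h3 hω hT hO hq hK hZ hF a1
    obtain ⟨w', b1, b2, b3⟩ := (Eventually.and (a4.elim (·.mono fun _ => NF.neBot)
      (·.2.mono fun _ => NF.neBot)) (Eventually.and a2 a3)).exists
    exact not_both (ne_zero hF _) b2 b3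
  · intro w hw
    obtain ⟨k, m, -, a4⟩ := loc_nf h1 h2 h3 hω hT hO hq hK hZ hF hw
    exact a4.imp (fun h => ⟨hw, h.mono fun _ a => a.gd.1⟩)
      fun h => ⟨hw, h.2.mono fun _ a => a.gd.2 h.1⟩

/-- the order of `F` along the section -/
theorem order (h1 : SPch) (h2 : SDiv2) (h3 : SOsg)
    (hω : ∀ e ∈ S.A, ∀ x ∈ e.source, ¬ ∀ᶠ p in 𝓝 (e x), S.ω e p = 0) (hT : S.ThOk K l U η)
    (hO : IsOpen O) (hc : IsPreconnected O) (hq : S.SecOn 0 q O) (hK : ∀ w ∈ O, q w ∈ K)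
    (hZ : Crv S Z) (hF : MerX S Z F) (hG : ∀ w ∈ O, ∀ᶠ w' in 𝓝[≠] w, GdZ S Z F (q w')) :
    ∃ a b : ℕ, b ≠ 0 ∧ (∀ w ∈ O, ∀ᶠ w' in 𝓝[≠] w, QEL S Z F U q a b w') ∧
      ((∃ w ∈ O, ∃ᶠ w' in 𝓝[≠] w, GdZ0 S Z F (q w')) → a ≠ 0) ∧
      (a ≠ 0 → ∀ w ∈ O, ∀ᶠ w' in 𝓝[≠] w, GdZ0 S Z F (q w')) := by
  have h4 : ∀ w ∈ O, ∃ k m : ℕ, m ≠ 0 ∧ ∀ᶠ w' in 𝓝[≠] w, NF S Z F U q k m w' := fun w hw => by
    obtain ⟨k, m, a1, a2⟩ := loc_nf h1 h2 h3 hω hT hO hq hK hZ hF hw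
    refine ⟨k, m, a1, a2.resolve_right fun a3 => ?_⟩
    obtain ⟨w', b1, b2⟩ := (a3.2.and (hG w hw)).exists
    have := b1.neBot
    exact not_both (ne_zero hF _) b2 (b1.gd.2 a3.1)
  rcases O.eq_empty_or_nonempty with rfl | ⟨w₀, h0⟩
  · exact ⟨0, 1, one_ne_zero, by simp⟩
  obtain ⟨a, b, hb, h5⟩ := h4 w₀ h0
  have h6 : ∀ w ∈ O, ∀ᶠ w' in 𝓝[≠] w, w' ∈ O := fun w hw => nhdsWithin_le_nhds (hO.mem_nhds hw)
  have h7 : O ⊆ O ∩ {w | ∀ᶠ w' in 𝓝[≠] w, ∃ k m, m ≠ 0 ∧ NF S Z F U q k m w' ∧ a * m = b * k} := by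
    refine hc.subset_left_of_subset_union
      (v := O ∩ {w | ∀ᶠ w' in 𝓝[≠] w, ∃ k m, m ≠ 0 ∧ NF S Z F U q k m w' ∧ a * m ≠ b * k})
      (hO.inter isOpen_setOfPred_eventually_nhdsWithin)
      (hO.inter isOpen_setOfPred_eventually_nhdsWithin) ?_ (fun w hw => ?_)
      ⟨w₀, h0, h0, h5.mono fun _ c => ⟨a, b, hb, c, mul_comm _ _⟩⟩
    · rw [Set.disjoint_left]
      rintro w ⟨a1, a2⟩ ⟨-, a3⟩
      obtain ⟨w', b0, ⟨k, m, b1, b2, b3⟩, k', m', b4, b5, b6⟩ :=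
        ((h6 w a1).and (Eventually.and a2 a3)).exists
      have b7 := b2.ratio b5 b1 b4 (by rw [(hq w' b0).2, zero_add])
      refine b6 (Nat.eq_of_mul_eq_mul_right (Nat.pos_of_ne_zero b1) ?_)
      rw [mul_right_comm, b3, mul_assoc, b7, mul_assoc]
    · obtain ⟨k, m, a1, a2⟩ := h4 w hw
      by_cases c : a * m = b * k
      exacts [Or.inl ⟨hw, a2.mono fun _ d => ⟨k, m, a1, d, c⟩⟩,
        Or.inr ⟨hw, a2.mono fun _ d => ⟨k, m, a1, d, c⟩⟩]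
  refine ⟨a, b, hb, fun w hw => ?_, ?_, fun ha w hw => ?_⟩
  · filter_upwards [(h7 hw).2, h6 w hw] with w' ⟨k, m, _, c1, c2⟩ c3
    refine c1.qel ?_ c2
    filter_upwards [hO.mem_nhds c3] with w'' c4
    exact ⟨(hq w'' c4).1, by rw [(hq w'' c4).2, zero_add]⟩
  · rintro ⟨w, hw, c⟩ rfl
    obtain ⟨w', c1, k, m, -, c2, c3⟩ := (c.and_eventually (h7 hw).2).exists
    exact mul_ne_zero hb (c2.pos c1) (by rw [← c3, zero_mul])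
  · filter_upwards [(h7 hw).2] with w' ⟨k, m, c0, c1, c2⟩
    exact c1.gd.2 (right_ne_zero_of_mul (c2 ▸ mul_ne_zero ha c0))

end Sv

end Pool.Agent.P.MP_7ede32_ag.Bnd
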