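import Pool.Agent.P.MP_7ede32_ag.Bnd.Sv1

/-!
Extensions with the value zero, and uniform bounds near a periodic section.
-/

open Filter Topology Metric Set

noncomputable section

namespace Pool.Agent.P.MP_7ede32_ag.Bnd

open Geo Full

variable {X : Type} [MetricSpace X] {S : Sf0 X} {Z Z' : Set X} {F G : X → ℂ} {x y : X}

lemma Lq.merX (h : Lq S Z F) (h0 : ∀ y ∉ Z, F y ≠ 0) : MerX S Z F := fun x =>
  let ⟨α, β, a1, a2, a3⟩ := h x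
  ⟨α, β, a1, a2, a3.mono fun y b c =>
    ⟨fun d => h0 y c (by rw [(b c).2, d, zero_div]), b c⟩⟩

lemma GdZ0.mono (h : GdZ0 S Z F y) (h' : Z ⊆ Z') : GdZ0 S Z' F y :=
  let ⟨G, h1, h0, h2⟩ := h
  ⟨G, h1, h0, h2.mono fun _ a b => a fun c => b (h' c)⟩

lemma GdZ0.gd (h : GdZ0 S Z F y) : GdZ S Z F y :=
  let ⟨G, h1, _, h2⟩ := h
  ⟨G, h1, h2⟩

lemma gdZ0_iff (hZ : Cz S Z) : GdZ0 S Z F y ↔ GdZ S Z F y ∧ extZ Z F y = 0 :=
  ⟨fun ⟨G, h1, h0, h2⟩ => ⟨⟨G, h1, h2⟩, (extZ_eq hZ h1 h2).self_of_nhds.trans h0⟩,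
    fun h => ⟨_, h.1.anAt hZ, h.2, h.1.eq hZ⟩⟩

/-- a point excludes at most one value -/
lemma GdZ0.unique {a b : ℂ} (hZ : Cz S Z) (hZ' : Cz S Z') (h : GdZ0 S Z (fun x => F x - a) y)
    (h' : GdZ0 S Z' (fun x => F x - b) y) : a = b := by
  obtain ⟨A, a1, a2, a3⟩ := h
  obtain ⟨B, b1, b2, b3⟩ := h'
  have h1 := (eq_of_off (hZ.union hZ') (anX_add a1 (anX_const a)) (anX_add b1 (anX_const b)) (by
    filter_upwards [a3, b3] with x c1 c2 c3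
    rw [← c1 fun h => c3 (Or.inl h), ← c2 fun h => c3 (Or.inr h), sub_add_cancel,
      sub_add_cancel])).self_of_nhds
  simpa [a2, b2] using h1

namespace Sv

variable {Λ : Submodule ℤ ℂ} {R₀ : ℝ} {K : Set ℂ} {q : ℂ → X}

/-- uniform bounds near a periodic section -/
theorem unif (hZ : Cz S Z) (hN : Net Λ R₀) (hK : IsClosed K)
    (hp : ∀ p ∈ Λ, ∀ w ∈ K, w + p ∈ K ∧ q (w + p) = q w) (hq : ∀ w ∈ K, ContinuousAt q w)
    (hG : ∀ w ∈ K, GdZ S Z F (q w)) : (∃ B > 0, ∀ w ∈ K, ‖extZ Z F (q w)‖ ≤ B) ∧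
      ∀ ε > 0, ∃ η > 0, ∀ w ∈ K, ∀ y, dist (q w) y ≤ η →
        GdZ S Z F y ∧ ‖extZ Z F y - extZ Z F (q w)‖ ≤ ε := by
  have hc : ∀ w ∈ K, ContinuousAt (extZ Z F) (q w) := fun w hw => ((hG w hw).anAt hZ).continuousAt
  refine ⟨?_, fun ε hε => sUni Λ R₀ K (fun η w => ∀ y, dist (q w) y ≤ η →
    GdZ S Z F y ∧ ‖extZ Z F y - extZ Z F (q w)‖ ≤ ε) hN hK
    (fun p a w b => ⟨(hp p a w b).1, fun η c => by simpa only [(hp p a w b).2] using c⟩)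
    (fun η η' w _ a b y c => b y (c.trans a)) fun w hw => ?_⟩
  · obtain ⟨η, a, b⟩ := sUni Λ R₀ K (fun η w => ‖extZ Z F (q w)‖ ≤ η⁻¹) hN hK
      (fun p a w b => ⟨(hp p a w b).1, fun η c => by simpa only [(hp p a w b).2] using c⟩)
      (fun η η' w a b c => c.trans (inv_anti₀ a b)) fun w hw =>
        ⟨(‖extZ Z F (q w)‖ + 1)⁻¹, by positivity, by
          rw [inv_inv]
          exact ((hc w hw).comp (hq w hw)).norm.eventually (ge_mem_nhds (lt_add_one _))⟩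
    exact ⟨η⁻¹, inv_pos.2 a, b⟩
  · have t1 : Tendsto (fun p : ℂ × X => p.1) (𝓝 (w, q w)) (𝓝 w) := continuous_fst.tendsto _
    have t2 : Tendsto (fun p : ℂ × X => p.2) (𝓝 (w, q w)) (𝓝 (q w)) := continuous_snd.tendsto _
    exact tube (hq w hw) (P := fun p => GdZ S Z F p.2 ∧ ‖extZ Z F p.2 - extZ Z F (q p.1)‖ ≤ ε)
      ((t2.eventually (hG w hw).eventually).and ((((hc w hw).tendsto.comp t2).sub
        (((hc w hw).tendsto.comp (hq w hw)).comp t1)).norm.eventually (ge_mem_nhds (by simpa))))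

/-- the estimate along a periodic section is uniform -/
theorem unifQ {U : X → X → ℂ} {a b : ℕ} (hN : Net Λ R₀) (hΛ : Λ ≤ S.Λ) (hK : IsClosed K)
    (hp : ∀ p ∈ Λ, ∀ w ∈ K, w + p ∈ K ∧ q (w + p) = q w) (hQ : ∀ w ∈ K, QEL S Z F U q a b w)
    {κ : ℝ} (hκ : 0 < κ) : ∃ η > 0, ∀ w ∈ K, QE S Z F U q a b (lc S Z F U a b (q w)) κ η w :=
  sUni Λ R₀ K (fun η w => QE S Z F U q a b (lc S Z F U a b (q w)) κ η w) hN hK
    (fun p h1 w h2 => ⟨(hp p h1 w h2).1, fun η h3 y h4 h5 h6 => by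
      have h7 := h3 y h4 (by rw [h5, map_add, (Submodule.Quotient.mk_eq_zero _).2 (hΛ h1) |>.trans
        rfl |> (show S.Λ.mkQ p = 0 from ·), add_zero])
      rw [(hp p h1 w h2).2] at h7
      exact h7 h6⟩)
    (fun η η' w _ h1 h2 y h3 h4 h5 => h2 y h3 h4 (h5.trans h1)) fun w hw => (hQ w hw).2.2 κ hκ

end Sv

end Pool.Agent.P.MP_7ede32_ag.Bnd
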