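import Pool.Agent.P.MP_7ede32_ag.Bnd.DX
import Pool.Agent.P.MP_7ede32_ag.Bnd.FldX

/-!
The analytic certificate.
-/

open Filter Topology Set
open scoped Polynomial

noncomputable section

namespace Pool.Agent.P.MP_7ede32_ag.Bnd

open Full Geo TrG

namespace TrX

lemma lead_all {M α ι : Type} [Field M] [Algebra ℂ M] {l : Filter α} {r : M → α → ℂ} (hr : EH l r)
    (hc : ∀ c, ∀ᶠ p in l, r (algebraMap ℂ M c) p = c) {u χ : M} (z : ι → M)
    (h : ∀ z, ∃ P : MvPolynomial (Fin 3) ℂ, P ≠ 0 ∧ MvPolynomial.aeval ![u, χ, z] P = 0)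
    (s : Finset ι) : ∃ H : MvPolynomial (Fin 2) ℂ, H ≠ 0 ∧ PE l (fun p => 1 + ‖r u p‖ + ‖r χ p‖)
      fun p => (∑ i ∈ s, ‖r (z i) p‖) * ‖ev2 H (r u p) (r χ p)‖ := by
  classical
  have hw : ∀ p, 1 ≤ 1 + ‖r u p‖ + ‖r χ p‖ := fun p => by
    linarith [norm_nonneg (r u p), norm_nonneg (r χ p)]
  have hp : ∀ H, PE l (fun p => 1 + ‖r u p‖ + ‖r χ p‖) fun p => ‖ev2 H (r u p) (r χ p)‖ := fun H =>
    PE.of_pb (AlL.mv hw (fun p => ![r u p, r χ p]) (fun p i => by
      fin_cases i <;> simp <;> linarith [norm_nonneg (r u p), norm_nonneg (r χ p)]) H)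
  induction s using Finset.induction_on with
  | empty => exact ⟨1, one_ne_zero, by simpa using PE.const le_rfl⟩
  | insert a s ha ih =>
    obtain ⟨H, h1, h2⟩ := lead hr hc (h (z a))
    obtain ⟨G, g1, g2⟩ := ih
    refine ⟨H * G, mul_ne_zero h1 g1, ((h2.mul hw (hp G) fun _ => norm_nonneg _).add hw
      (g2.mul hw (hp H) fun _ => norm_nonneg _)).mono (Eventually.of_forall fun q => ?_)⟩
    simp only [Finset.sum_insert ha, ev2, map_mul, norm_mul]
    exact le_of_eq (by ring)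

variable {X : Type} [MetricSpace X] {S : Sf0 X}

lemma an_mul {f g : X → ℂ} {x : X} (hf : S.AnAt f x) (hg : S.AnAt g x) (n : ℕ) :
    S.AnAt (fun y => f y * g y ^ n) x := fun e he hx => (hf e he hx).mul ((hg e he hx).pow n)

end TrX

open TrX in
theorem sAC (h1 : SIndep) (h2 : SSieg) (h3 : SFib) (h4 : SHom) (h5 : SNz) : SAC := by
  intro X _ _ _ S L M hN
  classical
  have nz := h5 X S L M
  obtain ⟨R⟩ := exists_rf M nz
  have ren : ∀ {n : ℕ} (j : Fin n → M.ι) (P : MvPolynomial (Fin n) ℂ),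
      MvPolynomial.aeval (R.ζ ∘ j) P = 0 ↔ M.Van (MvPolynomial.rename j P) := fun j P => by
    rw [← R.ker, MvPolynomial.aeval_rename]
  have hind : ∀ P : MvPolynomial (Fin 2) ℂ,
      MvPolynomial.aeval ![R.ζ M.iu, R.ζ M.ix] P = 0 → P = 0 := fun P hP =>
    h1 X S L M hN P ((ren _ P).1 (by
      rw [← hP]
      congr 2
      funext j
      fin_cases j <;> rfl))
  obtain ⟨d, δ, d1, d2, d3, e1, e2, e3, hw, ⟨cb⟩⟩ := mkCB M.ι R.K R.ζ M.iu M.ix M.ia M.μ M.μ_pos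
    (fun h => by
      obtain ⟨y, hy⟩ := (nz 1 R.nv_one (Classical.arbitrary X)).exists
      have := (R.ker (MvPolynomial.X M.ia)).1 (by rwa [MvPolynomial.aeval_X]) y hy.1
      exact M.a_ne y hy.1 (by simpa [Mf.ev] using this)) R.gen hind
    (fun i => by
      obtain ⟨P, a, b⟩ := h2 X S L M ![M.iu, M.ix, i]
      refine ⟨P, a, ?_⟩
      rw [← (ren _ P).2 b]
      congr 2
      funext j
      fin_cases j <;> rfl)
    fun Q hQ => by
      obtain ⟨Φ, hΦ⟩ := h3 X S L M Q hN hQ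
      exact ⟨Φ, fun P hP => (hΦ P hP).trans (R.ker P).symm⟩
  obtain ⟨m, Y, h, H, H₀, K, k, a1, a2, -, a3, ind, a4⟩ :=
    trG R.K X R.l R.r R.eh R.const _ _ 0 d δ d1 d2 hind hw cb
  obtain ⟨H₁, b1, K₁, k₁, b2, b3⟩ := lead_all R.eh R.const R.ζ
    (fun z => (aDep R.K _ _ cb.χ z d d1 d2 cb.dχ hind hw).2) Finset.univ
  obtain ⟨-, -, -, c4, c5⟩ := aEvP R.K X R.l R.r R.eh R.const
  have ne : ∀ G : MvPolynomial (Fin 2) ℂ, G ≠ 0 →
      ∀ᶠ p in R.l, ev2 G (uf M p) (R.r cb.χ p) ≠ 0 := fun G hG => by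
    filter_upwards [c5 _ ![R.ζ M.iu, cb.χ] G, c4 _ fun h => hG (ind G h), R.zeta M.iu]
      with p f1 f2 f3
    have : (fun i => R.r (![R.ζ M.iu, cb.χ] i) p) = ![uf M p, R.r cb.χ p] := by
      ext i
      fin_cases i
      exacts [f3, rfl]
    rw [ev2, ← this, ← f1]
    exact f2.1
  choose P Q hQ _ hr using R.rep
  have qz := fun z => (R.ne (hQ z)).mono fun _ h => h.2
  have ch := R.chain d δ M.iu M.ix d1 d2 d3 e1 e2 e3 hw
  obtain ⟨n, hn⟩ : ∃ n, ∀ i, (Y i).natDegree < n :=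
    ⟨Finset.univ.sup (fun i => (Y i).natDegree) + 1, fun i =>
      Nat.lt_succ_of_le (Finset.le_sup (f := fun i => (Y i).natDegree) (Finset.mem_univ i))⟩
  obtain ⟨D, hD, hE⟩ := (R.mem _).1 (a4.and (b3.and ((ne H₁ b1).and ((eventually_all.2 R.zeta).and
    ((AlE.zero R.eh).and ((ch cb.χ).and ((qz cb.χ).and ((qz 0).and
    (((eventually_all_finset cb.s).2 fun y hy => (ch y).and ((qz y).and (c4 y (cb.hs y hy).1))).and
    (eventually_all.2 fun i => (eventually_all_finset (Finset.range n)).2 fun j _ =>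
      qz ((Y i).coeff j)))))))))))
  obtain ⟨Z, hZ⟩ : ∃ Z : Set X, ∀ p, p ∉ Z ↔ p ∉ M.Z ∧ M.ev D p ≠ 0 :=
    ⟨{p | ¬ (p ∉ M.Z ∧ M.ev D p ≠ 0)}, fun _ => not_not⟩
  replace hE := fun p (hp : p ∉ Z) => hE p ((hZ p).1 hp).1 ((hZ p).1 hp).2
  have lq : ∀ z, (∀ p ∉ Z, M.ev (Q z) p ≠ 0) → Lq S Z (R.r z) := fun z hz x => by
    obtain ⟨a, A, hA⟩ := h4 X S L M (P z)
    obtain ⟨b, B, hB⟩ := h4 X S L M (Q z)
    have hd := (M.an x x (M.mem_U x)).1
    refine ⟨_, _, an_mul (hA x x (M.mem_U x)).1 hd (b + 1),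
      an_mul (hB x x (M.mem_U x)).1 hd (a + 1), ?_⟩
    filter_upwards [(M.U_open x).mem_nhds (M.mem_U x)] with y hy hy'
    have g1 : M.den x y ≠ 0 := fun e => ((hZ y).1 hy').1 ((M.Z_iff x y hy).2 e)
    have g2 := hz y hy'
    rw [(hA x y hy).2, (hB x y hy).2, hr]
    exact ⟨by positivity, by field_simp⟩
  have sl1 : ∀ z γ t, Ok M Z γ t → (∀ (γ' : ℂ → X) (t' : ℂ), S.HolAt γ' t' → γ' t' = γ t →
      deriv (R.r z ∘ γ') t' = R.r (δ.D z) (γ t) * deriv (M.f M.iu ∘ γ') t' +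
        R.r (d.D z) (γ t) * deriv (M.f M.ix ∘ γ') t') → sl M (R.r z) γ t =
      R.r (δ.D z) (γ t) + sl M (xf M) γ t * R.r (d.D z) (γ t) := fun z γ t ok h => by
    have := ok.du
    rw [sl, sl, h γ t ok.hol.self_of_nhds rfl]
    field_simp
  have yv : ∀ γ t, Ok M Z γ t → ∀ i, Yv M n (fun j => R.r ((Y i).coeff j)) γ t =
      evP R.r (Y i) (γ t, sl M (xf M) γ t) := fun γ t ok i => by
    refine (Finset.sum_subset (Finset.range_mono (hn i)) fun j _ hj => ?_).symm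
    beta_reduce
    rw [Polynomial.coeff_eq_zero_of_natDegree_lt (by simpa using hj),
      (hE _ ok.off).2.2.2.2.1, zero_mul]
  have sy : ∀ f : R.K → ℝ, ∑ β, f (cb.s.equivFin.symm β) = ∑ y ∈ cb.s, f y := fun f => by
    rw [cb.s.equivFin.symm.sum_comp fun y : cb.s => f y, Finset.sum_coe_sort cb.s f]
  have bw : ∀ u, 1 ≤ Bw h u := fun u => by
    rw [Bw, add_assoc]
    exact le_add_of_nonneg_right (by positivity)
  refine ⟨{ Z := Z, m := m, d := n, nb := cb.s.card, χ := R.r cb.χ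
            cf := fun i j => R.r ((Y i).coeff j), y := fun β => R.r (cb.s.equivFin.symm β)
            h := h, H := H, H₁ := H₁, K := K + K₁, k := k + k₁, N := cb.N
            sub := fun p hp => by_contra fun h => ((hZ p).1 h).1 hp
            cz := fun x => ?_, lχ := lq _ fun p hp => (hE p hp).2.2.2.2.2.2.1
            lcf := fun i j => lq _ fun p hp => ?_
            ly := fun β => lq _ fun p hp =>
              ((hE p hp).2.2.2.2.2.2.2.2.1 _ (cb.s.equivFin.symm β).2).2.1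
            ind := fun G hG x => ?_, h_ne := a1, H_ne := a2, K_nonneg := add_nonneg a3 b2
            N_pos := cb.N_pos, off := fun p hp => ⟨?_, (hE p hp).2.2.1, fun β =>
              ((hE p hp).2.2.2.2.2.2.2.2.1 _ (cb.s.equivFin.symm β).2).2.2.1⟩
            c1 := fun γ t ok i => ?_, c2 := fun γ t ok => ?_, c3 := fun γ t ok => ?_
            c4 := fun i p hp => ?_ }⟩
  · obtain ⟨a, A, hA⟩ := h4 X S L M D
    have hU := (M.U_open x).mem_nhds (M.mem_U x)
    have g : ∀ᶠ y in 𝓝 x, (y ∈ Z ↔ A x y = 0) := by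
      filter_upwards [hU] with y hy
      rw [(hA x y hy).2, ← not_iff_not, hZ, M.Z_iff x y hy, mul_eq_zero, not_or,
        pow_eq_zero_iff (Nat.succ_ne_zero a)]
    refine ⟨A x, (hA x x (M.mem_U x)).1, fun h => ?_, g⟩
    obtain ⟨y, g1, g2, g3⟩ := ((nz D hD x).and_eventually (h.and g)).exists
    exact (hZ y).2 g1 (g3.2 g2)
  · by_cases hj : j < n
    · exact (hE p hp).2.2.2.2.2.2.2.2.2 i j (Finset.mem_range.2 hj)
    · rw [Polynomial.coeff_eq_zero_of_natDegree_lt ((hn i).trans_le (not_lt.1 hj))]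
      exact (hE p hp).2.2.2.2.2.2.2.1
  · obtain ⟨D', g1, g2⟩ := (R.mem _).1 ((R.ne hD).and (ne G hG))
    exact (nz D' g1 x).mono fun y hy => ⟨(hZ y).2 (g2 y hy.1 hy.2).1, (g2 y hy.1 hy.2).2⟩
  · rw [ev2, uf, ← (hE p hp).2.2.2.1]
    exact (hE p hp).1.2.1
  · obtain ⟨⟨-, -, -, -, f1⟩, -, -, f2, -, -, -, -, f3, -⟩ := hE _ ok.off
    have g := (f1 (sl M (xf M) γ t)).1 i
    rw [yv γ t ok, sy fun y => ‖sl M (R.r y) γ t‖ / (1 + ‖R.r y (γ t)‖ ^ 2),
      Finset.sum_congr rfl fun y hy => by rw [sl1 y γ t ok (f3 y hy).1]]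
    rw [f2] at g
    exact up g (le_add_of_le_of_nonneg (bw _) (Finset.sum_nonneg fun _ _ => by positivity)) a3
      (le_add_of_nonneg_right b2) (Nat.le_add_right _ _)
  · obtain ⟨⟨-, -, -, -, f1⟩, -, -, f2, -, f3, -⟩ := hE _ ok.off
    have g := (f1 (sl M (xf M) γ t)).2.1
    rw [sl1 _ γ t ok f3, Finset.sum_congr rfl fun i _ => by rw [yv γ t ok i]]
    rw [f2] at g
    exact up g (le_add_of_le_of_nonneg (le_add_of_le_of_nonneg (bw _) (norm_nonneg _))
      (Finset.sum_nonneg fun _ _ => norm_nonneg _)) a3 (le_add_of_nonneg_right b2)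
      (Nat.le_add_right _ _)
  · obtain ⟨⟨-, -, -, -, f1⟩, -, -, f2, -, f3, -⟩ := hE _ ok.off
    have g := (f1 (sl M (xf M) γ t)).2.2
    rw [sl1 _ γ t ok f3, Finset.sum_congr rfl fun i _ => by rw [yv γ t ok i]]
    rw [f2] at g
    refine g.trans (mul_le_mul_of_nonneg_right (up le_rfl ?_ a3 (le_add_of_nonneg_right b2)
      (Nat.le_add_right _ _)) (Finset.sum_nonneg fun _ _ => norm_nonneg _))
    rw [add_assoc, add_assoc]
    exact le_add_of_nonneg_right (by positivity)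
  · obtain ⟨-, f1, -, f2, -⟩ := hE p hp
    simp only [f2] at f1
    refine up (le_trans (mul_le_mul_of_nonneg_right (Finset.single_le_sum
      (f := fun i => ‖M.f i p‖) (fun _ _ => norm_nonneg _) (Finset.mem_univ i)) (norm_nonneg _)) f1)
      ?_ b2 (le_add_of_nonneg_left a3) (Nat.le_add_left _ _)
    rw [add_assoc]
    exact le_add_of_nonneg_right (by positivity)

end Pool.Agent.P.MP_7ede32_ag.Bnd
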